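import Pool.Agent.Lib_MP_59ec1f_cap.Bridge

/-!
# A model gives the statement
-/

set_option autoImplicit false

open scoped ContDiff
open Filter Topology

namespace Pool.Agent.Lib_MP_59ec1f_cap

private theorem fderiv_comp_apply {E F' G' : Type} [NormedAddCommGroup E] [NormedSpace ℝ E] [NormedAddCommGroup F']
    [NormedSpace ℝ F'] [NormedAddCommGroup G'] [NormedSpace ℝ G'] {f : F' → G'} {g : E → F'} {p : E}
    (hf : DifferentiableAt ℝ f (g p)) (hg : DifferentiableAt ℝ g p) (v : E) :
    fderiv ℝ (fun q => f (g q)) p v = fderiv ℝ f (g p) (fderiv ℝ g p v) := by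
  have h := (hf.hasFDerivAt.comp p hg.hasFDerivAt).fderiv
  have h' : fderiv ℝ (fun q => f (g q)) p = (fderiv ℝ f (g p)).comp (fderiv ℝ g p) := h
  rw [h']
  rfl

theorem knot_of_model {M : Set E4} {F : E4 → ℝ} {C : Set E3} (h : IsModel M F C) :
    IsLegendrianKnot (toK ⁻¹' C) := by
  constructor
  · obtain ⟨e⟩ := h.circle
    have e' : (toK ⁻¹' C : Set E3) ≃ₜ C :=
      { toFun := fun p => ⟨toK p.1, p.2⟩
        invFun := fun q => ⟨frK q.1, by
          change toK (frK q.1) ∈ C
          rw [toK_frK]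
          exact q.2⟩
        left_inv := fun p => Subtype.ext (frK_toK p.1)
        right_inv := fun q => Subtype.ext (toK_frK q.1)
        continuous_toFun := by
          apply Continuous.subtype_mk
          exact toK_contDiff.continuous.comp continuous_subtype_val
        continuous_invFun := by
          apply Continuous.subtype_mk
          exact frK_continuous.comp continuous_subtype_val }
    exact ⟨e'.trans e⟩
  · intro p hp
    obtain ⟨U, G, hU, hpU, hG, hCU, hd⟩ := h.curve (toK p) hp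
    have hKc := toK_contDiff.continuous
    refine ⟨toK ⁻¹' U, fun q => G (toK q), hU.preimage hKc, hpU,
      hG.comp toK_contDiff.contDiffOn (fun q hq => hq), ?_, ?_⟩
    · ext q
      constructor
      · rintro ⟨h1, h2⟩
        refine ⟨h2, ?_⟩
        have h3 : toK q ∈ C ∩ U := ⟨h1, h2⟩
        rw [hCU] at h3
        exact h3.2
      · rintro ⟨h1, h2⟩
        have h3 : toK q ∈ {q ∈ U | G q = 0} := ⟨h1, h2⟩
        rw [← hCU] at h3
        exact ⟨h3.1, h1⟩
    · rintro q ⟨h1, h2⟩
      obtain ⟨h3, h4⟩ := hd (toK q) ⟨h1, h2⟩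
      have hGd : DifferentiableAt ℝ G (toK q) := (hG.contDiffAt (hU.mem_nhds h2)).differentiableAt (by simp)
      have hTd : DifferentiableAt ℝ toK q := (toK_contDiff.differentiable (by simp)).differentiableAt
      have h5 : ∀ v, fderiv ℝ (fun q => G (toK q)) q v = fderiv ℝ G (toK q) (fderiv ℝ toK q v) :=
        fun v => fderiv_comp_apply hGd hTd v
      constructor
      · intro y
        obtain ⟨a, ha⟩ := h3 y
        obtain ⟨v, hv⟩ := toK_surj q a
        exact ⟨v, by rw [h5, hv, ha]⟩
      · intro v hv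
        rw [h5] at hv
        have h6 := h4 _ hv
        obtain ⟨e0, e1, e2⟩ := fderiv_toK q v
        rw [e1, e2] at h6
        have h7 : toK q 0 = q 0 := rfl
        rw [h7] at h6
        linarith

theorem cap_of_model {M : Set E4} {F : E4 → ℝ} {C : Set E3} (h : IsModel M F C) :
    IsExactCap (toK ⁻¹' C) (toM ⁻¹' M) ∧ Nonempty ((toM ⁻¹' M : Set E4) ≃ₜ PuncturedTorus) := by
  obtain ⟨A, hA, hMA⟩ := h.closed
  have hMpos : ∀ m ∈ M, 0 < m 0 := by
    intro m hm
    rw [hMA] at hm
    exact hm.2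
  have hTc := toM_contDiff.continuous
  -- the homeomorphism
  obtain ⟨e⟩ := h.torus
  have e' : (toM ⁻¹' M : Set E4) ≃ₜ M :=
    { toFun := fun p => ⟨toM p.1, p.2⟩
      invFun := fun q => ⟨frM q.1, by
        change toM (frM q.1) ∈ M
        rw [toM_frM (hMpos q.1 q.2)]
        exact q.2⟩
      left_inv := fun p => Subtype.ext (frM_toM p.1)
      right_inv := fun q => Subtype.ext (toM_frM (hMpos q.1 q.2))
      continuous_toFun := by
        apply Continuous.subtype_mk
        exact hTc.comp continuous_subtype_val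
      continuous_invFun := by
        apply Continuous.subtype_mk
        exact frM_continuousOn.comp_continuous continuous_subtype_val fun q => hMpos q.1 q.2 }
  refine ⟨?_, ⟨e'.trans e⟩⟩
  have hclosed : IsClosed (toM ⁻¹' M) := by
    have h1 : toM ⁻¹' M = toM ⁻¹' A := by
      ext p
      constructor
      · intro hp
        have hp' : toM p ∈ M := hp
        rw [hMA] at hp'
        exact hp'.1
      · intro hp
        change toM p ∈ M
        rw [hMA]
        exact ⟨hp, toM_pos p⟩
    rw [h1]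
    exact hA.preimage hTc
  have hconn : IsConnected (toM ⁻¹' M) := by
    have h1 : IsConnected (Set.univ : Set (toM ⁻¹' M : Set E4)) := by
      have h2 := puncturedTorus_connected.image (e'.trans e).symm (e'.trans e).symm.continuous.continuousOn
      rwa [Set.image_univ, (e'.trans e).symm.surjective.range_eq] at h2
    rw [isConnected_iff_connectedSpace]
    exact connectedSpace_iff_univ.2 h1
  refine ⟨hclosed, hconn, fun p => F (toM p) - (toM p 1 * toM p 2 + toM p 0 * toM p 3), ?_, ?_⟩
  · intro p hp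
    obtain ⟨U, G, g, hU, hpU, hG, hg, hMU, hd⟩ := h.smooth (toM p) hp
    set hh : E4 → ℝ := fun q => g (toM q) - (toM q 1 * toM q 2 + toM q 0 * toM q 3) with hhh
    have hU' : IsOpen (toM ⁻¹' U) := hU.preimage hTc
    have hG' : ContDiffOn ℝ ∞ (fun q => G (toM q)) (toM ⁻¹' U) := hG.comp toM_contDiff.contDiffOn (fun q hq => hq)
    have hcoord : ∀ i : Fin 4, ContDiff ℝ ∞ fun q : E4 => toM q i := fun i =>
      (EuclideanSpace.proj (𝕜 := ℝ) i).contDiff.comp toM_contDiff
    have hh' : ContDiffOn ℝ ∞ hh (toM ⁻¹' U) := by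
      apply ContDiffOn.sub
      · exact hg.comp toM_contDiff.contDiffOn (fun q hq => hq)
      · exact (((hcoord 1).mul (hcoord 2)).add ((hcoord 0).mul (hcoord 3))).contDiffOn
    have hLU : toM ⁻¹' M ∩ toM ⁻¹' U = {q ∈ toM ⁻¹' U | G (toM q) = 0} := by
      ext q
      constructor
      · rintro ⟨h1, h2⟩
        refine ⟨h2, ?_⟩
        have h3 : toM q ∈ M ∩ U := ⟨h1, h2⟩
        rw [hMU] at h3
        exact h3.2
      · rintro ⟨h1, h2⟩
        have h3 : toM q ∈ {q ∈ U | G q = 0} := ⟨h1, h2⟩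
        rw [← hMU] at h3
        exact ⟨h3.1, h1⟩
    have hTd : ∀ q, DifferentiableAt ℝ toM q := fun q => (toM_contDiff.differentiable (by simp)).differentiableAt
    have hGf : ∀ q ∈ toM ⁻¹' U, ∀ v, fderiv ℝ (fun q => G (toM q)) q v = fderiv ℝ G (toM q) (fderiv ℝ toM q v) := by
      intro q hq v
      have hGd : DifferentiableAt ℝ G (toM q) := (hG.contDiffAt (hU.mem_nhds hq)).differentiableAt (by simp)
      exact fderiv_comp_apply hGd (hTd q) v
    have hex : ∀ q ∈ toM ⁻¹' U, G (toM q) = 0 → ∀ v, fderiv ℝ (fun q => G (toM q)) q v = 0 →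
        fderiv ℝ hh q v = lam q v := by
      intro q hq hq0 v hv
      have hqM : toM q ∈ M ∩ U := by
        rw [hMU]
        exact ⟨hq, hq0⟩
      obtain ⟨h1, h2, h3⟩ := hd (toM q) hqM
      rw [hGf q hq] at hv
      have h4 := h3 _ hv
      have hgd : DifferentiableAt ℝ g (toM q) := (hg.contDiffAt (hU.mem_nhds hq)).differentiableAt (by simp)
      have hg1 : HasFDerivAt (fun q => g (toM q)) ((fderiv ℝ g (toM q)).comp (fderiv ℝ toM q)) q :=
        hgd.hasFDerivAt.comp q (hTd q).hasFDerivAt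
      have hci : ∀ i : Fin 4, HasFDerivAt (fun q => toM q i) ((EuclideanSpace.proj (𝕜 := ℝ) i).comp (fderiv ℝ toM q)) q :=
        fun i => (EuclideanSpace.proj (𝕜 := ℝ) i).hasFDerivAt.comp q (hTd q).hasFDerivAt
      have hh1 := (hg1.sub (((hci 1).mul (hci 2)).add ((hci 0).mul (hci 3)))).fderiv
      have hh2 : fderiv ℝ hh q v = fderiv ℝ g (toM q) (fderiv ℝ toM q v) -
          ((toM q 1 * (fderiv ℝ toM q v) 2 + toM q 2 * (fderiv ℝ toM q v) 1) +
            (toM q 0 * (fderiv ℝ toM q v) 3 + toM q 3 * (fderiv ℝ toM q v) 0)) := by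
        have := congrArg (fun T : E4 →L[ℝ] ℝ => T v) hh1
        exact this
      rw [hh2, h4]
      obtain ⟨e0, e1, e2, e3⟩ := fderiv_toM q v
      obtain ⟨t0, t1, t2, t3⟩ := toM_apply q
      rw [e0, e1, e2, e3, t0, t1, t2, t3]
      unfold lam
      ring
    have hsur : ∀ q ∈ toM ⁻¹' M ∩ toM ⁻¹' U, Function.Surjective (fderiv ℝ (fun q => G (toM q)) q) := by
      intro q hq y
      obtain ⟨h1, h2, h3⟩ := hd (toM q) hq
      obtain ⟨a, ha⟩ := h2 y
      obtain ⟨v, hv⟩ := toM_surj q a
      exact ⟨v, by rw [hGf q hq.2, hv, ha]⟩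
    refine ⟨toM ⁻¹' U, fun q => G (toM q), hh, hU', hpU, hG', hh', hLU, ?_⟩
    intro q hq
    have hq' := hq
    rw [hLU] at hq'
    obtain ⟨h1, h2, h3⟩ := hd (toM q) hq
    refine ⟨?_, hsur q hq, ?_⟩
    · change F (toM q) - _ = g (toM q) - _
      rw [h1]
    · intro v w hv hw
      exact ⟨om_zero hU' hG' hh' hex hq'.1 hq'.2 (hsur q hq) hv hw, hex q hq'.1 hq'.2 v hv⟩
  · obtain ⟨s₀, hs₀, hcone⟩ := h.cone
    obtain ⟨S, hS⟩ := h.bdd
    set T : ℝ := max 1 (max (-Real.log s₀) (Real.log (max S 1))) with hT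
    have hT1 : 1 ≤ T := le_max_left _ _
    have hT2 : -Real.log s₀ ≤ T := (le_max_left _ _).trans (le_max_right _ _)
    have hT3 : Real.log (max S 1) ≤ T := (le_max_right _ _).trans (le_max_right _ _)
    have hlow : ∀ p : E4, p 0 < -T → 0 < toM p 0 ∧ toM p 0 ≤ s₀ := by
      intro p hp
      refine ⟨toM_pos p, ?_⟩
      change Real.exp (p 0) ≤ s₀
      have h1 : p 0 ≤ Real.log s₀ := by linarith
      calc Real.exp (p 0) ≤ Real.exp (Real.log s₀) := Real.exp_le_exp.2 h1
        _ = s₀ := Real.exp_log hs₀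
    refine ⟨T, by linarith, ?_, ?_, 0, ?_⟩
    · intro p hp
      have h1 : Real.exp (p 0) ≤ S := hS (toM p) hp
      have h2 : Real.exp (p 0) ≤ max S 1 := h1.trans (le_max_left _ _)
      have h3 : p 0 ≤ Real.log (max S 1) := by
        rw [Real.le_log_iff_exp_le (lt_of_lt_of_le one_pos (le_max_right _ _))]
        exact h2
      linarith
    · intro p hp
      obtain ⟨h1, h2⟩ := hlow p hp
      have h3 := (hcone (toM p) h1 h2).1
      have h4 : (!₂[toM p 1 / toM p 0, toM p 2, toM p 3] : E3) = toK !₂[p 1, p 2, p 3] := by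
        ext i
        fin_cases i
        · change Real.exp (p 0) * p 1 / Real.exp (p 0) = p 1
          have : Real.exp (p 0) ≠ 0 := (Real.exp_pos _).ne'
          field_simp
        · rfl
        · rfl
      rw [h4] at h3
      exact h3
    · intro p hp hp1
      obtain ⟨h1, h2⟩ := hlow p hp1
      have h3 := (hcone (toM p) h1 h2).2 hp
      change F (toM p) - (toM p 1 * toM p 2 + toM p 0 * toM p 3) = 0
      rw [h3]
      ring

/-- a model gives the statement -/
theorem statement_of_model {M : Set E4} {F : E4 → ℝ} {C : Set E3} (h : IsModel M F C) : Statement :=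
  ⟨toK ⁻¹' C, toM ⁻¹' M, knot_of_model h, (cap_of_model h).1, (cap_of_model h).2⟩

end Pool.Agent.Lib_MP_59ec1f_cap
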