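import Pool.Agent.Lib_MP_59ec1f_cap.Exact

/-!
# The coordinates `s, X, Y, τ`

`s = e^t`, `X = s x`, `Y = -y`, `τ = x y - z`: then `e^t (dz - y dx) = - X dY - s dτ = Y dX + τ ds - d(X Y + s τ)`.
A surface `M` in `{s > 0}` with a primitive `F`, `dF = Y dX + τ ds`, and a cone for small `s`, gives the statement
(`statement_of_model`).
-/

set_option autoImplicit false

open scoped ContDiff
open Filter Topology

namespace Pool.Agent.Lib_MP_59ec1f_cap

/-- from `t, x, y, z` to `s, X, Y, τ` -/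
noncomputable def toM (p : E4) : E4 := !₂[Real.exp (p 0), Real.exp (p 0) * p 1, -p 2, p 1 * p 2 - p 3]

/-- from `s, X, Y, τ` to `t, x, y, z` -/
noncomputable def frM (m : E4) : E4 := !₂[Real.log (m 0), m 1 / m 0, -m 2, -(m 1 * m 2 / m 0) - m 3]

/-- from `x, y, z` to `X, Y, τ` (for `s = 1`) -/
noncomputable def toK (p : E3) : E3 := !₂[p 0, -p 1, p 0 * p 1 - p 2]

/-- `M` is a surface in `{s > 0}` (coordinates `s, X, Y, τ`) with primitive `F`, and `C` the curve such that `M` is the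
cone `{(s, s X₀, Y₀, τ₀)}` over it for `s ≤ s₀` -/
structure IsModel (M : Set E4) (F : E4 → ℝ) (C : Set E3) : Prop where
  closed : ∃ A : Set E4, IsClosed A ∧ M = A ∩ {m | 0 < m 0}
  smooth : ∀ m ∈ M, ∃ (U : Set E4) (G : E4 → E2) (h : E4 → ℝ), IsOpen U ∧ m ∈ U ∧ ContDiffOn ℝ ∞ G U ∧
    ContDiffOn ℝ ∞ h U ∧ M ∩ U = {q ∈ U | G q = 0} ∧ ∀ q ∈ M ∩ U, F q = h q ∧
      Function.Surjective (fderiv ℝ G q) ∧ ∀ v, fderiv ℝ G q v = 0 → fderiv ℝ h q v = q 2 * v 1 + q 3 * v 0
  cone : ∃ s₀ > 0, ∀ m : E4, 0 < m 0 → m 0 ≤ s₀ →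
    (m ∈ M ↔ !₂[m 1 / m 0, m 2, m 3] ∈ C) ∧ (m ∈ M → F m = m 1 * m 2 + m 0 * m 3)
  bdd : ∃ S : ℝ, ∀ m ∈ M, m 0 ≤ S
  torus : Nonempty (M ≃ₜ PuncturedTorus)
  circle : Nonempty (C ≃ₜ Circle)
  curve : ∀ p ∈ C, ∃ (U : Set E3) (G : E3 → E2), IsOpen U ∧ p ∈ U ∧ ContDiffOn ℝ ∞ G U ∧
    C ∩ U = {q ∈ U | G q = 0} ∧ ∀ q ∈ C ∩ U, Function.Surjective (fderiv ℝ G q) ∧
      ∀ v, fderiv ℝ G q v = 0 → v 2 = -(q 0 * v 1)

theorem toM_apply (p : E4) : toM p 0 = Real.exp (p 0) ∧ toM p 1 = Real.exp (p 0) * p 1 ∧ toM p 2 = -p 2 ∧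
    toM p 3 = p 1 * p 2 - p 3 := ⟨rfl, rfl, rfl, rfl⟩

theorem frM_apply (m : E4) : frM m 0 = Real.log (m 0) ∧ frM m 1 = m 1 / m 0 ∧ frM m 2 = -m 2 ∧
    frM m 3 = -(m 1 * m 2 / m 0) - m 3 := ⟨rfl, rfl, rfl, rfl⟩

theorem toM_contDiff : ContDiff ℝ ∞ toM := by
  have hc : ∀ i : Fin 4, ContDiff ℝ ∞ fun p : E4 => p i := fun i => (EuclideanSpace.proj (𝕜 := ℝ) i).contDiff
  rw [contDiff_euclidean]
  intro i
  fin_cases i
  · exact (hc 0).exp
  · exact (hc 0).exp.mul (hc 1)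
  · exact (hc 2).neg
  · exact ((hc 1).mul (hc 2)).sub (hc 3)

theorem toK_contDiff : ContDiff ℝ ∞ toK := by
  have hc : ∀ i : Fin 3, ContDiff ℝ ∞ fun p : E3 => p i := fun i => (EuclideanSpace.proj (𝕜 := ℝ) i).contDiff
  rw [contDiff_euclidean]
  intro i
  fin_cases i
  · exact hc 0
  · exact (hc 1).neg
  · exact ((hc 0).mul (hc 1)).sub (hc 2)

theorem toM_frM {m : E4} (h : 0 < m 0) : toM (frM m) = m := by
  have e : Real.exp (frM m 0) = m 0 := Real.exp_log h
  have h0 : m 0 ≠ 0 := h.ne'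
  ext i
  fin_cases i
  · exact e
  · change Real.exp (frM m 0) * (m 1 / m 0) = m 1
    rw [e]
    field_simp
  · change -(-m 2) = m 2
    ring
  · change m 1 / m 0 * -m 2 - (-(m 1 * m 2 / m 0) - m 3) = m 3
    field_simp
    ring

theorem frM_toM (p : E4) : frM (toM p) = p := by
  have h0 : Real.exp (p 0) ≠ 0 := (Real.exp_pos _).ne'
  ext i
  fin_cases i
  · exact Real.log_exp _
  · change Real.exp (p 0) * p 1 / Real.exp (p 0) = p 1
    field_simp
  · change -(-p 2) = p 2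
    ring
  · change -(Real.exp (p 0) * p 1 * -p 2 / Real.exp (p 0)) - (p 1 * p 2 - p 3) = p 3
    field_simp
    ring

theorem toM_pos (p : E4) : 0 < toM p 0 := Real.exp_pos _

theorem frM_continuousOn : ContinuousOn frM {m | 0 < m 0} := by
  have hc : ∀ i : Fin 4, Continuous fun p : E4 => p i := fun i => (EuclideanSpace.proj (𝕜 := ℝ) i).continuous
  intro m hm
  have h0 : m 0 ≠ 0 := (hm : 0 < m 0).ne'
  apply ContinuousAt.continuousWithinAt
  have : ContinuousAt (fun m : E4 => WithLp.toLp 2 ![Real.log (m 0), m 1 / m 0, -m 2, -(m 1 * m 2 / m 0) - m 3]) m := by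
    apply (PiLp.continuous_toLp 2 _).continuousAt.comp
    rw [continuousAt_pi]
    intro i
    fin_cases i
    · exact (hc 0).continuousAt.log h0
    · exact (hc 1).continuousAt.div (hc 0).continuousAt h0
    · exact (hc 2).continuousAt.neg
    · exact ((((hc 1).mul (hc 2)).continuousAt).div (hc 0).continuousAt h0).neg.sub (hc 3).continuousAt
  exact this

private theorem line_coord {n : ℕ} (p v : EuclideanSpace ℝ (Fin n)) (i : Fin n) :
    HasDerivAt (fun t : ℝ => (p + t • v) i) (v i) 0 := by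
  have h : HasDerivAt (fun t : ℝ => p + t • v) v 0 := by
    have := ((hasDerivAt_id (0 : ℝ)).smul_const v).const_add p
    simpa using this
  exact hasDerivAt_coord h i

theorem fderiv_toM (p v : E4) : (fderiv ℝ toM p v) 0 = Real.exp (p 0) * v 0 ∧
    (fderiv ℝ toM p v) 1 = Real.exp (p 0) * (v 0 * p 1 + v 1) ∧ (fderiv ℝ toM p v) 2 = -v 2 ∧
    (fderiv ℝ toM p v) 3 = v 1 * p 2 + p 1 * v 2 - v 3 := by
  have hd : DifferentiableAt ℝ toM p := (toM_contDiff.differentiable (by simp)).differentiableAt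
  have h0 := line_coord p v 0
  have h1 := line_coord p v 1
  have h2 := line_coord p v 2
  have h3 := line_coord p v 3
  have z : ∀ i, (p + (0 : ℝ) • v) i = p i := by
    intro i
    simp
  refine ⟨?_, ?_, ?_, ?_⟩
  · apply fderiv_coord hd
    exact h0.exp.congr_deriv (by rw [z])
  · apply fderiv_coord hd
    exact (h0.exp.mul h1).congr_deriv (by simp only [z]; ring)
  · apply fderiv_coord hd
    exact h2.neg
  · apply fderiv_coord hd
    exact ((h1.mul h2).sub h3).congr_deriv (by simp only [z])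

theorem fderiv_toK (p v : E3) : (fderiv ℝ toK p v) 0 = v 0 ∧ (fderiv ℝ toK p v) 1 = -v 1 ∧
    (fderiv ℝ toK p v) 2 = v 0 * p 1 + p 0 * v 1 - v 2 := by
  have hd : DifferentiableAt ℝ toK p := (toK_contDiff.differentiable (by simp)).differentiableAt
  have h0 := line_coord p v 0
  have h1 := line_coord p v 1
  have h2 := line_coord p v 2
  have z : ∀ i, (p + (0 : ℝ) • v) i = p i := by
    intro i
    simp
  refine ⟨?_, ?_, ?_⟩
  · apply fderiv_coord hd
    exact h0
  · apply fderiv_coord hd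
    exact h1.neg
  · apply fderiv_coord hd
    exact ((h0.mul h1).sub h2).congr_deriv (by simp only [z])

theorem toM_surj (p : E4) : Function.Surjective (fderiv ℝ toM p) := by
  intro a
  have hs : Real.exp (p 0) ≠ 0 := (Real.exp_pos _).ne'
  set s := Real.exp (p 0) with hs'
  refine ⟨!₂[a 0 / s, a 1 / s - a 0 / s * p 1, -a 2, (a 1 / s - a 0 / s * p 1) * p 2 + p 1 * -a 2 - a 3], ?_⟩
  obtain ⟨e0, e1, e2, e3⟩ := fderiv_toM p
    !₂[a 0 / s, a 1 / s - a 0 / s * p 1, -a 2, (a 1 / s - a 0 / s * p 1) * p 2 + p 1 * -a 2 - a 3]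
  ext i
  fin_cases i
  · refine e0.trans ?_
    change s * (a 0 / s) = a 0
    field_simp
  · refine e1.trans ?_
    change s * (a 0 / s * p 1 + (a 1 / s - a 0 / s * p 1)) = a 1
    field_simp
    ring
  · refine e2.trans ?_
    change -(-a 2) = a 2
    ring
  · refine e3.trans ?_
    change (a 1 / s - a 0 / s * p 1) * p 2 + p 1 * -a 2 -
      ((a 1 / s - a 0 / s * p 1) * p 2 + p 1 * -a 2 - a 3) = a 3
    ring

theorem toK_surj (p : E3) : Function.Surjective (fderiv ℝ toK p) := by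
  intro a
  refine ⟨!₂[a 0, -a 1, a 0 * p 1 + p 0 * -a 1 - a 2], ?_⟩
  obtain ⟨e0, e1, e2⟩ := fderiv_toK p !₂[a 0, -a 1, a 0 * p 1 + p 0 * -a 1 - a 2]
  ext i
  fin_cases i
  · exact e0
  · refine e1.trans ?_
    change -(-a 1) = a 1
    ring
  · refine e2.trans ?_
    change a 0 * p 1 + p 0 * -a 1 - (a 0 * p 1 + p 0 * -a 1 - a 2) = a 2
    ring

/-- from `X, Y, τ` to `x, y, z` (for `s = 1`) -/
noncomputable def frK (q : E3) : E3 := !₂[q 0, -q 1, -(q 0 * q 1) - q 2]

theorem toK_frK (q : E3) : toK (frK q) = q := by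
  ext i
  fin_cases i
  · rfl
  · change -(-q 1) = q 1
    ring
  · change q 0 * -q 1 - (-(q 0 * q 1) - q 2) = q 2
    ring

theorem frK_toK (p : E3) : frK (toK p) = p := by
  ext i
  fin_cases i
  · rfl
  · change -(-p 1) = p 1
    ring
  · change -(p 0 * -p 1) - (p 0 * p 1 - p 2) = p 2
    ring

theorem frK_continuous : Continuous frK := by
  have hc : ∀ i : Fin 3, Continuous fun p : E3 => p i := fun i => (EuclideanSpace.proj (𝕜 := ℝ) i).continuous
  have : Continuous (fun m : E3 => WithLp.toLp 2 ![m 0, -m 1, -(m 0 * m 1) - m 2]) := by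
    apply (PiLp.continuous_toLp 2 _).comp
    rw [continuous_pi_iff]
    intro i
    fin_cases i
    · exact hc 0
    · exact (hc 1).neg
    · exact ((hc 0).mul (hc 1)).neg.sub (hc 2)
  exact this

/-- the torus without a point is connected -/
theorem puncturedTorus_connected : IsConnected (Set.univ : Set PuncturedTorus) := by
  set e : ℝ → Circle := fun t => Circle.exp (2 * Real.pi * t) with he
  have hec : Continuous e := Circle.exp.continuous.comp (continuous_const.mul continuous_id)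
  have he1 : ∀ t, e t = 1 ↔ ∃ n : ℤ, (n : ℝ) = t := by
    intro t
    constructor
    · intro h
      have h1 : Circle.exp (2 * Real.pi * t) = Circle.exp 0 := by rw [Circle.exp_zero]; exact h
      rw [Circle.exp_eq_exp] at h1
      obtain ⟨m, hm⟩ := h1
      refine ⟨m, ?_⟩
      have hp : (2 * Real.pi) ≠ 0 := by positivity
      apply mul_left_cancel₀ hp
      linarith
    · rintro ⟨n, rfl⟩
      have h1 : (2 * Real.pi * (n : ℝ)) = 0 + n * (2 * Real.pi) := by ring
      change Circle.exp (2 * Real.pi * (n : ℝ)) = 1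
      rw [h1, ← Circle.exp_zero, Circle.exp_eq_exp]
      exact ⟨n, rfl⟩
  set Z : Set (ℝ × ℝ) := Set.range (fun n : ℤ × ℤ => ((n.1 : ℝ), (n.2 : ℝ))) with hZ
  have hZc : Z.Countable := Set.countable_range _
  have hrank : 1 < Module.rank ℝ (ℝ × ℝ) := by
    have : Module.rank ℝ (ℝ × ℝ) = 2 := by
      rw [rank_prod']
      simp
      norm_num
    rw [this]
    norm_num
  have hconn : IsConnected Zᶜ := (hZc.isPathConnected_compl_of_one_lt_rank hrank).isConnected
  haveI : ConnectedSpace (Zᶜ : Set (ℝ × ℝ)) := isConnected_iff_connectedSpace.1 hconn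
  have hne : ∀ x : (Zᶜ : Set (ℝ × ℝ)), ((e x.1.1, e x.1.2) : Circle × Circle) ≠ 1 := by
    rintro ⟨x, hx⟩ h
    apply hx
    obtain ⟨n, hn⟩ := (he1 x.1).1 (congrArg Prod.fst h)
    obtain ⟨m, hm⟩ := (he1 x.2).1 (congrArg Prod.snd h)
    exact ⟨(n, m), Prod.ext hn hm⟩
  set Φ : (Zᶜ : Set (ℝ × ℝ)) → PuncturedTorus := fun x => ⟨(e x.1.1, e x.1.2), hne x⟩ with hΦ
  have hΦc : Continuous Φ := by
    apply Continuous.subtype_mk
    exact (hec.comp (continuous_fst.comp continuous_subtype_val)).prodMk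
      (hec.comp (continuous_snd.comp continuous_subtype_val))
  have hΦs : Function.Surjective Φ := by
    rintro ⟨⟨a, b⟩, hab⟩
    have hsurj : ∀ c : Circle, ∃ t, e t = c := by
      intro c
      refine ⟨Complex.arg c / (2 * Real.pi), ?_⟩
      have hp : (2 * Real.pi) ≠ 0 := by positivity
      change Circle.exp (2 * Real.pi * (Complex.arg c / (2 * Real.pi))) = c
      rw [mul_div_cancel₀ _ hp]
      exact Circle.exp_arg c
    obtain ⟨x, hx⟩ := hsurj a
    obtain ⟨y, hy⟩ := hsurj b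
    have hxy : (x, y) ∈ (Zᶜ : Set (ℝ × ℝ)) := by
      rintro ⟨n, hn⟩
      apply hab
      have h1 : (n.1 : ℝ) = x := congrArg Prod.fst hn
      have h2 : (n.2 : ℝ) = y := congrArg Prod.snd hn
      have h3 : a = 1 := by rw [← hx]; exact (he1 x).2 ⟨n.1, h1⟩
      have h4 : b = 1 := by rw [← hy]; exact (he1 y).2 ⟨n.2, h2⟩
      rw [h3, h4]
      rfl
    exact ⟨⟨(x, y), hxy⟩, Subtype.ext (Prod.ext hx hy)⟩
  rw [← hΦs.range_eq]
  exact isConnected_range hΦc

end Pool.Agent.Lib_MP_59ec1f_cap
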