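import Pool.Agent.Lib_MP_59ec1f_cap.Torus2

/-!
# Four arcs which form a circle
-/

set_option autoImplicit false

open Set Topology Filter

namespace Pool.Agent.Lib_MP_59ec1f_cap

/-- four arcs glued to a circle -/
structure CircSys {Z : Type} (A : Fin 4 → ℝ → Z) : Prop where
  b0 : A 0 0 = A 3 1
  b1 : A 1 0 = A 0 1
  b2 : A 2 0 = A 1 1
  b3 : A 3 0 = A 2 1
  inj : ∀ k l, ∀ u ∈ Ioc (0 : ℝ) 1, ∀ v ∈ Ioc (0 : ℝ) 1, A k u = A l v → k = l ∧ u = v

namespace CircSys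

variable {Z Z' : Type} {A : Fin 4 → ℝ → Z} {B : Fin 4 → ℝ → Z'}

theorem norm_eq (hA : CircSys A) (hB : CircSys B) (k : Fin 4) {u : ℝ} (hu : u ∈ Icc (0 : ℝ) 1) :
    ∃ l : Fin 4, ∃ v ∈ Ioc (0 : ℝ) 1, A k u = A l v ∧ B k u = B l v := by
  rcases hu.1.eq_or_lt with h | h
  · subst h
    fin_cases k
    · exact ⟨3, 1, ⟨one_pos, le_refl _⟩, hA.b0, hB.b0⟩
    · exact ⟨0, 1, ⟨one_pos, le_refl _⟩, hA.b1, hB.b1⟩
    · exact ⟨1, 1, ⟨one_pos, le_refl _⟩, hA.b2, hB.b2⟩
    · exact ⟨2, 1, ⟨one_pos, le_refl _⟩, hA.b3, hB.b3⟩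
  · exact ⟨k, u, ⟨h, hu.2⟩, rfl, rfl⟩

theorem ker (hA : CircSys A) (hB : CircSys B) {k l : Fin 4} {u v : ℝ} (hu : u ∈ Icc (0 : ℝ) 1)
    (hv : v ∈ Icc (0 : ℝ) 1) (h : A k u = A l v) : B k u = B l v := by
  obtain ⟨k', u', hu', ek, ek'⟩ := hA.norm_eq hB k hu
  obtain ⟨l', v', hv', el, el'⟩ := hA.norm_eq hB l hv
  rw [ek', el']
  rw [ek, el] at h
  obtain ⟨h1, h2⟩ := hA.inj k' l' u' hu' v' hv' h
  rw [h1, h2]

end CircSys

/-- the quarter circles -/
noncomputable def arcC (k : Fin 4) (u : ℝ) : Circle := Circle.exp (Real.pi / 2 * (((k : ℕ) : ℝ) + u))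

theorem arcC_sys : CircSys arcC where
  b0 := by
    unfold arcC
    have h := exp_add4 0 1
    have e : Real.pi / 2 * ((((3 : Fin 4) : ℕ) : ℝ) + 1) = Real.pi / 2 * (0 + 4 * ((1 : ℤ) : ℝ)) := by
      norm_num
    rw [e, h]
    simp
  b1 := by
    unfold arcC
    norm_num
  b2 := by
    unfold arcC
    norm_num
  b3 := by
    unfold arcC
    norm_num
  inj := by
    intro k l u hu v hv h
    obtain ⟨m, hm⟩ := exp_eq_iff4 h
    have hk : ((k : ℕ) : ℝ) ≤ 3 := by exact_mod_cast Nat.lt_succ_iff.1 k.2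
    have hl : ((l : ℕ) : ℝ) ≤ 3 := by exact_mod_cast Nat.lt_succ_iff.1 l.2
    have hk0 : (0 : ℝ) ≤ ((k : ℕ) : ℝ) := Nat.cast_nonneg _
    have hl0 : (0 : ℝ) ≤ ((l : ℕ) : ℝ) := Nat.cast_nonneg _
    obtain ⟨u1, u2⟩ := hu
    obtain ⟨v1, v2⟩ := hv
    have h3 : (m : ℝ) < 1 := by
      by_contra h4
      push Not at h4
      linarith
    have h5 : (-1 : ℝ) < m := by
      by_contra h4
      push Not at h4
      linarith
    have h6 : m < 1 := by exact_mod_cast h3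
    have h7 : -1 < m := by exact_mod_cast h5
    have h8 : m = 0 := by omega
    rw [h8] at hm
    have h9 : ((k : ℕ) : ℝ) + u = ((l : ℕ) : ℝ) + v := by simpa using hm
    have h10 : (k : ℕ) = (l : ℕ) := by
      have h11 : ((k : ℕ) : ℝ) < ((l : ℕ) : ℝ) + 1 := by linarith
      have h12 : ((l : ℕ) : ℝ) < ((k : ℕ) : ℝ) + 1 := by linarith
      have h13 : (k : ℕ) < (l : ℕ) + 1 := by exact_mod_cast h11
      have h14 : (l : ℕ) < (k : ℕ) + 1 := by exact_mod_cast h12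
      omega
    refine ⟨Fin.ext h10, ?_⟩
    rw [h10] at h9
    linarith

/-- index and parameter -/
abbrev X2 := Fin 4 × Icc (0 : ℝ) 1

/-- the map to the circle -/
noncomputable def PC (p : X2) : Circle := arcC p.1 p.2

theorem PC_continuous : Continuous PC := by
  unfold PC
  rw [continuous_prod_of_discrete_left]
  intro k
  unfold arcC
  have h : Continuous fun x : Icc (0 : ℝ) 1 => Real.pi / 2 * (((k : ℕ) : ℝ) + (x : ℝ)) := by fun_prop
  exact Circle.exp.continuous.comp h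

theorem PC_surjective : Function.Surjective PC := by
  intro z
  have hp := Real.pi_pos
  obtain ⟨t, ht0, ht4, htz⟩ : ∃ t : ℝ, 0 ≤ t ∧ t < 4 ∧ Circle.exp (Real.pi / 2 * t) = z := by
    have h1 := Complex.neg_pi_lt_arg (z : ℂ)
    have h2 := Complex.arg_le_pi (z : ℂ)
    rcases lt_or_ge (Complex.arg z) 0 with h | h
    · refine ⟨2 / Real.pi * Complex.arg z + 4, ?_, ?_, ?_⟩
      · have : -2 ≤ 2 / Real.pi * Complex.arg z := by
          rw [div_mul_eq_mul_div, le_div_iff₀ hp]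
          linarith
        linarith
      · have : 2 / Real.pi * Complex.arg z < 0 := mul_neg_of_pos_of_neg (by positivity) h
        linarith
      · have h3 := exp_add4 (2 / Real.pi * Complex.arg z) 1
        have h4 : (2 / Real.pi * Complex.arg z + 4 * ((1 : ℤ) : ℝ)) = 2 / Real.pi * Complex.arg z + 4 := by
          norm_num
        rw [h4] at h3
        rw [h3]
        have h5 : Real.pi / 2 * (2 / Real.pi * Complex.arg z) = Complex.arg z := by field_simp
        rw [h5]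
        exact Circle.exp_arg z
    · refine ⟨2 / Real.pi * Complex.arg z, by positivity, ?_, ?_⟩
      · have : 2 / Real.pi * Complex.arg z ≤ 2 := by
          rw [div_mul_eq_mul_div, div_le_iff₀ hp]
          linarith
        linarith
      · have h5 : Real.pi / 2 * (2 / Real.pi * Complex.arg z) = Complex.arg z := by field_simp
        rw [h5]
        exact Circle.exp_arg z
  have h1 : ⌊t⌋₊ < 4 := by
    rw [Nat.floor_lt ht0]
    exact_mod_cast ht4
  have h2 : ((⌊t⌋₊ : ℕ) : ℝ) ≤ t := Nat.floor_le ht0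
  have h3 : t < ((⌊t⌋₊ : ℕ) : ℝ) + 1 := Nat.lt_floor_add_one t
  refine ⟨(⟨⌊t⌋₊, h1⟩, ⟨t - ⌊t⌋₊, by linarith, by linarith⟩), ?_⟩
  change Circle.exp (Real.pi / 2 * (((⌊t⌋₊ : ℕ) : ℝ) + (t - ⌊t⌋₊))) = z
  have h4 : ((⌊t⌋₊ : ℕ) : ℝ) + (t - ⌊t⌋₊) = t := by ring
  rw [h4, htz]

theorem circle_of_arcs {Z : Type} [TopologicalSpace Z] [T2Space Z] {A : Fin 4 → ℝ → Z} (hA : CircSys A)
    (hc : ∀ k, ContinuousOn (A k) (Icc 0 1)) {C : Set Z} (hC : C = {z | ∃ k, ∃ u ∈ Icc (0 : ℝ) 1, A k u = z}) :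
    Nonempty (C ≃ₜ Circle) := by
  have hq : IsQuotientMap PC := PC_continuous.isClosedMap.isQuotientMap PC_continuous PC_surjective
  set A' : X2 → Z := fun p => A p.1 p.2 with hA'
  have hA'c : Continuous A' := by
    rw [continuous_prod_of_discrete_left]
    intro k
    exact (hc k).comp_continuous continuous_subtype_val fun p => p.2
  have hfac : Function.FactorsThrough A' PC := by
    intro p q hpq
    exact arcC_sys.ker hA p.2.2 q.2.2 hpq
  set f : C(X2, Circle) := ⟨PC, PC_continuous⟩ with hf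
  have hq' : IsQuotientMap f := hq
  set Φ : C(Circle, Z) := hq'.lift ⟨A', hA'c⟩ hfac with hΦ
  have hΦf : ∀ p : X2, Φ (PC p) = A' p := by
    intro p
    have h1 := hq'.lift_comp ⟨A', hA'c⟩ hfac
    exact congrArg (fun F : C(X2, Z) => F p) h1
  have hinj : Function.Injective Φ := by
    intro a b hab
    obtain ⟨p, rfl⟩ := PC_surjective a
    obtain ⟨q, rfl⟩ := PC_surjective b
    rw [hΦf, hΦf] at hab
    exact hA.ker arcC_sys p.2.2 q.2.2 hab
  have hce : IsClosedEmbedding Φ :=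
    IsClosedEmbedding.of_continuous_injective_isClosedMap Φ.continuous hinj Φ.continuous.isClosedMap
  have hrange : range Φ = C := by
    rw [hC]
    ext z
    constructor
    · rintro ⟨a, rfl⟩
      obtain ⟨p, rfl⟩ := PC_surjective a
      exact ⟨p.1, p.2, p.2.2, (hΦf p).symm⟩
    · rintro ⟨k, u, hu, rfl⟩
      exact ⟨PC (k, ⟨u, hu⟩), hΦf _⟩
  exact ⟨(hce.isEmbedding.toHomeomorph.trans (Homeomorph.setCongr hrange)).symm⟩

end Pool.Agent.Lib_MP_59ec1f_cap
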