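import Pool.Agent.Lib_MP_59ec1f_cap.Local

/-!
# The Legendrian curve of the cone
-/

set_option autoImplicit false

open scoped ContDiff
open Filter Topology

namespace Pool.Agent.Lib_MP_59ec1f_cap

/-- a curve in a level set with a given tangent vector -/
theorem exists_curve {G : E4 → E2} {p v : E4} (hG : ContDiffAt ℝ 1 G p) (hs : Function.Surjective (fderiv ℝ G p))
    (hv : fderiv ℝ G p v = 0) : ∃ c : ℝ → E4, HasDerivAt c v 0 ∧ c 0 = p ∧ ∀ᶠ t in 𝓝 (0 : ℝ), G (c t) = G p := by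
  have hf : HasStrictFDerivAt G (fderiv ℝ G p) p := hG.hasStrictFDerivAt (by norm_num)
  have hr : (fderiv ℝ G p).range = ⊤ := LinearMap.range_eq_top.2 hs
  set k : (fderiv ℝ G p).ker := ⟨v, hv⟩ with hk
  have hline : HasDerivAt (fun t : ℝ => t • k) k 0 := by
    simpa using (hasDerivAt_id (0 : ℝ)).smul_const k
  have h0 : (0 : ℝ) • k = 0 := zero_smul _ _
  refine ⟨fun t => hf.implicitFunction G (fderiv ℝ G p) hr (G p) (t • k), ?_, ?_, ?_⟩
  · have h1 := (hf.to_implicitFunction hr).hasFDerivAt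
    have h2 : HasFDerivAt (hf.implicitFunction G (fderiv ℝ G p) hr (G p)) (fderiv ℝ G p).ker.subtypeL ((0 : ℝ) • k) := by
      rw [h0]
      exact h1
    exact h2.comp_hasDerivAt 0 hline
  · simp only [h0]
    exact hf.implicitFunction_apply_image hr
  · have h1 := hf.map_implicitFunction_eq hr
    have h2 : Tendsto (fun t : ℝ => (G p, t • k)) (𝓝 0) (𝓝 (G p, 0)) := by
      apply Tendsto.prodMk_nhds tendsto_const_nhds
      have := hline.continuousAt.tendsto
      rwa [h0] at this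
    exact h2.eventually h1

/-- the slice of the cone at the level `s₁` -/
def coneι (s₁ : ℝ) (c : E3) : E4 := !₂[s₁, s₁ * c 0, c 1, c 2]

theorem coneι_contDiff (s₁ : ℝ) : ContDiff ℝ ∞ (coneι s₁) := by
  have hc : ∀ i : Fin 3, ContDiff ℝ ∞ fun p : E3 => p i := fun i => (EuclideanSpace.proj (𝕜 := ℝ) i).contDiff
  rw [contDiff_euclidean]
  intro i
  fin_cases i
  · exact contDiff_const
  · exact contDiff_const.mul (hc 0)
  · exact hc 1
  · exact hc 2

theorem fderiv_coneι (s₁ : ℝ) (q u : E3) : fderiv ℝ (coneι s₁) q u = !₂[0, s₁ * u 0, u 1, u 2] := by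
  have hd : DifferentiableAt ℝ (coneι s₁) q := ((coneι_contDiff s₁).differentiable (by simp)).differentiableAt
  have hl : HasDerivAt (fun t : ℝ => q + t • u) u 0 := by
    have := ((hasDerivAt_id (0 : ℝ)).smul_const u).const_add q
    simpa using this
  ext i
  fin_cases i
  · exact fderiv_coord hd u 0 (hasDerivAt_const _ _)
  · exact fderiv_coord hd u 1 ((hasDerivAt_coord hl 0).const_mul s₁)
  · exact fderiv_coord hd u 2 (hasDerivAt_coord hl 1)
  · exact fderiv_coord hd u 3 (hasDerivAt_coord hl 2)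

theorem curve_of_loc {M : Set E4} {F : E4 → ℝ} {C : Set E3} {s₀ : ℝ} (hs₀ : 0 < s₀)
    (hcone : ∀ m : E4, 0 < m 0 → m 0 ≤ s₀ →
      (m ∈ M ↔ !₂[m 1 / m 0, m 2, m 3] ∈ C) ∧ (m ∈ M → F m = m 1 * m 2 + m 0 * m 3))
    (hloc : ∀ m ∈ M, LocM M F m) {p : E3} (hp : p ∈ C) :
    ∃ (U : Set E3) (G : E3 → E2), IsOpen U ∧ p ∈ U ∧ ContDiffOn ℝ ∞ G U ∧
      C ∩ U = {q ∈ U | G q = 0} ∧ ∀ q ∈ C ∩ U, Function.Surjective (fderiv ℝ G q) ∧
        ∀ v, fderiv ℝ G q v = 0 → v 2 = -(q 0 * v 1) := by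
  set s₁ : ℝ := s₀ / 2 with hs₁
  have hs₁0 : 0 < s₁ := by positivity
  have hs₁1 : s₁ < s₀ := by rw [hs₁]; linarith
  have hmem : ∀ q : E3, q ∈ C ↔ coneι s₁ q ∈ M := by
    intro q
    have h1 := (hcone (coneι s₁ q) hs₁0 hs₁1.le).1
    have h2 : (!₂[coneι s₁ q 1 / coneι s₁ q 0, coneι s₁ q 2, coneι s₁ q 3] : E3) = q := by
      ext i
      fin_cases i
      · change s₁ * q 0 / s₁ = q 0
        field_simp
      · rfl
      · rfl
    rw [h2] at h1
    exact h1.symm
  obtain ⟨U, G, h, hU, hpU, hG, hh, hMU, hd⟩ := hloc _ ((hmem p).1 hp)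
  have hιc := (coneι_contDiff s₁).continuous
  refine ⟨coneι s₁ ⁻¹' U, fun q => G (coneι s₁ q), hU.preimage hιc, hpU,
    hG.comp (coneι_contDiff s₁).contDiffOn (fun q hq => hq), ?_, ?_⟩
  · ext q
    constructor
    · rintro ⟨h1, h2⟩
      have h3 : coneι s₁ q ∈ M ∩ U := ⟨(hmem q).1 h1, h2⟩
      rw [hMU] at h3
      exact ⟨h2, h3.2⟩
    · rintro ⟨h1, h2⟩
      have h3 : coneι s₁ q ∈ {q ∈ U | G q = 0} := ⟨h1, h2⟩
      rw [← hMU] at h3
      exact ⟨(hmem q).2 h3.1, h1⟩
  · rintro q ⟨h1, h2⟩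
    have h3 : coneι s₁ q ∈ M ∩ U := ⟨(hmem q).1 h1, h2⟩
    obtain ⟨h4, h5, h6⟩ := hd _ h3
    have h3' := h3
    rw [hMU] at h3'
    have hGc : ContDiffAt ℝ ∞ G (coneι s₁ q) := hG.contDiffAt (hU.mem_nhds h2)
    have hGd : DifferentiableAt ℝ G (coneι s₁ q) := hGc.differentiableAt (by simp)
    have hhd : DifferentiableAt ℝ h (coneι s₁ q) := (hh.contDiffAt (hU.mem_nhds h2)).differentiableAt (by simp)
    have hιd : DifferentiableAt ℝ (coneι s₁) q := ((coneι_contDiff s₁).differentiable (by simp)).differentiableAt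
    have hGf : ∀ u, fderiv ℝ (fun q => G (coneι s₁ q)) q u = fderiv ℝ G (coneι s₁ q) !₂[0, s₁ * u 0, u 1, u 2] := by
      intro u
      have e := (hGd.hasFDerivAt.comp q hιd.hasFDerivAt).fderiv
      have e' : fderiv ℝ (fun q => G (coneι s₁ q)) q = (fderiv ℝ G (coneι s₁ q)).comp (fderiv ℝ (coneι s₁) q) := e
      rw [e']
      change fderiv ℝ G (coneι s₁ q) (fderiv ℝ (coneι s₁) q u) = _
      rw [fderiv_coneι]
    -- the radial vector
    set ρ : E4 := !₂[1, q 0, 0, 0] with hρ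
    have hrad : fderiv ℝ G (coneι s₁ q) ρ = 0 := by
      have hc : HasDerivAt (fun t : ℝ => coneι s₁ q + t • ρ) ρ 0 := by
        have := ((hasDerivAt_id (0 : ℝ)).smul_const ρ).const_add (coneι s₁ q)
        simpa using this
      have hG0 : HasFDerivAt G (fderiv ℝ G (coneι s₁ q)) (coneι s₁ q + (0 : ℝ) • ρ) := by
        simpa using hGd.hasFDerivAt
      have hcomp : HasDerivAt (fun t : ℝ => G (coneι s₁ q + t • ρ)) (fderiv ℝ G (coneι s₁ q) ρ) 0 :=
        hG0.comp_hasDerivAt 0 hc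
      have hev : (fun t : ℝ => G (coneι s₁ q + t • ρ)) =ᶠ[𝓝 0] fun _ => (0 : E2) := by
        have t1 : Tendsto (fun t : ℝ => coneι s₁ q + t • ρ) (𝓝 0) (𝓝 (coneι s₁ q)) := by
          have := hc.continuousAt.tendsto
          simpa using this
        have ev1 := t1.eventually (hU.mem_nhds h2)
        have ev2 : ∀ᶠ t in 𝓝 (0 : ℝ), t ∈ Set.Ioo (-s₁) s₁ := Ioo_mem_nhds (by linarith) hs₁0
        filter_upwards [ev1, ev2] with t ht1 ht2
        have e0 : (coneι s₁ q + t • ρ) 0 = s₁ + t := by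
          change s₁ + t * 1 = s₁ + t
          ring
        have e1 : (coneι s₁ q + t • ρ) 1 = (s₁ + t) * q 0 := by
          change s₁ * q 0 + t * q 0 = (s₁ + t) * q 0
          ring
        have e2 : (coneι s₁ q + t • ρ) 2 = q 1 := by
          change q 1 + t * 0 = q 1
          ring
        have e3 : (coneι s₁ q + t • ρ) 3 = q 2 := by
          change q 2 + t * 0 = q 2
          ring
        have hpos : 0 < s₁ + t := by linarith [ht2.1]
        have hle : s₁ + t ≤ s₀ := by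
          have := ht2.2
          rw [hs₁] at this ⊢
          linarith
        have hM := (hcone (coneι s₁ q + t • ρ) (by rw [e0]; exact hpos) (by rw [e0]; exact hle)).1
        rw [e0, e1, e2, e3] at hM
        have e4 : (!₂[(s₁ + t) * q 0 / (s₁ + t), q 1, q 2] : E3) = q := by
          ext i
          fin_cases i
          · change (s₁ + t) * q 0 / (s₁ + t) = q 0
            have := hpos.ne'
            field_simp
          · rfl
          · rfl
        rw [e4] at hM
        have h7 : coneι s₁ q + t • ρ ∈ M ∩ U := ⟨hM.2 h1, ht1⟩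
        rw [hMU] at h7
        exact h7.2
      have := hcomp.congr_of_eventuallyEq hev.symm
      exact this.unique (hasDerivAt_const _ _)
    constructor
    · intro y
      obtain ⟨v, hv⟩ := h5 y
      refine ⟨!₂[(v 1 - v 0 * q 0) / s₁, v 2, v 3], ?_⟩
      rw [hGf]
      have e : (!₂[0, s₁ * (!₂[(v 1 - v 0 * q 0) / s₁, v 2, v 3] : E3) 0, (!₂[(v 1 - v 0 * q 0) / s₁, v 2, v 3] : E3) 1,
          (!₂[(v 1 - v 0 * q 0) / s₁, v 2, v 3] : E3) 2] : E4) = v - v 0 • ρ := by
        ext i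
        fin_cases i
        · change 0 = v 0 - v 0 * 1
          ring
        · change s₁ * ((v 1 - v 0 * q 0) / s₁) = v 1 - v 0 * q 0
          field_simp
        · change v 2 = v 2 - v 0 * 0
          ring
        · change v 3 = v 3 - v 0 * 0
          ring
      rw [e, map_sub, map_smul, hrad, hv]
      simp
    · intro u hu
      rw [hGf] at hu
      obtain ⟨c, hc1, hc2, hc3⟩ := exists_curve (hGc.of_le (by simp)) h5 hu
      set v : E4 := !₂[0, s₁ * u 0, u 1, u 2] with hv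
      have hct : Tendsto c (𝓝 0) (𝓝 (coneι s₁ q)) := by
        have := hc1.continuousAt.tendsto
        rwa [hc2] at this
      have hsl : IsOpen {m : E4 | 0 < m 0 ∧ m 0 < s₀} := by
        have hc0 : Continuous fun m : E4 => m 0 := (EuclideanSpace.proj (𝕜 := ℝ) (0 : Fin 4)).continuous
        exact (isOpen_lt continuous_const hc0).inter (isOpen_lt hc0 continuous_const)
      have hev : ∀ᶠ t in 𝓝 (0 : ℝ), h (c t) = c t 1 * c t 2 + c t 0 * c t 3 := by
        filter_upwards [hc3, hct.eventually (hU.mem_nhds h2), hct.eventually (hsl.mem_nhds ⟨hs₁0, hs₁1⟩)]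
          with t ht1 ht2 ht3
        have h7 : c t ∈ M ∩ U := by
          rw [hMU]
          exact ⟨ht2, ht1.trans h3'.2⟩
        have h8 := (hd _ h7).1
        have h9 := (hcone (c t) ht3.1 ht3.2.le).2 h7.1
        rw [← h8, h9]
      have hd0 : HasDerivAt (fun t => h (c t)) (fderiv ℝ h (coneι s₁ q) v) 0 := by
        have h7 : HasFDerivAt h (fderiv ℝ h (coneι s₁ q)) (c 0) := by
          rw [hc2]
          exact hhd.hasFDerivAt
        exact h7.comp_hasDerivAt 0 hc1
      have hd1 := (((hasDerivAt_coord hc1 1).mul (hasDerivAt_coord hc1 2)).add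
        ((hasDerivAt_coord hc1 0).mul (hasDerivAt_coord hc1 3)))
      have h10 := (hd0.congr_of_eventuallyEq (hev.mono fun t ht => ht.symm)).unique hd1
      rw [h6 v hu, hc2] at h10
      have h11 : q 1 * (s₁ * u 0) + q 2 * 0 = (s₁ * u 0 * q 1 + s₁ * q 0 * u 1) + (0 * q 2 + s₁ * u 2) := h10
      have h12 : s₁ * (u 2 + q 0 * u 1) = 0 := by linarith
      rcases mul_eq_zero.1 h12 with h13 | h13
      · exact absurd h13 hs₁0.ne'
      · linarith

end Pool.Agent.Lib_MP_59ec1f_cap
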