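import Pool.Agent.Lib_MP_59ec1f_cap.Local

/-!
# Parametrised charts

A smooth immersion `φ` of an open subset `V` of the plane, whose images of small neighbourhoods of `x₀` are neighbourhoods of
`φ x₀` in `M`, and a smooth `H = F ∘ φ` with `dH = Y dX + τ ds`: the condition `LocM M F (φ x₀)`.
-/

set_option autoImplicit false

open scoped ContDiff
open Filter Topology

namespace Pool.Agent.Lib_MP_59ec1f_cap

/-- a complement of the image of an injective linear map of the plane -/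
theorem exists_complement (T : ℝ × ℝ →L[ℝ] E4) (hT : Function.Injective T) :
    ∃ R : E2 →L[ℝ] E4, Function.Bijective (T.coprod R) := by
  obtain ⟨K, hK⟩ := Submodule.exists_isCompl (LinearMap.range (T : ℝ × ℝ →ₗ[ℝ] E4))
  have h1 : Module.finrank ℝ (LinearMap.range (T : ℝ × ℝ →ₗ[ℝ] E4)) = 2 := by
    rw [LinearMap.finrank_range_of_inj hT]
    simp
  have h2 := Submodule.finrank_add_eq_of_isCompl hK
  have h3 : Module.finrank ℝ E4 = 4 := by simp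
  have h4 : Module.finrank ℝ K = Module.finrank ℝ E2 := by
    have : Module.finrank ℝ E2 = 2 := by simp
    omega
  set ℓ : K ≃ₗ[ℝ] E2 := LinearEquiv.ofFinrankEq K E2 h4 with hℓ
  set R : E2 →L[ℝ] E4 := LinearMap.toContinuousLinearMap (K.subtype ∘ₗ (ℓ.symm : E2 →ₗ[ℝ] K)) with hR
  have hRa : ∀ y, R y = (ℓ.symm y : E4) := fun y => rfl
  refine ⟨R, ?_, ?_⟩
  · rw [injective_iff_map_eq_zero]
    rintro ⟨x, y⟩ hxy
    have e1 : T x + R y = 0 := hxy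
    have e2 : T x ∈ K := by
      have : T x = -(ℓ.symm y : E4) := by
        rw [← hRa]
        exact eq_neg_of_add_eq_zero_left e1
      rw [this]
      exact K.neg_mem (ℓ.symm y).2
    have e3 : T x ∈ LinearMap.range (T : ℝ × ℝ →ₗ[ℝ] E4) := ⟨x, rfl⟩
    have e4 : T x = 0 := by
      have := hK.disjoint.le_bot ⟨e3, e2⟩
      exact (Submodule.mem_bot ℝ).1 this
    have e5 : x = 0 := hT (by rw [e4, map_zero])
    have e6 : R y = 0 := by rw [e4, zero_add] at e1; exact e1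
    have e7 : ℓ.symm y = 0 := Subtype.ext e6
    have e8 : y = 0 := by
      have := congrArg ℓ e7
      simpa using this
    rw [e5, e8]
    rfl
  · intro z
    have h5 : z ∈ LinearMap.range (T : ℝ × ℝ →ₗ[ℝ] E4) ⊔ K := by
      rw [hK.sup_eq_top]
      exact Submodule.mem_top
    obtain ⟨a, ⟨x, hx⟩, k, hk, hak⟩ := Submodule.mem_sup.1 h5
    refine ⟨(x, ℓ ⟨k, hk⟩), ?_⟩
    change T x + R (ℓ ⟨k, hk⟩) = z
    rw [hRa, LinearEquiv.symm_apply_apply]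
    have hx' : T x = a := hx
    rw [hx']
    exact hak

theorem locM_param {M : Set E4} {F : E4 → ℝ} {m : E4} {φ : ℝ × ℝ → E4} {x₀ : ℝ × ℝ} {H : ℝ × ℝ → ℝ}
    {V : Set (ℝ × ℝ)} (hV : IsOpen V) (hx₀ : x₀ ∈ V) (hφ : ContDiffOn ℝ ∞ φ V)
    (hinj : Function.Injective (fderiv ℝ φ x₀)) (hm : φ x₀ = m) (hM : ∀ x ∈ V, φ x ∈ M)
    (hopen : ∀ N ∈ 𝓝 x₀, ∀ᶠ q in 𝓝 m, q ∈ M → q ∈ φ '' N) (hH : ContDiffOn ℝ ∞ H V)
    (hF : ∀ x ∈ V, F (φ x) = H x)
    (hd : ∀ x ∈ V, ∀ v, fderiv ℝ H x v = φ x 2 * (fderiv ℝ φ x v) 1 + φ x 3 * (fderiv ℝ φ x v) 0) : LocM M F m := by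
  obtain ⟨R, hR⟩ := exists_complement (fderiv ℝ φ x₀) hinj
  set Ψ : (ℝ × ℝ) × E2 → E4 := fun z => φ z.1 + R z.2 with hΨ
  have hφa : ∀ x ∈ V, ContDiffAt ℝ ∞ φ x := fun x hx => hφ.contDiffAt (hV.mem_nhds hx)
  have hΨc : ∀ z : (ℝ × ℝ) × E2, z.1 ∈ V → ContDiffAt ℝ ∞ Ψ z := by
    intro z hz
    exact ((hφa z.1 hz).comp z contDiffAt_fst).add (R.contDiff.contDiffAt.comp z contDiffAt_snd)
  have hΨd : ∀ z : (ℝ × ℝ) × E2, z.1 ∈ V → HasFDerivAt Ψ ((fderiv ℝ φ z.1).coprod R) z := by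
    intro z hz
    have h1 : HasFDerivAt φ (fderiv ℝ φ z.1) z.1 := ((hφa z.1 hz).differentiableAt (by simp)).hasFDerivAt
    have h2 := (h1.comp z hasFDerivAt_fst).add (R.hasFDerivAt.comp z hasFDerivAt_snd)
    exact h2
  set e₀ : ((ℝ × ℝ) × E2) ≃L[ℝ] E4 := ContinuousLinearEquiv.ofBijective ((fderiv ℝ φ x₀).coprod R)
    (LinearMap.ker_eq_bot.2 hR.1) (LinearMap.range_eq_top.2 hR.2) with he₀
  have hΨd₀ : HasFDerivAt Ψ (e₀ : ((ℝ × ℝ) × E2) →L[ℝ] E4) (x₀, 0) := hΨd (x₀, 0) hx₀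
  have hstr : HasStrictFDerivAt Ψ (e₀ : ((ℝ × ℝ) × E2) →L[ℝ] E4) (x₀, 0) :=
    (hΨc (x₀, 0) hx₀).hasStrictFDerivAt' hΨd₀ (by simp)
  set P := hstr.toOpenPartialHomeomorph Ψ with hP
  have hPc : ∀ z, P z = Ψ z := fun z => rfl
  have hsrc : ((x₀, 0) : (ℝ × ℝ) × E2) ∈ P.source := hstr.mem_toOpenPartialHomeomorph_source
  have hΨ0 : Ψ (x₀, 0) = m := by
    change φ x₀ + R 0 = m
    rw [map_zero, add_zero, hm]
  have htgt : m ∈ P.target := by
    have := P.map_source hsrc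
    rw [hPc, hΨ0] at this
    exact this
  have hsymm0 : P.symm m = (x₀, 0) := by
    have := P.left_inv hsrc
    rw [hPc, hΨ0] at this
    exact this
  have hcont : Tendsto P.symm (𝓝 m) (𝓝 (x₀, 0)) := by
    have := (P.continuousAt_symm htgt).tendsto
    rwa [hsymm0] at this
  -- invertible derivatives
  have hequiv : ∀ᶠ z in 𝓝 ((x₀, 0) : (ℝ × ℝ) × E2), ∃ e : ((ℝ × ℝ) × E2) ≃L[ℝ] E4,
      (e : ((ℝ × ℝ) × E2) →L[ℝ] E4) = (fderiv ℝ φ z.1).coprod R := by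
    have h1 : ContinuousAt (fderiv ℝ Ψ) (x₀, 0) :=
      ((hΨc (x₀, 0) hx₀).fderiv_right (m := 0) (by norm_cast)).continuousAt
    have h2 : fderiv ℝ Ψ (x₀, 0) = (e₀ : ((ℝ × ℝ) × E2) →L[ℝ] E4) := hΨd₀.fderiv
    have h3 := h1.tendsto
    rw [h2] at h3
    have h4 := h3.eventually e₀.nhds
    have h5 : ∀ᶠ z in 𝓝 ((x₀, 0) : (ℝ × ℝ) × E2), z.1 ∈ V :=
      continuousAt_fst.tendsto.eventually (hV.mem_nhds hx₀)
    filter_upwards [h4, h5] with z hz1 hz2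
    obtain ⟨e, he⟩ := hz1
    exact ⟨e, he.trans (hΨd z hz2).fderiv⟩
  have hN : {x : ℝ × ℝ | (x, (0 : E2)) ∈ P.source} ∈ 𝓝 x₀ := by
    have hc : ContinuousAt (fun x : ℝ × ℝ => (x, (0 : E2))) x₀ := by fun_prop
    exact hc.tendsto.eventually (P.open_source.mem_nhds hsrc)
  have ev : ∀ᶠ q in 𝓝 m, q ∈ P.target ∧ (P.symm q).1 ∈ V ∧
      (∃ e : ((ℝ × ℝ) × E2) ≃L[ℝ] E4, (e : ((ℝ × ℝ) × E2) →L[ℝ] E4) = (fderiv ℝ φ (P.symm q).1).coprod R) ∧
      (q ∈ M → ∃ x, (x, (0 : E2)) ∈ P.source ∧ φ x = q) := by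
    have h1 := P.open_target.mem_nhds htgt
    have h2 : ∀ᶠ q in 𝓝 m, (P.symm q).1 ∈ V :=
      hcont.eventually (continuousAt_fst.tendsto.eventually (hV.mem_nhds hx₀))
    have h3 := hcont.eventually hequiv
    have h4 := hopen _ hN
    filter_upwards [h1, h2, h3, h4] with q hq1 hq2 hq3 hq4
    exact ⟨hq1, hq2, hq3, fun hq => by
      obtain ⟨x, hx, hx'⟩ := hq4 hq
      exact ⟨x, hx, hx'⟩⟩
  obtain ⟨U, hUsub, hU, hmU⟩ := mem_nhds_iff.1 ev
  have hinv : ∀ q ∈ U, Ψ (P.symm q) = q := fun q hq => P.right_inv (hUsub hq).1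
  have hsm : ∀ q ∈ U, ContDiffAt ℝ ∞ P.symm q := by
    intro q hq
    obtain ⟨h1, h2, ⟨e, he⟩, _⟩ := hUsub hq
    have h3 : HasFDerivAt P (e : ((ℝ × ℝ) × E2) →L[ℝ] E4) (P.symm q) := by
      rw [he]
      exact hΨd _ h2
    exact P.contDiffAt_symm h1 h3 (hΨc _ h2)
  have hset : ∀ q ∈ U, q ∈ M ↔ (P.symm q).2 = 0 := by
    intro q hq
    obtain ⟨h1, h2, _, h4⟩ := hUsub hq
    constructor
    · intro hqM
      obtain ⟨x, hx1, hx2⟩ := h4 hqM
      have h5 : Ψ (x, 0) = q := by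
        change φ x + R 0 = q
        rw [map_zero, add_zero, hx2]
      have h6 := P.left_inv hx1
      rw [hPc, h5] at h6
      rw [h6]
    · intro h5
      have h6 := hinv q hq
      have h7 : φ (P.symm q).1 + R (P.symm q).2 = q := h6
      rw [h5, map_zero, add_zero] at h7
      rw [← h7]
      exact hM _ h2
  have hφq : ∀ q ∈ U, q ∈ M → φ (P.symm q).1 = q := by
    intro q hq hqM
    have h7 : φ (P.symm q).1 + R (P.symm q).2 = q := hinv q hq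
    rw [(hset q hq).1 hqM, map_zero, add_zero] at h7
    exact h7
  refine ⟨U, fun q => (P.symm q).2, fun q => H (P.symm q).1, hU, hmU, ?_, ?_, ?_, ?_⟩
  · intro q hq
    exact (contDiffAt_snd.comp q (hsm q hq)).contDiffWithinAt
  · intro q hq
    have h1 : ContDiffAt ℝ ∞ (fun z : (ℝ × ℝ) × E2 => H z.1) (P.symm q) :=
      (hH.contDiffAt (hV.mem_nhds (hUsub hq).2.1)).comp (P.symm q) contDiffAt_fst
    exact (h1.comp q (hsm q hq)).contDiffWithinAt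
  · ext q
    constructor
    · rintro ⟨h1, h2⟩
      exact ⟨h2, (hset q h2).1 h1⟩
    · rintro ⟨h1, h2⟩
      exact ⟨(hset q h1).2 h2, h1⟩
  · rintro q ⟨h1, h2⟩
    obtain ⟨h3, h4, ⟨e, he⟩, _⟩ := hUsub h2
    have h5 : HasFDerivAt P (e : ((ℝ × ℝ) × E2) →L[ℝ] E4) (P.symm q) := by
      rw [he]
      exact hΨd _ h4
    have h6 : HasFDerivAt P.symm (e.symm : E4 →L[ℝ] ((ℝ × ℝ) × E2)) q := P.hasFDerivAt_symm h3 h5
    have hx := hφq q h2 h1
    have hG : ∀ v, fderiv ℝ (fun q => (P.symm q).2) q v = (e.symm v).2 := by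
      intro v
      have e1 := (hasFDerivAt_snd.comp q h6).fderiv
      have e2 : fderiv ℝ (fun q => (P.symm q).2) q = (ContinuousLinearMap.snd ℝ (ℝ × ℝ) E2).comp
        (e.symm : E4 →L[ℝ] ((ℝ × ℝ) × E2)) := e1
      rw [e2]
      rfl
    refine ⟨?_, ?_, ?_⟩
    · change F q = H (P.symm q).1
      rw [← hF _ h4, hx]
    · intro y
      refine ⟨e (0, y), ?_⟩
      rw [hG, ContinuousLinearEquiv.symm_apply_apply]
    · intro v hv
      rw [hG] at hv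
      set a : ℝ × ℝ := (e.symm v).1 with ha
      have e1 : e.symm v = (a, 0) := Prod.ext rfl hv
      have e2 : v = fderiv ℝ φ (P.symm q).1 a := by
        have e3 : v = e (a, 0) := by rw [← e1, ContinuousLinearEquiv.apply_symm_apply]
        have e4 : (e : ((ℝ × ℝ) × E2) →L[ℝ] E4) (a, 0) = ((fderiv ℝ φ (P.symm q).1).coprod R) (a, 0) := by
          rw [he]
        have e5 : ((fderiv ℝ φ (P.symm q).1).coprod R) (a, 0) = fderiv ℝ φ (P.symm q).1 a + R 0 := rfl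
        rw [map_zero, add_zero] at e5
        exact e3.trans (e4.trans e5)
      have hHd : DifferentiableAt ℝ H (P.symm q).1 :=
        (hH.contDiffAt (hV.mem_nhds h4)).differentiableAt (by simp)
      have e6 : HasFDerivAt (fun q => (P.symm q).1) ((ContinuousLinearMap.fst ℝ (ℝ × ℝ) E2).comp
        (e.symm : E4 →L[ℝ] ((ℝ × ℝ) × E2))) q := hasFDerivAt_fst.comp q h6
      have e7 := (hHd.hasFDerivAt.comp q e6).fderiv
      have e8 : fderiv ℝ (fun q => H (P.symm q).1) q v = fderiv ℝ H (P.symm q).1 a :=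
        congrArg (fun T : E4 →L[ℝ] ℝ => T v) e7
      rw [e8, hd _ h4, ← e2, hx]

end Pool.Agent.Lib_MP_59ec1f_cap
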