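import Pool.Agent.Lib_MP_59ec1f_cap.Assemble
import Pool.Agent.Lib_MP_59ec1f_cap.Curve
import Pool.Agent.Lib_MP_59ec1f_cap.Param
import Pool.Agent.Lib_MP_59ec1f_cap.CircleSys

/-!
# Strips give the statement

Coordinates `(0: s, 1: x, 2: Y, 3: τ)`, `dF = Y dx + τ ds`; near the negative end `Y` is proportional to `s`, `x` and `τ` are constant.
The final interface: `statement_of_strips`, `locM_of_chart`.
-/

set_option autoImplicit false

open Set Topology Filter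
open scoped ContDiff

namespace Pool.Agent.Lib_MP_59ec1f_cap

/-- the surface cut into four strips along the lines through the two saddle points: `B k u s`, `0 ≤ u ≤ len k`, `0 < s ≤ S`;
`a`, `b`, `S` are the levels of the events, the cone is `s ≤ s₀` -/
structure Strips4 (B : Fin 4 → ℝ → ℝ → E4) (len : Fin 4 → ℝ) (a b S s₀ : ℝ) : Prop where
  s0_pos : 0 < s₀
  s0_a : s₀ < a
  ab : a < b
  bS : b < S
  len_pos : ∀ k, 0 < len k
  cont : ∀ k, ContinuousOn (fun p : ℝ × ℝ => B k p.1 p.2) (Icc 0 (len k) ×ˢ Ioc 0 S)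
  lev : ∀ k, ∀ u ∈ Icc 0 (len k), ∀ s ∈ Ioc 0 S, B k u s 0 = s
  b0 : ∀ s ∈ Ioc 0 S, s ≤ b → B 0 0 s = B 3 (len 3) s
  b2 : ∀ s ∈ Ioc 0 S, s ≤ b → B 2 0 s = B 1 (len 1) s
  b0' : ∀ s ∈ Ioc 0 S, b ≤ s → B 0 0 s = B 1 (len 1) s
  b2' : ∀ s ∈ Ioc 0 S, b ≤ s → B 2 0 s = B 3 (len 3) s
  b1 : ∀ s ∈ Ioc 0 S, s ≤ a → B 1 0 s = B 0 (len 0) s
  b3 : ∀ s ∈ Ioc 0 S, s ≤ a → B 3 0 s = B 2 (len 2) s
  b1' : ∀ s ∈ Ioc 0 S, a ≤ s → B 1 0 s = B 2 (len 2) s
  b3' : ∀ s ∈ Ioc 0 S, a ≤ s → B 3 0 s = B 0 (len 0) s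
  top : ∀ k, ∀ u ∈ Icc 0 (len k), B k u S = B 0 0 S
  inj : ∀ s ∈ Ioo 0 S, ∀ k l, ∀ u ∈ Ioc 0 (len k), ∀ v ∈ Ioc 0 (len l), B k u s = B l v s →
    (k = l ∧ u = v) ∨ (s = a ∧ u = len k ∧ v = len l ∧ (k = 0 ∧ l = 2 ∨ k = 2 ∧ l = 0)) ∨
      (s = b ∧ u = len k ∧ v = len l ∧ (k = 1 ∧ l = 3 ∨ k = 3 ∧ l = 1))
  cone : ∀ k, ∀ u ∈ Icc 0 (len k), ∀ s ∈ Ioc 0 s₀, B k u s = !₂[s, B k u s₀ 1, s / s₀ * B k u s₀ 2, B k u s₀ 3]

/-- the union of the strips -/
def stripUnion (B : Fin 4 → ℝ → ℝ → E4) (len : Fin 4 → ℝ) (S : ℝ) : Set E4 :=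
  {m | ∃ k, ∃ u ∈ Icc 0 (len k), ∃ s ∈ Ioc 0 S, B k u s = m}

/-- change of the levels: `0, 1, 2, 3` to `0, a, b, S` -/
noncomputable def gl (a b S s : ℝ) : ℝ :=
  a * min s 1 + (b - a) * min (max (s - 1) 0) 1 + (S - b) * max (s - 2) 0

section levels

variable {a b S : ℝ}

theorem gl_continuous : Continuous (gl a b S) := by
  unfold gl
  fun_prop

theorem gl_mono (h0 : 0 < a) (h1 : a < b) (h2 : b < S) {s t : ℝ} (hs : 0 ≤ s) (hst : s < t) (ht : t ≤ 3) :
    gl a b S s < gl a b S t := by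
  unfold gl
  have e1 : min s 1 ≤ min t 1 := min_le_min_right _ hst.le
  have e2 : min (max (s - 1) 0) 1 ≤ min (max (t - 1) 0) 1 :=
    min_le_min_right _ (max_le_max_right _ (by linarith))
  have e3 : max (s - 2) 0 ≤ max (t - 2) 0 := max_le_max_right _ (by linarith)
  have f1 : a * min s 1 ≤ a * min t 1 := mul_le_mul_of_nonneg_left e1 h0.le
  have f2 : (b - a) * min (max (s - 1) 0) 1 ≤ (b - a) * min (max (t - 1) 0) 1 :=
    mul_le_mul_of_nonneg_left e2 (by linarith)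
  have f3 : (S - b) * max (s - 2) 0 ≤ (S - b) * max (t - 2) 0 := mul_le_mul_of_nonneg_left e3 (by linarith)
  rcases lt_or_ge s 1 with h | h
  · have e4 : min s 1 < min t 1 := by
      rw [min_eq_left h.le]
      exact lt_min hst h
    have f4 : a * min s 1 < a * min t 1 := mul_lt_mul_of_pos_left e4 h0
    linarith
  · rcases lt_or_ge s 2 with h' | h'
    · have e4 : min (max (s - 1) 0) 1 < min (max (t - 1) 0) 1 := by
        rw [max_eq_left (by linarith : (0 : ℝ) ≤ s - 1), max_eq_left (by linarith : (0 : ℝ) ≤ t - 1),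
          min_eq_left (by linarith : s - 1 ≤ 1)]
        exact lt_min (by linarith) (by linarith)
      have f4 : (b - a) * min (max (s - 1) 0) 1 < (b - a) * min (max (t - 1) 0) 1 :=
        mul_lt_mul_of_pos_left e4 (by linarith)
      linarith
    · have e4 : max (s - 2) 0 < max (t - 2) 0 := by
        rw [max_eq_left (by linarith : (0 : ℝ) ≤ s - 2), max_eq_left (by linarith : (0 : ℝ) ≤ t - 2)]
        linarith
      have f4 : (S - b) * max (s - 2) 0 < (S - b) * max (t - 2) 0 := mul_lt_mul_of_pos_left e4 (by linarith)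
      linarith

theorem gl_zero : gl a b S 0 = 0 := by
  unfold gl
  norm_num

theorem gl_one : gl a b S 1 = a := by
  unfold gl
  norm_num

theorem gl_two : gl a b S 2 = b := by
  unfold gl
  norm_num

theorem gl_three : gl a b S 3 = S := by
  unfold gl
  norm_num

theorem gl_mem (h0 : 0 < a) (h1 : a < b) (h2 : b < S) {s : ℝ} (hs : s ∈ Ioc (0 : ℝ) 3) : gl a b S s ∈ Ioc 0 S := by
  constructor
  · have := gl_mono h0 h1 h2 (le_refl 0) hs.1 hs.2
    rwa [gl_zero] at this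
  · rcases hs.2.eq_or_lt with h | h
    · rw [h, gl_three]
    · have := gl_mono h0 h1 h2 hs.1.le h (le_refl 3)
      rw [gl_three] at this
      exact this.le

theorem gl_le (h0 : 0 < a) (h1 : a < b) (h2 : b < S) {s : ℝ} (hs : 0 < s) : gl a b S s ≤ S * s := by
  unfold gl
  have e1 : min s 1 ≤ s := min_le_left _ _
  have e2 : min (max (s - 1) 0) 1 ≤ s := (min_le_left _ _).trans (max_le (by linarith) hs.le)
  have e3 : max (s - 2) 0 ≤ s := max_le (by linarith) hs.le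
  have f1 : a * min s 1 ≤ a * s := mul_le_mul_of_nonneg_left e1 h0.le
  have f2 : (b - a) * min (max (s - 1) 0) 1 ≤ (b - a) * s := mul_le_mul_of_nonneg_left e2 (by linarith)
  have f3 : (S - b) * max (s - 2) 0 ≤ (S - b) * s := mul_le_mul_of_nonneg_left e3 (by linarith)
  linarith

theorem gl_surj (h0 : 0 < a) (h1 : a < b) (h2 : b < S) {y : ℝ} (hy : y ∈ Ioc 0 S) :
    ∃ s ∈ Ioc (0 : ℝ) 3, gl a b S s = y := by
  have h3 : y ∈ Icc (gl a b S 0) (gl a b S 3) := by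
    rw [gl_zero, gl_three]
    exact ⟨hy.1.le, hy.2⟩
  obtain ⟨s, hs, hs'⟩ := intermediate_value_Icc (by norm_num : (0 : ℝ) ≤ 3) gl_continuous.continuousOn h3
  refine ⟨s, ⟨?_, hs.2⟩, hs'⟩
  rcases hs.1.eq_or_lt with h | h
  · rw [← h, gl_zero] at hs'
    exact absurd hs' hy.1.ne
  · exact h

theorem gl_le_iff (h0 : 0 < a) (h1 : a < b) (h2 : b < S) {s t : ℝ} (hs : s ∈ Icc (0 : ℝ) 3) (ht : t ∈ Icc (0 : ℝ) 3) :
    gl a b S s ≤ gl a b S t ↔ s ≤ t := by
  constructor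
  · intro h
    by_contra h'
    push Not at h'
    exact absurd (gl_mono h0 h1 h2 ht.1 h' hs.2) (not_lt.2 h)
  · intro h
    rcases h.eq_or_lt with h' | h'
    · rw [h']
    · exact (gl_mono h0 h1 h2 hs.1 h' ht.2).le

end levels

section strips

variable {B : Fin 4 → ℝ → ℝ → E4} {len : Fin 4 → ℝ} {a b S s₀ : ℝ}

/-- the strips with normalised parameters -/
noncomputable def nrm (B : Fin 4 → ℝ → ℝ → E4) (len : Fin 4 → ℝ) (a b S : ℝ) (k : Fin 4) (u s : ℝ) : E4 :=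
  B k (len k * u) (gl a b S s)

theorem Strips4.mem_len (h : Strips4 B len a b S s₀) (k : Fin 4) {u : ℝ} (hu : u ∈ Icc (0 : ℝ) 1) :
    len k * u ∈ Icc 0 (len k) :=
  ⟨mul_nonneg (h.len_pos k).le hu.1, by nlinarith [h.len_pos k, hu.2]⟩

theorem Strips4.a_pos (h : Strips4 B len a b S s₀) : 0 < a := h.s0_pos.trans h.s0_a

theorem Strips4.arcSys (h : Strips4 B len a b S s₀) : ArcSys (nrm B len a b S) := by
  have ha := h.a_pos
  have i1 : (1 : ℝ) ∈ Icc (0 : ℝ) 3 := ⟨by norm_num, by norm_num⟩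
  have i2 : (2 : ℝ) ∈ Icc (0 : ℝ) 3 := ⟨by norm_num, by norm_num⟩
  have hm : ∀ s ∈ Ioc (0 : ℝ) 3, gl a b S s ∈ Ioc 0 S := fun s hs => gl_mem ha h.ab h.bS hs
  have l1 : ∀ s ∈ Ioc (0 : ℝ) 3, s ≤ 1 → gl a b S s ≤ a := by
    intro s hs h1
    have := (gl_le_iff ha h.ab h.bS ⟨hs.1.le, hs.2⟩ i1).2 h1
    rwa [gl_one] at this
  have l1' : ∀ s ∈ Ioc (0 : ℝ) 3, 1 ≤ s → a ≤ gl a b S s := by
    intro s hs h1
    have := (gl_le_iff ha h.ab h.bS i1 ⟨hs.1.le, hs.2⟩).2 h1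
    rwa [gl_one] at this
  have l2 : ∀ s ∈ Ioc (0 : ℝ) 3, s ≤ 2 → gl a b S s ≤ b := by
    intro s hs h1
    have := (gl_le_iff ha h.ab h.bS ⟨hs.1.le, hs.2⟩ i2).2 h1
    rwa [gl_two] at this
  have l2' : ∀ s ∈ Ioc (0 : ℝ) 3, 2 ≤ s → b ≤ gl a b S s := by
    intro s hs h1
    have := (gl_le_iff ha h.ab h.bS i2 ⟨hs.1.le, hs.2⟩).2 h1
    rwa [gl_two] at this
  have inj_gl : ∀ s ∈ Ioc (0 : ℝ) 3, ∀ t ∈ Ioc (0 : ℝ) 3, gl a b S s = gl a b S t → s = t := by
    intro s hs t ht h1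
    exact le_antisymm ((gl_le_iff ha h.ab h.bS ⟨hs.1.le, hs.2⟩ ⟨ht.1.le, ht.2⟩).1 h1.le)
      ((gl_le_iff ha h.ab h.bS ⟨ht.1.le, ht.2⟩ ⟨hs.1.le, hs.2⟩).1 h1.ge)
  refine ⟨?_, ?_, ?_, ?_, ?_, ?_, ?_, ?_, ?_, ?_, ?_⟩
  · intro s hs h1
    have := h.b0 _ (hm s hs) (l2 s hs h1)
    simpa [nrm] using this
  · intro s hs h1
    have := h.b2 _ (hm s hs) (l2 s hs h1)
    simpa [nrm] using this
  · intro s hs h1
    have := h.b0' _ (hm s hs) (l2' s hs h1)
    simpa [nrm] using this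
  · intro s hs h1
    have := h.b2' _ (hm s hs) (l2' s hs h1)
    simpa [nrm] using this
  · intro s hs h1
    have := h.b1 _ (hm s hs) (l1 s hs h1)
    simpa [nrm] using this
  · intro s hs h1
    have := h.b3 _ (hm s hs) (l1 s hs h1)
    simpa [nrm] using this
  · intro s hs h1
    have := h.b1' _ (hm s hs) (l1' s hs h1)
    simpa [nrm] using this
  · intro s hs h1
    have := h.b3' _ (hm s hs) (l1' s hs h1)
    simpa [nrm] using this
  · intro k u hu
    have := h.top k _ (h.mem_len k hu)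
    unfold nrm
    rw [gl_three, this, mul_zero]
  · intro s hs k l u hu v hv huv
    have hs' : gl a b S s ∈ Ioo 0 S := by
      refine ⟨(hm s ⟨hs.1, hs.2.le⟩).1, ?_⟩
      have := gl_mono ha h.ab h.bS hs.1.le hs.2 (le_refl 3)
      rwa [gl_three] at this
    have hk := h.len_pos k
    have hl := h.len_pos l
    have hu' : len k * u ∈ Ioc 0 (len k) := ⟨mul_pos hk hu.1, by nlinarith [hu.2]⟩
    have hv' : len l * v ∈ Ioc 0 (len l) := ⟨mul_pos hl hv.1, by nlinarith [hv.2]⟩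
    have one : ∀ {x y : ℝ}, 0 < x → x * y = x → y = 1 := by
      intro x y hx hxy
      have : x * (y - 1) = 0 := by linarith
      rcases mul_eq_zero.1 this with h3 | h3
      · exact absurd h3 hx.ne'
      · linarith
    rcases h.inj _ hs' k l _ hu' _ hv' huv with ⟨h1, h2⟩ | ⟨h1, h2, h3, h4⟩ | ⟨h1, h2, h3, h4⟩
    · left
      refine ⟨h1, ?_⟩
      subst h1
      exact mul_left_cancel₀ hk.ne' h2
    · right; left
      refine ⟨?_, one hk h2, one hl h3, h4⟩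
      exact inj_gl s ⟨hs.1, hs.2.le⟩ 1 ⟨by norm_num, by norm_num⟩ (by rw [h1, gl_one])
    · right; right
      refine ⟨?_, one hk h2, one hl h3, h4⟩
      exact inj_gl s ⟨hs.1, hs.2.le⟩ 2 ⟨by norm_num, by norm_num⟩ (by rw [h1, gl_two])
  · choose! f hf1 hf2 using fun (y : ℝ) (hy : y ∈ Ioc 0 S) => gl_surj ha h.ab h.bS hy
    refine ⟨fun z => f (z 0), ?_⟩
    intro s hs k u hu
    have h1 : nrm B len a b S k u s 0 = gl a b S s := h.lev k _ (h.mem_len k hu) _ (hm s hs)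
    change f (nrm B len a b S k u s 0) = s
    rw [h1]
    exact inj_gl _ (hf1 _ (hm s hs)) s hs (hf2 _ (hm s hs))

theorem Strips4.union_eq (h : Strips4 B len a b S s₀) : arcUnion (nrm B len a b S) = stripUnion B len S := by
  have ha := h.a_pos
  ext m
  constructor
  · rintro ⟨k, u, hu, s, hs, rfl⟩
    exact ⟨k, _, h.mem_len k hu, _, gl_mem ha h.ab h.bS hs, rfl⟩
  · rintro ⟨k, u, hu, s, hs, rfl⟩
    obtain ⟨s', hs', rfl⟩ := gl_surj ha h.ab h.bS hs
    have hk := h.len_pos k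
    refine ⟨k, u / len k, ⟨div_nonneg hu.1 hk.le, (div_le_one hk).2 hu.2⟩, s', hs', ?_⟩
    unfold nrm
    rw [mul_div_cancel₀ _ hk.ne']

theorem Strips4.torus (h : Strips4 B len a b S s₀) : Nonempty (stripUnion B len S ≃ₜ PuncturedTorus) ∧
    ∃ C : Set E4, IsClosed C ∧ stripUnion B len S = C ∩ {m | 0 < m 0} := by
  have ha := h.a_pos
  have hS : 0 < S := ha.trans (h.ab.trans h.bS)
  rw [← h.union_eq]
  apply torus_of_arcs h.arcSys (g := gl a b S)
  · intro k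
    have h1 : ContinuousOn (fun p : ℝ × ℝ => B k p.1 p.2) (Icc 0 (len k) ×ˢ Ioc 0 S) := h.cont k
    have h2 : Continuous fun p : ℝ × ℝ => (len k * p.1, gl a b S p.2) :=
      (continuous_const.mul continuous_fst).prodMk (gl_continuous.comp continuous_snd)
    exact h1.comp h2.continuousOn fun p hp => ⟨h.mem_len k hp.1, gl_mem ha h.ab h.bS hp.2⟩
  · intro s hs
    exact (gl_mem ha h.ab h.bS hs).1
  · intro s hs k u hu
    exact h.lev k _ (h.mem_len k hu) _ (gl_mem ha h.ab h.bS hs)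
  · intro ε hε
    refine ⟨ε / S, div_pos hε hS, fun s hs hs' => ?_⟩
    rw [div_le_iff₀ hS]
    have := gl_le ha h.ab h.bS hs.1
    linarith

theorem Strips4.mem_lev (h : Strips4 B len a b S s₀) {m : E4} (hm : m ∈ stripUnion B len S) : m 0 ∈ Ioc 0 S ∧
    ∃ k, ∃ u ∈ Icc 0 (len k), B k u (m 0) = m := by
  obtain ⟨k, u, hu, s, hs, rfl⟩ := hm
  have h1 := h.lev k u hu s hs
  rw [h1]
  exact ⟨hs, k, u, hu, rfl⟩

/-- the cone -/
theorem Strips4.cone_iff (h : Strips4 B len a b S s₀) {q : E4} (h0 : 0 < q 0) (h1 : q 0 ≤ s₀) :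
    q ∈ stripUnion B len S ↔ !₂[s₀, q 1, s₀ * q 2 / q 0, q 3] ∈ stripUnion B len S := by
  have hs0 := h.s0_pos
  have hsS : s₀ ≤ S := (h.s0_a.trans (h.ab.trans h.bS)).le
  constructor
  · intro hq
    obtain ⟨h2, k, u, hu, h3⟩ := h.mem_lev hq
    refine ⟨k, u, hu, s₀, ⟨hs0, hsS⟩, ?_⟩
    have h4 := h.cone k u hu (q 0) ⟨h0, h1⟩
    rw [h3] at h4
    have e0 := h.lev k u hu s₀ ⟨hs0, hsS⟩
    have e1 : q 1 = B k u s₀ 1 := by
      have := congrArg (fun z : E4 => z 1) h4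
      exact this
    have e2 : q 2 = q 0 / s₀ * B k u s₀ 2 := by
      have := congrArg (fun z : E4 => z 2) h4
      exact this
    have e3 : q 3 = B k u s₀ 3 := by
      have := congrArg (fun z : E4 => z 3) h4
      exact this
    ext i
    fin_cases i
    · exact e0
    · exact e1.symm
    · change B k u s₀ 2 = s₀ * q 2 / q 0
      rw [e2]
      field_simp
    · exact e3.symm
  · rintro ⟨k, u, hu, s, hs, h2⟩
    have h3 := h.lev k u hu s hs
    rw [h2] at h3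
    have h4 : s₀ = s := h3
    subst h4
    refine ⟨k, u, hu, q 0, ⟨h0, h1.trans hs.2⟩, ?_⟩
    rw [h.cone k u hu (q 0) ⟨h0, h1⟩, h2]
    ext i
    fin_cases i
    · rfl
    · rfl
    · change q 0 / s₀ * (s₀ * q 2 / q 0) = q 2
      field_simp
    · rfl

/-- the circle -/
theorem Strips4.circle (h : Strips4 B len a b S s₀) :
    Nonempty ({c : E3 | (!₂[s₀, c 1, -(s₀ * c 0), c 2] : E4) ∈ stripUnion B len S} ≃ₜ Circle) := by
  have hs0 := h.s0_pos
  have hsS : s₀ ≤ S := (h.s0_a.trans (h.ab.trans h.bS)).le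
  have hs : s₀ ∈ Ioc 0 S := ⟨hs0, hsS⟩
  set A : Fin 4 → ℝ → E3 := fun k u => !₂[-(B k (len k * u) s₀ 2) / s₀, B k (len k * u) s₀ 1, B k (len k * u) s₀ 3]
    with hA
  have hback : ∀ k, ∀ u ∈ Icc (0 : ℝ) 1, (!₂[s₀, A k u 1, -(s₀ * A k u 0), A k u 2] : E4) = B k (len k * u) s₀ := by
    intro k u hu
    ext i
    fin_cases i
    · exact (h.lev k _ (h.mem_len k hu) s₀ hs).symm
    · rfl
    · change -(s₀ * (-(B k (len k * u) s₀ 2) / s₀)) = B k (len k * u) s₀ 2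
      field_simp
    · rfl
  have hsys : CircSys A := by
    have e : ∀ {k l : Fin 4} {u v : ℝ}, B k (len k * u) s₀ = B l (len l * v) s₀ → A k u = A l v := by
      intro k l u v h1
      rw [hA]
      simp only [h1]
    refine ⟨?_, ?_, ?_, ?_, ?_⟩
    · apply e
      have := h.b0 s₀ hs (h.s0_a.trans h.ab).le
      simpa using this
    · apply e
      have := h.b1 s₀ hs h.s0_a.le
      simpa using this
    · apply e
      have := h.b2 s₀ hs (h.s0_a.trans h.ab).le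
      simpa using this
    · apply e
      have := h.b3 s₀ hs h.s0_a.le
      simpa using this
    · intro k l u hu v hv huv
      have h1 : B k (len k * u) s₀ = B l (len l * v) s₀ := by
        rw [← hback k u ⟨hu.1.le, hu.2⟩, ← hback l v ⟨hv.1.le, hv.2⟩, huv]
      have hk := h.len_pos k
      have hl := h.len_pos l
      have hs' : s₀ ∈ Ioo 0 S := ⟨hs0, h.s0_a.trans (h.ab.trans h.bS)⟩
      rcases h.inj s₀ hs' k l _ ⟨mul_pos hk hu.1, by nlinarith [hu.2]⟩ _ ⟨mul_pos hl hv.1, by nlinarith [hv.2]⟩ h1 with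
        ⟨h2, h3⟩ | ⟨h2, _⟩ | ⟨h2, _⟩
      · subst h2
        exact ⟨rfl, mul_left_cancel₀ hk.ne' h3⟩
      · exact absurd h2 h.s0_a.ne
      · exact absurd h2 (h.s0_a.trans h.ab).ne
  have hcont : ∀ k, ContinuousOn (A k) (Icc 0 1) := by
    intro k
    have h1 : ContinuousOn (fun u : ℝ => B k (len k * u) s₀) (Icc 0 1) := by
      have h2 : Continuous fun u : ℝ => (len k * u, s₀) := by fun_prop
      exact (h.cont k).comp h2.continuousOn fun u hu => ⟨h.mem_len k hu, hs⟩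
    have hc : ∀ i : Fin 4, ContinuousOn (fun u : ℝ => B k (len k * u) s₀ i) (Icc 0 1) := fun i =>
      (EuclideanSpace.proj (𝕜 := ℝ) i).continuous.comp_continuousOn h1
    have h3 : ContinuousOn (fun u : ℝ => ![-(B k (len k * u) s₀ 2) / s₀, B k (len k * u) s₀ 1,
        B k (len k * u) s₀ 3]) (Icc 0 1) := by
      rw [continuousOn_pi]
      intro i
      fin_cases i
      · exact (hc 2).neg.div_const _
      · exact hc 1
      · exact hc 3
    exact (PiLp.continuous_toLp 2 _).comp_continuousOn h3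
  apply circle_of_arcs hsys hcont
  ext c
  constructor
  · intro hc
    obtain ⟨-, k, u, hu, h1⟩ := h.mem_lev (show (!₂[s₀, c 1, -(s₀ * c 0), c 2] : E4) ∈ stripUnion B len S from hc)
    have h2 : B k u s₀ = !₂[s₀, c 1, -(s₀ * c 0), c 2] := h1
    have hk := h.len_pos k
    refine ⟨k, u / len k, ⟨div_nonneg hu.1 hk.le, (div_le_one hk).2 hu.2⟩, ?_⟩
    rw [hA]
    simp only [mul_div_cancel₀ _ hk.ne', h2]
    ext i
    fin_cases i
    · change -(-(s₀ * c 0)) / s₀ = c 0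
      field_simp
    · rfl
    · rfl
  · rintro ⟨k, u, hu, rfl⟩
    change (!₂[s₀, A k u 1, -(s₀ * A k u 0), A k u 2] : E4) ∈ stripUnion B len S
    rw [hback k u hu]
    exact ⟨k, _, h.mem_len k hu, s₀, hs, rfl⟩

/-- from the coordinates of `IsModel` to those of the strips -/
def rotM (q : E4) : E4 := !₂[q 0, q 2, -q 1, q 3]

/-- from the coordinates of the strips to those of `IsModel` -/
def torM (q : E4) : E4 := !₂[q 0, -q 2, q 1, q 3]

theorem rotM_torM (q : E4) : rotM (torM q) = q := by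
  ext i
  fin_cases i
  · rfl
  · rfl
  · change - -q 2 = q 2
    ring
  · rfl

theorem torM_rotM (q : E4) : torM (rotM q) = q := by
  ext i
  fin_cases i
  · rfl
  · change - -q 1 = q 1
    ring
  · rfl
  · rfl

theorem rotM_contDiff : ContDiff ℝ ∞ rotM := by
  have hc : ∀ i : Fin 4, ContDiff ℝ ∞ fun p : E4 => p i := fun i => (EuclideanSpace.proj (𝕜 := ℝ) i).contDiff
  rw [contDiff_euclidean]
  intro i
  fin_cases i
  · exact hc 0
  · exact hc 2
  · exact (hc 1).neg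
  · exact hc 3

theorem torM_continuous : Continuous torM := by
  have hc : ∀ i : Fin 4, ContDiff ℝ ∞ fun p : E4 => p i := fun i => (EuclideanSpace.proj (𝕜 := ℝ) i).contDiff
  have : ContDiff ℝ ∞ torM := by
    rw [contDiff_euclidean]
    intro i
    fin_cases i
    · exact hc 0
    · exact (hc 2).neg
    · exact hc 1
    · exact hc 3
  exact this.continuous

theorem fderiv_rotM (q v : E4) : fderiv ℝ rotM q v = rotM v := by
  have hd : DifferentiableAt ℝ rotM q := (rotM_contDiff.differentiable (by simp)).differentiableAt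
  have hl : HasDerivAt (fun t : ℝ => q + t • v) v 0 := by
    have := ((hasDerivAt_id (0 : ℝ)).smul_const v).const_add q
    simpa using this
  ext i
  fin_cases i
  · exact fderiv_coord hd v 0 (hasDerivAt_coord hl 0)
  · exact fderiv_coord hd v 1 (hasDerivAt_coord hl 2)
  · exact fderiv_coord hd v 2 (hasDerivAt_coord hl 1).neg
  · exact fderiv_coord hd v 3 (hasDerivAt_coord hl 3)

theorem locM_rot {M : Set E4} {F : E4 → ℝ} {m : E4} (h : LocM M F (rotM m)) :
    LocM (rotM ⁻¹' M) (fun q => F (rotM q) + q 1 * q 2) m := by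
  obtain ⟨U, G, h, hU, hmU, hG, hh, hMU, hd⟩ := h
  have hc := rotM_contDiff.continuous
  have hmap : Set.MapsTo rotM (rotM ⁻¹' U) U := fun q hq => hq
  have hcoord : ∀ i : Fin 4, ContDiff ℝ ∞ fun q : E4 => q i := fun i => (EuclideanSpace.proj (𝕜 := ℝ) i).contDiff
  have hcd : ∀ (i : Fin 4) (q : E4), HasFDerivAt (fun q : E4 => q i) (EuclideanSpace.proj (𝕜 := ℝ) i) q :=
    fun i q => (EuclideanSpace.proj (𝕜 := ℝ) i).hasFDerivAt
  have hsd : ∀ q, DifferentiableAt ℝ rotM q := fun q => (rotM_contDiff.differentiable (by simp)).differentiableAt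
  refine ⟨rotM ⁻¹' U, fun q => G (rotM q), fun q => h (rotM q) + q 1 * q 2, hU.preimage hc, hmU,
    hG.comp rotM_contDiff.contDiffOn hmap,
    (hh.comp rotM_contDiff.contDiffOn hmap).add ((hcoord 1).mul (hcoord 2)).contDiffOn, ?_, ?_⟩
  · ext q
    constructor
    · rintro ⟨h1, h2⟩
      refine ⟨h2, ?_⟩
      have h3 : rotM q ∈ M ∩ U := ⟨h1, h2⟩
      rw [hMU] at h3
      exact h3.2
    · rintro ⟨h1, h2⟩
      have h3 : rotM q ∈ {q ∈ U | G q = 0} := ⟨h1, h2⟩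
      rw [← hMU] at h3
      exact ⟨h3.1, h1⟩
  · rintro q ⟨h1, h2⟩
    obtain ⟨h4, h5, h6⟩ := hd (rotM q) ⟨h1, h2⟩
    have hGd : DifferentiableAt ℝ G (rotM q) := (hG.contDiffAt (hU.mem_nhds h2)).differentiableAt (by simp)
    have hhd : DifferentiableAt ℝ h (rotM q) := (hh.contDiffAt (hU.mem_nhds h2)).differentiableAt (by simp)
    have hGf : ∀ v, fderiv ℝ (fun q => G (rotM q)) q v = fderiv ℝ G (rotM q) (rotM v) := by
      intro v
      have e := (hGd.hasFDerivAt.comp q (hsd q).hasFDerivAt).fderiv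
      have e' : fderiv ℝ (fun q => G (rotM q)) q = (fderiv ℝ G (rotM q)).comp (fderiv ℝ rotM q) := e
      rw [e']
      change fderiv ℝ G (rotM q) (fderiv ℝ rotM q v) = _
      rw [fderiv_rotM]
    refine ⟨?_, ?_, ?_⟩
    · change F (rotM q) + q 1 * q 2 = h (rotM q) + q 1 * q 2
      rw [h4]
    · intro y
      obtain ⟨a, ha⟩ := h5 y
      refine ⟨torM a, ?_⟩
      rw [hGf, rotM_torM, ha]
    · intro v hv
      rw [hGf] at hv
      have h7 := h6 _ hv
      have e := ((hhd.hasFDerivAt.comp q (hsd q).hasFDerivAt).add ((hcd 1 q).mul (hcd 2 q))).fderiv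
      have e' : fderiv ℝ (fun q => h (rotM q) + q 1 * q 2) q v =
          fderiv ℝ h (rotM q) (fderiv ℝ rotM q v) + (q 1 * v 2 + q 2 * v 1) :=
        congrArg (fun T : E4 →L[ℝ] ℝ => T v) e
      rw [e', fderiv_rotM, h7]
      change -q 1 * v 2 + q 3 * v 0 + (q 1 * v 2 + q 2 * v 1) = q 2 * v 1 + q 3 * v 0
      ring

/-- the strips give a model -/
theorem Strips4.model (h : Strips4 B len a b S s₀) {F : E4 → ℝ}
    (hF : ∀ m ∈ stripUnion B len S, m 0 ≤ s₀ → F m = m 0 * m 3)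
    (hloc : ∀ m ∈ stripUnion B len S, LocM (stripUnion B len S) F m) :
    IsModel (rotM ⁻¹' stripUnion B len S) (fun q => F (rotM q) + q 1 * q 2)
      {c : E3 | (!₂[s₀, c 1, -(s₀ * c 0), c 2] : E4) ∈ stripUnion B len S} := by
  have hs0 := h.s0_pos
  obtain ⟨⟨e⟩, D, hD, hMD⟩ := h.torus
  have hcone : ∀ m : E4, 0 < m 0 → m 0 ≤ s₀ →
      (m ∈ rotM ⁻¹' stripUnion B len S ↔
        (!₂[m 1 / m 0, m 2, m 3] : E3) ∈ {c : E3 | (!₂[s₀, c 1, -(s₀ * c 0), c 2] : E4) ∈ stripUnion B len S}) ∧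
      (m ∈ rotM ⁻¹' stripUnion B len S → F (rotM m) + m 1 * m 2 = m 1 * m 2 + m 0 * m 3) := by
    intro m h1 h2
    constructor
    · have h3 := h.cone_iff (q := rotM m) h1 h2
      have h4 : (!₂[s₀, rotM m 1, s₀ * rotM m 2 / rotM m 0, rotM m 3] : E4)
          = !₂[s₀, (!₂[m 1 / m 0, m 2, m 3] : E3) 1, -(s₀ * (!₂[m 1 / m 0, m 2, m 3] : E3) 0),
            (!₂[m 1 / m 0, m 2, m 3] : E3) 2] := by
        ext i
        fin_cases i
        · rfl
        · rfl
        · change s₀ * -m 1 / m 0 = -(s₀ * (m 1 / m 0))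
          ring
        · rfl
      rw [h4] at h3
      exact h3
    · intro h3
      have h4 := hF (rotM m) h3 h2
      rw [h4]
      change m 0 * m 3 + m 1 * m 2 = _
      ring
  refine ⟨⟨rotM ⁻¹' D, hD.preimage rotM_contDiff.continuous, ?_⟩, fun m hm => locM_rot (hloc _ hm), ⟨s₀, hs0, hcone⟩,
    ⟨S, fun m hm => (h.mem_lev (show rotM m ∈ _ from hm)).1.2⟩, ?_, h.circle, fun p hp => ?_⟩
  · rw [hMD]
    rfl
  · have e' : (rotM ⁻¹' stripUnion B len S : Set E4) ≃ₜ stripUnion B len S :=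
      { toFun := fun p => ⟨rotM p.1, p.2⟩
        invFun := fun q => ⟨torM q.1, by
          change rotM (torM q.1) ∈ stripUnion B len S
          rw [rotM_torM]
          exact q.2⟩
        left_inv := fun p => Subtype.ext (torM_rotM p.1)
        right_inv := fun q => Subtype.ext (rotM_torM q.1)
        continuous_toFun := by
          apply Continuous.subtype_mk
          exact rotM_contDiff.continuous.comp continuous_subtype_val
        continuous_invFun := by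
          apply Continuous.subtype_mk
          exact torM_continuous.comp continuous_subtype_val }
    exact ⟨e'.trans e⟩
  · exact curve_of_loc hs0 hcone (fun m hm => locM_rot (hloc _ hm)) hp

/-- strips with local regular level sets give the statement -/
theorem statement_of_strips (h : Strips4 B len a b S s₀) {F : E4 → ℝ}
    (hF : ∀ m ∈ stripUnion B len S, m 0 ≤ s₀ → F m = m 0 * m 3)
    (hloc : ∀ m ∈ stripUnion B len S, LocM (stripUnion B len S) F m) : Statement :=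
  statement_of_model (h.model hF hloc)

/-- the local condition from one parametrised chart -/
theorem locM_of_chart (h : Strips4 B len a b S s₀) {F : E4 → ℝ} {m : E4} {φ : ℝ × ℝ → E4} {x₀ : ℝ × ℝ} {H : ℝ × ℝ → ℝ}
    {V : Set (ℝ × ℝ)} (hV : IsOpen V) (hx₀ : x₀ ∈ V) (hφ : ContDiffOn ℝ ∞ φ V)
    (hinj : Function.Injective (fderiv ℝ φ x₀)) (hm : φ x₀ = m) (hM : ∀ x ∈ V, φ x ∈ stripUnion B len S)
    (hpre : ∀ N ∈ 𝓝 x₀, ∀ k, ∀ u ∈ Icc 0 (len k), ∀ s ∈ Ioc 0 S, B k u s = m →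
      ∀ᶠ p in 𝓝 ((u, s) : ℝ × ℝ), p.1 ∈ Icc 0 (len k) → p.2 ∈ Ioc 0 S → B k p.1 p.2 ∈ φ '' N)
    (hH : ContDiffOn ℝ ∞ H V) (hF : ∀ x ∈ V, F (φ x) = H x)
    (hd : ∀ x ∈ V, ∀ v, fderiv ℝ H x v = φ x 2 * (fderiv ℝ φ x v) 1 + φ x 3 * (fderiv ℝ φ x v) 0) :
    LocM (stripUnion B len S) F m := by
  refine locM_param hV hx₀ hφ hinj hm hM ?_ hH hF hd
  intro N hN
  have hmM : m ∈ stripUnion B len S := by
    rw [← hm]
    exact hM x₀ hx₀
  obtain ⟨⟨hm0, hmS⟩, -⟩ := h.mem_lev hmM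
  set ε : ℝ := m 0 / 2 with hε
  have hε0 : 0 < ε := by positivity
  have key : ∀ k : Fin 4, ∀ᶠ q in 𝓝 m, ∀ p ∈ Icc 0 (len k) ×ˢ Icc ε S, B k p.1 p.2 = q → q ∈ φ '' N := by
    intro k
    set K : Set (ℝ × ℝ) := Icc 0 (len k) ×ˢ Icc ε S with hK
    have hKc : IsCompact K := isCompact_Icc.prod isCompact_Icc
    set Z : Set (ℝ × ℝ) := {p ∈ K | B k p.1 p.2 ∉ φ '' N} with hZ
    have hZK : closure Z ⊆ K := closure_minimal (fun p hp => hp.1) hKc.isClosed
    have hZc : IsCompact (closure Z) := hKc.of_isClosed_subset isClosed_closure hZK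
    have hsub : K ⊆ Icc 0 (len k) ×ˢ Ioc 0 S := fun p hp => ⟨hp.1, lt_of_lt_of_le hε0 hp.2.1, hp.2.2⟩
    have hBc : ContinuousOn (fun p : ℝ × ℝ => B k p.1 p.2) (closure Z) :=
      (h.cont k).mono (hZK.trans hsub)
    have hcl : IsClosed ((fun p : ℝ × ℝ => B k p.1 p.2) '' closure Z) := (hZc.image_of_continuousOn hBc).isClosed
    have hnot : m ∉ (fun p : ℝ × ℝ => B k p.1 p.2) '' closure Z := by
      rintro ⟨p, hp, hpm⟩
      have hpK := hsub (hZK hp)
      have h1 := hpre N hN k p.1 hpK.1 p.2 hpK.2 hpm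
      obtain ⟨p', hp'1, hp'2⟩ := mem_closure_iff_nhds.1 hp _ h1
      exact hp'2.2 (hp'1 (hsub hp'2.1).1 (hsub hp'2.1).2)
    filter_upwards [hcl.isOpen_compl.mem_nhds hnot] with q hq p hp hpq
    by_contra hq'
    apply hq
    exact ⟨p, subset_closure ⟨hp, by rw [hpq]; exact hq'⟩, hpq⟩
  have hlow : ∀ᶠ q : E4 in 𝓝 m, ε < q 0 := by
    have hc0 : Continuous fun q : E4 => q 0 := (EuclideanSpace.proj (𝕜 := ℝ) (0 : Fin 4)).continuous
    exact hc0.continuousAt.tendsto.eventually (lt_mem_nhds (by rw [hε]; linarith))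
  filter_upwards [hlow, eventually_all.2 key] with q hq1 hq2 hq3
  obtain ⟨⟨h1, h2⟩, k, u, hu, h3⟩ := h.mem_lev hq3
  exact hq2 k (u, q 0) ⟨hu, hq1.le, h2⟩ h3

end strips

end Pool.Agent.Lib_MP_59ec1f_cap
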