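import Pool.Agent.Lib_MP_59ec1f_cap.CellJ

/-!
# Cells

A cell is the mollified corner at a vertex `(x1, y1)` with the neighbours `(x0, y0)` and `(x2, y2)`; the `x`-coordinates are
constant, the `y`-coordinates smooth functions of `s`, and `f` is the value of the primitive at the midpoint of the edge
from the vertex to the second neighbour (parameter `v = 1/2`).
-/

set_option autoImplicit false

open scoped ContDiff

namespace Pool.Agent.Lib_MP_59ec1f_cap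

/-- a cell -/
structure Cell where
  x0 : ℝ
  x1 : ℝ
  x2 : ℝ
  y0 : ℝ → ℝ
  y1 : ℝ → ℝ
  y2 : ℝ → ℝ
  f : ℝ → ℝ
  h0 : ContDiff ℝ ∞ y0
  h1 : ContDiff ℝ ∞ y1
  h2 : ContDiff ℝ ∞ y2
  hf : ContDiff ℝ ∞ f

namespace Cell

variable (μ : Moll) (C : Cell)

/-- the point with the parameters `v, s` -/
noncomputable def pt (p : ℝ × ℝ) : P4 :=
  (μ.tri C.x0 C.x1 C.x2 p.1, p.2, μ.tri (C.y0 p.2) (C.y1 p.2) (C.y2 p.2) p.1,
    deriv C.f p.2 - μ.J C.x0 C.x1 C.x2 (deriv C.y0 p.2) (deriv C.y1 p.2) (deriv C.y2 p.2) p.1)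

/-- the primitive -/
noncomputable def prim (p : ℝ × ℝ) : ℝ :=
  C.f p.2 - μ.J C.x0 C.x1 C.x2 (C.y0 p.2) (C.y1 p.2) (C.y2 p.2) p.1

private theorem fderiv_pair_Cell {F : ℝ × ℝ → ℝ} (p : ℝ × ℝ) (hF : DifferentiableAt ℝ F p) {a b : ℝ}
    (ha : HasDerivAt (fun t => F (t, p.2)) a p.1) (hb : HasDerivAt (fun t => F (p.1, t)) b p.2) (v : ℝ × ℝ) :
    fderiv ℝ F p v = a * v.1 + b * v.2 := by
  have h1 : HasDerivAt (fun t => F (t, p.2)) (fderiv ℝ F p (1, 0)) p.1 := by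
    have hF' : HasFDerivAt F (fderiv ℝ F p) ((fun t : ℝ => (t, p.2)) p.1) := hF.hasFDerivAt
    exact hF'.comp_hasDerivAt p.1 ((hasDerivAt_id p.1).prodMk (hasDerivAt_const p.1 p.2))
  have h2 : HasDerivAt (fun t => F (p.1, t)) (fderiv ℝ F p (0, 1)) p.2 := by
    have hF' : HasFDerivAt F (fderiv ℝ F p) ((fun t : ℝ => (p.1, t)) p.2) := hF.hasFDerivAt
    exact hF'.comp_hasDerivAt p.2 ((hasDerivAt_const p.2 p.1).prodMk (hasDerivAt_id p.2))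
  have e1 := h1.unique ha
  have e2 := h2.unique hb
  have hv : v = v.1 • ((1, 0) : ℝ × ℝ) + v.2 • ((0, 1) : ℝ × ℝ) := by
    ext <;> simp
  calc fderiv ℝ F p v = fderiv ℝ F p (v.1 • ((1, 0) : ℝ × ℝ) + v.2 • ((0, 1) : ℝ × ℝ)) := by rw [← hv]
    _ = a * v.1 + b * v.2 := by
      rw [map_add, map_smul, map_smul, e1, e2, smul_eq_mul, smul_eq_mul]; ring

private theorem tri_comb_Cell (a b c u : ℝ) :
    μ.tri a b c u = a * μ.tri 1 0 0 u + b * μ.tri 0 1 0 u + c * μ.tri 0 0 1 u := by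
  simp only [Moll.tri]; ring

private theorem triG_contDiff_Cell {g0 g1 g2 : ℝ → ℝ} (h0 : ContDiff ℝ ∞ g0) (h1 : ContDiff ℝ ∞ g1)
    (h2 : ContDiff ℝ ∞ g2) :
    ContDiff ℝ ∞ (fun p : ℝ × ℝ => μ.tri (g0 p.2) (g1 p.2) (g2 p.2) p.1) := by
  have e : (fun p : ℝ × ℝ => μ.tri (g0 p.2) (g1 p.2) (g2 p.2) p.1) =
      fun p : ℝ × ℝ => g0 p.2 * μ.tri 1 0 0 p.1 + g1 p.2 * μ.tri 0 1 0 p.1 + g2 p.2 * μ.tri 0 0 1 p.1 :=
    funext fun p => tri_comb_Cell μ _ _ _ _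
  rw [e]
  exact (((h0.comp contDiff_snd).mul ((μ.tri_contDiff 1 0 0).comp contDiff_fst)).add
    ((h1.comp contDiff_snd).mul ((μ.tri_contDiff 0 1 0).comp contDiff_fst))).add
    ((h2.comp contDiff_snd).mul ((μ.tri_contDiff 0 0 1).comp contDiff_fst))

private theorem JG_contDiff_Cell (x0 x1 x2 : ℝ) {g0 g1 g2 : ℝ → ℝ} (h0 : ContDiff ℝ ∞ g0) (h1 : ContDiff ℝ ∞ g1)
    (h2 : ContDiff ℝ ∞ g2) :
    ContDiff ℝ ∞ (fun p : ℝ × ℝ => μ.J x0 x1 x2 (g0 p.2) (g1 p.2) (g2 p.2) p.1) := by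
  have e : (fun p : ℝ × ℝ => μ.J x0 x1 x2 (g0 p.2) (g1 p.2) (g2 p.2) p.1) =
      fun p : ℝ × ℝ => g0 p.2 * μ.J x0 x1 x2 1 0 0 p.1 + g1 p.2 * μ.J x0 x1 x2 0 1 0 p.1 +
        g2 p.2 * μ.J x0 x1 x2 0 0 1 p.1 :=
    funext fun p => μ.J_eq _ _ _ _ _ _ _
  rw [e]
  exact (((h0.comp contDiff_snd).mul ((μ.J_contDiff x0 x1 x2 1 0 0).comp contDiff_fst)).add
    ((h1.comp contDiff_snd).mul ((μ.J_contDiff x0 x1 x2 0 1 0).comp contDiff_fst))).add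
    ((h2.comp contDiff_snd).mul ((μ.J_contDiff x0 x1 x2 0 0 1).comp contDiff_fst))

private theorem deriv_contDiff_Cell {g : ℝ → ℝ} (h : ContDiff ℝ ∞ g) : ContDiff ℝ ∞ (deriv g) :=
  (contDiff_infty_iff_deriv.1 h).2

private theorem hasDerivAt_Cell {g : ℝ → ℝ} (h : ContDiff ℝ ∞ g) (s : ℝ) : HasDerivAt g (deriv g s) s :=
  (h.differentiable (by simp) s).hasDerivAt

private theorem triG_hasDerivAt_Cell {g0 g1 g2 : ℝ → ℝ} (h0 : ContDiff ℝ ∞ g0) (h1 : ContDiff ℝ ∞ g1)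
    (h2 : ContDiff ℝ ∞ g2) (v s : ℝ) :
    HasDerivAt (fun t => μ.tri (g0 t) (g1 t) (g2 t) v) (μ.tri (deriv g0 s) (deriv g1 s) (deriv g2 s) v) s := by
  have e : (fun t => μ.tri (g0 t) (g1 t) (g2 t) v) =
      fun t => g0 t * μ.tri 1 0 0 v + g1 t * μ.tri 0 1 0 v + g2 t * μ.tri 0 0 1 v :=
    funext fun t => tri_comb_Cell μ _ _ _ _
  rw [e, tri_comb_Cell μ (deriv g0 s)]
  exact (((hasDerivAt_Cell h0 s).mul_const _).add ((hasDerivAt_Cell h1 s).mul_const _)).add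
    ((hasDerivAt_Cell h2 s).mul_const _)

private theorem JG_hasDerivAt_Cell (x0 x1 x2 : ℝ) {g0 g1 g2 : ℝ → ℝ} (h0 : ContDiff ℝ ∞ g0) (h1 : ContDiff ℝ ∞ g1)
    (h2 : ContDiff ℝ ∞ g2) (v s : ℝ) :
    HasDerivAt (fun t => μ.J x0 x1 x2 (g0 t) (g1 t) (g2 t) v)
      (μ.J x0 x1 x2 (deriv g0 s) (deriv g1 s) (deriv g2 s) v) s := by
  have e : (fun t => μ.J x0 x1 x2 (g0 t) (g1 t) (g2 t) v) =
      fun t => g0 t * μ.J x0 x1 x2 1 0 0 v + g1 t * μ.J x0 x1 x2 0 1 0 v + g2 t * μ.J x0 x1 x2 0 0 1 v :=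
    funext fun t => μ.J_eq _ _ _ _ _ _ _
  rw [e, μ.J_eq x0 x1 x2 (deriv g0 s)]
  exact (((hasDerivAt_Cell h0 s).mul_const _).add ((hasDerivAt_Cell h1 s).mul_const _)).add
    ((hasDerivAt_Cell h2 s).mul_const _)

theorem pt_contDiff : ContDiff ℝ ∞ (C.pt μ) := by
  have h1 : ContDiff ℝ ∞ (fun p : ℝ × ℝ => μ.tri C.x0 C.x1 C.x2 p.1) :=
    (μ.tri_contDiff C.x0 C.x1 C.x2).comp contDiff_fst
  have h2 : ContDiff ℝ ∞ (fun p : ℝ × ℝ => p.2) := contDiff_snd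
  have h3 := triG_contDiff_Cell μ C.h0 C.h1 C.h2
  have h4 : ContDiff ℝ ∞ (fun p : ℝ × ℝ => deriv C.f p.2 -
      μ.J C.x0 C.x1 C.x2 (deriv C.y0 p.2) (deriv C.y1 p.2) (deriv C.y2 p.2) p.1) :=
    ((deriv_contDiff_Cell C.hf).comp contDiff_snd).sub
      (JG_contDiff_Cell μ C.x0 C.x1 C.x2 (deriv_contDiff_Cell C.h0) (deriv_contDiff_Cell C.h1)
        (deriv_contDiff_Cell C.h2))
  exact h1.prodMk (h2.prodMk (h3.prodMk h4))

theorem prim_contDiff : ContDiff ℝ ∞ (C.prim μ) :=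
  (C.hf.comp contDiff_snd).sub (JG_contDiff_Cell μ C.x0 C.x1 C.x2 C.h0 C.h1 C.h2)

private theorem fderiv_pt_Cell (p v : ℝ × ℝ) :
    (fderiv ℝ (C.pt μ) p v).1 =
        ((C.x2 - C.x1) * deriv μ.S p.1 + (C.x1 - C.x0) * deriv μ.S (-p.1)) * v.1 ∧
      (fderiv ℝ (C.pt μ) p v).2.1 = v.2 ∧
      (fderiv ℝ (C.pt μ) p v).2.2.1 =
        ((C.y2 p.2 - C.y1 p.2) * deriv μ.S p.1 + (C.y1 p.2 - C.y0 p.2) * deriv μ.S (-p.1)) * v.1 +
          μ.tri (deriv C.y0 p.2) (deriv C.y1 p.2) (deriv C.y2 p.2) p.1 * v.2 := by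
  have hp : DifferentiableAt ℝ (C.pt μ) p := (pt_contDiff μ C).differentiable (by simp) p
  have h1 : HasFDerivAt (fun q => (C.pt μ q).1) ((ContinuousLinearMap.fst ℝ _ _).comp (fderiv ℝ (C.pt μ) p)) p :=
    hp.hasFDerivAt.fst
  have h2' : HasFDerivAt (fun q => (C.pt μ q).2) ((ContinuousLinearMap.snd ℝ _ _).comp (fderiv ℝ (C.pt μ) p)) p :=
    hp.hasFDerivAt.snd
  have h2 := h2'.fst
  have h3 := h2'.snd.fst
  have k1 := fderiv_pair_Cell (F := fun q => (C.pt μ q).1) p h1.differentiableAt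
    (a := (C.x2 - C.x1) * deriv μ.S p.1 + (C.x1 - C.x0) * deriv μ.S (-p.1)) (b := 0)
    (μ.hasDerivAt_tri C.x0 C.x1 C.x2 p.1)
    (hasDerivAt_const p.2 (μ.tri C.x0 C.x1 C.x2 p.1)) v
  have k2 := fderiv_pair_Cell (F := fun q => (C.pt μ q).2.1) p h2.differentiableAt
    (a := 0) (b := 1) (hasDerivAt_const p.1 p.2) (hasDerivAt_id p.2) v
  have k3 := fderiv_pair_Cell (F := fun q => (C.pt μ q).2.2.1) p h3.differentiableAt
    (μ.hasDerivAt_tri (C.y0 p.2) (C.y1 p.2) (C.y2 p.2) p.1)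
    (triG_hasDerivAt_Cell μ C.h0 C.h1 C.h2 p.1 p.2) v
  rw [h1.fderiv] at k1
  rw [h2.fderiv] at k2
  rw [h3.fderiv] at k3
  refine ⟨?_, ?_, k3⟩
  · have : (fderiv ℝ (C.pt μ) p v).1 =
        ((C.x2 - C.x1) * deriv μ.S p.1 + (C.x1 - C.x0) * deriv μ.S (-p.1)) * v.1 + 0 * v.2 := k1
    rw [this]; ring
  · have : (fderiv ℝ (C.pt μ) p v).2.1 = 0 * v.1 + 1 * v.2 := k2
    rw [this]; ring

/-- `d prim = Y dx + τ ds` -/
theorem prim_fderiv (p v : ℝ × ℝ) : fderiv ℝ (C.prim μ) p v =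
    (C.pt μ p).2.2.1 * (fderiv ℝ (C.pt μ) p v).1 + (C.pt μ p).2.2.2 * (fderiv ℝ (C.pt μ) p v).2.1 := by
  obtain ⟨e1, e2, -⟩ := fderiv_pt_Cell μ C p v
  rw [e1, e2]
  have hp : DifferentiableAt ℝ (C.prim μ) p := (prim_contDiff μ C).differentiable (by simp) p
  have ha : HasDerivAt (fun t => C.prim μ (t, p.2))
      (0 - -(μ.tri (C.y0 p.2) (C.y1 p.2) (C.y2 p.2) p.1 * deriv (μ.tri C.x0 C.x1 C.x2) p.1)) p.1 :=
    (hasDerivAt_const p.1 (C.f p.2)).sub (μ.hasDerivAt_J C.x0 C.x1 C.x2 (C.y0 p.2) (C.y1 p.2) (C.y2 p.2) p.1)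
  have hb : HasDerivAt (fun t => C.prim μ (p.1, t))
      (deriv C.f p.2 - μ.J C.x0 C.x1 C.x2 (deriv C.y0 p.2) (deriv C.y1 p.2) (deriv C.y2 p.2) p.1) p.2 :=
    (hasDerivAt_Cell C.hf p.2).sub (JG_hasDerivAt_Cell μ C.x0 C.x1 C.x2 C.h0 C.h1 C.h2 p.1 p.2)
  rw [fderiv_pair_Cell p hp ha hb v, (μ.hasDerivAt_tri C.x0 C.x1 C.x2 p.1).deriv]
  simp only [pt]
  ring

/-- a straight cell or a fold with different neighbours is immersed -/
theorem pt_imm (p : ℝ × ℝ) (h : (C.x1 - C.x0 = C.x2 - C.x1 ∧ C.x1 ≠ C.x0) ∨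
      (C.x0 = C.x2 ∧ C.x1 ≠ C.x0 ∧ C.y0 p.2 ≠ C.y2 p.2)) :
    Function.Injective (fderiv ℝ (C.pt μ) p) := by
  rw [injective_iff_map_eq_zero]
  intro v hv
  obtain ⟨e1, e2, e3⟩ := fderiv_pt_Cell μ C p v
  rw [hv] at e1 e2 e3
  have hv2 : v.2 = 0 := e2.symm
  have hv1 : v.1 = 0 := by
    have hr := μ.deriv_refl p.1
    have e1' : ((C.x2 - C.x1) * deriv μ.S p.1 + (C.x1 - C.x0) * deriv μ.S (-p.1)) * v.1 = 0 := e1.symm
    have e3' : ((C.y2 p.2 - C.y1 p.2) * deriv μ.S p.1 + (C.y1 p.2 - C.y0 p.2) * deriv μ.S (-p.1)) * v.1 = 0 := by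
      have : (0 : ℝ) = ((C.y2 p.2 - C.y1 p.2) * deriv μ.S p.1 + (C.y1 p.2 - C.y0 p.2) * deriv μ.S (-p.1)) * v.1 +
          μ.tri (deriv C.y0 p.2) (deriv C.y1 p.2) (deriv C.y2 p.2) p.1 * v.2 := e3
      rw [hv2, mul_zero, add_zero] at this
      exact this.symm
    rcases h with ⟨h1, h2⟩ | ⟨h1, h2, h3⟩
    · have hc : (C.x2 - C.x1) * deriv μ.S p.1 + (C.x1 - C.x0) * deriv μ.S (-p.1) = C.x1 - C.x0 := by
        rw [← h1, ← mul_add, hr, mul_one]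
      rw [hc] at e1'
      exact (mul_eq_zero.1 e1').resolve_left (sub_ne_zero.2 h2)
    · have hc : (C.x2 - C.x1) * deriv μ.S p.1 + (C.x1 - C.x0) * deriv μ.S (-p.1) =
          (C.x0 - C.x1) * (deriv μ.S p.1 - deriv μ.S (-p.1)) := by
        rw [← h1]; ring
      rw [hc] at e1'
      rcases mul_eq_zero.1 e1' with h4 | h4
      · have h5 : deriv μ.S p.1 - deriv μ.S (-p.1) = 0 :=
          (mul_eq_zero.1 h4).resolve_left (sub_ne_zero.2 h2.symm)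
        have h6 : deriv μ.S p.1 = 1 / 2 := by linarith
        have h7 : deriv μ.S (-p.1) = 1 / 2 := by linarith
        rw [h6, h7] at e3'
        have h8 : (C.y2 p.2 - C.y1 p.2) * (1 / 2 : ℝ) + (C.y1 p.2 - C.y0 p.2) * (1 / 2) =
            (C.y2 p.2 - C.y0 p.2) / 2 := by ring
        rw [h8] at e3'
        refine (mul_eq_zero.1 e3').resolve_left ?_
        intro h9
        apply h3
        linarith
      · exact h4
  exact Prod.ext hv1 hv2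

/-- a straight cell or a fold with different neighbours is injective -/
theorem pt_inj {v v' s : ℝ} (h : (C.x1 - C.x0 = C.x2 - C.x1 ∧ C.x1 ≠ C.x0) ∨
      (C.x0 = C.x2 ∧ C.x1 ≠ C.x0 ∧ C.y0 s ≠ C.y2 s)) (e : C.pt μ (v, s) = C.pt μ (v', s)) : v = v' := by
  have ex : μ.tri C.x0 C.x1 C.x2 v = μ.tri C.x0 C.x1 C.x2 v' := congrArg (fun q : P4 => q.1) e
  have ey : μ.tri (C.y0 s) (C.y1 s) (C.y2 s) v = μ.tri (C.y0 s) (C.y1 s) (C.y2 s) v' :=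
    congrArg (fun q : P4 => q.2.2.1) e
  rcases h with ⟨h1, h2⟩ | ⟨h1, h2, h3⟩
  · have e0 : C.x0 = C.x1 - (C.x1 - C.x0) := by ring
    have e2 : C.x2 = C.x1 + (C.x1 - C.x0) := by rw [h1]; ring
    have hs : ∀ u, μ.tri C.x0 C.x1 C.x2 u = C.x1 + (C.x1 - C.x0) * u := by
      intro u
      have := μ.tri_straight C.x1 (C.x1 - C.x0) u
      rw [← e0, ← e2] at this
      exact this
    rw [hs, hs] at ex
    have : (C.x1 - C.x0) * v = (C.x1 - C.x0) * v' := by linarith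
    exact mul_left_cancel₀ (sub_ne_zero.2 h2) this
  · have e0 : C.x0 = C.x1 + (C.x0 - C.x1) := by ring
    have hs : ∀ u, μ.tri C.x0 C.x1 C.x2 u = C.x1 + (C.x0 - C.x1) * μ.Q u := by
      intro u
      have := μ.tri_fold C.x1 (C.x0 - C.x1) u
      rw [← e0] at this
      rw [← h1]
      exact this
    rw [hs, hs] at ex
    have hQ : μ.Q v = μ.Q v' := by
      have : (C.x0 - C.x1) * μ.Q v = (C.x0 - C.x1) * μ.Q v' := by linarith
      exact mul_left_cancel₀ (sub_ne_zero.2 h2.symm) this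
    have habs : |v| = |v'| := by
      have hq : ∀ u, μ.Q |u| = μ.Q u := by
        intro u
        rcases abs_choice u with h | h
        · rw [h]
        · rw [h, μ.Q_neg]
      apply μ.Q_strictMonoOn.injOn (abs_nonneg v) (abs_nonneg v')
      rw [hq, hq, hQ]
    rcases abs_eq_abs.1 habs with h4 | h4
    · exact h4
    · subst h4
      have k : μ.tri (C.y0 s) (C.y1 s) (C.y2 s) v' - μ.tri (C.y0 s) (C.y1 s) (C.y2 s) (-v') =
          (C.y2 s - C.y0 s) * v' := by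
        have hr := μ.refl v'
        simp only [Moll.tri, neg_neg]
        have : μ.S v' = v' + μ.S (-v') := by linarith
        rw [this]; ring
      have k0 : (C.y2 s - C.y0 s) * v' = 0 := by linarith
      have k1 : v' = 0 := (mul_eq_zero.1 k0).resolve_left (sub_ne_zero.2 h3.symm)
      rw [k1, neg_zero]

end Cell

end Pool.Agent.Lib_MP_59ec1f_cap
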