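import Pool.Agent.Lib_MP_59ec1f_cap.CellTestDefs

/-!
# The test (A)
-/

set_option autoImplicit false

open scoped ContDiff

namespace Pool.Agent.Lib_MP_59ec1f_cap

namespace WC

variable (μ : Moll)

/-- positivity of an integer triple from the three times -/
private theorem CellA_pos {a b c : ℤ} {u : ℝ} (hu : |u| ≤ 1 / 2) (h0 : 0 < a + b) (h1 : 0 < 2 * b)
    (h2 : 0 < b + c) : 0 < μ.tri a b c u := by
  have h0' : (0 : ℝ) < a + b := by exact_mod_cast h0
  have h1' : (0 : ℝ) < b := by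
    have : 0 < b := by omega
    exact_mod_cast this
  have h2' : (0 : ℝ) < b + c := by exact_mod_cast h2
  exact μ.tri_pos hu h1' h2' h0'

/-- comparison of two linear combinations of values -/
private theorem CellA_lt {z z' : Z3} {u : ℝ} (hu : |u| ≤ 1 / 2) (h0 : z'.half 0 < z.half 0)
    (h1 : z'.half 1 < z.half 1) (h2 : z'.half 2 < z.half 2) : z'.val μ u < z.val μ u := by
  have e0 : ∀ w : Z3, w.half 0 = w.a + w.b := fun _ => rfl
  have e1 : ∀ w : Z3, w.half 1 = 2 * w.b := fun _ => rfl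
  have e2 : ∀ w : Z3, w.half 2 = w.b + w.c := fun _ => rfl
  rw [e0, e0] at h0
  rw [e1, e1] at h1
  rw [e2, e2] at h2
  have h := CellA_pos μ (a := z.a - z'.a) (b := z.b - z'.b) (c := z.c - z'.c) hu (by omega) (by omega)
    (by omega)
  have e : μ.tri ((z.a - z'.a : ℤ) : ℝ) ((z.b - z'.b : ℤ) : ℝ) ((z.c - z'.c : ℤ) : ℝ) u =
      z.val μ u - z'.val μ u := by
    unfold Z3.val Moll.tri
    push_cast
    ring
  rw [e] at h
  linarith

/-- the comparison, not strict -/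
private theorem CellA_le {z z' : Z3} {u : ℝ} (hu : |u| ≤ 1 / 2) (h0 : z'.half 0 ≤ z.half 0)
    (h1 : z'.half 1 ≤ z.half 1) (h2 : z'.half 2 ≤ z.half 2) : z'.val μ u ≤ z.val μ u := by
  have e0 : ∀ w : Z3, w.half 0 = w.a + w.b := fun _ => rfl
  have e1 : ∀ w : Z3, w.half 1 = 2 * w.b := fun _ => rfl
  have e2 : ∀ w : Z3, w.half 2 = w.b + w.c := fun _ => rfl
  rw [e0, e0] at h0
  rw [e1, e1] at h1
  rw [e2, e2] at h2
  have h0' : (0 : ℝ) ≤ ((z.a - z'.a : ℤ) : ℝ) + ((z.b - z'.b : ℤ) : ℝ) := by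
    exact_mod_cast (by omega : (0 : ℤ) ≤ (z.a - z'.a) + (z.b - z'.b))
  have h1' : (0 : ℝ) ≤ ((z.b - z'.b : ℤ) : ℝ) := by
    exact_mod_cast (by omega : (0 : ℤ) ≤ z.b - z'.b)
  have h2' : (0 : ℝ) ≤ ((z.b - z'.b : ℤ) : ℝ) + ((z.c - z'.c : ℤ) : ℝ) := by
    exact_mod_cast (by omega : (0 : ℤ) ≤ (z.b - z'.b) + (z.c - z'.c))
  have h := μ.tri_nonneg hu h1' h2' h0'
  have e : μ.tri ((z.a - z'.a : ℤ) : ℝ) ((z.b - z'.b : ℤ) : ℝ) ((z.c - z'.c : ℤ) : ℝ) u =
      z.val μ u - z'.val μ u := by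
    unfold Z3.val Moll.tri
    push_cast
    ring
  rw [e] at h
  linarith

/-- `tri` is positive if the midpoints are positive and the vertex is nonnegative -/
private theorem CellA_tri {a b c v : ℝ} (hv : |v| ≤ 1 / 2) (hb : 0 ≤ b) (hc : 0 < b + c) (ha : 0 < a + b) :
    0 < μ.tri a b c v := by
  rw [μ.tri_eq]
  have h1 := μ.Q_le_half hv
  have h2 := μ.nonneg v
  have h3 := μ.nonneg (-v)
  have h4 : μ.Q v = μ.S v + μ.S (-v) := rfl
  have h5 := μ.Q_pos v
  have i1 : 0 ≤ (1 - 2 * μ.Q v) * b := mul_nonneg (by linarith) hb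
  have i2 : 0 ≤ 2 * μ.S v * ((b + c) / 2) := by positivity
  have i3 : 0 ≤ 2 * μ.S (-v) * ((a + b) / 2) := by positivity
  rcases h2.lt_or_eq with h6 | h6
  · have : 0 < 2 * μ.S v * ((b + c) / 2) := by positivity
    linarith
  · have h7 : 0 < μ.S (-v) := by linarith
    have : 0 < 2 * μ.S (-v) * ((a + b) / 2) := by positivity
    linarith

private theorem CellA_lt2 {z w z' w' : Z3} {u : ℝ} (hu : |u| ≤ 1 / 2)
    (h0 : z'.half 0 + w'.half 0 < z.half 0 + w.half 0)
    (h1 : z'.half 1 + w'.half 1 < z.half 1 + w.half 1)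
    (h2 : z'.half 2 + w'.half 2 < z.half 2 + w.half 2) :
    z'.val μ u + w'.val μ u < z.val μ u + w.val μ u := by
  have h := CellA_lt μ (z := ⟨z.a + w.a, z.b + w.b, z.c + w.c⟩) (z' := ⟨z'.a + w'.a, z'.b + w'.b, z'.c + w'.c⟩)
    hu (by simp only [Z3.half] at h0 ⊢; omega) (by simp only [Z3.half] at h1 ⊢; omega)
    (by simp only [Z3.half] at h2 ⊢; omega)
  have e : ∀ x y : Z3, Z3.val μ ⟨x.a + y.a, x.b + y.b, x.c + y.c⟩ u = x.val μ u + y.val μ u := by
    intro x y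
    unfold Z3.val Moll.tri
    push_cast
    ring
  rw [e, e] at h
  exact h

/-- a straight cell, read from left to right -/
private theorem CellA_lr (C : WC) (hC : C.straight = true) {v : ℝ} (hv : |v| ≤ 1 / 2) (u : ℝ) :
    ∃ w : ℝ, |w| ≤ 1 / 2 ∧ (C.pt μ v u).1 = C.x1 + w ∧
      (C.pt μ v u).2.1 = μ.tri (C.lr.y0.val μ u) (C.lr.y1.val μ u) (C.lr.y2.val μ u) w := by
  simp only [WC.straight, Bool.or_eq_true, Bool.and_eq_true, beq_iff_eq] at hC
  rcases hC with ⟨h1, h2⟩ | ⟨h1, h2⟩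
  · refine ⟨v, hv, ?_, ?_⟩
    · have e0 : (C.x0 : ℝ) = (C.x1 : ℝ) - 1 := by
        have : C.x0 = C.x1 - 1 := by omega
        rw [this]
        push_cast
        ring
      have e2 : (C.x2 : ℝ) = (C.x1 : ℝ) + 1 := by
        have : C.x2 = C.x1 + 1 := by omega
        rw [this]
        push_cast
        ring
      change μ.tri C.x0 C.x1 C.x2 v = _
      rw [e0, e2, μ.tri_straight, one_mul]
    · have e : C.lr = C := by
        unfold WC.lr
        rw [if_pos (by simp [h1])]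
      rw [e]
      rfl
  · refine ⟨-v, by rwa [abs_neg], ?_, ?_⟩
    · have e0 : (C.x0 : ℝ) = (C.x1 : ℝ) - (-1) := by
        have : C.x0 = C.x1 + 1 := by omega
        rw [this]
        push_cast
        ring
      have e2 : (C.x2 : ℝ) = (C.x1 : ℝ) + (-1) := by
        have : C.x2 = C.x1 - 1 := by omega
        rw [this]
        push_cast
        ring
      change μ.tri C.x0 C.x1 C.x2 v = _
      rw [e0, e2, μ.tri_straight]
      ring
    · have e : C.lr = ⟨C.x2, C.x1, C.x0, C.y2, C.y1, C.y0, C.f1, C.f0⟩ := by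
        unfold WC.lr
        rw [if_neg (by simp [h1])]
      rw [e]
      change μ.tri (C.y0.val μ u) (C.y1.val μ u) (C.y2.val μ u) v =
        μ.tri (C.y2.val μ u) (C.y1.val μ u) (C.y0.val μ u) (-v)
      rw [μ.tri_neg]

/-- (A): at the same `x` of two straight cells in the same column (`v' = ± v`) the difference of the heights is `tri` (in `v`) of
`tri`s (in `u`): at each of the three times `(1 - 2 Q v) d1 + 2 S v d2' + 2 S (-v) d0' > 0` (`tri_eq`; `d1 ≥ 0` difference at the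
vertex, `d0', d2' > 0` at the midpoints, `S v + S (-v) = Q v > 0`), and the value at the time `m + u` is a convex
combination of the three. -/
theorem aboveA_sound (C D : WC) (hC : C.straight = true) (hD : D.straight = true) (hx : C.x1 = D.x1)
    (h0 : C.aboveA D 0 = true) (h1 : C.aboveA D 1 = true) (h2 : C.aboveA D 2 = true) {v v' u : ℝ}
    (hv : |v| ≤ 1 / 2) (hv' : |v'| ≤ 1 / 2) (hu : |u| ≤ 1 / 2) (e : (C.pt μ v u).1 = (D.pt μ v' u).1) :
    (D.pt μ v' u).2.1 < (C.pt μ v u).2.1 := by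
  obtain ⟨w, hw, ex, ey⟩ := CellA_lr μ C hC hv u
  obtain ⟨w', hw', ex', ey'⟩ := CellA_lr μ D hD hv' u
  have hww : w = w' := by
    rw [ex, ex', hx] at e
    linarith
  subst hww
  rw [ey, ey']
  simp only [WC.aboveA, Bool.and_eq_true, decide_eq_true_eq] at h0 h1 h2
  obtain ⟨⟨a0, b0⟩, c0⟩ := h0
  obtain ⟨⟨a1, b1⟩, c1⟩ := h1
  obtain ⟨⟨a2, b2⟩, c2⟩ := h2
  have A := CellA_le μ hu a0 a1 a2
  have B := CellA_lt2 μ hu b0 b1 b2
  have K := CellA_lt2 μ hu c0 c1 c2
  have h := CellA_tri μ (a := C.lr.y0.val μ u - D.lr.y0.val μ u) (b := C.lr.y1.val μ u - D.lr.y1.val μ u)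
    (c := C.lr.y2.val μ u - D.lr.y2.val μ u) hw (by linarith) (by linarith) (by linarith)
  have e' : μ.tri (C.lr.y0.val μ u - D.lr.y0.val μ u) (C.lr.y1.val μ u - D.lr.y1.val μ u)
      (C.lr.y2.val μ u - D.lr.y2.val μ u) w =
      μ.tri (C.lr.y0.val μ u) (C.lr.y1.val μ u) (C.lr.y2.val μ u) w -
        μ.tri (D.lr.y0.val μ u) (D.lr.y1.val μ u) (D.lr.y2.val μ u) w := by
    unfold Moll.tri
    ring
  rw [e'] at h
  linarith

/-- Folds in opposite directions: `x = X + Q v` and `x = X - Q v'`. -/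
theorem opposite_sound (C D : WC) (hx : C.x1 = D.x1) (h : C.opposite D = true) (v v' u : ℝ) :
    (C.pt μ v u).1 ≠ (D.pt μ v' u).1 := by
  intro e
  simp only [WC.opposite, Bool.and_eq_true, Bool.or_eq_true, beq_iff_eq] at h
  obtain ⟨⟨hC, hD⟩, h⟩ := h
  have h1 := μ.Q_pos v
  have h2 := μ.Q_pos v'
  have e' : μ.tri C.x0 C.x1 C.x2 v = μ.tri D.x0 D.x1 D.x2 v' := e
  rcases h with ⟨h3, h4⟩ | ⟨h3, h4⟩
  · have c0 : C.x0 = C.x1 + (-1) := by omega
    have d0 : D.x0 = D.x1 + 1 := by omega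
    rw [← hC, c0, ← hD, d0, ← hx] at e'
    push_cast at e'
    have t1 := μ.tri_fold (C.x1 : ℝ) (-1) v
    have t2 := μ.tri_fold (C.x1 : ℝ) 1 v'
    rw [t1, t2] at e'
    linarith
  · have c0 : C.x0 = C.x1 + 1 := by omega
    have d0 : D.x0 = D.x1 + (-1) := by omega
    rw [← hC, c0, ← hD, d0, ← hx] at e'
    push_cast at e'
    have t1 := μ.tri_fold (C.x1 : ℝ) 1 v
    have t2 := μ.tri_fold (C.x1 : ℝ) (-1) v'
    rw [t1, t2] at e'
    linarith

/-- a cell is injective -/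
theorem self_inj (C : WC) (hC : C.straight = true ∨ C.fold = true) {v v' u : ℝ} (hu : |u| ≤ 1 / 2)
    (e : C.pt μ v u = C.pt μ v' u) : v = v' := by
  have ex : μ.tri C.x0 C.x1 C.x2 v = μ.tri C.x0 C.x1 C.x2 v' := congrArg Prod.fst e
  have ey : μ.tri (C.y0.val μ u) (C.y1.val μ u) (C.y2.val μ u) v =
      μ.tri (C.y0.val μ u) (C.y1.val μ u) (C.y2.val μ u) v' := congrArg (fun p => p.2.1) e
  rcases hC with hC | hC
  · simp only [WC.straight, Bool.or_eq_true, Bool.and_eq_true, beq_iff_eq] at hC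
    obtain ⟨d, hd, h1, h2⟩ : ∃ d : ℤ, d ≠ 0 ∧ C.x0 = C.x1 - d ∧ C.x2 = C.x1 + d := by
      rcases hC with ⟨h1, h2⟩ | ⟨h1, h2⟩
      · exact ⟨1, by norm_num, by omega, by omega⟩
      · exact ⟨-1, by norm_num, by omega, by omega⟩
    have hd' : (d : ℝ) ≠ 0 := by exact_mod_cast hd
    rw [h1, h2] at ex
    push_cast at ex
    rw [μ.tri_straight, μ.tri_straight] at ex
    have h3 : (d : ℝ) * v = d * v' := by linarith
    exact mul_left_cancel₀ hd' h3
  · simp only [WC.fold, Bool.or_eq_true, Bool.and_eq_true, beq_iff_eq, decide_eq_true_eq] at hC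
    obtain ⟨⟨hx, hx1⟩, hy⟩ := hC
    obtain ⟨d, hd, h1⟩ : ∃ d : ℤ, d ≠ 0 ∧ C.x0 = C.x1 + d := by
      rcases hx1 with h1 | h1
      · exact ⟨-1, by norm_num, by omega⟩
      · exact ⟨1, by norm_num, by omega⟩
    have hd' : (d : ℝ) ≠ 0 := by exact_mod_cast hd
    rw [← hx, h1] at ex
    push_cast at ex
    rw [μ.tri_fold, μ.tri_fold] at ex
    have hQ : μ.Q v = μ.Q v' := by
      have h3 : (d : ℝ) * μ.Q v = d * μ.Q v' := by linarith
      exact mul_left_cancel₀ hd' h3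
    have hQa : ∀ x : ℝ, μ.Q |x| = μ.Q x := by
      intro x
      rcases abs_cases x with ⟨h, -⟩ | ⟨h, -⟩
      · rw [h]
      · rw [h, μ.Q_neg]
    have habs : |v| = |v'| := by
      refine μ.Q_strictMonoOn.injOn (abs_nonneg v) (abs_nonneg v') ?_
      rw [hQa, hQa, hQ]
    rcases abs_eq_abs.1 habs with h | h
    · exact h
    · have hne : C.y2.val μ u - C.y0.val μ u ≠ 0 := by
        rcases hy with ⟨⟨a, b⟩, c⟩ | ⟨⟨a, b⟩, c⟩
        · have := CellA_lt μ hu a b c
          intro h0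
          linarith
        · have := CellA_lt μ hu a b c
          intro h0
          linarith
      have hr := μ.refl v'
      have h4 : (C.y2.val μ u - C.y0.val μ u) * v' = 0 := by
        rw [h] at ey
        unfold Moll.tri at ey
        rw [neg_neg] at ey
        have h5 : (C.y2.val μ u - C.y0.val μ u) * (μ.S v' - μ.S (-v')) = 0 := by linarith
        rw [hr] at h5
        exact h5
      rcases mul_eq_zero.1 h4 with h5 | h5
      · exact absurd h5 hne
      · rw [h, h5, neg_zero]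

end WC

end Pool.Agent.Lib_MP_59ec1f_cap
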