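import Pool.Agent.Lib_MP_59ec1f_cap.Cell

/-!
# Cells and straight edges
-/

set_option autoImplicit false

open scoped ContDiff

namespace Pool.Agent.Lib_MP_59ec1f_cap

/-- The point of the straight edge from `(x, y s)` to `(x', y' s)` at the fraction `v`; `f` is the primitive at the
midpoint. -/
noncomputable def edgePt (x x' : ℝ) (y y' f : ℝ → ℝ) (v s : ℝ) : P4 :=
  (x + (x' - x) * v, s, y s + (y' s - y s) * v,
    deriv f s + (x' - x) * (deriv y s * (v - 1 / 2) + (deriv y' s - deriv y s) * (v ^ 2 - 1 / 4) / 2))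

/-- the primitive on the edge -/
noncomputable def edgePrim (x x' : ℝ) (y y' f : ℝ → ℝ) (v s : ℝ) : ℝ :=
  f s + (x' - x) * (y s * (v - 1 / 2) + (y' s - y s) * (v ^ 2 - 1 / 4) / 2)

theorem edgePt_symm (x x' : ℝ) (y y' f : ℝ → ℝ) (v s : ℝ) : edgePt x x' y y' f v s = edgePt x' x y' y f (1 - v) s ∧
      edgePrim x x' y y' f v s = edgePrim x' x y' y f (1 - v) s := by
  refine ⟨?_, ?_⟩
  · unfold edgePt
    refine Prod.ext_iff.2 ⟨?_, Prod.ext_iff.2 ⟨rfl, Prod.ext_iff.2 ⟨?_, ?_⟩⟩⟩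
    · show x + (x' - x) * v = x' + (x - x') * (1 - v)
      ring
    · show y s + (y' s - y s) * v = y' s + (y s - y' s) * (1 - v)
      ring
    · show deriv f s + (x' - x) * (deriv y s * (v - 1 / 2) + (deriv y' s - deriv y s) * (v ^ 2 - 1 / 4) / 2) =
        deriv f s + (x - x') *
          (deriv y' s * ((1 - v) - 1 / 2) + (deriv y s - deriv y' s) * ((1 - v) ^ 2 - 1 / 4) / 2)
      ring
  · unfold edgePrim
    ring

/-- the integral over the reflected cell -/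
theorem Moll.J_flip (μ : Moll) (x0 x1 x2 a b c v : ℝ) :
    μ.J x2 x1 x0 c b a v = μ.J x0 x1 x2 a b c (-v) - μ.J x0 x1 x2 a b c (-(1 / 2)) := by
  have hd : ∀ t : ℝ, deriv (μ.tri x2 x1 x0) t = -deriv (μ.tri x0 x1 x2) (-t) := by
    intro t
    have h1 : μ.tri x2 x1 x0 = fun u => μ.tri x0 x1 x2 (-u) := by
      funext u
      exact (μ.tri_neg x0 x1 x2 u).symm
    rw [h1]
    exact deriv_comp_neg (f := μ.tri x0 x1 x2) t
  have hc : Continuous fun t : ℝ => μ.tri a b c t * deriv (μ.tri x0 x1 x2) t :=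
    (μ.tri_contDiff a b c).continuous.mul ((μ.tri_contDiff x0 x1 x2).continuous_deriv (by simp))
  unfold Moll.J
  have h2 : (∫ t in v..(1 / 2 : ℝ), μ.tri c b a t * deriv (μ.tri x2 x1 x0) t) =
      ∫ t in v..(1 / 2 : ℝ), -(fun u : ℝ => μ.tri a b c u * deriv (μ.tri x0 x1 x2) u) (-t) := by
    refine intervalIntegral.integral_congr ?_
    intro t _
    show μ.tri c b a t * deriv (μ.tri x2 x1 x0) t = -(μ.tri a b c (-t) * deriv (μ.tri x0 x1 x2) (-t))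
    rw [hd t, μ.tri_neg a b c t]
    ring
  rw [h2, intervalIntegral.integral_neg,
    intervalIntegral.integral_comp_neg (fun u : ℝ => μ.tri a b c u * deriv (μ.tri x0 x1 x2) u)]
  have h3 := intervalIntegral.integral_add_adjacent_intervals (μ := MeasureTheory.volume)
    (hc.intervalIntegrable (-(1 / 2)) (-v)) (hc.intervalIntegrable (-v) (1 / 2))
  show -(∫ t in (-(1 / 2) : ℝ)..(-v), μ.tri a b c t * deriv (μ.tri x0 x1 x2) t) =
    (∫ t in (-v)..(1 / 2 : ℝ), μ.tri a b c t * deriv (μ.tri x0 x1 x2) t) -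
      ∫ t in (-(1 / 2) : ℝ)..(1 / 2), μ.tri a b c t * deriv (μ.tri x0 x1 x2) t
  linarith

namespace Cell

variable (μ : Moll) (C : Cell)

/-- on the side of the second neighbour the cell is the edge -/
theorem pt_right {v s : ℝ} (h : μ.ep ≤ v) : C.pt μ (v, s) = edgePt C.x1 C.x2 C.y1 C.y2 C.f v s ∧
    C.prim μ (v, s) = edgePrim C.x1 C.x2 C.y1 C.y2 C.f v s := by
  refine ⟨?_, ?_⟩
  · unfold edgePt pt
    refine Prod.ext_iff.2 ⟨?_, Prod.ext_iff.2 ⟨rfl, Prod.ext_iff.2 ⟨?_, ?_⟩⟩⟩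
    · show μ.tri C.x0 C.x1 C.x2 v = C.x1 + (C.x2 - C.x1) * v
      exact μ.tri_right _ _ _ h
    · show μ.tri (C.y0 s) (C.y1 s) (C.y2 s) v = C.y1 s + (C.y2 s - C.y1 s) * v
      exact μ.tri_right _ _ _ h
    · show deriv C.f s - μ.J C.x0 C.x1 C.x2 (deriv C.y0 s) (deriv C.y1 s) (deriv C.y2 s) v =
        deriv C.f s + (C.x2 - C.x1) *
          (deriv C.y1 s * (v - 1 / 2) + (deriv C.y2 s - deriv C.y1 s) * (v ^ 2 - 1 / 4) / 2)
      rw [μ.J_right _ _ _ _ _ _ h]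
      ring
  · unfold edgePrim prim
    show C.f s - μ.J C.x0 C.x1 C.x2 (C.y0 s) (C.y1 s) (C.y2 s) v = _
    rw [μ.J_right _ _ _ _ _ _ h]
    ring

/-- the derivative of the primitive at the midpoint of the first edge -/
theorem deriv_left_prim {s : ℝ} {f₀ : ℝ → ℝ}
    (hf : ∀ᶠ s' in nhds s, C.f s' - f₀ s' = μ.J C.x0 C.x1 C.x2 (C.y0 s') (C.y1 s') (C.y2 s') (-(1 / 2))) :
    deriv C.f s - deriv f₀ s =
      μ.J C.x0 C.x1 C.x2 (deriv C.y0 s) (deriv C.y1 s) (deriv C.y2 s) (-(1 / 2)) := by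
  have hd : ∀ {g : ℝ → ℝ}, ContDiff ℝ ∞ g → HasDerivAt g (deriv g s) s := by
    intro g hg
    exact (hg.differentiable (by simp) s).hasDerivAt
  have e : f₀ =ᶠ[nhds s] fun s' => C.f s' -
      (C.y0 s' * μ.J C.x0 C.x1 C.x2 1 0 0 (-(1 / 2)) + C.y1 s' * μ.J C.x0 C.x1 C.x2 0 1 0 (-(1 / 2)) +
        C.y2 s' * μ.J C.x0 C.x1 C.x2 0 0 1 (-(1 / 2))) := by
    filter_upwards [hf] with s' hs'
    have := μ.J_eq C.x0 C.x1 C.x2 (C.y0 s') (C.y1 s') (C.y2 s') (-(1 / 2))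
    linarith
  have h1 : HasDerivAt (fun s' => C.f s' -
      (C.y0 s' * μ.J C.x0 C.x1 C.x2 1 0 0 (-(1 / 2)) + C.y1 s' * μ.J C.x0 C.x1 C.x2 0 1 0 (-(1 / 2)) +
        C.y2 s' * μ.J C.x0 C.x1 C.x2 0 0 1 (-(1 / 2))))
      (deriv C.f s - (deriv C.y0 s * μ.J C.x0 C.x1 C.x2 1 0 0 (-(1 / 2)) +
        deriv C.y1 s * μ.J C.x0 C.x1 C.x2 0 1 0 (-(1 / 2)) +
        deriv C.y2 s * μ.J C.x0 C.x1 C.x2 0 0 1 (-(1 / 2)))) s :=
    (hd C.hf).sub ((((hd C.h0).mul_const _).add ((hd C.h1).mul_const _)).add ((hd C.h2).mul_const _))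
  rw [e.deriv_eq, h1.deriv, μ.J_eq C.x0 C.x1 C.x2 (deriv C.y0 s) (deriv C.y1 s) (deriv C.y2 s)]
  ring

/-- On the side of the first neighbour the cell is the edge, if `f₀` is the primitive at its midpoint (for the value of the
derivative at `s` the relation must hold near `s`). -/
theorem pt_left {v s : ℝ} {f₀ : ℝ → ℝ} (h : v ≤ -μ.ep)
    (hf : ∀ᶠ s' in nhds s, C.f s' - f₀ s' = μ.J C.x0 C.x1 C.x2 (C.y0 s') (C.y1 s') (C.y2 s') (-(1 / 2))) :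
    C.pt μ (v, s) = edgePt C.x1 C.x0 C.y1 C.y0 f₀ (-v) s ∧
      C.prim μ (v, s) = edgePrim C.x1 C.x0 C.y1 C.y0 f₀ (-v) s := by
  refine ⟨?_, ?_⟩
  · unfold edgePt pt
    refine Prod.ext_iff.2 ⟨?_, Prod.ext_iff.2 ⟨rfl, Prod.ext_iff.2 ⟨?_, ?_⟩⟩⟩
    · show μ.tri C.x0 C.x1 C.x2 v = C.x1 + (C.x0 - C.x1) * (-v)
      rw [μ.tri_left _ _ _ h]
      ring
    · show μ.tri (C.y0 s) (C.y1 s) (C.y2 s) v = C.y1 s + (C.y0 s - C.y1 s) * (-v)
      rw [μ.tri_left _ _ _ h]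
      ring
    · show deriv C.f s - μ.J C.x0 C.x1 C.x2 (deriv C.y0 s) (deriv C.y1 s) (deriv C.y2 s) v =
        deriv f₀ s + (C.x0 - C.x1) *
          (deriv C.y1 s * (-v - 1 / 2) + (deriv C.y0 s - deriv C.y1 s) * ((-v) ^ 2 - 1 / 4) / 2)
      have h1 := C.deriv_left_prim μ hf
      rw [μ.J_left _ _ _ _ _ _ h, ← h1]
      ring
  · unfold edgePrim prim
    show C.f s - μ.J C.x0 C.x1 C.x2 (C.y0 s) (C.y1 s) (C.y2 s) v = _
    have h1 := hf.self_of_nhds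
    rw [μ.J_left _ _ _ _ _ _ h, ← h1]
    ring

/-- the cell read backwards -/
noncomputable def flip (f₀ : ℝ → ℝ) (h : ContDiff ℝ ∞ f₀) : Cell :=
  ⟨C.x2, C.x1, C.x0, C.y2, C.y1, C.y0, f₀, C.h2, C.h1, C.h0, h⟩

theorem flip_pt {v s : ℝ} {f₀ : ℝ → ℝ} (h₀ : ContDiff ℝ ∞ f₀)
    (hf : ∀ᶠ s' in nhds s, C.f s' - f₀ s' = μ.J C.x0 C.x1 C.x2 (C.y0 s') (C.y1 s') (C.y2 s') (-(1 / 2))) :
    (C.flip f₀ h₀).pt μ (v, s) = C.pt μ (-v, s) ∧ (C.flip f₀ h₀).prim μ (v, s) = C.prim μ (-v, s) := by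
  refine ⟨?_, ?_⟩
  · unfold pt
    refine Prod.ext_iff.2 ⟨?_, Prod.ext_iff.2 ⟨rfl, Prod.ext_iff.2 ⟨?_, ?_⟩⟩⟩
    · show μ.tri C.x2 C.x1 C.x0 v = μ.tri C.x0 C.x1 C.x2 (-v)
      exact (μ.tri_neg _ _ _ v).symm
    · show μ.tri (C.y2 s) (C.y1 s) (C.y0 s) v = μ.tri (C.y0 s) (C.y1 s) (C.y2 s) (-v)
      exact (μ.tri_neg _ _ _ v).symm
    · show deriv f₀ s - μ.J C.x2 C.x1 C.x0 (deriv C.y2 s) (deriv C.y1 s) (deriv C.y0 s) v =
        deriv C.f s - μ.J C.x0 C.x1 C.x2 (deriv C.y0 s) (deriv C.y1 s) (deriv C.y2 s) (-v)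
      have h1 := C.deriv_left_prim μ hf
      rw [μ.J_flip C.x0 C.x1 C.x2 (deriv C.y0 s) (deriv C.y1 s) (deriv C.y2 s) v, ← h1]
      ring
  · unfold prim
    show f₀ s - μ.J C.x2 C.x1 C.x0 (C.y2 s) (C.y1 s) (C.y0 s) v =
      C.f s - μ.J C.x0 C.x1 C.x2 (C.y0 s) (C.y1 s) (C.y2 s) (-v)
    have h1 := hf.self_of_nhds
    rw [μ.J_flip C.x0 C.x1 C.x2 (C.y0 s) (C.y1 s) (C.y2 s) v, ← h1]
    ring

end Cell

end Pool.Agent.Lib_MP_59ec1f_cap
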