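import Pool.Agent.Lib_MP_59ec1f_cap.CellTestDefs
import Pool.Agent.Lib_MP_59ec1f_cap.CellEdge

/-!
# The test (F)
-/

set_option autoImplicit false

open scoped ContDiff

namespace Pool.Agent.Lib_MP_59ec1f_cap

namespace WC

variable (μ : Moll)

private theorem CellF_le {a b c M t : ℝ} (ht : |t| ≤ 1 / 2) (h1 : b ≤ M) (h2 : (b + c) / 2 ≤ M)
    (h3 : (a + b) / 2 ≤ M) : μ.tri a b c t ≤ M := by
  have h := μ.tri_nonneg (a := M - a) (b := M - b) (c := M - c) ht (by linarith) (by linarith) (by linarith)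
  unfold Moll.tri at h ⊢
  linarith

private theorem CellF_ge {a b c m t : ℝ} (ht : |t| ≤ 1 / 2) (h1 : m ≤ b) (h2 : m ≤ (b + c) / 2)
    (h3 : m ≤ (a + b) / 2) : m ≤ μ.tri a b c t := by
  have h := μ.tri_nonneg (a := a - m) (b := b - m) (c := c - m) ht (by linarith) (by linarith) (by linarith)
  unfold Moll.tri at h ⊢
  linarith

/-- the half of a cell after the vertex: `s J` is between `ρ m` and `ρ M`, `ρ = 1/2 - s (x - x1)` -/
private theorem CellF_half {x0 x1 x2 a b c s m M v : ℝ} (hs : s = 1 ∨ s = -1) (h2 : x2 - x1 = s)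
    (h1 : x1 - x0 = 1 ∨ x1 - x0 = -1) (hM1 : b ≤ M) (hM2 : (b + c) / 2 ≤ M) (hM3 : (a + b) / 2 ≤ M)
    (hm1 : m ≤ b) (hm2 : m ≤ (b + c) / 2) (hm3 : m ≤ (a + b) / 2) (h0 : 0 ≤ v) (hv : v ≤ 1 / 2) :
    (1 / 2 - s * (μ.tri x0 x1 x2 v - x1)) * m ≤ s * μ.J x0 x1 x2 a b c v ∧
      s * μ.J x0 x1 x2 a b c v ≤ (1 / 2 - s * (μ.tri x0 x1 x2 v - x1)) * M := by
  have hc : Continuous (deriv (μ.tri x0 x1 x2)) := (μ.tri_contDiff x0 x1 x2).continuous_deriv (by simp)
  have hd : ∀ t : ℝ, deriv (μ.tri x0 x1 x2) t = s * deriv μ.S t + (x1 - x0) * deriv μ.S (-t) := by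
    intro t
    rw [(μ.hasDerivAt_tri x0 x1 x2 t).deriv, h2]
  have hpos : ∀ t ∈ Set.Icc v (1 / 2 : ℝ), 0 ≤ s * deriv (μ.tri x0 x1 x2) t := by
    intro t ht
    have k1 := μ.deriv_nonneg t
    have k2 := μ.deriv_nonneg (-t)
    have k3 : 0 ≤ deriv μ.S t - deriv μ.S (-t) := by
      rw [← μ.deriv_Q]
      rcases (h0.trans ht.1).eq_or_lt with h | h
      · rw [← h, μ.deriv_Q, neg_zero, sub_self]
      · exact (μ.deriv_Q_pos h).le
    rw [hd]
    rcases hs with hs | hs <;> rcases h1 with h1 | h1 <;> rw [hs, h1] <;> linarith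
  have hint : ∀ K : ℝ, ∫ t in v..(1 / 2 : ℝ), K * (s * deriv (μ.tri x0 x1 x2) t) =
      (1 / 2 - s * (μ.tri x0 x1 x2 v - x1)) * K := by
    intro K
    have e : ∀ t ∈ Set.uIcc v (1 / 2 : ℝ), HasDerivAt (fun t => K * (s * μ.tri x0 x1 x2 t))
        (K * (s * deriv (μ.tri x0 x1 x2) t)) t := by
      intro t _
      have := ((μ.hasDerivAt_tri x0 x1 x2 t).const_mul s).const_mul K
      rwa [← (μ.hasDerivAt_tri x0 x1 x2 t).deriv] at this
    rw [intervalIntegral.integral_eq_sub_of_hasDerivAt e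
      ((continuous_const.mul (continuous_const.mul hc)).intervalIntegrable _ _)]
    have hep := μ.ep_lt
    rw [μ.tri_right x0 x1 x2 (u := 1 / 2) (by linarith), h2]
    rcases hs with hs | hs <;> rw [hs] <;> ring
  have hJ : s * μ.J x0 x1 x2 a b c v =
      ∫ t in v..(1 / 2 : ℝ), μ.tri a b c t * (s * deriv (μ.tri x0 x1 x2) t) := by
    unfold Moll.J
    rw [← intervalIntegral.integral_const_mul]
    refine intervalIntegral.integral_congr fun t _ => ?_
    show s * (μ.tri a b c t * deriv (μ.tri x0 x1 x2) t) = μ.tri a b c t * (s * deriv (μ.tri x0 x1 x2) t)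
    ring
  have ct : Continuous (μ.tri a b c) := (μ.tri_contDiff a b c).continuous
  have habs : ∀ t ∈ Set.Icc v (1 / 2 : ℝ), |t| ≤ 1 / 2 := fun t ht =>
    abs_le.2 ⟨by linarith [ht.1], ht.2⟩
  constructor
  · rw [hJ, ← hint m]
    refine intervalIntegral.integral_mono_on hv ((continuous_const.mul (continuous_const.mul hc)).intervalIntegrable _ _)
      ((ct.mul (continuous_const.mul hc)).intervalIntegrable _ _) fun t ht => ?_
    exact mul_le_mul_of_nonneg_right (CellF_ge μ (habs t ht) hm1 hm2 hm3) (hpos t ht)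
  · rw [hJ, ← hint M]
    refine intervalIntegral.integral_mono_on hv ((ct.mul (continuous_const.mul hc)).intervalIntegrable _ _)
      ((continuous_const.mul (continuous_const.mul hc)).intervalIntegrable _ _) fun t ht => ?_
    exact mul_le_mul_of_nonneg_right (CellF_le μ (habs t ht) hM1 hM2 hM3) (hpos t ht)

/-- the increments of `F` at the parameter `v` -/
private noncomputable def CellF_dF (C : WC) (e : Bool) (v : ℝ) : ℝ :=
  (C.f1.inc e : ℝ) / 1600 - μ.J C.x0 C.x1 C.x2 (C.y0.inc e) (C.y1.inc e) (C.y2.inc e) v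

private theorem CellF_der (z : Z3) (u : ℝ) :
    z.der μ u = deriv μ.S u * (z.inc true : ℝ) + deriv μ.S (-u) * (z.inc false : ℝ) := by
  simp only [Z3.der, Z3.inc]
  push_cast
  ring

private theorem CellF_tau (C : WC) (v u : ℝ) :
    (C.pt μ v u).2.2 = deriv μ.S u * CellF_dF μ C true v + deriv μ.S (-u) * CellF_dF μ C false v := by
  have hJ := μ.J_linear C.x0 C.x1 C.x2 (C.y0.inc true) (C.y1.inc true) (C.y2.inc true)
    (C.y0.inc false) (C.y1.inc false) (C.y2.inc false) (deriv μ.S u) (deriv μ.S (-u)) v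
  simp only [pt, CellF_dF]
  rw [CellF_der μ C.y0 u, CellF_der μ C.y1 u, CellF_der μ C.y2 u, CellF_der μ C.f1 u, hJ]
  ring

private theorem CellF_ok (C : WC) (ok : C.ok = true) (e : Bool) :
    (C.f1.inc e : ℝ) / 1600 - (C.f0.inc e : ℝ) / 1600 =
      (C.y1.inc e : ℝ) * ((C.x2 : ℝ) - C.x0) / 2 +
      (((C.y2.inc e : ℝ) - C.y1.inc e) * ((C.x2 : ℝ) - C.x1) - ((C.y1.inc e : ℝ) - C.y0.inc e) * ((C.x1 : ℝ) - C.x0)) / 8 +
      (((C.y2.inc e : ℝ) - C.y1.inc e) * ((C.x1 : ℝ) - C.x0) -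
        ((C.y1.inc e : ℝ) - C.y0.inc e) * ((C.x2 : ℝ) - C.x1)) / 1600 := by
  simp only [WC.ok, okAt, Bool.and_eq_true, beq_iff_eq] at ok
  obtain ⟨⟨ha, hb⟩, hc⟩ := ok
  have ha' : (C.f1.a : ℝ) - C.f0.a = 800 * C.y1.a * (C.x2 - C.x0) +
      200 * ((C.y2.a - C.y1.a) * (C.x2 - C.x1) - (C.y1.a - C.y0.a) * (C.x1 - C.x0)) +
      ((C.y2.a - C.y1.a) * (C.x1 - C.x0) - (C.y1.a - C.y0.a) * (C.x2 - C.x1)) := by exact_mod_cast ha
  have hb' : (C.f1.b : ℝ) - C.f0.b = 800 * C.y1.b * (C.x2 - C.x0) +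
      200 * ((C.y2.b - C.y1.b) * (C.x2 - C.x1) - (C.y1.b - C.y0.b) * (C.x1 - C.x0)) +
      ((C.y2.b - C.y1.b) * (C.x1 - C.x0) - (C.y1.b - C.y0.b) * (C.x2 - C.x1)) := by exact_mod_cast hb
  have hc' : (C.f1.c : ℝ) - C.f0.c = 800 * C.y1.c * (C.x2 - C.x0) +
      200 * ((C.y2.c - C.y1.c) * (C.x2 - C.x1) - (C.y1.c - C.y0.c) * (C.x1 - C.x0)) +
      ((C.y2.c - C.y1.c) * (C.x1 - C.x0) - (C.y1.c - C.y0.c) * (C.x2 - C.x1)) := by exact_mod_cast hc
  cases e
  · simp only [Z3.inc]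
    push_cast
    linear_combination (hb' - ha') / 1600
  · simp only [Z3.inc]
    push_cast
    linear_combination (hc' - hb') / 1600

/-- the steps are `± 1` -/
private theorem CellF_x (C : WC) (h : C.straight = true ∨ C.fold = true) :
    (C.x2 - C.x1 = 1 ∨ C.x2 - C.x1 = -1) ∧ (C.x1 - C.x0 = 1 ∨ C.x1 - C.x0 = -1) := by
  rcases h with h | h
  · simp only [straight, Bool.or_eq_true, Bool.and_eq_true, beq_iff_eq] at h
    omega
  · simp only [fold, Bool.or_eq_true, Bool.and_eq_true, beq_iff_eq] at h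
    obtain ⟨⟨h1, h2⟩, -⟩ := h
    omega

/-- where the side `s` of the vertex is: `x` and the parameter -/
private theorem CellF_side (C : WC) (h : C.straight = true ∨ C.fold = true) {s : ℤ} (hs : s = 1 ∨ s = -1) {v : ℝ}
    (hp : 0 < (s : ℝ) * (μ.tri C.x0 C.x1 C.x2 v - C.x1)) :
    (0 ≤ v ∧ C.x2 - C.x1 = s) ∨ (v ≤ 0 ∧ C.x0 - C.x1 = s) := by
  rcases h with h | h
  · simp only [straight, Bool.or_eq_true, Bool.and_eq_true, beq_iff_eq] at h
    rcases h with ⟨h1, h2⟩ | ⟨h1, h2⟩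
    · have e0 : (C.x0 : ℝ) = (C.x1 : ℝ) - 1 := by
        have : C.x0 = C.x1 - 1 := by omega
        rw [this]
        push_cast
        ring
      have e2 : (C.x2 : ℝ) = (C.x1 : ℝ) + 1 := by
        have : C.x2 = C.x1 + 1 := by omega
        rw [this]
        push_cast
        ring
      rw [e0, e2, μ.tri_straight] at hp
      rcases hs with hs | hs
      · rw [hs] at hp
        push_cast at hp
        left
        exact ⟨by linarith, by omega⟩
      · rw [hs] at hp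
        push_cast at hp
        right
        exact ⟨by linarith, by omega⟩
    · have e0 : (C.x0 : ℝ) = (C.x1 : ℝ) - (-1) := by
        have : C.x0 = C.x1 + 1 := by omega
        rw [this]
        push_cast
        ring
      have e2 : (C.x2 : ℝ) = (C.x1 : ℝ) + (-1) := by
        have : C.x2 = C.x1 - 1 := by omega
        rw [this]
        push_cast
        ring
      rw [e0, e2, μ.tri_straight] at hp
      rcases hs with hs | hs
      · rw [hs] at hp
        push_cast at hp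
        right
        exact ⟨by linarith, by omega⟩
      · rw [hs] at hp
        push_cast at hp
        left
        exact ⟨by linarith, by omega⟩
  · simp only [fold, Bool.or_eq_true, Bool.and_eq_true, beq_iff_eq] at h
    obtain ⟨⟨h1, h2⟩, -⟩ := h
    have hQ := μ.Q_pos v
    have key : C.x0 - C.x1 = s := by
      rcases h2 with h2 | h2
      · have e0 : (C.x0 : ℝ) = (C.x1 : ℝ) + (-1) := by
          have : C.x0 = C.x1 - 1 := by omega
          rw [this]
          push_cast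
          ring
        rw [← h1, e0, μ.tri_fold] at hp
        rcases hs with hs | hs
        · rw [hs] at hp
          push_cast at hp
          linarith
        · omega
      · have e0 : (C.x0 : ℝ) = (C.x1 : ℝ) + 1 := by
          have : C.x0 = C.x1 + 1 := by omega
          rw [this]
          push_cast
          ring
        rw [← h1, e0, μ.tri_fold] at hp
        rcases hs with hs | hs
        · omega
        · rw [hs] at hp
          push_cast at hp
          linarith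
    rcases le_total 0 v with h0 | h0
    · exact Or.inl ⟨h0, by omega⟩
    · exact Or.inr ⟨h0, key⟩

/-- bounds for `δF` at a point on the side `s`, from the midpoint on this side -/
private theorem CellF_bound (C : WC) (h : C.straight = true ∨ C.fold = true) (ok : C.ok = true) {s : ℤ}
    (hs : s = 1 ∨ s = -1) {v : ℝ} (hv : |v| ≤ 1 / 2) (hp : 0 < (s : ℝ) * (μ.tri C.x0 C.x1 C.x2 v - C.x1)) :
    ∃ z ∈ C.sideEnds s, ∀ e : Bool,
      (1 / 2 - s * (μ.tri C.x0 C.x1 C.x2 v - C.x1)) * ((C.hmin e : ℝ) / 2) ≤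
        s * ((z.inc e : ℝ) / 1600 - CellF_dF μ C e v) ∧
      s * ((z.inc e : ℝ) / 1600 - CellF_dF μ C e v) ≤
        (1 / 2 - s * (μ.tri C.x0 C.x1 C.x2 v - C.x1)) * ((C.hmax e : ℝ) / 2) := by
  have hv' := abs_le.1 hv
  have hM : ∀ e : Bool, (C.y1.inc e : ℝ) ≤ (C.hmax e : ℝ) / 2 ∧ ((C.y1.inc e : ℝ) + C.y2.inc e) / 2 ≤ (C.hmax e : ℝ) / 2 ∧
      ((C.y0.inc e : ℝ) + C.y1.inc e) / 2 ≤ (C.hmax e : ℝ) / 2 := by
    intro e
    have a1 : 2 * C.y1.inc e ≤ C.hmax e := le_max_left _ _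
    have a2 : C.y0.inc e + C.y1.inc e ≤ C.hmax e := le_trans (le_max_left _ _) (le_max_right _ _)
    have a3 : C.y1.inc e + C.y2.inc e ≤ C.hmax e := le_trans (le_max_right _ _) (le_max_right _ _)
    have b1 : 2 * (C.y1.inc e : ℝ) ≤ (C.hmax e : ℝ) := by exact_mod_cast a1
    have b2 : (C.y0.inc e : ℝ) + C.y1.inc e ≤ (C.hmax e : ℝ) := by exact_mod_cast a2
    have b3 : (C.y1.inc e : ℝ) + C.y2.inc e ≤ (C.hmax e : ℝ) := by exact_mod_cast a3
    exact ⟨by linarith, by linarith, by linarith⟩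
  have hm : ∀ e : Bool, (C.hmin e : ℝ) / 2 ≤ (C.y1.inc e : ℝ) ∧ (C.hmin e : ℝ) / 2 ≤ ((C.y1.inc e : ℝ) + C.y2.inc e) / 2 ∧
      (C.hmin e : ℝ) / 2 ≤ ((C.y0.inc e : ℝ) + C.y1.inc e) / 2 := by
    intro e
    have a1 : C.hmin e ≤ 2 * C.y1.inc e := min_le_left _ _
    have a2 : C.hmin e ≤ C.y0.inc e + C.y1.inc e := le_trans (min_le_right _ _) (min_le_left _ _)
    have a3 : C.hmin e ≤ C.y1.inc e + C.y2.inc e := le_trans (min_le_right _ _) (min_le_right _ _)
    have b1 : (C.hmin e : ℝ) ≤ 2 * (C.y1.inc e : ℝ) := by exact_mod_cast a1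
    have b2 : (C.hmin e : ℝ) ≤ (C.y0.inc e : ℝ) + C.y1.inc e := by exact_mod_cast a2
    have b3 : (C.hmin e : ℝ) ≤ (C.y1.inc e : ℝ) + C.y2.inc e := by exact_mod_cast a3
    exact ⟨by linarith, by linarith, by linarith⟩
  obtain ⟨hx2, hx1⟩ := CellF_x C h
  have hsr : (s : ℝ) = 1 ∨ (s : ℝ) = -1 := by
    rcases hs with hs | hs
    · left
      rw [hs]
      norm_num
    · right
      rw [hs]
      norm_num
  have hx1r : (C.x1 : ℝ) - C.x0 = 1 ∨ (C.x1 : ℝ) - C.x0 = -1 := by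
    rcases hx1 with h1 | h1
    · left
      exact_mod_cast h1
    · right
      exact_mod_cast h1
  have hx2r : (C.x1 : ℝ) - C.x2 = 1 ∨ (C.x1 : ℝ) - C.x2 = -1 := by
    rcases hx2 with h1 | h1
    · right
      have : (C.x2 : ℝ) - C.x1 = 1 := by exact_mod_cast h1
      linarith
    · left
      have : (C.x2 : ℝ) - C.x1 = -1 := by exact_mod_cast h1
      linarith
  rcases CellF_side μ C h hs hp with ⟨h0, h2⟩ | ⟨h0, h2⟩
  · refine ⟨C.f1, ?_, fun e => ?_⟩
    · unfold sideEnds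
      rw [if_pos (show (C.x2 - C.x1 == s) = true by simp [h2])]
      simp
    · obtain ⟨M1, M2, M3⟩ := hM e
      obtain ⟨m1, m2, m3⟩ := hm e
      have h2r : (C.x2 : ℝ) - C.x1 = s := by exact_mod_cast h2
      have key := CellF_half μ (a := (C.y0.inc e : ℝ)) (b := (C.y1.inc e : ℝ)) (c := (C.y2.inc e : ℝ)) hsr h2r hx1r
        M1 M2 M3 m1 m2 m3 h0 hv'.2
      have e1 : (s : ℝ) * ((C.f1.inc e : ℝ) / 1600 - CellF_dF μ C e v) =
          s * μ.J C.x0 C.x1 C.x2 (C.y0.inc e) (C.y1.inc e) (C.y2.inc e) v := by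
        unfold CellF_dF
        ring
      rw [e1]
      exact key
  · refine ⟨C.f0, ?_, fun e => ?_⟩
    · unfold sideEnds
      rw [if_pos (show (C.x0 - C.x1 == s) = true by simp [h2])]
      simp
    · obtain ⟨M1, M2, M3⟩ := hM e
      obtain ⟨m1, m2, m3⟩ := hm e
      have h2r : (C.x0 : ℝ) - C.x1 = s := by exact_mod_cast h2
      have key := CellF_half μ (x0 := (C.x2 : ℝ)) (a := (C.y2.inc e : ℝ)) (b := (C.y1.inc e : ℝ)) (c := (C.y0.inc e : ℝ))
        (v := -v) hsr h2r hx2r M1 (by linarith) (by linarith) m1 (by linarith) (by linarith) (by linarith)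
        (by linarith)
      rw [μ.J_flip C.x0 C.x1 C.x2 (C.y0.inc e) (C.y1.inc e) (C.y2.inc e) (-v), neg_neg, μ.J_total] at key
      have et : μ.tri (C.x2 : ℝ) C.x1 C.x0 (-v) = μ.tri C.x0 C.x1 C.x2 v := by
        rw [μ.tri_neg]
      rw [et] at key
      have hk := CellF_ok C ok e
      have e1 : (s : ℝ) * ((C.f0.inc e : ℝ) / 1600 - CellF_dF μ C e v) =
          s * (μ.J C.x0 C.x1 C.x2 (C.y0.inc e) (C.y1.inc e) (C.y2.inc e) v -
            ((C.y1.inc e : ℝ) * ((C.x2 : ℝ) - C.x0) / 2 +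
      (((C.y2.inc e : ℝ) - C.y1.inc e) * ((C.x2 : ℝ) - C.x1) - ((C.y1.inc e : ℝ) - C.y0.inc e) * ((C.x1 : ℝ) - C.x0)) / 8 +
      (((C.y2.inc e : ℝ) - C.y1.inc e) * ((C.x1 : ℝ) - C.x0) -
        ((C.y1.inc e : ℝ) - C.y0.inc e) * ((C.x2 : ℝ) - C.x1)) / 1600)) := by
        rw [← hk]
        unfold CellF_dF
        ring
      rw [e1]
      exact key

/-- (F): `δF` at `x` is `δF` at the midpoint on the side of the fold minus the integral of `δ Y` from `x` to the midpoint, an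
interval of length at most `1/2`. -/
theorem tauF_sound (C D : WC) (hC : C.straight = true ∨ C.fold = true) (hD : D.straight = true ∨ D.fold = true)
    (okC : C.ok = true) (okD : D.ok = true) (hx : C.x1 = D.x1) (hf : (C.straight && D.straight) ≠ true)
    (h0 : C.tauF D false = true) (h1 : C.tauF D true = true) {v v' u : ℝ} (hv : |v| ≤ 1 / 2) (hv' : |v'| ≤ 1 / 2)
    (e : (C.pt μ v u).1 = (D.pt μ v' u).1) : (D.pt μ v' u).2.2 < (C.pt μ v u).2.2 := by
  obtain ⟨s, hsdef⟩ : ∃ s : ℤ, s = if C.x0 == C.x2 then C.x0 - C.x1 else D.x0 - D.x1 := ⟨_, rfl⟩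
  have ex : μ.tri C.x0 C.x1 C.x2 v = μ.tri D.x0 D.x1 D.x2 v' := e
  have hxr : (C.x1 : ℝ) = D.x1 := by exact_mod_cast hx
  -- the fold
  have hfold : ∀ (E : WC), E.fold = true → ∀ w : ℝ, (E.x0 - E.x1 = 1 ∨ E.x0 - E.x1 = -1) ∧ E.x0 = E.x2 ∧
      0 < ((E.x0 - E.x1 : ℤ) : ℝ) * (μ.tri E.x0 E.x1 E.x2 w - E.x1) := by
    intro E hE w
    simp only [fold, Bool.or_eq_true, Bool.and_eq_true, beq_iff_eq] at hE
    obtain ⟨⟨k1, k2⟩, -⟩ := hE
    refine ⟨by omega, k1, ?_⟩
    have hQ := μ.Q_pos w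
    have e0 : (E.x0 : ℝ) = (E.x1 : ℝ) + ((E.x0 - E.x1 : ℤ) : ℝ) := by
      push_cast
      ring
    have e1 : μ.tri E.x0 E.x1 E.x2 w = (E.x1 : ℝ) + ((E.x0 - E.x1 : ℤ) : ℝ) * μ.Q w := by
      rw [← k1]
      conv_lhs => rw [e0]
      exact μ.tri_fold _ _ _
    rw [e1]
    have k3 : ((E.x0 - E.x1 : ℤ) : ℝ) = 1 ∨ ((E.x0 - E.x1 : ℤ) : ℝ) = -1 := by
      rcases k2 with k2 | k2
      · right
        have : E.x0 - E.x1 = -1 := by omega
        rw [this]
        norm_num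
      · left
        have : E.x0 - E.x1 = 1 := by omega
        rw [this]
        norm_num
    rcases k3 with k3 | k3 <;> rw [k3] <;> linarith
  have hmain : (s = 1 ∨ s = -1) ∧ 0 < (s : ℝ) * (μ.tri C.x0 C.x1 C.x2 v - C.x1) := by
    rcases hC with hC | hC
    · have hDf : D.fold = true := by
        rcases hD with hD | hD
        · exact absurd (by rw [hC, hD]; rfl) hf
        · exact hD
      have hne : ¬ ((C.x0 == C.x2) = true) := by
        simp only [straight, Bool.or_eq_true, Bool.and_eq_true, beq_iff_eq] at hC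
        rw [beq_iff_eq]
        omega
      rw [if_neg hne] at hsdef
      obtain ⟨k1, k2, k3⟩ := hfold D hDf v'
      rw [hsdef]
      refine ⟨k1, ?_⟩
      rw [ex, hxr]
      exact k3
    · obtain ⟨k1, k2, k3⟩ := hfold C hC v
      rw [if_pos (by rw [beq_iff_eq]; exact k2)] at hsdef
      rw [hsdef]
      exact ⟨k1, k3⟩
  obtain ⟨hs, hp⟩ := hmain
  have hp' : 0 < (s : ℝ) * (μ.tri D.x0 D.x1 D.x2 v' - D.x1) := by
    rw [← ex, ← hxr]
    exact hp
  obtain ⟨c, hc, bc⟩ := CellF_bound μ C hC okC hs hv hp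
  obtain ⟨d, hd, bd⟩ := CellF_bound μ D hD okD hs hv' hp'
  have hsr : (s : ℝ) = 1 ∨ (s : ℝ) = -1 := by
    rcases hs with hs | hs
    · left
      rw [hs]
      norm_num
    · right
      rw [hs]
      norm_num
  have hρ : 0 ≤ 1 / 2 - (s : ℝ) * (μ.tri C.x0 C.x1 C.x2 v - C.x1) := by
    obtain ⟨k2, k1⟩ := CellF_x C hC
    have k2r : (C.x2 : ℝ) - C.x1 = 1 ∨ (C.x2 : ℝ) - C.x1 = -1 := by
      rcases k2 with k2 | k2
      · left
        exact_mod_cast k2
      · right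
        exact_mod_cast k2
    have k1r : (C.x1 : ℝ) - C.x0 = 1 ∨ (C.x1 : ℝ) - C.x0 = -1 := by
      rcases k1 with k1 | k1
      · left
        exact_mod_cast k1
      · right
        exact_mod_cast k1
    have j1 := μ.nonneg v
    have j2 := μ.nonneg (-v)
    have j3 := μ.Q_le_half hv
    have j4 : μ.Q v = μ.S v + μ.S (-v) := rfl
    unfold Moll.tri
    rcases hsr with hsr | hsr <;> rcases k1r with k1r | k1r <;> rcases k2r with k2r | k2r <;>
      rw [hsr, k1r, k2r] <;> linarith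
  have hρ2 : 1 / 2 - (s : ℝ) * (μ.tri C.x0 C.x1 C.x2 v - C.x1) ≤ 1 / 2 := by linarith
  have step : ∀ b : Bool, C.tauF D b = true → CellF_dF μ D b v' < CellF_dF μ C b v := by
    intro b hb
    unfold tauF at hb
    rw [← hsdef] at hb
    simp only [List.all_eq_true, Bool.and_eq_true, decide_eq_true_eq] at hb
    obtain ⟨b1, b2⟩ := hb c hc d hd
    have b1r : (0 : ℝ) < (c.inc b : ℝ) - d.inc b := by exact_mod_cast b1
    obtain ⟨c1, c2⟩ := bc b
    obtain ⟨d1, d2⟩ := bd b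
    rw [← ex, ← hxr] at d1 d2
    generalize 1 / 2 - (s : ℝ) * (μ.tri C.x0 C.x1 C.x2 v - C.x1) = ρ at *
    rcases hs with hs1 | hs1
    · rw [hs1] at b2 c1 c2 d1 d2
      rw [if_pos (by rfl)] at b2
      have b2r : (400 : ℝ) * ((C.hmax b : ℝ) - D.hmin b) < (c.inc b : ℝ) - d.inc b := by exact_mod_cast b2
      push_cast at c1 c2 d1 d2
      rcases le_total 0 ((C.hmax b : ℝ) - D.hmin b) with h | h
      · have : ρ * ((C.hmax b : ℝ) - D.hmin b) ≤ 1 / 2 * ((C.hmax b : ℝ) - D.hmin b) :=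
          mul_le_mul_of_nonneg_right hρ2 h
        linarith
      · have : ρ * ((C.hmax b : ℝ) - D.hmin b) ≤ 0 := mul_nonpos_of_nonneg_of_nonpos hρ h
        linarith
    · rw [hs1] at b2 c1 c2 d1 d2
      rw [if_neg (by decide)] at b2
      have b2r : (400 : ℝ) * ((D.hmax b : ℝ) - C.hmin b) < (c.inc b : ℝ) - d.inc b := by exact_mod_cast b2
      push_cast at c1 c2 d1 d2
      rcases le_total 0 ((D.hmax b : ℝ) - C.hmin b) with h | h
      · have : ρ * ((D.hmax b : ℝ) - C.hmin b) ≤ 1 / 2 * ((D.hmax b : ℝ) - C.hmin b) :=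
          mul_le_mul_of_nonneg_right hρ2 h
        linarith
      · have : ρ * ((D.hmax b : ℝ) - C.hmin b) ≤ 0 := mul_nonpos_of_nonneg_of_nonpos hρ h
        linarith
  have s0 := step false h0
  have s1 := step true h1
  rw [CellF_tau μ C v u, CellF_tau μ D v' u]
  have p1 := μ.deriv_nonneg u
  have p2 := μ.deriv_nonneg (-u)
  have p3 := μ.deriv_refl u
  have q1 : 0 ≤ deriv μ.S u * (CellF_dF μ C true v - CellF_dF μ D true v') := mul_nonneg p1 (by linarith)
  have q2 : 0 ≤ deriv μ.S (-u) * (CellF_dF μ C false v - CellF_dF μ D false v') := mul_nonneg p2 (by linarith)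
  rcases p1.eq_or_lt with hz | hz
  · have hone : deriv μ.S (-u) = 1 := by linarith
    rw [hone, ← hz]
    linarith
  · have q3 : 0 < deriv μ.S u * (CellF_dF μ C true v - CellF_dF μ D true v') := mul_pos hz (by linarith)
    nlinarith [q3, q2]

end WC

end Pool.Agent.Lib_MP_59ec1f_cap
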