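import Pool.Agent.Lib_MP_59ec1f_cap.CellTestDefs

/-!
# The hull test
-/

set_option autoImplicit false

open scoped ContDiff

namespace Pool.Agent.Lib_MP_59ec1f_cap

namespace WC

variable (μ : Moll)

/-- the points of the cell are in the hull (`α = 1 - 2 Q v`, `β = 2 S v`, `γ = 2 S (-v)`) -/
theorem pt_inHull (C : WC) {v u : ℝ} (hv : |v| ≤ 1 / 2) : C.InHull μ u ((C.pt μ v u).1, (C.pt μ v u).2.1) := by
  refine ⟨1 - 2 * μ.Q v, 2 * μ.S v, 2 * μ.S (-v), ?_, ?_, ?_, ?_, ?_, ?_⟩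
  · have h := μ.Q_le_half hv
    linarith
  · have h := μ.nonneg v
    linarith
  · have h := μ.nonneg (-v)
    linarith
  · unfold Moll.Q
    ring
  · exact μ.tri_eq _ _ _ v
  · exact μ.tri_eq _ _ _ v

private theorem hull_conv {α β γ a b c : ℝ} (hα : 0 ≤ α) (hβ : 0 ≤ β) (hγ : 0 ≤ γ) (h : α + β + γ = 1)
    (ha : 0 < a) (hb : 0 < b) (hc : 0 < c) : 0 < α * a + β * b + γ * c := by
  have hm : 0 < min a (min b c) := lt_min ha (lt_min hb hc)
  have h1 : α * min a (min b c) ≤ α * a := mul_le_mul_of_nonneg_left (min_le_left _ _) hα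
  have h2 : β * min a (min b c) ≤ β * b :=
    mul_le_mul_of_nonneg_left ((min_le_right _ _).trans (min_le_left _ _)) hβ
  have h3 : γ * min a (min b c) ≤ γ * c :=
    mul_le_mul_of_nonneg_left ((min_le_right _ _).trans (min_le_right _ _)) hγ
  have h4 : α * min a (min b c) + β * min a (min b c) + γ * min a (min b c) = min a (min b c) := by
    rw [← add_mul, ← add_mul, h, one_mul]
  linarith

private theorem hull_slope (C D : WC) (t : Fin 3) (h : C.aboveB D t = true) :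
    ∃ B : ℝ, ∀ a ∈ C.hull t, ∀ b ∈ D.hull t, 0 < ((a.2 : ℝ) - b.2) - B * ((a.1 : ℝ) - b.1) := by
  unfold aboveB at h
  rw [List.any_eq_true] at h
  obtain ⟨s, -, hs⟩ := h
  unfold aboveSlope at hs
  rw [Bool.and_eq_true, List.all_eq_true, decide_eq_true_eq] at hs
  obtain ⟨hq, hs⟩ := hs
  refine ⟨(s.1 : ℝ) / s.2, fun a ha b hb => ?_⟩
  have h1 := hs a ha
  rw [List.all_eq_true] at h1
  have h2 := h1 b hb
  rw [decide_eq_true_eq] at h2
  have hq' : (0 : ℝ) < s.2 := by exact_mod_cast hq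
  have h3 : (s.1 : ℝ) * ((a.1 : ℝ) - b.1) < s.2 * ((a.2 : ℝ) - b.2) := by exact_mod_cast h2
  have h4 : (s.1 : ℝ) / s.2 * ((a.1 : ℝ) - b.1) = (s.1 * ((a.1 : ℝ) - b.1)) / s.2 := by ring
  rw [h4, sub_pos, div_lt_iff₀ hq']
  linarith

private theorem hull_val (z : Z3) (u : ℝ) : z.val μ u =
    (2 * μ.S (-u) * z.half 0 + (1 - 2 * μ.Q u) * z.half 1 + 2 * μ.S u * z.half 2) / 2 := by
  unfold Z3.val
  rw [μ.tri_eq]
  simp only [Z3.half]
  push_cast
  ring

private theorem hull_one (C D : WC) (h0 : C.aboveB D 0 = true) (h1 : C.aboveB D 1 = true)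
    (h2 : C.aboveB D 2 = true) {u : ℝ} (hu : |u| ≤ 1 / 2) {p q : ℝ × ℝ}
    (hp : C.InHull μ u p) (hq : D.InHull μ u q) : p ≠ q := by
  obtain ⟨B0, H0⟩ := hull_slope C D 0 h0
  obtain ⟨B1, H1⟩ := hull_slope C D 1 h1
  obtain ⟨B2, H2⟩ := hull_slope C D 2 h2
  have w0 : 0 ≤ 2 * μ.S (-u) := by
    have h := μ.nonneg (-u)
    linarith
  have w1 : 0 ≤ 1 - 2 * μ.Q u := by
    have h := μ.Q_le_half hu
    linarith
  have w2 : 0 ≤ 2 * μ.S u := by
    have h := μ.nonneg u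
    linarith
  have w : 2 * μ.S (-u) + (1 - 2 * μ.Q u) + 2 * μ.S u = 1 := by
    unfold Moll.Q
    ring
  simp only [hull, List.mem_cons, List.not_mem_nil, or_false, forall_eq_or_imp, forall_eq] at H0 H1 H2
  push_cast at H0 H1 H2
  obtain ⟨α, β, γ, hα, hβ, hγ, hs, hx, hy⟩ := hp
  obtain ⟨α', β', γ', hα', hβ', hγ', hs', hx', hy'⟩ := hq
  rw [hull_val μ C.y0, hull_val μ C.y1, hull_val μ C.y2] at hy
  rw [hull_val μ D.y0, hull_val μ D.y1, hull_val μ D.y2] at hy'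
  intro hpq
  rw [← hpq, hx] at hx'
  rw [← hpq, hy] at hy'
  generalize 2 * μ.S (-u) = W0 at *
  generalize 2 * μ.S u = W2 at *
  generalize 1 - 2 * μ.Q u = W1 at *
  obtain ⟨⟨a11, a12, a13⟩, ⟨a21, a22, a23⟩, ⟨a31, a32, a33⟩⟩ := H0
  obtain ⟨⟨b11, b12, b13⟩, ⟨b21, b22, b23⟩, ⟨b31, b32, b33⟩⟩ := H1
  obtain ⟨⟨c11, c12, c13⟩, ⟨c21, c22, c23⟩, ⟨c31, c32, c33⟩⟩ := H2
  have k11 := hull_conv w0 w1 w2 w a11 b11 c11
  have k12 := hull_conv w0 w1 w2 w a12 b12 c12
  have k13 := hull_conv w0 w1 w2 w a13 b13 c13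
  have k21 := hull_conv w0 w1 w2 w a21 b21 c21
  have k22 := hull_conv w0 w1 w2 w a22 b22 c22
  have k23 := hull_conv w0 w1 w2 w a23 b23 c23
  have k31 := hull_conv w0 w1 w2 w a31 b31 c31
  have k32 := hull_conv w0 w1 w2 w a32 b32 c32
  have k33 := hull_conv w0 w1 w2 w a33 b33 c33
  have m1 := hull_conv hα' hβ' hγ' hs' k11 k12 k13
  have m2 := hull_conv hα' hβ' hγ' hs' k21 k22 k23
  have m3 := hull_conv hα' hβ' hγ' hs' k31 k32 k33
  have m := hull_conv hα hβ hγ hs m1 m2 m3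
  refine absurd m (not_lt.2 (le_of_eq ?_))
  have e1 : γ = 1 - α - β := by linarith
  have e2 : γ' = 1 - α' - β' := by linarith
  subst e1 e2
  linear_combination (4 : ℝ) * hy' - 2 * (W0 * B0 + W1 * B1 + W2 * B2) * hx'

/-- Two points of the hulls with the same `x` have different `Y`. Proof: at the three times (`t = 0, 1, 2`) there are
slopes `β_t` with `Y - Y' > β_t (x - x')` for all pairs of corners of the hulls; the heights of all corners at the time
`m + u` are the convex combinations with the weights `2 S (-u), 1 - 2 Q u, 2 S u` of the three, so the inequality holds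
with the same combination of the `β_t`, and then for all points of the hulls. -/
theorem hullTest_sound (C D : WC) (h : C.hullTest D = true) {u : ℝ} (hu : |u| ≤ 1 / 2) {p q : ℝ × ℝ}
    (hp : C.InHull μ u p) (hq : D.InHull μ u q) : p ≠ q := by
  unfold hullTest at h
  rw [Bool.or_eq_true, Bool.and_eq_true, Bool.and_eq_true, Bool.and_eq_true, Bool.and_eq_true] at h
  rcases h with ⟨⟨h0, h1⟩, h2⟩ | ⟨⟨h0, h1⟩, h2⟩
  · exact hull_one μ C D h0 h1 h2 hu hp hq
  · exact (hull_one μ D C h0 h1 h2 hu hq hp).symm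

end WC

end Pool.Agent.Lib_MP_59ec1f_cap
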