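import Pool.Agent.Lib_MP_59ec1f_cap.Bridge

/-!
# Four strips

The surface is cut along two lines (through the saddle `A` and through the saddle `B`) into four strips
`Φ i j : [0, len i j] × (0, sT] → P4`. Coordinates of `P4`: `x, s, Y, τ` with `dG = Y dx + τ ds` on the surface; in the
coordinates `s, X, Y, τ` of `IsModel` this is the point `(s, -Y, x, τ)` (`toE`) and `F = G - x Y`.
-/

set_option autoImplicit false

open scoped ContDiff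

namespace Pool.Agent.Lib_MP_59ec1f_cap

/-- coordinates `x, s, Y, τ` -/
abbrev P4 := ℝ × ℝ × ℝ × ℝ

/-- to the coordinates of `IsModel` -/
noncomputable def toE (p : P4) : E4 := !₂[p.2.1, -p.2.2.1, p.1, p.2.2.2]

/-- Four strips, glued like the four quarter squares of a torus. The strip `(i, j)` has the left edge `θ = 0` (line `A`)
and the right edge `θ = len i j` (line `B`).
* `θ = 0`, `s ≤ sA`: the strips `(i, false)` and `(i, true)` are glued; `s ≥ sA`: `(false, j)` and `(true, j)`.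
* `θ = len`, `s ≤ sB`: the strips `(false, j)` and `(true, j)` are glued; `s ≥ sB`: `(i, false)` and `(i, true)`.
* `s = sT`: one point. `s ≤ 1/2`: cone. -/
structure QStrips where
  len : Bool → Bool → ℝ
  sA : ℝ
  sB : ℝ
  sT : ℝ
  Φ : Bool → Bool → ℝ × ℝ → P4
  G : Bool → Bool → ℝ × ℝ → ℝ
  top : P4
  len_pos : ∀ i j, 0 < len i j
  hA : 1 / 2 < sA
  hB : 1 / 2 < sB
  hAT : sA < sT
  hAB : sA < sB
  hBT : sB < sT
  cont : ∀ i j, ContinuousOn (Φ i j) (Set.Icc 0 (len i j) ×ˢ Set.Ioc 0 sT)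
  time : ∀ i j θ s, 0 ≤ θ → θ ≤ len i j → 0 < s → s ≤ sT → (Φ i j (θ, s)).2.1 = s
  atTop : ∀ i j θ, 0 ≤ θ → θ ≤ len i j → Φ i j (θ, sT) = top
  cone : ∀ i j θ s, 0 ≤ θ → θ ≤ len i j → 0 < s → s ≤ 1 / 2 →
    Φ i j (θ, s) = ((Φ i j (θ, 1 / 2)).1, s, 2 * s * (Φ i j (θ, 1 / 2)).2.2.1, (Φ i j (θ, 1 / 2)).2.2.2)
  coneG : ∀ i j θ s, 0 ≤ θ → θ ≤ len i j → 0 < s → s ≤ 1 / 2 → G i j (θ, s) = s * (Φ i j (θ, s)).2.2.2
  glueA₁ : ∀ i s, 0 < s → s ≤ sA → Φ i false (0, s) = Φ i true (0, s)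
  glueA₂ : ∀ j s, sA ≤ s → s ≤ sT → Φ false j (0, s) = Φ true j (0, s)
  glueB₁ : ∀ j s, 0 < s → s ≤ sB → Φ false j (len false j, s) = Φ true j (len true j, s)
  glueB₂ : ∀ i s, sB ≤ s → s ≤ sT → Φ i false (len i false, s) = Φ i true (len i true, s)
  inj : ∀ i j θ i' j' θ' s, 0 ≤ θ → θ ≤ len i j → 0 ≤ θ' → θ' ≤ len i' j' → 0 < s → s < sT →
    Φ i j (θ, s) = Φ i' j' (θ', s) →
      (i = i' ∧ j = j' ∧ θ = θ') ∨
      (θ = 0 ∧ θ' = 0 ∧ ((s ≤ sA ∧ i = i') ∨ (sA ≤ s ∧ j = j') ∨ s = sA)) ∨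
      (θ = len i j ∧ θ' = len i' j' ∧ ((s ≤ sB ∧ j = j') ∨ (sB ≤ s ∧ i = i') ∨ s = sB))

namespace QStrips

variable (D : QStrips)

/-- the domain of the strip `(i, j)` -/
def dom (i j : Bool) : Set (ℝ × ℝ) := Set.Icc 0 (D.len i j) ×ˢ Set.Ioc 0 D.sT

/-- the surface -/
def carrier : Set P4 := ⋃ i, ⋃ j, D.Φ i j '' D.dom i j

/-- Near `p` the surface has a smooth immersed parametrisation `c : U → P4` with primitive `g` (`dg = Y dx + τ ds`),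
and near each point of the strips which is mapped to `p` the strip map factors continuously through `c`. -/
def HasChart (p : P4) : Prop :=
  ∃ (U : Set (ℝ × ℝ)) (u₀ : ℝ × ℝ) (c : ℝ × ℝ → P4) (g : ℝ × ℝ → ℝ),
    IsOpen U ∧ u₀ ∈ U ∧ ContDiffOn ℝ ∞ c U ∧ ContDiffOn ℝ ∞ g U ∧ c u₀ = p ∧
    Function.Injective (fderiv ℝ c u₀) ∧
    (∀ u ∈ U, ∀ h, fderiv ℝ g u h = (c u).2.2.1 * (fderiv ℝ c u h).1 + (c u).2.2.2 * (fderiv ℝ c u h).2.1) ∧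
    (∀ u ∈ U, c u ∈ D.carrier) ∧
    ∀ i j, ∀ q ∈ D.dom i j, D.Φ i j q = p → ∃ (N : Set (ℝ × ℝ)) (t : ℝ × ℝ → ℝ × ℝ), IsOpen N ∧ q ∈ N ∧
      ContinuousOn t (N ∩ D.dom i j) ∧ t q = u₀ ∧
      ∀ q' ∈ N ∩ D.dom i j, t q' ∈ U ∧ c (t q') = D.Φ i j q' ∧ g (t q') = D.G i j q'

end QStrips

end Pool.Agent.Lib_MP_59ec1f_cap
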