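import Pool.Agent.Lib_MP_59ec1f_cap.MollFacts
import Pool.Agent.Lib_MP_59ec1f_cap.Strips

/-!
# The integral of a cell

A cell is the mollified corner at a vertex `(x1, y1)` with the neighbours `(x0, y0)` and `(x2, y2)`; the `x`-coordinates are
constant, the `y`-coordinates smooth functions of `s`, and `f` is the value of the primitive at the midpoint of the edge
from the vertex to the second neighbour (parameter `v = 1/2`).
-/

set_option autoImplicit false

open scoped ContDiff

namespace Pool.Agent.Lib_MP_59ec1f_cap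

namespace Moll

variable (μ : Moll)

/-- the integral of `Y dx` from the parameter `v` to `1/2` -/
noncomputable def J (x0 x1 x2 a b c v : ℝ) : ℝ :=
  ∫ t in v..(1 / 2 : ℝ), μ.tri a b c t * deriv (μ.tri x0 x1 x2) t

private theorem g_cont (x0 x1 x2 a b c : ℝ) :
    Continuous fun t => μ.tri a b c t * deriv (μ.tri x0 x1 x2) t :=
  (μ.tri_contDiff a b c).continuous.mul
    (contDiff_infty_iff_deriv.1 (μ.tri_contDiff x0 x1 x2)).2.continuous

private theorem deriv_tri (a b c t : ℝ) :
    deriv (μ.tri a b c) t = (c - b) * deriv μ.S t + (b - a) * deriv μ.S (-t) :=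
  (μ.hasDerivAt_tri a b c t).deriv

theorem hasDerivAt_J (x0 x1 x2 a b c v : ℝ) :
    HasDerivAt (μ.J x0 x1 x2 a b c) (-(μ.tri a b c v * deriv (μ.tri x0 x1 x2) v)) v := by
  have h := μ.g_cont x0 x1 x2 a b c
  exact intervalIntegral.integral_hasDerivAt_left (h.intervalIntegrable _ _)
    (h.stronglyMeasurableAtFilter _ _) h.continuousAt

theorem J_half (x0 x1 x2 a b c : ℝ) : μ.J x0 x1 x2 a b c (1 / 2) = 0 := by
  unfold J
  exact intervalIntegral.integral_same

theorem J_linear (x0 x1 x2 a b c a' b' c' p q v : ℝ) :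
    μ.J x0 x1 x2 (p * a + q * a') (p * b + q * b') (p * c + q * c') v =
      p * μ.J x0 x1 x2 a b c v + q * μ.J x0 x1 x2 a' b' c' v := by
  unfold J
  rw [← intervalIntegral.integral_const_mul, ← intervalIntegral.integral_const_mul,
    ← intervalIntegral.integral_add]
  · refine intervalIntegral.integral_congr fun t _ => ?_
    simp only [μ.tri_linear]
    ring
  · exact ((μ.g_cont x0 x1 x2 a b c).const_smul p).intervalIntegrable _ _
  · exact ((μ.g_cont x0 x1 x2 a' b' c').const_smul q).intervalIntegrable _ _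

private theorem dS_cont : Continuous (deriv μ.S) :=
  (contDiff_infty_iff_deriv.1 μ.smooth).2.continuous

private theorem S_half : μ.S (1 / 2) = 1 / 2 := μ.right _ (by have := μ.ep_lt; linarith)

private theorem S_neg_half : μ.S (-(1 / 2)) = 0 := μ.left _ (by have := μ.ep_lt; linarith)

private theorem hasDerivAt_Sn (v : ℝ) : HasDerivAt (fun t => μ.S (-t)) (-deriv μ.S (-v)) v := by
  have h : HasDerivAt (fun t => μ.S (-t)) (deriv μ.S (-v) * (-1)) v :=
    (μ.hasDerivAt_S (-v)).comp v (hasDerivAt_neg v)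
  exact h.congr_deriv (by ring)

private theorem int1 : ∫ t in (-(1 / 2) : ℝ)..(1 / 2), deriv μ.S t = 1 / 2 := by
  rw [intervalIntegral.integral_eq_sub_of_hasDerivAt (fun t _ => μ.hasDerivAt_S t)
    (μ.dS_cont.intervalIntegrable _ _), S_half, S_neg_half]
  norm_num

private theorem int2 : ∫ t in (-(1 / 2) : ℝ)..(1 / 2), deriv μ.S (-t) = 1 / 2 := by
  have h : ∀ t ∈ Set.uIcc (-(1 / 2) : ℝ) (1 / 2), HasDerivAt (fun t => -μ.S (-t)) (deriv μ.S (-t)) t := by
    intro t _
    have h1 : HasDerivAt (fun t => -μ.S (-t)) (-(-deriv μ.S (-t))) t := (μ.hasDerivAt_Sn t).neg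
    exact h1.congr_deriv (by ring)
  rw [intervalIntegral.integral_eq_sub_of_hasDerivAt h
    ((μ.dS_cont.comp continuous_neg).intervalIntegrable _ _)]
  simp only [neg_neg]
  rw [S_half, S_neg_half]
  norm_num

private theorem int3 : ∫ t in (-(1 / 2) : ℝ)..(1 / 2), μ.S t * deriv μ.S t = 1 / 8 := by
  have h : ∀ t ∈ Set.uIcc (-(1 / 2) : ℝ) (1 / 2), HasDerivAt (fun t => μ.S t ^ 2 / 2) (μ.S t * deriv μ.S t) t := by
    intro t _
    have h1 := ((μ.hasDerivAt_S t).pow 2).div_const 2
    refine h1.congr_deriv ?_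
    simp
    ring
  rw [intervalIntegral.integral_eq_sub_of_hasDerivAt h
    ((μ.smooth.continuous.mul μ.dS_cont).intervalIntegrable _ _), S_half, S_neg_half]
  norm_num

private theorem int4 : ∫ t in (-(1 / 2) : ℝ)..(1 / 2), μ.S (-t) * deriv μ.S (-t) = 1 / 8 := by
  have h := intervalIntegral.integral_comp_neg (a := -(1 / 2)) (b := 1 / 2) fun t => μ.S t * deriv μ.S t
  simp only [neg_neg] at h
  rw [h, int3]

private theorem int5 : ∫ t in (-(1 / 2) : ℝ)..(1 / 2), μ.S (-t) * deriv μ.S t = 1 / 1600 := by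
  have h := intervalIntegral.integral_comp_neg (a := -(1 / 2)) (b := 1 / 2) fun t => μ.S t * deriv μ.S (-t)
  simp only [neg_neg] at h
  rw [h, μ.area]

/-- The integral over the whole cell. With `A = c - b, B = b - a`, `A' = x2 - x1, B' = x1 - x0` the integrand is
`(b + A S t - B S (-t)) (A' S' t + B' S' (-t))`; primitives: `S`, `-S (-t)`, `S²/2`, `-S (-t)²/2`, and
`∫ S t S' (-t) = ∫ S (-t) S' t = 1/1600` over `[-1/2, 1/2]` (`Moll.area` and the substitution `t ↦ -t`). -/
theorem J_total (x0 x1 x2 a b c : ℝ) : μ.J x0 x1 x2 a b c (-(1 / 2)) =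
    b * (x2 - x0) / 2 + ((c - b) * (x2 - x1) - (b - a) * (x1 - x0)) / 8 +
      ((c - b) * (x1 - x0) - (b - a) * (x2 - x1)) / 1600 := by
  have hS := μ.smooth.continuous
  have hd := μ.dS_cont
  have hSn : Continuous fun t => μ.S (-t) := hS.comp continuous_neg
  have hdn : Continuous fun t => deriv μ.S (-t) := hd.comp continuous_neg
  have h : ∀ t, μ.tri a b c t * deriv (μ.tri x0 x1 x2) t =
      b * (x2 - x1) * deriv μ.S t + (b * (x1 - x0) * deriv μ.S (-t) +
        ((c - b) * (x2 - x1) * (μ.S t * deriv μ.S t) +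
          ((c - b) * (x1 - x0) * (μ.S t * deriv μ.S (-t)) +
            (-((b - a) * (x2 - x1)) * (μ.S (-t) * deriv μ.S t) +
              -((b - a) * (x1 - x0)) * (μ.S (-t) * deriv μ.S (-t)))))) := by
    intro t
    rw [μ.deriv_tri]
    unfold tri
    ring
  unfold J
  rw [intervalIntegral.integral_congr fun t _ => h t]
  rw [intervalIntegral.integral_add, intervalIntegral.integral_add, intervalIntegral.integral_add,
    intervalIntegral.integral_add, intervalIntegral.integral_add]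
  · simp only [intervalIntegral.integral_const_mul]
    rw [μ.int1, μ.int2, μ.int3, μ.int4, μ.int5, μ.area]
    ring
  all_goals exact Continuous.intervalIntegrable (by fun_prop) _ _

theorem J_right (x0 x1 x2 a b c : ℝ) {v : ℝ} (h : μ.ep ≤ v) : μ.J x0 x1 x2 a b c v =
    (x2 - x1) * (b * (1 / 2 - v) + (c - b) * (1 / 4 - v ^ 2) / 2) := by
  have hep := μ.ep_lt
  have hep0 := μ.ep_pos
  unfold J
  have h1 : ∫ t in v..(1 / 2 : ℝ), μ.tri a b c t * deriv (μ.tri x0 x1 x2) t =
      ∫ t in v..(1 / 2 : ℝ), (b * (x2 - x1) + (c - b) * (x2 - x1) * t) := by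
    refine intervalIntegral.integral_congr fun t ht => ?_
    have ht' : μ.ep ≤ t := by
      have h2 := ht.1
      exact (le_min h (by linarith)).trans h2
    rw [μ.deriv_tri, μ.tri_right a b c ht', μ.deriv_right ht', μ.deriv_left (neg_le_neg ht')]
    ring
  rw [h1]
  have h2 : ∀ t ∈ Set.uIcc v (1 / 2 : ℝ), HasDerivAt
      (fun t => b * (x2 - x1) * t + (c - b) * (x2 - x1) * (t ^ 2 / 2))
      (b * (x2 - x1) + (c - b) * (x2 - x1) * t) t := by
    intro t _
    have h3 := ((hasDerivAt_id t).const_mul (b * (x2 - x1))).add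
      ((((hasDerivAt_id t).pow 2).div_const 2).const_mul ((c - b) * (x2 - x1)))
    refine h3.congr_deriv ?_
    simp
  rw [intervalIntegral.integral_eq_sub_of_hasDerivAt h2
    (Continuous.intervalIntegrable (by fun_prop) _ _)]
  ring

theorem J_left (x0 x1 x2 a b c : ℝ) {v : ℝ} (h : v ≤ -μ.ep) : μ.J x0 x1 x2 a b c v =
    μ.J x0 x1 x2 a b c (-(1 / 2)) - (x1 - x0) * (b * (v + 1 / 2) + (b - a) * (v ^ 2 - 1 / 4) / 2) := by
  have hep := μ.ep_lt
  have hep0 := μ.ep_pos
  have hg := μ.g_cont x0 x1 x2 a b c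
  have h0 : μ.J x0 x1 x2 a b c (-(1 / 2)) =
      (∫ t in (-(1 / 2) : ℝ)..v, μ.tri a b c t * deriv (μ.tri x0 x1 x2) t) + μ.J x0 x1 x2 a b c v := by
    unfold J
    rw [intervalIntegral.integral_add_adjacent_intervals (hg.intervalIntegrable _ _)
      (hg.intervalIntegrable _ _)]
  have h1 : ∫ t in (-(1 / 2) : ℝ)..v, μ.tri a b c t * deriv (μ.tri x0 x1 x2) t =
      ∫ t in (-(1 / 2) : ℝ)..v, (b * (x1 - x0) + (b - a) * (x1 - x0) * t) := by
    refine intervalIntegral.integral_congr fun t ht => ?_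
    have ht' : t ≤ -μ.ep := by
      have h2 := ht.2
      exact h2.trans (max_le (by linarith) h)
    rw [μ.deriv_tri, μ.tri_left a b c ht', μ.deriv_left ht', μ.deriv_right (le_neg_of_le_neg ht')]
    ring
  have h2 : ∀ t ∈ Set.uIcc (-(1 / 2) : ℝ) v, HasDerivAt
      (fun t => b * (x1 - x0) * t + (b - a) * (x1 - x0) * (t ^ 2 / 2))
      (b * (x1 - x0) + (b - a) * (x1 - x0) * t) t := by
    intro t _
    have h3 := ((hasDerivAt_id t).const_mul (b * (x1 - x0))).add
      ((((hasDerivAt_id t).pow 2).div_const 2).const_mul ((b - a) * (x1 - x0)))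
    refine h3.congr_deriv ?_
    simp
  rw [h1, intervalIntegral.integral_eq_sub_of_hasDerivAt h2
    (Continuous.intervalIntegrable (by fun_prop) _ _)] at h0
  rw [h0]
  ring

/-- `J` is a combination of three fixed smooth functions -/
theorem J_eq (x0 x1 x2 a b c v : ℝ) : μ.J x0 x1 x2 a b c v =
    a * μ.J x0 x1 x2 1 0 0 v + b * μ.J x0 x1 x2 0 1 0 v + c * μ.J x0 x1 x2 0 0 1 v := by
  have h1 := μ.J_linear x0 x1 x2 1 0 0 0 1 0 a b v
  have h2 := μ.J_linear x0 x1 x2 a b 0 0 0 1 1 c v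
  simp only [mul_one, mul_zero, add_zero, zero_add, one_mul] at h1 h2
  rw [h2, h1]

theorem J_contDiff (x0 x1 x2 a b c : ℝ) : ContDiff ℝ ∞ (μ.J x0 x1 x2 a b c) := by
  rw [contDiff_infty_iff_deriv]
  refine ⟨fun v => (μ.hasDerivAt_J x0 x1 x2 a b c v).differentiableAt, ?_⟩
  have h : deriv (μ.J x0 x1 x2 a b c) = fun v => -(μ.tri a b c v * deriv (μ.tri x0 x1 x2) v) :=
    funext fun v => (μ.hasDerivAt_J x0 x1 x2 a b c v).deriv
  rw [h]
  exact ((μ.tri_contDiff a b c).mul (contDiff_infty_iff_deriv.1 (μ.tri_contDiff x0 x1 x2)).2).neg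

end Moll

end Pool.Agent.Lib_MP_59ec1f_cap
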