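import Pool.Agent.Lib_MP_59ec1f_cap.CellTestDefs

/-!
# The test (R)
-/

set_option autoImplicit false

open scoped ContDiff

namespace Pool.Agent.Lib_MP_59ec1f_cap

namespace WC

variable (μ : Moll)

private theorem cellR_tri_abs (a b c G : ℝ) (hb : |b| ≤ G) (hbc : |(b + c) / 2| ≤ G) (hab : |(a + b) / 2| ≤ G)
    {t : ℝ} (ht : |t| ≤ 1 / 2) : |μ.tri a b c t| ≤ G := by
  have hQ := μ.Q_le_half ht
  have h1 := μ.nonneg t
  have h2 := μ.nonneg (-t)
  have hQe : μ.Q t = μ.S t + μ.S (-t) := rfl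
  rw [μ.tri_eq a b c t]
  have w1 : 0 ≤ 1 - 2 * μ.Q t := by linarith
  have e1 : |(1 - 2 * μ.Q t) * b| ≤ (1 - 2 * μ.Q t) * G := by
    rw [abs_mul, abs_of_nonneg w1]
    exact mul_le_mul_of_nonneg_left hb w1
  have e2 : |2 * μ.S t * ((b + c) / 2)| ≤ 2 * μ.S t * G := by
    rw [abs_mul, abs_of_nonneg (by linarith)]
    exact mul_le_mul_of_nonneg_left hbc (by linarith)
  have e3 : |2 * μ.S (-t) * ((a + b) / 2)| ≤ 2 * μ.S (-t) * G := by
    rw [abs_mul, abs_of_nonneg (by linarith)]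
    exact mul_le_mul_of_nonneg_left hab (by linarith)
  calc |(1 - 2 * μ.Q t) * b + 2 * μ.S t * ((b + c) / 2) + 2 * μ.S (-t) * ((a + b) / 2)|
      ≤ |(1 - 2 * μ.Q t) * b| + |2 * μ.S t * ((b + c) / 2)| + |2 * μ.S (-t) * ((a + b) / 2)| := abs_add_three _ _ _
    _ ≤ (1 - 2 * μ.Q t) * G + 2 * μ.S t * G + 2 * μ.S (-t) * G := by linarith
    _ = G := by rw [hQe]; ring

private theorem cellR_deriv_abs (x0 x1 x2 : ℝ) (h1 : |x2 - x1| ≤ 1) (h2 : |x1 - x0| ≤ 1) (t : ℝ) :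
    |deriv (μ.tri x0 x1 x2) t| ≤ 1 := by
  rw [(μ.hasDerivAt_tri x0 x1 x2 t).deriv]
  have p1 := μ.deriv_nonneg t
  have p2 := μ.deriv_nonneg (-t)
  have p3 := μ.deriv_refl t
  have e1 : |(x2 - x1) * deriv μ.S t| ≤ 1 * deriv μ.S t := by
    rw [abs_mul, abs_of_nonneg p1]
    exact mul_le_mul_of_nonneg_right h1 p1
  have e2 : |(x1 - x0) * deriv μ.S (-t)| ≤ 1 * deriv μ.S (-t) := by
    rw [abs_mul, abs_of_nonneg p2]
    exact mul_le_mul_of_nonneg_right h2 p2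
  calc |(x2 - x1) * deriv μ.S t + (x1 - x0) * deriv μ.S (-t)|
      ≤ |(x2 - x1) * deriv μ.S t| + |(x1 - x0) * deriv μ.S (-t)| := abs_add_le _ _
    _ ≤ 1 := by linarith

private theorem cellR_int_abs (x0 x1 x2 a b c G : ℝ) (h1 : |x2 - x1| ≤ 1) (h2 : |x1 - x0| ≤ 1) (hb : |b| ≤ G)
    (hbc : |(b + c) / 2| ≤ G) (hab : |(a + b) / 2| ≤ G) {p q : ℝ} (hp : |p| ≤ 1 / 2) (hq : |q| ≤ 1 / 2)
    (hpq : |q - p| ≤ 1 / 2) :
    |∫ t in p..q, μ.tri a b c t * deriv (μ.tri x0 x1 x2) t| ≤ G / 2 := by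
  have hG : 0 ≤ G := le_trans (abs_nonneg _) hb
  have key : ‖∫ t in p..q, μ.tri a b c t * deriv (μ.tri x0 x1 x2) t‖ ≤ G * |q - p| := by
    apply intervalIntegral.norm_integral_le_of_norm_le_const
    intro t ht
    have htt : |t| ≤ 1 / 2 := by
      rw [Set.uIoc, Set.mem_Ioc] at ht
      rw [abs_le] at hp hq ⊢
      constructor
      · exact le_trans (le_min hp.1 hq.1) ht.1.le
      · exact le_trans ht.2 (max_le hp.2 hq.2)
    rw [Real.norm_eq_abs, abs_mul]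
    calc |μ.tri a b c t| * |deriv (μ.tri x0 x1 x2) t| ≤ G * 1 :=
          mul_le_mul (cellR_tri_abs μ a b c G hb hbc hab htt) (cellR_deriv_abs μ x0 x1 x2 h1 h2 t) (abs_nonneg _) hG
      _ = G := mul_one G
  rw [Real.norm_eq_abs] at key
  calc _ ≤ G * |q - p| := key
    _ ≤ G * (1 / 2) := mul_le_mul_of_nonneg_left hpq hG
    _ = G / 2 := by ring

/-- the two values at the midpoints bound the increment of the primitive -/
private theorem cellR_bound (x0 x1 x2 a b c F0 F1 G : ℝ) (h1 : |x2 - x1| ≤ 1) (h2 : |x1 - x0| ≤ 1) (hb : |b| ≤ G)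
    (hbc : |(b + c) / 2| ≤ G) (hab : |(a + b) / 2| ≤ G)
    (hF : F1 - F0 = b * (x2 - x0) / 2 + ((c - b) * (x2 - x1) - (b - a) * (x1 - x0)) / 8 +
      ((c - b) * (x1 - x0) - (b - a) * (x2 - x1)) / 1600) {v : ℝ} (hv : |v| ≤ 1 / 2) :
    min F0 F1 - G / 2 ≤ F1 - μ.J x0 x1 x2 a b c v ∧ F1 - μ.J x0 x1 x2 a b c v ≤ max F0 F1 + G / 2 := by
  have hv' := abs_le.1 hv
  rcases le_total 0 v with h0 | h0
  · have hJ : |μ.J x0 x1 x2 a b c v| ≤ G / 2 := by
      unfold Moll.J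
      apply cellR_int_abs μ x0 x1 x2 a b c G h1 h2 hb hbc hab hv
      · rw [abs_of_nonneg (by norm_num)]
      · rw [abs_of_nonneg (by linarith)]; linarith
    have := abs_le.1 hJ
    constructor
    · have := min_le_right F0 F1
      linarith
    · have := le_max_right F0 F1
      linarith
  · have hc : Continuous fun t => μ.tri a b c t * deriv (μ.tri x0 x1 x2) t :=
      (μ.tri_contDiff a b c).continuous.mul ((μ.tri_contDiff x0 x1 x2).continuous_deriv (by simp))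
    have hsplit : μ.J x0 x1 x2 a b c (-(1 / 2)) =
        (∫ t in (-(1 / 2) : ℝ)..v, μ.tri a b c t * deriv (μ.tri x0 x1 x2) t) + μ.J x0 x1 x2 a b c v := by
      unfold Moll.J
      exact (intervalIntegral.integral_add_adjacent_intervals (hc.intervalIntegrable _ _)
        (hc.intervalIntegrable _ _)).symm
    have hI : |∫ t in (-(1 / 2) : ℝ)..v, μ.tri a b c t * deriv (μ.tri x0 x1 x2) t| ≤ G / 2 := by
      apply cellR_int_abs μ x0 x1 x2 a b c G h1 h2 hb hbc hab _ hv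
      · rw [abs_of_nonneg (by linarith)]; linarith
      · rw [abs_neg, abs_of_nonneg (by norm_num)]
    have hT := μ.J_total x0 x1 x2 a b c
    have hI' := abs_le.1 hI
    have e : F1 - μ.J x0 x1 x2 a b c v =
        F0 + ∫ t in (-(1 / 2) : ℝ)..v, μ.tri a b c t * deriv (μ.tri x0 x1 x2) t := by
      linarith
    rw [e]
    constructor
    · have := min_le_left F0 F1
      linarith
    · have := le_max_left F0 F1
      linarith

/-- the increments of `F` at the parameter `v` -/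
private noncomputable def cellRdF (C : WC) (e : Bool) (v : ℝ) : ℝ :=
  (C.f1.inc e : ℝ) / 1600 - μ.J C.x0 C.x1 C.x2 (C.y0.inc e) (C.y1.inc e) (C.y2.inc e) v

private theorem cellR_der (z : Z3) (u : ℝ) :
    z.der μ u = deriv μ.S u * (z.inc true : ℝ) + deriv μ.S (-u) * (z.inc false : ℝ) := by
  simp only [Z3.der, Z3.inc]
  push_cast
  ring

private theorem cellR_tau (C : WC) (v u : ℝ) :
    (C.pt μ v u).2.2 = deriv μ.S u * cellRdF μ C true v + deriv μ.S (-u) * cellRdF μ C false v := by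
  have hJ := μ.J_linear C.x0 C.x1 C.x2 (C.y0.inc true) (C.y1.inc true) (C.y2.inc true)
    (C.y0.inc false) (C.y1.inc false) (C.y2.inc false) (deriv μ.S u) (deriv μ.S (-u)) v
  simp only [pt, cellRdF]
  rw [cellR_der μ C.y0 u, cellR_der μ C.y1 u, cellR_der μ C.y2 u, cellR_der μ C.f1 u, hJ]
  ring

private theorem cellR_ok (C : WC) (ok : C.ok = true) (e : Bool) :
    (C.f1.inc e : ℝ) / 1600 - (C.f0.inc e : ℝ) / 1600 =
      (C.y1.inc e : ℝ) * ((C.x2 : ℝ) - C.x0) / 2 +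
      (((C.y2.inc e : ℝ) - C.y1.inc e) * ((C.x2 : ℝ) - C.x1) - ((C.y1.inc e : ℝ) - C.y0.inc e) * ((C.x1 : ℝ) - C.x0)) / 8 +
      (((C.y2.inc e : ℝ) - C.y1.inc e) * ((C.x1 : ℝ) - C.x0) -
        ((C.y1.inc e : ℝ) - C.y0.inc e) * ((C.x2 : ℝ) - C.x1)) / 1600 := by
  simp only [WC.ok, okAt, Bool.and_eq_true, beq_iff_eq] at ok
  obtain ⟨⟨ha, hb⟩, hc⟩ := ok
  have ha' : (C.f1.a : ℝ) - C.f0.a = 800 * C.y1.a * (C.x2 - C.x0) +
      200 * ((C.y2.a - C.y1.a) * (C.x2 - C.x1) - (C.y1.a - C.y0.a) * (C.x1 - C.x0)) +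
      ((C.y2.a - C.y1.a) * (C.x1 - C.x0) - (C.y1.a - C.y0.a) * (C.x2 - C.x1)) := by exact_mod_cast ha
  have hb' : (C.f1.b : ℝ) - C.f0.b = 800 * C.y1.b * (C.x2 - C.x0) +
      200 * ((C.y2.b - C.y1.b) * (C.x2 - C.x1) - (C.y1.b - C.y0.b) * (C.x1 - C.x0)) +
      ((C.y2.b - C.y1.b) * (C.x1 - C.x0) - (C.y1.b - C.y0.b) * (C.x2 - C.x1)) := by exact_mod_cast hb
  have hc' : (C.f1.c : ℝ) - C.f0.c = 800 * C.y1.c * (C.x2 - C.x0) +
      200 * ((C.y2.c - C.y1.c) * (C.x2 - C.x1) - (C.y1.c - C.y0.c) * (C.x1 - C.x0)) +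
      ((C.y2.c - C.y1.c) * (C.x1 - C.x0) - (C.y1.c - C.y0.c) * (C.x2 - C.x1)) := by exact_mod_cast hc
  cases e
  · simp only [Z3.inc]
    push_cast
    linear_combination (hb' - ha') / 1600
  · simp only [Z3.inc]
    push_cast
    linear_combination (hc' - hb') / 1600

private theorem cellR_x (C : WC) (h : C.straight = true ∨ C.fold = true) :
    |(C.x2 : ℝ) - C.x1| ≤ 1 ∧ |(C.x1 : ℝ) - C.x0| ≤ 1 := by
  have key : |C.x2 - C.x1| ≤ 1 ∧ |C.x1 - C.x0| ≤ 1 := by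
    rcases h with h | h
    · simp only [straight, Bool.or_eq_true, Bool.and_eq_true, beq_iff_eq] at h
      rcases h with ⟨h1, h2⟩ | ⟨h1, h2⟩ <;> rw [h1, h2] <;> norm_num
    · simp only [fold, Bool.or_eq_true, Bool.and_eq_true, beq_iff_eq] at h
      obtain ⟨⟨h1, h2⟩, -⟩ := h
      have h3 : C.x2 - C.x1 = -(C.x1 - C.x0) := by rw [← h1]; ring
      rw [h3, abs_neg]
      rcases h2 with h2 | h2 <;> rw [h2] <;> norm_num
  constructor
  · exact_mod_cast key.1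
  · exact_mod_cast key.2

private theorem cellR_g (C : WC) (e : Bool) :
    |(C.y1.inc e : ℝ)| ≤ (C.gmax e : ℝ) / 2 ∧ |((C.y1.inc e : ℝ) + C.y2.inc e) / 2| ≤ (C.gmax e : ℝ) / 2 ∧
      |((C.y0.inc e : ℝ) + C.y1.inc e) / 2| ≤ (C.gmax e : ℝ) / 2 := by
  have a1 : 2 * |C.y1.inc e| ≤ C.gmax e := le_max_left _ _
  have a2 : |C.y0.inc e + C.y1.inc e| ≤ C.gmax e := le_trans (le_max_left _ _) (le_max_right _ _)
  have a3 : |C.y1.inc e + C.y2.inc e| ≤ C.gmax e := le_trans (le_max_right _ _) (le_max_right _ _)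
  have b1 : 2 * |(C.y1.inc e : ℝ)| ≤ (C.gmax e : ℝ) := by exact_mod_cast a1
  have b2 : |(C.y0.inc e : ℝ) + C.y1.inc e| ≤ (C.gmax e : ℝ) := by exact_mod_cast a2
  have b3 : |(C.y1.inc e : ℝ) + C.y2.inc e| ≤ (C.gmax e : ℝ) := by exact_mod_cast a3
  refine ⟨by linarith, ?_, ?_⟩
  · rw [abs_div, abs_of_pos (by norm_num : (0 : ℝ) < 2)]
    exact div_le_div_of_nonneg_right b3 (by norm_num)
  · rw [abs_div, abs_of_pos (by norm_num : (0 : ℝ) < 2)]
    exact div_le_div_of_nonneg_right b2 (by norm_num)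

private theorem cellR_dF (C : WC) (h : C.straight = true ∨ C.fold = true) (ok : C.ok = true) (e : Bool) {v : ℝ}
    (hv : |v| ≤ 1 / 2) :
    (((min (C.f0.inc e) (C.f1.inc e) - 400 * C.gmax e : ℤ)) : ℝ) / 1600 ≤ cellRdF μ C e v ∧
      cellRdF μ C e v ≤ (((max (C.f0.inc e) (C.f1.inc e) + 400 * C.gmax e : ℤ)) : ℝ) / 1600 := by
  obtain ⟨g1, g2, g3⟩ := cellR_g C e
  obtain ⟨k1, k2⟩ := cellR_x C h
  have hb := cellR_bound μ C.x0 C.x1 C.x2 (C.y0.inc e) (C.y1.inc e) (C.y2.inc e) ((C.f0.inc e : ℝ) / 1600)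
    ((C.f1.inc e : ℝ) / 1600) ((C.gmax e : ℝ) / 2) k1 k2 g1 g2 g3 (cellR_ok C ok e) hv
  have m1 : min ((C.f0.inc e : ℝ) / 1600) ((C.f1.inc e : ℝ) / 1600) = (min (C.f0.inc e : ℝ) (C.f1.inc e)) / 1600 :=
    (min_div_div_right (by norm_num) _ _)
  have m2 : max ((C.f0.inc e : ℝ) / 1600) ((C.f1.inc e : ℝ) / 1600) = (max (C.f0.inc e : ℝ) (C.f1.inc e)) / 1600 :=
    (max_div_div_right (by norm_num) _ _)
  rw [m1, m2] at hb
  push_cast
  unfold cellRdF
  constructor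
  · linarith [hb.1]
  · linarith [hb.2]

/-- (R): for any cell with `|x2 - x1| = |x1 - x0| = 1`, `δF v` is within `(1/2) max |g|` of the value at the midpoint on
the same side (`|x'| ≤ 1`). -/
theorem tauR_sound (C D : WC) (hC : C.straight = true ∨ C.fold = true) (hD : D.straight = true ∨ D.fold = true)
    (okC : C.ok = true) (okD : D.ok = true) (h0 : C.tauR D false = true) (h1 : C.tauR D true = true)
    {v v' u : ℝ} (hv : |v| ≤ 1 / 2) (hv' : |v'| ≤ 1 / 2) (hu : |u| ≤ 1 / 2) :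
    (D.pt μ v' u).2.2 < (C.pt μ v u).2.2 := by
  have step : ∀ e : Bool, C.tauR D e = true → cellRdF μ D e v' < cellRdF μ C e v := by
    intro e he
    simp only [tauR, decide_eq_true_eq] at he
    have he' : (((max (D.f0.inc e) (D.f1.inc e) + 400 * D.gmax e : ℤ)) : ℝ) <
        (((min (C.f0.inc e) (C.f1.inc e) - 400 * C.gmax e : ℤ)) : ℝ) := by exact_mod_cast he
    have c1 := (cellR_dF μ C hC okC e hv).1
    have c2 := (cellR_dF μ D hD okD e hv').2
    linarith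
  have s0 := step false h0
  have s1 := step true h1
  rw [cellR_tau μ C v u, cellR_tau μ D v' u]
  have p1 := μ.deriv_nonneg u
  have p2 := μ.deriv_nonneg (-u)
  have p3 := μ.deriv_refl u
  have q1 : 0 ≤ deriv μ.S u * (cellRdF μ C true v - cellRdF μ D true v') := mul_nonneg p1 (by linarith)
  have q2 : 0 ≤ deriv μ.S (-u) * (cellRdF μ C false v - cellRdF μ D false v') := mul_nonneg p2 (by linarith)
  rcases p1.eq_or_lt with hz | hz
  · have hone : deriv μ.S (-u) = 1 := by linarith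
    rw [hone, ← hz]
    linarith
  · have q3 : 0 < deriv μ.S u * (cellRdF μ C true v - cellRdF μ D true v') := mul_pos hz (by linarith)
    nlinarith [q3, q2]

end WC

end Pool.Agent.Lib_MP_59ec1f_cap
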