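import Pool.Agent.Lib_MP_59ec1f_cap.CellTestDefs
import Pool.Agent.Lib_MP_59ec1f_cap.CellEdge

/-!
# The test (T)
-/

set_option autoImplicit false

open scoped ContDiff

namespace Pool.Agent.Lib_MP_59ec1f_cap

namespace WC

variable (μ : Moll)

private theorem CellT_cont (a b c : ℝ) : Continuous (μ.tri a b c) := (μ.tri_contDiff a b c).continuous

/-- the integral of a straight cell -/
private theorem CellT_J (x a b c v : ℝ) :
    μ.J (x - 1) x (x + 1) a b c v = ∫ t in v..(1 / 2 : ℝ), μ.tri a b c t := by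
  unfold Moll.J
  refine intervalIntegral.integral_congr fun t _ => ?_
  have h : deriv (μ.tri (x - 1) x (x + 1)) t = 1 := by
    rw [(μ.hasDerivAt_tri (x - 1) x (x + 1) t).deriv]
    have h1 := μ.deriv_refl t
    linear_combination h1
  show μ.tri a b c t * deriv (μ.tri (x - 1) x (x + 1)) t = μ.tri a b c t
  rw [h, mul_one]

private theorem CellT_le {a b c M t : ℝ} (ht : |t| ≤ 1 / 2) (h1 : b ≤ M) (h2 : (b + c) / 2 ≤ M)
    (h3 : (a + b) / 2 ≤ M) : μ.tri a b c t ≤ M := by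
  have h := μ.tri_nonneg (a := M - a) (b := M - b) (c := M - c) ht (by linarith) (by linarith) (by linarith)
  unfold Moll.tri at h ⊢
  linarith

private theorem CellT_right {a b c M w : ℝ} (h0 : 0 ≤ w) (hw : w ≤ 1 / 2) (hM : 0 ≤ M) (h1 : b ≤ M)
    (h2 : (b + c) / 2 ≤ M) (h3 : (a + b) / 2 ≤ M) : ∫ t in w..(1 / 2 : ℝ), μ.tri a b c t ≤ M / 2 := by
  have h4 : ∫ t in w..(1 / 2 : ℝ), μ.tri a b c t ≤ ∫ _t in w..(1 / 2 : ℝ), M := by
    refine intervalIntegral.integral_mono_on hw ((CellT_cont μ a b c).intervalIntegrable _ _)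
      (continuous_const.intervalIntegrable _ _) fun t ht => ?_
    exact CellT_le μ (abs_le.2 ⟨by linarith [ht.1], ht.2⟩) h1 h2 h3
  rw [intervalIntegral.integral_const, smul_eq_mul] at h4
  nlinarith

private theorem CellT_left {a b c M w : ℝ} (h0 : w ≤ 0) (hw : -(1 / 2) ≤ w) (hM : 0 ≤ M) (h1 : -b ≤ M)
    (h2 : -((b + c) / 2) ≤ M) (h3 : -((a + b) / 2) ≤ M) :
    -(M / 2) ≤ ∫ t in (-(1 / 2) : ℝ)..w, μ.tri a b c t := by
  have h4 : ∫ _t in (-(1 / 2) : ℝ)..w, (-M) ≤ ∫ t in (-(1 / 2) : ℝ)..w, μ.tri a b c t := by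
    refine intervalIntegral.integral_mono_on hw (continuous_const.intervalIntegrable _ _)
      ((CellT_cont μ a b c).intervalIntegrable _ _) fun t ht => ?_
    have h5 := CellT_le μ (a := -a) (b := -b) (c := -c) (M := M) (t := t)
      (abs_le.2 ⟨ht.1, by linarith [ht.2]⟩) h1 (by linarith) (by linarith)
    unfold Moll.tri at h5 ⊢
    linarith
  rw [intervalIntegral.integral_const, smul_eq_mul] at h4
  nlinarith

/-- positivity of `dr / 1600 - ∫ g` -/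
private theorem CellT_pos {x g0 g1 g2 dr dl w : ℝ} (hw : |w| ≤ 1 / 2)
    (hrel : dr - dl = 1600 * g1 + 201 * (g0 - 2 * g1 + g2)) (a0 : 0 < dr) (a1 : 800 * g1 < dr)
    (a2 : 400 * (g0 + g1) < dr) (a3 : 400 * (g1 + g2) < dr) (b0 : 0 < dl) (b1 : -(800 * g1) < dl)
    (b2 : -(400 * (g0 + g1)) < dl) (b3 : -(400 * (g1 + g2)) < dl) :
    0 < dr / 1600 - μ.J (x - 1) x (x + 1) g0 g1 g2 w := by
  obtain ⟨hw1, hw2⟩ := abs_le.1 hw
  rcases le_total 0 w with h | h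
  · rw [CellT_J]
    obtain ⟨M, hM, m0, m1, m2, m3⟩ : ∃ M : ℝ, M < dr / 800 ∧ 0 ≤ M ∧ g1 ≤ M ∧ (g1 + g2) / 2 ≤ M ∧
        (g0 + g1) / 2 ≤ M := by
      refine ⟨max 0 (max g1 (max ((g1 + g2) / 2) ((g0 + g1) / 2))), ?_, le_max_left _ _, ?_, ?_, ?_⟩
      · refine max_lt (by linarith) (max_lt (by linarith) (max_lt (by linarith) (by linarith)))
      · exact (le_max_left _ _).trans (le_max_right _ _)
      · exact ((le_max_left _ _).trans (le_max_right _ _)).trans (le_max_right _ _)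
      · exact ((le_max_right _ _).trans (le_max_right _ _)).trans (le_max_right _ _)
    have h5 := CellT_right μ h hw2 m0 m1 m2 m3
    linarith
  · have ht := μ.J_total (x - 1) x (x + 1) g0 g1 g2
    rw [CellT_J] at ht ⊢
    have hs := intervalIntegral.integral_add_adjacent_intervals (μ := MeasureTheory.volume)
      ((CellT_cont μ g0 g1 g2).intervalIntegrable (-(1 / 2)) w)
      ((CellT_cont μ g0 g1 g2).intervalIntegrable w (1 / 2))
    obtain ⟨M, hM, m0, m1, m2, m3⟩ : ∃ M : ℝ, M < dl / 800 ∧ 0 ≤ M ∧ -g1 ≤ M ∧ -((g1 + g2) / 2) ≤ M ∧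
        -((g0 + g1) / 2) ≤ M := by
      refine ⟨max 0 (max (-g1) (max (-((g1 + g2) / 2)) (-((g0 + g1) / 2)))), ?_, le_max_left _ _, ?_, ?_, ?_⟩
      · refine max_lt (by linarith) (max_lt (by linarith) (max_lt (by linarith) (by linarith)))
      · exact (le_max_left _ _).trans (le_max_right _ _)
      · exact ((le_max_left _ _).trans (le_max_right _ _)).trans (le_max_right _ _)
      · exact ((le_max_right _ _).trans (le_max_right _ _)).trans (le_max_right _ _)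
    have h5 := CellT_left μ h hw1 m0 m1 m2 m3
    have e : (∫ t in (-(1 / 2) : ℝ)..(1 / 2), μ.tri g0 g1 g2 t) = (dr - dl) / 1600 := by
      rw [ht, hrel]
      ring
    rw [e] at hs
    linarith

/-- the relation of the primitives, read from left to right -/
private theorem CellT_ok {x0 x1 x2 y0 y1 y2 f0 f1 : ℤ} (h : okAt x0 x1 x2 y0 y1 y2 f0 f1 = true)
    (h0 : x0 = x1 - 1) (h2 : x2 = x1 + 1) : f1 - f0 = 1600 * y1 + 201 * (y0 - 2 * y1 + y2) := by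
  unfold okAt at h
  rw [beq_iff_eq] at h
  rw [h, h0, h2]
  ring

private theorem CellT_okflip {x0 x1 x2 y0 y1 y2 f0 f1 : ℤ} (h : okAt x0 x1 x2 y0 y1 y2 f0 f1 = true) :
    okAt x2 x1 x0 y2 y1 y0 f1 f0 = true := by
  unfold okAt at h ⊢
  rw [beq_iff_eq] at h ⊢
  have h' : f0 - f1 = -(f1 - f0) := by ring
  rw [h', h]
  ring

/-- a straight cell, read from left to right -/
private theorem CellT_lr (C : WC) (hC : C.straight = true) (ok : C.ok = true) {v : ℝ} (hv : |v| ≤ 1 / 2) (u : ℝ) :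
    C.lr.x0 = C.x1 - 1 ∧ C.lr.x1 = C.x1 ∧ C.lr.x2 = C.x1 + 1 ∧ C.lr.ok = true ∧
    ∃ w : ℝ, |w| ≤ 1 / 2 ∧ (C.pt μ v u).1 = C.x1 + w ∧ (C.pt μ v u).2.2 = (C.lr.pt μ w u).2.2 := by
  simp only [WC.straight, Bool.or_eq_true, Bool.and_eq_true, beq_iff_eq] at hC
  rcases hC with ⟨h1, h2⟩ | ⟨h1, h2⟩
  · have e : C.lr = C := by
      unfold WC.lr
      rw [if_pos (by simp [h1])]
    rw [e]
    refine ⟨by omega, rfl, by omega, ok, v, hv, ?_, rfl⟩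
    have e0 : (C.x0 : ℝ) = (C.x1 : ℝ) - 1 := by
      have : C.x0 = C.x1 - 1 := by omega
      rw [this]
      push_cast
      ring
    have e2 : (C.x2 : ℝ) = (C.x1 : ℝ) + 1 := by
      have : C.x2 = C.x1 + 1 := by omega
      rw [this]
      push_cast
      ring
    change μ.tri C.x0 C.x1 C.x2 v = _
    rw [e0, e2, μ.tri_straight, one_mul]
  · have e : C.lr = ⟨C.x2, C.x1, C.x0, C.y2, C.y1, C.y0, C.f1, C.f0⟩ := by
      unfold WC.lr
      rw [if_neg (by simp [h1])]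
    have ok' := ok
    unfold WC.ok at ok'
    rw [Bool.and_eq_true, Bool.and_eq_true] at ok'
    obtain ⟨⟨oa, ob⟩, oc⟩ := ok'
    rw [e]
    refine ⟨by show C.x2 = _; omega, rfl, by show C.x0 = _; omega, ?_, -v, by rwa [abs_neg], ?_, ?_⟩
    · unfold WC.ok
      rw [Bool.and_eq_true, Bool.and_eq_true]
      exact ⟨⟨CellT_okflip oa, CellT_okflip ob⟩, CellT_okflip oc⟩
    · have e0 : (C.x0 : ℝ) = (C.x1 : ℝ) - (-1) := by
        have : C.x0 = C.x1 + 1 := by omega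
        rw [this]
        push_cast
        ring
      have e2 : (C.x2 : ℝ) = (C.x1 : ℝ) + (-1) := by
        have : C.x2 = C.x1 - 1 := by omega
        rw [this]
        push_cast
        ring
      change μ.tri C.x0 C.x1 C.x2 v = _
      rw [e0, e2, μ.tri_straight]
      ring
    · change C.f1.der μ u / 1600 - μ.J C.x0 C.x1 C.x2 (C.y0.der μ u) (C.y1.der μ u) (C.y2.der μ u) v =
        C.f0.der μ u / 1600 - μ.J C.x2 C.x1 C.x0 (C.y2.der μ u) (C.y1.der μ u) (C.y0.der μ u) (-v)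
      rw [μ.J_flip C.x0 C.x1 C.x2 (C.y0.der μ u) (C.y1.der μ u) (C.y2.der μ u) (-v), neg_neg, μ.J_total]
      unfold okAt at oa ob oc
      rw [beq_iff_eq] at oa ob oc
      have oa' := congrArg (Int.cast : ℤ → ℝ) oa
      have ob' := congrArg (Int.cast : ℤ → ℝ) ob
      have oc' := congrArg (Int.cast : ℤ → ℝ) oc
      push_cast at oa' ob' oc'
      unfold Z3.der
      linear_combination (deriv μ.S u / 1600) * oc' - (deriv μ.S u / 1600) * ob' +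
        (deriv μ.S (-u) / 1600) * ob' - (deriv μ.S (-u) / 1600) * oa'

/-- (T): `τ` is `S' u` times `δF` after the node plus `S' (-u)` times `δF` before the node. For the straight cells read from left
to right and the same `x` (same `v`), `δF_C - δF_D = dr / 1600 - ∫ t in v..1/2, g t`, `g = tri (g0, g1, g2)`, which for
`v ≥ 0` is at least `dr / 1600 - (1/2) max (0, g1, (g1 + g2)/2, (g0 + g1)/2) > 0`; for `v ≤ 0` use the left midpoint. -/
theorem tauT_sound (C D : WC) (hC : C.straight = true) (hD : D.straight = true) (okC : C.ok = true)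
    (okD : D.ok = true) (hx : C.x1 = D.x1) (h0 : C.tauT D false = true) (h1 : C.tauT D true = true) {v v' u : ℝ}
    (hv : |v| ≤ 1 / 2) (hv' : |v'| ≤ 1 / 2) (hu : |u| ≤ 1 / 2) (e : (C.pt μ v u).1 = (D.pt μ v' u).1) :
    (D.pt μ v' u).2.2 < (C.pt μ v u).2.2 := by
  obtain ⟨c0, c1, c2, cok, w, hw, ex, et⟩ := CellT_lr μ C hC okC hv u
  obtain ⟨d0, d1, d2, dok, w', hw', ex', et'⟩ := CellT_lr μ D hD okD hv' u
  have hww : w = w' := by
    rw [ex, ex', hx] at e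
    linarith
  subst hww
  rw [et, et']
  unfold WC.tauT at h0 h1
  generalize C.lr = C' at *
  generalize D.lr = D' at *
  unfold WC.ok at cok dok
  rw [Bool.and_eq_true, Bool.and_eq_true] at cok dok
  obtain ⟨⟨ca, cb⟩, cc⟩ := cok
  obtain ⟨⟨da, db⟩, dc⟩ := dok
  have ca := CellT_ok ca (by omega) (by omega)
  have cb := CellT_ok cb (by omega) (by omega)
  have cc := CellT_ok cc (by omega) (by omega)
  have da := CellT_ok da (by omega) (by omega)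
  have db := CellT_ok db (by omega) (by omega)
  have dc := CellT_ok dc (by omega) (by omega)
  simp only [Bool.and_eq_true, decide_eq_true_eq, Z3.inc] at h0 h1
  obtain ⟨⟨⟨⟨⟨⟨⟨p0, p1⟩, p2⟩, p3⟩, p4⟩, p5⟩, p6⟩, p7⟩ := h0
  obtain ⟨⟨⟨⟨⟨⟨⟨q0, q1⟩, q2⟩, q3⟩, q4⟩, q5⟩, q6⟩, q7⟩ := h1
  have F := CellT_pos μ (x := (C.x1 : ℝ)) (g0 := (((C'.y0.b - C'.y0.a) - (D'.y0.b - D'.y0.a) : ℤ) : ℝ))
    (g1 := (((C'.y1.b - C'.y1.a) - (D'.y1.b - D'.y1.a) : ℤ) : ℝ))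
    (g2 := (((C'.y2.b - C'.y2.a) - (D'.y2.b - D'.y2.a) : ℤ) : ℝ))
    (dr := (((C'.f1.b - C'.f1.a) - (D'.f1.b - D'.f1.a) : ℤ) : ℝ))
    (dl := (((C'.f0.b - C'.f0.a) - (D'.f0.b - D'.f0.a) : ℤ) : ℝ)) hw
    (by exact_mod_cast (by linarith : ((C'.f1.b - C'.f1.a) - (D'.f1.b - D'.f1.a)) -
          ((C'.f0.b - C'.f0.a) - (D'.f0.b - D'.f0.a)) = 1600 * ((C'.y1.b - C'.y1.a) - (D'.y1.b - D'.y1.a)) +
          201 * (((C'.y0.b - C'.y0.a) - (D'.y0.b - D'.y0.a)) - 2 * ((C'.y1.b - C'.y1.a) - (D'.y1.b - D'.y1.a)) +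
            ((C'.y2.b - C'.y2.a) - (D'.y2.b - D'.y2.a)))))
    (by exact_mod_cast p0) (by exact_mod_cast p1) (by exact_mod_cast p2) (by exact_mod_cast p3)
    (by exact_mod_cast p4) (by exact_mod_cast p5) (by exact_mod_cast p6) (by exact_mod_cast p7)
  have T := CellT_pos μ (x := (C.x1 : ℝ)) (g0 := (((C'.y0.c - C'.y0.b) - (D'.y0.c - D'.y0.b) : ℤ) : ℝ))
    (g1 := (((C'.y1.c - C'.y1.b) - (D'.y1.c - D'.y1.b) : ℤ) : ℝ))
    (g2 := (((C'.y2.c - C'.y2.b) - (D'.y2.c - D'.y2.b) : ℤ) : ℝ))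
    (dr := (((C'.f1.c - C'.f1.b) - (D'.f1.c - D'.f1.b) : ℤ) : ℝ))
    (dl := (((C'.f0.c - C'.f0.b) - (D'.f0.c - D'.f0.b) : ℤ) : ℝ)) hw
    (by exact_mod_cast (by linarith : ((C'.f1.c - C'.f1.b) - (D'.f1.c - D'.f1.b)) -
          ((C'.f0.c - C'.f0.b) - (D'.f0.c - D'.f0.b)) = 1600 * ((C'.y1.c - C'.y1.b) - (D'.y1.c - D'.y1.b)) +
          201 * (((C'.y0.c - C'.y0.b) - (D'.y0.c - D'.y0.b)) - 2 * ((C'.y1.c - C'.y1.b) - (D'.y1.c - D'.y1.b)) +
            ((C'.y2.c - C'.y2.b) - (D'.y2.c - D'.y2.b)))))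
    (by exact_mod_cast q0) (by exact_mod_cast q1) (by exact_mod_cast q2) (by exact_mod_cast q3)
    (by exact_mod_cast q4) (by exact_mod_cast q5) (by exact_mod_cast q6) (by exact_mod_cast q7)
  have X0 : (C'.x0 : ℝ) = (C.x1 : ℝ) - 1 := by
    rw [c0]
    push_cast
    ring
  have X2 : (C'.x2 : ℝ) = (C.x1 : ℝ) + 1 := by
    rw [c2]
    push_cast
    ring
  have Y0 : (D'.x0 : ℝ) = (C.x1 : ℝ) - 1 := by
    rw [d0, hx]
    push_cast
    ring
  have Y2 : (D'.x2 : ℝ) = (C.x1 : ℝ) + 1 := by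
    rw [d2, hx]
    push_cast
    ring
  have Y1 : (D'.x1 : ℝ) = (C.x1 : ℝ) := by rw [d1, hx]
  change D'.f1.der μ u / 1600 - μ.J D'.x0 D'.x1 D'.x2 (D'.y0.der μ u) (D'.y1.der μ u) (D'.y2.der μ u) w <
    C'.f1.der μ u / 1600 - μ.J C'.x0 C'.x1 C'.x2 (C'.y0.der μ u) (C'.y1.der μ u) (C'.y2.der μ u) w
  rw [X0, X2, Y0, Y1, Y2, c1]
  have k0 := μ.deriv_nonneg u
  have k1 := μ.deriv_nonneg (-u)
  have k2 := μ.deriv_refl u
  have J1 := μ.J_linear ((C.x1 : ℝ) - 1) C.x1 ((C.x1 : ℝ) + 1) (C'.y0.der μ u) (C'.y1.der μ u) (C'.y2.der μ u)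
    (D'.y0.der μ u) (D'.y1.der μ u) (D'.y2.der μ u) 1 (-1) w
  have J2 := μ.J_linear ((C.x1 : ℝ) - 1) C.x1 ((C.x1 : ℝ) + 1)
    (((C'.y0.c - C'.y0.b) - (D'.y0.c - D'.y0.b) : ℤ) : ℝ) (((C'.y1.c - C'.y1.b) - (D'.y1.c - D'.y1.b) : ℤ) : ℝ)
    (((C'.y2.c - C'.y2.b) - (D'.y2.c - D'.y2.b) : ℤ) : ℝ)
    (((C'.y0.b - C'.y0.a) - (D'.y0.b - D'.y0.a) : ℤ) : ℝ) (((C'.y1.b - C'.y1.a) - (D'.y1.b - D'.y1.a) : ℤ) : ℝ)
    (((C'.y2.b - C'.y2.a) - (D'.y2.b - D'.y2.a) : ℤ) : ℝ) (deriv μ.S u) (deriv μ.S (-u)) w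
  have e0 : (1 : ℝ) * C'.y0.der μ u + -1 * D'.y0.der μ u =
      deriv μ.S u * (((C'.y0.c - C'.y0.b) - (D'.y0.c - D'.y0.b) : ℤ) : ℝ) +
        deriv μ.S (-u) * (((C'.y0.b - C'.y0.a) - (D'.y0.b - D'.y0.a) : ℤ) : ℝ) := by
    unfold Z3.der
    push_cast
    ring
  have e1 : (1 : ℝ) * C'.y1.der μ u + -1 * D'.y1.der μ u =
      deriv μ.S u * (((C'.y1.c - C'.y1.b) - (D'.y1.c - D'.y1.b) : ℤ) : ℝ) +
        deriv μ.S (-u) * (((C'.y1.b - C'.y1.a) - (D'.y1.b - D'.y1.a) : ℤ) : ℝ) := by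
    unfold Z3.der
    push_cast
    ring
  have e2 : (1 : ℝ) * C'.y2.der μ u + -1 * D'.y2.der μ u =
      deriv μ.S u * (((C'.y2.c - C'.y2.b) - (D'.y2.c - D'.y2.b) : ℤ) : ℝ) +
        deriv μ.S (-u) * (((C'.y2.b - C'.y2.a) - (D'.y2.b - D'.y2.a) : ℤ) : ℝ) := by
    unfold Z3.der
    push_cast
    ring
  rw [e0, e1, e2, J2] at J1
  have ef : C'.f1.der μ u - D'.f1.der μ u =
      deriv μ.S u * (((C'.f1.c - C'.f1.b) - (D'.f1.c - D'.f1.b) : ℤ) : ℝ) +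
        deriv μ.S (-u) * (((C'.f1.b - C'.f1.a) - (D'.f1.b - D'.f1.a) : ℤ) : ℝ) := by
    unfold Z3.der
    push_cast
    ring
  generalize μ.J ((C.x1 : ℝ) - 1) C.x1 ((C.x1 : ℝ) + 1)
    (((C'.y0.c - C'.y0.b) - (D'.y0.c - D'.y0.b) : ℤ) : ℝ) (((C'.y1.c - C'.y1.b) - (D'.y1.c - D'.y1.b) : ℤ) : ℝ)
    (((C'.y2.c - C'.y2.b) - (D'.y2.c - D'.y2.b) : ℤ) : ℝ) w = JT at *
  generalize μ.J ((C.x1 : ℝ) - 1) C.x1 ((C.x1 : ℝ) + 1)
    (((C'.y0.b - C'.y0.a) - (D'.y0.b - D'.y0.a) : ℤ) : ℝ) (((C'.y1.b - C'.y1.a) - (D'.y1.b - D'.y1.a) : ℤ) : ℝ)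
    (((C'.y2.b - C'.y2.a) - (D'.y2.b - D'.y2.a) : ℤ) : ℝ) w = JF at *
  generalize (((C'.f1.c - C'.f1.b) - (D'.f1.c - D'.f1.b) : ℤ) : ℝ) = DT at *
  generalize (((C'.f1.b - C'.f1.a) - (D'.f1.b - D'.f1.a) : ℤ) : ℝ) = DF at *
  have hm : 0 < min (DT / 1600 - JT) (DF / 1600 - JF) := lt_min T F
  have m1 : deriv μ.S u * min (DT / 1600 - JT) (DF / 1600 - JF) ≤ deriv μ.S u * (DT / 1600 - JT) :=
    mul_le_mul_of_nonneg_left (min_le_left _ _) k0
  have m2 : deriv μ.S (-u) * min (DT / 1600 - JT) (DF / 1600 - JF) ≤ deriv μ.S (-u) * (DF / 1600 - JF) :=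
    mul_le_mul_of_nonneg_left (min_le_right _ _) k1
  have m3 : deriv μ.S u * min (DT / 1600 - JT) (DF / 1600 - JF) +
      deriv μ.S (-u) * min (DT / 1600 - JT) (DF / 1600 - JF) = min (DT / 1600 - JT) (DF / 1600 - JF) := by
    rw [← add_mul, k2, one_mul]
  linarith

end WC

end Pool.Agent.Lib_MP_59ec1f_cap
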