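import Pool.Agent.Lib_MP_59ec1f_cap.CellHull
import Pool.Agent.Lib_MP_59ec1f_cap.CellA
import Pool.Agent.Lib_MP_59ec1f_cap.CellT
import Pool.Agent.Lib_MP_59ec1f_cap.CellR
import Pool.Agent.Lib_MP_59ec1f_cap.CellF

/-!
# The order test

Two cells in the same column: where they meet in the plane, `τ` of the first is greater.
-/

set_option autoImplicit false

open scoped ContDiff

namespace Pool.Agent.Lib_MP_59ec1f_cap

namespace WC

/-- where the cells meet, `τ` of `C` is greater than `τ` of `D` -/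
def orderTest (C D : WC) : Bool :=
  if C.opposite D then true else
  if C.straight && D.straight then
    (C.aboveA D 0 && C.aboveA D 1 && C.aboveA D 2) || (D.aboveA C 0 && D.aboveA C 1 && D.aboveA C 2) ||
    (C.tauT D false && C.tauT D true)
  else
    (C.aboveB D 0 && C.aboveB D 1 && C.aboveB D 2) || (D.aboveB C 0 && D.aboveB C 1 && D.aboveB C 2) ||
    (C.tauR D false && C.tauR D true) || (C.tauF D false && C.tauF D true)

variable (μ : Moll)

theorem orderTest_sound (C D : WC) (hC : C.straight = true ∨ C.fold = true) (hD : D.straight = true ∨ D.fold = true)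
    (okC : C.ok = true) (okD : D.ok = true) (hx : C.x1 = D.x1) (h : C.orderTest D = true) {v v' u : ℝ}
    (hv : |v| ≤ 1 / 2) (hv' : |v'| ≤ 1 / 2) (hu : |u| ≤ 1 / 2) (e1 : (C.pt μ v u).1 = (D.pt μ v' u).1)
    (e21 : (C.pt μ v u).2.1 = (D.pt μ v' u).2.1) : (D.pt μ v' u).2.2 < (C.pt μ v u).2.2 := by
  unfold orderTest at h
  by_cases ho : C.opposite D = true
  · exact absurd e1 (opposite_sound μ C D hx ho v v' u)
  rw [if_neg ho] at h
  by_cases hs : (C.straight && D.straight) = true
  · rw [if_pos hs] at h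
    obtain ⟨sC, sD⟩ := (Bool.and_eq_true _ _).mp hs
    simp only [Bool.or_eq_true, Bool.and_eq_true] at h
    rcases h with (⟨⟨h0, h1⟩, h2⟩ | ⟨⟨h0, h1⟩, h2⟩) | ⟨h0, h1⟩
    · exact absurd e21 (aboveA_sound μ C D sC sD hx h0 h1 h2 hv hv' hu e1).ne'
    · exact absurd e21 (aboveA_sound μ D C sD sC hx.symm h0 h1 h2 hv' hv hu e1.symm).ne
    · exact tauT_sound μ C D sC sD okC okD hx h0 h1 hv hv' hu e1
  · rw [if_neg hs] at h
    have key : C.hullTest D = true → False := fun hh =>
      hullTest_sound μ C D hh hu (pt_inHull μ C hv) (pt_inHull μ D hv')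
        (Prod.ext e1 e21)
    simp only [Bool.or_eq_true, Bool.and_eq_true] at h
    rcases h with ((h | h) | ⟨h0, h1⟩) | ⟨h0, h1⟩
    · exact (key (by unfold hullTest; simp only [Bool.or_eq_true, Bool.and_eq_true]; exact Or.inl h)).elim
    · exact (key (by unfold hullTest; simp only [Bool.or_eq_true, Bool.and_eq_true]; exact Or.inr h)).elim
    · exact tauR_sound μ C D hC hD okC okD h0 h1 hv hv' hu
    · exact tauF_sound μ C D hC hD okC okD hx hs h0 h1 hv hv' e1

end WC

end Pool.Agent.Lib_MP_59ec1f_cap
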