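import Pool.Agent.Lib_MP_59ec1f_cap.CellJ

/-!
# Decidable tests for pairs of cells

A window is the time interval `[m - 1/2, m + 1/2]`; the vertices of a cell have integer heights at the nodes
`m - 1, m, m + 1` and the height at the time `m + u` is `tri` of the three. `1600` times the primitive at the two edge
midpoints is an integer at the nodes. `WC` is this integer data. The tests guarantee that two cells in the same column
(same `x1`) have no common point `(x, Y, τ)` during the window.
-/

set_option autoImplicit false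

open scoped ContDiff

namespace Pool.Agent.Lib_MP_59ec1f_cap

/-- integer triples: the values at the nodes `m - 1, m, m + 1` -/
structure Z3 where
  a : ℤ
  b : ℤ
  c : ℤ
deriving DecidableEq

namespace Z3

/-- four times the value at the times `m - 1/2, m, m + 1/2` is `2 * half t`, i.e. `half` is twice the value -/
def half (z : Z3) : Fin 3 → ℤ
  | 0 => z.a + z.b
  | 1 => 2 * z.b
  | 2 => z.b + z.c

/-- increment before (`false`) and after (`true`) the node `m` -/
def inc (z : Z3) : Bool → ℤ
  | false => z.b - z.a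
  | true => z.c - z.b

/-- the value at the time `m + u` -/
noncomputable def val (μ : Moll) (z : Z3) (u : ℝ) : ℝ := μ.tri z.a z.b z.c u

/-- the time derivative -/
noncomputable def der (μ : Moll) (z : Z3) (u : ℝ) : ℝ :=
  (z.c - z.b : ℝ) * deriv μ.S u + (z.b - z.a : ℝ) * deriv μ.S (-u)

end Z3

/-- the integer data of a cell in a window -/
structure WC where
  x0 : ℤ
  x1 : ℤ
  x2 : ℤ
  y0 : Z3
  y1 : Z3
  y2 : Z3
  f0 : Z3
  f1 : Z3
deriving DecidableEq

namespace WC

variable (μ : Moll)

/-- `x, Y, τ` at the parameter `v` and the time `m + u` -/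
noncomputable def pt (C : WC) (v u : ℝ) : ℝ × ℝ × ℝ :=
  (μ.tri C.x0 C.x1 C.x2 v, μ.tri (C.y0.val μ u) (C.y1.val μ u) (C.y2.val μ u) v,
    C.f1.der μ u / 1600 - μ.J C.x0 C.x1 C.x2 (C.y0.der μ u) (C.y1.der μ u) (C.y2.der μ u) v)

/-- the relation between the primitives at the two midpoints, for one node -/
def okAt (x0 x1 x2 y0 y1 y2 f0 f1 : ℤ) : Bool :=
  f1 - f0 == 800 * y1 * (x2 - x0) + 200 * ((y2 - y1) * (x2 - x1) - (y1 - y0) * (x1 - x0)) +
    ((y2 - y1) * (x1 - x0) - (y1 - y0) * (x2 - x1))

/-- the relation at the three nodes -/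
def ok (C : WC) : Bool :=
  okAt C.x0 C.x1 C.x2 C.y0.a C.y1.a C.y2.a C.f0.a C.f1.a &&
  okAt C.x0 C.x1 C.x2 C.y0.b C.y1.b C.y2.b C.f0.b C.f1.b &&
  okAt C.x0 C.x1 C.x2 C.y0.c C.y1.c C.y2.c C.f0.c C.f1.c

/-- `x` increases or decreases by one at each step -/
def straight (C : WC) : Bool :=
  (C.x2 - C.x1 == 1 && C.x1 - C.x0 == 1) || (C.x2 - C.x1 == -1 && C.x1 - C.x0 == -1)

/-- a fold with different neighbours: the second neighbour is above (or below) the first at the three times -/
def fold (C : WC) : Bool :=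
  C.x0 == C.x2 && (C.x1 - C.x0 == 1 || C.x1 - C.x0 == -1) &&
  ((C.y0.half 0 < C.y2.half 0 && C.y0.half 1 < C.y2.half 1 && C.y0.half 2 < C.y2.half 2) ||
   (C.y2.half 0 < C.y0.half 0 && C.y2.half 1 < C.y0.half 1 && C.y2.half 2 < C.y0.half 2))

/-- the cell read from left to right, if it is straight -/
def lr (C : WC) : WC :=
  if C.x2 - C.x1 == 1 then C else ⟨C.x2, C.x1, C.x0, C.y2, C.y1, C.y0, C.f1, C.f0⟩

/-- test (A) at one of the three times: the straight cell `C` is above the straight cell `D` (same column); the vertices may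
agree, the midpoints may not -/
def aboveA (C D : WC) (t : Fin 3) : Bool :=
  let C := C.lr
  let D := D.lr
  D.y1.half t ≤ C.y1.half t &&
  D.y0.half t + D.y1.half t < C.y0.half t + C.y1.half t &&
  D.y1.half t + D.y2.half t < C.y1.half t + C.y2.half t

/-- the three corners of the hull of a cell at one of the three times: vertex and midpoints, `x` scaled by `2`,
`Y` scaled by `4` -/
def hull (C : WC) (t : Fin 3) : List (ℤ × ℤ) :=
  [(2 * C.x1, 2 * C.y1.half t), (C.x1 + C.x2, C.y1.half t + C.y2.half t), (C.x0 + C.x1, C.y0.half t + C.y1.half t)]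

/-- slopes to be tried, as fractions `(p, q)`, `q ≥ 0` -/
def slopes (C : WC) (t : Fin 3) : List (ℤ × ℤ) :=
  [((C.y2.half t - C.y1.half t) * (C.x2 - C.x1), 1), ((C.y0.half t - C.y1.half t) * (C.x0 - C.x1), 1),
    ((C.y2.half t - C.y0.half t) * (C.x2 - C.x0), 4)]

/-- the hull of `C` is above the hull of `D` with respect to lines of the slope `p / q` (in the scaled coordinates) -/
def aboveSlope (C D : WC) (t : Fin 3) (p q : ℤ) : Bool :=
  0 < q && (C.hull t).all fun a => (D.hull t).all fun b => p * (a.1 - b.1) < q * (a.2 - b.2)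

/-- test (B) at one of the three times: some line separates the hulls, `C` above `D` -/
def aboveB (C D : WC) (t : Fin 3) : Bool :=
  ((0, 1) :: (C.slopes t ++ D.slopes t)).any fun s => aboveSlope C D t s.1 s.2

/-- the maximum of `|δ Y|` on the hull, scaled by `2`; `e = true`: increments after the node -/
def gmax (C : WC) (e : Bool) : ℤ :=
  max (2 * |C.y1.inc e|) (max |C.y0.inc e + C.y1.inc e| |C.y1.inc e + C.y2.inc e|)

/-- test (R): the range of `δ F` of `C` is above the range of `δ F` of `D` -/
def tauR (C D : WC) (e : Bool) : Bool :=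
  max (D.f0.inc e) (D.f1.inc e) + 400 * D.gmax e < min (C.f0.inc e) (C.f1.inc e) - 400 * C.gmax e

/-- test (T): for straight cells in the same column, `δ F` of `C` is greater than `δ F` of `D` at the same `x` -/
def tauT (C D : WC) (e : Bool) : Bool :=
  let C := C.lr
  let D := D.lr
  let dr := C.f1.inc e - D.f1.inc e
  let dl := C.f0.inc e - D.f0.inc e
  let g0 := C.y0.inc e - D.y0.inc e
  let g1 := C.y1.inc e - D.y1.inc e
  let g2 := C.y2.inc e - D.y2.inc e
  0 < dr && 800 * g1 < dr && 400 * (g0 + g1) < dr && 400 * (g1 + g2) < dr &&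
  0 < dl && -(800 * g1) < dl && -(400 * (g0 + g1)) < dl && -(400 * (g1 + g2)) < dl

/-- the primitives at the midpoints on the side `s = ± 1` of the vertex -/
def sideEnds (C : WC) (s : ℤ) : List Z3 :=
  (if C.x0 - C.x1 == s then [C.f0] else []) ++ (if C.x2 - C.x1 == s then [C.f1] else [])

/-- the maximum of `δ Y` on the hull, scaled by `2` -/
def hmax (C : WC) (e : Bool) : ℤ :=
  max (2 * C.y1.inc e) (max (C.y0.inc e + C.y1.inc e) (C.y1.inc e + C.y2.inc e))

/-- the minimum of `δ Y` on the hull, scaled by `2` -/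
def hmin (C : WC) (e : Bool) : ℤ :=
  min (2 * C.y1.inc e) (min (C.y0.inc e + C.y1.inc e) (C.y1.inc e + C.y2.inc e))

/-- test (F): one of the cells (the first, if both) is a fold, which opens to the side `s`; at the same `x` the difference of the
values `δ F` differs from the difference at the midpoints on this side by the integral of `δ Y` over at most `1/2` -/
def tauF (C D : WC) (e : Bool) : Bool :=
  let s := if C.x0 == C.x2 then C.x0 - C.x1 else D.x0 - D.x1
  (C.sideEnds s).all fun c => (D.sideEnds s).all fun d =>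
    0 < c.inc e - d.inc e &&
    400 * (if s == 1 then C.hmax e - D.hmin e else D.hmax e - C.hmin e) < c.inc e - d.inc e

/-- folds in opposite directions -/
def opposite (C D : WC) : Bool :=
  C.x0 == C.x2 && D.x0 == D.x2 && ((C.x1 - C.x0 == 1 && D.x1 - D.x0 == -1) || (C.x1 - C.x0 == -1 && D.x1 - D.x0 == 1))

/-- the pair test for two cells in the same column -/
def pairTest (C D : WC) : Bool :=
  if C.opposite D then true else
  if C.straight && D.straight then
    (C.aboveA D 0 && C.aboveA D 1 && C.aboveA D 2) || (D.aboveA C 0 && D.aboveA C 1 && D.aboveA C 2) ||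
    (C.tauT D false && C.tauT D true) || (D.tauT C false && D.tauT C true)
  else
    (C.aboveB D 0 && C.aboveB D 1 && C.aboveB D 2) || (D.aboveB C 0 && D.aboveB C 1 && D.aboveB C 2) ||
    (C.tauR D false && C.tauR D true) || (D.tauR C false && D.tauR C true) ||
    (C.tauF D false && C.tauF D true) || (D.tauF C false && D.tauF C true)

/-- the hull test only (for the template of a saddle) -/
def hullTest (C D : WC) : Bool :=
  (C.aboveB D 0 && C.aboveB D 1 && C.aboveB D 2) || (D.aboveB C 0 && D.aboveB C 1 && D.aboveB C 2)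

/-- the real hull of the cell at the time `m + u` -/
def InHull (C : WC) (u : ℝ) (p : ℝ × ℝ) : Prop :=
  ∃ α β γ : ℝ, 0 ≤ α ∧ 0 ≤ β ∧ 0 ≤ γ ∧ α + β + γ = 1 ∧
    p.1 = α * C.x1 + β * ((C.x1 + C.x2) / 2) + γ * ((C.x0 + C.x1) / 2) ∧
    p.2 = α * C.y1.val μ u + β * ((C.y1.val μ u + C.y2.val μ u) / 2) + γ * ((C.y0.val μ u + C.y1.val μ u) / 2)

end WC

end Pool.Agent.Lib_MP_59ec1f_cap
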