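import Mathlib

/-!
# Exact Lagrangian caps (MP_59ec1f_gt): definitions of the statement

`R x R^3` is `E4` with the coordinates `0, 1, 2, 3 = t, x, y, z`; `R^3` is `E3` with the coordinates `0, 1, 2 = x, y, z`.
Smooth submanifolds are defined as sets which are regular level sets near each of their points.
-/

set_option autoImplicit false

open scoped ContDiff

namespace Pool.Agent.Lib_MP_59ec1f_cap

/-- the plane -/
abbrev E2 := EuclideanSpace ℝ (Fin 2)

/-- `R^3`, coordinates `x, y, z` -/
abbrev E3 := EuclideanSpace ℝ (Fin 3)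

/-- `R × R^3`, coordinates `t, x, y, z` -/
abbrev E4 := EuclideanSpace ℝ (Fin 4)

/-- the form `e^t (dz - y dx)` at the point `p`, applied to the vector `v` -/
noncomputable def lam (p v : E4) : ℝ := Real.exp (p 0) * (v 3 - p 2 * v 1)

/-- its differential `e^t (dt ∧ (dz - y dx) + dx ∧ dy)` -/
noncomputable def om (p v w : E4) : ℝ :=
  Real.exp (p 0) * (v 0 * (w 3 - p 2 * w 1) - w 0 * (v 3 - p 2 * v 1) + (v 1 * w 2 - w 1 * v 2))

/-- `K` is a Legendrian knot in `R^3`: homeomorphic to the circle and, near each of its points, the zero set of a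
smooth map `G` to the plane with surjective derivative; on the tangent vectors `v` (those with `DG v = 0`) one has
`dz = y dx` -/
def IsLegendrianKnot (K : Set E3) : Prop :=
  Nonempty (K ≃ₜ Circle) ∧ ∀ p ∈ K, ∃ (U : Set E3) (G : E3 → E2), IsOpen U ∧ p ∈ U ∧ ContDiffOn ℝ ∞ G U ∧
    K ∩ U = {q ∈ U | G q = 0} ∧ ∀ q ∈ K ∩ U, Function.Surjective (fderiv ℝ G q) ∧
      ∀ v, fderiv ℝ G q v = 0 → v 2 = q 1 * v 0

/-- `L` is an exact Lagrangian cap of `K`: a closed connected subset of `R × R^3`; near each of its points it is the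
zero set of a smooth map `G` to the plane with surjective derivative, and `f : L → R` is the restriction of a smooth
function `h`, such that on the tangent vectors `d(e^t (dz - y dx)) = 0` and `dh = e^t (dz - y dx)`;
for some `T > 0`, `L` is `(-∞, -T) × K` where `t < -T`, `f` is constant there, and `t ≤ T` on `L` -/
def IsExactCap (K : Set E3) (L : Set E4) : Prop :=
  IsClosed L ∧ IsConnected L ∧ ∃ f : E4 → ℝ,
    (∀ p ∈ L, ∃ (U : Set E4) (G : E4 → E2) (h : E4 → ℝ), IsOpen U ∧ p ∈ U ∧ ContDiffOn ℝ ∞ G U ∧
      ContDiffOn ℝ ∞ h U ∧ L ∩ U = {q ∈ U | G q = 0} ∧ ∀ q ∈ L ∩ U, f q = h q ∧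
        Function.Surjective (fderiv ℝ G q) ∧ ∀ v w, fderiv ℝ G q v = 0 → fderiv ℝ G q w = 0 →
          om q v w = 0 ∧ fderiv ℝ h q v = lam q v) ∧
    ∃ T > 0, (∀ p ∈ L, p 0 ≤ T) ∧ (∀ p : E4, p 0 < -T → (p ∈ L ↔ !₂[p 1, p 2, p 3] ∈ K)) ∧
      ∃ c : ℝ, ∀ p ∈ L, p 0 < -T → f p = c

/-- the torus without a point -/
abbrev PuncturedTorus := {p : Circle × Circle // p ≠ 1}

/-- Some Legendrian knot has an exact Lagrangian cap which is homeomorphic to the torus without a point, i.e. an
orientable surface of genus one with one end. (A subset of `R × R^3` which is near each of its points the zero set of a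
smooth map to the plane with surjective derivative is the same as a smooth embedded surface; closed as a subset means
properly embedded. Surfaces are classified by their homeomorphism type; the interior of a compact connected orientable
surface of genus `g` with one boundary circle is homeomorphic to the torus without a point if and only if `g = 1`.) -/
def Statement : Prop :=
  ∃ (K : Set E3) (L : Set E4), IsLegendrianKnot K ∧ IsExactCap K L ∧ Nonempty (L ≃ₜ PuncturedTorus)

end Pool.Agent.Lib_MP_59ec1f_cap
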