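import Pool.Agent.Lib_MP_59ec1f_cap.Defs

/-!
# Exact surfaces are Lagrangian
-/

set_option autoImplicit false

open scoped ContDiff
open Filter Topology

namespace Pool.Agent.Lib_MP_59ec1f_cap

/-- the components of a derivative, computed along a line -/
theorem fderiv_coord {n : ℕ} {E : Type} [NormedAddCommGroup E] [NormedSpace ℝ E]
    {Φ : E → EuclideanSpace ℝ (Fin n)} {p : E} (hΦ : DifferentiableAt ℝ Φ p) (v : E) (i : Fin n) {d : ℝ}
    (h : HasDerivAt (fun t : ℝ => Φ (p + t • v) i) d 0) : (fderiv ℝ Φ p v) i = d := by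
  have h1 : HasDerivAt (fun t : ℝ => p + t • v) v 0 := by
    have := ((hasDerivAt_id (0 : ℝ)).smul_const v).const_add p
    simpa using this
  have h2 : HasFDerivAt Φ (fderiv ℝ Φ p) (p + (0 : ℝ) • v) := by
    simpa using hΦ.hasFDerivAt
  have h3 : HasDerivAt (fun t : ℝ => Φ (p + t • v)) (fderiv ℝ Φ p v) 0 := h2.comp_hasDerivAt 0 h1
  have h4 : HasDerivAt (fun t : ℝ => Φ (p + t • v) i) ((fderiv ℝ Φ p v) i) 0 := by
    have h5 := (EuclideanSpace.proj (𝕜 := ℝ) i).hasFDerivAt.comp_hasDerivAt (0 : ℝ) h3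
    exact h5
  exact h4.unique h

/-- the coordinates of a curve -/
theorem hasDerivAt_coord {n : ℕ} {c : ℝ → EuclideanSpace ℝ (Fin n)} {c' : EuclideanSpace ℝ (Fin n)} {t : ℝ}
    (h : HasDerivAt c c' t) (i : Fin n) : HasDerivAt (fun t => c t i) (c' i) t :=
  (EuclideanSpace.proj (𝕜 := ℝ) i).hasFDerivAt.comp_hasDerivAt t h

/-- second derivatives: a parametrised piece of an exact surface is Lagrangian -/
theorem om_zero_param {Θ : ℝ × ℝ → E4} {H : ℝ × ℝ → ℝ} (hΘ : ContDiffAt ℝ ∞ Θ 0) (hH : ContDiffAt ℝ ∞ H 0)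
    (he : ∀ᶠ x in 𝓝 (0 : ℝ × ℝ), ∀ a, fderiv ℝ H x a = lam (Θ x) (fderiv ℝ Θ x a)) (a b : ℝ × ℝ) :
    om (Θ 0) (fderiv ℝ Θ 0 a) (fderiv ℝ Θ 0 b) = 0 := by
  have key : ∀ a b : ℝ × ℝ, fderiv ℝ (fderiv ℝ H) 0 b a =
      Real.exp (Θ 0 0) * ((fderiv ℝ Θ 0 b) 0 * ((fderiv ℝ Θ 0 a) 3 - Θ 0 2 * (fderiv ℝ Θ 0 a) 1)
        + ((fderiv ℝ (fderiv ℝ Θ) 0 b a) 3 - (fderiv ℝ Θ 0 b) 2 * (fderiv ℝ Θ 0 a) 1
          - Θ 0 2 * (fderiv ℝ (fderiv ℝ Θ) 0 b a) 1)) := by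
    intro a b
    have hΘd : DifferentiableAt ℝ Θ 0 := hΘ.differentiableAt (by simp)
    have hΘ2 : DifferentiableAt ℝ (fderiv ℝ Θ) 0 := (hΘ.fderiv_right (m := 1) (by norm_cast)).differentiableAt (by simp)
    have hH2 : DifferentiableAt ℝ (fderiv ℝ H) 0 := (hH.fderiv_right (m := 1) (by norm_cast)).differentiableAt (by simp)
    have hline : HasDerivAt (fun t : ℝ => t • b) b 0 := by
      simpa using (hasDerivAt_id (0 : ℝ)).smul_const b
    have h0 : ((0 : ℝ) • b) = 0 := zero_smul _ _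
    have c1 : HasDerivAt (fun t : ℝ => Θ (t • b)) (fderiv ℝ Θ 0 b) 0 := by
      have h : HasFDerivAt Θ (fderiv ℝ Θ 0) ((0 : ℝ) • b) := by rw [h0]; exact hΘd.hasFDerivAt
      exact h.comp_hasDerivAt 0 hline
    have c2 : HasDerivAt (fun t : ℝ => fderiv ℝ Θ (t • b)) (fderiv ℝ (fderiv ℝ Θ) 0 b) 0 := by
      have h : HasFDerivAt (fderiv ℝ Θ) (fderiv ℝ (fderiv ℝ Θ) 0) ((0 : ℝ) • b) := by rw [h0]; exact hΘ2.hasFDerivAt
      exact h.comp_hasDerivAt 0 hline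
    have c3 : HasDerivAt (fun t : ℝ => fderiv ℝ Θ (t • b) a) (fderiv ℝ (fderiv ℝ Θ) 0 b a) 0 := by
      have := c2.clm_apply (hasDerivAt_const (0 : ℝ) a)
      simpa using this
    have c4 : HasDerivAt (fun t : ℝ => fderiv ℝ H (t • b) a) (fderiv ℝ (fderiv ℝ H) 0 b a) 0 := by
      have h : HasFDerivAt (fderiv ℝ H) (fderiv ℝ (fderiv ℝ H) 0) ((0 : ℝ) • b) := by rw [h0]; exact hH2.hasFDerivAt
      have h' : HasDerivAt (fun t : ℝ => fderiv ℝ H (t • b)) (fderiv ℝ (fderiv ℝ H) 0 b) 0 := h.comp_hasDerivAt 0 hline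
      have := h'.clm_apply (hasDerivAt_const (0 : ℝ) a)
      simpa using this
    have c5 : HasDerivAt (fun t : ℝ => lam (Θ (t • b)) (fderiv ℝ Θ (t • b) a))
        (Real.exp (Θ 0 0) * (fderiv ℝ Θ 0 b) 0 * ((fderiv ℝ Θ 0 a) 3 - Θ 0 2 * (fderiv ℝ Θ 0 a) 1)
          + Real.exp (Θ 0 0) * ((fderiv ℝ (fderiv ℝ Θ) 0 b a) 3
            - ((fderiv ℝ Θ 0 b) 2 * (fderiv ℝ Θ 0 a) 1 + Θ 0 2 * (fderiv ℝ (fderiv ℝ Θ) 0 b a) 1))) 0 := by
      have e0 := (hasDerivAt_coord c1 0).exp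
      have e2 := hasDerivAt_coord c1 2
      have e3 := hasDerivAt_coord c3 3
      have e1 := hasDerivAt_coord c3 1
      have e5 := (e0.mul (e3.sub (e2.mul e1))).congr_deriv (show _ =
        Real.exp (Θ 0 0) * (fderiv ℝ Θ 0 b) 0 * ((fderiv ℝ Θ 0 a) 3 - Θ 0 2 * (fderiv ℝ Θ 0 a) 1)
          + Real.exp (Θ 0 0) * ((fderiv ℝ (fderiv ℝ Θ) 0 b a) 3
            - ((fderiv ℝ Θ 0 b) 2 * (fderiv ℝ Θ 0 a) 1 + Θ 0 2 * (fderiv ℝ (fderiv ℝ Θ) 0 b a) 1)) by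
        simp only [Pi.sub_apply, Pi.mul_apply, h0])
      exact e5
    have c6 : (fun t : ℝ => fderiv ℝ H (t • b) a) =ᶠ[𝓝 0] fun t : ℝ => lam (Θ (t • b)) (fderiv ℝ Θ (t • b) a) := by
      have ht : Tendsto (fun t : ℝ => t • b) (𝓝 0) (𝓝 0) := by
        have := hline.continuousAt.tendsto
        rwa [h0] at this
      filter_upwards [ht.eventually he] with t ht'
      exact ht' a
    have c7 := (c4.congr_of_eventuallyEq c6.symm).unique c5
    rw [c7]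
    ring
  have sH : fderiv ℝ (fderiv ℝ H) 0 b a = fderiv ℝ (fderiv ℝ H) 0 a b :=
    (hH.isSymmSndFDerivAt (by simp only [minSmoothness_of_isRCLikeNormedField]; exact WithTop.coe_le_coe.2 le_top)) b a
  have sΘ : fderiv ℝ (fderiv ℝ Θ) 0 b a = fderiv ℝ (fderiv ℝ Θ) 0 a b :=
    (hΘ.isSymmSndFDerivAt (by simp only [minSmoothness_of_isRCLikeNormedField]; exact WithTop.coe_le_coe.2 le_top)) b a
  have k1 := key a b
  have k2 := key b a
  rw [sH, k2] at k1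
  rw [sΘ] at k1
  unfold om
  linarith

/-- exact implies Lagrangian -/
theorem om_zero {U : Set E4} (hU : IsOpen U) {G : E4 → E2} {h : E4 → ℝ} (hG : ContDiffOn ℝ ∞ G U)
    (hh : ContDiffOn ℝ ∞ h U)
    (he : ∀ q ∈ U, G q = 0 → ∀ v, fderiv ℝ G q v = 0 → fderiv ℝ h q v = lam q v) {p : E4} (hp : p ∈ U)
    (hGp : G p = 0) (hs : Function.Surjective (fderiv ℝ G p)) {v w : E4} (hv : fderiv ℝ G p v = 0)
    (hw : fderiv ℝ G p w = 0) : om p v w = 0 := by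
  have hGc : ContDiffAt ℝ ∞ G p := hG.contDiffAt (hU.mem_nhds hp)
  set A : E4 →L[ℝ] E2 := fderiv ℝ G p with hA
  obtain ⟨P, hP⟩ := A.ker_closedComplemented_of_finiteDimensional_range
  set B : E4 →L[ℝ] E2 × (LinearMap.ker A.toLinearMap) := A.prod P with hB
  have hinj : Function.Injective B := by
    rw [injective_iff_map_eq_zero]
    intro x hx
    have h1 : A x = 0 := congrArg Prod.fst hx
    have h2 : P x = 0 := congrArg Prod.snd hx
    have h3 := hP ⟨x, h1⟩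
    rw [h2] at h3
    exact (congrArg Subtype.val h3).symm
  have hsur : Function.Surjective B := by
    rintro ⟨y, k⟩
    obtain ⟨x0, hx0⟩ := hs y
    refine ⟨x0 + ((k : E4) - (P x0 : E4)), ?_⟩
    have hk : A (k : E4) = 0 := k.2
    have hPx : A (P x0 : E4) = 0 := (P x0).2
    have h4 : P (k : E4) = k := hP k
    have h5 : P (P x0 : E4) = P x0 := hP (P x0)
    refine Prod.ext ?_ ?_
    · change A (x0 + ((k : E4) - (P x0 : E4))) = y
      rw [map_add, map_sub, hk, hPx, hx0]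
      simp
    · change P (x0 + ((k : E4) - (P x0 : E4))) = k
      rw [map_add, map_sub, h4, h5]
      abel
  set e : E4 ≃L[ℝ] E2 × (LinearMap.ker A.toLinearMap) := ContinuousLinearEquiv.ofBijective B
    (LinearMap.ker_eq_bot.2 hinj) (LinearMap.range_eq_top.2 hsur) with he'
  set Ψ : E4 → E2 × (LinearMap.ker A.toLinearMap) := fun q => (G q, P q) with hΨ
  have hΨc : ContDiffAt ℝ ∞ Ψ p := hGc.prodMk P.contDiff.contDiffAt
  have hΨd : HasFDerivAt Ψ (e : E4 →L[ℝ] E2 × (LinearMap.ker A.toLinearMap)) p := by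
    have h1 : HasFDerivAt Ψ (A.prod P) p := (hGc.differentiableAt (by simp)).hasFDerivAt.prodMk P.hasFDerivAt
    exact h1
  have hstr : HasStrictFDerivAt Ψ (e : E4 →L[ℝ] E2 × (LinearMap.ker A.toLinearMap)) p :=
    hΨc.hasStrictFDerivAt' hΨd (by simp)
  set g := hΨc.localInverse hΨd (by simp) with hg
  have hgc : ContDiffAt ℝ ∞ g (Ψ p) := hΨc.to_localInverse hΨd (by simp)
  have hgr : ∀ᶠ y in 𝓝 (Ψ p), Ψ (g y) = y := hstr.eventually_right_inverse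
  have hgp : g (Ψ p) = p := hstr.localInverse_apply_image
  have hgd : HasFDerivAt g (e.symm : E2 × (LinearMap.ker A.toLinearMap) →L[ℝ] E4) (Ψ p) :=
    hstr.to_localInverse.hasFDerivAt
  -- the parametrisation
  set kv : E2 × (LinearMap.ker A.toLinearMap) := (0, ⟨v, hv⟩) with hkv
  set kw : E2 × (LinearMap.ker A.toLinearMap) := (0, ⟨w, hw⟩) with hkw
  set ℓ : ℝ × ℝ → E2 × (LinearMap.ker A.toLinearMap) := fun x => Ψ p + (x.1 • kv + x.2 • kw) with hℓ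
  have hℓc : ContDiff ℝ ∞ ℓ := by
    apply contDiff_const.add
    exact (contDiff_fst.smul contDiff_const).add (contDiff_snd.smul contDiff_const)
  have hℓ0 : ℓ 0 = Ψ p := by simp [hℓ]
  set Θ : ℝ × ℝ → E4 := fun x => g (ℓ x) with hΘ
  have hΘ0 : Θ 0 = p := by rw [hΘ]; simp only [hℓ0, hgp]
  have hgc' : ContDiffAt ℝ ∞ g (ℓ 0) := by rw [hℓ0]; exact hgc
  have hΘc : ContDiffAt ℝ ∞ Θ 0 := hgc'.comp 0 hℓc.contDiffAt
  have hhc : ContDiffAt ℝ ∞ h (Θ 0) := by rw [hΘ0]; exact hh.contDiffAt (hU.mem_nhds hp)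
  have hHc : ContDiffAt ℝ ∞ (fun x => h (Θ x)) 0 := hhc.comp 0 hΘc
  have hcont : ContinuousAt Θ 0 := hΘc.continuousAt
  have hℓt : Tendsto ℓ (𝓝 0) (𝓝 (Ψ p)) := by
    have := hℓc.continuous.continuousAt (x := (0 : ℝ × ℝ))
    rw [ContinuousAt, hℓ0] at this
    exact this
  have ev1 : ∀ᶠ x in 𝓝 (0 : ℝ × ℝ), G (Θ x) = 0 := by
    filter_upwards [hℓt.eventually hgr] with x hx
    have h1 : G (g (ℓ x)) = (ℓ x).1 := congrArg Prod.fst hx
    have h2 : (ℓ x).1 = 0 := by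
      simp [hℓ, hΨ, hkv, hkw, hGp]
    rw [hΘ]
    simp only
    rw [h1, h2]
  have ev2 : ∀ᶠ x in 𝓝 (0 : ℝ × ℝ), Θ x ∈ U := by
    apply hcont.tendsto.eventually
    rw [hΘ0]
    exact hU.mem_nhds hp
  have ev3 : ∀ᶠ x in 𝓝 (0 : ℝ × ℝ), DifferentiableAt ℝ Θ x := by
    have h1 : ∀ᶠ x in 𝓝 (0 : ℝ × ℝ), ContDiffAt ℝ 1 Θ x := (hΘc.of_le (by simp)).eventually (by simp)
    filter_upwards [h1] with x hx
    exact hx.differentiableAt (by simp)
  have ev : ∀ᶠ x in 𝓝 (0 : ℝ × ℝ), ∀ a, fderiv ℝ (fun x => h (Θ x)) x a = lam (Θ x) (fderiv ℝ Θ x a) := by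
    filter_upwards [ev1.eventually_nhds, ev2, ev3] with x h1 h2 h3 a
    have hGd : DifferentiableAt ℝ G (Θ x) := (hG.contDiffAt (hU.mem_nhds h2)).differentiableAt (by simp)
    have hhd : DifferentiableAt ℝ h (Θ x) := (hh.contDiffAt (hU.mem_nhds h2)).differentiableAt (by simp)
    have h4 : fderiv ℝ (fun x => h (Θ x)) x = (fderiv ℝ h (Θ x)).comp (fderiv ℝ Θ x) :=
      (hhd.hasFDerivAt.comp x h3.hasFDerivAt).fderiv
    have h5 : fderiv ℝ (fun x => G (Θ x)) x = (fderiv ℝ G (Θ x)).comp (fderiv ℝ Θ x) :=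
      (hGd.hasFDerivAt.comp x h3.hasFDerivAt).fderiv
    have h6 : fderiv ℝ (fun x => G (Θ x)) x = 0 := by
      have : (fun x => G (Θ x)) =ᶠ[𝓝 x] fun _ => (0 : E2) := h1
      rw [this.fderiv_eq]
      simp
    have h7 : fderiv ℝ G (Θ x) (fderiv ℝ Θ x a) = 0 := by
      have := congrArg (fun T : ℝ × ℝ →L[ℝ] E2 => T a) (h5.symm.trans h6)
      simpa using this
    rw [h4]
    exact he (Θ x) h2 h1.self_of_nhds _ h7
  have hΘd : HasFDerivAt Θ ((e.symm : E2 × (LinearMap.ker A.toLinearMap) →L[ℝ] E4).comp (fderiv ℝ ℓ 0)) 0 := by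
    have h1 : HasFDerivAt g (e.symm : E2 × (LinearMap.ker A.toLinearMap) →L[ℝ] E4) (ℓ 0) := by rw [hℓ0]; exact hgd
    exact h1.comp 0 (hℓc.differentiable (by simp)).differentiableAt.hasFDerivAt
  have hℓd : HasFDerivAt ℓ (((ContinuousLinearMap.fst ℝ ℝ ℝ).smulRight kv) + ((ContinuousLinearMap.snd ℝ ℝ ℝ).smulRight kw))
      0 := by
    apply HasFDerivAt.const_add
    exact (((ContinuousLinearMap.fst ℝ ℝ ℝ).smulRight kv) + ((ContinuousLinearMap.snd ℝ ℝ ℝ).smulRight kw)).hasFDerivAt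
  have hΘv : fderiv ℝ Θ 0 (1, 0) = v := by
    rw [hΘd.fderiv, hℓd.fderiv]
    change e.symm ((1 : ℝ) • kv + (0 : ℝ) • kw) = v
    rw [one_smul, zero_smul, add_zero, ContinuousLinearEquiv.symm_apply_eq]
    have h2 : P v = ⟨v, hv⟩ := hP ⟨v, hv⟩
    change kv = (A v, P v)
    rw [h2]
    exact Prod.ext hv.symm rfl
  have hΘw : fderiv ℝ Θ 0 (0, 1) = w := by
    rw [hΘd.fderiv, hℓd.fderiv]
    change e.symm ((0 : ℝ) • kv + (1 : ℝ) • kw) = w
    rw [one_smul, zero_smul, zero_add, ContinuousLinearEquiv.symm_apply_eq]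
    have h2 : P w = ⟨w, hw⟩ := hP ⟨w, hw⟩
    change kw = (A w, P w)
    rw [h2]
    exact Prod.ext hw.symm rfl
  have := om_zero_param hΘc hHc ev (1, 0) (0, 1)
  rw [hΘv, hΘw, hΘ0] at this
  exact this

end Pool.Agent.Lib_MP_59ec1f_cap
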