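import Pool.Agent.Lib_MP_59ec1f_cap.Bridge2
import Pool.Agent.Lib_MP_59ec1f_cap.Strips

/-!
# Four strips with charts give the statement
-/

set_option autoImplicit false

open Set Topology Filter
open scoped ContDiff

namespace Pool.Agent.Lib_MP_59ec1f_cap

/-- the coordinates `(x, s, Y, τ)` to the coordinates `(s, x, Y, τ)` -/
noncomputable def toB : P4 →L[ℝ] E4 :=
  LinearMap.toContinuousLinearMap
    { toFun := fun p => !₂[p.2.1, p.1, p.2.2.1, p.2.2.2]
      map_add' := fun p q => by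
        ext i
        fin_cases i <;> rfl
      map_smul' := fun c p => by
        ext i
        fin_cases i <;> rfl }

theorem toB_apply (p : P4) : toB p = !₂[p.2.1, p.1, p.2.2.1, p.2.2.2] := rfl

theorem toB_injective : Function.Injective toB := by
  intro p q h
  have h0 : p.2.1 = q.2.1 := congrArg (fun z : E4 => z 0) h
  have h1 : p.1 = q.1 := congrArg (fun z : E4 => z 1) h
  have h2 : p.2.2.1 = q.2.2.1 := congrArg (fun z : E4 => z 2) h
  have h3 : p.2.2.2 = q.2.2.2 := congrArg (fun z : E4 => z 3) h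
  exact Prod.ext h1 (Prod.ext h0 (Prod.ext h2 h3))

/-- the names of the four strips in cyclic order -/
def bi : Fin 4 → Bool × Bool := ![(false, false), (false, true), (true, true), (true, false)]

/-- the first and the third strip are run through backwards -/
def rv : Fin 4 → Bool := ![true, false, true, false]

theorem bi_surj (i j : Bool) : ∃ k, bi k = (i, j) := by
  cases i <;> cases j
  · exact ⟨0, rfl⟩
  · exact ⟨1, rfl⟩
  · exact ⟨3, rfl⟩
  · exact ⟨2, rfl⟩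

theorem bi_eq (k l : Fin 4) (h1 : (bi k).1 = (bi l).1) (h2 : (bi k).2 = (bi l).2) : k = l := by
  revert k l
  decide

namespace QStrips

variable (D : QStrips)

/-- the lengths -/
def lenF (k : Fin 4) : ℝ := D.len (bi k).1 (bi k).2

/-- the parameter -/
noncomputable def pos (k : Fin 4) (u : ℝ) : ℝ := bif rv k then D.lenF k - u else u

/-- the strips as in `Strips4` -/
noncomputable def arc4 (k : Fin 4) (u s : ℝ) : E4 := toB (D.Φ (bi k).1 (bi k).2 (D.pos k u, s))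

theorem pos_mem {k : Fin 4} {u : ℝ} (hu : u ∈ Icc 0 (D.lenF k)) : D.pos k u ∈ Icc 0 (D.lenF k) := by
  unfold pos
  cases rv k
  · exact hu
  · exact ⟨by simpa using hu.2, by simpa using hu.1⟩

theorem pos_pos (k : Fin 4) (u : ℝ) : D.pos k (D.pos k u) = u := by
  unfold pos
  cases rv k
  · rfl
  · simp

theorem pos_continuous (k : Fin 4) : Continuous (D.pos k) := by
  unfold pos
  cases rv k
  · exact continuous_id
  · exact continuous_const.sub continuous_id

theorem arc4_zero (u s : ℝ) : D.arc4 0 u s = toB (D.Φ false false (D.len false false - u, s)) := rfl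

theorem arc4_one (u s : ℝ) : D.arc4 1 u s = toB (D.Φ false true (u, s)) := rfl

theorem arc4_two (u s : ℝ) : D.arc4 2 u s = toB (D.Φ true true (D.len true true - u, s)) := rfl

theorem arc4_three (u s : ℝ) : D.arc4 3 u s = toB (D.Φ true false (u, s)) := rfl

theorem strips4 : Strips4 D.arc4 D.lenF D.sA D.sB D.sT (1 / 2) := by
  have hA := D.hA
  have hB := D.hB
  refine ⟨by norm_num, D.hA, D.hAB, D.hBT, fun k => D.len_pos _ _, ?_, ?_, ?_, ?_, ?_, ?_, ?_, ?_, ?_, ?_, ?_, ?_, ?_⟩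
  · intro k
    have h1 := D.cont (bi k).1 (bi k).2
    have h2 : Continuous fun p : ℝ × ℝ => (D.pos k p.1, p.2) :=
      ((D.pos_continuous k).comp continuous_fst).prodMk continuous_snd
    exact toB.continuous.comp_continuousOn
      (h1.comp h2.continuousOn fun p hp => ⟨D.pos_mem hp.1, hp.2⟩)
  · intro k u hu s hs
    have h1 := D.pos_mem hu
    exact D.time (bi k).1 (bi k).2 _ s h1.1 h1.2 hs.1 hs.2
  · intro s hs h
    rw [arc4_zero, arc4_three, sub_zero, D.glueB₁ false s hs.1 h]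
    rfl
  · intro s hs h
    rw [arc4_two, arc4_one, sub_zero, ← D.glueB₁ true s hs.1 h]
    rfl
  · intro s hs h
    rw [arc4_zero, arc4_one, sub_zero, D.glueB₂ false s h hs.2]
    rfl
  · intro s hs h
    rw [arc4_two, arc4_three, sub_zero, ← D.glueB₂ true s h hs.2]
    rfl
  · intro s hs h
    have e : D.lenF 0 = D.len false false := rfl
    rw [arc4_one, arc4_zero, e, sub_self, D.glueA₁ false s hs.1 h]
  · intro s hs h
    have e : D.lenF 2 = D.len true true := rfl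
    rw [arc4_three, arc4_two, e, sub_self, D.glueA₁ true s hs.1 h]
  · intro s hs h
    have e : D.lenF 2 = D.len true true := rfl
    rw [arc4_one, arc4_two, e, sub_self, D.glueA₂ true s h hs.2]
  · intro s hs h
    have e : D.lenF 0 = D.len false false := rfl
    rw [arc4_three, arc4_zero, e, sub_self, D.glueA₂ false s h hs.2]
  · intro k u hu
    have h1 := D.pos_mem hu
    have h0 : (0 : ℝ) ∈ Icc 0 (D.lenF 0) := ⟨le_refl _, (D.len_pos _ _).le⟩
    have h2 := D.pos_mem h0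
    unfold arc4
    rw [D.atTop _ _ _ h1.1 h1.2, D.atTop _ _ _ h2.1 h2.2]
  · intro s hs k l u hu v hv huv
    have hu' := D.pos_mem ⟨hu.1.le, hu.2⟩
    have hv' := D.pos_mem ⟨hv.1.le, hv.2⟩
    have h1 := D.inj _ _ _ _ _ _ s hu'.1 hu'.2 hv'.1 hv'.2 hs.1 hs.2 (toB_injective huv)
    have hrv0 : ∀ (k : Fin 4) (u : ℝ), u ∈ Ioc 0 (D.lenF k) → D.pos k u = 0 → rv k = true ∧ u = D.lenF k := by
      intro k u hu h2
      unfold pos at h2
      cases hk : rv k
      · rw [hk] at h2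
        exact absurd h2 hu.1.ne'
      · rw [hk] at h2
        refine ⟨rfl, ?_⟩
        have : D.lenF k - u = 0 := h2
        linarith
    have hrv1 : ∀ (k : Fin 4) (u : ℝ), u ∈ Ioc 0 (D.lenF k) → D.pos k u = D.lenF k → rv k = false ∧ u = D.lenF k := by
      intro k u hu h2
      unfold pos at h2
      cases hk : rv k
      · rw [hk] at h2
        exact ⟨rfl, h2⟩
      · rw [hk] at h2
        have : D.lenF k - u = D.lenF k := h2
        exact absurd (show u = 0 by linarith) hu.1.ne'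
    rcases h1 with ⟨h2, h3, h4⟩ | ⟨h2, h3, h4⟩ | ⟨h2, h3, h4⟩
    · have hkl := bi_eq k l h2 h3
      subst hkl
      left
      refine ⟨rfl, ?_⟩
      rw [← D.pos_pos k u, h4, D.pos_pos]
    · obtain ⟨k1, k2⟩ := hrv0 k u hu h2
      obtain ⟨l1, l2⟩ := hrv0 l v hv h3
      have hkl : k = l ∨ (k = 0 ∧ l = 2 ∨ k = 2 ∧ l = 0) := by
        clear * - k1 l1
        revert k l
        decide
      have hi : (bi k).1 = (bi l).1 → k = l := by
        clear * - k1 l1
        revert k l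
        decide
      have hj : (bi k).2 = (bi l).2 → k = l := by
        clear * - k1 l1
        revert k l
        decide
      rcases hkl with hkl | hkl
      · subst hkl
        exact Or.inl ⟨rfl, by rw [k2, l2]⟩
      · rcases h4 with ⟨-, h5⟩ | ⟨-, h5⟩ | h5
        · have h6 := hi h5
          subst h6
          exact Or.inl ⟨rfl, by rw [k2, l2]⟩
        · have h6 := hj h5
          subst h6
          exact Or.inl ⟨rfl, by rw [k2, l2]⟩
        · exact Or.inr (Or.inl ⟨h5, k2, l2, hkl⟩)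
    · obtain ⟨k1, k2⟩ := hrv1 k u hu h2
      obtain ⟨l1, l2⟩ := hrv1 l v hv h3
      have hkl : k = l ∨ (k = 1 ∧ l = 3 ∨ k = 3 ∧ l = 1) := by
        clear * - k1 l1
        revert k l
        decide
      have hi : (bi k).1 = (bi l).1 → k = l := by
        clear * - k1 l1
        revert k l
        decide
      have hj : (bi k).2 = (bi l).2 → k = l := by
        clear * - k1 l1
        revert k l
        decide
      rcases hkl with hkl | hkl
      · subst hkl
        exact Or.inl ⟨rfl, by rw [k2, l2]⟩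
      · rcases h4 with ⟨-, h5⟩ | ⟨-, h5⟩ | h5
        · have h6 := hj h5
          subst h6
          exact Or.inl ⟨rfl, by rw [k2, l2]⟩
        · have h6 := hi h5
          subst h6
          exact Or.inl ⟨rfl, by rw [k2, l2]⟩
        · exact Or.inr (Or.inr ⟨h5, k2, l2, hkl⟩)
  · intro k u hu s hs
    have h1 := D.pos_mem hu
    have h2 := D.cone (bi k).1 (bi k).2 _ s h1.1 h1.2 hs.1 hs.2
    unfold arc4
    rw [h2]
    ext i
    fin_cases i
    · rfl
    · rfl
    · change 2 * s * (D.Φ (bi k).1 (bi k).2 (D.pos k u, 1 / 2)).2.2.1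
        = s / (1 / 2) * (D.Φ (bi k).1 (bi k).2 (D.pos k u, 1 / 2)).2.2.1
      ring
    · rfl

theorem mem_union_iff (p : P4) : toB p ∈ stripUnion D.arc4 D.lenF D.sT ↔ p ∈ D.carrier := by
  constructor
  · rintro ⟨k, u, hu, s, hs, h⟩
    have h1 := toB_injective h
    rw [← h1]
    refine mem_iUnion.2 ⟨(bi k).1, mem_iUnion.2 ⟨(bi k).2, ?_⟩⟩
    exact ⟨(D.pos k u, s), ⟨D.pos_mem hu, hs⟩, rfl⟩
  · intro h
    obtain ⟨i, h⟩ := mem_iUnion.1 h
    obtain ⟨j, ⟨θ, s⟩, ⟨hθ, hs⟩, h⟩ := mem_iUnion.1 h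
    obtain ⟨k, hk⟩ := bi_surj i j
    have e1 : i = (bi k).1 := by rw [hk]
    have e2 : j = (bi k).2 := by rw [hk]
    subst e1 e2
    refine ⟨k, D.pos k θ, D.pos_mem hθ, s, hs, ?_⟩
    unfold arc4
    rw [D.pos_pos, h]

/-- the primitive as a function on the space -/
noncomputable def prim4 (m : E4) : ℝ :=
  open Classical in
  if h : ∃ r : (Bool × Bool) × (ℝ × ℝ), r.2 ∈ D.dom r.1.1 r.1.2 ∧ toB (D.Φ r.1.1 r.1.2 r.2) = m then
    D.G h.choose.1.1 h.choose.1.2 h.choose.2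
  else 0

variable {D}

/-- two names of the same point have the same value of the primitive -/
theorem HasChart.welldef {p : P4} (h : D.HasChart p) {i j i' j' : Bool} {q q' : ℝ × ℝ} (hq : q ∈ D.dom i j)
    (hq' : q' ∈ D.dom i' j') (e : D.Φ i j q = p) (e' : D.Φ i' j' q' = p) : D.G i j q = D.G i' j' q' := by
  obtain ⟨U, u₀, c, g, -, -, -, -, -, -, -, -, hN⟩ := h
  obtain ⟨N, t, -, hqN, -, ht, hN1⟩ := hN i j q hq e
  obtain ⟨N', t', -, hqN', -, ht', hN1'⟩ := hN i' j' q' hq' e'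
  rw [← (hN1 q ⟨hqN, hq⟩).2.2, ← (hN1' q' ⟨hqN', hq'⟩).2.2, ht, ht']

theorem prim4_eq (h : ∀ p ∈ D.carrier, D.HasChart p) {i j : Bool} {q : ℝ × ℝ} (hq : q ∈ D.dom i j) :
    D.prim4 (toB (D.Φ i j q)) = D.G i j q := by
  classical
  have hex : ∃ r : (Bool × Bool) × (ℝ × ℝ), r.2 ∈ D.dom r.1.1 r.1.2 ∧
      toB (D.Φ r.1.1 r.1.2 r.2) = toB (D.Φ i j q) := ⟨((i, j), q), hq, rfl⟩
  have hp : D.Φ i j q ∈ D.carrier := mem_iUnion.2 ⟨i, mem_iUnion.2 ⟨j, q, hq, rfl⟩⟩
  unfold prim4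
  rw [dif_pos hex]
  exact (h _ hp).welldef hex.choose_spec.1 hq (toB_injective hex.choose_spec.2) rfl

/-- an immersion is injective near the point -/
theorem exists_injOn {c : ℝ × ℝ → P4} {u₀ : ℝ × ℝ} {U : Set (ℝ × ℝ)} (hU : IsOpen U) (hu : u₀ ∈ U)
    (hc : ContDiffOn ℝ ∞ c U) (hinj : Function.Injective (fderiv ℝ c u₀)) :
    ∃ V : Set (ℝ × ℝ), IsOpen V ∧ u₀ ∈ V ∧ V ⊆ U ∧ InjOn c V := by
  have hcd : ContDiffAt ℝ ∞ c u₀ := hc.contDiffAt (hU.mem_nhds hu)
  obtain ⟨L, hL⟩ := LinearMap.exists_leftInverse_of_injective (fderiv ℝ c u₀ : (ℝ × ℝ) →ₗ[ℝ] P4)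
    (LinearMap.ker_eq_bot.2 hinj)
  have h1 : HasStrictFDerivAt c (fderiv ℝ c u₀) u₀ := hcd.hasStrictFDerivAt (by simp)
  have h2 : HasStrictFDerivAt (fun u => LinearMap.toContinuousLinearMap L (c u))
      ((LinearMap.toContinuousLinearMap L).comp (fderiv ℝ c u₀)) u₀ :=
    (LinearMap.toContinuousLinearMap L).hasStrictFDerivAt.comp u₀ h1
  have h3 : (LinearMap.toContinuousLinearMap L).comp (fderiv ℝ c u₀)
      = ((ContinuousLinearEquiv.refl ℝ (ℝ × ℝ) : (ℝ × ℝ) ≃L[ℝ] ℝ × ℝ) : (ℝ × ℝ) →L[ℝ] ℝ × ℝ) := by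
    apply ContinuousLinearMap.ext
    intro v
    have := congrArg (fun T : (ℝ × ℝ) →ₗ[ℝ] ℝ × ℝ => T v) hL
    exact this
  rw [h3] at h2
  set e := h2.toOpenPartialHomeomorph _ with he
  have hsrc : u₀ ∈ e.source := h2.mem_toOpenPartialHomeomorph_source
  refine ⟨e.source ∩ U, e.open_source.inter hU, ⟨hsrc, hu⟩, inter_subset_right, ?_⟩
  intro x hx y hy hxy
  apply e.injOn hx.1 hy.1
  change (fun u => LinearMap.toContinuousLinearMap L (c u)) x = (fun u => LinearMap.toContinuousLinearMap L (c u)) y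
  simp only [hxy]

theorem HasChart.locM (h : ∀ p ∈ D.carrier, D.HasChart p) {p : P4} (hp : p ∈ D.carrier) :
    LocM (stripUnion D.arc4 D.lenF D.sT) D.prim4 (toB p) := by
  obtain ⟨U, u₀, c, g, hU, hu₀, hc, hg, hcp, hinj, hd, hcarr, hN⟩ := h p hp
  obtain ⟨V₁, hV₁, hu₁, hVU, hinjOn⟩ := exists_injOn hU hu₀ hc hinj
  have hs4 := D.strips4
  -- near the names of `p` the points are of the form `c u` with `u ∈ N₀`
  have near : ∀ N₀ ∈ 𝓝 u₀, ∀ i j, ∀ q ∈ D.dom i j, D.Φ i j q = p →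
      ∀ᶠ q' in 𝓝 q, q' ∈ D.dom i j → ∃ u ∈ N₀, c u = D.Φ i j q' ∧ g u = D.G i j q' := by
    intro N₀ hN₀ i j q hq e
    obtain ⟨N, t, hNo, hqN, htc, ht, hN1⟩ := hN i j q hq e
    have h1 : ContinuousWithinAt t (N ∩ D.dom i j) q := htc q ⟨hqN, hq⟩
    have h2 : ∀ᶠ q' in 𝓝[N ∩ D.dom i j] q, t q' ∈ N₀ := by
      have h3 : N₀ ∈ 𝓝 (t q) := by rw [ht]; exact hN₀
      exact h1 h3
    rw [eventually_nhdsWithin_iff] at h2
    filter_upwards [h2, hNo.mem_nhds hqN] with q' h3 h4 h5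
    exact ⟨t q', h3 ⟨h4, h5⟩, (hN1 q' ⟨h4, h5⟩).2⟩
  have hpt : 0 < p.2.1 ∧ p.2.1 ≤ D.sT := by
    obtain ⟨i, h1⟩ := mem_iUnion.1 hp
    obtain ⟨j, ⟨θ, s⟩, ⟨hθ, hs⟩, h1⟩ := mem_iUnion.1 h1
    have h2 := D.time i j θ s hθ.1 hθ.2 hs.1 hs.2
    rw [← h1, h2]
    exact hs
  -- all names of points near `p` are good
  set ε : ℝ := p.2.1 / 2 with hε
  have hε0 : 0 < ε := by have := hpt.1; positivity
  have key : ∀ i j : Bool, ∀ᶠ z in 𝓝 p, ∀ q ∈ Icc 0 (D.len i j) ×ˢ Icc ε D.sT, D.Φ i j q = z →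
      ∃ u ∈ V₁, c u = z ∧ g u = D.G i j q := by
    intro i j
    set K : Set (ℝ × ℝ) := Icc 0 (D.len i j) ×ˢ Icc ε D.sT with hK
    have hKc : IsCompact K := isCompact_Icc.prod isCompact_Icc
    set Z : Set (ℝ × ℝ) := {q ∈ K | ¬ ∃ u ∈ V₁, c u = D.Φ i j q ∧ g u = D.G i j q} with hZ
    have hZK : closure Z ⊆ K := closure_minimal (fun p hp => hp.1) hKc.isClosed
    have hZc : IsCompact (closure Z) := hKc.of_isClosed_subset isClosed_closure hZK
    have hsub : K ⊆ D.dom i j := fun q hq => ⟨hq.1, lt_of_lt_of_le hε0 hq.2.1, hq.2.2⟩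
    have hBc : ContinuousOn (D.Φ i j) (closure Z) := (D.cont i j).mono (hZK.trans hsub)
    have hcl : IsClosed (D.Φ i j '' closure Z) := (hZc.image_of_continuousOn hBc).isClosed
    have hnot : p ∉ D.Φ i j '' closure Z := by
      rintro ⟨q, hq, hqp⟩
      have hqK := hsub (hZK hq)
      have h1 := near V₁ (hV₁.mem_nhds hu₁) i j q hqK hqp
      obtain ⟨q', hq'1, hq'2⟩ := mem_closure_iff_nhds.1 hq _ h1
      exact hq'2.2 (hq'1 (hsub hq'2.1))
    filter_upwards [hcl.isOpen_compl.mem_nhds hnot] with z hz q hq hqz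
    by_contra hq'
    apply hz
    refine ⟨q, subset_closure ⟨hq, ?_⟩, hqz⟩
    rw [hqz]
    exact hq'
  have hlow : ∀ᶠ z : P4 in 𝓝 p, ε < z.2.1 := by
    have hc0 : Continuous fun z : P4 => z.2.1 := by fun_prop
    exact hc0.continuousAt.tendsto.eventually (lt_mem_nhds (by rw [hε]; linarith [hpt.1]))
  have hall : ∀ᶠ z in 𝓝 p, ε < z.2.1 ∧ ∀ i j : Bool, ∀ q ∈ Icc 0 (D.len i j) ×ˢ Icc ε D.sT, D.Φ i j q = z →
      ∃ u ∈ V₁, c u = z ∧ g u = D.G i j q :=
    hlow.and (eventually_all.2 fun i => eventually_all.2 fun j => key i j)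
  obtain ⟨W, hW1, hWo, hpW⟩ := eventually_nhds_iff.1 hall
  -- the smaller chart
  have hcc : ContinuousOn c V₁ := (hc.mono hVU).continuousOn
  set V : Set (ℝ × ℝ) := V₁ ∩ c ⁻¹' W with hV
  have hVo : IsOpen V := hcc.isOpen_inter_preimage hV₁ hWo
  have hu₀V : u₀ ∈ V := ⟨hu₁, by change c u₀ ∈ W; rw [hcp]; exact hpW⟩
  have hgF : ∀ u ∈ V, D.prim4 (toB (c u)) = g u := by
    intro u hu
    have h1 := hcarr u (hVU hu.1)
    obtain ⟨i, h2⟩ := mem_iUnion.1 h1
    obtain ⟨j, ⟨θ, s⟩, ⟨hθ, hs⟩, h2⟩ := mem_iUnion.1 h2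
    have h3 := D.time i j θ s hθ.1 hθ.2 hs.1 hs.2
    have h4 := hW1 (c u) hu.2
    have h5 : ε < s := by
      have := h4.1
      rwa [← h2, h3] at this
    obtain ⟨u', hu', h6, h7⟩ := h4.2 i j (θ, s) ⟨hθ, h5.le, hs.2⟩ h2
    have h8 : u' = u := hinjOn hu' hu.1 h6
    subst h8
    rw [h7, ← h2, prim4_eq h ⟨hθ, hs⟩]
  have hcd : ∀ u ∈ U, DifferentiableAt ℝ c u := fun u hu =>
    (hc.contDiffAt (hU.mem_nhds hu)).differentiableAt (by simp)
  have hfd : ∀ u ∈ U, ∀ v, fderiv ℝ (fun u => toB (c u)) u v = toB (fderiv ℝ c u v) := by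
    intro u hu v
    have e : fderiv ℝ (fun u => toB (c u)) u = toB.comp (fderiv ℝ c u) :=
      (toB.hasFDerivAt.comp u (hcd u hu).hasFDerivAt).fderiv
    rw [e]
    rfl
  refine locM_of_chart hs4 (φ := fun u => toB (c u)) (x₀ := u₀) (H := g) (V := V) hVo hu₀V
    (toB.contDiff.comp_contDiffOn (hc.mono (fun u hu => hVU hu.1))) ?_ ?_ ?_ ?_ (hg.mono (fun u hu => hVU hu.1))
    hgF ?_
  · intro v w hvw
    rw [hfd u₀ hu₀, hfd u₀ hu₀] at hvw
    exact hinj (toB_injective hvw)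
  · change toB (c u₀) = toB p
    rw [hcp]
  · intro u hu
    exact (D.mem_union_iff _).2 (hcarr u (hVU hu.1))
  · intro N₀ hN₀ k u hu s hs e
    have h1 : D.Φ (bi k).1 (bi k).2 (D.pos k u, s) = p := toB_injective e
    have h2 := near N₀ hN₀ _ _ (D.pos k u, s) ⟨D.pos_mem hu, hs⟩ h1
    have hcont : Continuous fun r : ℝ × ℝ => (D.pos k r.1, r.2) :=
      ((D.pos_continuous k).comp continuous_fst).prodMk continuous_snd
    have h3 := (hcont.continuousAt (x := ((u, s) : ℝ × ℝ))).tendsto.eventually h2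
    filter_upwards [h3] with r hr hr1 hr2
    obtain ⟨u', hu', h4, -⟩ := hr ⟨D.pos_mem hr1, hr2⟩
    refine ⟨u', hu', ?_⟩
    change toB (c u') = D.arc4 k r.1 r.2
    rw [h4]
    rfl
  · intro u hu v
    rw [hd u (hVU hu.1) v, hfd u (hVU hu.1) v]
    rfl

/-- Four strips with local charts give the statement, through `Bridge2` (arc 0 = strip (false,false) reversed,
1 = (false,true), 2 = (true,true) reversed, 3 = (true,false)). The primitive on the surface is defined by choice; it is well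
defined because two names of a point have the same parameter `u₀` in the chart. -/
theorem statement_of_qstrips (D : QStrips) (h : ∀ p ∈ D.carrier, D.HasChart p) : Statement := by
  have hs4 := D.strips4
  refine Pool.Agent.Lib_MP_59ec1f_cap.statement_of_strips hs4 (F := D.prim4) ?_ ?_
  · rintro m ⟨k, u, hu, s, hs, rfl⟩ hm
    have h1 := hs4.lev k u hu s hs
    have hu' := D.pos_mem hu
    rw [h1] at hm ⊢
    have h2 : D.prim4 (D.arc4 k u s) = D.G (bi k).1 (bi k).2 (D.pos k u, s) := prim4_eq h ⟨hu', hs⟩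
    rw [h2, D.coneG _ _ _ s hu'.1 hu'.2 hs.1 hm]
    rfl
  · rintro m ⟨k, u, hu, s, hs, rfl⟩
    refine HasChart.locM h ?_
    refine mem_iUnion.2 ⟨(bi k).1, mem_iUnion.2 ⟨(bi k).2, ?_⟩⟩
    exact ⟨(D.pos k u, s), ⟨D.pos_mem hu, hs⟩, rfl⟩

end QStrips

end Pool.Agent.Lib_MP_59ec1f_cap
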