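import Pool.Agent.Lib_MP_59ec1f_cap.TopStrips
import Pool.Agent.Lib_MP_59ec1f_cap.StripsModel

/-!
# The whole surface

`LowStrips` is the lower part (`0 < s < S`) of the four strips. Together with the top (`TopArcs`, `TopOut`), which agrees with
it on an overlap, it gives the statement.
-/

set_option autoImplicit false

open scoped ContDiff Topology

namespace Pool.Agent.Lib_MP_59ec1f_cap

/-- the lower part of the four strips -/
structure LowStrips where
  len : Bool → Bool → ℝ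
  sA : ℝ
  sB : ℝ
  S : ℝ
  Φ : Bool → Bool → ℝ × ℝ → P4
  G : Bool → Bool → ℝ × ℝ → ℝ
  len_pos : ∀ i j, 0 < len i j
  hA : 1 / 2 < sA
  hAB : sA < sB
  hBS : sB < S
  cont : ∀ i j, ContinuousOn (Φ i j) (Set.Icc 0 (len i j) ×ˢ Set.Ioo 0 S)
  time : ∀ i j θ s, 0 ≤ θ → θ ≤ len i j → 0 < s → s < S → (Φ i j (θ, s)).2.1 = s
  cone : ∀ i j θ s, 0 ≤ θ → θ ≤ len i j → 0 < s → s ≤ 1 / 2 →
    Φ i j (θ, s) = ((Φ i j (θ, 1 / 2)).1, s, 2 * s * (Φ i j (θ, 1 / 2)).2.2.1, (Φ i j (θ, 1 / 2)).2.2.2)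
  coneG : ∀ i j θ s, 0 ≤ θ → θ ≤ len i j → 0 < s → s ≤ 1 / 2 → G i j (θ, s) = s * (Φ i j (θ, s)).2.2.2
  glueA₁ : ∀ i s, 0 < s → s ≤ sA → Φ i false (0, s) = Φ i true (0, s)
  glueA₂ : ∀ j s, sA ≤ s → s < S → Φ false j (0, s) = Φ true j (0, s)
  glueB₁ : ∀ j s, 0 < s → s ≤ sB → Φ false j (len false j, s) = Φ true j (len true j, s)
  glueB₂ : ∀ i s, sB ≤ s → s < S → Φ i false (len i false, s) = Φ i true (len i true, s)
  inj : ∀ i j θ i' j' θ' s, 0 ≤ θ → θ ≤ len i j → 0 ≤ θ' → θ' ≤ len i' j' → 0 < s → s ≤ S - 1 / 4 →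
    Φ i j (θ, s) = Φ i' j' (θ', s) →
      (i = i' ∧ j = j' ∧ θ = θ') ∨
      (θ = 0 ∧ θ' = 0 ∧ ((s ≤ sA ∧ i = i') ∨ (sA ≤ s ∧ j = j') ∨ s = sA)) ∨
      (θ = len i j ∧ θ' = len i' j' ∧ ((s ≤ sB ∧ j = j') ∨ (sB ≤ s ∧ i = i') ∨ s = sB))

/-- the top fits to the lower part -/
structure Fits (L : LowStrips) {μ : Moll} {I : TopIn μ} (A : TopArcs I) (O : TopOut μ I) : Prop where
  hS : L.S = I.s₀ + 1 / 4
  hB : L.sB < I.s₀
  len : ∀ i j, L.len i j = A.len i j
  eq : ∀ i j θ s, 0 ≤ θ → θ ≤ A.len i j → I.s₀ - 1 / 4 < s → s < I.s₀ + 1 / 4 →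
    L.Φ i j (θ, s) = A.Φ O i j (θ, s) ∧ L.G i j (θ, s) = A.G O i j (θ, s)

namespace Fits

variable {L : LowStrips} {μ : Moll} {I : TopIn μ} {A : TopArcs I} {O : TopOut μ I} (h : Fits L A O)

include h

theorem s₀_gt : 1 / 2 < I.s₀ := by
  have := L.hA
  have := L.hAB
  have := h.hB
  linarith

/-- the strip maps -/
noncomputable def Φ (_ : Fits L A O) (i j : Bool) (p : ℝ × ℝ) : P4 :=
  open Classical in if p.2 < I.s₀ then L.Φ i j p else A.Φ O i j p

/-- the primitives -/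
noncomputable def G (_ : Fits L A O) (i j : Bool) (p : ℝ × ℝ) : ℝ :=
  open Classical in if p.2 < I.s₀ then L.G i j p else A.G O i j p

theorem low {i j : Bool} {θ s : ℝ} (h0 : 0 ≤ θ) (h1 : θ ≤ A.len i j) (hs : s < I.s₀ + 1 / 4) :
    h.Φ i j (θ, s) = L.Φ i j (θ, s) ∧ h.G i j (θ, s) = L.G i j (θ, s) := by
  unfold Fits.Φ Fits.G
  by_cases hc : s < I.s₀
  · simp only [if_pos hc]
    exact ⟨trivial, trivial⟩
  · simp only [if_neg hc]
    obtain ⟨e1, e2⟩ := h.eq i j θ s h0 h1 (by linarith [not_lt.1 hc]) hs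
    exact ⟨e1.symm, e2.symm⟩

theorem high {i j : Bool} {θ s : ℝ} (h0 : 0 ≤ θ) (h1 : θ ≤ A.len i j) (hs : I.s₀ - 1 / 4 < s) :
    h.Φ i j (θ, s) = A.Φ O i j (θ, s) ∧ h.G i j (θ, s) = A.G O i j (θ, s) := by
  unfold Fits.Φ Fits.G
  by_cases hc : s < I.s₀
  · simp only [if_pos hc]
    exact h.eq i j θ s h0 h1 hs (by linarith)
  · simp only [if_neg hc]
    exact ⟨trivial, trivial⟩

/-- the four strips -/
noncomputable def strips : QStrips where
  len := A.len
  sA := L.sA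
  sB := L.sB
  sT := O.sT
  Φ := h.Φ
  G := h.G
  top := O.C 0
  len_pos := A.len_pos
  hA := L.hA
  hB := by linarith [L.hA, L.hAB]
  hAT := by linarith [L.hAB, h.hB, O.hT]
  hAB := L.hAB
  hBT := by linarith [h.hB, O.hT]
  cont := by
    intro i j
    rintro ⟨θ, s⟩ ⟨⟨h0, h1⟩, h2, h3⟩
    simp only at h0 h1 h2 h3
    rcases lt_or_ge s (I.s₀ + 1 / 4) with h4 | h4
    · have h5 : ContinuousWithinAt (L.Φ i j) (Set.Icc 0 (L.len i j) ×ˢ Set.Ioo 0 L.S) (θ, s) :=
        L.cont i j (θ, s) ⟨⟨h0, by rw [h.len]; exact h1⟩, h2, by rw [h.hS]; exact h4⟩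
      have h6 : ContinuousWithinAt (L.Φ i j) (Set.Icc 0 (A.len i j) ×ˢ Set.Ioc 0 O.sT) (θ, s) := by
        refine h5.mono_of_mem_nhdsWithin ?_
        have h7 : {p : ℝ × ℝ | p.2 < I.s₀ + 1 / 4} ∈ 𝓝 ((θ, s) : ℝ × ℝ) :=
          (isOpen_lt continuous_snd continuous_const).mem_nhds h4
        filter_upwards [mem_nhdsWithin_of_mem_nhds h7, self_mem_nhdsWithin] with q hq hq'
        exact ⟨by rw [h.len]; exact hq'.1, hq'.2.1, by rw [h.hS]; exact hq⟩
      refine h6.congr_of_eventuallyEq ?_ ((h.low h0 h1 h4).1)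
      have h7 : {p : ℝ × ℝ | p.2 < I.s₀ + 1 / 4} ∈ 𝓝 ((θ, s) : ℝ × ℝ) :=
        (isOpen_lt continuous_snd continuous_const).mem_nhds h4
      filter_upwards [mem_nhdsWithin_of_mem_nhds h7, self_mem_nhdsWithin] with q hq hq'
      exact (h.low (θ := q.1) (s := q.2) hq'.1.1 hq'.1.2 hq).1
    · have h5 : ContinuousWithinAt (A.Φ O i j) {p | I.s₀ - 1 / 4 < p.2 ∧ p.2 ≤ O.sT} (θ, s) :=
        A.Φ_cont O i j (θ, s) ⟨by simp only; linarith, h3⟩
      have h7 : {p : ℝ × ℝ | I.s₀ - 1 / 4 < p.2} ∈ 𝓝 ((θ, s) : ℝ × ℝ) :=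
        (isOpen_lt continuous_const continuous_snd).mem_nhds (by simp only [Set.mem_setOf_eq]; linarith)
      have h6 : ContinuousWithinAt (A.Φ O i j) (Set.Icc 0 (A.len i j) ×ˢ Set.Ioc 0 O.sT) (θ, s) := by
        refine h5.mono_of_mem_nhdsWithin ?_
        filter_upwards [mem_nhdsWithin_of_mem_nhds h7, self_mem_nhdsWithin] with q hq hq'
        exact ⟨hq, hq'.2.2⟩
      refine h6.congr_of_eventuallyEq ?_ ((h.high h0 h1 (by linarith)).1)
      filter_upwards [mem_nhdsWithin_of_mem_nhds h7, self_mem_nhdsWithin] with q hq hq'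
      exact (h.high (θ := q.1) (s := q.2) hq'.1.1 hq'.1.2 hq).1
  time := by
    intro i j θ s h0 h1 h2 h3
    rcases lt_or_ge s (I.s₀ + 1 / 4) with h4 | h4
    · rw [(h.low h0 h1 h4).1]
      exact L.time i j θ s h0 (by rw [h.len]; exact h1) h2 (by rw [h.hS]; exact h4)
    · rw [(h.high h0 h1 (by linarith)).1]
      exact A.Φ_time O i j (by linarith) h3
  atTop := by
    intro i j θ h0 h1
    have := O.hT
    rw [(h.high h0 h1 (by linarith)).1]
    exact A.Φ_top O i j θ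
  cone := by
    intro i j θ s h0 h1 h2 h3
    have := h.s₀_gt
    rw [(h.low h0 h1 (by linarith)).1, (h.low (s := 1 / 2) h0 h1 (by linarith)).1]
    exact L.cone i j θ s h0 (by rw [h.len]; exact h1) h2 h3
  coneG := by
    intro i j θ s h0 h1 h2 h3
    have := h.s₀_gt
    rw [(h.low h0 h1 (by linarith)).1, (h.low h0 h1 (by linarith)).2]
    exact L.coneG i j θ s h0 (by rw [h.len]; exact h1) h2 h3
  glueA₁ := by
    intro i s h2 h3
    have := L.hAB
    have := h.hB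
    have l1 := (A.len_pos i false).le
    have l2 := (A.len_pos i true).le
    rw [(h.low le_rfl l1 (by linarith)).1, (h.low le_rfl l2 (by linarith)).1]
    exact L.glueA₁ i s h2 h3
  glueA₂ := by
    intro j s h2 h3
    have l1 := (A.len_pos false j).le
    have l2 := (A.len_pos true j).le
    rcases lt_or_ge s (I.s₀ + 1 / 4) with h4 | h4
    · rw [(h.low le_rfl l1 h4).1, (h.low le_rfl l2 h4).1]
      exact L.glueA₂ j s h2 (by rw [h.hS]; exact h4)
    · rw [(h.high le_rfl l1 (by linarith)).1, (h.high le_rfl l2 (by linarith)).1]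
      exact (A.Φ_A O j s).1
  glueB₁ := by
    intro j s h2 h3
    have := h.hB
    have l1 := (A.len_pos false j).le
    have l2 := (A.len_pos true j).le
    rw [(h.low l1 le_rfl (by linarith)).1, (h.low l2 le_rfl (by linarith)).1]
    have := L.glueB₁ j s h2 h3
    rw [h.len, h.len] at this
    exact this
  glueB₂ := by
    intro i s h2 h3
    have l1 := (A.len_pos i false).le
    have l2 := (A.len_pos i true).le
    rcases lt_or_ge s (I.s₀ + 1 / 4) with h4 | h4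
    · rw [(h.low l1 le_rfl h4).1, (h.low l2 le_rfl h4).1]
      have := L.glueB₂ i s h2 (by rw [h.hS]; exact h4)
      rw [h.len, h.len] at this
      exact this
    · rw [(h.high l1 le_rfl (by linarith)).1, (h.high l2 le_rfl (by linarith)).1]
      exact (A.Φ_B O i s).1
  inj := by
    intro i j θ i' j' θ' s h0 h1 h0' h1' h2 h3 he
    rcases le_or_gt s I.s₀ with h4 | h4
    · rw [(h.low h0 h1 (by linarith)).1, (h.low h0' h1' (by linarith)).1] at he
      have := L.inj i j θ i' j' θ' s h0 (by rw [h.len]; exact h1) h0' (by rw [h.len]; exact h1') h2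
        (by rw [h.hS]; linarith) he
      rw [h.len, h.len] at this
      exact this
    · rw [(h.high h0 h1 (by linarith)).1, (h.high h0' h1' (by linarith)).1] at he
      have := L.hAB
      have := h.hB
      rcases A.Φ_inj O h0 h1 h0' h1' (by linarith) h3 he with h5 | ⟨h5, h6, h7⟩ | ⟨h5, h6, h7⟩
      · exact Or.inl h5
      · exact Or.inr (Or.inl ⟨h5, h6, Or.inr (Or.inl ⟨by linarith, h7⟩)⟩)
      · exact Or.inr (Or.inr ⟨h5, h6, Or.inr (Or.inl ⟨by linarith, h7⟩)⟩)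

theorem mem_dom {i j : Bool} {q : ℝ × ℝ} : q ∈ h.strips.dom i j ↔ (0 ≤ q.1 ∧ q.1 ≤ A.len i j) ∧ 0 < q.2 ∧ q.2 ≤ O.sT :=
  Iff.rfl

/-- charts at all points from charts of the lower part -/
theorem hasChart (hc : ∀ p ∈ h.strips.carrier, p.2.1 ≤ L.S - 1 / 4 → h.strips.HasChart p) {p : P4}
    (hp : p ∈ h.strips.carrier) : h.strips.HasChart p := by
  have hs₀ := h.s₀_gt
  rcases lt_or_ge (I.s₀ - 1 / 4) p.2.1 with h1 | h1
  · exact A.hasChart O h.strips (by linarith) (fun _ _ => rfl) rfl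
      (fun i j θ s k0 k1 k2 _ => h.high k0 k1 k2) hp h1
  · exact hc p hp (by rw [h.hS]; linarith)

theorem statement (hc : ∀ p ∈ h.strips.carrier, p.2.1 ≤ L.S - 1 / 4 → h.strips.HasChart p) : Statement :=
  h.strips.statement_of_qstrips fun _ hp => h.hasChart hc hp

end Fits

end Pool.Agent.Lib_MP_59ec1f_cap
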