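import Pool.Agent.Lib_MP_59ec1f_cap.LowBasic

/-!
# The lower part: the cone
-/

set_option autoImplicit false

open Set
open scoped ContDiff Topology

namespace Pool.Agent.Lib_MP_59ec1f_cap

/-- a row which is odd at the nodes `-1, 0, 1` -/
theorem Moll.pl_odd (μ : Moll) {g : ℤ → ℝ} (h0 : g 0 = 0) (h1 : g (-1) = -g 1) {t : ℝ} (ht : |t| < 1 - μ.ep) :
    μ.pl g t = t * g 1 ∧ deriv (μ.pl g) t = g 1 := by
  have ht' : |t - ((0 : ℤ) : ℝ)| < 1 - μ.ep := by simpa using ht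
  constructor
  · have := μ.pl_affine (f := g) (a := 0) (b := g 1) (n := 0) (s := t) ht'.le
      (by simp only [zero_sub, h1]; push_cast; ring) (by rw [h0]; simp) (by simp)
    rw [this]
    ring
  · have := μ.deriv_pl' g ht'
    rw [this]
    simp only [zero_add, zero_sub, h0, h1, sub_zero]
    ring

namespace StripTab

variable {T : StripTab}

section

variable {μ : Moll} {EA EB : Bool → Bool → ℝ × ℝ → P4 × ℝ} {sA sB : ℝ} {i j : Bool} {n m : ℤ} {θ s : ℝ}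

theorem ext_odd (h : T.Ok) (h' : T.Ok2) (a b : Bool) (h0 : -1 ≤ n) (h1 : n ≤ T.len i j + 1) :
    (T.ext a b i j).y n 0 = 0 ∧ (T.ext a b i j).y n (-1) = -(T.ext a b i j).y n 1 := by
  rcases lt_or_ge n 0 with h2 | h2
  · have hl := h.len2 (prt a i j).1 (prt a i j).2
    rw [ext_y_neg h2]
    exact h'.cone _ _ _ (by omega) (by omega)
  · rcases lt_or_ge (T.len i j) n with h3 | h3
    · have hl := h.len2 (prt b i j).1 (prt b i j).2
      rw [ext_y_gt h2 h3]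
      exact h'.cone _ _ _ (by omega) (by omega)
    · rw [ext_y h2 h3]
      exact h'.cone _ _ _ h2 h3

theorem ext_oddF (h : T.Ok) (h' : T.Ok2) (a b : Bool) (h0 : -1 ≤ n) (h1 : n ≤ T.len i j) :
    (T.ext a b i j).f n 0 = 0 ∧ (T.ext a b i j).f n (-1) = -(T.ext a b i j).f n 1 := by
  rcases lt_or_ge n 0 with h2 | h2
  · have hl := h.len2 (prt a i j).1 (prt a i j).2
    rw [ext_f_neg h2]
    exact h'.coneF _ _ _ (by omega) (by omega)
  · rcases le_or_gt (T.len i j) n with h3 | h3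
    · have hl := h.len2 (prt b i j).1 (prt b i j).2
      rw [ext_f_ge h2 h3]
      exact h'.coneF _ _ _ (by omega) (by omega)
    · rw [ext_f h2 h3]
      exact h'.coneF _ _ _ h2 h3

/-- the cone -/
theorem F_cone (h : T.Ok) (h' : T.Ok2) (hEA : T.FitA μ EA) (hEB : T.FitB μ EB) (hθ0 : 0 ≤ θ) (hθ1 : θ ≤ T.len i j) :
    ∃ X Y τ : ℝ, ∀ s, 0 < s → s < 3 / 4 → T.F μ EA EB i j (θ, s) = ((X, s, s * Y, τ), s * τ) := by
  have hA := h.hA
  have hAB := h.hAB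
  have hBM := h.hBM
  have hl := h.len2 i j
  have hMr : (0 : ℝ) ≤ T.M := by
    have : 0 ≤ T.M := by omega
    exact_mod_cast this
  obtain ⟨n, h0, h1, hg, hn⟩ : ∃ n, 0 ≤ n ∧ n ≤ T.len i j ∧ T.good i j n 0 ∧ |θ - n| ≤ 1 / 2 := by
    rcases h.cases 0 hθ0 hθ1 with h2 | ⟨h2, -⟩ | ⟨h2, -⟩
    · exact h2
    · omega
    · omega
  set Z := T.win 0 i j with hZ
  have o0 : Z.y (n - 1) 0 = 0 ∧ Z.y (n - 1) (-1) = -Z.y (n - 1) 1 :=
    ext_odd (i := i) (j := j) (n := n - 1) h h' (T.rA 0) (T.rB 0) (by omega) (by omega)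
  have o1 : Z.y n 0 = 0 ∧ Z.y n (-1) = -Z.y n 1 :=
    ext_odd (i := i) (j := j) (n := n) h h' (T.rA 0) (T.rB 0) (by omega) (by omega)
  have o2 : Z.y (n + 1) 0 = 0 ∧ Z.y (n + 1) (-1) = -Z.y (n + 1) 1 :=
    ext_odd (i := i) (j := j) (n := n + 1) h h' (T.rA 0) (T.rB 0) (by omega) (by omega)
  have of : Z.f n 0 = 0 ∧ Z.f n (-1) = -Z.f n 1 :=
    ext_oddF (i := i) (j := j) (n := n) h h' (T.rA 0) (T.rB 0) (by omega) (by omega)
  refine ⟨μ.tri (Z.x (n - 1)) (Z.x n) (Z.x (n + 1)) (θ - n),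
    μ.tri (Z.y (n - 1) 1) (Z.y n 1) (Z.y (n + 1) 1) (θ - n),
    Z.f n 1 / 1600 - μ.J (Z.x (n - 1)) (Z.x n) (Z.x (n + 1)) (Z.y (n - 1) 1) (Z.y n 1) (Z.y (n + 1) 1) (θ - n), ?_⟩
  intro s hs0 hs1
  have hs2 : |s| < 1 - μ.ep := by
    rw [abs_of_pos hs0]
    linarith [μ.ep_lt]
  rw [F_cell h hEA hEB (m := 0) h0 h1 (le_refl 0) (by omega) hg hθ0 hθ1 (by linarith) hs0 (by linarith)
    (by rw [abs_lt]; push_cast; constructor <;> linarith)]
  have cast : ∀ {g : ℤ → ℤ}, g 0 = 0 ∧ g (-1) = -g 1 →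
      μ.pl (fun m => (g m : ℝ)) s = s * g 1 ∧ deriv (μ.pl fun m => (g m : ℝ)) s = g 1 := by
    rintro g ⟨g0, g1⟩
    exact μ.pl_odd (g := fun m => (g m : ℝ)) (by simp [g0]) (by simp [g1]) hs2
  have p0 := cast o0
  have p1 := cast o1
  have p2 := cast o2
  have pf := cast of
  have hf : deriv (fun s => μ.pl (fun m => (Z.f n m : ℝ)) s / 1600) s = Z.f n 1 / 1600 := by
    rw [deriv_div_const, pf.2]
  have e1 : (T.cl μ 0 i j n).pt μ (θ - n, s) = (μ.tri (Z.x (n - 1)) (Z.x n) (Z.x (n + 1)) (θ - n), s,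
      s * μ.tri (Z.y (n - 1) 1) (Z.y n 1) (Z.y (n + 1) 1) (θ - n), Z.f n 1 / 1600 -
        μ.J (Z.x (n - 1)) (Z.x n) (Z.x (n + 1)) (Z.y (n - 1) 1) (Z.y n 1) (Z.y (n + 1) 1) (θ - n)) := by
    refine Prod.ext rfl (Prod.ext rfl (Prod.ext ?_ ?_))
    · change μ.tri (μ.pl (fun m => (Z.y (n - 1) m : ℝ)) s) (μ.pl (fun m => (Z.y n m : ℝ)) s)
        (μ.pl (fun m => (Z.y (n + 1) m : ℝ)) s) (θ - n) = _
      rw [p0.1, p1.1, p2.1]
      unfold Moll.tri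
      ring
    · change deriv (fun s => μ.pl (fun m => (Z.f n m : ℝ)) s / 1600) s -
        μ.J (Z.x (n - 1)) (Z.x n) (Z.x (n + 1)) (deriv (μ.pl fun m => (Z.y (n - 1) m : ℝ)) s)
          (deriv (μ.pl fun m => (Z.y n m : ℝ)) s) (deriv (μ.pl fun m => (Z.y (n + 1) m : ℝ)) s) (θ - n) = _
      rw [hf, p0.2, p1.2, p2.2]
  have e2 : (T.cl μ 0 i j n).prim μ (θ - n, s) = s * (Z.f n 1 / 1600 -
        μ.J (Z.x (n - 1)) (Z.x n) (Z.x (n + 1)) (Z.y (n - 1) 1) (Z.y n 1) (Z.y (n + 1) 1) (θ - n)) := by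
    change μ.pl (fun m => (Z.f n m : ℝ)) s / 1600 -
        μ.J (Z.x (n - 1)) (Z.x n) (Z.x (n + 1)) (μ.pl (fun m => (Z.y (n - 1) m : ℝ)) s)
          (μ.pl (fun m => (Z.y n m : ℝ)) s) (μ.pl (fun m => (Z.y (n + 1) m : ℝ)) s) (θ - n) = _
    rw [p0.1, p1.1, p2.1, pf.1]
    have := μ.J_linear (Z.x (n - 1)) (Z.x n) (Z.x (n + 1)) (Z.y (n - 1) 1) (Z.y n 1) (Z.y (n + 1) 1) 0 0 0 s 0
      (θ - n)
    simp only [mul_zero, add_zero, zero_mul] at this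
    rw [this]
    ring
  unfold Cell.pp
  rw [e1, e2]

end

end StripTab

end Pool.Agent.Lib_MP_59ec1f_cap
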