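import Pool.Agent.Lib_MP_59ec1f_cap.LowCone
import Pool.Agent.Lib_MP_59ec1f_cap.CellTest

/-!
# The lower part: injectivity on time slices
-/

set_option autoImplicit false

open Set
open scoped ContDiff Topology

namespace Pool.Agent.Lib_MP_59ec1f_cap

namespace WC

variable {μ : Moll} {C : WC}

/-- the columns of the neighbours -/
theorem steps (h : C.straight = true ∨ C.fold = true) :
    (C.x2 - C.x1 = 1 ∨ C.x2 - C.x1 = -1) ∧ (C.x0 - C.x1 = 1 ∨ C.x0 - C.x1 = -1) := by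
  rcases h with h | h
  · unfold straight at h
    simp only [Bool.or_eq_true, Bool.and_eq_true, beq_iff_eq] at h
    omega
  · unfold fold at h
    simp only [Bool.or_eq_true, Bool.and_eq_true, beq_iff_eq] at h
    omega

theorem S_sum_le {v : ℝ} (hv : |v| ≤ 1 / 2) {a b : ℝ} (ha : a = 1 ∨ a = -1) (hb : b = 1 ∨ b = -1) :
    |a * μ.S v + b * μ.S (-v)| ≤ μ.Q v := by
  have h1 := μ.nonneg v
  have h2 := μ.nonneg (-v)
  unfold Moll.Q
  rw [abs_le]
  rcases ha with rfl | rfl <;> rcases hb with rfl | rfl <;> constructor <;> linarith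

theorem Q_eq_half {v : ℝ} (hv : |v| ≤ 1 / 2) (h : μ.Q v = 1 / 2) : |v| = 1 / 2 := by
  have h1 : μ.Q |v| = μ.Q v := by
    rcases abs_choice v with h2 | h2
    · rw [h2]
    · rw [h2, μ.Q_neg]
  have h3 : μ.Q (1 / 2) = 1 / 2 := by
    rw [μ.Q_eq_abs (by rw [abs_of_pos (by norm_num)]; linarith [μ.ep_lt]), abs_of_pos (by norm_num)]
  apply μ.Q_strictMonoOn.injOn (abs_nonneg v) (by norm_num : (0 : ℝ) ≤ 1 / 2)
  rw [h1, h, h3]

/-- the `x`-coordinate of a cell -/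
theorem x_le {v u : ℝ} (h : C.straight = true ∨ C.fold = true) (hv : |v| ≤ 1 / 2) :
    |(C.pt μ v u).1 - C.x1| ≤ 1 / 2 ∧ (|(C.pt μ v u).1 - C.x1| = 1 / 2 →
      (v = 1 / 2 ∧ (C.x2 : ℝ) = 2 * (C.pt μ v u).1 - C.x1) ∨ (v = -(1 / 2) ∧ (C.x0 : ℝ) = 2 * (C.pt μ v u).1 - C.x1)) := by
  obtain ⟨h2, h0⟩ := steps h
  have e : (C.pt μ v u).1 - C.x1 = (C.x2 - C.x1 : ℝ) * μ.S v + (C.x0 - C.x1 : ℝ) * μ.S (-v) := by
    change μ.tri C.x0 C.x1 C.x2 v - C.x1 = _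
    unfold Moll.tri
    ring
  have h2r : (C.x2 - C.x1 : ℝ) = 1 ∨ (C.x2 - C.x1 : ℝ) = -1 := by
    rcases h2 with h2 | h2
    · left; exact_mod_cast h2
    · right; exact_mod_cast h2
  have h0r : (C.x0 - C.x1 : ℝ) = 1 ∨ (C.x0 - C.x1 : ℝ) = -1 := by
    rcases h0 with h0 | h0
    · left; exact_mod_cast h0
    · right; exact_mod_cast h0
  have h3 : |(C.pt μ v u).1 - C.x1| ≤ μ.Q v := by
    rw [e]
    exact S_sum_le hv h2r h0r
  have h4 := μ.Q_le_half hv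
  refine ⟨h3.trans h4, fun h5 => ?_⟩
  have h6 : |v| = 1 / 2 := Q_eq_half hv (le_antisymm h4 (by rw [← h5]; exact h3))
  have hS : μ.S (1 / 2) = 1 / 2 := μ.right _ (by linarith [μ.ep_lt])
  have hS' : μ.S (-(1 / 2)) = 0 := μ.left _ (by linarith [μ.ep_lt])
  rcases (abs_eq (by norm_num)).1 h6 with h7 | h7
  · left
    refine ⟨h7, ?_⟩
    rw [h7] at e ⊢
    rw [hS, hS'] at e
    linarith
  · right
    refine ⟨h7, ?_⟩
    rw [h7] at e ⊢
    rw [neg_neg, hS, hS'] at e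
    linarith

/-- in a fold the two neighbours have different heights -/
theorem val_ne {u : ℝ} (hu : |u| ≤ 1 / 2) (h : C.fold = true) : C.y0.val μ u ≠ C.y2.val μ u := by
  unfold fold at h
  simp only [Bool.or_eq_true, Bool.and_eq_true, decide_eq_true_iff, Z3.half] at h
  have key : ∀ y y' : Z3, y.a + y.b < y'.a + y'.b → 2 * y.b < 2 * y'.b → y.b + y.c < y'.b + y'.c →
      y.val μ u < y'.val μ u := by
    intro y y' k0 k1 k2
    have r0 : (y.a : ℝ) + y.b < y'.a + y'.b := by exact_mod_cast k0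
    have r1 : (2 : ℝ) * y.b < 2 * y'.b := by exact_mod_cast k1
    have r2 : (y.b : ℝ) + y.c < y'.b + y'.c := by exact_mod_cast k2
    have := μ.tri_pos (a := (y'.a : ℝ) - y.a) (b := (y'.b : ℝ) - y.b) (c := (y'.c : ℝ) - y.c) hu (by linarith)
      (by linarith) (by linarith)
    unfold Z3.val
    unfold Moll.tri at this ⊢
    linarith
  obtain ⟨-, h | h⟩ := h
  · exact (key _ _ h.1.1 h.1.2 h.2).ne
  · exact (key _ _ h.1.1 h.1.2 h.2).ne'

end WC

namespace StripTab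

variable (T : StripTab)

/-- the vertices `(i, j, n)` and `(i', j', n')` are the same in the window `m` -/
def same (m : ℤ) (i j : Bool) (n : ℤ) (i' j' : Bool) (n' : ℤ) : Prop :=
  (i = i' ∧ j = j' ∧ n = n') ∨ (n = 0 ∧ n' = 0 ∧ (i', j') = prt (T.rA m) i j) ∨
    (n = T.len i j ∧ n' = T.len i' j' ∧ (i', j') = prt (T.rB m) i j)

instance (m : ℤ) (i j : Bool) (n : ℤ) (i' j' : Bool) (n' : ℤ) : Decidable (T.same m i j n i' j' n') := by
  unfold same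
  infer_instance

/-- the tests for pairs of cells -/
structure Ok3 : Prop where
  hA2 : 2 ≤ T.mA
  shape : ∀ (i j : Bool) (n m : ℤ), 0 ≤ n → n ≤ T.len i j → 1 ≤ m → m ≤ T.M → T.good i j n m →
    (T.cel i j n m).straight = true ∨ (T.cel i j n m).fold = true
  pair : ∀ (i j : Bool) (n : ℤ) (i' j' : Bool) (n' m : ℤ), 0 ≤ n → n ≤ T.len i j → 0 ≤ n' → n' ≤ T.len i' j' →
    1 ≤ m → m ≤ T.M → T.good i j n m → T.good i' j' n' m → T.x i j n = T.x i' j' n' →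
    T.same m i j n i' j' n' ∨ (T.cel i j n m).pairTest (T.cel i' j' n' m) = true
  hullA : ∀ (i j i' j' : Bool) (n' : ℤ), 0 ≤ n' → n' ≤ T.len i' j' → T.good i' j' n' T.mA →
    T.x i' j' n' = T.x i j 0 → (T.cel i j 0 T.mA).hullTest (T.cel i' j' n' T.mA) = true
  hullB : ∀ (i j i' j' : Bool) (n' : ℤ), 0 ≤ n' → n' ≤ T.len i' j' → T.good i' j' n' T.mB →
    T.x i' j' n' = T.x i j (T.len i j) → (T.cel i j (T.len i j) T.mB).hullTest (T.cel i' j' n' T.mB) = true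

/-- the map at the end `A` is injective and near the saddle vertex -/
structure InjA (μ : Moll) (E : Bool → Bool → ℝ × ℝ → P4 × ℝ) (sA : ℝ) : Prop where
  inj : ∀ (i j i' j' : Bool) (ρ ρ' s : ℝ), |s - T.mA| < 3 / 4 → 0 ≤ ρ → ρ ≤ 1 / 2 → 0 ≤ ρ' → ρ' ≤ 1 / 2 →
    (E i j (ρ, s)).1 = (E i' j' (ρ', s)).1 → (i = i' ∧ j = j' ∧ ρ = ρ') ∨
      (ρ = 0 ∧ ρ' = 0 ∧ ((s ≤ sA ∧ i = i') ∨ (sA ≤ s ∧ j = j') ∨ s = sA))
  hull : ∀ (i j : Bool) (ρ s : ℝ), |s - T.mA| ≤ 1 / 2 → 0 ≤ ρ → ρ ≤ 1 / 2 →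
    (T.cel i j 0 T.mA).InHull μ (s - T.mA) ((E i j (ρ, s)).1.1, (E i j (ρ, s)).1.2.2.1)
  col : ∀ (i j : Bool) (ρ s : ℝ), |s - T.mA| ≤ 1 / 2 → 0 ≤ ρ → ρ < 1 / 2 → |(E i j (ρ, s)).1.1 - T.x i j 0| < 1 / 2

/-- the map at the end `B` is injective and near the saddle vertex -/
structure InjB (μ : Moll) (E : Bool → Bool → ℝ × ℝ → P4 × ℝ) (sB : ℝ) : Prop where
  inj : ∀ (i j i' j' : Bool) (ρ ρ' s : ℝ), |s - T.mB| < 3 / 4 → 0 ≤ ρ → ρ ≤ 1 / 2 → 0 ≤ ρ' → ρ' ≤ 1 / 2 →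
    (E i j (ρ, s)).1 = (E i' j' (ρ', s)).1 → (i = i' ∧ j = j' ∧ ρ = ρ') ∨
      (ρ = 0 ∧ ρ' = 0 ∧ ((s ≤ sB ∧ j = j') ∨ (sB ≤ s ∧ i = i') ∨ s = sB))
  hull : ∀ (i j : Bool) (ρ s : ℝ), |s - T.mB| ≤ 1 / 2 → 0 ≤ ρ → ρ ≤ 1 / 2 →
    (T.cel i j (T.len i j) T.mB).InHull μ (s - T.mB) ((E i j (ρ, s)).1.1, (E i j (ρ, s)).1.2.2.1)
  col : ∀ (i j : Bool) (ρ s : ℝ), |s - T.mB| ≤ 1 / 2 → 0 ≤ ρ → ρ < 1 / 2 →
    |(E i j (ρ, s)).1.1 - T.x i j (T.len i j)| < 1 / 2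

variable {T}

section

variable {μ : Moll} {EA EB : Bool → Bool → ℝ × ℝ → P4 × ℝ} {sA sB : ℝ} {i j i' j' : Bool} {n n' m : ℤ} {θ θ' s : ℝ}

theorem w_half (hs : 0 < s) (hs' : s ≤ T.M + 1 / 2) : |s - T.w s| ≤ 1 / 2 := by
  have h1 := abs_le.1 (abs_sub_round_le s)
  unfold w
  rcases le_total (round s) T.M with h | h
  · rw [min_eq_left h]
    exact abs_sub_round_le s
  · rw [min_eq_right h]
    have h3 : (T.M : ℝ) ≤ round s := by exact_mod_cast h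
    rw [abs_le]
    constructor <;> linarith [h1.1]

theorem one_le_w (hM : 1 ≤ T.M) (hs : 1 / 2 ≤ s) : 1 ≤ T.w s := by
  unfold w
  refine le_min ?_ hM
  rw [round_eq, Int.le_floor]
  push_cast
  linarith

theorem cl_pt (hs : |s - m| < 3 / 4) {v : ℝ} : (T.cl μ m i j n).pt μ (v, s) =
    (((T.cel i j n m).pt μ v (s - m)).1, s, ((T.cel i j n m).pt μ v (s - m)).2.1,
      ((T.cel i j n m).pt μ v (s - m)).2.2) :=
  ZChain.cell_pt (C := T.win m i j) (by linarith [μ.ep_lt])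

theorem cel_x1 (h0 : 0 ≤ n) (h1 : n ≤ T.len i j) : (T.cel i j n m).x1 = T.x i j n := ext_x h0 h1

theorem cel_x2 (h0 : 0 ≤ n) (h1 : n + 1 ≤ T.len i j) : (T.cel i j n m).x2 = T.x i j (n + 1) :=
  ext_x (by omega) h1

theorem cel_x0 (h0 : 0 ≤ n - 1) (h1 : n ≤ T.len i j) : (T.cel i j n m).x0 = T.x i j (n - 1) :=
  ext_x h0 (by omega)

/-- a cell which is straight or a fold is injective on time slices -/
theorem cl_inj (h3 : T.Ok3) (h0 : 0 ≤ n) (h1 : n ≤ T.len i j) (hm : 1 ≤ m) (hm' : m ≤ T.M) (hg : T.good i j n m)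
    (hs : |s - m| ≤ 1 / 2) {v v' : ℝ} (e : (T.cl μ m i j n).pt μ (v, s) = (T.cl μ m i j n).pt μ (v', s)) : v = v' := by
  refine (T.cl μ m i j n).pt_inj μ (s := s) ?_ e
  have hs' : |s - m| ≤ 1 - μ.ep := by linarith [μ.ep_lt]
  have hy : ∀ k, (((T.win m i j).toChain μ).y k) s = (Z3.of ((T.win m i j).y k) m).val μ (s - m) :=
    fun k => Z3.val_of μ _ hs'
  rcases h3.shape i j n m h0 h1 hm hm' hg with h | h
  · left
    have h' := h
    unfold WC.straight at h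
    simp only [Bool.or_eq_true, Bool.and_eq_true, beq_iff_eq] at h
    have k : (T.cel i j n m).x1 - (T.cel i j n m).x0 = (T.cel i j n m).x2 - (T.cel i j n m).x1 ∧
        (T.cel i j n m).x1 ≠ (T.cel i j n m).x0 := by omega
    constructor
    · have := k.1
      change ((T.cel i j n m).x1 : ℝ) - (T.cel i j n m).x0 = (T.cel i j n m).x2 - (T.cel i j n m).x1
      exact_mod_cast this
    · have := k.2
      change ((T.cel i j n m).x1 : ℝ) ≠ (T.cel i j n m).x0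
      exact_mod_cast this
  · right
    have hv := WC.val_ne (μ := μ) hs h
    unfold WC.fold at h
    simp only [Bool.or_eq_true, Bool.and_eq_true, beq_iff_eq] at h
    have k : (T.cel i j n m).x0 = (T.cel i j n m).x2 ∧ (T.cel i j n m).x1 ≠ (T.cel i j n m).x0 := by omega
    refine ⟨?_, ?_, ?_⟩
    · have := k.1
      change ((T.cel i j n m).x0 : ℝ) = (T.cel i j n m).x2
      exact_mod_cast this
    · have := k.2
      change ((T.cel i j n m).x1 : ℝ) ≠ (T.cel i j n m).x0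
      exact_mod_cast this
    · change (((T.win m i j).toChain μ).y (n - 1)) s ≠ (((T.win m i j).toChain μ).y (n + 1)) s
      rw [hy, hy]
      exact hv

/-- the name of a point in an ordinary cell: the column is unique, except for the midpoints -/
theorem exists_col (h : T.Ok) (h3 : T.Ok3) (h0 : 0 ≤ n) (h1 : n ≤ T.len i j) (hm : 1 ≤ m)
    (hm' : m ≤ T.M) (hg : T.good i j n m) (hs : |s - m| ≤ 1 / 2) (hθ0 : 0 ≤ θ) (hθ1 : θ ≤ T.len i j)
    (hθ : |θ - n| ≤ 1 / 2) {X : ℝ} (hX : ((T.cl μ m i j n).pt μ (θ - n, s)).1 = X) :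
    |X - T.x i j n| ≤ 1 / 2 ∧ (|X - T.x i j n| = 1 / 2 → ∃ k, 0 ≤ k ∧ k ≤ T.len i j ∧ |θ - k| ≤ 1 / 2 ∧
      (T.x i j k : ℝ) = 2 * X - T.x i j n) := by
  have hs' : |s - m| < 3 / 4 := by linarith
  rw [cl_pt hs'] at hX
  simp only at hX
  have key := WC.x_le (μ := μ) (v := θ - n) (u := s - m) (h3.shape i j n m h0 h1 hm hm' hg) hθ
  rw [hX, cel_x1 h0 h1] at key
  refine ⟨key.1, fun h2 => ?_⟩
  rcases key.2 h2 with ⟨k1, k2⟩ | ⟨k1, k2⟩
  · have h4 : (n : ℝ) + 1 / 2 ≤ T.len i j := by linarith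
    have h5 : (n : ℝ) < T.len i j := by linarith
    have h6 : n < T.len i j := by exact_mod_cast h5
    refine ⟨n + 1, by omega, by omega, ?_, ?_⟩
    · have : θ - ((n + 1 : ℤ) : ℝ) = -(1 / 2) := by push_cast; linarith
      rw [this, abs_neg, abs_of_pos (by norm_num)]
    · rw [← cel_x2 (T := T) (m := m) h0 (by omega)]
      exact k2
  · have h4 : (0 : ℝ) ≤ n - 1 / 2 := by linarith
    have h5 : (0 : ℝ) < n := by linarith
    have h6 : 0 < n := by exact_mod_cast h5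
    refine ⟨n - 1, by omega, by omega, ?_, ?_⟩
    · have : θ - ((n - 1 : ℤ) : ℝ) = 1 / 2 := by push_cast; linarith
      rw [this, abs_of_pos (by norm_num)]
    · rw [← cel_x0 (T := T) (m := m) (by omega) h1]
      exact k2

/-- injectivity for two ordinary cells in the same column -/
theorem inj_same_col (h : T.Ok) (h2 : T.Ok2) (h3 : T.Ok3) (hA : T.GlueA EA sA) (hB : T.GlueB EB sB) (h0 : 0 ≤ n)
    (h1 : n ≤ T.len i j) (h0' : 0 ≤ n') (h1' : n' ≤ T.len i' j') (hs1 : 1 / 2 ≤ s) (hsM : s ≤ T.M + 1 / 2)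
    (hg : T.good i j n (T.w s)) (hg' : T.good i' j' n' (T.w s))
    (hθ0 : 0 ≤ θ) (hθ1 : θ ≤ T.len i j) (hθ0' : 0 ≤ θ') (hθ1' : θ' ≤ T.len i' j')
    (hθ : |θ - n| ≤ 1 / 2) (hθ' : |θ' - n'| ≤ 1 / 2) (hx : T.x i j n = T.x i' j' n')
    (e : (T.cl μ (T.w s) i j n).pt μ (θ - n, s) = (T.cl μ (T.w s) i' j' n').pt μ (θ' - n', s)) :
    (i = i' ∧ j = j' ∧ θ = θ') ∨
      (θ = 0 ∧ θ' = 0 ∧ ((s ≤ sA ∧ i = i') ∨ (sA ≤ s ∧ j = j') ∨ s = sA)) ∨
      (θ = T.len i j ∧ θ' = T.len i' j' ∧ ((s ≤ sB ∧ j = j') ∨ (sB ≤ s ∧ i = i') ∨ s = sB)) := by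
  have hsA := abs_lt.1 hA.hs
  have hsB := abs_lt.1 hB.hs
  have hmA := h.hA
  have hAB := h.hAB
  have hBM := h.hBM
  have hs0 : 0 < s := by linarith
  obtain ⟨w0, w1, w2⟩ := w_mem (T := T) hs0 (by omega) (by linarith)
  have w4 := one_le_w (T := T) (by omega) hs1
  have w3 := w_half (T := T) hs0 hsM
  rcases h3.pair i j n i' j' n' (T.w s) h0 h1 h0' h1' w4 w1 hg hg' hx with hsame | htest
  · rcases hsame with ⟨e1, e2, e3⟩ | ⟨e1, e2, e3⟩ | ⟨e1, e2, e3⟩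
    · subst e1 e2 e3
      left
      refine ⟨rfl, rfl, ?_⟩
      have := cl_inj (μ := μ) h3 h0 h1 w4 w1 hg w3 e
      linarith
    · subst e1 e2
      have hw : T.w s ≠ T.mA := fun h5 => hg.1 ⟨h5, rfl⟩
      have ei : i' = (prt (T.rA (T.w s)) i j).1 := congrArg Prod.fst e3
      have ej : j' = (prt (T.rA (T.w s)) i j).2 := congrArg Prod.snd e3
      have hfl := flipA_pp (μ := μ) (i := i) (j := j) h h2 w0 w1 hw (v := θ' - (0 : ℤ)) w2
      rw [← ei, ← ej] at hfl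
      have hfl1 := congrArg Prod.fst hfl
      unfold Cell.pp at hfl1
      simp only at hfl1
      rw [hfl1] at e
      have hv := cl_inj (μ := μ) h3 h0 h1 w4 w1 hg w3 e
      push_cast at hv
      have t0 : θ = 0 := by linarith
      have t0' : θ' = 0 := by linarith
      right; left
      refine ⟨t0, t0', ?_⟩
      rcases lt_or_gt_of_ne hw with h5 | h5
      · left
        have h6 := w_lt (T := T) (m := T.mA) (by omega) h5
        refine ⟨by linarith, ?_⟩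
        have er : T.rA (T.w s) = true := by
          unfold rA
          rw [decide_eq_true_iff]
          exact h5
        rw [ei, er, prt_true]
      · right; left
        have h6 := w_gt (T := T) h5
        refine ⟨by linarith, ?_⟩
        have er : T.rA (T.w s) = false := by
          unfold rA
          rw [decide_eq_false_iff_not]
          omega
        rw [ej, er, prt_false]
    · subst e1
      subst e2
      have hw : T.w s ≠ T.mB := fun h5 => hg.2 ⟨h5, rfl⟩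
      have ei : i' = (prt (T.rB (T.w s)) i j).1 := congrArg Prod.fst e3
      have ej : j' = (prt (T.rB (T.w s)) i j).2 := congrArg Prod.snd e3
      have hfl := flipB_pp (μ := μ) (i := i) (j := j) h h2 w0 w1 hw (v := θ' - T.len i' j') w2
      rw [← ei, ← ej] at hfl
      have hfl1 := congrArg Prod.fst hfl
      unfold Cell.pp at hfl1
      simp only at hfl1
      rw [hfl1] at e
      have hv := cl_inj (μ := μ) h3 h0 h1 w4 w1 hg w3 e
      have t0 : θ = T.len i j := by linarith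
      have t0' : θ' = T.len i' j' := by linarith
      right; right
      refine ⟨t0, t0', ?_⟩
      rcases lt_or_gt_of_ne hw with h5 | h5
      · left
        have h6 := w_lt (T := T) (m := T.mB) (by omega) h5
        refine ⟨by linarith, ?_⟩
        have er : T.rB (T.w s) = false := by
          unfold rB
          rw [decide_eq_false_iff_not]
          omega
        rw [ej, er, prt_false]
      · right; left
        have h6 := w_gt (T := T) h5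
        refine ⟨by linarith, ?_⟩
        have er : T.rB (T.w s) = true := by
          unfold rB
          rw [decide_eq_true_iff]
          exact h5
        rw [ei, er, prt_true]
  · exfalso
    have hx' : (T.cel i j n (T.w s)).x1 = (T.cel i' j' n' (T.w s)).x1 := by
      rw [cel_x1 h0 h1, cel_x1 h0' h1', hx]
    refine WC.pairTest_sound μ _ _ (h3.shape i j n _ h0 h1 w4 w1 hg) (h3.shape i' j' n' _ h0' h1' w4 w1 hg')
      (h.ok i j n _ h0 h1 w0 w1 hg) (h.ok i' j' n' _ h0' h1' w0 w1 hg') hx' htest hθ hθ' w3 ?_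
    rw [cl_pt w2, cl_pt w2] at e
    have a1 := congrArg (fun q : P4 => q.1) e
    have a2 := congrArg (fun q : P4 => q.2.2.1) e
    have a3 := congrArg (fun q : P4 => q.2.2.2) e
    exact Prod.ext a1 (Prod.ext a2 a3)

/-- two ordinary cells -/
theorem inj_cells (h : T.Ok) (h2 : T.Ok2) (h3 : T.Ok3) (hEA : T.FitA μ EA) (hEB : T.FitB μ EB) (hA : T.GlueA EA sA)
    (hB : T.GlueB EB sB) (h0 : 0 ≤ n)
    (h1 : n ≤ T.len i j) (h0' : 0 ≤ n') (h1' : n' ≤ T.len i' j') (hs1 : 1 / 2 ≤ s) (hsM : s ≤ T.M + 1 / 2)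
    (hg : T.good i j n (T.w s)) (hg' : T.good i' j' n' (T.w s))
    (hθ0 : 0 ≤ θ) (hθ1 : θ ≤ T.len i j) (hθ0' : 0 ≤ θ') (hθ1' : θ' ≤ T.len i' j')
    (hθ : |θ - n| ≤ 1 / 2) (hθ' : |θ' - n'| ≤ 1 / 2)
    (e : (T.F μ EA EB i j (θ, s)).1 = (T.F μ EA EB i' j' (θ', s)).1) :
    (i = i' ∧ j = j' ∧ θ = θ') ∨
      (θ = 0 ∧ θ' = 0 ∧ ((s ≤ sA ∧ i = i') ∨ (sA ≤ s ∧ j = j') ∨ s = sA)) ∨
      (θ = T.len i j ∧ θ' = T.len i' j' ∧ ((s ≤ sB ∧ j = j') ∨ (sB ≤ s ∧ i = i') ∨ s = sB)) := by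
  have hmA := h.hA
  have hAB := h.hAB
  have hBM := h.hBM
  have hs0 : 0 < s := by linarith
  obtain ⟨w0, w1, w2⟩ := w_mem (T := T) hs0 (by omega) (by linarith)
  have w4 := one_le_w (T := T) (by omega) hs1
  have w3 := w_half (T := T) hs0 hsM
  have cellF : ∀ {i j : Bool} {n : ℤ} {θ : ℝ}, 0 ≤ n → n ≤ T.len i j → T.good i j n (T.w s) → 0 ≤ θ → θ ≤ T.len i j →
      |θ - n| ≤ 1 / 2 → (T.F μ EA EB i j (θ, s)).1 = (T.cl μ (T.w s) i j n).pt μ (θ - n, s) := by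
    intro i j n θ k0 k1 kg kθ0 kθ1 kθ
    rw [F_cell h hEA hEB k0 k1 w0 w1 kg kθ0 kθ1 (by linarith) hs0 (by linarith) w2]
    rfl
  by_cases hx : T.x i j n = T.x i' j' n'
  · rw [cellF h0 h1 hg hθ0 hθ1 hθ, cellF h0' h1' hg' hθ0' hθ1' hθ'] at e
    exact inj_same_col h h2 h3 hA hB h0 h1 h0' h1' hs1 hsM hg hg' hθ0 hθ1 hθ0' hθ1' hθ hθ' hx e
  · set X : ℝ := (T.F μ EA EB i j (θ, s)).1.1 with hX
    have hX' : (T.F μ EA EB i' j' (θ', s)).1.1 = X := by rw [← e]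
    have c := exists_col (μ := μ) (X := X) h h3 h0 h1 w4 w1 hg w3 hθ0 hθ1 hθ
      (by rw [hX, cellF h0 h1 hg hθ0 hθ1 hθ])
    have c' := exists_col (μ := μ) (X := X) h h3 h0' h1' w4 w1 hg' w3 hθ0' hθ1' hθ'
      (by rw [← hX', cellF h0' h1' hg' hθ0' hθ1' hθ'])
    have d1 := abs_le.1 c.1
    have d2 := abs_le.1 c'.1
    have hne : (1 : ℝ) ≤ |(T.x i j n : ℝ) - T.x i' j' n'| := by
      have : (1 : ℤ) ≤ |T.x i j n - T.x i' j' n'| := Int.one_le_abs (sub_ne_zero.2 hx)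
      exact_mod_cast this
    have hcase : (X - T.x i j n = 1 / 2 ∧ X - T.x i' j' n' = -(1 / 2)) ∨
        (X - T.x i j n = -(1 / 2) ∧ X - T.x i' j' n' = 1 / 2) := by
      rcases le_abs.1 hne with h4 | h4
      · right; constructor <;> linarith
      · left; constructor <;> linarith
    have ha : |X - T.x i j n| = 1 / 2 := by
      rcases hcase with h4 | h4
      · rw [h4.1, abs_of_pos (by norm_num)]
      · rw [h4.1, abs_neg, abs_of_pos (by norm_num)]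
    have ha' : |X - T.x i' j' n'| = 1 / 2 := by
      rcases hcase with h4 | h4
      · rw [h4.2, abs_neg, abs_of_pos (by norm_num)]
      · rw [h4.2, abs_of_pos (by norm_num)]
    obtain ⟨k, k0, k1, kθ, kx⟩ := c.2 ha
    obtain ⟨k', k0', k1', kθ', kx'⟩ := c'.2 ha'
    have ex : T.x i j k = T.x i' j' n' := by
      have : (T.x i j k : ℝ) = T.x i' j' n' := by
        rcases hcase with h4 | h4 <;> linarith [h4.1, h4.2]
      exact_mod_cast this
    have ex' : T.x i' j' k' = T.x i j n := by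
      have : (T.x i' j' k' : ℝ) = T.x i j n := by
        rcases hcase with h4 | h4 <;> linarith [h4.1, h4.2]
      exact_mod_cast this
    by_cases kg : T.good i j k (T.w s)
    · rw [cellF k0 k1 kg hθ0 hθ1 kθ, cellF h0' h1' hg' hθ0' hθ1' hθ'] at e
      exact inj_same_col h h2 h3 hA hB k0 k1 h0' h1' hs1 hsM kg hg' hθ0 hθ1 hθ0' hθ1' kθ hθ' ex e
    · have kg' : T.good i' j' k' (T.w s) := by
        by_contra kg'
        apply hx
        unfold good at kg kg'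
        have q1 : (T.w s = T.mA ∧ k = 0) ∨ (T.w s = T.mB ∧ k = T.len i j) := by
          by_contra h4
          push Not at h4
          exact kg ⟨fun h5 => h4.1 h5.1 h5.2, fun h5 => h4.2 h5.1 h5.2⟩
        have q2 : (T.w s = T.mA ∧ k' = 0) ∨ (T.w s = T.mB ∧ k' = T.len i' j') := by
          by_contra h4
          push Not at h4
          exact kg' ⟨fun h5 => h4.1 h5.1 h5.2, fun h5 => h4.2 h5.1 h5.2⟩
        rcases q1 with ⟨q1, q1'⟩ | ⟨q1, q1'⟩ <;> rcases q2 with ⟨q2, q2'⟩ | ⟨q2, q2'⟩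
        · rw [← ex, ← ex', q1', q2', h2.xA i j, h2.xA i' j']
        · omega
        · omega
        · rw [← ex, ← ex', q1', q2', h2.xB i j, h2.xB i' j']
      rw [cellF h0 h1 hg hθ0 hθ1 hθ, cellF k0' k1' kg' hθ0' hθ1' kθ'] at e
      exact inj_same_col h h2 h3 hA hB h0 h1 k0' k1' hs1 hsM hg kg' hθ0 hθ1 hθ0' hθ1' hθ kθ' ex'.symm e

/-- a cell and the end `A` in the window of the saddle -/
theorem inj_A (h : T.Ok) (h3 : T.Ok3) (hEA : T.FitA μ EA) (hEB : T.FitB μ EB) (hIA : T.InjA μ EA sA)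
    (h0' : 0 ≤ n') (h1' : n' ≤ T.len i' j') (hs1 : 1 / 2 ≤ s) (hsM : s ≤ T.M + 1 / 2) (hw : T.w s = T.mA)
    (hg' : T.good i' j' n' (T.w s)) (hθ0 : 0 ≤ θ) (hθ : θ < 1 / 2) (hθ0' : 0 ≤ θ') (hθ1' : θ' ≤ T.len i' j')
    (hθ' : |θ' - n'| ≤ 1 / 2) : (T.F μ EA EB i j (θ, s)).1 ≠ (T.F μ EA EB i' j' (θ', s)).1 := by
  intro e
  have hmA := h.hA
  have hAB := h.hAB
  have hBM := h.hBM
  have hs0 : 0 < s := by linarith
  obtain ⟨w0, w1, w2⟩ := w_mem (T := T) hs0 (by omega) (by linarith)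
  have w4 := one_le_w (T := T) (by omega) hs1
  have w3 := w_half (T := T) hs0 hsM
  rw [F_cell h hEA hEB h0' h1' w0 w1 hg' hθ0' hθ1' (by linarith) hs0 (by linarith) w2] at e
  rw [hw] at w0 w1 w2 w3 w4 hg' e
  rw [F_endA h hEA hEB hθ0 hθ.le hs0 w2] at e
  have hl := h.len2 i j
  have e' : (EA i j (θ, s)).1 = (T.cl μ T.mA i' j' n').pt μ (θ' - n', s) := e
  have hc := hIA.col i j θ s w3 hθ0 hθ
  have hcol := exists_col (μ := μ) (X := (EA i j (θ, s)).1.1) h h3 h0' h1' w4 w1 hg' w3 hθ0' hθ1' hθ' (by rw [e'])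
  have d1 := abs_lt.1 hc
  have d2 := abs_le.1 hcol.1
  have hx : T.x i' j' n' = T.x i j 0 := by
    have h5 : (T.x i' j' n' : ℝ) < T.x i j 0 + 1 := by linarith
    have h6 : (T.x i j 0 : ℝ) < T.x i' j' n' + 1 := by linarith
    have h7 : T.x i' j' n' < T.x i j 0 + 1 := by exact_mod_cast h5
    have h8 : T.x i j 0 < T.x i' j' n' + 1 := by exact_mod_cast h6
    omega
  have hh := hIA.hull i j θ s w3 hθ0 hθ.le
  have ht := h3.hullA i j i' j' n' h0' h1' hg' hx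
  refine WC.hullTest_sound μ _ _ ht w3 hh (WC.pt_inHull μ (T.cel i' j' n' T.mA) (v := θ' - n') (u := s - T.mA) hθ') ?_
  rw [e', cl_pt w2]

/-- a cell and the end `B` in the window of the saddle -/
theorem inj_B (h : T.Ok) (h3 : T.Ok3) (hEA : T.FitA μ EA) (hEB : T.FitB μ EB) (hIB : T.InjB μ EB sB)
    (h0' : 0 ≤ n') (h1' : n' ≤ T.len i' j') (hs1 : 1 / 2 ≤ s) (hsM : s ≤ T.M + 1 / 2) (hw : T.w s = T.mB)
    (hg' : T.good i' j' n' (T.w s)) (hθ1 : θ ≤ T.len i j) (hθ : T.len i j - 1 / 2 < θ) (hθ0' : 0 ≤ θ')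
    (hθ1' : θ' ≤ T.len i' j') (hθ' : |θ' - n'| ≤ 1 / 2) :
    (T.F μ EA EB i j (θ, s)).1 ≠ (T.F μ EA EB i' j' (θ', s)).1 := by
  intro e
  have hmA := h.hA
  have hAB := h.hAB
  have hBM := h.hBM
  have hs0 : 0 < s := by linarith
  obtain ⟨w0, w1, w2⟩ := w_mem (T := T) hs0 (by omega) (by linarith)
  have w4 := one_le_w (T := T) (by omega) hs1
  have w3 := w_half (T := T) hs0 hsM
  rw [F_cell h hEA hEB h0' h1' w0 w1 hg' hθ0' hθ1' (by linarith) hs0 (by linarith) w2] at e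
  rw [hw] at w0 w1 w2 w3 w4 hg' e
  rw [F_endB h hEA hEB hθ.le hθ1 hs0 w2] at e
  have hl := h.len2 i j
  have e' : (EB i j (T.len i j - θ, s)).1 = (T.cl μ T.mB i' j' n').pt μ (θ' - n', s) := e
  have hc := hIB.col i j (T.len i j - θ) s w3 (by linarith) (by linarith)
  have hcol := exists_col (μ := μ) (X := (EB i j (T.len i j - θ, s)).1.1) h h3 h0' h1' w4 w1 hg' w3 hθ0' hθ1' hθ'
    (by rw [e'])
  have d1 := abs_lt.1 hc
  have d2 := abs_le.1 hcol.1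
  have hx : T.x i' j' n' = T.x i j (T.len i j) := by
    have h5 : (T.x i' j' n' : ℝ) < T.x i j (T.len i j) + 1 := by linarith
    have h6 : (T.x i j (T.len i j) : ℝ) < T.x i' j' n' + 1 := by linarith
    have h7 : T.x i' j' n' < T.x i j (T.len i j) + 1 := by exact_mod_cast h5
    have h8 : T.x i j (T.len i j) < T.x i' j' n' + 1 := by exact_mod_cast h6
    omega
  have hh := hIB.hull i j (T.len i j - θ) s w3 (by linarith) (by linarith)
  have ht := h3.hullB i j i' j' n' h0' h1' hg' hx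
  refine WC.hullTest_sound μ _ _ ht w3 hh (WC.pt_inHull μ (T.cel i' j' n' T.mB) (v := θ' - n') (u := s - T.mB) hθ') ?_
  rw [e', cl_pt w2]

/-- injectivity on time slices, after the cone -/
theorem F_inj_aux (h : T.Ok) (h2 : T.Ok2) (h3 : T.Ok3) (hEA : T.FitA μ EA) (hEB : T.FitB μ EB) (hA : T.GlueA EA sA)
    (hB : T.GlueB EB sB) (hIA : T.InjA μ EA sA) (hIB : T.InjB μ EB sB) (hs1 : 1 / 2 ≤ s) (hsM : s ≤ T.M + 1 / 2)
    (hθ0 : 0 ≤ θ) (hθ1 : θ ≤ T.len i j) (hθ0' : 0 ≤ θ') (hθ1' : θ' ≤ T.len i' j')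
    (e : (T.F μ EA EB i j (θ, s)).1 = (T.F μ EA EB i' j' (θ', s)).1) :
    (i = i' ∧ j = j' ∧ θ = θ') ∨
      (θ = 0 ∧ θ' = 0 ∧ ((s ≤ sA ∧ i = i') ∨ (sA ≤ s ∧ j = j') ∨ s = sA)) ∨
      (θ = T.len i j ∧ θ' = T.len i' j' ∧ ((s ≤ sB ∧ j = j') ∨ (sB ≤ s ∧ i = i') ∨ s = sB)) := by
  have hmA := h.hA
  have hAB := h.hAB
  have hBM := h.hBM
  have hs0 : 0 < s := by linarith
  obtain ⟨w0, w1, w2⟩ := w_mem (T := T) hs0 (by omega) (by linarith)
  have w4 := one_le_w (T := T) (by omega) hs1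
  rcases h.cases (T.w s) hθ0 hθ1 with ⟨n, k0, k1, kg, kn⟩ | ⟨hm, hθ⟩ | ⟨hm, hθ⟩ <;>
    rcases h.cases (T.w s) hθ0' hθ1' with ⟨n', k0', k1', kg', kn'⟩ | ⟨hm', hθ'⟩ | ⟨hm', hθ'⟩
  · exact inj_cells h h2 h3 hEA hEB hA hB k0 k1 k0' k1' hs1 hsM kg kg' hθ0 hθ1 hθ0' hθ1' kn kn' e
  · exact absurd e.symm (inj_A h h3 hEA hEB hIA k0 k1 hs1 hsM hm' kg hθ0' hθ' hθ0 hθ1 kn)
  · exact absurd e.symm (inj_B h h3 hEA hEB hIB k0 k1 hs1 hsM hm' kg hθ1' hθ' hθ0 hθ1 kn)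
  · exact absurd e (inj_A h h3 hEA hEB hIA k0' k1' hs1 hsM hm kg' hθ0 hθ hθ0' hθ1' kn')
  · have hwr : (T.w s : ℝ) = T.mA := by rw [hm]
    rw [hwr] at w2
    rw [F_endA h hEA hEB hθ0 hθ.le hs0 w2, F_endA h hEA hEB hθ0' hθ'.le hs0 w2] at e
    rcases hIA.inj i j i' j' θ θ' s w2 hθ0 hθ.le hθ0' hθ'.le e with h5 | h5
    · exact Or.inl h5
    · exact Or.inr (Or.inl h5)
  · omega
  · exact absurd e (inj_B h h3 hEA hEB hIB k0' k1' hs1 hsM hm kg' hθ1 hθ hθ0' hθ1' kn')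
  · omega
  · have hwr : (T.w s : ℝ) = T.mB := by rw [hm]
    rw [hwr] at w2
    rw [F_endB h hEA hEB hθ.le hθ1 hs0 w2, F_endB h hEA hEB hθ'.le hθ1' hs0 w2] at e
    rcases hIB.inj i j i' j' _ _ s w2 (by linarith) (by linarith) (by linarith) (by linarith) e with h5 | h5
    · exact Or.inl ⟨h5.1, h5.2.1, by
        obtain ⟨e1, e2, e3⟩ := h5
        subst e1 e2
        linarith⟩
    · exact Or.inr (Or.inr ⟨by linarith [h5.1], by linarith [h5.2.1], h5.2.2⟩)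

/-- injectivity on time slices -/
theorem F_inj (h : T.Ok) (h2 : T.Ok2) (h3 : T.Ok3) (hEA : T.FitA μ EA) (hEB : T.FitB μ EB) (hA : T.GlueA EA sA)
    (hB : T.GlueB EB sB) (hIA : T.InjA μ EA sA) (hIB : T.InjB μ EB sB) (hs0 : 0 < s) (hsM : s ≤ T.M + 1 / 2)
    (hθ0 : 0 ≤ θ) (hθ1 : θ ≤ T.len i j) (hθ0' : 0 ≤ θ') (hθ1' : θ' ≤ T.len i' j')
    (e : (T.F μ EA EB i j (θ, s)).1 = (T.F μ EA EB i' j' (θ', s)).1) :
    (i = i' ∧ j = j' ∧ θ = θ') ∨
      (θ = 0 ∧ θ' = 0 ∧ ((s ≤ sA ∧ i = i') ∨ (sA ≤ s ∧ j = j') ∨ s = sA)) ∨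
      (θ = T.len i j ∧ θ' = T.len i' j' ∧ ((s ≤ sB ∧ j = j') ∨ (sB ≤ s ∧ i = i') ∨ s = sB)) := by
  have hsA := abs_lt.1 hA.hs
  have hsB := abs_lt.1 hB.hs
  have hmA := h.hA
  have hAB := h.hAB
  have hBM := h.hBM
  have hmAr : (1 : ℝ) ≤ T.mA := by exact_mod_cast hmA
  have hmBr : (1 : ℝ) ≤ T.mB := by
    have : 1 ≤ T.mB := by omega
    exact_mod_cast this
  have hMr : (1 : ℝ) ≤ T.M := by
    have : 1 ≤ T.M := by omega
    exact_mod_cast this
  rcases le_or_gt (1 / 2) s with hs1 | hs1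
  · exact F_inj_aux h h2 h3 hEA hEB hA hB hIA hIB hs1 hsM hθ0 hθ1 hθ0' hθ1' e
  · obtain ⟨X, Y, τ, c⟩ := F_cone (μ := μ) h h2 hEA hEB hθ0 hθ1
    obtain ⟨X', Y', τ', c'⟩ := F_cone (μ := μ) h h2 hEA hEB hθ0' hθ1'
    rw [c s hs0 (by linarith), c' s hs0 (by linarith)] at e
    simp only [Prod.mk.injEq, mul_eq_mul_left_iff] at e
    obtain ⟨e1, -, e2, e3⟩ := e
    have e2' : Y = Y' := by
      rcases e2 with e2 | e2
      · exact e2
      · exact absurd e2 hs0.ne'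
    have k := F_inj_aux (s := 1 / 2) (θ := θ) (θ' := θ') h h2 h3 hEA hEB hA hB hIA hIB (le_refl _) (by linarith)
      hθ0 hθ1 hθ0' hθ1'
      (by rw [c (1 / 2) (by norm_num) (by norm_num), c' (1 / 2) (by norm_num) (by norm_num), e1, e2', e3])
    rcases k with k | ⟨k1, k2, k⟩ | ⟨k1, k2, k⟩
    · exact Or.inl k
    · refine Or.inr (Or.inl ⟨k1, k2, Or.inl ⟨by linarith, ?_⟩⟩)
      rcases k with k | k | k
      · exact k.2
      · linarith [k.1]
      · linarith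
    · refine Or.inr (Or.inr ⟨k1, k2, Or.inl ⟨by linarith, ?_⟩⟩)
      rcases k with k | k | k
      · exact k.2
      · linarith [k.1]
      · linarith

end

end StripTab

end Pool.Agent.Lib_MP_59ec1f_cap
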