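import Pool.Agent.Lib_MP_59ec1f_cap.Tab

/-!
# The cells at the ends of the strips
-/

set_option autoImplicit false

open scoped ContDiff Topology

namespace Pool.Agent.Lib_MP_59ec1f_cap

/-- the cell at the time `s` depends only on the data near `s` -/
theorem Cell.congr_near {μ : Moll} {C D : Cell} {v s : ℝ} (h0 : C.x0 = D.x0) (h1 : C.x1 = D.x1) (h2 : C.x2 = D.x2)
    (k0 : C.y0 =ᶠ[𝓝 s] D.y0) (k1 : C.y1 =ᶠ[𝓝 s] D.y1) (k2 : C.y2 =ᶠ[𝓝 s] D.y2) (kf : C.f =ᶠ[𝓝 s] D.f) :
    C.pt μ (v, s) = D.pt μ (v, s) ∧ C.prim μ (v, s) = D.prim μ (v, s) := by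
  unfold Cell.pt Cell.prim
  simp only [h0, h1, h2, k0.deriv_eq, k1.deriv_eq, k2.deriv_eq, kf.deriv_eq, k0.self_of_nhds, k1.self_of_nhds,
    k2.self_of_nhds, kf.self_of_nhds, and_self]

/-- tables which agree at the three nodes of a window -/
theorem Moll.pl_congr_near (μ : Moll) {f g : ℤ → ℝ} {m : ℤ} {s : ℝ} (hs : |s - m| < 1 - μ.ep)
    (h : ∀ k, m - 1 ≤ k → k ≤ m + 1 → f k = g k) : μ.pl f =ᶠ[𝓝 s] μ.pl g := by
  have h1 := μ.pl_near f hs
  have h2 := μ.pl_near g hs
  rw [h (m - 1) (by omega) (by omega), h m (by omega) (by omega), h (m + 1) (by omega) (by omega)] at h1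
  exact h1.trans h2.symm

namespace StripTab

variable {T : StripTab}

theorem toChain_x (μ : Moll) (Z : ZChain) (n : ℤ) : (Z.toChain μ).x n = Z.x n := rfl

theorem toChain_y (μ : Moll) (Z : ZChain) (n : ℤ) : (Z.toChain μ).y n = μ.pl fun m => (Z.y n m : ℝ) := rfl

theorem toChain_f (μ : Moll) (Z : ZChain) (n : ℤ) :
    (Z.toChain μ).f n = fun s => μ.pl (fun m => (Z.f n m : ℝ)) s / 1600 := rfl

/-- the cell at `A` does not depend on the rule at `B` -/
theorem cell_zero (μ : Moll) (a b b' i j : Bool) (h : 1 ≤ T.len i j) :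
    ((T.ext a b i j).toChain μ).cell 0 = ((T.ext a b' i j).toChain μ).cell 0 := by
  unfold CellChain.cell ZChain.toChain
  simp only [ext_x_neg (T := T) (a := a) (b := b) (i := i) (j := j) (n := 0 - 1) (by omega),
    ext_x_neg (T := T) (a := a) (b := b') (i := i) (j := j) (n := 0 - 1) (by omega),
    ext_y_neg (T := T) (a := a) (b := b) (i := i) (j := j) (n := 0 - 1) (by omega),
    ext_y_neg (T := T) (a := a) (b := b') (i := i) (j := j) (n := 0 - 1) (by omega),
    ext_x (T := T) (a := a) (b := b) (i := i) (j := j) (n := 0) (by omega) (by omega),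
    ext_x (T := T) (a := a) (b := b') (i := i) (j := j) (n := 0) (by omega) (by omega),
    ext_y (T := T) (a := a) (b := b) (i := i) (j := j) (n := 0) (by omega) (by omega),
    ext_y (T := T) (a := a) (b := b') (i := i) (j := j) (n := 0) (by omega) (by omega),
    ext_x (T := T) (a := a) (b := b) (i := i) (j := j) (n := 0 + 1) (by omega) (by omega),
    ext_x (T := T) (a := a) (b := b') (i := i) (j := j) (n := 0 + 1) (by omega) (by omega),
    ext_y (T := T) (a := a) (b := b) (i := i) (j := j) (n := 0 + 1) (by omega) (by omega),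
    ext_y (T := T) (a := a) (b := b') (i := i) (j := j) (n := 0 + 1) (by omega) (by omega),
    ext_f (T := T) (a := a) (b := b) (i := i) (j := j) (n := 0) (by omega) (by omega),
    ext_f (T := T) (a := a) (b := b') (i := i) (j := j) (n := 0) (by omega) (by omega)]

/-- the cell at `B` does not depend on the rule at `A` -/
theorem cell_len (μ : Moll) (a a' b i j : Bool) (h : 1 ≤ T.len i j) :
    ((T.ext a b i j).toChain μ).cell (T.len i j) = ((T.ext a' b i j).toChain μ).cell (T.len i j) := by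
  unfold CellChain.cell ZChain.toChain
  simp only [ext_x_gt (T := T) (a := a) (b := b) (i := i) (j := j) (n := T.len i j + 1) (by omega) (by omega),
    ext_x_gt (T := T) (a := a') (b := b) (i := i) (j := j) (n := T.len i j + 1) (by omega) (by omega),
    ext_y_gt (T := T) (a := a) (b := b) (i := i) (j := j) (n := T.len i j + 1) (by omega) (by omega),
    ext_y_gt (T := T) (a := a') (b := b) (i := i) (j := j) (n := T.len i j + 1) (by omega) (by omega),
    ext_x (T := T) (a := a) (b := b) (i := i) (j := j) (n := T.len i j) (by omega) (by omega),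
    ext_x (T := T) (a := a') (b := b) (i := i) (j := j) (n := T.len i j) (by omega) (by omega),
    ext_y (T := T) (a := a) (b := b) (i := i) (j := j) (n := T.len i j) (by omega) (by omega),
    ext_y (T := T) (a := a') (b := b) (i := i) (j := j) (n := T.len i j) (by omega) (by omega),
    ext_x (T := T) (a := a) (b := b) (i := i) (j := j) (n := T.len i j - 1) (by omega) (by omega),
    ext_x (T := T) (a := a') (b := b) (i := i) (j := j) (n := T.len i j - 1) (by omega) (by omega),
    ext_y (T := T) (a := a) (b := b) (i := i) (j := j) (n := T.len i j - 1) (by omega) (by omega),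
    ext_y (T := T) (a := a') (b := b) (i := i) (j := j) (n := T.len i j - 1) (by omega) (by omega),
    ext_f_ge (T := T) (a := a) (b := b) (i := i) (j := j) (n := T.len i j) (by omega) (by omega),
    ext_f_ge (T := T) (a := a') (b := b) (i := i) (j := j) (n := T.len i j) (by omega) (by omega)]

/-- the cell at `A`, read from the partner -/
theorem flipA (μ : Moll) (a b b' i j : Bool) {m : ℤ} {v s : ℝ} (hs : |s - m| < 1 - μ.ep) (hl : 1 ≤ T.len i j)
    (hl' : 1 ≤ T.len (prt a i j).1 (prt a i j).2) (hx : T.x (prt a i j).1 (prt a i j).2 0 = T.x i j 0)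
    (hy : ∀ k, m - 1 ≤ k → k ≤ m + 1 → T.y (prt a i j).1 (prt a i j).2 0 k = T.y i j 0 k)
    (hok : ((T.ext a b i j).wc 0 m).ok = true) :
    (((T.ext a b' (prt a i j).1 (prt a i j).2).toChain μ).cell 0).pt μ (v, s) =
        (((T.ext a b i j).toChain μ).cell 0).pt μ (-v, s) ∧
      (((T.ext a b' (prt a i j).1 (prt a i j).2).toChain μ).cell 0).prim μ (v, s) =
        (((T.ext a b i j).toChain μ).cell 0).prim μ (-v, s) := by
  set p := prt a i j with hp
  have hpp : prt a p.1 p.2 = (i, j) := prt_prt a i j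
  set C := ((T.ext a b i j).toChain μ).cell 0 with hC
  set D := ((T.ext a b' p.1 p.2).toChain μ).cell 0 with hD
  have hrel : ∀ᶠ t in 𝓝 s, C.f t - ((T.ext a b i j).toChain μ).f (0 - 1) t =
      μ.J C.x0 C.x1 C.x2 (C.y0 t) (C.y1 t) (C.y2 t) (-(1 / 2)) := ZChain.rel_of_ok_near hok hs
  have hfl := C.flip_pt μ (v := v) (((T.ext a b i j).toChain μ).hf (0 - 1)) hrel
  have hcong : D.pt μ (v, s) = (C.flip (((T.ext a b i j).toChain μ).f (0 - 1))
      (((T.ext a b i j).toChain μ).hf (0 - 1))).pt μ (v, s) ∧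
      D.prim μ (v, s) = (C.flip (((T.ext a b i j).toChain μ).f (0 - 1))
      (((T.ext a b i j).toChain μ).hf (0 - 1))).prim μ (v, s) := by
    apply Cell.congr_near
    · change ((T.ext a b' p.1 p.2).x (0 - 1) : ℝ) = (T.ext a b i j).x (0 + 1)
      rw [ext_x_neg (by omega), ext_x (by omega) (by omega), hpp]
      simp
    · change ((T.ext a b' p.1 p.2).x 0 : ℝ) = (T.ext a b i j).x 0
      rw [ext_x (by omega) (by omega), ext_x (by omega) (by omega), hx]
    · change ((T.ext a b' p.1 p.2).x (0 + 1) : ℝ) = (T.ext a b i j).x (0 - 1)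
      rw [ext_x_neg (n := 0 - 1) (by omega), ext_x (by omega) (by omega), ← hp]
      simp
    · change (μ.pl fun m => ((T.ext a b' p.1 p.2).y (0 - 1) m : ℝ)) =ᶠ[𝓝 s]
        μ.pl fun m => ((T.ext a b i j).y (0 + 1) m : ℝ)
      rw [ext_y_neg (by omega), ext_y (by omega) (by omega), hpp]
      simp
    · change (μ.pl fun m => ((T.ext a b' p.1 p.2).y 0 m : ℝ)) =ᶠ[𝓝 s]
        μ.pl fun m => ((T.ext a b i j).y 0 m : ℝ)
      rw [ext_y (by omega) (by omega), ext_y (by omega) (by omega)]
      apply μ.pl_congr_near hs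
      intro k h1 h2
      rw [hy k h1 h2]
    · change (μ.pl fun m => ((T.ext a b' p.1 p.2).y (0 + 1) m : ℝ)) =ᶠ[𝓝 s]
        μ.pl fun m => ((T.ext a b i j).y (0 - 1) m : ℝ)
      rw [ext_y_neg (n := 0 - 1) (by omega), ext_y (by omega) (by omega), ← hp]
      simp
    · change (fun s => μ.pl (fun m => ((T.ext a b' p.1 p.2).f 0 m : ℝ)) s / 1600) =ᶠ[𝓝 s]
        fun s => μ.pl (fun m => ((T.ext a b i j).f (0 - 1) m : ℝ)) s / 1600
      rw [ext_f_neg (n := 0 - 1) (by omega), ext_f (by omega) (by omega), ← hp]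
      simp
  rw [hcong.1, hcong.2]
  exact hfl

/-- the cell at `B`, read from the partner -/
theorem flipB (μ : Moll) (a a' b i j : Bool) {m : ℤ} {v s : ℝ} (hs : |s - m| < 1 - μ.ep) (hl : 1 ≤ T.len i j)
    (hl' : 1 ≤ T.len (prt b i j).1 (prt b i j).2)
    (hx : T.x (prt b i j).1 (prt b i j).2 (T.len (prt b i j).1 (prt b i j).2) = T.x i j (T.len i j))
    (hy : ∀ k, m - 1 ≤ k → k ≤ m + 1 →
      T.y (prt b i j).1 (prt b i j).2 (T.len (prt b i j).1 (prt b i j).2) k = T.y i j (T.len i j) k)
    (hok : ((T.ext a b i j).wc (T.len i j) m).ok = true) :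
    (((T.ext a' b (prt b i j).1 (prt b i j).2).toChain μ).cell (T.len (prt b i j).1 (prt b i j).2)).pt μ (v, s) =
        (((T.ext a b i j).toChain μ).cell (T.len i j)).pt μ (-v, s) ∧
      (((T.ext a' b (prt b i j).1 (prt b i j).2).toChain μ).cell (T.len (prt b i j).1 (prt b i j).2)).prim μ (v, s) =
        (((T.ext a b i j).toChain μ).cell (T.len i j)).prim μ (-v, s) := by
  set p := prt b i j with hp
  have hpp : prt b p.1 p.2 = (i, j) := prt_prt b i j
  set l := T.len i j with hll
  set l' := T.len p.1 p.2 with hll'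
  set C := ((T.ext a b i j).toChain μ).cell l with hC
  set D := ((T.ext a' b p.1 p.2).toChain μ).cell l' with hD
  have hrel : ∀ᶠ t in 𝓝 s, C.f t - ((T.ext a b i j).toChain μ).f (l - 1) t =
      μ.J C.x0 C.x1 C.x2 (C.y0 t) (C.y1 t) (C.y2 t) (-(1 / 2)) := ZChain.rel_of_ok_near hok hs
  have hfl := C.flip_pt μ (v := v) (((T.ext a b i j).toChain μ).hf (l - 1)) hrel
  have hcong : D.pt μ (v, s) = (C.flip (((T.ext a b i j).toChain μ).f (l - 1))
      (((T.ext a b i j).toChain μ).hf (l - 1))).pt μ (v, s) ∧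
      D.prim μ (v, s) = (C.flip (((T.ext a b i j).toChain μ).f (l - 1))
      (((T.ext a b i j).toChain μ).hf (l - 1))).prim μ (v, s) := by
    apply Cell.congr_near
    · change ((T.ext a' b p.1 p.2).x (l' - 1) : ℝ) = (T.ext a b i j).x (l + 1)
      rw [ext_x_gt (i := i) (by omega) (by omega), ext_x (by omega) (by omega), ← hp, ← hll']
      congr 2
      omega
    · change ((T.ext a' b p.1 p.2).x l' : ℝ) = (T.ext a b i j).x l
      rw [ext_x (by omega) (by omega), ext_x (by omega) (by omega), hx]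
    · change ((T.ext a' b p.1 p.2).x (l' + 1) : ℝ) = (T.ext a b i j).x (l - 1)
      rw [ext_x_gt (i := p.1) (by omega) (by omega), ext_x (i := i) (by omega) (by omega), hpp]
      have e : T.len i j + T.len p.1 p.2 - (l' + 1) = l - 1 := by omega
      simp only [e]
    · change (μ.pl fun m => ((T.ext a' b p.1 p.2).y (l' - 1) m : ℝ)) =ᶠ[𝓝 s]
        μ.pl fun m => ((T.ext a b i j).y (l + 1) m : ℝ)
      rw [ext_y_gt (i := i) (by omega) (by omega), ext_y (by omega) (by omega), ← hp, ← hll']
      have e : l' + T.len i j - (l + 1) = l' - 1 := by omega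
      rw [e]
    · change (μ.pl fun m => ((T.ext a' b p.1 p.2).y l' m : ℝ)) =ᶠ[𝓝 s]
        μ.pl fun m => ((T.ext a b i j).y l m : ℝ)
      rw [ext_y (by omega) (by omega), ext_y (by omega) (by omega)]
      apply μ.pl_congr_near hs
      intro k h1 h2
      rw [hy k h1 h2]
    · change (μ.pl fun m => ((T.ext a' b p.1 p.2).y (l' + 1) m : ℝ)) =ᶠ[𝓝 s]
        μ.pl fun m => ((T.ext a b i j).y (l - 1) m : ℝ)
      rw [ext_y_gt (i := p.1) (by omega) (by omega), ext_y (i := i) (by omega) (by omega), hpp]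
      have e : T.len i j + T.len p.1 p.2 - (l' + 1) = l - 1 := by omega
      simp only [e]
      rfl
    · change (fun s => μ.pl (fun m => ((T.ext a' b p.1 p.2).f l' m : ℝ)) s / 1600) =ᶠ[𝓝 s]
        fun s => μ.pl (fun m => ((T.ext a b i j).f (l - 1) m : ℝ)) s / 1600
      rw [ext_f_ge (i := p.1) (by omega) (by omega), ext_f (i := i) (by omega) (by omega), hpp]
      have e : T.len i j + T.len p.1 p.2 - l' - 1 = l - 1 := by omega
      simp only [e]
      rfl
  rw [hcong.1, hcong.2]
  exact hfl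

end StripTab

end Pool.Agent.Lib_MP_59ec1f_cap
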