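import Pool.Agent.Lib_MP_59ec1f_cap.TopTable
import Pool.Agent.Lib_MP_59ec1f_cap.TabEnds

/-!
# The last rows of the table and the top

In the last window (both saddles are over) the four strips form a closed chain (`TopTab`), the rows at the nodes `M` and
`M + 1` are `k + 1` and `k` times the rows of this chain. So for `|s - (M + 1/2)| < 1/4` the cells of the strips are the
strip maps of the top.
-/

set_option autoImplicit false

open scoped ContDiff Topology

namespace Pool.Agent.Lib_MP_59ec1f_cap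

namespace TopTab

variable {W : TopTab} (μ : Moll)

/-- the closed chain multiplied by `Λ - (s - s₀)` -/
noncomputable def K (W : TopTab) (Λ s₀ : ℝ) : CellChain where
  x n := W.x n
  y n := fun s => (Λ - (s - s₀)) * W.a n
  f n := fun s => (Λ - (s - s₀)) * (W.f n / 1600)
  hy _ := (contDiff_const.sub (contDiff_id.sub contDiff_const)).mul contDiff_const
  hf _ := (contDiff_const.sub (contDiff_id.sub contDiff_const)).mul contDiff_const

theorem hasDerivAt_scale (Λ s₀ c s : ℝ) : HasDerivAt (fun s => (Λ - (s - s₀)) * c) (-c) s := by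
  have h1 : HasDerivAt (fun s : ℝ => Λ - (s - s₀)) (-1) s := by
    simpa using ((hasDerivAt_id s).sub_const s₀).const_sub Λ
  have := h1.mul_const c
  rw [neg_one_mul] at this
  exact this

theorem J_scale (x0 x1 x2 a b c t v : ℝ) : μ.J x0 x1 x2 (t * a) (t * b) (t * c) v = t * μ.J x0 x1 x2 a b c v := by
  rw [μ.J_eq x0 x1 x2 (t * a), μ.J_eq x0 x1 x2 a b c]
  ring

theorem K_pt (Λ s₀ θ s : ℝ) : (W.K Λ s₀).pt μ (θ, s) =
      (μ.pl (fun n => (W.x n : ℝ)) θ, s, (Λ - (s - s₀)) * μ.pl (fun n => (W.a n : ℝ)) θ, -W.prim μ θ) ∧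
    (W.K Λ s₀).prim μ (θ, s) = (Λ - (s - s₀)) * W.prim μ θ := by
  have hp : W.prim μ θ = W.f (round θ) / 1600 - μ.J (W.x (round θ - 1)) (W.x (round θ)) (W.x (round θ + 1))
      (W.a (round θ - 1)) (W.a (round θ)) (W.a (round θ + 1)) (θ - round θ) := by
    change μ.pl (fun _ => (W.f (round θ) : ℝ)) 0 / 1600 - μ.J (W.x (round θ - 1)) (W.x (round θ)) (W.x (round θ + 1))
      (μ.pl (fun _ => (W.a (round θ - 1) : ℝ)) 0) (μ.pl (fun _ => (W.a (round θ) : ℝ)) 0)
      (μ.pl (fun _ => (W.a (round θ + 1) : ℝ)) 0) (θ - round θ) = _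
    rw [μ.pl_const, μ.pl_const, μ.pl_const, μ.pl_const]
  constructor
  · refine Prod.ext rfl (Prod.ext rfl (Prod.ext ?_ ?_))
    · change μ.tri ((Λ - (s - s₀)) * W.a (round θ - 1)) ((Λ - (s - s₀)) * W.a (round θ))
        ((Λ - (s - s₀)) * W.a (round θ + 1)) (θ - round θ) = (Λ - (s - s₀)) *
        μ.tri (W.a (round θ - 1)) (W.a (round θ)) (W.a (round θ + 1)) (θ - round θ)
      unfold Moll.tri
      ring
    · change deriv (fun s => (Λ - (s - s₀)) * (W.f (round θ) / 1600 : ℝ)) s -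
        μ.J (W.x (round θ - 1)) (W.x (round θ)) (W.x (round θ + 1))
          (deriv (fun s => (Λ - (s - s₀)) * (W.a (round θ - 1) : ℝ)) s)
          (deriv (fun s => (Λ - (s - s₀)) * (W.a (round θ) : ℝ)) s)
          (deriv (fun s => (Λ - (s - s₀)) * (W.a (round θ + 1) : ℝ)) s) (θ - round θ) = -W.prim μ θ
      rw [(hasDerivAt_scale _ _ _ _).deriv, (hasDerivAt_scale _ _ _ _).deriv, (hasDerivAt_scale _ _ _ _).deriv,
        (hasDerivAt_scale _ _ _ _).deriv, hp]
      have := J_scale μ (W.x (round θ - 1)) (W.x (round θ)) (W.x (round θ + 1))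
        (W.a (round θ - 1)) (W.a (round θ)) (W.a (round θ + 1)) (-1) (θ - round θ)
      rw [neg_one_mul, neg_one_mul, neg_one_mul, neg_one_mul] at this
      rw [this]
      ring
  · change (Λ - (s - s₀)) * (W.f (round θ) / 1600 : ℝ) -
        μ.J (W.x (round θ - 1)) (W.x (round θ)) (W.x (round θ + 1))
          ((Λ - (s - s₀)) * (W.a (round θ - 1) : ℝ)) ((Λ - (s - s₀)) * (W.a (round θ) : ℝ))
          ((Λ - (s - s₀)) * (W.a (round θ + 1) : ℝ)) (θ - round θ) = _
    rw [J_scale, hp]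
    ring

theorem K_rel (h : W.Good) (Λ s₀ : ℝ) (n : ℤ) (s : ℝ) : (W.K Λ s₀).Rel μ n s := by
  have h1 := ZChain.okAt_real μ (ok_all h n)
  change (Λ - (s - s₀)) * (W.f n / 1600 : ℝ) - (Λ - (s - s₀)) * (W.f (n - 1) / 1600 : ℝ) =
    μ.J (W.x (n - 1)) (W.x n) (W.x (n + 1)) ((Λ - (s - s₀)) * (W.a (n - 1) : ℝ)) ((Λ - (s - s₀)) * (W.a n : ℝ))
      ((Λ - (s - s₀)) * (W.a (n + 1) : ℝ)) (-(1 / 2))
  rw [J_scale, ← h1]
  ring

/-- the cell of the closed chain -/
theorem K_cell (h : W.Good) (Λ s₀ : ℝ) {n : ℤ} {θ s : ℝ} (hθ : |θ - n| ≤ 1 - μ.ep) :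
    ((W.K Λ s₀).cell n).pt μ (θ - n, s) =
      (μ.pl (fun n => (W.x n : ℝ)) θ, s, (Λ - (s - s₀)) * μ.pl (fun n => (W.a n : ℝ)) θ, -W.prim μ θ) ∧
    ((W.K Λ s₀).cell n).prim μ (θ - n, s) = (Λ - (s - s₀)) * W.prim μ θ := by
  obtain ⟨h1, h2⟩ := CellChain.pt_eq (C := W.K Λ s₀) (μ := μ) (s := s) hθ
    (fun _ => Filter.Eventually.of_forall fun t => K_rel μ h Λ s₀ _ t)
    (fun _ => Filter.Eventually.of_forall fun t => K_rel μ h Λ s₀ _ t)
  obtain ⟨h3, h4⟩ := K_pt (W := W) μ Λ s₀ θ s
  exact ⟨h1.symm.trans h3, h2.symm.trans h4⟩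

/-- the same, read backwards -/
theorem K_flip (h : W.Good) (Λ s₀ : ℝ) {n : ℤ} {θ s : ℝ} (hθ : |θ - n| ≤ 1 - μ.ep) :
    (((W.K Λ s₀).cell n).flip ((W.K Λ s₀).f (n - 1)) ((W.K Λ s₀).hf _)).pt μ (n - θ, s) =
      (μ.pl (fun n => (W.x n : ℝ)) θ, s, (Λ - (s - s₀)) * μ.pl (fun n => (W.a n : ℝ)) θ, -W.prim μ θ) ∧
    (((W.K Λ s₀).cell n).flip ((W.K Λ s₀).f (n - 1)) ((W.K Λ s₀).hf _)).prim μ (n - θ, s) =
      (Λ - (s - s₀)) * W.prim μ θ := by
  obtain ⟨h1, h2⟩ := ((W.K Λ s₀).cell n).flip_pt μ (v := n - θ) (s := s) ((W.K Λ s₀).hf (n - 1))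
    (Filter.Eventually.of_forall fun t => K_rel μ h Λ s₀ n t)
  obtain ⟨h3, h4⟩ := K_cell μ h Λ s₀ (s := s) hθ
  have e : -((n : ℝ) - θ) = θ - n := by ring
  rw [e] at h1 h2
  exact ⟨h1.trans h3, h2.trans h4⟩

end TopTab

/-- The closed chain `W` is the last row of the table `T`. -/
structure TopLink (T : StripTab) (W : TopTab) where
  c₀ : ℤ
  dir : ℤ
  k : ℤ
  hdir : dir = 1 ∨ dir = -1
  hk : 1 ≤ k
  len_pos : ∀ i j, 1 ≤ T.len i j
  total : T.len false false + T.len false true + T.len true true + T.len true false = W.N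
  good : W.Good

namespace TopLink

variable {T : StripTab} {W : TopTab} (L : TopLink T W)

/-- the position in the circle -/
def arcZ (_ : TopLink T W) : Bool → Bool → ℤ → ℤ
  | false, false, n => n
  | false, true, n => T.len false false + T.len false true - n
  | true, true, n => T.len false false + T.len false true + n
  | true, false, n => W.N - n

/-- the vertex of the closed chain -/
def pos (i j : Bool) (n : ℤ) : ℤ := L.c₀ + L.dir * L.arcZ i j n

/-- the edge of the closed chain which belongs to the edge from `n` to `n + 1` -/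
def edge (i j : Bool) (n : ℤ) : ℤ := min (L.pos i j n) (L.pos i j (n + 1))

/-- the test -/
def test : Bool :=
  [false, true].all fun i => [false, true].all fun j =>
    ((TopTab.range 0 (T.len i j + 1)).all fun n => decide (T.x i j n = W.x (L.pos i j n)) &&
      decide (T.y i j n T.M = (L.k + 1) * W.a (L.pos i j n)) && decide (T.y i j n (T.M + 1) = L.k * W.a (L.pos i j n))) &&
    ((TopTab.range 0 (T.len i j)).all fun n => decide (T.f i j n T.M = (L.k + 1) * W.f (L.edge i j n)) &&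
      decide (T.f i j n (T.M + 1) = L.k * W.f (L.edge i j n)))

variable {L}

theorem of_test (h : L.test = true) (i j : Bool) {n : ℤ} (h0 : 0 ≤ n) (h1 : n ≤ T.len i j) :
    T.x i j n = W.x (L.pos i j n) ∧ T.y i j n T.M = (L.k + 1) * W.a (L.pos i j n) ∧
      T.y i j n (T.M + 1) = L.k * W.a (L.pos i j n) := by
  unfold test at h
  rw [List.all_eq_true] at h
  have h2 := h i (by cases i <;> simp)
  rw [List.all_eq_true] at h2
  have h3 := h2 j (by cases j <;> simp)
  rw [Bool.and_eq_true, List.all_eq_true] at h3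
  have h4 := h3.1 n (TopTab.mem_range h0 (by omega))
  simp only [Bool.and_eq_true, decide_eq_true_eq] at h4
  exact ⟨h4.1.1, h4.1.2, h4.2⟩

theorem of_test_f (h : L.test = true) (i j : Bool) {n : ℤ} (h0 : 0 ≤ n) (h1 : n < T.len i j) :
    T.f i j n T.M = (L.k + 1) * W.f (L.edge i j n) ∧ T.f i j n (T.M + 1) = L.k * W.f (L.edge i j n) := by
  unfold test at h
  rw [List.all_eq_true] at h
  have h2 := h i (by cases i <;> simp)
  rw [List.all_eq_true] at h2
  have h3 := h2 j (by cases j <;> simp)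
  rw [Bool.and_eq_true, List.all_eq_true, List.all_eq_true] at h3
  have h4 := h3.2 n (TopTab.mem_range h0 h1)
  simp only [Bool.and_eq_true, decide_eq_true_eq] at h4
  exact h4

/-- `1` if the strip is read forwards -/
def sg (L : TopLink T W) (i j : Bool) : ℤ := if i = j then L.dir else -L.dir

theorem pos_succ (i j : Bool) (n : ℤ) : L.pos i j (n + 1) = L.pos i j n + L.sg i j := by
  cases i <;> cases j <;> simp only [pos, arcZ, sg] <;> simp <;> ring

theorem sg_cases (i j : Bool) : L.sg i j = 1 ∨ L.sg i j = -1 := by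
  unfold sg
  rcases L.hdir with h | h <;> rw [h] <;> split_ifs <;> simp

/-- the continuation at `A` -/
theorem pos_A (i j : Bool) (n : ℤ) : ∃ l : ℤ, L.pos (!i) j (-n) = L.pos i j n + l * W.N := by
  cases i <;> cases j
  · exact ⟨L.dir, by simp only [pos, arcZ, Bool.not_false]; ring⟩
  · exact ⟨0, by simp only [pos, arcZ, Bool.not_false]; ring⟩
  · exact ⟨-L.dir, by simp only [pos, arcZ, Bool.not_true]; ring⟩
  · exact ⟨0, by simp only [pos, arcZ, Bool.not_true]; ring⟩

/-- the continuation at `B` -/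
theorem pos_B (i j : Bool) (n : ℤ) : L.pos i (!j) (T.len i (!j) + T.len i j - n) = L.pos i j n := by
  have := L.total
  cases i <;> cases j <;> simp only [pos, arcZ, Bool.not_true, Bool.not_false] <;> congr 2 <;> omega

theorem edge_eq (i j : Bool) (n : ℤ) : (L.sg i j = 1 → L.edge i j n = L.pos i j n) ∧
    (L.sg i j = -1 → L.edge i j n = L.pos i j n - 1) := by
  constructor
  · intro h
    unfold edge
    rw [pos_succ, h]
    omega
  · intro h
    unfold edge
    rw [pos_succ, h]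
    omega

theorem sg_A (i j : Bool) : L.sg (!i) j = -L.sg i j := by
  cases i <;> cases j <;> simp [sg]

theorem sg_B (i j : Bool) : L.sg i (!j) = -L.sg i j := by
  cases i <;> cases j <;> simp [sg]

theorem edge_A (i j : Bool) (n : ℤ) : ∃ l : ℤ, L.edge (!i) j (-n - 1) = L.edge i j n + l * W.N := by
  obtain ⟨l, hl⟩ := pos_A (L := L) i j n
  obtain ⟨l', hl'⟩ := pos_A (L := L) i j (n + 1)
  have hs := pos_succ (L := L) (!i) j (-n - 1)
  rw [sub_add_cancel, sg_A] at hs
  have hs' := pos_succ (L := L) i j n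
  refine ⟨l, ?_⟩
  rcases sg_cases (L := L) i j with h | h
  · rw [(edge_eq (L := L) (!i) j (-n - 1)).2 (by rw [sg_A, h]), (edge_eq (L := L) i j n).1 h]
    rw [h] at hs
    omega
  · rw [(edge_eq (L := L) (!i) j (-n - 1)).1 (by rw [sg_A, h]; rfl), (edge_eq (L := L) i j n).2 h]
    rw [h] at hs
    omega

theorem edge_B (i j : Bool) (n : ℤ) : L.edge i (!j) (T.len i (!j) + T.len i j - n - 1) = L.edge i j n := by
  have hl := pos_B (L := L) i j n
  have hs := pos_succ (L := L) i (!j) (T.len i (!j) + T.len i j - n - 1)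
  rw [sub_add_cancel, sg_B] at hs
  rcases sg_cases (L := L) i j with h | h
  · rw [(edge_eq (L := L) i (!j) _).2 (by rw [sg_B, h]), (edge_eq (L := L) i j n).1 h]
    rw [h] at hs
    omega
  · rw [(edge_eq (L := L) i (!j) _).1 (by rw [sg_B, h]; rfl), (edge_eq (L := L) i j n).2 h]
    rw [h] at hs
    omega

/-- the extended chain of the last window -/
theorem ext_link (h : L.test = true) (i j : Bool) {n : ℤ} (h0 : -1 ≤ n) (h1 : n ≤ T.len i j + 1) :
    (T.ext false true i j).x n = W.x (L.pos i j n) ∧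
      (T.ext false true i j).y n T.M = (L.k + 1) * W.a (L.pos i j n) ∧
      (T.ext false true i j).y n (T.M + 1) = L.k * W.a (L.pos i j n) := by
  have hl := L.len_pos
  rcases lt_or_ge n 0 with h2 | h2
  · rw [StripTab.ext_x_neg h2, StripTab.ext_y_neg h2, prt_false]
    obtain ⟨l, e⟩ := pos_A (L := L) i j n
    obtain ⟨k1, k2, k3⟩ := of_test h (!i) j (n := -n) (by omega) (by have := hl (!i) j; omega)
    obtain ⟨p1, p2, -⟩ := TopTab.per_int L.good l (L.pos i j n)
    rw [e, p1] at k1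
    rw [e, p2] at k2 k3
    exact ⟨k1, k2, k3⟩
  rcases le_or_gt n (T.len i j) with h3 | h3
  · rw [StripTab.ext_x h2 h3, StripTab.ext_y h2 h3]
    exact of_test h i j h2 h3
  · rw [StripTab.ext_x_gt h2 h3, StripTab.ext_y_gt h2 h3, prt_true]
    have e := pos_B (L := L) i j n
    obtain ⟨k1, k2, k3⟩ := of_test h i (!j) (n := T.len i (!j) + T.len i j - n) (by have := hl i (!j); omega)
      (by omega)
    rw [e] at k1 k2 k3
    exact ⟨k1, k2, k3⟩

theorem ext_link_f (h : L.test = true) (i j : Bool) {n : ℤ} (h0 : -1 ≤ n) (h1 : n ≤ T.len i j) :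
    (T.ext false true i j).f n T.M = (L.k + 1) * W.f (L.edge i j n) ∧
      (T.ext false true i j).f n (T.M + 1) = L.k * W.f (L.edge i j n) := by
  have hl := L.len_pos
  rcases lt_or_ge n 0 with h2 | h2
  · rw [StripTab.ext_f_neg h2, prt_false]
    obtain ⟨l, e⟩ := edge_A (L := L) i j n
    obtain ⟨k1, k2⟩ := of_test_f h (!i) j (n := -n - 1) (by omega) (by have := hl (!i) j; omega)
    obtain ⟨-, -, p3⟩ := TopTab.per_int L.good l (L.edge i j n)
    rw [e, p3] at k1 k2
    exact ⟨k1, k2⟩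
  rcases lt_or_ge n (T.len i j) with h3 | h3
  · rw [StripTab.ext_f h2 h3]
    exact of_test_f h i j h2 h3
  · rw [StripTab.ext_f_ge h2 h3, prt_true]
    have e := edge_B (L := L) i j n
    obtain ⟨k1, k2⟩ := of_test_f h i (!j) (n := T.len i (!j) + T.len i j - n - 1) (by have := hl i (!j); omega)
      (by omega)
    rw [e] at k1 k2
    exact ⟨k1, k2⟩

variable (μ : Moll)

/-- a table with the rows `(k + 1) c` and `k c` -/
theorem pl_scale {g : ℤ → ℤ} {M k c : ℤ} (h0 : g M = (k + 1) * c) (h1 : g (M + 1) = k * c) {s : ℝ}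
    (hs : |s - (M + 1 / 2)| < 1 / 4) :
    (μ.pl fun m => (g m : ℝ)) =ᶠ[𝓝 s] fun s => (((k : ℝ) + 1 / 2) - (s - (M + 1 / 2))) * c := by
  have h2 : Continuous fun t : ℝ => |t - (M + 1 / 2)| := by fun_prop
  filter_upwards [h2.continuousAt.tendsto.eventually (gt_mem_nhds hs)] with t ht
  have h3 := abs_lt.1 ht
  have h4 := μ.ep_lt
  rw [μ.pl_right _ (n := M) (by linarith [h3.1]) (by linarith [h3.2]), h0, h1]
  push_cast
  ring

variable (L)

/-- the input of the top -/
noncomputable def topIn : TopIn μ :=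
  W.topIn μ L.good ((L.k : ℝ) + 1 / 2) (T.M + 1 / 2) (by
    have : (1 : ℝ) ≤ L.k := by exact_mod_cast L.hk
    linarith)

/-- the four arcs -/
noncomputable def arcs : TopArcs (L.topIn μ) where
  len i j := T.len i j
  len_pos i j := by
    have := L.len_pos i j
    exact_mod_cast (by omega : 0 < T.len i j)
  c₀ := L.c₀
  dir := L.dir
  hdir := by
    rcases L.hdir with h | h
    · left; rw [h]; norm_num
    · right; rw [h]; norm_num
  total := by
    have := L.total
    change (T.len false false : ℝ) + T.len false true + T.len true true + T.len true false = W.N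
    exact_mod_cast this

theorem σ_eq (i j : Bool) (θ : ℝ) (n : ℤ) : (L.arcs μ).σ i j θ - L.pos i j n = L.sg i j * (θ - n) := by
  have e : (L.topIn μ).N = W.N := rfl
  cases i <;> cases j <;> simp only [TopArcs.σ, TopArcs.arc, arcs, pos, arcZ, sg, e] <;> simp <;> ring

/-- In the last half window the cells of the strips are the strip maps of the top. -/
theorem link (h : L.test = true) (O : TopOut μ (L.topIn μ)) (i j : Bool) {n : ℤ} (h0 : 0 ≤ n) (h1 : n ≤ T.len i j)
    {θ s : ℝ} (hθ : |θ - n| ≤ 3 / 4) (hs : |s - (T.M + 1 / 2)| < 1 / 4) :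
    (((T.ext false true i j).toChain μ).cell n).pt μ (θ - n, s) = (L.arcs μ).Φ O i j (θ, s) ∧
      (((T.ext false true i j).toChain μ).cell n).prim μ (θ - n, s) = (L.arcs μ).G O i j (θ, s) := by
  have hs' := abs_lt.1 hs
  have hI : (L.topIn μ).s₀ = T.M + 1 / 2 := rfl
  obtain ⟨e1, e2⟩ := (L.arcs μ).Φ_start O i j (θ := θ) (s := s) (by rw [hI]; linarith) (by rw [hI]; linarith)
  rw [e1, e2]
  change _ = ((μ.pl fun n => (W.x n : ℝ)) ((L.arcs μ).σ i j θ), s,
      (((L.k : ℝ) + 1 / 2) - (s - (T.M + 1 / 2))) * (μ.pl fun n => (W.a n : ℝ)) ((L.arcs μ).σ i j θ),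
      -W.prim μ ((L.arcs μ).σ i j θ)) ∧
    _ = (((L.k : ℝ) + 1 / 2) - (s - (T.M + 1 / 2))) * W.prim μ ((L.arcs μ).σ i j θ)
  have hσ := L.σ_eq μ i j θ n
  have hep := μ.ep_lt
  obtain ⟨x0, ya0, yb0⟩ := ext_link h i j (n := n - 1) (by omega) (by omega)
  obtain ⟨x1, ya1, yb1⟩ := ext_link h i j (n := n) (by omega) (by omega)
  obtain ⟨x2, ya2, yb2⟩ := ext_link h i j (n := n + 1) (by omega) (by omega)
  obtain ⟨fa, fb⟩ := ext_link_f h i j (n := n) (by omega) (by omega)
  have p0 := pos_succ (L := L) i j (n - 1)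
  rw [sub_add_cancel] at p0
  have p2 := pos_succ (L := L) i j n
  have hf : ∀ q : ℤ, L.edge i j n = q → ((T.ext false true i j).toChain μ).f n =ᶠ[𝓝 s]
      (W.K ((L.k : ℝ) + 1 / 2) (T.M + 1 / 2)).f q := by
    intro q hq
    rw [hq] at fa fb
    have h3 := pl_scale μ fa fb hs
    filter_upwards [h3] with t ht
    change μ.pl (fun m => ((T.ext false true i j).f n m : ℝ)) t / 1600 =
      (((L.k : ℝ) + 1 / 2) - (t - (T.M + 1 / 2))) * (W.f q / 1600)
    rw [ht]
    ring
  rcases sg_cases (L := L) i j with hsg | hsg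
  · rw [hsg] at hσ p0 p2
    rw [Int.cast_one, one_mul] at hσ
    have hK := TopTab.K_cell (W := W) μ L.good ((L.k : ℝ) + 1 / 2) (T.M + 1 / 2) (n := L.pos i j n)
      (θ := (L.arcs μ).σ i j θ) (s := s) (by rw [hσ]; linarith)
    rw [hσ] at hK
    rw [← hK.1, ← hK.2]
    apply Cell.congr_near
    · change ((T.ext false true i j).x (n - 1) : ℝ) = W.x (L.pos i j n - 1)
      rw [x0]; congr 2; omega
    · change ((T.ext false true i j).x n : ℝ) = W.x (L.pos i j n)
      rw [x1]
    · change ((T.ext false true i j).x (n + 1) : ℝ) = W.x (L.pos i j n + 1)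
      rw [x2, p2]
    · have := pl_scale μ ya0 yb0 hs
      have e : L.pos i j (n - 1) = L.pos i j n - 1 := by omega
      rw [e] at this
      exact this
    · exact pl_scale μ ya1 yb1 hs
    · have := pl_scale μ ya2 yb2 hs
      rw [p2] at this
      exact this
    · exact hf _ ((edge_eq (L := L) i j n).1 hsg)
  · rw [hsg] at hσ p0 p2
    have hσ' : (L.pos i j n : ℝ) - (L.arcs μ).σ i j θ = θ - n := by
      push_cast at hσ
      linarith
    have hK := TopTab.K_flip (W := W) μ L.good ((L.k : ℝ) + 1 / 2) (T.M + 1 / 2) (n := L.pos i j n)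
      (θ := (L.arcs μ).σ i j θ) (s := s) (by rw [abs_sub_comm, hσ']; linarith)
    rw [hσ'] at hK
    rw [← hK.1, ← hK.2]
    apply Cell.congr_near
    · change ((T.ext false true i j).x (n - 1) : ℝ) = W.x (L.pos i j n + 1)
      rw [x0]; congr 2; omega
    · change ((T.ext false true i j).x n : ℝ) = W.x (L.pos i j n)
      rw [x1]
    · change ((T.ext false true i j).x (n + 1) : ℝ) = W.x (L.pos i j n - 1)
      rw [x2]; congr 2
    · have := pl_scale μ ya0 yb0 hs
      have e : L.pos i j (n - 1) = L.pos i j n + 1 := by omega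
      rw [e] at this
      exact this
    · exact pl_scale μ ya1 yb1 hs
    · have := pl_scale μ ya2 yb2 hs
      have e : L.pos i j (n + 1) = L.pos i j n - 1 := by omega
      rw [e] at this
      exact this
    · exact hf _ ((edge_eq (L := L) i j n).2 hsg)

end TopLink

end Pool.Agent.Lib_MP_59ec1f_cap
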