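import Pool.Agent.Lib_MP_59ec1f_cap.Final
import Pool.Agent.Lib_MP_59ec1f_cap.TopLink
import Pool.Agent.Lib_MP_59ec1f_cap.LowInj
import Pool.Agent.Lib_MP_59ec1f_cap.LowCone

/-!
# The statement from the table
-/

set_option autoImplicit false

open scoped ContDiff Topology

namespace Pool.Agent.Lib_MP_59ec1f_cap

/-- The lower part, given by the cells of the table in the last half window, fits to the top. -/
theorem fits_of_link {T : StripTab} {W : TopTab} (K : TopLink T W) (ht : K.test = true) {μ : Moll}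
    (O : TopOut μ (K.topIn μ)) (L : LowStrips) (hS : L.S = T.M + 3 / 4) (hB : L.sB < T.M + 1 / 2)
    (hlen : ∀ i j, L.len i j = T.len i j)
    (hcell : ∀ (i j : Bool) (θ s : ℝ), 0 ≤ θ → θ ≤ T.len i j → |s - (T.M + 1 / 2)| < 1 / 4 →
      L.Φ i j (θ, s) = (((T.ext false true i j).toChain μ).cell (round θ)).pt μ (θ - round θ, s) ∧
      L.G i j (θ, s) = (((T.ext false true i j).toChain μ).cell (round θ)).prim μ (θ - round θ, s)) :
    Fits L (K.arcs μ) O where
  hS := by
    have e : (K.topIn μ).s₀ = T.M + 1 / 2 := rfl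
    rw [hS, e]
    ring
  hB := hB
  len := hlen
  eq := by
    intro i j θ s h0 h1 h2 h3
    have e : (K.topIn μ).s₀ = T.M + 1 / 2 := rfl
    rw [e] at h2 h3
    have hs : |s - (T.M + 1 / 2)| < 1 / 4 := by
      rw [abs_lt]
      constructor <;> linarith
    have h1' : θ ≤ T.len i j := h1
    obtain ⟨c1, c2⟩ := hcell i j θ s h0 h1' hs
    have hr := abs_sub_round_le θ
    have hr' := abs_le.1 hr
    have n0 : 0 ≤ round θ := by
      have : ((-1 : ℤ) : ℝ) < (round θ : ℝ) := by push_cast; linarith [hr'.2]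
      have : (-1 : ℤ) < round θ := by exact_mod_cast this
      omega
    have n1 : round θ ≤ T.len i j := by
      have : (round θ : ℝ) < ((T.len i j + 1 : ℤ) : ℝ) := by push_cast; linarith [hr'.1]
      have : round θ < T.len i j + 1 := by exact_mod_cast this
      omega
    obtain ⟨d1, d2⟩ := K.link μ ht O i j n0 n1 (θ := θ) (s := s) (by linarith) hs
    exact ⟨c1.trans d1, c2.trans d2⟩

namespace StripTab

variable {T : StripTab} {μ : Moll} {EA EB : Bool → Bool → ℝ × ℝ → P4 × ℝ} {sA sB : ℝ}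

/-- the lower part from the table -/
noncomputable def lowStrips (h : T.Ok) (h2 : T.Ok2) (h3 : T.Ok3) (hEA : T.FitA μ EA) (hEB : T.FitB μ EB)
    (hA : T.GlueA EA sA) (hB : T.GlueB EB sB) (hIA : T.InjA μ EA sA) (hIB : T.InjB μ EB sB) : LowStrips where
  len i j := T.len i j
  sA := sA
  sB := sB
  S := T.M + 3 / 4
  Φ i j p := (T.F μ EA EB i j p).1
  G i j p := (T.F μ EA EB i j p).2
  len_pos i j := by
    have := h.len2 i j
    exact_mod_cast (by omega : 0 < T.len i j)
  hA := by
    have h4 := abs_lt.1 hA.hs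
    have h5 : (1 : ℝ) ≤ T.mA := by exact_mod_cast h.hA
    linarith
  hAB := by
    have h4 := abs_lt.1 hA.hs
    have h5 := abs_lt.1 hB.hs
    have h6 : (T.mA : ℝ) + 1 ≤ T.mB := by
      have := h.hAB
      exact_mod_cast (by omega : T.mA + 1 ≤ T.mB)
    linarith
  hBS := by
    have h5 := abs_lt.1 hB.hs
    have h6 : (T.mB : ℝ) + 1 ≤ T.M := by
      have := h.hBM
      exact_mod_cast (by omega : T.mB + 1 ≤ T.M)
    linarith
  cont i j := F_cont h hEA hEB hA hB
  time i j θ s _ _ _ _ := F_time hA hB (θ, s)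
  cone := by
    intro i j θ s k0 k1 k2 k3
    obtain ⟨X, Y, τ, hF⟩ := F_cone h h2 hEA hEB k0 k1
    rw [hF s k2 (by linarith), hF (1 / 2) (by norm_num) (by norm_num)]
    refine Prod.ext rfl (Prod.ext rfl (Prod.ext ?_ rfl))
    simp only
    ring
  coneG := by
    intro i j θ s k0 k1 k2 k3
    obtain ⟨X, Y, τ, hF⟩ := F_cone h h2 hEA hEB k0 k1
    rw [hF s k2 (by linarith)]
  glueA₁ i s k1 k2 := by rw [F_glueA₁ h h2 hEA hEB hA k1 k2]
  glueA₂ j s k1 k2 := by rw [F_glueA₂ h h2 hEA hEB hA k1 k2]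
  glueB₁ j s k1 k2 := by rw [F_glueB₁ h h2 hEA hEB hB k1 k2]
  glueB₂ i s k1 k2 := by rw [F_glueB₂ h h2 hEA hEB hB k1 k2]
  inj := by
    intro i j θ i' j' θ' s k0 k1 k0' k1' k2 k3 e
    exact F_inj h h2 h3 hEA hEB hA hB hIA hIB k2 (by linarith) k0 k1 k0' k1' e

/-- the statement from the table, given the charts of the lower part -/
theorem statement_of_tab (h : T.Ok) (h2 : T.Ok2) (h3 : T.Ok3) (hEA : T.FitA μ EA) (hEB : T.FitB μ EB)
    (hA : T.GlueA EA sA) (hB : T.GlueB EB sB) (hIA : T.InjA μ EA sA) (hIB : T.InjB μ EB sB) {W : TopTab}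
    (K : TopLink T W) (ht : K.test = true)
    (hc : ∀ D : QStrips, (∀ i j, D.len i j = T.len i j) → D.sA = sA → D.sB = sB → (T.M : ℝ) + 3 / 4 ≤ D.sT →
      (∀ (i j : Bool) (θ s : ℝ), 0 ≤ θ → θ ≤ T.len i j → 0 < s → s < T.M + 3 / 4 →
        D.Φ i j (θ, s) = (T.F μ EA EB i j (θ, s)).1 ∧ D.G i j (θ, s) = (T.F μ EA EB i j (θ, s)).2) →
      ∀ p ∈ D.carrier, p.2.1 ≤ T.M + 1 / 2 → D.HasChart p) : Statement := by
  obtain ⟨O⟩ := exists_top μ (K.topIn μ)
  set L := lowStrips h h2 h3 hEA hEB hA hB hIA hIB with hL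
  have hf : Fits L (K.arcs μ) O := by
    refine fits_of_link K ht O L rfl ?_ (fun _ _ => rfl) ?_
    · have h5 := abs_lt.1 hB.hs
      have h6 : (T.mB : ℝ) + 1 ≤ T.M := by
        have := h.hBM
        exact_mod_cast (by omega : T.mB + 1 ≤ T.M)
      change sB < T.M + 1 / 2
      linarith
    · intro i j θ s k0 k1 k2
      have k2' := abs_lt.1 k2
      have hr := abs_sub_round_le θ
      have hr' := abs_le.1 hr
      have n0 : 0 ≤ round θ := by
        have : ((-1 : ℤ) : ℝ) < (round θ : ℝ) := by push_cast; linarith [hr'.2]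
        have : (-1 : ℤ) < round θ := by exact_mod_cast this
        omega
      have n1 : round θ ≤ T.len i j := by
        have : (round θ : ℝ) < ((T.len i j + 1 : ℤ) : ℝ) := by push_cast; linarith [hr'.1]
        have : round θ < T.len i j + 1 := by exact_mod_cast this
        omega
      have hM0 : 0 ≤ T.M := by have := h.hA; have := h.hAB; have := h.hBM; omega
      have hM0' : (0 : ℝ) ≤ T.M := by exact_mod_cast hM0
      have hg : T.good i j (round θ) T.M := by
        constructor
        · rintro ⟨e, -⟩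
          have := h.hAB; have := h.hBM; omega
        · rintro ⟨e, -⟩
          have := h.hBM; omega
      have hcell := F_cell h hEA hEB n0 n1 hM0 le_rfl hg k0 k1 (lt_of_le_of_lt hr (by norm_num))
        (s := s) (by linarith) (by linarith) (by rw [abs_lt]; constructor <;> linarith)
      have e1 : T.rA T.M = false := by
        unfold rA
        have := h.hAB; have := h.hBM
        simp only [decide_eq_false_iff_not, not_lt]
        omega
      have e2 : T.rB T.M = true := by
        unfold rB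
        have := h.hBM
        simp only [decide_eq_true_eq]
        exact this
      unfold cl win at hcell
      rw [e1, e2] at hcell
      exact ⟨congrArg Prod.fst hcell, congrArg Prod.snd hcell⟩
  refine hf.statement fun p hp hps => ?_
  refine hc hf.strips (fun _ _ => rfl) rfl rfl ?_ ?_ p hp (by
    have e : L.S = T.M + 3 / 4 := rfl
    rw [e] at hps
    linarith)
  · have h5 := O.hT
    have e : (K.topIn μ).s₀ = T.M + 1 / 2 := rfl
    rw [e] at h5
    change (T.M : ℝ) + 3 / 4 ≤ O.sT
    linarith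
  · intro i j θ s k0 k1 k2 k3
    have e : (K.topIn μ).s₀ = T.M + 1 / 2 := rfl
    exact hf.low (i := i) (j := j) (θ := θ) (s := s) k0 k1 (by
      rw [e]
      linarith)

end StripTab

end Pool.Agent.Lib_MP_59ec1f_cap
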