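import Pool.Agent.Lib_MP_59ec1f_cap.Strips

/-!
# Local charts for families of maps

`LocChart Φ G dom p` is the condition of `QStrips.HasChart` for a family of maps `Φ k` with primitives `G k` on the domains
`dom k`. `QStrips.hasChart_of_loc` passes from pieces of the strips (in their own coordinates) to `HasChart`.
-/

set_option autoImplicit false

open scoped ContDiff

namespace Pool.Agent.Lib_MP_59ec1f_cap

/-- `dg = Y dx + τ ds` at `u` -/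
def PrimAt (c : ℝ × ℝ → P4) (g : ℝ × ℝ → ℝ) (u : ℝ × ℝ) : Prop :=
  ∀ h, fderiv ℝ g u h = (c u).2.2.1 * (fderiv ℝ c u h).1 + (c u).2.2.2 * (fderiv ℝ c u h).2.1

/-- Near `p` the family has a common smooth immersed chart. -/
def LocChart {ι : Type*} (Φ : ι → ℝ × ℝ → P4) (G : ι → ℝ × ℝ → ℝ) (dom : ι → Set (ℝ × ℝ)) (p : P4) : Prop :=
  ∃ (U : Set (ℝ × ℝ)) (u₀ : ℝ × ℝ) (c : ℝ × ℝ → P4) (g : ℝ × ℝ → ℝ),
    IsOpen U ∧ u₀ ∈ U ∧ ContDiffOn ℝ ∞ c U ∧ ContDiffOn ℝ ∞ g U ∧ c u₀ = p ∧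
    Function.Injective (fderiv ℝ c u₀) ∧ (∀ u ∈ U, PrimAt c g u) ∧
    (∀ u ∈ U, ∃ k, ∃ q ∈ dom k, Φ k q = c u) ∧
    ∀ k, ∀ q ∈ dom k, Φ k q = p → ∃ (N : Set (ℝ × ℝ)) (t : ℝ × ℝ → ℝ × ℝ), IsOpen N ∧ q ∈ N ∧
      ContinuousOn t (N ∩ dom k) ∧ t q = u₀ ∧
      ∀ q' ∈ N ∩ dom k, t q' ∈ U ∧ c (t q') = Φ k q' ∧ g (t q') = G k q'

/-- From pieces of the strips to the strips: the piece `k` is a part of the strip `e k`, in the coordinates `H k`, and near each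
preimage of `p` in a strip the strip is one of the pieces. -/
theorem QStrips.hasChart_of_loc (D : QStrips) {ι : Type*} {Φ : ι → ℝ × ℝ → P4} {G : ι → ℝ × ℝ → ℝ}
    {dom : ι → Set (ℝ × ℝ)} {p : P4} (h : LocChart Φ G dom p) (e : ι → Bool × Bool) (H : ι → ℝ × ℝ ≃ₜ ℝ × ℝ)
    (h₁ : ∀ k, ∀ q ∈ dom k, H k q ∈ D.dom (e k).1 (e k).2 ∧ D.Φ (e k).1 (e k).2 (H k q) = Φ k q ∧
      D.G (e k).1 (e k).2 (H k q) = G k q)
    (h₂ : ∀ i j, ∀ q ∈ D.dom i j, D.Φ i j q = p → ∃ k, e k = (i, j) ∧ ∃ O : Set (ℝ × ℝ), IsOpen O ∧ q ∈ O ∧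
      ∀ q' ∈ O ∩ D.dom i j, (H k).symm q' ∈ dom k) :
    D.HasChart p := by
  obtain ⟨U, u₀, c, g, hU, hu₀, hc, hg, hcp, himm, hprim, hcov, hfac⟩ := h
  refine ⟨U, u₀, c, g, hU, hu₀, hc, hg, hcp, himm, hprim, ?_, ?_⟩
  · intro u hu
    obtain ⟨k, q, hq, hk⟩ := hcov u hu
    obtain ⟨a, b, _⟩ := h₁ k q hq
    refine Set.mem_iUnion.2 ⟨(e k).1, Set.mem_iUnion.2 ⟨(e k).2, H k q, a, ?_⟩⟩
    rw [b, hk]
  · intro i j q hq hqp
    obtain ⟨k, hek, O, hO, hqO, hdom⟩ := h₂ i j q hq hqp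
    have hloc : (H k).symm q ∈ dom k := hdom q ⟨hqO, hq⟩
    have hval : ∀ q' ∈ O ∩ D.dom i j, D.Φ i j q' = Φ k ((H k).symm q') ∧ D.G i j q' = G k ((H k).symm q') := by
      intro q' hq'
      obtain ⟨_, b, b'⟩ := h₁ k _ (hdom q' hq')
      rw [(H k).apply_symm_apply, hek] at b b'
      exact ⟨b, b'⟩
    obtain ⟨N, t, hN, hqN, ht, htq, hfac'⟩ := hfac k _ hloc (by rw [← (hval q ⟨hqO, hq⟩).1, hqp])
    refine ⟨O ∩ (H k).symm ⁻¹' N, fun q' => t ((H k).symm q'), hO.inter (hN.preimage (H k).symm.continuous), ⟨hqO, hqN⟩,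
      ?_, htq, ?_⟩
    · refine ht.comp (H k).symm.continuous.continuousOn ?_
      rintro q' ⟨⟨ha, hb⟩, hc'⟩
      exact ⟨hb, hdom q' ⟨ha, hc'⟩⟩
    · rintro q' ⟨⟨ha, hb⟩, hc'⟩
      obtain ⟨f1, f2, f3⟩ := hfac' ((H k).symm q') ⟨hb, hdom q' ⟨ha, hc'⟩⟩
      obtain ⟨v1, v2⟩ := hval q' ⟨ha, hc'⟩
      exact ⟨f1, by rw [f2, v1], by rw [f3, v2]⟩

/-- a family which factors through one smooth immersed patch -/
theorem LocChart.of_patch {ι : Type*} {Φ : ι → ℝ × ℝ → P4} {G : ι → ℝ × ℝ → ℝ} {dom : ι → Set (ℝ × ℝ)}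
    {W : Set (ℝ × ℝ)} {c : ℝ × ℝ → P4} {g : ℝ × ℝ → ℝ} {u₀ : ℝ × ℝ} (hW : IsOpen W) (hu₀ : u₀ ∈ W)
    (hc : ContDiffOn ℝ ∞ c W) (hg : ContDiffOn ℝ ∞ g W) (himm : Function.Injective (fderiv ℝ c u₀))
    (hprim : ∀ u ∈ W, PrimAt c g u) (hinj : ∀ u ∈ W, c u = c u₀ → u = u₀) (t : ι → ℝ × ℝ → ℝ × ℝ)
    (ht : ∀ k, ContinuousOn (t k) (dom k)) (hmap : ∀ k, ∀ q ∈ dom k, t k q ∈ W)
    (hcov : ∀ u ∈ W, ∃ k, ∃ q ∈ dom k, t k q = u)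
    (hΦ : ∀ k, ∀ q ∈ dom k, Φ k q = c (t k q)) (hG : ∀ k, ∀ q ∈ dom k, G k q = g (t k q)) :
    LocChart Φ G dom (c u₀) := by
  refine ⟨W, u₀, c, g, hW, hu₀, hc, hg, rfl, himm, hprim, ?_, ?_⟩
  · intro u hu
    obtain ⟨k, q, hq, hk⟩ := hcov u hu
    exact ⟨k, q, hq, by rw [hΦ k q hq, hk]⟩
  · intro k q hq hqp
    refine ⟨Set.univ, t k, isOpen_univ, Set.mem_univ _, (ht k).mono Set.inter_subset_right,
      hinj _ (hmap k q hq) (by rw [← hΦ k q hq, hqp]), ?_⟩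
    rintro q' ⟨_, hq'⟩
    exact ⟨hmap k q' hq', (hΦ k q' hq').symm, (hG k q' hq').symm⟩

/-- one smooth immersed patch -/
theorem LocChart.single {W : Set (ℝ × ℝ)} {c : ℝ × ℝ → P4} {g : ℝ × ℝ → ℝ} {u₀ : ℝ × ℝ} (hW : IsOpen W) (hu₀ : u₀ ∈ W)
    (hc : ContDiffOn ℝ ∞ c W) (hg : ContDiffOn ℝ ∞ g W) (himm : Function.Injective (fderiv ℝ c u₀))
    (hprim : ∀ u ∈ W, PrimAt c g u) (hinj : ∀ u ∈ W, c u = c u₀ → u = u₀) :
    LocChart (ι := Unit) (fun _ => c) (fun _ => g) (fun _ => W) (c u₀) :=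
  LocChart.of_patch hW hu₀ hc hg himm hprim hinj (fun _ => id) (fun _ => continuousOn_id) (fun _ _ h => h)
    (fun u hu => ⟨(), u, hu, rfl⟩) (fun _ _ _ => rfl) (fun _ _ _ => rfl)

/-- the sign of a Boolean -/
def sg (b : Bool) : ℝ := if b then 1 else -1

theorem sg_true : sg true = 1 := rfl

theorem sg_false : sg false = -1 := rfl

theorem sg_sq (b : Bool) : sg b ^ 2 = 1 := by
  cases b <;> simp [sg]

theorem sg_ne (b : Bool) : sg b ≠ 0 := by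
  cases b <;> simp [sg]

theorem sg_mul_self (b : Bool) : sg b * sg b = 1 := by
  cases b <;> simp [sg]

theorem abs_sg (b : Bool) : |sg b| = 1 := by
  cases b <;> simp [sg]

/-- if `sg b * x = sg b' * x'` with `x > 0`, `x' ≥ 0` then `b = b'` and `x = x'` -/
theorem sg_inj {b b' : Bool} {x x' : ℝ} (hx : 0 < x) (hx' : 0 ≤ x') (h : sg b * x = sg b' * x') : b = b' ∧ x = x' := by
  cases b <;> cases b' <;> simp only [sg_true, sg_false, one_mul, neg_mul, neg_inj] at h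
  · exact ⟨rfl, h⟩
  · linarith
  · linarith
  · exact ⟨rfl, h⟩

/-- The two halves `c (ρ, s)`, `c (-ρ, s)`, `0 ≤ ρ < r`, `lo < s < hi`, of a smooth immersed patch. -/
theorem LocChart.halves {c : ℝ × ℝ → P4} {g : ℝ × ℝ → ℝ} {r lo hi v₀ s₀ : ℝ} (hv₀ : |v₀| < r) (hs₀ : s₀ ∈ Set.Ioo lo hi)
    (hc : ContDiffOn ℝ ∞ c (Set.Ioo (-r) r ×ˢ Set.Ioo lo hi)) (hg : ContDiffOn ℝ ∞ g (Set.Ioo (-r) r ×ˢ Set.Ioo lo hi))
    (himm : Function.Injective (fderiv ℝ c (v₀, s₀)))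
    (hprim : ∀ u ∈ Set.Ioo (-r) r ×ˢ Set.Ioo lo hi, PrimAt c g u)
    (hinj : ∀ u ∈ Set.Ioo (-r) r ×ˢ Set.Ioo lo hi, c u = c (v₀, s₀) → u = (v₀, s₀)) :
    LocChart (ι := Bool) (fun b q => c (sg b * q.1, q.2)) (fun b q => g (sg b * q.1, q.2))
      (fun _ => Set.Ico 0 r ×ˢ Set.Ioo lo hi) (c (v₀, s₀)) := by
  have hv := abs_lt.1 hv₀
  refine LocChart.of_patch (isOpen_Ioo.prod isOpen_Ioo) ⟨⟨hv.1, hv.2⟩, hs₀⟩ hc hg himm hprim hinj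
    (fun b q => (sg b * q.1, q.2)) (fun b => ?_) ?_ ?_ (fun _ _ _ => rfl) (fun _ _ _ => rfl)
  · exact ((continuous_const.mul continuous_fst).prodMk continuous_snd).continuousOn
  · rintro b ⟨ρ, s⟩ ⟨⟨h1, h2⟩, h3⟩
    refine ⟨?_, h3⟩
    simp only at h1 h2
    cases b
    · simp only [sg_false]
      constructor <;> linarith
    · simp only [sg_true]
      constructor <;> linarith
  · rintro ⟨v, s⟩ ⟨⟨h1, h2⟩, h3⟩
    simp only at h1 h2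
    rcases le_total 0 v with h | h
    · refine ⟨true, (v, s), ⟨⟨h, h2⟩, h3⟩, ?_⟩
      simp only [sg_true, one_mul]
    · refine ⟨false, (-v, s), ⟨⟨?_, ?_⟩, h3⟩, ?_⟩
      · simp only
        linarith
      · simp only
        linarith
      · simp only [sg_false, neg_mul, one_mul, neg_neg]

end Pool.Agent.Lib_MP_59ec1f_cap
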