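import Pool.Agent.Lib_MP_59ec1f_cap.Bridge

/-!
# Local patches of the model

`LocM M F m`: the condition `IsModel.smooth` at the point `m`.

* `locM_congr`: it only depends on `M` and `F` near `m`.
* `locM_graph`: graph `Y = Φ_X, τ = Φ_s`, `F = Φ` over the `(s, X)`-plane.
* `locM_fold`: two sheets over `{E ≥ 0}` which meet in a fold over `{E = 0}`, `dE ≠ 0`:
  `(Y, τ) = dA + (3/4) w dE`, `w² = E`, `F = A + w³ / 2` (also the saddle SA and the death).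
* `locM_swap`: the same in the coordinates `(s, Y, X, -τ)` with `X Y - F` (graphs and folds over the `(s, Y)`-plane, also the saddle SB).
-/

set_option autoImplicit false

open scoped ContDiff
open Filter Topology

namespace Pool.Agent.Lib_MP_59ec1f_cap

/-- the local condition of `IsModel` -/
def LocM (M : Set E4) (F : E4 → ℝ) (m : E4) : Prop :=
  ∃ (U : Set E4) (G : E4 → E2) (h : E4 → ℝ), IsOpen U ∧ m ∈ U ∧ ContDiffOn ℝ ∞ G U ∧
    ContDiffOn ℝ ∞ h U ∧ M ∩ U = {q ∈ U | G q = 0} ∧ ∀ q ∈ M ∩ U, F q = h q ∧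
      Function.Surjective (fderiv ℝ G q) ∧ ∀ v, fderiv ℝ G q v = 0 → fderiv ℝ h q v = q 2 * v 1 + q 3 * v 0

theorem locM_congr {M M' : Set E4} {F F' : E4 → ℝ} {m : E4} {W : Set E4} (hW : IsOpen W) (hm : m ∈ W)
    (hM : M ∩ W = M' ∩ W) (hF : ∀ q ∈ M ∩ W, F q = F' q) (h : LocM M' F' m) : LocM M F m := by
  obtain ⟨U, G, h, hU, hmU, hG, hh, hMU, hd⟩ := h
  refine ⟨U ∩ W, G, h, hU.inter hW, ⟨hmU, hm⟩, hG.mono Set.inter_subset_left, hh.mono Set.inter_subset_left, ?_, ?_⟩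
  · ext q
    constructor
    · rintro ⟨h1, h2, h3⟩
      have h4 : q ∈ M' ∩ W := hM ▸ ⟨h1, h3⟩
      have h5 : q ∈ {q ∈ U | G q = 0} := hMU ▸ ⟨h4.1, h2⟩
      exact ⟨⟨h2, h3⟩, h5.2⟩
    · rintro ⟨⟨h2, h3⟩, h4⟩
      have h5 : q ∈ M' ∩ U := by
        rw [hMU]
        exact ⟨h2, h4⟩
      have h6 : q ∈ M ∩ W := hM.symm ▸ ⟨h5.1, h3⟩
      exact ⟨h6.1, h2, h3⟩
  · rintro q ⟨h1, h2, h3⟩
    have h4 : q ∈ M' ∩ W := hM ▸ ⟨h1, h3⟩
    obtain ⟨h5, h6, h7⟩ := hd q ⟨h4.1, h2⟩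
    exact ⟨(hF q ⟨h1, h3⟩).trans h5, h6, h7⟩

/-- the point `(s, X)` of `(s, X, Y, τ)` -/
def pSX (q : E4) : ℝ × ℝ := (q 0, q 1)

theorem pSX_contDiff : ContDiff ℝ ∞ pSX :=
  ((EuclideanSpace.proj (𝕜 := ℝ) (0 : Fin 4)).contDiff).prodMk ((EuclideanSpace.proj (𝕜 := ℝ) (1 : Fin 4)).contDiff)

theorem pSX_hasFDerivAt (q : E4) : HasFDerivAt pSX
    ((EuclideanSpace.proj (𝕜 := ℝ) (0 : Fin 4)).prod (EuclideanSpace.proj (𝕜 := ℝ) (1 : Fin 4))) q :=
  ((EuclideanSpace.proj (𝕜 := ℝ) (0 : Fin 4)).hasFDerivAt).prodMk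
    ((EuclideanSpace.proj (𝕜 := ℝ) (1 : Fin 4)).hasFDerivAt)

/-- derivative of a function of `(s, X)` -/
theorem fderiv_comp_pSX {φ : ℝ × ℝ → ℝ} {q : E4} (h : DifferentiableAt ℝ φ (pSX q)) (v : E4) :
    fderiv ℝ (fun q => φ (pSX q)) q v = fderiv ℝ φ (pSX q) (v 0, v 1) := by
  have h1 := (h.hasFDerivAt.comp q (pSX_hasFDerivAt q)).fderiv
  have h2 : fderiv ℝ (fun q => φ (pSX q)) q = (fderiv ℝ φ (pSX q)).comp
    ((EuclideanSpace.proj (𝕜 := ℝ) (0 : Fin 4)).prod (EuclideanSpace.proj (𝕜 := ℝ) (1 : Fin 4))) := h1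
  rw [h2]
  rfl

theorem fderiv_split (φ : ℝ × ℝ → ℝ) (x : ℝ × ℝ) (a b : ℝ) :
    fderiv ℝ φ x (a, b) = a * fderiv ℝ φ x (1, 0) + b * fderiv ℝ φ x (0, 1) := by
  have e : ((a, b) : ℝ × ℝ) = a • (1, 0) + b • (0, 1) := by
    simp
  rw [e, map_add, map_smul, map_smul]
  rfl

/-- two functions as one function to the plane -/
theorem hasFDerivAt_pair {g₁ g₂ : E4 → ℝ} {q : E4} {g₁' g₂' : E4 →L[ℝ] ℝ} (h₁ : HasFDerivAt g₁ g₁' q)
    (h₂ : HasFDerivAt g₂ g₂' q) (v : E4) :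
    fderiv ℝ (fun q => (!₂[g₁ q, g₂ q] : E2)) q v = !₂[g₁' v, g₂' v] := by
  have hd : DifferentiableAt ℝ (fun q => (!₂[g₁ q, g₂ q] : E2)) q := by
    rw [differentiableAt_euclidean]
    intro i
    fin_cases i
    · exact h₁.differentiableAt
    · exact h₂.differentiableAt
  have hl : HasDerivAt (fun t : ℝ => q + t • v) v 0 := by
    have := ((hasDerivAt_id (0 : ℝ)).smul_const v).const_add q
    simpa using this
  ext i
  fin_cases i
  · apply fderiv_coord hd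
    have h : HasFDerivAt g₁ g₁' (q + (0 : ℝ) • v) := by simpa using h₁
    exact h.comp_hasDerivAt 0 hl
  · apply fderiv_coord hd
    have h : HasFDerivAt g₂ g₂' (q + (0 : ℝ) • v) := by simpa using h₂
    exact h.comp_hasDerivAt 0 hl

theorem contDiffOn_pair {g₁ g₂ : E4 → ℝ} {U : Set E4} (h₁ : ContDiffOn ℝ ∞ g₁ U) (h₂ : ContDiffOn ℝ ∞ g₂ U) :
    ContDiffOn ℝ ∞ (fun q => (!₂[g₁ q, g₂ q] : E2)) U := by
  rw [contDiffOn_euclidean]
  intro i
  fin_cases i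
  · exact h₁
  · exact h₂

theorem pair_eq_zero {a b : ℝ} : (!₂[a, b] : E2) = 0 ↔ a = 0 ∧ b = 0 := by
  constructor
  · intro h
    exact ⟨congrArg (fun x : E2 => x 0) h, congrArg (fun x : E2 => x 1) h⟩
  · rintro ⟨rfl, rfl⟩
    ext i
    fin_cases i <;> rfl

/-- partial derivatives are smooth -/
theorem contDiffOn_partial {φ : ℝ × ℝ → ℝ} {O : Set (ℝ × ℝ)} (hO : IsOpen O) (h : ContDiffOn ℝ ∞ φ O) (e : ℝ × ℝ) :
    ContDiffOn ℝ ∞ (fun x => fderiv ℝ φ x e) O := by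
  have h1 : ContDiffOn ℝ ∞ (fderiv ℝ φ) O := h.fderiv_of_isOpen hO (by simp)
  exact h1.clm_apply contDiffOn_const

/-- a graph over the `(s, X)`-plane -/
theorem locM_graph {M : Set E4} {F : E4 → ℝ} {m : E4} {W : Set E4} {O : Set (ℝ × ℝ)} {Φ : ℝ × ℝ → ℝ} (hW : IsOpen W)
    (hm : m ∈ W) (hO : IsOpen O) (hmO : (m 0, m 1) ∈ O) (hΦ : ContDiffOn ℝ ∞ Φ O)
    (hM : ∀ q ∈ W, (q 0, q 1) ∈ O →
      (q ∈ M ↔ q 2 = fderiv ℝ Φ (q 0, q 1) (0, 1) ∧ q 3 = fderiv ℝ Φ (q 0, q 1) (1, 0)))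
    (hF : ∀ q ∈ M ∩ W, (q 0, q 1) ∈ O → F q = Φ (q 0, q 1)) : LocM M F m := by
  set U : Set E4 := W ∩ pSX ⁻¹' O with hU
  have hUo : IsOpen U := hW.inter (hO.preimage pSX_contDiff.continuous)
  have hX := contDiffOn_partial hO hΦ (0, 1)
  have hS := contDiffOn_partial hO hΦ (1, 0)
  have hcoord : ∀ i : Fin 4, ContDiff ℝ ∞ fun q : E4 => q i := fun i => (EuclideanSpace.proj (𝕜 := ℝ) i).contDiff
  have hcd : ∀ (i : Fin 4) (q : E4), HasFDerivAt (fun q : E4 => q i) (EuclideanSpace.proj (𝕜 := ℝ) i) q :=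
    fun i q => (EuclideanSpace.proj (𝕜 := ℝ) i).hasFDerivAt
  have hmap : Set.MapsTo pSX U O := fun q hq => hq.2
  set g₁ : E4 → ℝ := fun q => q 2 - fderiv ℝ Φ (pSX q) (0, 1) with hg₁
  set g₂ : E4 → ℝ := fun q => q 3 - fderiv ℝ Φ (pSX q) (1, 0) with hg₂
  have c1 : ContDiffOn ℝ ∞ g₁ U := (hcoord 2).contDiffOn.sub (hX.comp pSX_contDiff.contDiffOn hmap)
  have c2 : ContDiffOn ℝ ∞ g₂ U := (hcoord 3).contDiffOn.sub (hS.comp pSX_contDiff.contDiffOn hmap)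
  refine ⟨U, fun q => !₂[g₁ q, g₂ q], fun q => Φ (pSX q), hUo, ⟨hm, hmO⟩, contDiffOn_pair c1 c2,
    hΦ.comp pSX_contDiff.contDiffOn hmap, ?_, ?_⟩
  · ext q
    constructor
    · rintro ⟨h1, h2⟩
      refine ⟨h2, ?_⟩
      obtain ⟨h3, h4⟩ := (hM q h2.1 h2.2).1 h1
      rw [pair_eq_zero]
      exact ⟨sub_eq_zero.2 h3, sub_eq_zero.2 h4⟩
    · rintro ⟨h1, h2⟩
      rw [pair_eq_zero] at h2
      exact ⟨(hM q h1.1 h1.2).2 ⟨sub_eq_zero.1 h2.1, sub_eq_zero.1 h2.2⟩, h1⟩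
  · rintro q ⟨h1, h2⟩
    obtain ⟨h3, h4⟩ := (hM q h2.1 h2.2).1 h1
    have hqO : pSX q ∈ O := h2.2
    have dX : DifferentiableAt ℝ (fun x => fderiv ℝ Φ x (0, 1)) (pSX q) :=
      (hX.contDiffAt (hO.mem_nhds hqO)).differentiableAt (by simp)
    have dS : DifferentiableAt ℝ (fun x => fderiv ℝ Φ x (1, 0)) (pSX q) :=
      (hS.contDiffAt (hO.mem_nhds hqO)).differentiableAt (by simp)
    have dΦ : DifferentiableAt ℝ Φ (pSX q) := (hΦ.contDiffAt (hO.mem_nhds hqO)).differentiableAt (by simp)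
    set P := (EuclideanSpace.proj (𝕜 := ℝ) (0 : Fin 4)).prod (EuclideanSpace.proj (𝕜 := ℝ) (1 : Fin 4)) with hP
    have e1 : HasFDerivAt g₁ (EuclideanSpace.proj (𝕜 := ℝ) (2 : Fin 4) -
        (fderiv ℝ (fun x => fderiv ℝ Φ x (0, 1)) (pSX q)).comp P) q :=
      (hcd 2 q).sub (dX.hasFDerivAt.comp q (pSX_hasFDerivAt q))
    have e2 : HasFDerivAt g₂ (EuclideanSpace.proj (𝕜 := ℝ) (3 : Fin 4) -
        (fderiv ℝ (fun x => fderiv ℝ Φ x (1, 0)) (pSX q)).comp P) q :=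
      (hcd 3 q).sub (dS.hasFDerivAt.comp q (pSX_hasFDerivAt q))
    refine ⟨hF q ⟨h1, h2.1⟩ h2.2, ?_, ?_⟩
    · intro y
      refine ⟨!₂[0, 0, y 0, y 1], ?_⟩
      rw [hasFDerivAt_pair e1 e2]
      ext i
      fin_cases i
      · change y 0 - fderiv ℝ (fun x => fderiv ℝ Φ x (0, 1)) (pSX q) (0, 0) = y 0
        have : ((0, 0) : ℝ × ℝ) = 0 := rfl
        rw [this, map_zero, sub_zero]
      · change y 1 - fderiv ℝ (fun x => fderiv ℝ Φ x (1, 0)) (pSX q) (0, 0) = y 1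
        have : ((0, 0) : ℝ × ℝ) = 0 := rfl
        rw [this, map_zero, sub_zero]
    · intro v _
      rw [fderiv_comp_pSX dΦ, fderiv_split]
      have h3' : q 2 = fderiv ℝ Φ (pSX q) (0, 1) := h3
      have h4' : q 3 = fderiv ℝ Φ (pSX q) (1, 0) := h4
      rw [h3', h4']
      ring

/-- derivative of a function which is affine in `Y`, `τ` -/
theorem affine_hasFDerivAt {P R S : ℝ × ℝ → ℝ} {q : E4} (hP : DifferentiableAt ℝ P (pSX q))
    (hR : DifferentiableAt ℝ R (pSX q)) (hS : DifferentiableAt ℝ S (pSX q)) :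
    ∃ L : E4 →L[ℝ] ℝ, HasFDerivAt (fun q : E4 => q 2 * P (pSX q) + q 3 * R (pSX q) + S (pSX q)) L q ∧
      ∀ v : E4, L v = v 2 * P (pSX q) + v 3 * R (pSX q) +
        (q 2 * fderiv ℝ P (pSX q) (v 0, v 1) + q 3 * fderiv ℝ R (pSX q) (v 0, v 1) +
          fderiv ℝ S (pSX q) (v 0, v 1)) := by
  have hcd : ∀ (i : Fin 4) (q : E4), HasFDerivAt (fun q : E4 => q i) (EuclideanSpace.proj (𝕜 := ℝ) i) q :=
    fun i q => (EuclideanSpace.proj (𝕜 := ℝ) i).hasFDerivAt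
  have h1 := (hcd 2 q).mul (hP.hasFDerivAt.comp q (pSX_hasFDerivAt q))
  have h2 := (hcd 3 q).mul (hR.hasFDerivAt.comp q (pSX_hasFDerivAt q))
  have h3 := hS.hasFDerivAt.comp q (pSX_hasFDerivAt q)
  refine ⟨_, (h1.add h2).add h3, fun v => ?_⟩
  change q 2 * fderiv ℝ P (pSX q) (v 0, v 1) + P (pSX q) * v 2 +
    (q 3 * fderiv ℝ R (pSX q) (v 0, v 1) + R (pSX q) * v 3) + fderiv ℝ S (pSX q) (v 0, v 1) = _
  ring

theorem affine_contDiffOn {P R S : ℝ × ℝ → ℝ} {O : Set (ℝ × ℝ)} {U : Set E4} (hmap : Set.MapsTo pSX U O)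
    (hP : ContDiffOn ℝ ∞ P O) (hR : ContDiffOn ℝ ∞ R O) (hS : ContDiffOn ℝ ∞ S O) :
    ContDiffOn ℝ ∞ (fun q : E4 => q 2 * P (pSX q) + q 3 * R (pSX q) + S (pSX q)) U := by
  have hcoord : ∀ i : Fin 4, ContDiff ℝ ∞ fun q : E4 => q i := fun i => (EuclideanSpace.proj (𝕜 := ℝ) i).contDiff
  exact (((hcoord 2).contDiffOn.mul (hP.comp pSX_contDiff.contDiffOn hmap)).add
    ((hcoord 3).contDiffOn.mul (hR.comp pSX_contDiff.contDiffOn hmap))).add
    (hS.comp pSX_contDiff.contDiffOn hmap)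

/-- two sheets which meet in a fold -/
theorem locM_fold {M : Set E4} {F : E4 → ℝ} {m : E4} {W : Set E4} {O : Set (ℝ × ℝ)} {A E : ℝ × ℝ → ℝ} (hW : IsOpen W)
    (hm : m ∈ W) (hO : IsOpen O) (hmO : (m 0, m 1) ∈ O) (hA : ContDiffOn ℝ ∞ A O) (hE : ContDiffOn ℝ ∞ E O)
    (hE1 : ∀ x ∈ O, fderiv ℝ E x (1, 0) ≠ 0 ∨ fderiv ℝ E x (0, 1) ≠ 0)
    (hM : ∀ q ∈ W, (q 0, q 1) ∈ O → (q ∈ M ↔ ∃ w : ℝ, w ^ 2 = E (q 0, q 1) ∧
      q 2 = fderiv ℝ A (q 0, q 1) (0, 1) + 3 / 4 * w * fderiv ℝ E (q 0, q 1) (0, 1) ∧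
      q 3 = fderiv ℝ A (q 0, q 1) (1, 0) + 3 / 4 * w * fderiv ℝ E (q 0, q 1) (1, 0)))
    (hF : ∀ q ∈ M ∩ W, (q 0, q 1) ∈ O → ∀ w : ℝ, w ^ 2 = E (q 0, q 1) →
      q 2 = fderiv ℝ A (q 0, q 1) (0, 1) + 3 / 4 * w * fderiv ℝ E (q 0, q 1) (0, 1) →
      q 3 = fderiv ℝ A (q 0, q 1) (1, 0) + 3 / 4 * w * fderiv ℝ E (q 0, q 1) (1, 0) →
      F q = A (q 0, q 1) + w ^ 3 / 2) : LocM M F m := by
  set U : Set E4 := W ∩ pSX ⁻¹' O with hU
  have hUo : IsOpen U := hW.inter (hO.preimage pSX_contDiff.continuous)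
  have hmap : Set.MapsTo pSX U O := fun q hq => hq.2
  set AX : ℝ × ℝ → ℝ := fun x => fderiv ℝ A x (0, 1) with hAX
  set AS : ℝ × ℝ → ℝ := fun x => fderiv ℝ A x (1, 0) with hAS
  set EX : ℝ × ℝ → ℝ := fun x => fderiv ℝ E x (0, 1) with hEX
  set ES : ℝ × ℝ → ℝ := fun x => fderiv ℝ E x (1, 0) with hES
  have cAX : ContDiffOn ℝ ∞ AX O := contDiffOn_partial hO hA (0, 1)
  have cAS : ContDiffOn ℝ ∞ AS O := contDiffOn_partial hO hA (1, 0)
  have cEX : ContDiffOn ℝ ∞ EX O := contDiffOn_partial hO hE (0, 1)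
  have cES : ContDiffOn ℝ ∞ ES O := contDiffOn_partial hO hE (1, 0)
  set N : ℝ × ℝ → ℝ := fun x => EX x ^ 2 + ES x ^ 2 with hN
  have cN : ContDiffOn ℝ ∞ N O := (cEX.pow 2).add (cES.pow 2)
  have hNpos : ∀ x ∈ O, 0 < N x := by
    intro x hx
    rcases hE1 x hx with h | h
    · have : 0 < ES x ^ 2 := by positivity
      have h2 : 0 ≤ EX x ^ 2 := sq_nonneg _
      change 0 < EX x ^ 2 + ES x ^ 2
      linarith
    · have : 0 < EX x ^ 2 := by positivity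
      have h2 : 0 ≤ ES x ^ 2 := sq_nonneg _
      change 0 < EX x ^ 2 + ES x ^ 2
      linarith
  set p : ℝ × ℝ → ℝ := fun x => 4 / 3 * EX x / N x with hp
  set r : ℝ × ℝ → ℝ := fun x => 4 / 3 * ES x / N x with hr
  have cp : ContDiffOn ℝ ∞ p O := (contDiffOn_const.mul cEX).div cN fun x hx => (hNpos x hx).ne'
  have cr : ContDiffOn ℝ ∞ r O := (contDiffOn_const.mul cES).div cN fun x hx => (hNpos x hx).ne'
  set c : ℝ × ℝ → ℝ := fun x => -(AX x * p x + AS x * r x) with hc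
  have cc : ContDiffOn ℝ ∞ c O := ((cAX.mul cp).add (cAS.mul cr)).neg
  set c₁ : ℝ × ℝ → ℝ := fun x => -(AX x * ES x - AS x * EX x) with hc₁
  have cc₁ : ContDiffOn ℝ ∞ c₁ O := ((cAX.mul cES).sub (cAS.mul cEX)).neg
  set wt : E4 → ℝ := fun q => q 2 * p (pSX q) + q 3 * r (pSX q) + c (pSX q) with hwt
  set g₁ : E4 → ℝ := fun q => q 2 * ES (pSX q) + q 3 * (fun x => -EX x) (pSX q) + c₁ (pSX q) with hg₁
  set g₂ : E4 → ℝ := fun q => wt q ^ 2 - E (pSX q) with hg₂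
  have cwt : ContDiffOn ℝ ∞ wt U := affine_contDiffOn hmap cp cr cc
  have cg₁ : ContDiffOn ℝ ∞ g₁ U := affine_contDiffOn hmap cES cEX.neg cc₁
  have cE' : ContDiffOn ℝ ∞ (fun q => E (pSX q)) U := hE.comp pSX_contDiff.contDiffOn hmap
  have cA' : ContDiffOn ℝ ∞ (fun q => A (pSX q)) U := hA.comp pSX_contDiff.contDiffOn hmap
  have cg₂ : ContDiffOn ℝ ∞ g₂ U := (cwt.pow 2).sub cE'
  have ch : ContDiffOn ℝ ∞ (fun q => A (pSX q) + wt q ^ 3 * (1 / 2)) U := cA'.add ((cwt.pow 3).mul contDiffOn_const)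
  -- the set
  have hset : ∀ q ∈ U, (q ∈ M ↔ g₁ q = 0 ∧ g₂ q = 0) ∧ (g₁ q = 0 →
      q 2 = AX (pSX q) + 3 / 4 * wt q * EX (pSX q) ∧ q 3 = AS (pSX q) + 3 / 4 * wt q * ES (pSX q)) := by
    intro q hq
    have hqO : pSX q ∈ O := hq.2
    have hN0 : N (pSX q) ≠ 0 := (hNpos _ hqO).ne'
    have hback : g₁ q = 0 →
        q 2 = AX (pSX q) + 3 / 4 * wt q * EX (pSX q) ∧ q 3 = AS (pSX q) + 3 / 4 * wt q * ES (pSX q) := by
      intro h1
      have h1' : q 2 * ES (pSX q) + q 3 * -EX (pSX q) + -(AX (pSX q) * ES (pSX q) - AS (pSX q) * EX (pSX q)) = 0 := h1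
      have e0 : wt q = q 2 * (4 / 3 * EX (pSX q) / N (pSX q)) + q 3 * (4 / 3 * ES (pSX q) / N (pSX q)) +
          -(AX (pSX q) * (4 / 3 * EX (pSX q) / N (pSX q)) + AS (pSX q) * (4 / 3 * ES (pSX q) / N (pSX q))) := rfl
      have e1 : wt q = 4 / 3 * ((q 2 - AX (pSX q)) * EX (pSX q) + (q 3 - AS (pSX q)) * ES (pSX q)) / N (pSX q) := by
        rw [e0]
        field_simp
        ring
      have e2 : N (pSX q) = EX (pSX q) ^ 2 + ES (pSX q) ^ 2 := rfl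
      constructor
      · rw [e1]
        have : (q 2 - AX (pSX q)) * N (pSX q) =
            ((q 2 - AX (pSX q)) * EX (pSX q) + (q 3 - AS (pSX q)) * ES (pSX q)) * EX (pSX q) := by
          rw [e2]
          linear_combination (ES (pSX q)) * h1'
        have h3 : q 2 - AX (pSX q) =
            ((q 2 - AX (pSX q)) * EX (pSX q) + (q 3 - AS (pSX q)) * ES (pSX q)) * EX (pSX q) / N (pSX q) := by
          rw [eq_div_iff hN0]
          exact this
        linear_combination h3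
      · rw [e1]
        have : (q 3 - AS (pSX q)) * N (pSX q) =
            ((q 2 - AX (pSX q)) * EX (pSX q) + (q 3 - AS (pSX q)) * ES (pSX q)) * ES (pSX q) := by
          rw [e2]
          linear_combination (-EX (pSX q)) * h1'
        have h3 : q 3 - AS (pSX q) =
            ((q 2 - AX (pSX q)) * EX (pSX q) + (q 3 - AS (pSX q)) * ES (pSX q)) * ES (pSX q) / N (pSX q) := by
          rw [eq_div_iff hN0]
          exact this
        linear_combination h3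
    refine ⟨?_, hback⟩
    rw [hM q hq.1 hq.2]
    constructor
    · rintro ⟨w, h1, h2, h3⟩
      have h2' : q 2 = AX (pSX q) + 3 / 4 * w * EX (pSX q) := h2
      have h3' : q 3 = AS (pSX q) + 3 / 4 * w * ES (pSX q) := h3
      have e0 : wt q = q 2 * (4 / 3 * EX (pSX q) / N (pSX q)) + q 3 * (4 / 3 * ES (pSX q) / N (pSX q)) +
          -(AX (pSX q) * (4 / 3 * EX (pSX q) / N (pSX q)) + AS (pSX q) * (4 / 3 * ES (pSX q) / N (pSX q))) := rfl
      have e1 : wt q = w := by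
        rw [e0, h2', h3']
        have e2 : N (pSX q) = EX (pSX q) ^ 2 + ES (pSX q) ^ 2 := rfl
        field_simp
        rw [e2]
        ring
      constructor
      · change q 2 * ES (pSX q) + q 3 * -EX (pSX q) + -(AX (pSX q) * ES (pSX q) - AS (pSX q) * EX (pSX q)) = 0
        rw [h2', h3']
        ring
      · change wt q ^ 2 - E (pSX q) = 0
        rw [e1, h1]
        exact sub_self _
    · rintro ⟨h1, h2⟩
      obtain ⟨h3, h4⟩ := hback h1
      exact ⟨wt q, sub_eq_zero.1 h2, h3, h4⟩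
  refine ⟨U, fun q => !₂[g₁ q, g₂ q], fun q => A (pSX q) + wt q ^ 3 * (1 / 2), hUo, ⟨hm, hmO⟩, contDiffOn_pair cg₁ cg₂, ch,
    ?_, ?_⟩
  · ext q
    constructor
    · rintro ⟨h1, h2⟩
      refine ⟨h2, ?_⟩
      rw [pair_eq_zero]
      exact (hset q h2).1.1 h1
    · rintro ⟨h1, h2⟩
      rw [pair_eq_zero] at h2
      exact ⟨(hset q h1).1.2 h2, h1⟩
  · rintro q ⟨h1, h2⟩
    obtain ⟨hs1, hs2⟩ := hset q h2
    obtain ⟨hz1, hz2⟩ := hs1.1 h1
    obtain ⟨hq2, hq3⟩ := hs2 hz1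
    have hw2 : wt q ^ 2 = E (pSX q) := sub_eq_zero.1 hz2
    have hqO : pSX q ∈ O := h2.2
    have hN0 : N (pSX q) ≠ 0 := (hNpos _ hqO).ne'
    have hda : ∀ {φ : ℝ × ℝ → ℝ}, ContDiffOn ℝ ∞ φ O → DifferentiableAt ℝ φ (pSX q) := fun h =>
      (h.contDiffAt (hO.mem_nhds hqO)).differentiableAt (by simp)
    obtain ⟨L₁, hL₁, hL₁v⟩ := affine_hasFDerivAt (q := q) (hda cES) (hda cEX.neg) (hda cc₁)
    obtain ⟨Lw, hLw, hLwv⟩ := affine_hasFDerivAt (q := q) (hda cp) (hda cr) (hda cc)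
    have hLw' : HasFDerivAt wt Lw q := hLw
    have hLE : HasFDerivAt (fun q => E (pSX q)) ((fderiv ℝ E (pSX q)).comp
        ((EuclideanSpace.proj (𝕜 := ℝ) (0 : Fin 4)).prod (EuclideanSpace.proj (𝕜 := ℝ) (1 : Fin 4)))) q :=
      (hda hE).hasFDerivAt.comp q (pSX_hasFDerivAt q)
    have hLA : HasFDerivAt (fun q => A (pSX q)) ((fderiv ℝ A (pSX q)).comp
        ((EuclideanSpace.proj (𝕜 := ℝ) (0 : Fin 4)).prod (EuclideanSpace.proj (𝕜 := ℝ) (1 : Fin 4)))) q :=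
      (hda hA).hasFDerivAt.comp q (pSX_hasFDerivAt q)
    have hL₂ := (hLw'.pow 2).sub hLE
    have hLh := hLA.add ((hLw'.pow 3).mul_const (1 / 2))
    have hG : ∀ v, fderiv ℝ (fun q => (!₂[g₁ q, g₂ q] : E2)) q v =
        !₂[L₁ v, 2 * wt q * Lw v - fderiv ℝ E (pSX q) (v 0, v 1)] := by
      intro v
      refine (hasFDerivAt_pair (g₁ := g₁) (g₂ := g₂) hL₁ hL₂ v).trans ?_
      ext i
      fin_cases i
      · rfl
      · change ((2 : ℕ) • wt q ^ (2 - 1)) • Lw v - fderiv ℝ E (pSX q) (v 0, v 1) =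
          2 * wt q * Lw v - fderiv ℝ E (pSX q) (v 0, v 1)
        simp
    refine ⟨(hF q ⟨h1, h2.1⟩ h2.2 (wt q) hw2 hq2 hq3).trans
      (show A (pSX q) + wt q ^ 3 / 2 = A (pSX q) + wt q ^ 3 * (1 / 2) by ring), ?_, ?_⟩
    · intro y
      set t : ℝ := -y 1 / N (pSX q) with ht
      -- the parts which come from `v 0`, `v 1`
      set k₁ : ℝ := q 2 * fderiv ℝ ES (pSX q) (t * ES (pSX q), t * EX (pSX q)) +
        q 3 * fderiv ℝ (fun x => -EX x) (pSX q) (t * ES (pSX q), t * EX (pSX q)) +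
          fderiv ℝ c₁ (pSX q) (t * ES (pSX q), t * EX (pSX q)) with hk₁
      set k₂ : ℝ := q 2 * fderiv ℝ p (pSX q) (t * ES (pSX q), t * EX (pSX q)) +
        q 3 * fderiv ℝ r (pSX q) (t * ES (pSX q), t * EX (pSX q)) +
          fderiv ℝ c (pSX q) (t * ES (pSX q), t * EX (pSX q)) with hk₂
      set α : ℝ := (y 0 - k₁) / N (pSX q) with hα
      set β : ℝ := -(3 / 4 * k₂) with hβ
      refine ⟨!₂[t * ES (pSX q), t * EX (pSX q), α * ES (pSX q) + β * EX (pSX q), -(α * EX (pSX q)) + β * ES (pSX q)], ?_⟩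
      rw [hG]
      have e2 : N (pSX q) = EX (pSX q) ^ 2 + ES (pSX q) ^ 2 := rfl
      have hk : Lw !₂[t * ES (pSX q), t * EX (pSX q), α * ES (pSX q) + β * EX (pSX q),
          -(α * EX (pSX q)) + β * ES (pSX q)] = 0 := by
        rw [hLwv]
        change (α * ES (pSX q) + β * EX (pSX q)) * (4 / 3 * EX (pSX q) / N (pSX q)) +
          (-(α * EX (pSX q)) + β * ES (pSX q)) * (4 / 3 * ES (pSX q) / N (pSX q)) + k₂ = 0
        have : (α * ES (pSX q) + β * EX (pSX q)) * (4 / 3 * EX (pSX q) / N (pSX q)) +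
          (-(α * EX (pSX q)) + β * ES (pSX q)) * (4 / 3 * ES (pSX q) / N (pSX q)) = 4 / 3 * β := by
          field_simp
          rw [e2]
          ring
        rw [this, hβ]
        ring
      ext i
      fin_cases i
      · change L₁ _ = y 0
        rw [hL₁v]
        change (α * ES (pSX q) + β * EX (pSX q)) * ES (pSX q) + (-(α * EX (pSX q)) + β * ES (pSX q)) * -EX (pSX q) + k₁
          = y 0
        have : (α * ES (pSX q) + β * EX (pSX q)) * ES (pSX q) + (-(α * EX (pSX q)) + β * ES (pSX q)) * -EX (pSX q)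
            = α * N (pSX q) := by
          rw [e2]
          ring
        rw [this, hα, div_mul_cancel₀ _ hN0]
        ring
      · change 2 * wt q * Lw _ - fderiv ℝ E (pSX q) (t * ES (pSX q), t * EX (pSX q)) = y 1
        rw [hk, fderiv_split]
        change 2 * wt q * 0 - (t * ES (pSX q) * ES (pSX q) + t * EX (pSX q) * EX (pSX q)) = y 1
        have : t * ES (pSX q) * ES (pSX q) + t * EX (pSX q) * EX (pSX q) = t * N (pSX q) := by
          rw [e2]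
          ring
        rw [this, ht, div_mul_cancel₀ _ hN0]
        ring
    · intro v hv
      rw [hG, pair_eq_zero] at hv
      have h3 : 2 * wt q * Lw v = fderiv ℝ E (pSX q) (v 0, v 1) := sub_eq_zero.1 hv.2
      have h4 : fderiv ℝ (fun q => A (pSX q) + wt q ^ 3 * (1 / 2)) q v =
          fderiv ℝ A (pSX q) (v 0, v 1) + 3 / 2 * wt q ^ 2 * Lw v := by
        have h5 := congrArg (fun T : E4 →L[ℝ] ℝ => T v) hLh.fderiv
        refine Eq.trans h5 ?_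
        change fderiv ℝ A (pSX q) (v 0, v 1) + (1 / 2 : ℝ) • (((3 : ℕ) • wt q ^ (3 - 1)) • Lw v) = _
        simp only [smul_eq_mul, nsmul_eq_mul]
        norm_num
        ring
      rw [h4]
      have h6 : 3 / 2 * wt q ^ 2 * Lw v = 3 / 4 * wt q * (2 * wt q * Lw v) := by ring
      rw [h6, h3, fderiv_split A, fderiv_split E]
      rw [hq2, hq3]
      change v 0 * AS (pSX q) + v 1 * AX (pSX q) + 3 / 4 * wt q * (v 0 * ES (pSX q) + v 1 * EX (pSX q)) = _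
      ring

/-- from `(s, X, Y, τ)` to `(s, Y, X, -τ)` -/
def swM (q : E4) : E4 := !₂[q 0, q 2, q 1, -q 3]

theorem swM_swM (q : E4) : swM (swM q) = q := by
  ext i
  fin_cases i
  · rfl
  · rfl
  · rfl
  · change - -q 3 = q 3
    ring

theorem swM_contDiff : ContDiff ℝ ∞ swM := by
  have hc : ∀ i : Fin 4, ContDiff ℝ ∞ fun p : E4 => p i := fun i => (EuclideanSpace.proj (𝕜 := ℝ) i).contDiff
  rw [contDiff_euclidean]
  intro i
  fin_cases i
  · exact hc 0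
  · exact hc 2
  · exact hc 1
  · exact (hc 3).neg

theorem fderiv_swM (q v : E4) : fderiv ℝ swM q v = swM v := by
  have hd : DifferentiableAt ℝ swM q := (swM_contDiff.differentiable (by simp)).differentiableAt
  have hl : HasDerivAt (fun t : ℝ => q + t • v) v 0 := by
    have := ((hasDerivAt_id (0 : ℝ)).smul_const v).const_add q
    simpa using this
  ext i
  fin_cases i
  · exact fderiv_coord hd v 0 (hasDerivAt_coord hl 0)
  · exact fderiv_coord hd v 1 (hasDerivAt_coord hl 2)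
  · exact fderiv_coord hd v 2 (hasDerivAt_coord hl 1)
  · exact fderiv_coord hd v 3 (hasDerivAt_coord hl 3).neg

/-- exchange of `X` and `Y` -/
theorem locM_swap {M : Set E4} {F : E4 → ℝ} {m : E4} (h : LocM (swM ⁻¹' M) (fun q => q 1 * q 2 - F (swM q)) (swM m)) :
    LocM M F m := by
  obtain ⟨U, G, h, hU, hmU, hG, hh, hMU, hd⟩ := h
  have hc := swM_contDiff.continuous
  have hmap : Set.MapsTo swM (swM ⁻¹' U) U := fun q hq => hq
  have hcoord : ∀ i : Fin 4, ContDiff ℝ ∞ fun q : E4 => q i := fun i => (EuclideanSpace.proj (𝕜 := ℝ) i).contDiff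
  have hcd : ∀ (i : Fin 4) (q : E4), HasFDerivAt (fun q : E4 => q i) (EuclideanSpace.proj (𝕜 := ℝ) i) q :=
    fun i q => (EuclideanSpace.proj (𝕜 := ℝ) i).hasFDerivAt
  have hsd : ∀ q, DifferentiableAt ℝ swM q := fun q => (swM_contDiff.differentiable (by simp)).differentiableAt
  refine ⟨swM ⁻¹' U, fun q => G (swM q), fun q => q 1 * q 2 - h (swM q), hU.preimage hc, hmU,
    hG.comp swM_contDiff.contDiffOn hmap,
    ((hcoord 1).mul (hcoord 2)).contDiffOn.sub (hh.comp swM_contDiff.contDiffOn hmap), ?_, ?_⟩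
  · ext q
    constructor
    · rintro ⟨h1, h2⟩
      refine ⟨h2, ?_⟩
      have h3 : swM q ∈ swM ⁻¹' M ∩ U := ⟨by
        change swM (swM q) ∈ M
        rw [swM_swM]
        exact h1, h2⟩
      rw [hMU] at h3
      exact h3.2
    · rintro ⟨h1, h2⟩
      have h3 : swM q ∈ {q ∈ U | G q = 0} := ⟨h1, h2⟩
      rw [← hMU] at h3
      have h4 : swM (swM q) ∈ M := h3.1
      rw [swM_swM] at h4
      exact ⟨h4, h1⟩
  · rintro q ⟨h1, h2⟩
    have h3 : swM q ∈ swM ⁻¹' M ∩ U := ⟨by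
      change swM (swM q) ∈ M
      rw [swM_swM]
      exact h1, h2⟩
    obtain ⟨h4, h5, h6⟩ := hd _ h3
    have hGd : DifferentiableAt ℝ G (swM q) := (hG.contDiffAt (hU.mem_nhds h2)).differentiableAt (by simp)
    have hhd : DifferentiableAt ℝ h (swM q) := (hh.contDiffAt (hU.mem_nhds h2)).differentiableAt (by simp)
    have hGf : ∀ v, fderiv ℝ (fun q => G (swM q)) q v = fderiv ℝ G (swM q) (swM v) := by
      intro v
      have e := (hGd.hasFDerivAt.comp q (hsd q).hasFDerivAt).fderiv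
      have e' : fderiv ℝ (fun q => G (swM q)) q = (fderiv ℝ G (swM q)).comp (fderiv ℝ swM q) := e
      rw [e']
      change fderiv ℝ G (swM q) (fderiv ℝ swM q v) = _
      rw [fderiv_swM]
    refine ⟨?_, ?_, ?_⟩
    · have h7 : swM q 1 * swM q 2 - F (swM (swM q)) = h (swM q) := h4
      rw [swM_swM] at h7
      have h8 : q 2 * q 1 - F q = h (swM q) := h7
      linarith
    · intro y
      obtain ⟨a, ha⟩ := h5 y
      refine ⟨swM a, ?_⟩
      rw [hGf, swM_swM, ha]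
    · intro v hv
      rw [hGf] at hv
      have h7 := h6 _ hv
      have e := ((((hcd 1 q).mul (hcd 2 q))).sub (hhd.hasFDerivAt.comp q (hsd q).hasFDerivAt)).fderiv
      have e' : fderiv ℝ (fun q => q 1 * q 2 - h (swM q)) q v =
          (q 1 * v 2 + q 2 * v 1) - fderiv ℝ h (swM q) (fderiv ℝ swM q v) :=
        congrArg (fun T : E4 →L[ℝ] ℝ => T v) e
      rw [e', fderiv_swM, h7]
      change q 1 * v 2 + q 2 * v 1 - (q 1 * v 2 + -q 3 * v 0) = q 2 * v 1 + q 3 * v 0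
      ring

end Pool.Agent.Lib_MP_59ec1f_cap
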