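import Pool.Agent.Lib_MP_59ec1f_cap.TabEnds
import Pool.Agent.Lib_MP_59ec1f_cap.LocChart

/-!
# The lower part of the surface: the maps of the four strips for `0 < s < M + 3/4`

In the window `w s` the strip is the chain `T.win (w s) i j`, except near the saddle vertex in the window of a saddle, where
it is given by the maps `EA`, `EB` (the template of the saddle). Near every point the strip is one smooth cell or one of
the maps `EA`, `EB`.
-/

set_option autoImplicit false

open scoped ContDiff Topology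

namespace Pool.Agent.Lib_MP_59ec1f_cap

/-- point and primitive of a cell -/
noncomputable def Cell.pp (μ : Moll) (C : Cell) (p : ℝ × ℝ) : P4 × ℝ := (C.pt μ p, C.prim μ p)

/-- point and primitive of a chain -/
noncomputable def CellChain.pp (μ : Moll) (C : CellChain) (p : ℝ × ℝ) : P4 × ℝ := (C.pt μ p, C.prim μ p)

theorem CellChain.overlap_pp {μ : Moll} {C : CellChain} {n : ℤ} {v s : ℝ} (h1 : μ.ep ≤ v) (h2 : v ≤ 1 - μ.ep)
    (hR : ∀ᶠ t in 𝓝 s, C.Rel μ (n + 1) t) : (C.cell n).pp μ (v, s) = (C.cell (n + 1)).pp μ (v - 1, s) :=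
  Prod.ext (overlap h1 h2 hR).1 (overlap h1 h2 hR).2

theorem CellChain.pp_eq {μ : Moll} {C : CellChain} {n : ℤ} {θ s : ℝ} (h : |θ - n| ≤ 1 - μ.ep)
    (hR₁ : n + μ.ep ≤ θ → ∀ᶠ t in 𝓝 s, C.Rel μ (n + 1) t) (hR₀ : θ ≤ n - μ.ep → ∀ᶠ t in 𝓝 s, C.Rel μ n t) :
    C.pp μ (θ, s) = (C.cell n).pp μ (θ - n, s) :=
  Prod.ext (pt_eq h hR₁ hR₀).1 (pt_eq h hR₁ hR₀).2

/-- on the left of the midpoint only the relation at `n` is needed -/
theorem CellChain.pp_eq_left {μ : Moll} {C : CellChain} {n : ℤ} {θ s : ℝ} (h : n - (1 - μ.ep) ≤ θ) (h' : θ < n + 1 / 2)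
    (hR₀ : θ ≤ n - μ.ep → ∀ᶠ t in 𝓝 s, C.Rel μ n t) :
    C.pp μ (θ, s) = (C.cell n).pp μ (θ - n, s) := by
  have hep := μ.ep_lt
  have hep0 := μ.ep_pos
  rcases lt_or_ge θ (n + μ.ep) with h1 | h1
  · exact pp_eq (abs_le.2 ⟨by linarith, by linarith⟩) (fun h2 => absurd h2 (not_le.2 h1)) hR₀
  · have hr : round θ = n := by
      rw [round_eq]
      rw [Int.floor_eq_iff]
      constructor <;> linarith
    have h2 : C.pp μ (θ, s) = (C.cell (round θ)).pp μ (θ - round θ, s) := rfl
    rw [h2, hr]

namespace StripTab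

variable (T : StripTab)

/-- `n` is not the vertex of the saddle in its window -/
def good (i j : Bool) (n m : ℤ) : Prop := ¬(m = T.mA ∧ n = 0) ∧ ¬(m = T.mB ∧ n = T.len i j)

instance (i j : Bool) (n m : ℤ) : Decidable (T.good i j n m) := by
  unfold good
  infer_instance

/-- the window of the time `s` -/
noncomputable def w (s : ℝ) : ℤ := min (round s) T.M

/-- the cell `n` in the window `m` -/
noncomputable def cl (μ : Moll) (m : ℤ) (i j : Bool) (n : ℤ) : Cell := ((T.win m i j).toChain μ).cell n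

/-- first properties of the table -/
structure Ok : Prop where
  len2 : ∀ i j, 2 ≤ T.len i j
  hA : 1 ≤ T.mA
  hAB : T.mA < T.mB
  hBM : T.mB < T.M
  ok : ∀ i j n m, 0 ≤ n → n ≤ T.len i j → 0 ≤ m → m ≤ T.M → T.good i j n m → (T.cel i j n m).ok = true

/-- the map `E` (with primitive) fits to the table at the end `A` -/
structure FitA (μ : Moll) (E : Bool → Bool → ℝ × ℝ → P4 × ℝ) : Prop where
  straight : ∀ (i j : Bool) (ρ s : ℝ), 1 / 4 ≤ ρ → ρ ≤ 1 / 2 → |s - T.mA| < 3 / 4 →
    E i j (ρ, s) = (T.cl μ T.mA i j 1).pp μ (ρ - 1, s)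
  before : ∀ (i j : Bool) (ρ s : ℝ), 0 ≤ ρ → ρ ≤ 1 / 2 → T.mA - 3 / 4 < s → s ≤ T.mA - 1 / 4 →
    E i j (ρ, s) = (((T.ext true false i j).toChain μ).cell 0).pp μ (ρ, s)
  after : ∀ (i j : Bool) (ρ s : ℝ), 0 ≤ ρ → ρ ≤ 1 / 2 → T.mA + 1 / 4 ≤ s → s < T.mA + 3 / 4 →
    E i j (ρ, s) = (((T.ext false false i j).toChain μ).cell 0).pp μ (ρ, s)

/-- the map `E` (with primitive) fits to the table at the end `B` -/
structure FitB (μ : Moll) (E : Bool → Bool → ℝ × ℝ → P4 × ℝ) : Prop where
  straight : ∀ (i j : Bool) (ρ s : ℝ), 1 / 4 ≤ ρ → ρ ≤ 1 / 2 → |s - T.mB| < 3 / 4 →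
    E i j (ρ, s) = (T.cl μ T.mB i j (T.len i j - 1)).pp μ (1 - ρ, s)
  before : ∀ (i j : Bool) (ρ s : ℝ), 0 ≤ ρ → ρ ≤ 1 / 2 → T.mB - 3 / 4 < s → s ≤ T.mB - 1 / 4 →
    E i j (ρ, s) = (((T.ext false false i j).toChain μ).cell (T.len i j)).pp μ (-ρ, s)
  after : ∀ (i j : Bool) (ρ s : ℝ), 0 ≤ ρ → ρ ≤ 1 / 2 → T.mB + 1 / 4 ≤ s → s < T.mB + 3 / 4 →
    E i j (ρ, s) = (((T.ext false true i j).toChain μ).cell (T.len i j)).pp μ (-ρ, s)

/-- the strip `(i, j)`: point and primitive -/
noncomputable def F (μ : Moll) (EA EB : Bool → Bool → ℝ × ℝ → P4 × ℝ) (i j : Bool) (p : ℝ × ℝ) : P4 × ℝ :=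
  open Classical in
  if T.w p.2 = T.mA ∧ p.1 ≤ 1 / 2 then EA i j p
  else if T.w p.2 = T.mB ∧ T.len i j - 1 / 2 ≤ p.1 then EB i j (T.len i j - p.1, p.2)
  else ((T.win (T.w p.2) i j).toChain μ).pp μ p

variable {T}

theorem w_mem {s : ℝ} (hs : 0 < s) (hM : 0 ≤ T.M) (hs' : s < T.M + 3 / 4) :
    0 ≤ T.w s ∧ T.w s ≤ T.M ∧ |s - T.w s| < 3 / 4 := by
  have h1 := abs_le.1 (abs_sub_round_le s)
  have h2 : 0 ≤ round s := by
    have : (-1 : ℝ) < round s := by linarith [h1.2]
    have h3 : (-1 : ℤ) < round s := by exact_mod_cast this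
    omega
  unfold w
  rcases le_total (round s) T.M with h | h
  · rw [min_eq_left h]
    exact ⟨h2, h, lt_of_le_of_lt (abs_sub_round_le s) (by norm_num)⟩
  · rw [min_eq_right h]
    refine ⟨hM, le_refl _, ?_⟩
    have h3 : (T.M : ℝ) ≤ round s := by exact_mod_cast h
    rw [abs_lt]
    constructor <;> linarith [h1.1]

/-- windows of the same time -/
theorem near_windows {m m' : ℤ} {s : ℝ} (h : |s - m| < 3 / 4) (h' : |s - m'| < 3 / 4) : m' ≤ m + 1 ∧ m ≤ m' + 1 := by
  rw [abs_lt] at h h'
  have h1 : (m' : ℝ) < m + 2 := by linarith [h.1, h'.2, h.2, h'.1]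
  have h2 : (m : ℝ) < m' + 2 := by linarith [h.1, h'.2, h.2, h'.1]
  have h3 : m' < m + 2 := by exact_mod_cast h1
  have h4 : m < m' + 2 := by exact_mod_cast h2
  omega

section F

variable {μ : Moll} {EA EB : Bool → Bool → ℝ × ℝ → P4 × ℝ} {i j : Bool} {n m : ℤ} {θ s : ℝ}

theorem Ok.rel (h : T.Ok) (h0 : 0 ≤ n) (h1 : n ≤ T.len i j) (h2 : 0 ≤ m) (h3 : m ≤ T.M) (hg : T.good i j n m)
    (hs : |s - m| < 3 / 4) : ∀ᶠ t in 𝓝 s, ((T.win m i j).toChain μ).Rel μ n t :=
  ZChain.rel_of_ok_near (h.ok i j n m h0 h1 h2 h3 hg) (by linarith [μ.ep_lt])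

/-- the cells of two windows of the same time -/
theorem Ok.cl_eq (h : T.Ok) {m' : ℤ} (h0 : 0 ≤ n) (h1 : n ≤ T.len i j) (hg : T.good i j n m) (hg' : T.good i j n m')
    (hm : m' ≤ m + 1 ∧ m ≤ m' + 1) : T.cl μ m i j n = T.cl μ m' i j n := by
  have hl := h.len2 i j
  unfold cl win
  obtain ⟨g1, g2⟩ := hg
  obtain ⟨g1', g2'⟩ := hg'
  rcases h0.eq_or_lt with h2 | h2
  · subst h2
    have e : T.rA m = T.rA m' := by
      unfold rA
      rw [decide_eq_decide]
      omega
    rw [e]
    exact cell_zero μ _ _ _ i j (by omega)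
  · rcases h1.eq_or_lt with h3 | h3
    · subst h3
      have e : T.rB m = T.rB m' := by
        unfold rB
        rw [decide_eq_decide]
        omega
      rw [e]
      exact cell_len μ _ _ _ i j (by omega)
    · exact cell_inner μ _ _ _ _ h2 h3

theorem F_same (h : T.Ok) (hEA : T.FitA μ EA) (hEB : T.FitB μ EB) (h0 : 0 ≤ n) (h1 : n ≤ T.len i j) (h2 : 0 ≤ m)
    (h3 : m ≤ T.M) (hg : T.good i j n m) (hθ0 : 0 ≤ θ) (hθ1 : θ ≤ T.len i j) (hθ : |θ - n| < 3 / 4)
    (hs : |s - m| < 3 / 4) (hw : T.w s = m) : T.F μ EA EB i j (θ, s) = (T.cl μ m i j n).pp μ (θ - n, s) := by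
  have hl := h.len2 i j
  have hep := μ.ep_lt
  have hep0 := μ.ep_pos
  have hθ' := abs_lt.1 hθ
  have hR0 : ∀ᶠ t in 𝓝 s, ((T.win m i j).toChain μ).Rel μ n t := h.rel h0 h1 h2 h3 hg hs
  unfold F
  simp only [hw]
  by_cases hA : m = T.mA ∧ θ ≤ 1 / 2
  · rw [if_pos hA]
    have hn : n = 1 := by
      have h4 : (n : ℝ) < 2 := by linarith [hA.2]
      have h5 : n < 2 := by exact_mod_cast h4
      have h6 : n ≠ 0 := fun h7 => hg.1 ⟨hA.1, h7⟩
      omega
    subst hn
    rw [hEA.straight i j θ s (by push_cast at hθ'; linarith) hA.2 (by rw [← hA.1]; exact hs), ← hA.1]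
    simp
  · rw [if_neg hA]
    by_cases hB : m = T.mB ∧ (T.len i j : ℝ) - 1 / 2 ≤ θ
    · rw [if_pos hB]
      have hn : n = T.len i j - 1 := by
        have h4 : ((T.len i j - 2 : ℤ) : ℝ) < n := by
          push_cast
          linarith [hB.2]
        have h5 : T.len i j - 2 < n := by exact_mod_cast h4
        have h6 : n ≠ T.len i j := fun h7 => hg.2 ⟨hB.1, h7⟩
        omega
      have hnr : (n : ℝ) = T.len i j - 1 := by
        rw [hn]
        push_cast
        ring
      rw [hEB.straight i j (T.len i j - θ) s (by linarith) (by linarith [hB.2]) (by rw [← hB.1]; exact hs), ← hB.1, hn]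
      congr 2
      push_cast
      ring
    · rw [if_neg hB]
      by_cases hlast : m = T.mB ∧ n + 1 = T.len i j
      · have h4 : θ < n + 1 / 2 := by
          by_contra h5
          push Not at h5
          apply hB
          refine ⟨hlast.1, ?_⟩
          have : ((n + 1 : ℤ) : ℝ) = T.len i j := by rw [hlast.2]
          push_cast at this
          linarith
        exact CellChain.pp_eq_left (by linarith) h4 fun _ => hR0
      · apply CellChain.pp_eq (by rw [abs_le]; constructor <;> linarith)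
        · intro h4
          have h5 : n + 1 ≤ T.len i j := by
            by_contra h6
            have h7 : n = T.len i j := by omega
            have h8 : (n : ℝ) = T.len i j := by rw [h7]
            linarith
          exact h.rel (by omega) h5 h2 h3 ⟨fun h6 => by omega, fun h6 => hlast h6⟩ hs
        · exact fun _ => hR0

/-- near a vertex which is not the vertex of a saddle in its window the strip is the cell -/
theorem F_cell (h : T.Ok) (hEA : T.FitA μ EA) (hEB : T.FitB μ EB) (h0 : 0 ≤ n) (h1 : n ≤ T.len i j) (h2 : 0 ≤ m)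
    (h3 : m ≤ T.M) (hg : T.good i j n m) (hθ0 : 0 ≤ θ) (hθ1 : θ ≤ T.len i j) (hθ : |θ - n| < 3 / 4) (hs0 : 0 < s)
    (hsM : s < T.M + 3 / 4) (hs : |s - m| < 3 / 4) :
    T.F μ EA EB i j (θ, s) = (T.cl μ m i j n).pp μ (θ - n, s) := by
  have hl := h.len2 i j
  have hep := μ.ep_lt
  have hep0 := μ.ep_pos
  have hθ' := abs_lt.1 hθ
  have hsm := abs_lt.1 hs
  obtain ⟨w0, w1, w2⟩ := w_mem (T := T) hs0 (by linarith [h.hA, h.hAB, h.hBM]) hsM
  have hw2 := abs_lt.1 w2
  have hnear := near_windows hs w2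
  by_cases hgw : T.good i j n (T.w s)
  · rw [F_same h hEA hEB h0 h1 w0 w1 hgw hθ0 hθ1 hθ w2 rfl, h.cl_eq h0 h1 hgw hg ⟨hnear.2, hnear.1⟩]
  · unfold good at hgw
    by_cases hA : T.w s = T.mA ∧ n = 0
    · obtain ⟨hA1, hA2⟩ := hA
      subst hA2
      have hmA : m ≠ T.mA := fun h4 => hg.1 ⟨h4, rfl⟩
      rcases le_or_gt θ (1 / 2) with h4 | h4
      · have h5 : T.F μ EA EB i j (θ, s) = EA i j (θ, s) := by
          unfold F
          rw [if_pos ⟨hA1, h4⟩]
        rw [h5]
        have h6 : m = T.mA - 1 ∨ m = T.mA + 1 := by omega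
        rcases h6 with h6 | h6
        · have h7 : (m : ℝ) = T.mA - 1 := by rw [h6]; push_cast; ring
          have h8 : (T.w s : ℝ) = T.mA := by rw [hA1]
          rw [hEA.before i j θ s hθ0 h4 (by linarith) (by linarith)]
          unfold cl win
          have e : T.rA m = true := by
            unfold rA
            rw [decide_eq_true_iff]
            omega
          rw [e, cell_zero μ true (T.rB m) false i j (by omega)]
          simp
        · have h7 : (m : ℝ) = T.mA + 1 := by rw [h6]; push_cast; ring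
          have h8 : (T.w s : ℝ) = T.mA := by rw [hA1]
          rw [hEA.after i j θ s hθ0 h4 (by linarith) (by linarith)]
          unfold cl win
          have e : T.rA m = false := by
            unfold rA
            rw [decide_eq_false_iff_not]
            omega
          rw [e, cell_zero μ false (T.rB m) false i j (by omega)]
          simp
      · have hg1 : T.good i j 1 (T.w s) := ⟨fun h5 => by omega, fun h5 => by omega⟩
        have hg1' : T.good i j 1 m := ⟨fun h5 => by omega, fun h5 => by omega⟩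
        have e1 := F_same h hEA hEB (θ := θ) (s := s) (n := 1) (by omega) (by omega) w0 w1 hg1 hθ0 hθ1
          (by push_cast; rw [abs_lt]; push_cast at hθ'; constructor <;> linarith) w2 rfl
        rw [e1, h.cl_eq (by omega) (by omega) hg1 hg1' ⟨hnear.2, hnear.1⟩]
        have hR1 : ∀ᶠ t in 𝓝 s, ((T.win m i j).toChain μ).Rel μ (0 + 1) t := h.rel (by omega) (by omega) h2 h3
          (by simpa using hg1') hs
        have e2 := CellChain.overlap_pp (n := 0) (v := θ) (s := s) (by linarith)
          (by push_cast at hθ'; linarith) hR1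
        unfold cl
        rw [show (((0 : ℤ) : ℝ)) = 0 by simp, sub_zero, e2]
        simp
    · have hB : T.w s = T.mB ∧ n = T.len i j := by
        by_contra h4
        exact hgw ⟨hA, h4⟩
      obtain ⟨hB1, hB2⟩ := hB
      subst hB2
      have hmB : m ≠ T.mB := fun h4 => hg.2 ⟨h4, rfl⟩
      rcases le_or_gt ((T.len i j : ℝ) - 1 / 2) θ with h4 | h4
      · have h5 : T.F μ EA EB i j (θ, s) = EB i j (T.len i j - θ, s) := by
          unfold F
          have hn : ¬(T.w s = T.mA ∧ θ ≤ 1 / 2) := by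
            rintro ⟨h6, -⟩
            have := h.hAB
            omega
          rw [if_neg hn, if_pos ⟨hB1, h4⟩]
        rw [h5]
        have h6 : m = T.mB - 1 ∨ m = T.mB + 1 := by omega
        rcases h6 with h6 | h6
        · have h7 : (m : ℝ) = T.mB - 1 := by rw [h6]; push_cast; ring
          have h8 : (T.w s : ℝ) = T.mB := by rw [hB1]
          rw [hEB.before i j (T.len i j - θ) s (by linarith) (by linarith) (by linarith) (by linarith)]
          unfold cl win
          have e : T.rB m = false := by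
            unfold rB
            rw [decide_eq_false_iff_not]
            omega
          rw [e, cell_len μ (T.rA m) false false i j (by omega)]
          congr 2
          ring
        · have h7 : (m : ℝ) = T.mB + 1 := by rw [h6]; push_cast; ring
          have h8 : (T.w s : ℝ) = T.mB := by rw [hB1]
          rw [hEB.after i j (T.len i j - θ) s (by linarith) (by linarith) (by linarith) (by linarith)]
          unfold cl win
          have e : T.rB m = true := by
            unfold rB
            rw [decide_eq_true_iff]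
            omega
          rw [e, cell_len μ (T.rA m) false true i j (by omega)]
          congr 2
          ring
      · set l := T.len i j with hl'
        have hg1 : T.good i j (l - 1) (T.w s) := ⟨fun h5 => by omega, fun h5 => by omega⟩
        have hg1' : T.good i j (l - 1) m := ⟨fun h5 => by omega, fun h5 => by omega⟩
        have e1 := F_same h hEA hEB (θ := θ) (s := s) (n := l - 1) (by omega) (by omega) w0 w1 hg1 hθ0 hθ1
          (by push_cast; rw [abs_lt]; constructor <;> linarith) w2 rfl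
        rw [e1, h.cl_eq (by omega) (by omega) hg1 hg1' ⟨hnear.2, hnear.1⟩]
        have hR1 : ∀ᶠ t in 𝓝 s, ((T.win m i j).toChain μ).Rel μ (l - 1 + 1) t := h.rel (by omega) (by omega) h2 h3
          (by simpa using hg) hs
        have e2 := CellChain.overlap_pp (n := l - 1) (v := θ - (l - 1 : ℤ)) (s := s) (by push_cast; linarith)
          (by push_cast; linarith) hR1
        unfold cl
        rw [e2]
        have e3 : l - 1 + 1 = l := by ring
        rw [e3]
        congr 2
        push_cast
        ring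

/-- near the vertex of the saddle `A` in its window the strip is the map `EA` -/
theorem F_endA (h : T.Ok) (hEA : T.FitA μ EA) (hEB : T.FitB μ EB) (hθ0 : 0 ≤ θ) (hθ : θ ≤ 1 / 2) (hs0 : 0 < s)
    (hs : |s - T.mA| < 3 / 4) : T.F μ EA EB i j (θ, s) = EA i j (θ, s) := by
  have hl := h.len2 i j
  have hsm := abs_lt.1 hs
  have hAM : (T.mA : ℝ) + 1 ≤ T.M := by
    have h1 := h.hAB
    have h2 := h.hBM
    have : T.mA + 1 ≤ T.M := by omega
    exact_mod_cast this
  obtain ⟨w0, w1, w2⟩ := w_mem (T := T) hs0 (by linarith [h.hA, h.hAB, h.hBM]) (by linarith)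
  have hw2 := abs_lt.1 w2
  have hnear := near_windows hs w2
  by_cases hA : T.w s = T.mA
  · unfold F
    rw [if_pos ⟨hA, hθ⟩]
  · have hlr : (2 : ℝ) ≤ T.len i j := by exact_mod_cast hl
    have hg : T.good i j 0 (T.w s) := ⟨fun h5 => hA h5.1, fun h5 => by omega⟩
    rw [F_same h hEA hEB (n := 0) (by omega) (by omega) w0 w1 hg hθ0 (by linarith)
      (by rw [abs_lt]; push_cast; constructor <;> linarith) w2 rfl]
    have h6 : T.w s = T.mA - 1 ∨ T.w s = T.mA + 1 := by omega
    rcases h6 with h6 | h6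
    · have h7 : (T.w s : ℝ) = T.mA - 1 := by rw [h6]; push_cast; ring
      rw [hEA.before i j θ s hθ0 hθ (by linarith) (by linarith)]
      unfold cl win
      have e : T.rA (T.w s) = true := by
        unfold rA
        rw [decide_eq_true_iff]
        omega
      rw [e, cell_zero μ true (T.rB (T.w s)) false i j (by omega)]
      simp
    · have h7 : (T.w s : ℝ) = T.mA + 1 := by rw [h6]; push_cast; ring
      rw [hEA.after i j θ s hθ0 hθ (by linarith) (by linarith)]
      unfold cl win
      have e : T.rA (T.w s) = false := by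
        unfold rA
        rw [decide_eq_false_iff_not]
        omega
      rw [e, cell_zero μ false (T.rB (T.w s)) false i j (by omega)]
      simp

/-- near the vertex of the saddle `B` in its window the strip is the map `EB` -/
theorem F_endB (h : T.Ok) (hEA : T.FitA μ EA) (hEB : T.FitB μ EB) (hθ : T.len i j - 1 / 2 ≤ θ)
    (hθ1 : θ ≤ T.len i j) (hs0 : 0 < s) (hs : |s - T.mB| < 3 / 4) :
    T.F μ EA EB i j (θ, s) = EB i j (T.len i j - θ, s) := by
  have hl := h.len2 i j
  have hsm := abs_lt.1 hs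
  have hBM : (T.mB : ℝ) + 1 ≤ T.M := by
    have h2 := h.hBM
    have : T.mB + 1 ≤ T.M := by omega
    exact_mod_cast this
  obtain ⟨w0, w1, w2⟩ := w_mem (T := T) hs0 (by linarith [h.hA, h.hAB, h.hBM]) (by linarith)
  have hw2 := abs_lt.1 w2
  have hnear := near_windows hs w2
  have hlr : (2 : ℝ) ≤ T.len i j := by exact_mod_cast hl
  by_cases hB : T.w s = T.mB
  · unfold F
    have hn : ¬(T.w s = T.mA ∧ θ ≤ 1 / 2) := by
      rintro ⟨h6, -⟩
      have := h.hAB
      omega
    rw [if_neg hn, if_pos ⟨hB, hθ⟩]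
  · have hg : T.good i j (T.len i j) (T.w s) := ⟨fun h5 => by omega, fun h5 => hB h5.1⟩
    rw [F_same h hEA hEB (n := T.len i j) (by omega) (by omega) w0 w1 hg (by linarith) hθ1
      (by rw [abs_lt]; constructor <;> linarith) w2 rfl]
    have h6 : T.w s = T.mB - 1 ∨ T.w s = T.mB + 1 := by omega
    rcases h6 with h6 | h6
    · have h7 : (T.w s : ℝ) = T.mB - 1 := by rw [h6]; push_cast; ring
      rw [hEB.before i j (T.len i j - θ) s (by linarith) (by linarith) (by linarith) (by linarith)]
      unfold cl win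
      have e : T.rB (T.w s) = false := by
        unfold rB
        rw [decide_eq_false_iff_not]
        omega
      rw [e, cell_len μ (T.rA (T.w s)) false false i j (by omega)]
      congr 2
      ring
    · have h7 : (T.w s : ℝ) = T.mB + 1 := by rw [h6]; push_cast; ring
      rw [hEB.after i j (T.len i j - θ) s (by linarith) (by linarith) (by linarith) (by linarith)]
      unfold cl win
      have e : T.rB (T.w s) = true := by
        unfold rB
        rw [decide_eq_true_iff]
        omega
      rw [e, cell_len μ (T.rA (T.w s)) false true i j (by omega)]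
      congr 2
      ring

/-- every point is near a vertex of one of the three kinds -/
theorem Ok.cases (h : T.Ok) (m : ℤ) (hθ0 : 0 ≤ θ) (hθ1 : θ ≤ T.len i j) :
    (∃ n, 0 ≤ n ∧ n ≤ T.len i j ∧ T.good i j n m ∧ |θ - n| ≤ 1 / 2) ∨ (m = T.mA ∧ θ < 1 / 2) ∨
      (m = T.mB ∧ T.len i j - 1 / 2 < θ) := by
  have hl := h.len2 i j
  have hlr : (2 : ℝ) ≤ T.len i j := by exact_mod_cast hl
  have h1 := abs_sub_round_le θ
  have h1' := abs_le.1 h1
  have h2 : 0 ≤ round θ := by
    have : (-1 : ℝ) < round θ := by linarith [h1'.2]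
    have h3 : (-1 : ℤ) < round θ := by exact_mod_cast this
    omega
  have h3 : round θ ≤ T.len i j := by
    have : (round θ : ℝ) < T.len i j + 1 := by linarith [h1'.1]
    have h4 : round θ < T.len i j + 1 := by exact_mod_cast this
    omega
  by_cases hA : m = T.mA ∧ round θ = 0
  · rcases lt_or_ge θ (1 / 2) with h4 | h4
    · exact Or.inr (Or.inl ⟨hA.1, h4⟩)
    · have h5 : θ ≤ 1 / 2 := by
        have h6 := h1'.2
        rw [hA.2] at h6
        push_cast at h6
        linarith
      have h6 : θ = 1 / 2 := le_antisymm h5 h4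
      refine Or.inl ⟨1, by omega, by omega, ⟨fun h7 => by omega, fun h7 => by omega⟩, ?_⟩
      rw [h6]
      norm_num
  · by_cases hB : m = T.mB ∧ round θ = T.len i j
    · rcases lt_or_ge ((T.len i j : ℝ) - 1 / 2) θ with h4 | h4
      · exact Or.inr (Or.inr ⟨hB.1, h4⟩)
      · have h5 : (T.len i j : ℝ) - 1 / 2 ≤ θ := by
          have h6 := h1'.1
          rw [hB.2] at h6
          linarith
        have h6 : θ = T.len i j - 1 / 2 := le_antisymm h4 h5
        refine Or.inl ⟨T.len i j - 1, by omega, by omega, ⟨fun h7 => by omega, fun h7 => by omega⟩, ?_⟩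
        rw [h6]
        push_cast
        rw [abs_le]
        constructor <;> linarith
    · exact Or.inl ⟨round θ, h2, h3, ⟨hA, hB⟩, h1⟩

end F

end StripTab

end Pool.Agent.Lib_MP_59ec1f_cap
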