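import Pool.Agent.Lib_MP_59ec1f_cap.Low

/-!
# The lower part: time, continuity, gluing, cone
-/

set_option autoImplicit false

open Set
open scoped ContDiff Topology

namespace Pool.Agent.Lib_MP_59ec1f_cap

namespace StripTab

variable (T : StripTab)

/-- the rows of the end vertices agree, and the table is linear near the node `0` -/
structure Ok2 : Prop where
  xA : ∀ i j, T.x i j 0 = T.x false false 0
  xB : ∀ i j, T.x i j (T.len i j) = T.x false false (T.len false false)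
  yA₁ : ∀ (i : Bool) (k : ℤ), -1 ≤ k → k ≤ T.mA + 1 → T.y i false 0 k = T.y i true 0 k
  yA₂ : ∀ (j : Bool) (k : ℤ), T.mA - 1 ≤ k → k ≤ T.M + 1 → T.y false j 0 k = T.y true j 0 k
  yB₁ : ∀ (j : Bool) (k : ℤ), -1 ≤ k → k ≤ T.mB + 1 → T.y false j (T.len false j) k = T.y true j (T.len true j) k
  yB₂ : ∀ (i : Bool) (k : ℤ), T.mB - 1 ≤ k → k ≤ T.M + 1 → T.y i false (T.len i false) k = T.y i true (T.len i true) k
  cone : ∀ (i j : Bool) (n : ℤ), 0 ≤ n → n ≤ T.len i j → T.y i j n 0 = 0 ∧ T.y i j n (-1) = -T.y i j n 1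
  coneF : ∀ (i j : Bool) (n : ℤ), 0 ≤ n → n < T.len i j → T.f i j n 0 = 0 ∧ T.f i j n (-1) = -T.f i j n 1

/-- gluing, time and continuity of the map at the end `A` -/
structure GlueA (E : Bool → Bool → ℝ × ℝ → P4 × ℝ) (sA : ℝ) : Prop where
  hs : |sA - T.mA| < 1 / 2
  time : ∀ (i j : Bool) (p : ℝ × ℝ), (E i j p).1.2.1 = p.2
  cont : ∀ i j : Bool, ContinuousOn (fun p => (E i j p).1) (Icc (0 : ℝ) (1 / 2) ×ˢ Ioo ((T.mA : ℝ) - 3 / 4) (T.mA + 3 / 4))
  glue₁ : ∀ (i : Bool) (s : ℝ), |s - T.mA| < 3 / 4 → s ≤ sA → E i false (0, s) = E i true (0, s)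
  glue₂ : ∀ (j : Bool) (s : ℝ), |s - T.mA| < 3 / 4 → sA ≤ s → E false j (0, s) = E true j (0, s)

/-- gluing, time and continuity of the map at the end `B` -/
structure GlueB (E : Bool → Bool → ℝ × ℝ → P4 × ℝ) (sB : ℝ) : Prop where
  hs : |sB - T.mB| < 1 / 2
  time : ∀ (i j : Bool) (p : ℝ × ℝ), (E i j p).1.2.1 = p.2
  cont : ∀ i j : Bool, ContinuousOn (fun p => (E i j p).1) (Icc (0 : ℝ) (1 / 2) ×ˢ Ioo ((T.mB : ℝ) - 3 / 4) (T.mB + 3 / 4))
  glue₁ : ∀ (j : Bool) (s : ℝ), |s - T.mB| < 3 / 4 → s ≤ sB → E false j (0, s) = E true j (0, s)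
  glue₂ : ∀ (i : Bool) (s : ℝ), |s - T.mB| < 3 / 4 → sB ≤ s → E i false (0, s) = E i true (0, s)

variable {T}

section

variable {μ : Moll} {EA EB : Bool → Bool → ℝ × ℝ → P4 × ℝ} {sA sB : ℝ} {i j : Bool} {n m : ℤ} {θ s : ℝ}

theorem w_lt (hM : m ≤ T.M) (h : T.w s < m) : s < m - 1 / 2 := by
  unfold w at h
  have h1 : round s < m := by
    rcases min_lt_iff.1 h with h2 | h2
    · exact h2
    · omega
  have h2 := (abs_le.1 (abs_sub_round_le s))
  have h3 : round s ≤ m - 1 := by omega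
  have h4 : (round s : ℝ) ≤ m - 1 := by exact_mod_cast h3
  rw [round_eq] at h1
  have h5 : ⌊s + 1 / 2⌋ + 1 ≤ m := by omega
  have h6 : (⌊s + 1 / 2⌋ : ℝ) + 1 ≤ m := by exact_mod_cast h5
  have h7 := Int.lt_floor_add_one (s + 1 / 2)
  linarith

theorem w_gt (h : m < T.w s) : m + 1 / 2 ≤ s := by
  unfold w at h
  have h1 : m < round s := lt_of_lt_of_le h (min_le_left _ _)
  have h3 : m + 1 ≤ round s := by omega
  have h4 : (m : ℝ) + 1 ≤ round s := by exact_mod_cast h3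
  have h2 := (abs_le.1 (abs_sub_round_le s))
  linarith [h2.1]

theorem F_time (h : T.GlueA EA sA) (h' : T.GlueB EB sB) (p : ℝ × ℝ) : (T.F μ EA EB i j p).1.2.1 = p.2 := by
  unfold F
  split_ifs
  · exact h.time i j p
  · exact h'.time i j _
  · rfl

theorem pp_shift_cont (C : Cell) (n : ℤ) : Continuous fun p : ℝ × ℝ => (C.pp μ (p.1 - n, p.2)).1 := by
  have h1 : Continuous fun p : ℝ × ℝ => ((p.1 - n, p.2) : ℝ × ℝ) := by fun_prop
  exact (C.pt_contDiff μ).continuous.comp h1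

theorem F_cont (h : T.Ok) (hEA : T.FitA μ EA) (hEB : T.FitB μ EB) (hA : T.GlueA EA sA) (hB : T.GlueB EB sB) :
    ContinuousOn (fun p => (T.F μ EA EB i j p).1) (Icc (0 : ℝ) (T.len i j) ×ˢ Ioo (0 : ℝ) (T.M + 3 / 4)) := by
  rintro ⟨θ, s⟩ ⟨⟨hθ0, hθ1⟩, ⟨hs0, hsM⟩⟩
  simp only at hθ0 hθ1 hs0 hsM
  have hl := h.len2 i j
  have hlr : (2 : ℝ) ≤ T.len i j := by exact_mod_cast hl
  obtain ⟨w0, w1, w2⟩ := w_mem (T := T) hs0 (by linarith [h.hA, h.hAB, h.hBM]) hsM
  rcases h.cases (T.w s) hθ0 hθ1 with ⟨n, h0, h1, hg, hn⟩ | ⟨hm, hθ⟩ | ⟨hm, hθ⟩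
  · have h2 : ContinuousWithinAt (fun p : ℝ × ℝ => ((T.cl μ (T.w s) i j n).pp μ (p.1 - n, p.2)).1)
        (Icc (0 : ℝ) (T.len i j) ×ˢ Ioo (0 : ℝ) (T.M + 3 / 4)) (θ, s) := (pp_shift_cont _ n).continuousWithinAt
    have h3 : Continuous fun p : ℝ × ℝ => |p.1 - n| := by fun_prop
    have h4 : Continuous fun p : ℝ × ℝ => |p.2 - T.w s| := by fun_prop
    have h5 : ∀ᶠ p : ℝ × ℝ in 𝓝 (θ, s), |p.1 - n| < 3 / 4 ∧ |p.2 - T.w s| < 3 / 4 :=
      (h3.continuousAt.tendsto.eventually (gt_mem_nhds (by linarith : |θ - n| < 3 / 4))).and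
        (h4.continuousAt.tendsto.eventually (gt_mem_nhds w2))
    refine h2.congr_of_eventuallyEq ?_ ?_
    · filter_upwards [self_mem_nhdsWithin, nhdsWithin_le_nhds h5] with p hp hp'
      rw [F_cell h hEA hEB (θ := p.1) (s := p.2) h0 h1 w0 w1 hg hp.1.1 hp.1.2 hp'.1 hp.2.1 hp.2.2 hp'.2]
    · rw [F_cell h hEA hEB h0 h1 w0 w1 hg hθ0 hθ1 (by linarith) hs0 hsM w2]
  · have hwr : (T.w s : ℝ) = T.mA := by rw [hm]
    rw [hwr] at w2
    have w2' := abs_lt.1 w2
    have h2 : ContinuousWithinAt (fun p => (EA i j p).1)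
        (Icc (0 : ℝ) (1 / 2) ×ˢ Ioo ((T.mA : ℝ) - 3 / 4) (T.mA + 3 / 4)) (θ, s) :=
      hA.cont i j (θ, s) ⟨⟨hθ0, hθ.le⟩, ⟨by linarith, by linarith⟩⟩
    have h5 : ∀ᶠ p : ℝ × ℝ in 𝓝 (θ, s), p.1 < 1 / 2 ∧ |p.2 - T.mA| < 3 / 4 := by
      have h4 : Continuous fun p : ℝ × ℝ => |p.2 - T.mA| := by fun_prop
      exact (continuous_fst.continuousAt.tendsto.eventually (gt_mem_nhds hθ)).and
        (h4.continuousAt.tendsto.eventually (gt_mem_nhds w2))
    have h6 : ContinuousWithinAt (fun p => (EA i j p).1)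
        (Icc (0 : ℝ) (T.len i j) ×ˢ Ioo (0 : ℝ) (T.M + 3 / 4)) (θ, s) := by
      apply h2.mono_of_mem_nhdsWithin
      filter_upwards [self_mem_nhdsWithin, nhdsWithin_le_nhds h5] with p hp hp'
      have hp2 := abs_lt.1 hp'.2
      exact ⟨⟨hp.1.1, hp'.1.le⟩, ⟨by linarith, by linarith⟩⟩
    refine h6.congr_of_eventuallyEq ?_ ?_
    · filter_upwards [self_mem_nhdsWithin, nhdsWithin_le_nhds h5] with p hp hp'
      rw [F_endA h hEA hEB (θ := p.1) (s := p.2) hp.1.1 hp'.1.le hp.2.1 hp'.2]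
    · rw [F_endA h hEA hEB hθ0 hθ.le hs0 w2]
  · have hwr : (T.w s : ℝ) = T.mB := by rw [hm]
    rw [hwr] at w2
    have w2' := abs_lt.1 w2
    set r : ℝ × ℝ → ℝ × ℝ := fun p => (T.len i j - p.1, p.2) with hr
    have hrc : Continuous r := by fun_prop
    have h2 : ContinuousWithinAt (fun p => (EB i j p).1)
        (Icc (0 : ℝ) (1 / 2) ×ˢ Ioo ((T.mB : ℝ) - 3 / 4) (T.mB + 3 / 4)) (r (θ, s)) := by
      apply hB.cont i j
      exact ⟨⟨by simp only [hr]; linarith, by simp only [hr]; linarith⟩,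
        ⟨by simp only [hr]; linarith, by simp only [hr]; linarith⟩⟩
    have h5 : ∀ᶠ p : ℝ × ℝ in 𝓝 (θ, s), (T.len i j : ℝ) - 1 / 2 < p.1 ∧ |p.2 - T.mB| < 3 / 4 := by
      have h4 : Continuous fun p : ℝ × ℝ => |p.2 - T.mB| := by fun_prop
      exact (continuous_fst.continuousAt.tendsto.eventually (lt_mem_nhds hθ)).and
        (h4.continuousAt.tendsto.eventually (gt_mem_nhds w2))
    have h6 : ContinuousWithinAt (fun p => (EB i j (r p)).1)
        ((Icc (0 : ℝ) (T.len i j) ×ˢ Ioo (0 : ℝ) (T.M + 3 / 4)) ∩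
          {p | (T.len i j : ℝ) - 1 / 2 < p.1 ∧ |p.2 - T.mB| < 3 / 4}) (θ, s) := by
      apply h2.comp hrc.continuousWithinAt
      rintro p ⟨hp, hp'⟩
      have hp2 := abs_lt.1 hp'.2
      exact ⟨⟨by simp only [hr]; linarith [hp.1.2], by simp only [hr]; linarith [hp'.1]⟩,
        ⟨by simp only [hr]; linarith, by simp only [hr]; linarith⟩⟩
    have h7 : ContinuousWithinAt (fun p => (EB i j (r p)).1)
        (Icc (0 : ℝ) (T.len i j) ×ˢ Ioo (0 : ℝ) (T.M + 3 / 4)) (θ, s) := by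
      apply h6.mono_of_mem_nhdsWithin
      filter_upwards [self_mem_nhdsWithin, nhdsWithin_le_nhds h5] with p hp hp'
      exact ⟨hp, hp'⟩
    refine h7.congr_of_eventuallyEq ?_ ?_
    · filter_upwards [self_mem_nhdsWithin, nhdsWithin_le_nhds h5] with p hp hp'
      rw [F_endB h hEA hEB (θ := p.1) (s := p.2) hp'.1.le hp.1.2 hp.2.1 hp'.2]
    · rw [F_endB h hEA hEB hθ.le hθ1 hs0 w2]

/-- flips as equations of pairs -/
theorem flipA_pp (h : T.Ok) (h' : T.Ok2) (h2 : 0 ≤ m) (h3 : m ≤ T.M) (hm : m ≠ T.mA) {v : ℝ} (hs : |s - m| < 3 / 4) :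
    (T.cl μ m (prt (T.rA m) i j).1 (prt (T.rA m) i j).2 0).pp μ (v, s) = (T.cl μ m i j 0).pp μ (-v, s) := by
  have hl := h.len2 i j
  have hl' := h.len2 (prt (T.rA m) i j).1 (prt (T.rA m) i j).2
  have hg : T.good i j 0 m := ⟨fun h5 => hm h5.1, fun h5 => by omega⟩
  have hy : ∀ k, m - 1 ≤ k → k ≤ m + 1 → T.y (prt (T.rA m) i j).1 (prt (T.rA m) i j).2 0 k = T.y i j 0 k := by
    intro k k1 k2
    rcases lt_or_gt_of_ne hm with h5 | h5
    · have e : T.rA m = true := by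
        unfold rA
        rw [decide_eq_true_iff]
        exact h5
      rw [e, prt_true]
      have := h'.yA₁ i k (by omega) (by omega)
      cases j
      · exact this.symm
      · exact this
    · have e : T.rA m = false := by
        unfold rA
        rw [decide_eq_false_iff_not]
        omega
      rw [e, prt_false]
      have := h'.yA₂ j k (by omega) (by omega)
      cases i
      · exact this.symm
      · exact this
  have hx : T.x (prt (T.rA m) i j).1 (prt (T.rA m) i j).2 0 = T.x i j 0 := by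
    rw [h'.xA (prt (T.rA m) i j).1, h'.xA i j]
  have := flipA (T := T) μ (T.rA m) (T.rB m) (T.rB m) i j (m := m) (v := v) (s := s) (by linarith [μ.ep_lt])
    (by omega) (by omega) hx hy (h.ok i j 0 m (by omega) (by omega) h2 h3 hg)
  exact Prod.ext this.1 this.2

theorem flipB_pp (h : T.Ok) (h' : T.Ok2) (h2 : 0 ≤ m) (h3 : m ≤ T.M) (hm : m ≠ T.mB) {v : ℝ} (hs : |s - m| < 3 / 4) :
    (T.cl μ m (prt (T.rB m) i j).1 (prt (T.rB m) i j).2 (T.len (prt (T.rB m) i j).1 (prt (T.rB m) i j).2)).pp μ (v, s) =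
      (T.cl μ m i j (T.len i j)).pp μ (-v, s) := by
  have hl := h.len2 i j
  have hl' := h.len2 (prt (T.rB m) i j).1 (prt (T.rB m) i j).2
  have hg : T.good i j (T.len i j) m := ⟨fun h5 => by omega, fun h5 => hm h5.1⟩
  have hy : ∀ k, m - 1 ≤ k → k ≤ m + 1 → T.y (prt (T.rB m) i j).1 (prt (T.rB m) i j).2
      (T.len (prt (T.rB m) i j).1 (prt (T.rB m) i j).2) k = T.y i j (T.len i j) k := by
    intro k k1 k2
    rcases lt_or_gt_of_ne hm with h5 | h5
    · have e : T.rB m = false := by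
        unfold rB
        rw [decide_eq_false_iff_not]
        omega
      rw [e, prt_false]
      have := h'.yB₁ j k (by omega) (by omega)
      cases i
      · exact this.symm
      · exact this
    · have e : T.rB m = true := by
        unfold rB
        rw [decide_eq_true_iff]
        exact h5
      rw [e, prt_true]
      have := h'.yB₂ i k (by omega) (by omega)
      cases j
      · exact this.symm
      · exact this
  have hx : T.x (prt (T.rB m) i j).1 (prt (T.rB m) i j).2 (T.len (prt (T.rB m) i j).1 (prt (T.rB m) i j).2) =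
      T.x i j (T.len i j) := by
    rw [h'.xB (prt (T.rB m) i j).1, h'.xB i j]
  have := flipB (T := T) μ (T.rA m) (T.rA m) (T.rB m) i j (m := m) (v := v) (s := s) (by linarith [μ.ep_lt])
    (by omega) (by omega) hx hy (h.ok i j (T.len i j) m (by omega) (by omega) h2 h3 hg)
  exact Prod.ext this.1 this.2

/-- the line `A` outside the window of the saddle -/
theorem F_zero (h : T.Ok) (hEA : T.FitA μ EA) (hEB : T.FitB μ EB) (hs0 : 0 < s) (hsM : s < T.M + 3 / 4)
    (hm : T.w s ≠ T.mA) : T.F μ EA EB i j (0, s) = (T.cl μ (T.w s) i j 0).pp μ (0, s) := by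
  have hl := h.len2 i j
  have hlr : (2 : ℝ) ≤ T.len i j := by exact_mod_cast hl
  obtain ⟨w0, w1, w2⟩ := w_mem (T := T) hs0 (by linarith [h.hA, h.hAB, h.hBM]) hsM
  have hg : T.good i j 0 (T.w s) := ⟨fun h5 => hm h5.1, fun h5 => by omega⟩
  rw [F_cell h hEA hEB (n := 0) (by omega) (by omega) w0 w1 hg (le_refl 0) (by linarith)
    (by norm_num) hs0 hsM w2]
  simp

theorem F_len (h : T.Ok) (hEA : T.FitA μ EA) (hEB : T.FitB μ EB) (hs0 : 0 < s) (hsM : s < T.M + 3 / 4)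
    (hm : T.w s ≠ T.mB) :
    T.F μ EA EB i j (T.len i j, s) = (T.cl μ (T.w s) i j (T.len i j)).pp μ (0, s) := by
  have hl := h.len2 i j
  have hlr : (2 : ℝ) ≤ T.len i j := by exact_mod_cast hl
  obtain ⟨w0, w1, w2⟩ := w_mem (T := T) hs0 (by linarith [h.hA, h.hAB, h.hBM]) hsM
  have hg : T.good i j (T.len i j) (T.w s) := ⟨fun h5 => by omega, fun h5 => hm h5.1⟩
  rw [F_cell h hEA hEB (n := T.len i j) (by omega) (by omega) w0 w1 hg (by linarith) (le_refl _)
    (by norm_num) hs0 hsM w2]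
  simp

/-- gluing along the line `A` with the rule of the window -/
theorem F_glueA (h : T.Ok) (h' : T.Ok2) (hEA : T.FitA μ EA) (hEB : T.FitB μ EB) (hs0 : 0 < s) (hsM : s < T.M + 3 / 4)
    (hm : T.w s ≠ T.mA) : T.F μ EA EB (prt (T.rA (T.w s)) i j).1 (prt (T.rA (T.w s)) i j).2 (0, s) =
      T.F μ EA EB i j (0, s) := by
  obtain ⟨w0, w1, w2⟩ := w_mem (T := T) hs0 (by linarith [h.hA, h.hAB, h.hBM]) hsM
  rw [F_zero h hEA hEB hs0 hsM hm, F_zero h hEA hEB hs0 hsM hm, flipA_pp h h' w0 w1 hm w2, neg_zero]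

theorem F_glueB (h : T.Ok) (h' : T.Ok2) (hEA : T.FitA μ EA) (hEB : T.FitB μ EB) (hs0 : 0 < s) (hsM : s < T.M + 3 / 4)
    (hm : T.w s ≠ T.mB) : T.F μ EA EB (prt (T.rB (T.w s)) i j).1 (prt (T.rB (T.w s)) i j).2
        (T.len (prt (T.rB (T.w s)) i j).1 (prt (T.rB (T.w s)) i j).2, s) = T.F μ EA EB i j (T.len i j, s) := by
  obtain ⟨w0, w1, w2⟩ := w_mem (T := T) hs0 (by linarith [h.hA, h.hAB, h.hBM]) hsM
  rw [F_len h hEA hEB hs0 hsM hm, F_len h hEA hEB hs0 hsM hm, flipB_pp h h' w0 w1 hm w2, neg_zero]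

theorem F_glueA₁ (h : T.Ok) (h' : T.Ok2) (hEA : T.FitA μ EA) (hEB : T.FitB μ EB) (hA : T.GlueA EA sA) (hs0 : 0 < s)
    (hs : s ≤ sA) : T.F μ EA EB i false (0, s) = T.F μ EA EB i true (0, s) := by
  have hsA := abs_lt.1 hA.hs
  have hAM : (T.mA : ℝ) + 1 ≤ T.M := by
    have h1 := h.hAB
    have h2 := h.hBM
    have : T.mA + 1 ≤ T.M := by omega
    exact_mod_cast this
  rcases lt_or_ge ((T.mA : ℝ) - 3 / 4) s with h1 | h1
  · have h2 : |s - T.mA| < 3 / 4 := by rw [abs_lt]; constructor <;> linarith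
    rw [F_endA h hEA hEB (le_refl 0) (by norm_num) hs0 h2, F_endA h hEA hEB (le_refl 0) (by norm_num) hs0 h2]
    exact hA.glue₁ i s h2 hs
  · have hsM : s < T.M + 3 / 4 := by linarith
    obtain ⟨w0, w1, w2⟩ := w_mem (T := T) hs0 (by linarith [h.hA, h.hAB, h.hBM]) hsM
    have w2' := abs_lt.1 w2
    have h3 : T.w s < T.mA := by
      have : (T.w s : ℝ) < T.mA := by linarith
      exact_mod_cast this
    have e : T.rA (T.w s) = true := by
      unfold rA
      rw [decide_eq_true_iff]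
      exact h3
    have := F_glueA (i := i) (j := true) h h' hEA hEB hs0 hsM (by omega)
    rw [e, prt_true] at this
    exact this

theorem F_glueA₂ (h : T.Ok) (h' : T.Ok2) (hEA : T.FitA μ EA) (hEB : T.FitB μ EB) (hA : T.GlueA EA sA)
    (hs : sA ≤ s) (hsM : s < T.M + 3 / 4) : T.F μ EA EB false j (0, s) = T.F μ EA EB true j (0, s) := by
  have hsA := abs_lt.1 hA.hs
  have hA1 : (1 : ℝ) ≤ T.mA := by exact_mod_cast h.hA
  have hs0 : 0 < s := by linarith
  rcases lt_or_ge s ((T.mA : ℝ) + 3 / 4) with h1 | h1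
  · have h2 : |s - T.mA| < 3 / 4 := by rw [abs_lt]; constructor <;> linarith
    rw [F_endA h hEA hEB (le_refl 0) (by norm_num) hs0 h2, F_endA h hEA hEB (le_refl 0) (by norm_num) hs0 h2]
    exact hA.glue₂ j s h2 hs
  · obtain ⟨w0, w1, w2⟩ := w_mem (T := T) hs0 (by linarith [h.hA, h.hAB, h.hBM]) hsM
    have w2' := abs_lt.1 w2
    have h3 : T.mA < T.w s := by
      have : (T.mA : ℝ) < T.w s := by linarith
      exact_mod_cast this
    have e : T.rA (T.w s) = false := by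
      unfold rA
      rw [decide_eq_false_iff_not]
      omega
    have := F_glueA (i := true) (j := j) h h' hEA hEB hs0 hsM (by omega)
    rw [e, prt_false] at this
    exact this

theorem F_glueB₁ (h : T.Ok) (h' : T.Ok2) (hEA : T.FitA μ EA) (hEB : T.FitB μ EB) (hB : T.GlueB EB sB) (hs0 : 0 < s)
    (hs : s ≤ sB) : T.F μ EA EB false j (T.len false j, s) = T.F μ EA EB true j (T.len true j, s) := by
  have hsB := abs_lt.1 hB.hs
  have hBM : (T.mB : ℝ) + 1 ≤ T.M := by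
    have h2 := h.hBM
    have : T.mB + 1 ≤ T.M := by omega
    exact_mod_cast this
  rcases lt_or_ge ((T.mB : ℝ) - 3 / 4) s with h1 | h1
  · have h2 : |s - T.mB| < 3 / 4 := by rw [abs_lt]; constructor <;> linarith
    rw [F_endB h hEA hEB (by linarith) (le_refl _) hs0 h2, F_endB h hEA hEB (by linarith) (le_refl _) hs0 h2,
      sub_self, sub_self]
    exact hB.glue₁ j s h2 hs
  · have hsM : s < T.M + 3 / 4 := by linarith
    obtain ⟨w0, w1, w2⟩ := w_mem (T := T) hs0 (by linarith [h.hA, h.hAB, h.hBM]) hsM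
    have w2' := abs_lt.1 w2
    have h3 : T.w s < T.mB := by
      have : (T.w s : ℝ) < T.mB := by linarith
      exact_mod_cast this
    have e : T.rB (T.w s) = false := by
      unfold rB
      rw [decide_eq_false_iff_not]
      omega
    have := F_glueB (i := true) (j := j) h h' hEA hEB hs0 hsM (by omega)
    rw [e, prt_false] at this
    exact this

theorem F_glueB₂ (h : T.Ok) (h' : T.Ok2) (hEA : T.FitA μ EA) (hEB : T.FitB μ EB) (hB : T.GlueB EB sB)
    (hs : sB ≤ s) (hsM : s < T.M + 3 / 4) :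
    T.F μ EA EB i false (T.len i false, s) = T.F μ EA EB i true (T.len i true, s) := by
  have hsB := abs_lt.1 hB.hs
  have hB1 : (1 : ℝ) ≤ T.mB := by
    have h1 := h.hA
    have h2 := h.hAB
    have : 1 ≤ T.mB := by omega
    exact_mod_cast this
  have hs0 : 0 < s := by linarith
  rcases lt_or_ge s ((T.mB : ℝ) + 3 / 4) with h1 | h1
  · have h2 : |s - T.mB| < 3 / 4 := by rw [abs_lt]; constructor <;> linarith
    rw [F_endB h hEA hEB (by linarith) (le_refl _) hs0 h2, F_endB h hEA hEB (by linarith) (le_refl _) hs0 h2,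
      sub_self, sub_self]
    exact hB.glue₂ i s h2 hs
  · obtain ⟨w0, w1, w2⟩ := w_mem (T := T) hs0 (by linarith [h.hA, h.hAB, h.hBM]) hsM
    have w2' := abs_lt.1 w2
    have h3 : T.mB < T.w s := by
      have : (T.mB : ℝ) < T.w s := by linarith
      exact_mod_cast this
    have e : T.rB (T.w s) = true := by
      unfold rB
      rw [decide_eq_true_iff]
      exact h3
    have := F_glueB (i := i) (j := true) h h' hEA hEB hs0 hsM (by omega)
    rw [e, prt_true] at this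
    exact this

end

end StripTab

end Pool.Agent.Lib_MP_59ec1f_cap
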