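import Pool.Agent.Lib_MP_59ec1f_cap.LowInj

/-!
# The lower part: local charts
-/

set_option autoImplicit false

open Set
open scoped ContDiff Topology

namespace Pool.Agent.Lib_MP_59ec1f_cap

/-- the reflection `(θ, s) ↦ (l - θ, s)` -/
noncomputable def flipHomeo (l : ℝ) : ℝ × ℝ ≃ₜ ℝ × ℝ where
  toFun p := (l - p.1, p.2)
  invFun p := (l - p.1, p.2)
  left_inv p := by
    ext
    · simp
    · rfl
  right_inv p := by
    ext
    · simp
    · rfl
  continuous_toFun := by fun_prop
  continuous_invFun := by fun_prop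

namespace StripTab

variable (T : StripTab)

/-- local charts at the end `A` -/
def ChartA (E : Bool → Bool → ℝ × ℝ → P4 × ℝ) : Prop := ∀ (i j : Bool) (ρ s : ℝ), 0 ≤ ρ → ρ < 1 / 2 → |s - T.mA| < 3 / 4 →
  LocChart (ι := Bool × Bool) (fun k p => (E k.1 k.2 p).1) (fun k p => (E k.1 k.2 p).2)
    (fun _ => Ico (0 : ℝ) (1 / 2) ×ˢ Ioo ((T.mA : ℝ) - 3 / 4) (T.mA + 3 / 4)) (E i j (ρ, s)).1

/-- local charts at the end `B` -/
def ChartB (E : Bool → Bool → ℝ × ℝ → P4 × ℝ) : Prop := ∀ (i j : Bool) (ρ s : ℝ), 0 ≤ ρ → ρ < 1 / 2 → |s - T.mB| < 3 / 4 →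
  LocChart (ι := Bool × Bool) (fun k p => (E k.1 k.2 p).1) (fun k p => (E k.1 k.2 p).2)
    (fun _ => Ico (0 : ℝ) (1 / 2) ×ˢ Ioo ((T.mB : ℝ) - 3 / 4) (T.mB + 3 / 4)) (E i j (ρ, s)).1

variable {T}

section

variable {μ : Moll} {EA EB : Bool → Bool → ℝ × ℝ → P4 × ℝ} {sA sB : ℝ} {i j i' j' : Bool} {n n' m : ℤ} {θ θ' s : ℝ}

theorem cl_shape_one (h3 : T.Ok3) (h0 : 0 ≤ n) (h1 : n ≤ T.len i j) (hm : 1 ≤ m) (hm' : m ≤ T.M) (hg : T.good i j n m)
    (hs : |s - m| ≤ 1 / 2) :
    ((T.cl μ m i j n).x1 - (T.cl μ m i j n).x0 = (T.cl μ m i j n).x2 - (T.cl μ m i j n).x1 ∧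
      (T.cl μ m i j n).x1 ≠ (T.cl μ m i j n).x0) ∨
    ((T.cl μ m i j n).x0 = (T.cl μ m i j n).x2 ∧ (T.cl μ m i j n).x1 ≠ (T.cl μ m i j n).x0 ∧
      (T.cl μ m i j n).y0 s ≠ (T.cl μ m i j n).y2 s) := by
  have hs' : |s - m| ≤ 1 - μ.ep := by linarith [μ.ep_lt]
  have hy : ∀ k, (((T.win m i j).toChain μ).y k) s = (Z3.of ((T.win m i j).y k) m).val μ (s - m) :=
    fun k => Z3.val_of μ _ hs'
  rcases h3.shape i j n m h0 h1 hm hm' hg with h | h
  · left
    unfold WC.straight at h
    simp only [Bool.or_eq_true, Bool.and_eq_true, beq_iff_eq] at h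
    have k : (T.cel i j n m).x1 - (T.cel i j n m).x0 = (T.cel i j n m).x2 - (T.cel i j n m).x1 ∧
        (T.cel i j n m).x1 ≠ (T.cel i j n m).x0 := by omega
    constructor
    · have := k.1
      change ((T.cel i j n m).x1 : ℝ) - (T.cel i j n m).x0 = (T.cel i j n m).x2 - (T.cel i j n m).x1
      exact_mod_cast this
    · have := k.2
      change ((T.cel i j n m).x1 : ℝ) ≠ (T.cel i j n m).x0
      exact_mod_cast this
  · right
    have hv := WC.val_ne (μ := μ) hs h
    unfold WC.fold at h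
    simp only [Bool.or_eq_true, Bool.and_eq_true, beq_iff_eq] at h
    have k : (T.cel i j n m).x0 = (T.cel i j n m).x2 ∧ (T.cel i j n m).x1 ≠ (T.cel i j n m).x0 := by omega
    refine ⟨?_, ?_, ?_⟩
    · have := k.1
      change ((T.cel i j n m).x0 : ℝ) = (T.cel i j n m).x2
      exact_mod_cast this
    · have := k.2
      change ((T.cel i j n m).x1 : ℝ) ≠ (T.cel i j n m).x0
      exact_mod_cast this
    · change (((T.win m i j).toChain μ).y (n - 1)) s ≠ (((T.win m i j).toChain μ).y (n + 1)) s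
      rw [hy, hy]
      exact hv

theorem cl_shape (h : T.Ok) (h2 : T.Ok2) (h3 : T.Ok3) (h0 : 0 ≤ n) (h1 : n ≤ T.len i j) (hm : 0 ≤ m) (hm' : m ≤ T.M)
    (hg : T.good i j n m) (hs0 : 0 < s) (hs : |s - m| ≤ 1 / 2) :
    ((T.cl μ m i j n).x1 - (T.cl μ m i j n).x0 = (T.cl μ m i j n).x2 - (T.cl μ m i j n).x1 ∧
      (T.cl μ m i j n).x1 ≠ (T.cl μ m i j n).x0) ∨
    ((T.cl μ m i j n).x0 = (T.cl μ m i j n).x2 ∧ (T.cl μ m i j n).x1 ≠ (T.cl μ m i j n).x0 ∧
      (T.cl μ m i j n).y0 s ≠ (T.cl μ m i j n).y2 s) := by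
  rcases hm.eq_or_lt with hz | hz
  · subst hz
    have hmA := h3.hA2
    have hAB := h.hAB
    have hBM := h.hBM
    have hw : T.win 0 i j = T.win 1 i j := by
      unfold win rA rB
      have e1 : decide ((0 : ℤ) < T.mA) = true := by
        rw [decide_eq_true_iff]
        omega
      have e2 : decide ((1 : ℤ) < T.mA) = true := by
        rw [decide_eq_true_iff]
        omega
      have e3 : decide (T.mB < (0 : ℤ)) = false := by
        rw [decide_eq_false_iff_not]
        omega
      have e4 : decide (T.mB < (1 : ℤ)) = false := by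
        rw [decide_eq_false_iff_not]
        omega
      rw [e1, e2, e3, e4]
    have hg1 : T.good i j n 1 := ⟨fun h5 => by omega, fun h5 => by omega⟩
    have k := cl_shape_one (μ := μ) (m := 1) (s := 1 / 2) h3 h0 h1 (le_refl 1) (by omega) hg1
      (by rw [abs_le]; push_cast; constructor <;> norm_num)
    have hcl : T.cl μ 0 i j n = T.cl μ 1 i j n := by
      unfold cl
      rw [hw]
    rw [hcl]
    rcases k with k | ⟨k1, k2, k3⟩
    · exact Or.inl k
    · refine Or.inr ⟨k1, k2, ?_⟩
      have hl := h.len2 i j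
      have row : ∀ q : ℤ, -1 ≤ q → q ≤ T.len i j + 1 → ∀ s : ℝ, 0 < s → s ≤ 1 / 2 →
          ((T.win 1 i j).toChain μ).y q s = s * ((T.win 1 i j).y q 1 : ℝ) := by
        intro q q0 q1 s s0 s1
        have o := ext_odd (i := i) (j := j) (n := q) h h2 (T.rA 1) (T.rB 1) q0 q1
        have o1 : (T.win 1 i j).y q 0 = 0 := o.1
        have o2 : (T.win 1 i j).y q (-1) = -(T.win 1 i j).y q 1 := o.2
        refine (μ.pl_odd (g := fun m => ((T.win 1 i j).y q m : ℝ)) (by simp [o1]) (by simp [o2]) ?_).1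
        rw [abs_of_pos s0]
        linarith [μ.ep_lt]
      change ((T.win 1 i j).toChain μ).y (n - 1) s ≠ ((T.win 1 i j).toChain μ).y (n + 1) s
      change ((T.win 1 i j).toChain μ).y (n - 1) (1 / 2) ≠ ((T.win 1 i j).toChain μ).y (n + 1) (1 / 2) at k3
      have hs2 : s ≤ 1 / 2 := by
        have := (abs_le.1 hs).2
        push_cast at this
        linarith
      rw [row _ (by omega) (by omega) s hs0 hs2, row _ (by omega) (by omega) s hs0 hs2]
      rw [row _ (by omega) (by omega) (1 / 2) (by norm_num) (le_refl _),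
        row _ (by omega) (by omega) (1 / 2) (by norm_num) (le_refl _)] at k3
      intro h5
      apply k3
      have h6 := mul_left_cancel₀ hs0.ne' h5
      rw [h6]
  · exact cl_shape_one h3 h0 h1 (by omega) hm' hg hs

end

end StripTab

/-- a chart which is a shifted cell -/
theorem QStrips.hasChart_of_cell (D : QStrips) {μ : Moll} {C : Cell} {n : ℤ} {θ s : ℝ} {U : Set (ℝ × ℝ)}
    (hsh : (C.x1 - C.x0 = C.x2 - C.x1 ∧ C.x1 ≠ C.x0) ∨ (C.x0 = C.x2 ∧ C.x1 ≠ C.x0 ∧ C.y0 s ≠ C.y2 s))
    (hU : IsOpen U) (hu : (θ, s) ∈ U) (hcarr : ∀ u ∈ U, C.pt μ (u.1 - n, u.2) ∈ D.carrier)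
    (hnames : ∀ i j, ∀ q ∈ D.dom i j, D.Φ i j q = C.pt μ (θ - n, s) → ∃ (N : Set (ℝ × ℝ)) (t : ℝ × ℝ → ℝ × ℝ),
      IsOpen N ∧ q ∈ N ∧ Continuous t ∧ t q = (θ, s) ∧ ∀ q' ∈ N ∩ D.dom i j, t q' ∈ U ∧
        C.pt μ ((t q').1 - n, (t q').2) = D.Φ i j q' ∧ C.prim μ ((t q').1 - n, (t q').2) = D.G i j q') :
    D.HasChart (C.pt μ (θ - n, s)) := by
  have hsc : ContDiff ℝ ∞ fun p : ℝ × ℝ => ((p.1 - n, p.2) : ℝ × ℝ) :=
    (contDiff_fst.sub contDiff_const).prodMk contDiff_snd
  have hfd : ∀ u v : ℝ × ℝ, fderiv ℝ (fun p : ℝ × ℝ => C.pt μ (p.1 - n, p.2)) u v =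
      fderiv ℝ (C.pt μ) (u.1 - n, u.2) v := fun u v => CellChain.fderiv_shift (C.pt_contDiff μ) n u v
  have hfg : ∀ u v : ℝ × ℝ, fderiv ℝ (fun p : ℝ × ℝ => C.prim μ (p.1 - n, p.2)) u v =
      fderiv ℝ (C.prim μ) (u.1 - n, u.2) v := fun u v => CellChain.fderiv_shift (C.prim_contDiff μ) n u v
  refine ⟨U, (θ, s), fun p => C.pt μ (p.1 - n, p.2), fun p => C.prim μ (p.1 - n, p.2), hU, hu,
    ((C.pt_contDiff μ).comp hsc).contDiffOn, ((C.prim_contDiff μ).comp hsc).contDiffOn, rfl, ?_, ?_, hcarr, ?_⟩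
  · intro v w hvw
    rw [hfd, hfd] at hvw
    exact C.pt_imm μ (θ - n, s) hsh hvw
  · intro u _ v
    rw [hfd, hfg]
    exact C.prim_fderiv μ _ v
  · intro i j q hq e
    obtain ⟨N, t, hN, hqN, ht, htq, h⟩ := hnames i j q hq e
    exact ⟨N, t, hN, hqN, ht.continuousOn, htq, h⟩

namespace StripTab

variable {T : StripTab} {μ : Moll} {EA EB : Bool → Bool → ℝ × ℝ → P4 × ℝ} {sA sB : ℝ}

/-- the lower part of the surface has local charts -/
theorem hasChart_low (h : T.Ok) (h2 : T.Ok2) (h3 : T.Ok3) (hEA : T.FitA μ EA) (hEB : T.FitB μ EB) (hA : T.GlueA EA sA)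
    (hB : T.GlueB EB sB) (hCA : T.ChartA EA) (hCB : T.ChartB EB) (D : QStrips) (hlen : ∀ i j, D.len i j = T.len i j)
    (hsA : D.sA = sA) (hsB : D.sB = sB) (hsT : (T.M : ℝ) + 3 / 4 ≤ D.sT)
    (hΦ : ∀ (i j : Bool) (θ s : ℝ), 0 ≤ θ → θ ≤ T.len i j → 0 < s → s < T.M + 3 / 4 →
      D.Φ i j (θ, s) = (T.F μ EA EB i j (θ, s)).1 ∧ D.G i j (θ, s) = (T.F μ EA EB i j (θ, s)).2)
    (p : P4) (hp : p ∈ D.carrier) (hps : p.2.1 ≤ T.M + 1 / 2) : D.HasChart p := by
  obtain ⟨i, hp1⟩ := mem_iUnion.1 hp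
  obtain ⟨j, ⟨θ, s⟩, ⟨⟨hθ0, hθ1'⟩, ⟨hs0, hsT'⟩⟩, hpe⟩ := mem_iUnion.1 hp1
  simp only at hθ0 hθ1' hs0 hsT'
  have htime := D.time i j θ s hθ0 hθ1' hs0 hsT'
  rw [hpe] at htime
  have hsM : s ≤ T.M + 1 / 2 := by rw [← htime]; exact hps
  have hθ1 : θ ≤ T.len i j := by rw [← hlen]; exact hθ1'
  have hsA' := abs_lt.1 hA.hs
  have hsB' := abs_lt.1 hB.hs
  have hmA := h.hA
  have hAB := h.hAB
  have hBM := h.hBM
  have hlr : ∀ i j, (2 : ℝ) ≤ T.len i j := fun i j => by exact_mod_cast h.len2 i j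
  obtain ⟨w0, w1, w2⟩ := w_mem (T := T) hs0 (by omega) (by linarith)
  have w3 := w_half (T := T) hs0 hsM
  have hmAr : (1 : ℝ) ≤ T.mA := by exact_mod_cast hmA
  have hABr : (T.mA : ℝ) + 1 ≤ T.mB := by
    have : T.mA + 1 ≤ T.mB := by omega
    exact_mod_cast this
  have hBMr : (T.mB : ℝ) + 1 ≤ T.M := by
    have : T.mB + 1 ≤ T.M := by omega
    exact_mod_cast this
  -- names of `p`
  have hname : ∀ i' j', ∀ q ∈ D.dom i' j', D.Φ i' j' q = p → q.2 = s ∧ 0 ≤ q.1 ∧ q.1 ≤ T.len i' j' ∧
      ((i = i' ∧ j = j' ∧ θ = q.1) ∨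
      (θ = 0 ∧ q.1 = 0 ∧ ((s ≤ sA ∧ i = i') ∨ (sA ≤ s ∧ j = j') ∨ s = sA)) ∨
      (θ = T.len i j ∧ q.1 = T.len i' j' ∧ ((s ≤ sB ∧ j = j') ∨ (sB ≤ s ∧ i = i') ∨ s = sB))) := by
    rintro i' j' ⟨θ', s'⟩ ⟨⟨k0, k1⟩, ⟨k2, k3⟩⟩ e
    simp only at k0 k1 k2 k3
    have ht := D.time i' j' θ' s' k0 k1 k2 k3
    rw [e, htime] at ht
    have hss : s' = s := ht.symm
    subst hss
    have := D.inj i j θ i' j' θ' s' hθ0 hθ1' k0 k1 hs0 (by linarith) (by rw [hpe, e])
    rw [hlen, hlen, hsA, hsB] at this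
    exact ⟨rfl, k0, by rw [← hlen]; exact k1, this⟩
  -- membership in the carrier
  have hmem : ∀ (i j : Bool) (θ s : ℝ), 0 ≤ θ → θ ≤ T.len i j → 0 < s → s < T.M + 3 / 4 →
      (T.F μ EA EB i j (θ, s)).1 ∈ D.carrier := by
    intro i j θ s k0 k1 k2 k3
    refine mem_iUnion.2 ⟨i, mem_iUnion.2 ⟨j, (θ, s), ⟨⟨k0, ?_⟩, ⟨k2, ?_⟩⟩, (hΦ i j θ s k0 k1 k2 k3).1⟩⟩
    · simp only
      rw [hlen]
      exact k1
    · simp only
      linarith
  -- the cells
  have hcell : ∀ {i j : Bool} {n : ℤ} {θ' s' : ℝ}, 0 ≤ n → n ≤ T.len i j → T.good i j n (T.w s) → 0 ≤ θ' →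
      θ' ≤ T.len i j → |θ' - n| < 3 / 4 → 0 < s' → s' < T.M + 3 / 4 → |s' - T.w s| < 3 / 4 →
      T.F μ EA EB i j (θ', s') = (T.cl μ (T.w s) i j n).pp μ (θ' - n, s') :=
    fun k0 k1 k2 k3 k4 k5 k6 k7 k8 => F_cell h hEA hEB k0 k1 w0 w1 k2 k3 k4 k5 k6 k7 k8
  have hO : IsOpen {u : ℝ × ℝ | |u.2 - T.w s| < 3 / 4 ∧ 0 < u.2 ∧ u.2 < T.M + 3 / 4} := by
    have c1 : Continuous fun u : ℝ × ℝ => |u.2 - T.w s| := by fun_prop
    exact (isOpen_lt c1 continuous_const).inter
      ((isOpen_lt continuous_const continuous_snd).inter (isOpen_lt continuous_snd continuous_const))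
  rcases h.cases (T.w s) hθ0 hθ1 with ⟨n, k0, k1, kg, kn⟩ | ⟨hm, hθ⟩ | ⟨hm, hθ⟩
  · have kn' := abs_le.1 kn
    have hpC : p = (T.cl μ (T.w s) i j n).pt μ (θ - n, s) := by
      rw [← hpe, (hΦ i j θ s hθ0 hθ1 hs0 (by linarith)).1,
        hcell k0 k1 kg hθ0 hθ1 (by linarith) hs0 (by linarith) w2]
      rfl
    have hsh := cl_shape (μ := μ) h h2 h3 k0 k1 w0 w1 kg hs0 w3
    have hnC : IsOpen {u : ℝ × ℝ | |u.1 - n| < 3 / 4} := by
      have c1 : Continuous fun u : ℝ × ℝ => |u.1 - n| := by fun_prop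
      exact isOpen_lt c1 continuous_const
    rcases hθ0.eq_or_lt with hz | hz
    · -- the line `A`
      subst hz
      have hn0 : n = 0 := by
        have h5 : (n : ℝ) < 1 := by linarith [kn'.1]
        have h6 : n < 1 := by exact_mod_cast h5
        omega
      subst hn0
      have hw : T.w s ≠ T.mA := fun h5 => kg.1 ⟨h5, rfl⟩
      set P := prt (T.rA (T.w s)) i j with hP
      have kgP : T.good P.1 P.2 0 (T.w s) := ⟨fun h5 => hw h5.1, fun h5 => by
        have := h.len2 P.1 P.2
        omega⟩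
      rw [hpC]
      refine D.hasChart_of_cell (U := {u : ℝ × ℝ | |u.1 - (0 : ℤ)| < 3 / 4} ∩
        {u : ℝ × ℝ | |u.2 - T.w s| < 3 / 4 ∧ 0 < u.2 ∧ u.2 < T.M + 3 / 4}) hsh (hnC.inter hO)
        ⟨by simp only [mem_setOf_eq]; linarith, w2, hs0, by simp only; linarith⟩ ?_ ?_
      · rintro ⟨θ', s'⟩ ⟨hu1, hu2, hu3, hu4⟩
        simp only [mem_setOf_eq] at hu1 hu2 hu3 hu4
        have hu1' := abs_lt.1 hu1
        push_cast at hu1'
        rcases le_or_gt 0 θ' with h5 | h5
        · have h6 := hcell (n := 0) (θ' := θ') (s' := s') (le_refl 0) k1 kg h5 (by linarith [hlr i j]) hu1 hu3 hu4 hu2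
          have h7 := hmem i j θ' s' h5 (by linarith [hlr i j]) hu3 hu4
          rw [h6] at h7
          exact h7
        · have h6 := hcell (i := P.1) (j := P.2) (n := 0) (θ' := -θ') (s' := s') (le_refl 0)
            (by have := h.len2 P.1 P.2; omega) kgP
            (by linarith) (by linarith [hlr P.1 P.2]) (by push_cast; rw [abs_lt]; constructor <;> linarith) hu3 hu4 hu2
          have h7 := hmem P.1 P.2 (-θ') s' (by linarith) (by linarith [hlr P.1 P.2]) hu3 hu4
          have h8 := flipA_pp (μ := μ) (i := i) (j := j) h h2 w0 w1 hw (v := -θ' - (0 : ℤ)) hu2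
          rw [h6, h8] at h7
          have e : (-(-θ' - ((0 : ℤ) : ℝ)), s') = (θ' - ((0 : ℤ) : ℝ), s') := by
            push_cast
            simp
          rw [e] at h7
          exact h7
      · intro i' j' q hq e
        rw [← hpC] at e
        obtain ⟨e1, e2, e3, e4⟩ := hname i' j' q hq e
        have hq0 : q.1 = 0 := by
          rcases e4 with ⟨-, -, e4⟩ | ⟨-, e4, -⟩ | ⟨e4, -, -⟩
          · exact e4.symm
          · exact e4
          · linarith [hlr i j]
        have hqe : q = (0, s) := Prod.ext hq0 e1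
        have hij : (i', j') = (i, j) ∨ (i', j') = P := by
          rcases e4 with ⟨e4, e5, -⟩ | ⟨-, -, e4⟩ | ⟨e4, -, -⟩
          · left
            rw [e4, e5]
          · rcases lt_or_gt_of_ne hw with h5 | h5
            · have h6 := w_lt (T := T) (m := T.mA) (by omega) h5
              have er : T.rA (T.w s) = true := by
                unfold rA
                rw [decide_eq_true_iff]
                exact h5
              have ei : i = i' := by
                rcases e4 with ⟨-, e4⟩ | ⟨e4, -⟩ | e4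
                · exact e4
                · linarith
                · linarith
              rw [hP, er, prt_true, ← ei]
              cases j <;> cases j' <;> simp
            · have h6 := w_gt (T := T) h5
              have er : T.rA (T.w s) = false := by
                unfold rA
                rw [decide_eq_false_iff_not]
                omega
              have ej : j = j' := by
                rcases e4 with ⟨e4, -⟩ | ⟨-, e4⟩ | e4
                · linarith
                · exact e4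
                · linarith
              rw [hP, er, prt_false, ← ej]
              cases i <;> cases i' <;> simp
          · linarith [hlr i j]
        have hNo : IsOpen ({u : ℝ × ℝ | |u.1 - (0 : ℤ)| < 3 / 4} ∩
            {u : ℝ × ℝ | |u.2 - T.w s| < 3 / 4 ∧ 0 < u.2 ∧ u.2 < T.M + 3 / 4}) := hnC.inter hO
        rcases hij with hij | hij
        · have ei : i' = i := congrArg Prod.fst hij
          have ej : j' = j := congrArg Prod.snd hij
          subst ei ej
          refine ⟨_, id, hNo, ?_, continuous_id, hqe, ?_⟩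
          · rw [hqe]
            exact ⟨by simp only [mem_setOf_eq]; linarith, w2, hs0, by simp only; linarith⟩
          · rintro ⟨θ', s'⟩ ⟨⟨hu1, hu2, hu3, hu4⟩, ⟨⟨hu5, -⟩, -⟩⟩
            simp only [mem_setOf_eq] at hu1 hu2 hu3 hu4 hu5
            have hu1' := abs_lt.1 hu1
            push_cast at hu1'
            have h6 := hcell (n := 0) (θ' := θ') (s' := s') (le_refl 0) k1 kg hu5 (by linarith [hlr i' j']) hu1 hu3
              hu4 hu2
            have h7 := hΦ i' j' θ' s' hu5 (by linarith [hlr i' j']) hu3 hu4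
            rw [h6] at h7
            exact ⟨⟨hu1, hu2, hu3, hu4⟩, h7.1.symm, h7.2.symm⟩
        · have ei : i' = P.1 := congrArg Prod.fst hij
          have ej : j' = P.2 := congrArg Prod.snd hij
          refine ⟨_, fun u => (-u.1, u.2), hNo, ?_, by fun_prop, ?_, ?_⟩
          · rw [hqe]
            exact ⟨by simp only [mem_setOf_eq]; linarith, w2, hs0, by simp only; linarith⟩
          · rw [hqe]
            simp
          · rintro ⟨θ', s'⟩ ⟨⟨hu1, hu2, hu3, hu4⟩, ⟨⟨hu5, -⟩, -⟩⟩
            simp only [mem_setOf_eq] at hu1 hu2 hu3 hu4 hu5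
            have hu1' := abs_lt.1 hu1
            push_cast at hu1'
            have h6 := hcell (i := P.1) (j := P.2) (n := 0) (θ' := θ') (s' := s') (le_refl 0)
              (by have := h.len2 P.1 P.2; omega) kgP hu5 (by linarith [hlr P.1 P.2]) hu1 hu3 hu4 hu2
            have h7 := hΦ P.1 P.2 θ' s' hu5 (by linarith [hlr P.1 P.2]) hu3 hu4
            have h8 := flipA_pp (μ := μ) (i := i) (j := j) h h2 w0 w1 hw (v := θ' - (0 : ℤ)) hu2
            rw [h6, h8] at h7
            have e' : (-(θ' - ((0 : ℤ) : ℝ)), s') = (-θ' - ((0 : ℤ) : ℝ), s') := by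
              push_cast
              simp
            rw [e', ← ei, ← ej] at h7
            refine ⟨⟨?_, hu2, hu3, hu4⟩, h7.1.symm, h7.2.symm⟩
            simp only [mem_setOf_eq]
            push_cast
            rw [abs_lt]
            constructor <;> linarith
    · rcases hθ1.eq_or_lt with hz1 | hz1
      · -- the line `B`
        have hnl : n = T.len i j := by
          have h5 : ((T.len i j - 1 : ℤ) : ℝ) < n := by
            push_cast
            linarith [kn'.2]
          have h6 : T.len i j - 1 < n := by exact_mod_cast h5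
          omega
        subst hnl
        have hw : T.w s ≠ T.mB := fun h5 => kg.2 ⟨h5, rfl⟩
        set P := prt (T.rB (T.w s)) i j with hP
        set l := T.len i j with hl
        set l' := T.len P.1 P.2 with hl'
        have kgP : T.good P.1 P.2 l' (T.w s) := ⟨fun h5 => by
          have := h.len2 P.1 P.2
          omega, fun h5 => hw h5.1⟩
        have hl2 : (2 : ℝ) ≤ l := hlr i j
        have hl2' : (2 : ℝ) ≤ l' := hlr P.1 P.2
        have hl2z : 2 ≤ l' := h.len2 P.1 P.2
        rw [hpC]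
        refine D.hasChart_of_cell (U := {u : ℝ × ℝ | |u.1 - l| < 3 / 4} ∩
          {u : ℝ × ℝ | |u.2 - T.w s| < 3 / 4 ∧ 0 < u.2 ∧ u.2 < T.M + 3 / 4}) hsh (hnC.inter hO)
          ⟨by simp only [mem_setOf_eq]; linarith, w2, hs0, by simp only; linarith⟩ ?_ ?_
        · rintro ⟨θ', s'⟩ ⟨hu1, hu2, hu3, hu4⟩
          simp only [mem_setOf_eq] at hu1 hu2 hu3 hu4
          have hu1' := abs_lt.1 hu1
          rcases le_or_gt θ' l with h5 | h5
          · have h6 := hcell (n := l) (θ' := θ') (s' := s') k0 k1 kg (by linarith) h5 hu1 hu3 hu4 hu2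
            have h7 := hmem i j θ' s' (by linarith) h5 hu3 hu4
            rw [h6] at h7
            exact h7
          · have h6 := hcell (i := P.1) (j := P.2) (n := l') (θ' := l' - (θ' - l)) (s' := s') (by omega) (le_refl _) kgP
              (by linarith) (by linarith) (by rw [abs_lt]; constructor <;> linarith) hu3 hu4 hu2
            have h7 := hmem P.1 P.2 (l' - (θ' - l)) s' (by linarith) (by linarith) hu3 hu4
            have h8 := flipB_pp (μ := μ) (i := i) (j := j) h h2 w0 w1 hw (v := l' - (θ' - l) - l') hu2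
            rw [h6, h8] at h7
            have e : (-((l' : ℝ) - (θ' - l) - l'), s') = (θ' - l, s') := by
              congr 1
              ring
            rw [e] at h7
            exact h7
        · intro i' j' q hq e
          rw [← hpC] at e
          obtain ⟨e1, e2, e3, e4⟩ := hname i' j' q hq e
          have hql : q.1 = T.len i' j' := by
            rcases e4 with ⟨e4, e5, e6⟩ | ⟨e4, -, -⟩ | ⟨-, e4, -⟩
            · rw [← e4, ← e5, ← e6]
              exact hz1
            · linarith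
            · exact e4
          have hqe : q = ((T.len i' j' : ℝ), s) := Prod.ext hql e1
          have hij : (i', j') = (i, j) ∨ (i', j') = P := by
            rcases e4 with ⟨e4, e5, -⟩ | ⟨e4, -, -⟩ | ⟨-, -, e4⟩
            · left
              rw [e4, e5]
            · linarith
            · rcases lt_or_gt_of_ne hw with h5 | h5
              · have h6 := w_lt (T := T) (m := T.mB) (by omega) h5
                have er : T.rB (T.w s) = false := by
                  unfold rB
                  rw [decide_eq_false_iff_not]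
                  omega
                have ej : j = j' := by
                  rcases e4 with ⟨-, e4⟩ | ⟨e4, -⟩ | e4
                  · exact e4
                  · linarith
                  · linarith
                rw [hP, er, prt_false, ← ej]
                cases i <;> cases i' <;> simp
              · have h6 := w_gt (T := T) h5
                have er : T.rB (T.w s) = true := by
                  unfold rB
                  rw [decide_eq_true_iff]
                  exact h5
                have ei : i = i' := by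
                  rcases e4 with ⟨e4, -⟩ | ⟨-, e4⟩ | e4
                  · linarith
                  · exact e4
                  · linarith
                rw [hP, er, prt_true, ← ei]
                cases j <;> cases j' <;> simp
          rcases hij with hij | hij
          · have ei : i' = i := congrArg Prod.fst hij
            have ej : j' = j := congrArg Prod.snd hij
            subst ei ej
            refine ⟨_, id, hnC.inter hO, ?_, continuous_id, by rw [hqe, hz1]; rfl, ?_⟩
            · rw [hqe]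
              exact ⟨by simp only [mem_setOf_eq]; rw [← hl, sub_self, abs_zero]; norm_num, w2, hs0,
                by simp only; linarith⟩
            · rintro ⟨θ', s'⟩ ⟨⟨hu1, hu2, hu3, hu4⟩, ⟨⟨-, hu5⟩, -⟩⟩
              simp only [mem_setOf_eq] at hu1 hu2 hu3 hu4 hu5
              rw [hlen] at hu5
              have hu1' := abs_lt.1 hu1
              have h6 := hcell (n := l) (θ' := θ') (s' := s') k0 k1 kg (by linarith) hu5 hu1 hu3 hu4 hu2
              have h7 := hΦ i' j' θ' s' (by linarith) hu5 hu3 hu4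
              rw [h6] at h7
              exact ⟨⟨hu1, hu2, hu3, hu4⟩, h7.1.symm, h7.2.symm⟩
          · have ei : i' = P.1 := congrArg Prod.fst hij
            have ej : j' = P.2 := congrArg Prod.snd hij
            have hlij : T.len i' j' = l' := by rw [ei, ej]
            have hNo' : IsOpen ({u : ℝ × ℝ | |u.1 - l'| < 3 / 4} ∩
                {u : ℝ × ℝ | |u.2 - T.w s| < 3 / 4 ∧ 0 < u.2 ∧ u.2 < T.M + 3 / 4}) := by
              have c1 : Continuous fun u : ℝ × ℝ => |u.1 - l'| := by fun_prop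
              exact (isOpen_lt c1 continuous_const).inter hO
            refine ⟨_, fun u => (l + l' - u.1, u.2), hNo', ?_, by fun_prop, ?_, ?_⟩
            · rw [hqe, hlij]
              exact ⟨by simp only [mem_setOf_eq]; rw [sub_self, abs_zero]; norm_num, w2, hs0, by simp only; linarith⟩
            · rw [hqe, hlij]
              simp [hz1]
            · rintro ⟨θ', s'⟩ ⟨⟨hu1, hu2, hu3, hu4⟩, ⟨⟨-, hu5⟩, -⟩⟩
              simp only [mem_setOf_eq] at hu1 hu2 hu3 hu4 hu5
              rw [hlen, hlij] at hu5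
              have hu1' := abs_lt.1 hu1
              have h6 := hcell (i := P.1) (j := P.2) (n := l') (θ' := θ') (s' := s') (by omega) (le_refl _) kgP
                (by linarith) hu5 hu1 hu3 hu4 hu2
              have h7 := hΦ P.1 P.2 θ' s' (by linarith) hu5 hu3 hu4
              have h8 := flipB_pp (μ := μ) (i := i) (j := j) h h2 w0 w1 hw (v := θ' - l') hu2
              rw [h6, h8] at h7
              have e' : (-(θ' - (l' : ℝ)), s') = (l + l' - θ' - (l : ℝ), s') := by
                congr 1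
                ring
              rw [e', ← ei, ← ej] at h7
              refine ⟨⟨?_, hu2, hu3, hu4⟩, h7.1.symm, h7.2.symm⟩
              simp only [mem_setOf_eq]
              rw [abs_lt]
              constructor <;> linarith
      · -- interior points
        rw [hpC]
        have hI : IsOpen {u : ℝ × ℝ | 0 < u.1 ∧ u.1 < T.len i j} :=
          (isOpen_lt continuous_const continuous_fst).inter (isOpen_lt continuous_fst continuous_const)
        refine D.hasChart_of_cell (U := ({u : ℝ × ℝ | |u.1 - n| < 3 / 4} ∩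
          {u : ℝ × ℝ | |u.2 - T.w s| < 3 / 4 ∧ 0 < u.2 ∧ u.2 < T.M + 3 / 4}) ∩
          {u : ℝ × ℝ | 0 < u.1 ∧ u.1 < T.len i j}) hsh ((hnC.inter hO).inter hI)
          ⟨⟨by simp only [mem_setOf_eq]; linarith, w2, hs0, by simp only; linarith⟩, hz, hz1⟩ ?_ ?_
        · rintro ⟨θ', s'⟩ ⟨⟨hu1, hu2, hu3, hu4⟩, hu5, hu6⟩
          simp only [mem_setOf_eq] at hu1 hu2 hu3 hu4 hu5 hu6
          have h6 := hcell (θ' := θ') (s' := s') k0 k1 kg hu5.le hu6.le hu1 hu3 hu4 hu2
          have h7 := hmem i j θ' s' hu5.le hu6.le hu3 hu4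
          rw [h6] at h7
          exact h7
        · intro i' j' q hq e
          rw [← hpC] at e
          obtain ⟨e1, e2, e3, e4⟩ := hname i' j' q hq e
          rcases e4 with ⟨e4, e5, e6⟩ | ⟨e4, -, -⟩ | ⟨e4, -, -⟩
          · subst e4 e5
            refine ⟨_, id, (hnC.inter hO).inter hI, ?_, continuous_id, Prod.ext e6.symm e1, ?_⟩
            · have hqe : q = (θ, s) := Prod.ext e6.symm e1
              rw [hqe]
              exact ⟨⟨by simp only [mem_setOf_eq]; linarith, w2, hs0, by simp only; linarith⟩, hz, hz1⟩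
            · rintro ⟨θ', s'⟩ ⟨⟨⟨hu1, hu2, hu3, hu4⟩, hu5, hu6⟩, -⟩
              simp only [mem_setOf_eq] at hu1 hu2 hu3 hu4 hu5 hu6
              have h6 := hcell (θ' := θ') (s' := s') k0 k1 kg hu5.le hu6.le hu1 hu3 hu4 hu2
              have h7 := hΦ i j θ' s' hu5.le hu6.le hu3 hu4
              rw [h6] at h7
              exact ⟨⟨⟨hu1, hu2, hu3, hu4⟩, hu5, hu6⟩, h7.1.symm, h7.2.symm⟩
          · linarith
          · linarith
  · -- the saddle `A`
    have hwr : (T.w s : ℝ) = T.mA := by rw [hm]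
    rw [hwr] at w2
    have w2' := abs_lt.1 w2
    have hpE : p = (EA i j (θ, s)).1 := by
      rw [← hpe, (hΦ i j θ s hθ0 hθ1 hs0 (by linarith)).1, F_endA h hEA hEB hθ0 hθ.le hs0 w2]
    rw [hpE]
    refine D.hasChart_of_loc (hCA i j θ s hθ0 hθ w2) id (fun _ => Homeomorph.refl _) ?_ ?_
    · rintro ⟨a, b⟩ ⟨θ', s'⟩ ⟨⟨u1, u2⟩, ⟨u3, u4⟩⟩
      simp only at u1 u2 u3 u4
      have u5 : |s' - T.mA| < 3 / 4 := by rw [abs_lt]; constructor <;> linarith
      have u6 := hΦ a b θ' s' u1 (by linarith [hlr a b]) (by linarith) (by linarith)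
      rw [F_endA h hEA hEB u1 u2.le (by linarith) u5] at u6
      refine ⟨⟨⟨u1, ?_⟩, ⟨?_, ?_⟩⟩, u6.1, u6.2⟩
      · change θ' ≤ D.len a b
        rw [hlen]
        linarith [hlr a b]
      · change 0 < s'
        linarith
      · change s' ≤ D.sT
        linarith
    · intro i' j' q hq e
      rw [← hpE] at e
      obtain ⟨e1, e2, e3, e4⟩ := hname i' j' q hq e
      have hq1 : q.1 < 1 / 2 := by
        rcases e4 with ⟨-, -, e6⟩ | ⟨-, e4, -⟩ | ⟨e4, -, -⟩
        · rw [← e6]
          exact hθ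
        · rw [e4]
          norm_num
        · linarith [hlr i j]
      refine ⟨(i', j'), rfl, {u | u.1 < 1 / 2} ∩ {u | |u.2 - T.mA| < 3 / 4}, ?_, ⟨hq1, ?_⟩, ?_⟩
      · have c1 : Continuous fun u : ℝ × ℝ => |u.2 - T.mA| := by fun_prop
        exact (isOpen_lt continuous_fst continuous_const).inter (isOpen_lt c1 continuous_const)
      · simp only [mem_setOf_eq]
        rw [e1]
        exact w2
      · rintro ⟨θ', s'⟩ ⟨⟨u1, u2⟩, ⟨⟨u3, -⟩, -⟩⟩
        simp only [mem_setOf_eq] at u1 u2 u3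
        have u2' := abs_lt.1 u2
        exact ⟨⟨u3, u1⟩, ⟨by simp only [Homeomorph.refl_symm, Homeomorph.refl_apply, id]; linarith,
          by simp only [Homeomorph.refl_symm, Homeomorph.refl_apply, id]; linarith⟩⟩
  · -- the saddle `B`
    have hwr : (T.w s : ℝ) = T.mB := by rw [hm]
    rw [hwr] at w2
    have w2' := abs_lt.1 w2
    have hpE : p = (EB i j (T.len i j - θ, s)).1 := by
      rw [← hpe, (hΦ i j θ s hθ0 hθ1 hs0 (by linarith)).1, F_endB h hEA hEB hθ.le hθ1 hs0 w2]
    rw [hpE]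
    refine D.hasChart_of_loc (hCB i j (T.len i j - θ) s (by linarith) (by linarith) w2) id
      (fun k => flipHomeo (T.len k.1 k.2)) ?_ ?_
    · rintro ⟨a, b⟩ ⟨θ', s'⟩ ⟨⟨u1, u2⟩, ⟨u3, u4⟩⟩
      simp only at u1 u2 u3 u4
      have u5 : |s' - T.mB| < 3 / 4 := by rw [abs_lt]; constructor <;> linarith
      have hab := hlr a b
      have u6 := hΦ a b (T.len a b - θ') s' (by linarith) (by linarith) (by linarith) (by linarith)
      rw [F_endB h hEA hEB (by linarith) (by linarith) (by linarith) u5, sub_sub_cancel] at u6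
      refine ⟨⟨⟨?_, ?_⟩, ⟨?_, ?_⟩⟩, u6.1, u6.2⟩
      · change 0 ≤ (T.len a b : ℝ) - θ'
        linarith
      · change (T.len a b : ℝ) - θ' ≤ D.len a b
        rw [hlen]
        linarith
      · change 0 < s'
        linarith
      · change s' ≤ D.sT
        linarith
    · intro i' j' q hq e
      rw [← hpE] at e
      obtain ⟨e1, e2, e3, e4⟩ := hname i' j' q hq e
      have hq1 : T.len i' j' - 1 / 2 < q.1 := by
        rcases e4 with ⟨e4, e5, e6⟩ | ⟨e4, -, -⟩ | ⟨-, e4, -⟩
        · rw [← e4, ← e5, ← e6]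
          exact hθ
        · linarith [hlr i j]
        · rw [e4]
          linarith
      refine ⟨(i', j'), rfl, {u | (T.len i' j' : ℝ) - 1 / 2 < u.1} ∩ {u | |u.2 - T.mB| < 3 / 4}, ?_, ⟨hq1, ?_⟩, ?_⟩
      · have c1 : Continuous fun u : ℝ × ℝ => |u.2 - T.mB| := by fun_prop
        exact (isOpen_lt continuous_const continuous_fst).inter (isOpen_lt c1 continuous_const)
      · simp only [mem_setOf_eq]
        rw [e1]
        exact w2
      · rintro ⟨θ', s'⟩ ⟨⟨u1, u2⟩, ⟨⟨-, u3⟩, -⟩⟩
        simp only [mem_setOf_eq] at u1 u2 u3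
        rw [hlen] at u3
        have u2' := abs_lt.1 u2
        refine ⟨⟨?_, ?_⟩, ⟨?_, ?_⟩⟩
        · change 0 ≤ (T.len i' j' : ℝ) - θ'
          linarith
        · change (T.len i' j' : ℝ) - θ' < 1 / 2
          linarith
        · change (T.mB : ℝ) - 3 / 4 < s'
          linarith
        · change s' < (T.mB : ℝ) + 3 / 4
          linarith

end StripTab

end Pool.Agent.Lib_MP_59ec1f_cap
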