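import Pool.Agent.Lib_MP_59ec1f_cap.SadFit
import Pool.Agent.Lib_MP_59ec1f_cap.LowInj

/-!
# The ends at the saddles: injectivity and charts
-/

set_option autoImplicit false

open Set
open scoped ContDiff Topology

namespace Pool.Agent.Lib_MP_59ec1f_cap

namespace StripTab

variable {T : StripTab} {μ : Moll} {K : ℤ}

theorem injA (h : T.Ok) (hA : T.endA.Ok T.mA true K) :
    T.InjA μ ((T.endA.win μ T.mA true K hA).ep μ) (EndTab.sw μ hA) where
  inj i j i' j' ρ ρ' s hs h0 h1 h0' h1' he := by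
    rcases EndTab.win_inj hA hs h0 h1 h0' h1' he with h2 | ⟨r, r', h2⟩
    · exact Or.inl h2
    · refine Or.inr ⟨r, r', ?_⟩
      rw [sg_true, one_mul] at h2
      rcases h2 with ⟨h3, h4⟩ | ⟨h3, h4⟩ | h3
      · exact Or.inl ⟨by linarith, h4⟩
      · exact Or.inr (Or.inl ⟨by linarith, h4⟩)
      · exact Or.inr (Or.inr h3)
  hull i j ρ s hs h0 h1 := by
    have hl := h.len2 i j
    exact endA_hull hA i j (by omega) h0 h1 (by linarith)
  col i j ρ s _ h0 h1 := by
    have h2 := EndTab.endPt_x (μ := μ) (s := s) hA i j h0 h1.le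
    have e : (T.x i j 0 : ℝ) = (T.endA.x0 true true : ℝ) := by
      have := (hA.2.2 i j).1
      exact_mod_cast this
    rw [e]
    refine lt_of_le_of_ne h2.1 fun h3 => ?_
    exact absurd (h2.2 h3) h1.ne

theorem injB (h : T.Ok) (hB : T.endB.Ok T.mB false K) :
    T.InjB μ ((T.endB.win μ T.mB false K hB).ep μ) (EndTab.sw μ hB) where
  inj i j i' j' ρ ρ' s hs h0 h1 h0' h1' he := by
    rcases EndTab.win_inj hB hs h0 h1 h0' h1' he with h2 | ⟨r, r', h2⟩
    · exact Or.inl h2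
    · refine Or.inr ⟨r, r', ?_⟩
      rw [sg_false] at h2
      rcases h2 with ⟨h3, h4⟩ | ⟨h3, h4⟩ | h3
      · exact Or.inr (Or.inl ⟨by linarith, h4⟩)
      · exact Or.inl ⟨by linarith, h4⟩
      · exact Or.inr (Or.inr h3)
  hull i j ρ s hs h0 h1 := by
    have hl := h.len2 i j
    exact endB_hull hB i j (by omega) h0 h1 (by linarith)
  col i j ρ s _ h0 h1 := by
    have h2 := EndTab.endPt_x (μ := μ) (s := s) hB i j h0 h1.le
    have e : (T.x i j (T.len i j) : ℝ) = (T.endB.x0 true true : ℝ) := by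
      have := (hB.2.2 i j).1
      exact_mod_cast this
    rw [e]
    refine lt_of_le_of_ne h2.1 fun h3 => ?_
    exact absurd (h2.2 h3) h1.ne

/-- the charts near the saddle vertex `A` in the window `mA` -/
theorem locA (hA : T.endA.Ok T.mA true K) (i j : Bool) {ρ s : ℝ} (h0 : 0 ≤ ρ) (h1 : ρ < 1 / 2)
    (hs : |s - T.mA| < 3 / 4) :
    LocChart (ι := Bool × Bool) (fun k p => ((T.endA.win μ T.mA true K hA).ep μ k.1 k.2 p).1)
      (fun k p => ((T.endA.win μ T.mA true K hA).ep μ k.1 k.2 p).2)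
      (fun _ => Ico (0 : ℝ) (1 / 2) ×ˢ Ioo ((T.mA : ℝ) - 3 / 4) (T.mA + 3 / 4))
      ((T.endA.win μ T.mA true K hA).ep μ i j (ρ, s)).1 :=
  SadWin.locChart i j h0 h1 (EndTab.mem_win hA hs)

/-- the charts near the saddle vertex `B` in the window `mB` -/
theorem locB (hB : T.endB.Ok T.mB false K) (i j : Bool) {ρ s : ℝ} (h0 : 0 ≤ ρ) (h1 : ρ < 1 / 2)
    (hs : |s - T.mB| < 3 / 4) :
    LocChart (ι := Bool × Bool) (fun k p => ((T.endB.win μ T.mB false K hB).ep μ k.1 k.2 p).1)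
      (fun k p => ((T.endB.win μ T.mB false K hB).ep μ k.1 k.2 p).2)
      (fun _ => Ico (0 : ℝ) (1 / 2) ×ˢ Ioo ((T.mB : ℝ) - 3 / 4) (T.mB + 3 / 4))
      ((T.endB.win μ T.mB false K hB).ep μ i j (ρ, s)).1 :=
  SadWin.locChart i j h0 h1 (EndTab.mem_win hB hs)

end StripTab

end Pool.Agent.Lib_MP_59ec1f_cap
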