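import Mathlib

/-!
# The mollified positive part

`Moll` collects the properties of a smooth function `S` with `S v = 0` for `v ≤ -ep`, `S v = v` for `v ≥ ep`.
All curves of the construction are made with it:

* `tri μ a b c u = b + (c - b) S u - (b - a) S (-u)` is the mollified piecewise linear function through the
  values `a, b, c` at the nodes `-1, 0, 1` (exact for `|u| ≤ 1 - ep`).
* `Q v = S v + S (-v)` is the mollified absolute value.
-/

set_option autoImplicit false

open scoped ContDiff
open Set MeasureTheory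

namespace Pool.Agent.Lib_MP_59ec1f_cap

/-- a mollified positive part -/
structure Moll where
  ep : ℝ
  S : ℝ → ℝ
  ep_pos : 0 < ep
  ep_lt : ep < 1 / 4
  smooth : ContDiff ℝ ∞ S
  left : ∀ v, v ≤ -ep → S v = 0
  right : ∀ v, ep ≤ v → S v = v
  refl : ∀ v, S v - S (-v) = v
  dpos : ∀ v, -ep < v → 0 < deriv S v
  dgt : ∀ v, 0 < v → 1 / 2 < deriv S v
  quad : ∃ b > 0, ∃ r > 0, ∀ v, |v| < r → S v = S 0 + v / 2 + b * v ^ 2
  area : ∫ v in (-(1 / 2) : ℝ)..(1 / 2), S v * deriv S (-v) = 1 / 1600

private noncomputable def bmp : ContDiffBump (0 : ℝ) := ⟨1 / 2, 1, by norm_num, by norm_num⟩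

private noncomputable def c0 : ℝ := ∫ t in (-1 : ℝ)..1, bmp t

private theorem bmp_cont : Continuous fun t : ℝ => bmp t := bmp.continuous

private theorem bmp_pos {t : ℝ} (h : t ∈ Ioo (-1 : ℝ) 1) : 0 < bmp t := by
  apply ContDiffBump.pos_of_mem_ball
  rw [Real.ball_eq_Ioo]
  simpa [bmp] using h

private theorem bmp_zero {t : ℝ} (h : 1 ≤ |t|) : bmp t = 0 := by
  apply ContDiffBump.zero_of_le_dist
  simpa [bmp, Real.dist_eq] using h

private theorem bmp_one {t : ℝ} (h : |t| ≤ 1 / 2) : bmp t = 1 := by
  apply ContDiffBump.one_of_mem_closedBall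
  simpa [bmp, Real.dist_eq] using h

private theorem bmp_even (t : ℝ) : bmp (-t) = bmp t := ContDiffBump.neg _ _

private theorem c0_pos : 0 < c0 := by
  apply intervalIntegral.intervalIntegral_pos_of_pos_on (bmp_cont.intervalIntegrable _ _) (fun t ht => bmp_pos ht)
  norm_num

private noncomputable def be (t : ℝ) : ℝ := bmp t / c0

private theorem be_cont : Continuous be := bmp_cont.div_const _

private theorem be_smooth : ContDiff ℝ ∞ be := by
  have : ContDiff ℝ ∞ fun t : ℝ => bmp t := bmp.contDiff
  exact this.div_const _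

private theorem be_even (t : ℝ) : be (-t) = be t := by simp [be, bmp_even]

private theorem be_pos {t : ℝ} (h : t ∈ Ioo (-1 : ℝ) 1) : 0 < be t := div_pos (bmp_pos h) c0_pos

private theorem be_zero {t : ℝ} (h : 1 ≤ |t|) : be t = 0 := by simp [be, bmp_zero h]

private theorem be_mid {t : ℝ} (h : |t| ≤ 1 / 2) : be t = 1 / c0 := by simp [be, bmp_one h]

private noncomputable def T (v : ℝ) : ℝ := ∫ t in (-1 : ℝ)..v, be t

private theorem hT (v : ℝ) : HasDerivAt T (be v) v := (be_cont.integral_hasStrictDerivAt (-1) v).hasDerivAt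

private theorem T_cont : Continuous T := continuous_iff_continuousAt.2 fun v => (hT v).continuousAt

private theorem T_smooth : ContDiff ℝ ∞ T := by
  rw [contDiff_infty_iff_deriv]
  refine ⟨fun v => (hT v).differentiableAt, ?_⟩
  have : deriv T = be := funext fun v => (hT v).deriv
  rw [this]
  exact be_smooth

private noncomputable def S1 (v : ℝ) : ℝ := ∫ t in (-1 : ℝ)..v, T t

private theorem hS1 (v : ℝ) : HasDerivAt S1 (T v) v := (T_cont.integral_hasStrictDerivAt (-1) v).hasDerivAt

private theorem S1_smooth : ContDiff ℝ ∞ S1 := by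
  rw [contDiff_infty_iff_deriv]
  refine ⟨fun v => (hS1 v).differentiableAt, ?_⟩
  have : deriv S1 = T := funext fun v => (hS1 v).deriv
  rw [this]
  exact T_smooth

private theorem T_left {v : ℝ} (h : v ≤ -1) : T v = 0 := by
  unfold T
  rw [intervalIntegral.integral_congr (g := fun _ => (0 : ℝ)), intervalIntegral.integral_zero]
  intro t ht
  rw [uIcc_of_ge h] at ht
  apply be_zero
  rw [abs_of_nonpos (by linarith [ht.2])]
  linarith [ht.2]

private theorem T_one : T 1 = 1 := by
  unfold T be
  rw [intervalIntegral.integral_div]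
  exact div_self c0_pos.ne'

private theorem T_right {v : ℝ} (h : 1 ≤ v) : T v = 1 := by
  have h1 : T v = T 1 + ∫ t in (1 : ℝ)..v, be t := by
    unfold T
    rw [intervalIntegral.integral_add_adjacent_intervals (be_cont.intervalIntegrable _ _)
      (be_cont.intervalIntegrable _ _)]
  rw [h1, T_one, intervalIntegral.integral_congr (g := fun _ => (0 : ℝ)), intervalIntegral.integral_zero, add_zero]
  intro t ht
  rw [uIcc_of_le h] at ht
  apply be_zero
  rw [abs_of_nonneg (by linarith [ht.1])]
  exact ht.1

private theorem T_refl (v : ℝ) : T v + T (-v) = 1 := by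
  have hd : ∀ v, HasDerivAt (fun v => T v + T (-v)) 0 v := by
    intro v
    have h2 : HasDerivAt (fun v => T (-v)) (be (-v) * -1) v := (hT (-v)).comp v (hasDerivAt_neg v)
    have h3 := (hT v).add h2
    rw [be_even, mul_neg_one, add_neg_cancel] at h3
    exact h3
  have hc := is_const_of_deriv_eq_zero (f := fun v => T v + T (-v)) (fun v => (hd v).differentiableAt)
    (fun v => (hd v).deriv) v 1
  rw [hc, T_one, T_left le_rfl, add_zero]

private theorem T_pos {v : ℝ} (h : -1 < v) : 0 < T v := by
  rcases le_or_gt 1 v with h1 | h1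
  · rw [T_right h1]
    exact one_pos
  · apply intervalIntegral.intervalIntegral_pos_of_pos_on (be_cont.intervalIntegrable _ _) _ h
    intro t ht
    exact be_pos ⟨ht.1, ht.2.trans h1⟩

private theorem T_zero : T 0 = 1 / 2 := by
  have := T_refl 0
  rw [neg_zero] at this
  linarith

private theorem T_add (a b : ℝ) : T b = T a + ∫ t in a..b, be t := by
  unfold T
  rw [intervalIntegral.integral_add_adjacent_intervals (be_cont.intervalIntegrable _ _)
    (be_cont.intervalIntegrable _ _)]

private theorem T_gt {v : ℝ} (h : 0 < v) : 1 / 2 < T v := by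
  rcases le_or_gt 1 v with h1 | h1
  · rw [T_right h1]
    norm_num
  · rw [T_add 0 v, T_zero]
    have : 0 < ∫ t in (0 : ℝ)..v, be t := by
      apply intervalIntegral.intervalIntegral_pos_of_pos_on (be_cont.intervalIntegrable _ _) _ h
      intro t ht
      exact be_pos ⟨by linarith [ht.1], ht.2.trans h1⟩
    linarith

private theorem T_mid {v : ℝ} (h : |v| ≤ 1 / 2) : T v = 1 / 2 + v / c0 := by
  rw [T_add 0 v, T_zero, intervalIntegral.integral_congr (g := fun _ => 1 / c0), intervalIntegral.integral_const]
  · simp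
    ring
  · intro t ht
    apply be_mid
    have : |t| ≤ |v| := by
      rcases le_total 0 v with h0 | h0
      · rw [uIcc_of_le h0] at ht
        rw [abs_of_nonneg ht.1, abs_of_nonneg h0]
        exact ht.2
      · rw [uIcc_of_ge h0] at ht
        rw [abs_of_nonpos ht.2, abs_of_nonpos h0]
        linarith [ht.1]
    linarith

private theorem S1_left {v : ℝ} (h : v ≤ -1) : S1 v = 0 := by
  unfold S1
  rw [intervalIntegral.integral_congr (g := fun _ => (0 : ℝ)), intervalIntegral.integral_zero]
  intro t ht
  rw [uIcc_of_ge h] at ht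
  exact T_left ht.2

private theorem S1_refl (v : ℝ) : S1 v - S1 (-v) = v := by
  have hd : ∀ v, HasDerivAt (fun v => S1 v - S1 (-v) - v) 0 v := by
    intro v
    have h2 : HasDerivAt (fun v => S1 (-v)) (T (-v) * -1) v := (hS1 (-v)).comp v (hasDerivAt_neg v)
    have h3 := ((hS1 v).sub h2).sub (hasDerivAt_id v)
    refine h3.congr_deriv ?_
    have := T_refl v
    linarith
  have hc := is_const_of_deriv_eq_zero (f := fun v => S1 v - S1 (-v) - v) (fun v => (hd v).differentiableAt)
    (fun v => (hd v).deriv) v 0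
  simp only [neg_zero, sub_self] at hc
  linarith

private theorem S1_right {v : ℝ} (h : 1 ≤ v) : S1 v = v := by
  have h1 := S1_refl v
  rw [S1_left (v := -v) (by linarith)] at h1
  linarith

private theorem T_nonneg (v : ℝ) : 0 ≤ T v := by
  rcases le_or_gt v (-1) with h | h
  · rw [T_left h]
  · exact (T_pos h).le

private theorem S1_nonneg (v : ℝ) : 0 ≤ S1 v := by
  rcases le_or_gt v (-1) with h | h
  · rw [S1_left h]
  · exact intervalIntegral.integral_nonneg h.le fun t _ => T_nonneg t

private theorem S1_add (a b : ℝ) : S1 b = S1 a + ∫ t in a..b, T t := by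
  unfold S1
  rw [intervalIntegral.integral_add_adjacent_intervals (T_cont.intervalIntegrable _ _)
    (T_cont.intervalIntegrable _ _)]

private theorem S1_mid {v : ℝ} (h : |v| ≤ 1 / 2) : S1 v = S1 0 + v / 2 + 1 / (2 * c0) * v ^ 2 := by
  rw [S1_add 0 v, intervalIntegral.integral_congr (g := fun t => 1 / 2 + t / c0)]
  · have hint : ∫ t in (0 : ℝ)..v, (1 / 2 + t / c0) = v / 2 + 1 / (2 * c0) * v ^ 2 := by
      have hd : ∀ t ∈ uIcc (0 : ℝ) v, HasDerivAt (fun t : ℝ => t / 2 + 1 / (2 * c0) * t ^ 2) (1 / 2 + t / c0) t := by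
        intro t _
        have h1 := ((hasDerivAt_id t).div_const 2).add (((hasDerivAt_id t).pow 2).const_mul (1 / (2 * c0)))
        refine h1.congr_deriv ?_
        have := c0_pos.ne'
        norm_num
        field_simp
      rw [intervalIntegral.integral_eq_sub_of_hasDerivAt hd]
      · simp
      · exact (by fun_prop : Continuous fun t : ℝ => 1 / 2 + t / c0).intervalIntegrable _ _
    rw [hint]
    ring
  · intro t ht
    apply T_mid
    have : |t| ≤ |v| := by
      rcases le_total 0 v with h0 | h0
      · rw [uIcc_of_le h0] at ht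
        rw [abs_of_nonneg ht.1, abs_of_nonneg h0]
        exact ht.2
      · rw [uIcc_of_ge h0] at ht
        rw [abs_of_nonpos ht.2, abs_of_nonpos h0]
        linarith [ht.1]
    linarith

private noncomputable def A1 : ℝ := ∫ u in (-1 : ℝ)..1, S1 u * T (-u)

private theorem inv_c0_le : 1 / c0 ≤ 1 := by
  have h := T_mid (v := -(1 / 2)) (by norm_num)
  have h2 := T_nonneg (-(1 / 2))
  rw [h] at h2
  have : -(1 / 2) / c0 = -(1 / c0) / 2 := by ring
  rw [this] at h2
  linarith

private theorem prod_cont : Continuous fun u : ℝ => S1 u * T (-u) :=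
  S1_smooth.continuous.mul (T_cont.comp continuous_neg)

private theorem A1_gt : 1 / 100 < A1 := by
  have h1 : A1 = (∫ u in (-1 : ℝ)..0, S1 u * T (-u)) + ((∫ u in (0 : ℝ)..(1 / 2), S1 u * T (-u)) +
      ∫ u in (1 / 2 : ℝ)..1, S1 u * T (-u)) := by
    unfold A1
    rw [intervalIntegral.integral_add_adjacent_intervals (prod_cont.intervalIntegrable _ _)
      (prod_cont.intervalIntegrable _ _), intervalIntegral.integral_add_adjacent_intervals
      (prod_cont.intervalIntegrable _ _) (prod_cont.intervalIntegrable _ _)]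
  have h2 : 0 ≤ ∫ u in (-1 : ℝ)..0, S1 u * T (-u) :=
    intervalIntegral.integral_nonneg (by norm_num) fun u _ => mul_nonneg (S1_nonneg _) (T_nonneg _)
  have h3 : 0 ≤ ∫ u in (1 / 2 : ℝ)..1, S1 u * T (-u) :=
    intervalIntegral.integral_nonneg (by norm_num) fun u _ => mul_nonneg (S1_nonneg _) (T_nonneg _)
  have h4 : ∫ u in (0 : ℝ)..(1 / 2), (u * (1 / 2 - u)) ≤ ∫ u in (0 : ℝ)..(1 / 2), S1 u * T (-u) := by
    apply intervalIntegral.integral_mono_on (by norm_num)
      ((by fun_prop : Continuous fun u : ℝ => u * (1 / 2 - u)).intervalIntegrable _ _)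
      (prod_cont.intervalIntegrable _ _)
    intro u hu
    have h5 : u ≤ S1 u := by
      have := S1_refl u
      have := S1_nonneg (-u)
      linarith
    have h6 : 1 / 2 - u ≤ T (-u) := by
      rw [T_mid (by rw [abs_neg, abs_of_nonneg hu.1]; exact hu.2)]
      have h7 : -u / c0 = -(u * (1 / c0)) := by ring
      rw [h7]
      have := mul_le_mul_of_nonneg_left inv_c0_le hu.1
      linarith
    apply mul_le_mul h5 h6 (by linarith [hu.2]) (S1_nonneg u)
  have h8 : ∫ u in (0 : ℝ)..(1 / 2), (u * (1 / 2 - u)) = 1 / 48 := by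
    have hd : ∀ t ∈ uIcc (0 : ℝ) (1 / 2), HasDerivAt (fun t : ℝ => t ^ 2 / 4 - t ^ 3 / 3) (t * (1 / 2 - t)) t := by
      intro t _
      have h1 := (((hasDerivAt_id t).pow 2).div_const 4).sub (((hasDerivAt_id t).pow 3).div_const 3)
      refine h1.congr_deriv ?_
      simp only [id]
      ring
    rw [intervalIntegral.integral_eq_sub_of_hasDerivAt hd]
    · norm_num
    · exact (by fun_prop : Continuous fun u : ℝ => u * (1 / 2 - u)).intervalIntegrable _ _
  rw [h8] at h4
  rw [h1]
  linarith

/-- There is a mollified positive part. -/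
theorem exists_moll : Nonempty Moll := by
  set e : ℝ := Real.sqrt (1 / (1600 * A1)) with he
  have hA : 1 / 100 < A1 := A1_gt
  have hA0 : 0 < A1 := by linarith
  have he0 : 0 < e := Real.sqrt_pos.2 (by positivity)
  have hee : e ^ 2 = 1 / (1600 * A1) := Real.sq_sqrt (by positivity)
  have he4 : e < 1 / 4 := by
    have h1 : e ^ 2 < (1 / 4) ^ 2 := by
      rw [hee, div_lt_iff₀ (by positivity)]
      linarith
    exact lt_of_pow_lt_pow_left₀ 2 (by norm_num) h1
  have hd : ∀ v, HasDerivAt (fun v => e * S1 (v / e)) (T (v / e)) v := by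
    intro v
    have h0 : HasDerivAt (fun v : ℝ => v / e) (1 / e) v := (hasDerivAt_id v).div_const e
    have h1 : HasDerivAt (fun v => S1 (v / e)) (T (v / e) * (1 / e)) v :=
      HasDerivAt.comp (h₂ := S1) (h := fun v => v / e) v (hS1 (v / e)) h0
    refine (h1.const_mul e).congr_deriv ?_
    field_simp
  have hderiv : deriv (fun v => e * S1 (v / e)) = fun v => T (v / e) := funext fun v => (hd v).deriv
  have hle : ∀ v, v ≤ -e → v / e ≤ -1 := by
    intro v hv
    rw [div_le_iff₀ he0]
    linarith
  have hge : ∀ v, e ≤ v → 1 ≤ v / e := by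
    intro v hv
    rw [le_div_iff₀ he0]
    linarith
  refine ⟨⟨e, fun v => e * S1 (v / e), he0, he4, ?_, ?_, ?_, ?_, ?_, ?_, ?_, ?_⟩⟩
  · exact contDiff_const.mul (S1_smooth.comp (contDiff_id.div_const e))
  · intro v hv
    rw [S1_left (hle v hv), mul_zero]
  · intro v hv
    rw [S1_right (hge v hv)]
    field_simp
  · intro v
    have h1 := S1_refl (v / e)
    rw [neg_div, ← mul_sub, h1]
    field_simp
  · intro v hv
    rw [hderiv]
    apply T_pos
    rw [lt_div_iff₀ he0]
    linarith
  · intro v hv
    rw [hderiv]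
    exact T_gt (div_pos hv he0)
  · refine ⟨1 / (2 * c0) / e, div_pos (by have := c0_pos; positivity) he0, e / 2, by positivity, ?_⟩
    intro v hv
    simp only [zero_div]
    rw [S1_mid (v := v / e)]
    · have := c0_pos.ne'
      field_simp
    · rw [abs_div, abs_of_pos he0, div_le_iff₀ he0]
      linarith
  · rw [hderiv]
    have h1 : ∀ v : ℝ, e * S1 (v / e) * T (-v / e) = e * (fun u => S1 u * T (-u)) (v / e) := by
      intro v
      simp only
      rw [neg_div]
      ring
    simp only [h1]
    rw [intervalIntegral.integral_const_mul, intervalIntegral.integral_comp_div (fun u => S1 u * T (-u)) he0.ne']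
    have h2 : (1 : ℝ) ≤ 1 / 2 / e := by
      rw [le_div_iff₀ he0]
      linarith
    have h3 : ∫ u in (-(1 / 2) / e : ℝ)..(1 / 2 / e), S1 u * T (-u) = A1 := by
      have i1 : ∫ u in (-(1 / 2) / e : ℝ)..(-1), S1 u * T (-u) = 0 := by
        rw [intervalIntegral.integral_congr (g := fun _ => (0 : ℝ)), intervalIntegral.integral_zero]
        intro t ht
        have hle' : -(1 / 2) / e ≤ -1 := by
          rw [neg_div]
          linarith
        rw [uIcc_of_le hle'] at ht
        simp only
        rw [S1_left ht.2, zero_mul]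
      have i2 : ∫ u in (1 : ℝ)..(1 / 2 / e), S1 u * T (-u) = 0 := by
        rw [intervalIntegral.integral_congr (g := fun _ => (0 : ℝ)), intervalIntegral.integral_zero]
        intro t ht
        rw [uIcc_of_le h2] at ht
        simp only
        rw [T_left (v := -t) (by linarith [ht.1]), mul_zero]
      rw [← intervalIntegral.integral_add_adjacent_intervals (prod_cont.intervalIntegrable (-(1 / 2) / e) (-1))
        (prod_cont.intervalIntegrable _ _), i1, zero_add,
        ← intervalIntegral.integral_add_adjacent_intervals (prod_cont.intervalIntegrable (-1) 1)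
        (prod_cont.intervalIntegrable _ _), i2, add_zero]
      rfl
    rw [h3]
    simp only [smul_eq_mul]
    have h4 : e * (e * A1) = e ^ 2 * A1 := by ring
    rw [h4, hee]
    field_simp

end Pool.Agent.Lib_MP_59ec1f_cap
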