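import Pool.Agent.Lib_MP_59ec1f_cap.Moll

/-!
# Facts on the mollified positive part
-/

set_option autoImplicit false

open scoped ContDiff

namespace Pool.Agent.Lib_MP_59ec1f_cap

namespace Moll

variable (μ : Moll)

/-- mollified absolute value -/
noncomputable def Q (v : ℝ) : ℝ := μ.S v + μ.S (-v)

/-- mollified sign -/
noncomputable def r (v : ℝ) : ℝ := v / μ.Q v

/-- mollified piecewise linear interpolation of `a, b, c` at `-1, 0, 1` -/
noncomputable def tri (a b c u : ℝ) : ℝ := b + (c - b) * μ.S u - (b - a) * μ.S (-u)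

theorem hasDerivAt_S (v : ℝ) : HasDerivAt μ.S (deriv μ.S v) v :=
  (μ.smooth.differentiable (by simp) v).hasDerivAt

theorem hasDerivAt_S_neg (v : ℝ) : HasDerivAt (fun v => μ.S (-v)) (-deriv μ.S (-v)) v := by
  have h := HasDerivAt.comp (h₂ := μ.S) (h := fun v => -v) v (μ.hasDerivAt_S (-v)) (hasDerivAt_neg v)
  rw [mul_neg_one] at h
  exact h

theorem deriv_cont : Continuous (deriv μ.S) := μ.smooth.continuous_deriv (by simp)

theorem deriv_left {v : ℝ} (h : v ≤ -μ.ep) : deriv μ.S v = 0 := by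
  have h1 : ∀ w ∈ Set.Iio (-μ.ep), deriv μ.S w = 0 := by
    intro w hw
    have h2 : μ.S =ᶠ[nhds w] fun _ => 0 := by
      filter_upwards [isOpen_Iio.mem_nhds hw] with x hx
      exact μ.left x (le_of_lt hx)
    rw [h2.deriv_eq]
    simp
  have h3 : Set.EqOn (deriv μ.S) (fun _ => 0) (closure (Set.Iio (-μ.ep))) :=
    Set.EqOn.closure h1 μ.deriv_cont continuous_const
  rw [closure_Iio] at h3
  exact h3 h

theorem deriv_refl (v : ℝ) : deriv μ.S v + deriv μ.S (-v) = 1 := by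
  have h1 := (μ.hasDerivAt_S v).sub (μ.hasDerivAt_S_neg v)
  have h2 : (μ.S - fun v => μ.S (-v)) = fun v => v := by
    funext x
    exact μ.refl x
  rw [h2] at h1
  have := h1.unique (hasDerivAt_id v)
  linarith

theorem deriv_right {v : ℝ} (h : μ.ep ≤ v) : deriv μ.S v = 1 := by
  have h1 := μ.deriv_refl v
  rw [μ.deriv_left (v := -v) (by linarith)] at h1
  linarith

theorem deriv_nonneg (v : ℝ) : 0 ≤ deriv μ.S v := by
  rcases le_or_gt v (-μ.ep) with h | h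
  · rw [μ.deriv_left h]
  · exact (μ.dpos v h).le

theorem deriv_le_one (v : ℝ) : deriv μ.S v ≤ 1 := by
  have h1 := μ.deriv_refl v
  have h2 := μ.deriv_nonneg (-v)
  linarith

theorem mono : Monotone μ.S :=
  monotone_of_deriv_nonneg (μ.smooth.differentiable (by simp)) μ.deriv_nonneg

theorem nonneg (v : ℝ) : 0 ≤ μ.S v := by
  rcases le_or_gt v (-μ.ep) with h | h
  · rw [μ.left v h]
  · have := μ.mono h.le
    rwa [μ.left _ le_rfl] at this

theorem strictMonoOn : StrictMonoOn μ.S (Set.Ici (-μ.ep)) := by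
  apply strictMonoOn_of_deriv_pos (convex_Ici _) μ.smooth.continuous.continuousOn
  intro x hx
  rw [interior_Ici] at hx
  exact μ.dpos x hx

theorem pos {v : ℝ} (h : -μ.ep < v) : 0 < μ.S v := by
  have := μ.strictMonoOn (Set.mem_Ici.2 le_rfl) (Set.mem_Ici.2 h.le) h
  rwa [μ.left _ le_rfl] at this

theorem le_half {v : ℝ} (h : v ≤ 1 / 2) : μ.S v ≤ 1 / 2 := by
  have h1 := μ.mono h
  have h2 := μ.ep_lt
  rwa [μ.right (1 / 2) (by linarith)] at h1

theorem Q_contDiff : ContDiff ℝ ∞ μ.Q := μ.smooth.add (μ.smooth.comp contDiff_neg)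

theorem Q_neg (v : ℝ) : μ.Q (-v) = μ.Q v := by
  unfold Q
  rw [neg_neg, add_comm]

theorem Q_eq (v : ℝ) : μ.Q v = v + 2 * μ.S (-v) := by
  have := μ.refl v
  unfold Q
  linarith

theorem Q_eq' (v : ℝ) : μ.Q v = -v + 2 * μ.S v := by
  have := μ.refl v
  unfold Q
  linarith

theorem Q_eq_abs {v : ℝ} (h : μ.ep ≤ |v|) : μ.Q v = |v| := by
  rcases le_total 0 v with h0 | h0
  · rw [abs_of_nonneg h0] at h ⊢
    rw [Q_eq, μ.left (-v) (by linarith)]
    ring
  · rw [abs_of_nonpos h0] at h ⊢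
    rw [Q_eq', μ.left v (by linarith)]
    ring

theorem abs_le_Q (v : ℝ) : |v| ≤ μ.Q v := by
  rw [abs_le']
  constructor
  · rw [Q_eq]
    linarith [μ.nonneg (-v)]
  · rw [Q_eq']
    linarith [μ.nonneg v]

/-- strict inequality near `0` -/
theorem abs_lt_Q {v : ℝ} (h : |v| < μ.ep) : |v| < μ.Q v := by
  rw [abs_lt] at h ⊢
  constructor
  · rw [Q_eq']
    linarith [μ.pos (v := v) (by linarith)]
  · rw [Q_eq]
    linarith [μ.pos (v := -v) (by linarith)]

theorem Q_pos (v : ℝ) : 0 < μ.Q v := by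
  rcases lt_or_ge |v| μ.ep with h | h
  · exact (abs_nonneg v).trans_lt (μ.abs_lt_Q h)
  · rw [μ.Q_eq_abs h]
    exact μ.ep_pos.trans_le h

theorem deriv_Q (v : ℝ) : deriv μ.Q v = deriv μ.S v - deriv μ.S (-v) := by
  have h := (μ.hasDerivAt_S v).add (μ.hasDerivAt_S_neg v)
  have h2 : HasDerivAt μ.Q (deriv μ.S v + -deriv μ.S (-v)) v := h
  rw [h2.deriv]
  ring

theorem hasDerivAt_Q (v : ℝ) : HasDerivAt μ.Q (deriv μ.Q v) v :=
  (μ.Q_contDiff.differentiable (by simp) v).hasDerivAt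

/-- `Q v ^ 2` has derivative `2 Q Q' > 0` for `v > 0` -/
theorem deriv_Q_pos {v : ℝ} (h : 0 < v) : 0 < deriv μ.Q v := by
  rw [deriv_Q]
  have h1 := μ.deriv_refl v
  have h2 := μ.dgt v h
  linarith

theorem Q_strictMonoOn : StrictMonoOn μ.Q (Set.Ici 0) := by
  apply strictMonoOn_of_deriv_pos (convex_Ici _) μ.Q_contDiff.continuous.continuousOn
  intro x hx
  rw [interior_Ici] at hx
  exact μ.deriv_Q_pos hx

theorem Q_zero_lt {v : ℝ} (h : v ≠ 0) : μ.Q 0 < μ.Q v := by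
  rcases lt_or_gt_of_ne h with h1 | h1
  · rw [← μ.Q_neg v]
    exact μ.Q_strictMonoOn (Set.mem_Ici.2 le_rfl) (Set.mem_Ici.2 (by linarith)) (by linarith)
  · exact μ.Q_strictMonoOn (Set.mem_Ici.2 le_rfl) (Set.mem_Ici.2 h1.le) h1

theorem Q_zero_le : μ.Q 0 ≤ μ.ep := by
  have h1 := μ.Q_zero_lt (v := μ.ep) μ.ep_pos.ne'
  rw [μ.Q_eq_abs (v := μ.ep) (le_abs_self _), abs_of_pos μ.ep_pos] at h1
  exact h1.le

/-- `2 S v ≤ 1`, `2 S (-v) ≤ 1` and the weights of `tri` -/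
theorem Q_le_half {v : ℝ} (h : |v| ≤ 1 / 2) : μ.Q v ≤ 1 / 2 := by
  have h1 : μ.Q |v| = μ.Q v := by
    rcases abs_choice v with h2 | h2
    · rw [h2]
    · rw [h2, Q_neg]
  rw [← h1]
  have h3 : μ.Q (1 / 2) = 1 / 2 := by
    rw [μ.Q_eq_abs]
    · norm_num
    · rw [abs_of_pos (by norm_num)]
      linarith [μ.ep_lt]
  rw [← h3]
  exact μ.Q_strictMonoOn.monotoneOn (Set.mem_Ici.2 (abs_nonneg v)) (Set.mem_Ici.2 (by norm_num)) h

theorem abs_deriv_Q_le (v : ℝ) : |deriv μ.Q v| ≤ 1 := by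
  rw [deriv_Q, abs_le]
  constructor
  · linarith [μ.deriv_nonneg v, μ.deriv_le_one (-v)]
  · linarith [μ.deriv_nonneg (-v), μ.deriv_le_one v]

theorem S_eq (v : ℝ) : μ.S v = (μ.Q v + v) / 2 := by
  rw [Q_eq']
  ring

theorem r_contDiff : ContDiff ℝ ∞ μ.r := contDiff_id.div μ.Q_contDiff fun v => (μ.Q_pos v).ne'

theorem r_neg (v : ℝ) : μ.r (-v) = -μ.r v := by
  unfold r
  rw [Q_neg, neg_div]

theorem r_right {v : ℝ} (h : μ.ep ≤ v) : μ.r v = 1 := by
  have h0 : 0 < v := μ.ep_pos.trans_le h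
  unfold r
  rw [μ.Q_eq_abs (h.trans (le_abs_self v)), abs_of_pos h0]
  exact div_self h0.ne'

theorem r_left {v : ℝ} (h : v ≤ -μ.ep) : μ.r v = -1 := by
  have h1 := μ.r_right (v := -v) (by linarith)
  rw [r_neg] at h1
  linarith

theorem abs_r_le (v : ℝ) : |μ.r v| ≤ 1 := by
  unfold r
  rw [abs_div, abs_of_pos (μ.Q_pos v), div_le_one (μ.Q_pos v)]
  exact μ.abs_le_Q v

theorem abs_r_lt {v : ℝ} (h : |v| < μ.ep) : |μ.r v| < 1 := by
  unfold r
  rw [abs_div, abs_of_pos (μ.Q_pos v), div_lt_one (μ.Q_pos v)]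
  exact μ.abs_lt_Q h

theorem hasDerivAt_r (v : ℝ) : HasDerivAt μ.r ((μ.Q v - v * deriv μ.Q v) / μ.Q v ^ 2) v := by
  have h := (hasDerivAt_id v).div (μ.hasDerivAt_Q v) (μ.Q_pos v).ne'
  have h2 : HasDerivAt μ.r ((1 * μ.Q v - id v * deriv μ.Q v) / μ.Q v ^ 2) v := h
  simpa using h2

theorem Q_sub_nonneg (v : ℝ) : 0 ≤ μ.Q v - v * deriv μ.Q v := by
  have h1 := μ.abs_le_Q v
  have h2 : v * deriv μ.Q v ≤ |v| * 1 := by
    calc v * deriv μ.Q v ≤ |v * deriv μ.Q v| := le_abs_self _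
      _ = |v| * |deriv μ.Q v| := abs_mul _ _
      _ ≤ |v| * 1 := mul_le_mul_of_nonneg_left (μ.abs_deriv_Q_le v) (abs_nonneg v)
  linarith

theorem Q_sub_pos {v : ℝ} (h : |v| < μ.ep) : 0 < μ.Q v - v * deriv μ.Q v := by
  have h1 := μ.abs_lt_Q h
  have h2 : v * deriv μ.Q v ≤ |v| * 1 := by
    calc v * deriv μ.Q v ≤ |v * deriv μ.Q v| := le_abs_self _
      _ = |v| * |deriv μ.Q v| := abs_mul _ _
      _ ≤ |v| * 1 := mul_le_mul_of_nonneg_left (μ.abs_deriv_Q_le v) (abs_nonneg v)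
  linarith

/-- `r` is injective on `(-ep, ep)`: `r' = (Q - v Q') / Q²` and `v Q' ≤ |v| < Q` there. -/
theorem r_strictMonoOn : StrictMonoOn μ.r (Set.Ioo (-μ.ep) μ.ep) := by
  apply strictMonoOn_of_deriv_pos (convex_Ioo _ _) μ.r_contDiff.continuous.continuousOn
  intro x hx
  rw [interior_Ioo] at hx
  rw [(μ.hasDerivAt_r x).deriv]
  exact div_pos (μ.Q_sub_pos (abs_lt.2 hx)) (by have := μ.Q_pos x; positivity)

theorem r_injOn : Set.InjOn μ.r (Set.Ioo (-μ.ep) μ.ep) := μ.r_strictMonoOn.injOn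

theorem r_mono : Monotone μ.r := by
  apply monotone_of_deriv_nonneg (μ.r_contDiff.differentiable (by simp))
  intro x
  rw [(μ.hasDerivAt_r x).deriv]
  exact div_nonneg (μ.Q_sub_nonneg x) (by positivity)

theorem deriv_r_zero : deriv μ.r 0 = 1 / μ.Q 0 := by
  rw [(μ.hasDerivAt_r 0).deriv]
  have := (μ.Q_pos 0).ne'
  field_simp
  ring

section tri

variable (a b c : ℝ)

theorem tri_contDiff : ContDiff ℝ ∞ (μ.tri a b c) :=
  (contDiff_const.add (contDiff_const.mul μ.smooth)).sub (contDiff_const.mul (μ.smooth.comp contDiff_neg))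

theorem hasDerivAt_tri (u : ℝ) :
    HasDerivAt (μ.tri a b c) ((c - b) * deriv μ.S u + (b - a) * deriv μ.S (-u)) u := by
  have h := (((μ.hasDerivAt_S u).const_mul (c - b)).const_add b).sub ((μ.hasDerivAt_S_neg u).const_mul (b - a))
  have h2 : HasDerivAt (μ.tri a b c) ((c - b) * deriv μ.S u - (b - a) * -deriv μ.S (-u)) u := h
  refine h2.congr_deriv ?_
  ring

/-- convex combination of the vertex value and the two midpoint values -/
theorem tri_eq (u : ℝ) : μ.tri a b c u =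
    (1 - 2 * μ.Q u) * b + 2 * μ.S u * ((b + c) / 2) + 2 * μ.S (-u) * ((a + b) / 2) := by
  unfold tri Q
  ring

theorem tri_right {u : ℝ} (h : μ.ep ≤ u) : μ.tri a b c u = b + (c - b) * u := by
  unfold tri
  rw [μ.right u h, μ.left (-u) (by linarith)]
  ring

theorem tri_left {u : ℝ} (h : u ≤ -μ.ep) : μ.tri a b c u = b + (b - a) * u := by
  unfold tri
  rw [μ.left u h, μ.right (-u) (by linarith)]
  ring

theorem tri_half : μ.tri a b c (1 / 2) = (b + c) / 2 := by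
  rw [tri_right]
  · ring
  · linarith [μ.ep_lt]

theorem tri_neg_half : μ.tri a b c (-(1 / 2)) = (a + b) / 2 := by
  rw [tri_left]
  · ring
  · linarith [μ.ep_lt]

theorem tri_neg (u : ℝ) : μ.tri a b c (-u) = μ.tri c b a u := by
  unfold tri
  rw [neg_neg]
  ring

theorem tri_linear (a' b' c' x y u : ℝ) : μ.tri (x * a + y * a') (x * b + y * b') (x * c + y * c') u =
    x * μ.tri a b c u + y * μ.tri a' b' c' u := by
  unfold tri
  ring

/-- a straight triple -/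
theorem tri_straight (d u : ℝ) : μ.tri (b - d) b (b + d) u = b + d * u := by
  have := μ.refl u
  unfold tri
  linear_combination d * this

/-- a fold -/
theorem tri_fold (d u : ℝ) : μ.tri (b + d) b (b + d) u = b + d * μ.Q u := by
  unfold tri Q
  ring

variable {a b c}

theorem tri_pos {u : ℝ} (hu : |u| ≤ 1 / 2) (hb : 0 < b) (hc : 0 < b + c) (ha : 0 < a + b) : 0 < μ.tri a b c u := by
  rw [tri_eq]
  have h1 := μ.Q_le_half hu
  have h2 := μ.nonneg u
  have h3 := μ.nonneg (-u)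
  have h4 : μ.Q u = μ.S u + μ.S (-u) := rfl
  have i1 : 0 ≤ (1 - 2 * μ.Q u) * b := mul_nonneg (by linarith) hb.le
  have i2 : 0 ≤ 2 * μ.S u * ((b + c) / 2) := by positivity
  have i3 : 0 ≤ 2 * μ.S (-u) * ((a + b) / 2) := by positivity
  rcases (h2.lt_or_eq) with h5 | h5
  · have : 0 < 2 * μ.S u * ((b + c) / 2) := by positivity
    linarith
  · rcases (h3.lt_or_eq) with h6 | h6
    · have : 0 < 2 * μ.S (-u) * ((a + b) / 2) := by positivity
      linarith
    · rw [h4, ← h5, ← h6]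
      simp
      exact hb

theorem tri_nonneg {u : ℝ} (hu : |u| ≤ 1 / 2) (hb : 0 ≤ b) (hc : 0 ≤ b + c) (ha : 0 ≤ a + b) :
    0 ≤ μ.tri a b c u := by
  rw [tri_eq]
  have h1 := μ.Q_le_half hu
  have h2 := μ.nonneg u
  have h3 := μ.nonneg (-u)
  have i1 : 0 ≤ (1 - 2 * μ.Q u) * b := mul_nonneg (by linarith) hb
  have i2 : 0 ≤ 2 * μ.S u * ((b + c) / 2) := by positivity
  have i3 : 0 ≤ 2 * μ.S (-u) * ((a + b) / 2) := by positivity
  linarith

end tri

end Moll

end Pool.Agent.Lib_MP_59ec1f_cap
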