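import Pool.Agent.Lib_MP_59ec1f_cap.TimePL
import Pool.Agent.Lib_MP_59ec1f_cap.CellEdge

/-!
# Chains of cells

Vertices `n` with constant `x n` and moving `y n s`, and the primitive `f n s` at the midpoint between `n` and `n + 1`. The
map of the chain is the cell `n` at `(θ - n, s)` for `|θ - n| ≤ 1 - ep`.
-/

set_option autoImplicit false

open scoped ContDiff Topology

namespace Pool.Agent.Lib_MP_59ec1f_cap

/-- a chain of vertices -/
structure CellChain where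
  x : ℤ → ℝ
  y : ℤ → ℝ → ℝ
  f : ℤ → ℝ → ℝ
  hy : ∀ n, ContDiff ℝ ∞ (y n)
  hf : ∀ n, ContDiff ℝ ∞ (f n)

namespace CellChain

variable (μ : Moll) (C : CellChain)

/-- the cell at the vertex `n` -/
noncomputable def cell (n : ℤ) : Cell :=
  ⟨C.x (n - 1), C.x n, C.x (n + 1), C.y (n - 1), C.y n, C.y (n + 1), C.f n, C.hy _, C.hy _, C.hy _, C.hf _⟩

/-- the relation between the primitives at the midpoints before and after the vertex `n` -/
def Rel (n : ℤ) (s : ℝ) : Prop := C.f n s - C.f (n - 1) s =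
  μ.J (C.x (n - 1)) (C.x n) (C.x (n + 1)) (C.y (n - 1) s) (C.y n s) (C.y (n + 1) s) (-(1 / 2))

/-- the map -/
noncomputable def pt (p : ℝ × ℝ) : P4 := glue (fun n v => (C.cell n).pt μ (v, p.2)) p.1

/-- the primitive -/
noncomputable def prim (p : ℝ × ℝ) : ℝ := glue (fun n v => (C.cell n).prim μ (v, p.2)) p.1

variable {μ C}

theorem overlap {n : ℤ} {v s : ℝ} (h1 : μ.ep ≤ v) (h2 : v ≤ 1 - μ.ep) (hR : ∀ᶠ t in 𝓝 s, C.Rel μ (n + 1) t) :
    (C.cell n).pt μ (v, s) = (C.cell (n + 1)).pt μ (v - 1, s) ∧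
      (C.cell n).prim μ (v, s) = (C.cell (n + 1)).prim μ (v - 1, s) := by
  have e : n + 1 - 1 = n := by ring
  have hR' : ∀ᶠ t in 𝓝 s, (C.cell (n + 1)).f t - C.f n t =
      μ.J (C.cell (n + 1)).x0 (C.cell (n + 1)).x1 (C.cell (n + 1)).x2 ((C.cell (n + 1)).y0 t)
        ((C.cell (n + 1)).y1 t) ((C.cell (n + 1)).y2 t) (-(1 / 2)) := by
    filter_upwards [hR] with t ht
    have h3 : C.f (n + 1) t - C.f (n + 1 - 1) t =
      μ.J (C.cell (n + 1)).x0 (C.cell (n + 1)).x1 (C.cell (n + 1)).x2 ((C.cell (n + 1)).y0 t)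
        ((C.cell (n + 1)).y1 t) ((C.cell (n + 1)).y2 t) (-(1 / 2)) := ht
    rw [e] at h3
    exact h3
  have h3 := (C.cell n).pt_right μ (s := s) h1
  have h4 := (C.cell (n + 1)).pt_left μ (s := s) (v := v - 1) (f₀ := C.f n) (by linarith) hR'
  have h5 := edgePt_symm (C.x n) (C.x (n + 1)) (C.y n) (C.y (n + 1)) (C.f n) v s
  have e1 : -(v - 1) = 1 - v := by ring
  have e0 : (C.cell (n + 1)).x0 = C.x n := by
    change C.x (n + 1 - 1) = C.x n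
    rw [e]
  have e2 : (C.cell (n + 1)).y0 = C.y n := by
    change C.y (n + 1 - 1) = C.y n
    rw [e]
  rw [e1, e0, e2] at h4
  exact ⟨(h3.1.trans h5.1).trans h4.1.symm, (h3.2.trans h5.2).trans h4.2.symm⟩

/-- the chain is the cell `n` for `|θ - n| ≤ 1 - ep` -/
theorem pt_eq {n : ℤ} {θ s : ℝ} (h : |θ - n| ≤ 1 - μ.ep) (hR₁ : n + μ.ep ≤ θ → ∀ᶠ t in 𝓝 s, C.Rel μ (n + 1) t)
    (hR₀ : θ ≤ n - μ.ep → ∀ᶠ t in 𝓝 s, C.Rel μ n t) :
    C.pt μ (θ, s) = (C.cell n).pt μ (θ - n, s) ∧ C.prim μ (θ, s) = (C.cell n).prim μ (θ - n, s) := by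
  have h' := abs_le.1 h
  constructor
  · apply glue_eq (c := fun n v => (C.cell n).pt μ (v, s)) μ.ep_pos h
    · intro h1
      exact (overlap (by linarith) (by linarith [h'.2]) (hR₁ h1)).1
    · intro h1
      have e : n - 1 + 1 = n := by ring
      have := (overlap (C := C) (μ := μ) (n := n - 1) (v := θ - n + 1) (s := s) (by linarith [h'.1]) (by linarith)
        (by rw [e]; exact hR₀ h1)).1
      rw [e] at this
      simpa using this
  · apply glue_eq (c := fun n v => (C.cell n).prim μ (v, s)) μ.ep_pos h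
    · intro h1
      exact (overlap (by linarith) (by linarith [h'.2]) (hR₁ h1)).2
    · intro h1
      have e : n - 1 + 1 = n := by ring
      have := (overlap (C := C) (μ := μ) (n := n - 1) (v := θ - n + 1) (s := s) (by linarith [h'.1]) (by linarith)
        (by rw [e]; exact hR₀ h1)).2
      rw [e] at this
      simpa using this

/-- in a neighbourhood of a point with `|θ - n| < 1 - ep` -/
theorem pt_near {n : ℤ} {θ s : ℝ} (h : |θ - n| < 1 - μ.ep) (hR₁ : n + μ.ep ≤ θ → ∀ᶠ t in 𝓝 s, C.Rel μ (n + 1) t)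
    (hR₀ : θ ≤ n - μ.ep → ∀ᶠ t in 𝓝 s, C.Rel μ n t) :
    (∀ᶠ p : ℝ × ℝ in 𝓝 (θ, s), C.pt μ p = (C.cell n).pt μ (p.1 - n, p.2)) ∧
      ∀ᶠ p : ℝ × ℝ in 𝓝 (θ, s), C.prim μ p = (C.cell n).prim μ (p.1 - n, p.2) := by
  have A : ∀ᶠ p : ℝ × ℝ in 𝓝 (θ, s), n + μ.ep ≤ p.1 → ∀ᶠ t in 𝓝 p.2, C.Rel μ (n + 1) t := by
    rcases lt_or_ge θ (n + μ.ep) with h1 | h1
    · filter_upwards [continuous_fst.continuousAt.tendsto.eventually (gt_mem_nhds h1)] with p hp hp'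
      exact absurd hp (not_lt.2 hp')
    · have h2 := eventually_eventually_nhds.2 (hR₁ h1)
      filter_upwards [(continuous_snd.continuousAt (x := ((θ, s) : ℝ × ℝ))).tendsto.eventually h2] with p hp _
      exact hp
  have B : ∀ᶠ p : ℝ × ℝ in 𝓝 (θ, s), p.1 ≤ n - μ.ep → ∀ᶠ t in 𝓝 p.2, C.Rel μ n t := by
    rcases lt_or_ge (n - μ.ep) θ with h1 | h1
    · filter_upwards [continuous_fst.continuousAt.tendsto.eventually (lt_mem_nhds h1)] with p hp hp'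
      exact absurd hp (not_lt.2 hp')
    · have h2 := eventually_eventually_nhds.2 (hR₀ h1)
      filter_upwards [(continuous_snd.continuousAt (x := ((θ, s) : ℝ × ℝ))).tendsto.eventually h2] with p hp _
      exact hp
  have D : ∀ᶠ p : ℝ × ℝ in 𝓝 (θ, s), |p.1 - n| < 1 - μ.ep := by
    have h1 : Continuous fun p : ℝ × ℝ => |p.1 - n| := by fun_prop
    exact h1.continuousAt.tendsto.eventually (gt_mem_nhds h)
  constructor
  · filter_upwards [A, B, D] with p h1 h2 h3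
    exact (pt_eq (θ := p.1) (s := p.2) h3.le h1 h2).1
  · filter_upwards [A, B, D] with p h1 h2 h3
    exact (pt_eq (θ := p.1) (s := p.2) h3.le h1 h2).2

theorem contDiffAt {n : ℤ} {θ s : ℝ} (h : |θ - n| < 1 - μ.ep)
    (hR₁ : n + μ.ep ≤ θ → ∀ᶠ t in 𝓝 s, C.Rel μ (n + 1) t) (hR₀ : θ ≤ n - μ.ep → ∀ᶠ t in 𝓝 s, C.Rel μ n t) :
    ContDiffAt ℝ ∞ (C.pt μ) (θ, s) ∧ ContDiffAt ℝ ∞ (C.prim μ) (θ, s) := by
  have h1 := pt_near h hR₁ hR₀
  have h2 : ContDiff ℝ ∞ fun p : ℝ × ℝ => ((p.1 - n, p.2) : ℝ × ℝ) :=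
    (contDiff_fst.sub contDiff_const).prodMk contDiff_snd
  exact ⟨((((C.cell n).pt_contDiff μ).comp h2).contDiffAt).congr_of_eventuallyEq h1.1,
    ((((C.cell n).prim_contDiff μ).comp h2).contDiffAt).congr_of_eventuallyEq h1.2⟩

theorem fderiv_shift {E : Type*} [NormedAddCommGroup E] [NormedSpace ℝ E] {F : ℝ × ℝ → E} (hF : ContDiff ℝ ∞ F)
    (n : ℝ) (p v : ℝ × ℝ) :
    fderiv ℝ (fun p : ℝ × ℝ => F (p.1 - n, p.2)) p v = fderiv ℝ F (p.1 - n, p.2) v := by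
  have h1 : HasFDerivAt (fun p : ℝ × ℝ => ((p.1 - n, p.2) : ℝ × ℝ)) (ContinuousLinearMap.id ℝ (ℝ × ℝ)) p := by
    have h2 : HasFDerivAt (fun p : ℝ × ℝ => p - ((n, 0) : ℝ × ℝ)) (ContinuousLinearMap.id ℝ (ℝ × ℝ)) p :=
      (hasFDerivAt_id p).sub_const _
    have h3 : (fun p : ℝ × ℝ => p - ((n, 0) : ℝ × ℝ)) = fun p : ℝ × ℝ => ((p.1 - n, p.2) : ℝ × ℝ) := by
      funext p
      ext
      · rfl
      · exact sub_zero p.2
    rwa [h3] at h2
  have h4 : HasFDerivAt F (fderiv ℝ F (p.1 - n, p.2)) (p.1 - n, p.2) :=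
    (hF.differentiable (by simp) _).hasFDerivAt
  have h5 := (HasFDerivAt.comp p h4 h1).fderiv
  have h6 : fderiv ℝ (fun p : ℝ × ℝ => F (p.1 - n, p.2)) p
      = (fderiv ℝ F (p.1 - n, p.2)).comp (ContinuousLinearMap.id ℝ (ℝ × ℝ)) := h5
  rw [h6]
  rfl

theorem fderiv_eq {n : ℤ} {θ s : ℝ} (h : |θ - n| < 1 - μ.ep)
    (hR₁ : n + μ.ep ≤ θ → ∀ᶠ t in 𝓝 s, C.Rel μ (n + 1) t) (hR₀ : θ ≤ n - μ.ep → ∀ᶠ t in 𝓝 s, C.Rel μ n t)
    (v : ℝ × ℝ) : fderiv ℝ (C.pt μ) (θ, s) v = fderiv ℝ ((C.cell n).pt μ) (θ - n, s) v ∧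
      fderiv ℝ (C.prim μ) (θ, s) v = fderiv ℝ ((C.cell n).prim μ) (θ - n, s) v := by
  have h1 := pt_near h hR₁ hR₀
  constructor
  · rw [Filter.EventuallyEq.fderiv_eq h1.1]
    exact fderiv_shift ((C.cell n).pt_contDiff μ) n (θ, s) v
  · rw [Filter.EventuallyEq.fderiv_eq h1.2]
    exact fderiv_shift ((C.cell n).prim_contDiff μ) n (θ, s) v

/-- `d prim = Y dx + τ ds` -/
theorem prim_fderiv {n : ℤ} {θ s : ℝ} (h : |θ - n| < 1 - μ.ep)
    (hR₁ : n + μ.ep ≤ θ → ∀ᶠ t in 𝓝 s, C.Rel μ (n + 1) t) (hR₀ : θ ≤ n - μ.ep → ∀ᶠ t in 𝓝 s, C.Rel μ n t)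
    (v : ℝ × ℝ) : fderiv ℝ (C.prim μ) (θ, s) v =
      (C.pt μ (θ, s)).2.2.1 * (fderiv ℝ (C.pt μ) (θ, s) v).1 +
        (C.pt μ (θ, s)).2.2.2 * (fderiv ℝ (C.pt μ) (θ, s) v).2.1 := by
  have h1 := fderiv_eq h hR₁ hR₀ v
  rw [h1.1, h1.2, (pt_eq h.le hR₁ hR₀).1]
  exact (C.cell n).prim_fderiv μ _ v

/-- the vertex `n` is straight or a fold with different neighbours -/
def Good (C : CellChain) (n : ℤ) (s : ℝ) : Prop := (C.x n - C.x (n - 1) = C.x (n + 1) - C.x n ∧ C.x n ≠ C.x (n - 1)) ∨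
  (C.x (n - 1) = C.x (n + 1) ∧ C.x n ≠ C.x (n - 1) ∧ C.y (n - 1) s ≠ C.y (n + 1) s)

theorem imm {n : ℤ} {θ s : ℝ} (h : |θ - n| < 1 - μ.ep)
    (hR₁ : n + μ.ep ≤ θ → ∀ᶠ t in 𝓝 s, C.Rel μ (n + 1) t) (hR₀ : θ ≤ n - μ.ep → ∀ᶠ t in 𝓝 s, C.Rel μ n t)
    (hg : C.Good n s) : Function.Injective (fderiv ℝ (C.pt μ) (θ, s)) := by
  have h1 : fderiv ℝ (C.pt μ) (θ, s) = fderiv ℝ ((C.cell n).pt μ) (θ - n, s) :=
    ContinuousLinearMap.ext fun v => (fderiv_eq h hR₁ hR₀ v).1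
  rw [h1]
  exact (C.cell n).pt_imm μ _ hg

/-- a closed chain -/
def Per (C : CellChain) (N : ℤ) : Prop := ∀ n, C.x (n + N) = C.x n ∧ C.y (n + N) = C.y n ∧ C.f (n + N) = C.f n

theorem Per.cell {N : ℤ} (h : C.Per N) (n : ℤ) : C.cell (n + N) = C.cell n := by
  have e1 : n + N - 1 = n - 1 + N := by ring
  have e2 : n + N + 1 = n + 1 + N := by ring
  unfold CellChain.cell
  simp only [e1, e2, (h _).1, (h _).2.1, (h _).2.2]

end CellChain

theorem glue_per {E : Type*} {c : ℤ → ℝ → E} {N : ℤ} (h : ∀ n, c (n + N) = c n) (θ : ℝ) :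
    glue c (θ + N) = glue c θ := by
  unfold glue
  rw [round_add_intCast, h]
  congr 1
  push_cast
  ring

theorem CellChain.Per.pt {μ : Moll} {C : CellChain} {N : ℤ} (h : C.Per N) (θ s : ℝ) :
    C.pt μ (θ + N, s) = C.pt μ (θ, s) ∧ C.prim μ (θ + N, s) = C.prim μ (θ, s) := by
  constructor
  · exact glue_per (c := fun n v => (C.cell n).pt μ (v, s)) (fun n => by simp only [h.cell]) θ
  · exact glue_per (c := fun n v => (C.cell n).prim μ (v, s)) (fun n => by simp only [h.cell]) θ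

end Pool.Agent.Lib_MP_59ec1f_cap
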