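import Pool.Agent.Lib_MP_59ec1f_cap.SadD

/-!
# The chart `(v, s)` of the saddle template
-/

set_option autoImplicit false

open scoped ContDiff

namespace Pool.Agent.Lib_MP_59ec1f_cap

namespace Sad

variable (μ : Moll) (D : Sad)

private noncomputable def sadC1Y (σ : ℝ) (p : ℝ × ℝ) : ℝ := σ * Real.sqrt (μ.Q p.1 ^ 2 - D.E p.2)

private theorem sadC1_contDiffOn (σ : ℝ) :
    ContDiffOn ℝ ∞ (sadC1Y μ D σ) {p | D.E p.2 < μ.Q p.1 ^ 2} := by
  unfold sadC1Y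
  apply ContDiffOn.mul contDiffOn_const
  apply ContDiffOn.sqrt
  · apply ContDiff.contDiffOn
    exact ((μ.Q_contDiff.comp contDiff_fst).pow 2).sub (D.hE.comp contDiff_snd)
  · intro p hp
    exact (sub_pos.2 hp).ne'

private theorem sadC1_hasFDerivAt (σ : ℝ) {p : ℝ × ℝ} (hp : D.E p.2 < μ.Q p.1 ^ 2) :
    ∃ f' : ℝ × ℝ →L[ℝ] ℝ, HasFDerivAt (sadC1Y μ D σ) f' p ∧
      ∀ k : ℝ × ℝ, f' k = σ * ((1 / (2 * Real.sqrt (μ.Q p.1 ^ 2 - D.E p.2))) *
        (2 * μ.Q p.1 * (deriv μ.Q p.1 * k.1) - deriv D.E p.2 * k.2)) := by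
  have hQ : HasDerivAt μ.Q (deriv μ.Q p.1) p.1 :=
    (μ.Q_contDiff.differentiable (by simp) p.1).hasDerivAt
  have hE : HasDerivAt D.E (deriv D.E p.2) p.2 :=
    (D.hE.differentiable (by simp) p.2).hasDerivAt
  have h1 : HasFDerivAt (fun p : ℝ × ℝ => μ.Q p.1)
      (deriv μ.Q p.1 • ContinuousLinearMap.fst ℝ ℝ ℝ) p :=
    hQ.comp_hasFDerivAt p hasFDerivAt_fst
  have h2 : HasFDerivAt (fun p : ℝ × ℝ => D.E p.2)
      (deriv D.E p.2 • ContinuousLinearMap.snd ℝ ℝ ℝ) p :=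
    hE.comp_hasFDerivAt p hasFDerivAt_snd
  have h3 := (h1.pow 2).sub h2
  have h4 := (h3.sqrt (sub_pos.2 hp).ne').const_mul σ
  refine ⟨_, h4, ?_⟩
  intro k
  simp

/-- The chart `(v, s)` on the side `y > 0` (`σ = 1`) or `y < 0` (`σ = -1`). Smooth because `Q v ^ 2 - E s > 0`. Immersed: the
`s`-coordinate is `s`, and the `v`-derivative of the plane point is not zero: in the basis `a, b` the point is
`(y/Q) (S v, S (-v))`, its `v`-derivative is `(y/Q)' (S v, S (-v)) + (y/Q) (S' v, -S' (-v))`, the determinant with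
`(S v, S (-v))` is `-(y/Q) (S v S' (-v) + S (-v) S' v)`, not zero for `|v| < ep`; for `|v| ≥ ep` the point is on a line and
`y' = v / y`. The primitive: with `y² = Q² - E`, `d prim = Y dx + τ ds` (a computation: `(Y dx - x dY)/2` in the basis is
`κ/2 (P dN - N dP)`, `P = y (1 + r) / 2`, `N = y (1 - r) / 2`, so it is `-(κ/4) y² dr`, `Rt' = Q² r'`). -/
theorem chart1 {σ : ℝ} (hσ : σ = 1 ∨ σ = -1) :
    ContDiffOn ℝ ∞ (fun p : ℝ × ℝ => D.pt μ (σ * Real.sqrt (μ.Q p.1 ^ 2 - D.E p.2)) p.1 p.2)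
      {p | D.E p.2 < μ.Q p.1 ^ 2} ∧
    ContDiffOn ℝ ∞ (fun p : ℝ × ℝ => D.prim μ (σ * Real.sqrt (μ.Q p.1 ^ 2 - D.E p.2)) p.1 p.2)
      {p | D.E p.2 < μ.Q p.1 ^ 2} ∧
    ∀ p : ℝ × ℝ, D.E p.2 < μ.Q p.1 ^ 2 →
      Function.Injective (fderiv ℝ (fun p : ℝ × ℝ => D.pt μ (σ * Real.sqrt (μ.Q p.1 ^ 2 - D.E p.2)) p.1 p.2) p) ∧
      ∀ h, fderiv ℝ (fun p : ℝ × ℝ => D.prim μ (σ * Real.sqrt (μ.Q p.1 ^ 2 - D.E p.2)) p.1 p.2) p h =
        (D.pt μ (σ * Real.sqrt (μ.Q p.1 ^ 2 - D.E p.2)) p.1 p.2).2.2.1 *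
          (fderiv ℝ (fun p : ℝ × ℝ => D.pt μ (σ * Real.sqrt (μ.Q p.1 ^ 2 - D.E p.2)) p.1 p.2) p h).1 +
        (D.pt μ (σ * Real.sqrt (μ.Q p.1 ^ 2 - D.E p.2)) p.1 p.2).2.2.2 *
          (fderiv ℝ (fun p : ℝ × ℝ => D.pt μ (σ * Real.sqrt (μ.Q p.1 ^ 2 - D.E p.2)) p.1 p.2) p h).2.1 := by
  classical
  set Y : ℝ × ℝ → ℝ := sadC1Y μ D σ with hYdef
  have hσ0 : σ ≠ 0 := by
    rcases hσ with h | h <;> rw [h] <;> norm_num
  have hσ2 : σ ^ 2 = 1 := by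
    rcases hσ with h | h <;> rw [h] <;> norm_num
  have hopen : IsOpen {p : ℝ × ℝ | D.E p.2 < μ.Q p.1 ^ 2} := by
    apply isOpen_lt
    · exact D.hE.continuous.comp continuous_snd
    · exact (μ.Q_contDiff.continuous.comp continuous_fst).pow 2
  have hY := sadC1_contDiffOn μ D σ
  have hmap : ContDiffOn ℝ ∞ (fun p : ℝ × ℝ => (Y p, p.1, p.2)) {p | D.E p.2 < μ.Q p.1 ^ 2} :=
    hY.prodMk (contDiffOn_fst.prodMk contDiffOn_snd)
  refine ⟨(D.pt_contDiff μ).comp_contDiffOn hmap, (D.prim_contDiff μ).comp_contDiffOn hmap, ?_⟩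
  intro p hp
  have hpos : 0 < μ.Q p.1 ^ 2 - D.E p.2 := sub_pos.2 hp
  obtain ⟨f', hf', hk⟩ := sadC1_hasFDerivAt μ D σ hp
  have hYd : DifferentiableAt ℝ Y p := hf'.differentiableAt
  have hv : DifferentiableAt ℝ (fun p : ℝ × ℝ => p.1) p := differentiableAt_fst
  have hs : DifferentiableAt ℝ (fun p : ℝ × ℝ => p.2) p := differentiableAt_snd
  have hYp : Y p ^ 2 + D.E p.2 = μ.Q p.1 ^ 2 := by
    show (σ * Real.sqrt (μ.Q p.1 ^ 2 - D.E p.2)) ^ 2 + D.E p.2 = μ.Q p.1 ^ 2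
    rw [mul_pow, hσ2, Real.sq_sqrt hpos.le]
    ring
  have hYne : Y p ≠ 0 := by
    show σ * Real.sqrt (μ.Q p.1 ^ 2 - D.E p.2) ≠ 0
    exact mul_ne_zero hσ0 (Real.sqrt_pos.2 hpos).ne'
  constructor
  · rw [injective_iff_map_eq_zero]
    intro k hk0
    obtain ⟨e1, e2, e3, -⟩ := D.chain_ker μ (y := Y) (v := fun p => p.1) (s := fun p => p.2) hYd hv hs
      (k := k) hk0
    have e2' : k.2 = 0 := by
      have h : HasFDerivAt (fun p : ℝ × ℝ => p.2) (ContinuousLinearMap.snd ℝ ℝ ℝ) p := hasFDerivAt_snd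
      rw [h.fderiv] at e2
      exact e2
    have ev : fderiv ℝ (fun p : ℝ × ℝ => p.1) p k = k.1 := by
      have h : HasFDerivAt (fun p : ℝ × ℝ => p.1) (ContinuousLinearMap.fst ℝ ℝ ℝ) p := hasFDerivAt_fst
      rw [h.fderiv]
      rfl
    have e1' : k.1 = 0 := by
      by_cases hv0 : p.1 = 0
      · rw [ev] at e3
        have hr : deriv μ.r p.1 ≠ 0 := by
          rw [hv0, μ.deriv_r_zero]
          exact (one_div_pos.2 (μ.Q_pos 0)).ne'
        exact (mul_eq_zero.1 e3).resolve_left (mul_ne_zero hYne hr)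
      · rw [hf'.fderiv, hk k, e2', mul_zero, sub_zero] at e1
        have h1 := (mul_eq_zero.1 e1).resolve_left hσ0
        have h2 : (1 / (2 * Real.sqrt (μ.Q p.1 ^ 2 - D.E p.2))) ≠ 0 :=
          (one_div_pos.2 (mul_pos two_pos (Real.sqrt_pos.2 hpos))).ne'
        have h3 := (mul_eq_zero.1 h1).resolve_left h2
        have h4 : 2 * μ.Q p.1 ≠ 0 := (mul_pos two_pos (μ.Q_pos p.1)).ne'
        have h5 := (mul_eq_zero.1 h3).resolve_left h4
        refine (mul_eq_zero.1 h5).resolve_left ?_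
        rcases lt_or_gt_of_ne hv0 with h | h
        · have h6 := μ.deriv_Q_pos (v := -p.1) (by linarith)
          rw [μ.deriv_Q] at h6 ⊢
          rw [neg_neg] at h6
          intro h7
          linarith
        · exact (μ.deriv_Q_pos h).ne'
    exact Prod.ext e1' e2'
  · intro k
    exact D.chain_prim μ (y := Y) (v := fun p => p.1) (s := fun p => p.2) hYd hv hs hYp k

end Sad

end Pool.Agent.Lib_MP_59ec1f_cap
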