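import Pool.Agent.Lib_MP_59ec1f_cap.SadD

/-!
# The chart `(y, v)` of the saddle template
-/

set_option autoImplicit false

open scoped ContDiff

namespace Pool.Agent.Lib_MP_59ec1f_cap

namespace Sad

variable (μ : Moll) (D : Sad)

/-- A smooth local inverse of a smooth function of one variable with nonzero derivative. -/
private theorem sadC2_locInv {E : ℝ → ℝ} (hE : ContDiff ℝ ∞ E) {s₀ : ℝ} (h : deriv E s₀ ≠ 0) :
    ∃ (V : Set ℝ) (g : ℝ → ℝ) (δ : ℝ), IsOpen V ∧ E s₀ ∈ V ∧ 0 < δ ∧ g (E s₀) = s₀ ∧ ContDiffOn ℝ ∞ g V ∧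
      (∀ w ∈ V, E (g w) = w ∧ |g w - s₀| < δ) ∧ ∀ w ∈ V, ∀ s, |s - s₀| < δ → E s = w → g w = s := by
  have hd : ∀ s, HasDerivAt E (deriv E s) s := fun s => (hE.differentiable (by simp) s).hasDerivAt
  have hne : (∞ : WithTop ℕ∞) ≠ 0 := by simp
  have hcd : Continuous (deriv E) := hE.continuous_deriv (by simp)
  let e := (hE.contDiffAt (x := s₀)).toOpenPartialHomeomorph E ((hd s₀).hasFDerivAt_equiv h) hne
  have hs₀ : s₀ ∈ e.source :=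
    (hE.contDiffAt (x := s₀)).mem_toOpenPartialHomeomorph_source ((hd s₀).hasFDerivAt_equiv h) hne
  have hO : IsOpen (e.source ∩ {s | deriv E s ≠ 0}) := e.open_source.inter (isOpen_ne_fun hcd continuous_const)
  obtain ⟨δ, hδ, hball⟩ := Metric.isOpen_iff.1 hO s₀ ⟨hs₀, h⟩
  have hmem : ∀ s, |s - s₀| < δ → s ∈ e.source ∧ deriv E s ≠ 0 := by
    intro s hs
    exact hball (by rw [Metric.mem_ball, Real.dist_eq]; exact hs)
  have hsub : Metric.ball s₀ δ ⊆ e.source := fun s hs => (hball hs).1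
  have hlinv : ∀ s, |s - s₀| < δ → e.symm (E s) = s := fun s hs => e.left_inv (hmem s hs).1
  refine ⟨E '' Metric.ball s₀ δ, e.symm, δ, e.isOpen_image_of_subset_source Metric.isOpen_ball hsub,
    ⟨s₀, Metric.mem_ball_self hδ, rfl⟩, hδ, hlinv s₀ (by simpa using hδ), ?_, ?_, ?_⟩
  · rintro w ⟨s, hs, rfl⟩
    rw [Metric.mem_ball, Real.dist_eq] at hs
    have h1 : HasDerivAt E (deriv E s) (e.symm (E s)) := by
      rw [hlinv s hs]
      exact hd s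
    exact (e.contDiffAt_symm_deriv (hmem s hs).2 (e.map_source (hmem s hs).1) h1 hE.contDiffAt).contDiffWithinAt
  · rintro w ⟨s, hs, rfl⟩
    rw [Metric.mem_ball, Real.dist_eq] at hs
    rw [hlinv s hs]
    exact ⟨rfl, hs⟩
  · rintro w - s hs rfl
    exact hlinv s hs

/-- The chart `(y, v)` near a point with `E' s₀ ≠ 0`: there `s` is a smooth function `T (y, v)` (local inverse of `E`
applied to `Q v ^ 2 - y ^ 2`). Immersed: the derivatives of the plane point with respect to `y` and to `v` are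
independent if `y r' v ≠ 0`; in general: a vector `(h, k)` in the kernel has `h = 0` (the sum of the two coordinates in the
basis `a, b` is `y`), then from `s`: `2 Q Q' k = 0`, so `k = 0` if `v ≠ 0`; if `v = 0` the `τ`-coordinate has the `v`-derivative
`(κ/4) r' 0 E' s₀ ≠ 0` (as `∂T/∂v = 0` there). -/
theorem chart2 {y₀ v₀ s₀ : ℝ} (h₀ : y₀ ^ 2 + D.E s₀ = μ.Q v₀ ^ 2) (hE : deriv D.E s₀ ≠ 0) :
    ∃ (U : Set (ℝ × ℝ)) (T : ℝ × ℝ → ℝ) (δ : ℝ), IsOpen U ∧ (y₀, v₀) ∈ U ∧ 0 < δ ∧ T (y₀, v₀) = s₀ ∧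
      ContDiffOn ℝ ∞ T U ∧ (∀ p ∈ U, p.1 ^ 2 + D.E (T p) = μ.Q p.2 ^ 2 ∧ |T p - s₀| < δ) ∧
      (∀ p ∈ U, ∀ s, |s - s₀| < δ → p.1 ^ 2 + D.E s = μ.Q p.2 ^ 2 → T p = s) ∧
      ContDiffOn ℝ ∞ (fun p => D.pt μ p.1 p.2 (T p)) U ∧ ContDiffOn ℝ ∞ (fun p => D.prim μ p.1 p.2 (T p)) U ∧
      Function.Injective (fderiv ℝ (fun p => D.pt μ p.1 p.2 (T p)) (y₀, v₀)) ∧
      ∀ p ∈ U, ∀ h, fderiv ℝ (fun p => D.prim μ p.1 p.2 (T p)) p h =
        (D.pt μ p.1 p.2 (T p)).2.2.1 * (fderiv ℝ (fun p => D.pt μ p.1 p.2 (T p)) p h).1 +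
        (D.pt μ p.1 p.2 (T p)).2.2.2 * (fderiv ℝ (fun p => D.pt μ p.1 p.2 (T p)) p h).2.1 := by
  obtain ⟨V, g, δ, hV, hV0, hδ, hg0, hg, hinv, huniq⟩ := sadC2_locInv D.hE hE
  have hφ : ContDiff ℝ ∞ (fun p : ℝ × ℝ => μ.Q p.2 ^ 2 - p.1 ^ 2) :=
    ((μ.Q_contDiff.comp contDiff_snd).pow 2).sub (contDiff_fst.pow 2)
  have h0 : μ.Q v₀ ^ 2 - y₀ ^ 2 = D.E s₀ := by linarith
  have hU : IsOpen {p : ℝ × ℝ | μ.Q p.2 ^ 2 - p.1 ^ 2 ∈ V} := hV.preimage hφ.continuous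
  have hU0 : (y₀, v₀) ∈ {p : ℝ × ℝ | μ.Q p.2 ^ 2 - p.1 ^ 2 ∈ V} := by
    show μ.Q v₀ ^ 2 - y₀ ^ 2 ∈ V
    rw [h0]
    exact hV0
  have hT0 : g (μ.Q v₀ ^ 2 - y₀ ^ 2) = s₀ := by rw [h0, hg0]
  have hT : ContDiffOn ℝ ∞ (fun p : ℝ × ℝ => g (μ.Q p.2 ^ 2 - p.1 ^ 2)) {p : ℝ × ℝ | μ.Q p.2 ^ 2 - p.1 ^ 2 ∈ V} :=
    hg.comp hφ.contDiffOn (fun p hp => hp)
  have heq : ∀ p ∈ {p : ℝ × ℝ | μ.Q p.2 ^ 2 - p.1 ^ 2 ∈ V},
      p.1 ^ 2 + D.E (g (μ.Q p.2 ^ 2 - p.1 ^ 2)) = μ.Q p.2 ^ 2 := by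
    intro p hp
    rw [(hinv _ hp).1]
    ring
  have hTd : ∀ p ∈ {p : ℝ × ℝ | μ.Q p.2 ^ 2 - p.1 ^ 2 ∈ V},
      DifferentiableAt ℝ (fun p : ℝ × ℝ => g (μ.Q p.2 ^ 2 - p.1 ^ 2)) p := fun p hp =>
    (hT.differentiableOn (by simp)).differentiableAt (hU.mem_nhds hp)
  have hmap : ContDiffOn ℝ ∞ (fun p : ℝ × ℝ => (p.1, p.2, g (μ.Q p.2 ^ 2 - p.1 ^ 2)))
      {p : ℝ × ℝ | μ.Q p.2 ^ 2 - p.1 ^ 2 ∈ V} := contDiffOn_fst.prodMk (contDiffOn_snd.prodMk hT)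
  refine ⟨{p | μ.Q p.2 ^ 2 - p.1 ^ 2 ∈ V}, fun p => g (μ.Q p.2 ^ 2 - p.1 ^ 2), δ, hU, hU0, hδ, hT0, hT,
    fun p hp => ⟨heq p hp, (hinv _ hp).2⟩, ?_, (D.pt_contDiff μ).comp_contDiffOn hmap,
    (D.prim_contDiff μ).comp_contDiffOn hmap, ?_, ?_⟩
  · intro p hp s hs hps
    exact huniq _ hp s hs (by linarith)
  · rw [injective_iff_map_eq_zero]
    intro k hk0
    obtain ⟨e1, e2, -, e4⟩ := D.chain_ker μ (y := fun p => p.1) (v := fun p => p.2)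
      (s := fun p => g (μ.Q p.2 ^ 2 - p.1 ^ 2)) differentiableAt_fst differentiableAt_snd (hTd _ hU0) (k := k) hk0
    have hf1 : HasFDerivAt (fun p : ℝ × ℝ => p.1) (ContinuousLinearMap.fst ℝ ℝ ℝ) (y₀, v₀) := hasFDerivAt_fst
    have hf2 : HasFDerivAt (fun p : ℝ × ℝ => p.2) (ContinuousLinearMap.snd ℝ ℝ ℝ) (y₀, v₀) := hasFDerivAt_snd
    have e1' : k.1 = 0 := by
      rw [hf1.fderiv] at e1
      exact e1
    have e4' : deriv μ.r v₀ * deriv D.E s₀ * k.2 = 0 := by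
      rw [hf2.fderiv] at e4
      have e5 : deriv μ.r v₀ * deriv D.E (g (μ.Q v₀ ^ 2 - y₀ ^ 2)) * k.2 = 0 := e4
      rw [hT0] at e5
      exact e5
    have e2' : k.2 = 0 := by
      by_cases hv0 : v₀ = 0
      · have hr : deriv μ.r v₀ ≠ 0 := by
          rw [hv0, μ.deriv_r_zero]
          exact (one_div_pos.2 (μ.Q_pos 0)).ne'
        exact (mul_eq_zero.1 e4').resolve_left (mul_ne_zero hr hE)
      · have hQ : HasFDerivAt (fun p : ℝ × ℝ => μ.Q p.2) (deriv μ.Q v₀ • ContinuousLinearMap.snd ℝ ℝ ℝ) (y₀, v₀) :=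
          HasDerivAt.comp_hasFDerivAt (f := fun p : ℝ × ℝ => p.2) (h₂ := μ.Q) (y₀, v₀) (μ.hasDerivAt_Q v₀) hf2
        have hEd : HasFDerivAt (fun p : ℝ × ℝ => D.E (g (μ.Q p.2 ^ 2 - p.1 ^ 2)))
            (deriv D.E (g (μ.Q v₀ ^ 2 - y₀ ^ 2)) •
              fderiv ℝ (fun p : ℝ × ℝ => g (μ.Q p.2 ^ 2 - p.1 ^ 2)) (y₀, v₀)) (y₀, v₀) :=
          ((D.hE.differentiable (by simp) (g (μ.Q v₀ ^ 2 - y₀ ^ 2))).hasDerivAt).comp_hasFDerivAt (y₀, v₀)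
            (hTd _ hU0).hasFDerivAt
        have hF := ((hf1.pow 2).add hEd).sub (hQ.pow 2)
        have hF0 : (fun p : ℝ × ℝ => p.1 ^ 2 + D.E (g (μ.Q p.2 ^ 2 - p.1 ^ 2)) - μ.Q p.2 ^ 2) =ᶠ[nhds (y₀, v₀)]
            fun _ => (0 : ℝ) := by
          filter_upwards [hU.mem_nhds hU0] with p hp
          rw [heq p hp, sub_self]
        have hz := hF.unique ((hasFDerivAt_const (0 : ℝ) (y₀, v₀)).congr_of_eventuallyEq hF0)
        have hz' := DFunLike.congr_fun hz k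
        simp only [sub_apply, add_apply, smul_apply, ContinuousLinearMap.coe_fst', ContinuousLinearMap.coe_snd',
          smul_eq_mul, zero_apply, e1', e2, mul_zero, zero_add] at hz'
        have h4 : μ.Q v₀ ≠ 0 := (μ.Q_pos v₀).ne'
        have h3 : deriv μ.Q v₀ ≠ 0 := by
          rcases lt_or_gt_of_ne hv0 with h | h
          · have h6 := μ.deriv_Q_pos (v := -v₀) (by linarith)
            rw [μ.deriv_Q] at h6 ⊢
            rw [neg_neg] at h6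
            intro h7
            linarith
          · exact (μ.deriv_Q_pos h).ne'
        have h5 : μ.Q v₀ * deriv μ.Q v₀ * k.2 = 0 := by
          simp only [nsmul_eq_mul, Nat.cast_ofNat, Nat.reduceSub, pow_one] at hz'
          linarith
        exact (mul_eq_zero.1 h5).resolve_left (mul_ne_zero h4 h3)
    exact Prod.ext e1' e2'
  · intro p hp k
    exact D.chain_prim μ (y := fun p => p.1) (v := fun p => p.2) (s := fun p => g (μ.Q p.2 ^ 2 - p.1 ^ 2))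
      differentiableAt_fst differentiableAt_snd (hTd p hp) (heq p hp) k

end Sad

end Pool.Agent.Lib_MP_59ec1f_cap
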