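import Pool.Agent.Lib_MP_59ec1f_cap.SadRt

/-!
# The differential of the saddle template
-/

set_option autoImplicit false

open scoped ContDiff

namespace Pool.Agent.Lib_MP_59ec1f_cap

namespace Sad

variable (μ : Moll) (D : Sad)

private theorem Q_hasDerivAt (v : ℝ) : HasDerivAt μ.Q (deriv μ.Q v) v :=
  (μ.Q_contDiff.differentiable (by simp) v).hasDerivAt

private theorem r_hasDerivAt (v : ℝ) : HasDerivAt μ.r (deriv μ.r v) v :=
  (μ.r_contDiff.differentiable (by simp) v).hasDerivAt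

theorem deriv_r_mul (v : ℝ) : μ.Q v ^ 2 * deriv μ.r v = μ.Q v - v * deriv μ.Q v := by
  have hQ : μ.Q v ≠ 0 := (μ.Q_pos v).ne'
  have h : HasDerivAt μ.r ((1 * μ.Q v - v * deriv μ.Q v) / μ.Q v ^ 2) v :=
    (hasDerivAt_id v).div (Q_hasDerivAt μ v) hQ
  rw [h.deriv]
  field_simp

private theorem S_neg (v : ℝ) : μ.S (-v) = (μ.Q v - v) / 2 := by
  rw [μ.S_eq (-v), μ.Q_neg]
  ring

theorem dx_eq (y v : ℝ) : D.dx μ y v = y * (((1 + μ.r v) * D.a.1 + (1 - μ.r v) * D.b.1) / 2) := by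
  have hQ : μ.Q v ≠ 0 := (μ.Q_pos v).ne'
  unfold dx Moll.r
  rw [S_neg, μ.S_eq v]
  field_simp

theorem dy_eq (y v : ℝ) : D.dy μ y v = y * (((1 + μ.r v) * D.a.2 + (1 - μ.r v) * D.b.2) / 2) := by
  have hQ : μ.Q v ≠ 0 := (μ.Q_pos v).ne'
  unfold dy Moll.r
  rw [S_neg, μ.S_eq v]
  field_simp

private theorem dE_contDiff : ContDiff ℝ ∞ (deriv D.E) := (contDiff_infty_iff_deriv.1 D.hE).2

private theorem dM_contDiff : ContDiff ℝ ∞ (deriv D.M) := (contDiff_infty_iff_deriv.1 D.hM).2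

private theorem dx_contDiff : ContDiff ℝ ∞ (fun p : ℝ × ℝ × ℝ => D.dx μ p.1 p.2.1) := by
  have h : (fun p : ℝ × ℝ × ℝ => D.dx μ p.1 p.2.1) =
      fun p => p.1 * (((1 + μ.r p.2.1) * D.a.1 + (1 - μ.r p.2.1) * D.b.1) / 2) := by
    funext p
    exact D.dx_eq μ _ _
  rw [h]
  have hr : ContDiff ℝ ∞ (fun p : ℝ × ℝ × ℝ => μ.r p.2.1) := μ.r_contDiff.comp (contDiff_fst.comp contDiff_snd)
  exact contDiff_fst.mul ((((contDiff_const.add hr).mul contDiff_const).add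
    ((contDiff_const.sub hr).mul contDiff_const)).div_const _)

private theorem dy_contDiff : ContDiff ℝ ∞ (fun p : ℝ × ℝ × ℝ => D.dy μ p.1 p.2.1) := by
  have h : (fun p : ℝ × ℝ × ℝ => D.dy μ p.1 p.2.1) =
      fun p => p.1 * (((1 + μ.r p.2.1) * D.a.2 + (1 - μ.r p.2.1) * D.b.2) / 2) := by
    funext p
    exact D.dy_eq μ _ _
  rw [h]
  have hr : ContDiff ℝ ∞ (fun p : ℝ × ℝ × ℝ => μ.r p.2.1) := μ.r_contDiff.comp (contDiff_fst.comp contDiff_snd)
  exact contDiff_fst.mul ((((contDiff_const.add hr).mul contDiff_const).add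
    ((contDiff_const.sub hr).mul contDiff_const)).div_const _)

theorem pt_contDiff : ContDiff ℝ ∞ (fun p : ℝ × ℝ × ℝ => D.pt μ p.1 p.2.1 p.2.2) := by
  have hr : ContDiff ℝ ∞ (fun p : ℝ × ℝ × ℝ => μ.r p.2.1) := μ.r_contDiff.comp (contDiff_fst.comp contDiff_snd)
  have hs : ContDiff ℝ ∞ (fun p : ℝ × ℝ × ℝ => p.2.2) := contDiff_snd.comp contDiff_snd
  exact (contDiff_const.add (D.dx_contDiff μ)).prodMk (hs.prodMk ((contDiff_const.add (D.dy_contDiff μ)).prodMk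
    ((D.dM_contDiff.comp hs).add ((contDiff_const.mul hr).mul (D.dE_contDiff.comp hs)))))

theorem prim_contDiff : ContDiff ℝ ∞ (fun p : ℝ × ℝ × ℝ => D.prim μ p.1 p.2.1 p.2.2) := by
  have hv : ContDiff ℝ ∞ (fun p : ℝ × ℝ × ℝ => p.2.1) := contDiff_fst.comp contDiff_snd
  have hr : ContDiff ℝ ∞ (fun p : ℝ × ℝ × ℝ => μ.r p.2.1) := μ.r_contDiff.comp hv
  have hR : ContDiff ℝ ∞ (fun p : ℝ × ℝ × ℝ => μ.Rt p.2.1) := μ.Rt_contDiff.comp hv
  have hs : ContDiff ℝ ∞ (fun p : ℝ × ℝ × ℝ => p.2.2) := contDiff_snd.comp contDiff_snd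
  exact ((((D.hM.comp hs).add (contDiff_const.mul (D.dx_contDiff μ))).add
    (((D.dx_contDiff μ).mul (D.dy_contDiff μ)).div_const _)).sub (contDiff_const.mul hR)).add
    ((contDiff_const.mul (D.hE.comp hs)).mul hr)

private theorem arm_hasFDerivAt {y v : ℝ × ℝ → ℝ} {p : ℝ × ℝ} (hy : DifferentiableAt ℝ y p)
    (hv : DifferentiableAt ℝ v p) (c d : ℝ) :
    HasFDerivAt (fun p => y p * (((1 + μ.r (v p)) * c + (1 - μ.r (v p)) * d) / 2))
      ((((1 + μ.r (v p)) * c + (1 - μ.r (v p)) * d) / 2) • fderiv ℝ y p +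
        (y p * deriv μ.r (v p) * ((c - d) / 2)) • fderiv ℝ v p) p := by
  have hr : HasFDerivAt (fun p => μ.r (v p)) (deriv μ.r (v p) • fderiv ℝ v p) p :=
    (r_hasDerivAt μ (v p)).comp_hasFDerivAt p hv.hasFDerivAt
  have h1 := hy.hasFDerivAt.mul ((((hr.const_add 1).mul_const c).add ((hr.const_sub 1).mul_const d)).mul_const (1 / 2))
  have h2 : (fun p => y p * (((1 + μ.r (v p)) * c + (1 - μ.r (v p)) * d) / 2)) =
      fun p => y p * (((1 + μ.r (v p)) * c + (1 - μ.r (v p)) * d) * (1 / 2)) := by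
    funext p
    ring
  rw [h2]
  refine h1.congr_fderiv ?_
  refine ContinuousLinearMap.ext fun k => ?_
  simp only [Pi.add_apply, add_apply, smul_apply, neg_apply, smul_eq_mul]
  ring

private theorem dx_hasFDerivAt {y v : ℝ × ℝ → ℝ} {p : ℝ × ℝ} (hy : DifferentiableAt ℝ y p)
    (hv : DifferentiableAt ℝ v p) :
    HasFDerivAt (fun p => D.dx μ (y p) (v p))
      ((((1 + μ.r (v p)) * D.a.1 + (1 - μ.r (v p)) * D.b.1) / 2) • fderiv ℝ y p +
        (y p * deriv μ.r (v p) * ((D.a.1 - D.b.1) / 2)) • fderiv ℝ v p) p := by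
  have h : (fun p => D.dx μ (y p) (v p)) =
      fun p => y p * (((1 + μ.r (v p)) * D.a.1 + (1 - μ.r (v p)) * D.b.1) / 2) := by
    funext p
    exact D.dx_eq μ _ _
  rw [h]
  exact arm_hasFDerivAt μ hy hv _ _

private theorem dy_hasFDerivAt {y v : ℝ × ℝ → ℝ} {p : ℝ × ℝ} (hy : DifferentiableAt ℝ y p)
    (hv : DifferentiableAt ℝ v p) :
    HasFDerivAt (fun p => D.dy μ (y p) (v p))
      ((((1 + μ.r (v p)) * D.a.2 + (1 - μ.r (v p)) * D.b.2) / 2) • fderiv ℝ y p +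
        (y p * deriv μ.r (v p) * ((D.a.2 - D.b.2) / 2)) • fderiv ℝ v p) p := by
  have h : (fun p => D.dy μ (y p) (v p)) =
      fun p => y p * (((1 + μ.r (v p)) * D.a.2 + (1 - μ.r (v p)) * D.b.2) / 2) := by
    funext p
    exact D.dy_eq μ _ _
  rw [h]
  exact arm_hasFDerivAt μ hy hv _ _

private theorem tau_hasFDerivAt {v s : ℝ × ℝ → ℝ} {p : ℝ × ℝ} (hv : DifferentiableAt ℝ v p)
    (hs : DifferentiableAt ℝ s p) :
    HasFDerivAt (fun p => deriv D.M (s p) + D.kap / 4 * μ.r (v p) * deriv D.E (s p))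
      ((deriv (deriv D.M) (s p) + D.kap / 4 * μ.r (v p) * deriv (deriv D.E) (s p)) • fderiv ℝ s p +
        (D.kap / 4 * deriv μ.r (v p) * deriv D.E (s p)) • fderiv ℝ v p) p := by
  have hr : HasFDerivAt (fun p => μ.r (v p)) (deriv μ.r (v p) • fderiv ℝ v p) p :=
    (r_hasDerivAt μ (v p)).comp_hasFDerivAt p hv.hasFDerivAt
  have hM : HasFDerivAt (fun p => deriv D.M (s p)) (deriv (deriv D.M) (s p) • fderiv ℝ s p) p :=
    ((D.dM_contDiff.differentiable (by simp) (s p)).hasDerivAt).comp_hasFDerivAt p hs.hasFDerivAt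
  have hE : HasFDerivAt (fun p => deriv D.E (s p)) (deriv (deriv D.E) (s p) • fderiv ℝ s p) p :=
    ((D.dE_contDiff.differentiable (by simp) (s p)).hasDerivAt).comp_hasFDerivAt p hs.hasFDerivAt
  refine (hM.add ((hr.const_mul (D.kap / 4)).mul hE)).congr_fderiv ?_
  refine ContinuousLinearMap.ext fun k => ?_
  simp only [add_apply, smul_apply, smul_eq_mul]
  ring

private theorem pt_hasFDerivAt {y v s : ℝ × ℝ → ℝ} {p : ℝ × ℝ} (hy : DifferentiableAt ℝ y p)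
    (hv : DifferentiableAt ℝ v p) (hs : DifferentiableAt ℝ s p) :
    HasFDerivAt (fun p => D.pt μ (y p) (v p) (s p))
      ((((((1 + μ.r (v p)) * D.a.1 + (1 - μ.r (v p)) * D.b.1) / 2) • fderiv ℝ y p +
        (y p * deriv μ.r (v p) * ((D.a.1 - D.b.1) / 2)) • fderiv ℝ v p)).prod ((fderiv ℝ s p).prod
      (((((1 + μ.r (v p)) * D.a.2 + (1 - μ.r (v p)) * D.b.2) / 2) • fderiv ℝ y p +
        (y p * deriv μ.r (v p) * ((D.a.2 - D.b.2) / 2)) • fderiv ℝ v p).prod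
      ((deriv (deriv D.M) (s p) + D.kap / 4 * μ.r (v p) * deriv (deriv D.E) (s p)) • fderiv ℝ s p +
        (D.kap / 4 * deriv μ.r (v p) * deriv D.E (s p)) • fderiv ℝ v p)))) p :=
  ((D.dx_hasFDerivAt μ hy hv).const_add _).prodMk (hs.hasFDerivAt.prodMk
    (((D.dy_hasFDerivAt μ hy hv).const_add _).prodMk (D.tau_hasFDerivAt μ hv hs)))

/-- On the surface `d prim = Y dx + τ ds`; as functions of the three parameters `d prim = Y dx + τ ds - κ/4 (Q² - E - y²) r' dv`. -/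
theorem chain_prim {y v s : ℝ × ℝ → ℝ} {p : ℝ × ℝ} (hy : DifferentiableAt ℝ y p) (hv : DifferentiableAt ℝ v p)
    (hs : DifferentiableAt ℝ s p) (h : y p ^ 2 + D.E (s p) = μ.Q (v p) ^ 2) (k : ℝ × ℝ) :
    fderiv ℝ (fun p => D.prim μ (y p) (v p) (s p)) p k =
      (D.pt μ (y p) (v p) (s p)).2.2.1 * (fderiv ℝ (fun p => D.pt μ (y p) (v p) (s p)) p k).1 +
      (D.pt μ (y p) (v p) (s p)).2.2.2 * (fderiv ℝ (fun p => D.pt μ (y p) (v p) (s p)) p k).2.1 := by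
  have hX := D.dx_hasFDerivAt μ hy hv
  have hY := D.dy_hasFDerivAt μ hy hv
  have hr : HasFDerivAt (fun p => μ.r (v p)) (deriv μ.r (v p) • fderiv ℝ v p) p :=
    (r_hasDerivAt μ (v p)).comp_hasFDerivAt p hv.hasFDerivAt
  have hR : HasFDerivAt (fun p => μ.Rt (v p)) ((μ.Q (v p) - v p * deriv μ.Q (v p)) • fderiv ℝ v p) p :=
    (μ.hasDerivAt_Rt (v p)).comp_hasFDerivAt p hv.hasFDerivAt
  have hM : HasFDerivAt (fun p => D.M (s p)) (deriv D.M (s p) • fderiv ℝ s p) p :=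
    ((D.hM.differentiable (by simp) (s p)).hasDerivAt).comp_hasFDerivAt p hs.hasFDerivAt
  have hE : HasFDerivAt (fun p => D.E (s p)) (deriv D.E (s p) • fderiv ℝ s p) p :=
    ((D.hE.differentiable (by simp) (s p)).hasDerivAt).comp_hasFDerivAt p hs.hasFDerivAt
  have h1 := ((((hM.add (hX.const_mul D.q.2)).add ((hX.mul hY).mul_const (1 / 2))).sub
    (hR.const_mul (D.kap / 4))).add ((hE.const_mul (D.kap / 4)).mul hr))
  have h2 : (fun p => D.prim μ (y p) (v p) (s p)) = fun p => D.M (s p) + D.q.2 * D.dx μ (y p) (v p) +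
      D.dx μ (y p) (v p) * D.dy μ (y p) (v p) * (1 / 2) - D.kap / 4 * μ.Rt (v p) +
      D.kap / 4 * D.E (s p) * μ.r (v p) := by
    funext p
    unfold prim
    ring
  have h3 : fderiv ℝ (fun p => D.M (s p) + D.q.2 * D.dx μ (y p) (v p) +
      D.dx μ (y p) (v p) * D.dy μ (y p) (v p) * (1 / 2) - D.kap / 4 * μ.Rt (v p) +
      D.kap / 4 * D.E (s p) * μ.r (v p)) p = _ := h1.fderiv
  rw [h2, h3, (D.pt_hasFDerivAt μ hy hv hs).fderiv]
  have hd := deriv_r_mul μ (v p)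
  rw [← h] at hd
  simp only [add_apply, smul_apply, sub_apply, ContinuousLinearMap.prod_apply,
    smul_eq_mul]
  rw [← hd]
  unfold pt
  simp only [D.dx_eq, D.dy_eq]
  unfold kap
  ring

/-- The kernel of the differential of `pt`. -/
theorem chain_ker {y v s : ℝ × ℝ → ℝ} {p : ℝ × ℝ} (hy : DifferentiableAt ℝ y p) (hv : DifferentiableAt ℝ v p)
    (hs : DifferentiableAt ℝ s p) {k : ℝ × ℝ} (h : fderiv ℝ (fun p => D.pt μ (y p) (v p) (s p)) p k = 0) :
    fderiv ℝ y p k = 0 ∧ fderiv ℝ s p k = 0 ∧ y p * deriv μ.r (v p) * fderiv ℝ v p k = 0 ∧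
      deriv μ.r (v p) * deriv D.E (s p) * fderiv ℝ v p k = 0 := by
  rw [(D.pt_hasFDerivAt μ hy hv hs).fderiv] at h
  simp only [add_apply, smul_apply, ContinuousLinearMap.prod_apply, smul_eq_mul, Prod.mk_eq_zero] at h
  obtain ⟨h1, h2, h3, h4⟩ := h
  have hk : D.a.2 * D.b.1 - D.b.2 * D.a.1 ≠ 0 := D.indep
  set Y := fderiv ℝ y p k
  set V := y p * deriv μ.r (v p) * fderiv ℝ v p k with hV
  set ρ := μ.r (v p)
  have e1 : ((1 + ρ) * Y + V) * D.a.1 + ((1 - ρ) * Y - V) * D.b.1 = 0 := by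
    rw [hV]
    linear_combination 2 * h1
  have e2 : ((1 + ρ) * Y + V) * D.a.2 + ((1 - ρ) * Y - V) * D.b.2 = 0 := by
    rw [hV]
    linear_combination 2 * h3
  have e3 : (1 + ρ) * Y + V = 0 := by
    have : ((1 + ρ) * Y + V) * (D.a.2 * D.b.1 - D.b.2 * D.a.1) = 0 := by
      linear_combination D.b.1 * e2 - D.b.2 * e1
    exact (mul_eq_zero.1 this).resolve_right hk
  have e4 : (1 - ρ) * Y - V = 0 := by
    have : ((1 - ρ) * Y - V) * (D.a.2 * D.b.1 - D.b.2 * D.a.1) = 0 := by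
      linear_combination D.a.2 * e1 - D.a.1 * e2
    exact (mul_eq_zero.1 this).resolve_right hk
  have hY0 : Y = 0 := by linear_combination (e3 + e4) / 2
  have hV0 : V = 0 := by
    rw [hY0] at e3
    linear_combination e3
  refine ⟨hY0, h2, hV0, ?_⟩
  rw [h2] at h4
  have hκ : D.kap ≠ 0 := D.indep
  have h5 : D.kap * (deriv μ.r (v p) * deriv D.E (s p) * fderiv ℝ v p k) = 0 := by
    linear_combination 4 * h4
  exact (mul_eq_zero.1 h5).resolve_left hκ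

end Sad

end Pool.Agent.Lib_MP_59ec1f_cap
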