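import Pool.Agent.Lib_MP_59ec1f_cap.MollFacts
import Pool.Agent.Lib_MP_59ec1f_cap.Strips

/-!
# The saddle template

Coordinates `x, s, Y, τ`, `dG = Y dx + τ ds`. Given a point `q` of the plane, two independent vectors `a, b` and smooth functions
`M s, E s`, the surface is `{pt y v s : y² + E s = (Q v)²}`,

`pt y v s = (q + (y / Q v) (S v a + S (-v) b), s, τ = M' s + (κ/4) (v / Q v) E' s)`, `κ = a₂ b₁ - b₂ a₁`.

For `E s = 0` these are the two mollified corners at `q` with the arms `a, b` (`y = Q v`) and `-a, -b` (`y = -Q v`);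
for `E s ≥ ep²` the two straight lines `q + y a` (`v > 0`) and `q + y b` (`v < 0`). The saddle point is `y = v = 0` at
`E s = (Q 0)²`.
-/

set_option autoImplicit false

open scoped ContDiff

namespace Pool.Agent.Lib_MP_59ec1f_cap

namespace Moll

variable (μ : Moll)

/-- `Rt' v = Q v - v Q' v` -/
noncomputable def Rt (v : ℝ) : ℝ := ∫ t in (0 : ℝ)..v, (μ.Q t - t * deriv μ.Q t)

end Moll

/-- the data of a saddle -/
structure Sad where
  q : ℝ × ℝ
  a : ℝ × ℝ
  b : ℝ × ℝ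
  M : ℝ → ℝ
  E : ℝ → ℝ
  hM : ContDiff ℝ ∞ M
  hE : ContDiff ℝ ∞ E
  indep : a.2 * b.1 - b.2 * a.1 ≠ 0

namespace Sad

variable (μ : Moll) (D : Sad)

/-- the determinant `κ` -/
noncomputable def kap : ℝ := D.a.2 * D.b.1 - D.b.2 * D.a.1

/-- `x - q₁` -/
noncomputable def dx (y v : ℝ) : ℝ := y / μ.Q v * (μ.S v * D.a.1 + μ.S (-v) * D.b.1)

/-- `Y - q₂` -/
noncomputable def dy (y v : ℝ) : ℝ := y / μ.Q v * (μ.S v * D.a.2 + μ.S (-v) * D.b.2)

/-- the point with the parameters `y, v` at the time `s` -/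
noncomputable def pt (y v s : ℝ) : P4 :=
  (D.q.1 + D.dx μ y v, s, D.q.2 + D.dy μ y v, deriv D.M s + D.kap / 4 * μ.r v * deriv D.E s)

/-- the primitive -/
noncomputable def prim (y v s : ℝ) : ℝ :=
  D.M s + D.q.2 * D.dx μ y v + D.dx μ y v * D.dy μ y v / 2 - D.kap / 4 * μ.Rt v + D.kap / 4 * D.E s * μ.r v

end Sad

end Pool.Agent.Lib_MP_59ec1f_cap
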