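import Pool.Agent.Lib_MP_59ec1f_cap.Saddle
import Pool.Agent.Lib_MP_59ec1f_cap.LocChart

/-!
# The ends of the strips at a saddle vertex, in the time window of the saddle

`endPt i j (ρ, s)`, `0 ≤ ρ ≤ 1/2`: the end of the strip `(i, j)`; `i` is the sign of `v` and `j` the sign of `y`. For
`E s ≤ (Q 0)²` the ends with the same `j` are glued at `ρ = 0`, for `E s ≥ (Q 0)²` the ends with the same `i`.
-/

set_option autoImplicit false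

open scoped ContDiff
open Filter Topology

namespace Pool.Agent.Lib_MP_59ec1f_cap

namespace Moll

variable (μ : Moll)

/-- the parametrisation of the arcs: `y` -/
noncomputable def xq : ℝ × ℝ → ℝ := Classical.choose (exists_param μ)

/-- the parametrisation of the arcs: `v` -/
noncomputable def vq : ℝ × ℝ → ℝ := Classical.choose (Classical.choose_spec (exists_param μ))

theorem xq_cont : ContinuousOn μ.xq (Set.Icc 0 (1 / 2) ×ˢ Set.Ici 0) :=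
  (Classical.choose_spec (Classical.choose_spec (exists_param μ))).1

theorem vq_cont : ContinuousOn μ.vq (Set.Icc 0 (1 / 2) ×ˢ Set.Ici 0) :=
  (Classical.choose_spec (Classical.choose_spec (exists_param μ))).2.1

theorem q_spec {ρ e : ℝ} (h0 : 0 ≤ ρ) (h1 : ρ ≤ 1 / 2) (he : 0 ≤ e) :
      0 ≤ μ.xq (ρ, e) ∧ 0 ≤ μ.vq (ρ, e) ∧ μ.xq (ρ, e) ^ 2 + e = μ.Q (μ.vq (ρ, e)) ^ 2 ∧
      (1 / 4 ≤ ρ → μ.xq (ρ, e) = ρ) ∧ (1 / 16 ≤ e → μ.xq (ρ, e) = ρ) ∧ (e = 0 → μ.vq (ρ, e) = ρ) ∧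
      (0 < ρ → 0 < μ.xq (ρ, e) ∧ 0 < μ.vq (ρ, e)) ∧ (ρ = 0 → μ.Q 0 ^ 2 ≤ e → μ.xq (ρ, e) = 0) ∧
      (ρ = 0 → e ≤ μ.Q 0 ^ 2 → μ.vq (ρ, e) = 0) ∧
      ∀ ρ', ρ < ρ' → ρ' ≤ 1 / 2 → μ.xq (ρ, e) < μ.xq (ρ', e) :=
  (Classical.choose_spec (Classical.choose_spec (exists_param μ))).2.2 ρ e h0 h1 he

variable {μ}

theorem xq_nonneg {ρ e : ℝ} (h0 : 0 ≤ ρ) (h1 : ρ ≤ 1 / 2) (he : 0 ≤ e) : 0 ≤ μ.xq (ρ, e) := (μ.q_spec h0 h1 he).1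

theorem vq_nonneg {ρ e : ℝ} (h0 : 0 ≤ ρ) (h1 : ρ ≤ 1 / 2) (he : 0 ≤ e) : 0 ≤ μ.vq (ρ, e) := (μ.q_spec h0 h1 he).2.1

theorem q_surf {ρ e : ℝ} (h0 : 0 ≤ ρ) (h1 : ρ ≤ 1 / 2) (he : 0 ≤ e) :
    μ.xq (ρ, e) ^ 2 + e = μ.Q (μ.vq (ρ, e)) ^ 2 := (μ.q_spec h0 h1 he).2.2.1

theorem xq_half {e : ℝ} (he : 0 ≤ e) : μ.xq (1 / 2, e) = 1 / 2 :=
  (μ.q_spec (by norm_num) le_rfl he).2.2.2.1 (by norm_num)

theorem xq_lt_half {ρ e : ℝ} (h0 : 0 ≤ ρ) (h1 : ρ < 1 / 2) (he : 0 ≤ e) : μ.xq (ρ, e) < 1 / 2 := by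
  rw [← μ.xq_half he]
  exact (μ.q_spec h0 h1.le he).2.2.2.2.2.2.2.2.2 _ h1 le_rfl

theorem xq_inj {ρ ρ' e : ℝ} (h0 : 0 ≤ ρ) (h1 : ρ ≤ 1 / 2) (h0' : 0 ≤ ρ') (h1' : ρ' ≤ 1 / 2) (he : 0 ≤ e)
    (h : μ.xq (ρ, e) = μ.xq (ρ', e)) : ρ = ρ' := by
  rcases lt_trichotomy ρ ρ' with h2 | h2 | h2
  · exact absurd h ((μ.q_spec h0 h1 he).2.2.2.2.2.2.2.2.2 _ h2 h1').ne
  · exact h2
  · exact absurd h ((μ.q_spec h0' h1' he).2.2.2.2.2.2.2.2.2 _ h2 h1).ne'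

theorem Q_sg (b : Bool) (v : ℝ) : μ.Q (sg b * v) = μ.Q v := by
  cases b
  · rw [sg_false, neg_mul, one_mul, μ.Q_neg]
  · rw [sg_true, one_mul]

theorem le_of_le_Q {v : ℝ} (h0 : 0 ≤ v) (h : μ.ep ≤ μ.Q v) : μ.ep ≤ v := by
  by_contra hlt
  push Not at hlt
  have h1 := μ.Q_strictMonoOn (Set.mem_Ici.2 h0) (Set.mem_Ici.2 μ.ep_pos.le) hlt
  rw [μ.Q_eq_abs (v := μ.ep) (le_abs_self _), abs_of_pos μ.ep_pos] at h1
  linarith

theorem Q_inj {v v' : ℝ} (h0 : 0 ≤ v) (h0' : 0 ≤ v') (h : μ.Q v ^ 2 = μ.Q v' ^ 2) : v = v' := by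
  have h1 : μ.Q v = μ.Q v' := by
    have h5 := μ.Q_pos v
    have h6 := μ.Q_pos v'
    nlinarith
  exact μ.Q_strictMonoOn.injOn (Set.mem_Ici.2 h0) (Set.mem_Ici.2 h0') h1

/-- the parametrisation is onto -/
theorem q_cover {y v e : ℝ} (he : 0 ≤ e) (hy : 0 ≤ y) (hy' : y < 1 / 2) (hv : 0 ≤ v) (h : y ^ 2 + e = μ.Q v ^ 2) :
    ∃ ρ, 0 ≤ ρ ∧ ρ < 1 / 2 ∧ μ.xq (ρ, e) = y ∧ μ.vq (ρ, e) = v := by
  have hc : ContinuousOn (fun ρ : ℝ => μ.xq (ρ, e)) (Set.Icc 0 (1 / 2)) := by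
    refine μ.xq_cont.comp (continuous_id.prodMk continuous_const).continuousOn ?_
    intro ρ hρ
    exact ⟨hρ, he⟩
  have h0 : μ.xq (0, e) ≤ y := by
    obtain ⟨a1, _, a3, _, _, _, _, a8, a9, _⟩ := μ.q_spec (ρ := 0) le_rfl (by norm_num) he
    rcases le_total (μ.Q 0 ^ 2) e with h2 | h2
    · rw [a8 rfl h2]
      exact hy
    · rw [a9 rfl h2] at a3
      have h3 : μ.Q 0 ≤ μ.Q v := μ.Q_strictMonoOn.monotoneOn (Set.mem_Ici.2 le_rfl) (Set.mem_Ici.2 hv) hv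
      have h4 : μ.Q 0 ^ 2 ≤ μ.Q v ^ 2 := pow_le_pow_left₀ (μ.Q_pos 0).le h3 2
      exact (pow_le_pow_iff_left₀ a1 hy (by norm_num)).1 (by linarith : μ.xq (0, e) ^ 2 ≤ y ^ 2)
  obtain ⟨ρ, ⟨h1, h2⟩, h3⟩ := intermediate_value_Icc (by norm_num : (0 : ℝ) ≤ 1 / 2) hc
    ⟨h0, by rw [μ.xq_half he]; exact hy'.le⟩
  simp only at h3
  have h4 : ρ ≠ 1 / 2 := by
    rintro rfl
    rw [μ.xq_half he] at h3
    linarith
  refine ⟨ρ, h1, lt_of_le_of_ne h2 h4, h3, ?_⟩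
  refine Q_inj (μ := μ) (μ.vq_nonneg h1 h2 he) hv ?_
  rw [← h, ← μ.q_surf h1 h2 he, h3]

end Moll

/-- a saddle with its time window -/
structure SadWin extends Sad where
  lo : ℝ
  hi : ℝ
  hE0 : ∀ s ∈ Set.Ioo lo hi, 0 ≤ E s
  hE1 : ∀ s ∈ Set.Ioo lo hi, deriv E s ≠ 0 ∨ E s = 0

namespace SadWin

variable (μ : Moll) (D : SadWin)

/-- the end of the strip `(i, j)` -/
noncomputable def endPt (i j : Bool) (q : ℝ × ℝ) : P4 :=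
  D.toSad.pt μ (sg j * μ.xq (q.1, D.E q.2)) (sg i * μ.vq (q.1, D.E q.2)) q.2

/-- the primitive -/
noncomputable def endPrim (i j : Bool) (q : ℝ × ℝ) : ℝ :=
  D.toSad.prim μ (sg j * μ.xq (q.1, D.E q.2)) (sg i * μ.vq (q.1, D.E q.2)) q.2

/-- the arms -/
def arm (i : Bool) : ℝ × ℝ := if i then D.a else D.b

variable {μ D}

theorem endPt_time (i j : Bool) (q : ℝ × ℝ) : (D.endPt μ i j q).2.1 = q.2 := rfl

private theorem mem_q {q : ℝ × ℝ} (h : q ∈ Set.Icc (0 : ℝ) (1 / 2) ×ˢ Set.Ioo D.lo D.hi) :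
    (q.1, D.E q.2) ∈ Set.Icc (0 : ℝ) (1 / 2) ×ˢ Set.Ici (0 : ℝ) := ⟨h.1, D.hE0 _ h.2⟩

theorem xq_cont : ContinuousOn (fun q : ℝ × ℝ => μ.xq (q.1, D.E q.2)) (Set.Icc (0 : ℝ) (1 / 2) ×ˢ Set.Ioo D.lo D.hi) :=
  μ.xq_cont.comp (continuous_fst.prodMk (D.hE.continuous.comp continuous_snd)).continuousOn fun _ hq => mem_q hq

theorem vq_cont : ContinuousOn (fun q : ℝ × ℝ => μ.vq (q.1, D.E q.2)) (Set.Icc (0 : ℝ) (1 / 2) ×ˢ Set.Ioo D.lo D.hi) :=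
  μ.vq_cont.comp (continuous_fst.prodMk (D.hE.continuous.comp continuous_snd)).continuousOn fun _ hq => mem_q hq

private theorem triple_cont (i j : Bool) : ContinuousOn
    (fun q : ℝ × ℝ => ((sg j * μ.xq (q.1, D.E q.2), sg i * μ.vq (q.1, D.E q.2), q.2) : ℝ × ℝ × ℝ))
    (Set.Icc (0 : ℝ) (1 / 2) ×ˢ Set.Ioo D.lo D.hi) :=
  (continuousOn_const.mul xq_cont).prodMk ((continuousOn_const.mul vq_cont).prodMk continuous_snd.continuousOn)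

theorem endPt_cont (i j : Bool) : ContinuousOn (D.endPt μ i j) (Set.Icc (0 : ℝ) (1 / 2) ×ˢ Set.Ioo D.lo D.hi) :=
  (D.toSad.pt_contDiff μ).continuous.comp_continuousOn (triple_cont i j)

theorem endPrim_cont (i j : Bool) : ContinuousOn (D.endPrim μ i j) (Set.Icc (0 : ℝ) (1 / 2) ×ˢ Set.Ioo D.lo D.hi) :=
  (D.toSad.prim_contDiff μ).continuous.comp_continuousOn (triple_cont i j)

/-- two corners -/
theorem glue_j (j : Bool) {s : ℝ} (h0 : 0 ≤ D.E s) (h : D.E s ≤ μ.Q 0 ^ 2) :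
    D.endPt μ false j (0, s) = D.endPt μ true j (0, s) ∧ D.endPrim μ false j (0, s) = D.endPrim μ true j (0, s) := by
  have h1 : μ.vq (0, D.E s) = 0 := (μ.q_spec (ρ := 0) le_rfl (by norm_num) h0).2.2.2.2.2.2.2.2.1 rfl h
  unfold endPt endPrim
  simp only
  rw [h1, mul_zero, mul_zero]
  exact ⟨rfl, rfl⟩

/-- two lines -/
theorem glue_i (i : Bool) {s : ℝ} (h : μ.Q 0 ^ 2 ≤ D.E s) :
    D.endPt μ i false (0, s) = D.endPt μ i true (0, s) ∧ D.endPrim μ i false (0, s) = D.endPrim μ i true (0, s) := by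
  have h1 : μ.xq (0, D.E s) = 0 :=
    (μ.q_spec (ρ := 0) le_rfl (by norm_num) ((sq_nonneg _).trans h)).2.2.2.2.2.2.2.1 rfl h
  unfold endPt endPrim
  simp only
  rw [h1, mul_zero, mul_zero]
  exact ⟨rfl, rfl⟩

private theorem ep_le_vq {ρ e : ℝ} (h0 : 0 ≤ ρ) (h1 : ρ ≤ 1 / 2) (he : 0 ≤ e) (h : 1 / 4 ≤ ρ ∨ 1 / 16 ≤ e) :
    μ.xq (ρ, e) = ρ ∧ μ.ep ≤ μ.vq (ρ, e) := by
  have hx : μ.xq (ρ, e) = ρ := h.elim (μ.q_spec h0 h1 he).2.2.2.1 (μ.q_spec h0 h1 he).2.2.2.2.1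
  refine ⟨hx, Moll.le_of_le_Q (μ.vq_nonneg h0 h1 he) ?_⟩
  have h2 := μ.q_surf h0 h1 he
  rw [hx] at h2
  have h3 : (1 / 4 : ℝ) ^ 2 ≤ ρ ^ 2 + e := by
    rcases h with h | h
    · nlinarith
    · nlinarith
  rw [h2] at h3
  have h4 : (1 / 4 : ℝ) ≤ μ.Q (μ.vq (ρ, e)) := (pow_le_pow_iff_left₀ (by norm_num) (μ.Q_pos _).le (by norm_num)).1 h3
  exact μ.ep_lt.le.trans h4

/-- the straight part -/
theorem endPt_straight (i j : Bool) {ρ s : ℝ} (h0 : 0 ≤ ρ) (h1 : ρ ≤ 1 / 2) (he : 0 ≤ D.E s)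
    (h : 1 / 4 ≤ ρ ∨ 1 / 16 ≤ D.E s) :
    D.endPt μ i j (ρ, s) = (D.q.1 + sg j * ρ * (D.arm i).1, s, D.q.2 + sg j * ρ * (D.arm i).2,
      deriv D.M s + sg i * (D.kap / 4 * deriv D.E s)) ∧
    D.endPrim μ i j (ρ, s) = D.M s + sg i * (D.kap / 4 * (D.E s - 1 / 800)) + D.q.2 * (D.arm i).1 * (sg j * ρ) +
      (D.arm i).1 * (D.arm i).2 * ρ ^ 2 / 2 := by
  obtain ⟨hx, hv⟩ := ep_le_vq (μ := μ) h0 h1 he h
  unfold endPt endPrim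
  simp only
  rw [hx]
  cases i
  · have h2 : sg false * μ.vq (ρ, D.E s) ≤ -μ.ep := by
      rw [sg_false]
      linarith
    rw [D.toSad.pt_left μ h2, D.toSad.prim_left μ h2]
    have e1 : D.arm false = D.b := rfl
    rw [e1, sg_false]
    constructor
    · have e2 : deriv D.M s - D.kap / 4 * deriv D.E s = deriv D.M s + -1 * (D.kap / 4 * deriv D.E s) := by ring
      rw [e2]
    · have e3 : (sg j * ρ) ^ 2 = ρ ^ 2 := by rw [mul_pow, sg_sq, one_mul]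
      rw [e3]
      ring
  · have h2 : μ.ep ≤ sg true * μ.vq (ρ, D.E s) := by
      rw [sg_true]
      linarith
    rw [D.toSad.pt_right μ h2, D.toSad.prim_right μ h2]
    have e1 : D.arm true = D.a := rfl
    rw [e1, sg_true, one_mul, one_mul]
    constructor
    · rfl
    · have e3 : (sg j * ρ) ^ 2 = ρ ^ 2 := by rw [mul_pow, sg_sq, one_mul]
      rw [e3]

theorem deriv_E_zero {s : ℝ} (hs : s ∈ Set.Ioo D.lo D.hi) (h : D.E s = 0) : deriv D.E s = 0 := by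
  have h1 : IsLocalMin D.E s := by
    filter_upwards [isOpen_Ioo.mem_nhds hs] with t ht
    rw [h]
    exact D.hE0 t ht
  exact h1.deriv_eq_zero

/-- the corners: parameters -/
theorem q_corner {ρ : ℝ} (h0 : 0 ≤ ρ) (h1 : ρ ≤ 1 / 2) : μ.xq (ρ, 0) = μ.Q ρ ∧ μ.vq (ρ, 0) = ρ := by
  have hv : μ.vq (ρ, 0) = ρ := (μ.q_spec h0 h1 le_rfl).2.2.2.2.2.1 rfl
  refine ⟨?_, hv⟩
  have h2 := μ.q_surf h0 h1 le_rfl
  rw [hv, add_zero] at h2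
  exact (pow_left_inj₀ (μ.xq_nonneg h0 h1 le_rfl) (μ.Q_pos ρ).le (by norm_num)).1 h2

/-- the corners, as the template with `y = sg j * Q v`, `v = sg i * ρ` -/
theorem endPt_corner (i j : Bool) {ρ s : ℝ} (h0 : 0 ≤ ρ) (h1 : ρ ≤ 1 / 2) (he : D.E s = 0) :
    D.endPt μ i j (ρ, s) = D.toSad.pt μ (sg j * μ.Q (sg i * ρ)) (sg i * ρ) s ∧
    D.endPrim μ i j (ρ, s) = D.toSad.prim μ (sg j * μ.Q (sg i * ρ)) (sg i * ρ) s := by
  obtain ⟨hx, hv⟩ := q_corner (μ := μ) h0 h1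
  unfold endPt endPrim
  simp only
  rw [he, hx, hv, Moll.Q_sg]
  exact ⟨rfl, rfl⟩

private theorem surf (i j : Bool) {ρ s : ℝ} (h0 : 0 ≤ ρ) (h1 : ρ ≤ 1 / 2) (he : 0 ≤ D.E s) :
    (sg j * μ.xq (ρ, D.E s)) ^ 2 + D.E s = μ.Q (sg i * μ.vq (ρ, D.E s)) ^ 2 := by
  rw [mul_pow, sg_sq, one_mul, Moll.Q_sg]
  exact μ.q_surf h0 h1 he

/-- injectivity on time slices -/
theorem endPt_inj {i j i' j' : Bool} {ρ ρ' s : ℝ} (hs : s ∈ Set.Ioo D.lo D.hi) (h0 : 0 ≤ ρ) (h1 : ρ ≤ 1 / 2)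
    (h0' : 0 ≤ ρ') (h1' : ρ' ≤ 1 / 2) (h : D.endPt μ i j (ρ, s) = D.endPt μ i' j' (ρ', s)) :
    (i = i' ∧ j = j' ∧ ρ = ρ') ∨
    (ρ = 0 ∧ ρ' = 0 ∧ ((D.E s < μ.Q 0 ^ 2 ∧ j = j') ∨ (μ.Q 0 ^ 2 < D.E s ∧ i = i') ∨ D.E s = μ.Q 0 ^ 2)) := by
  have he := D.hE0 s hs
  obtain ⟨hx, hv⟩ := D.toSad.pt_inj μ (surf i j h0 h1 he) (surf i' j' h0' h1' he) (D.hE1 s hs) h
  have hx0 := μ.xq_nonneg h0 h1 he
  have hx0' := μ.xq_nonneg h0' h1' he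
  have hv0 := μ.vq_nonneg h0 h1 he
  have hv0' := μ.vq_nonneg h0' h1' he
  rcases h0.eq_or_lt with h2 | h2
  · rcases h0'.eq_or_lt with h3 | h3
    · right
      subst h2
      subst h3
      refine ⟨rfl, rfl, ?_⟩
      rcases lt_trichotomy (D.E s) (μ.Q 0 ^ 2) with h4 | h4 | h4
      · left
        refine ⟨h4, ?_⟩
        have h5 := μ.q_surf (ρ := 0) le_rfl h1 he
        rw [(μ.q_spec (ρ := 0) le_rfl h1 he).2.2.2.2.2.2.2.2.1 rfl h4.le] at h5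
        have h6 : μ.xq (0, D.E s) ≠ 0 := by
          intro h7
          rw [h7] at h5
          linarith
        exact (sg_inj (lt_of_le_of_ne hx0 (Ne.symm h6)) hx0 hx).1
      · right
        right
        exact h4
      · right
        left
        refine ⟨h4, ?_⟩
        have h5 := μ.q_surf (ρ := 0) le_rfl h1 he
        rw [(μ.q_spec (ρ := 0) le_rfl h1 he).2.2.2.2.2.2.2.1 rfl h4.le] at h5
        have h6 : μ.vq (0, D.E s) ≠ 0 := by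
          intro h7
          rw [h7] at h5
          linarith
        exact (sg_inj (lt_of_le_of_ne hv0 (Ne.symm h6)) hv0 hv).1
    · left
      obtain ⟨p1, p2⟩ := (μ.q_spec h0' h1' he).2.2.2.2.2.2.1 h3
      obtain ⟨e1, e2⟩ := sg_inj p1 hx0 hx.symm
      obtain ⟨e3, _⟩ := sg_inj p2 hv0 hv.symm
      exact ⟨e3.symm, e1.symm, μ.xq_inj h0 h1 h0' h1' he e2.symm⟩
  · left
    obtain ⟨p1, p2⟩ := (μ.q_spec h0 h1 he).2.2.2.2.2.2.1 h2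
    obtain ⟨e1, e2⟩ := sg_inj p1 hx0' hx
    obtain ⟨e3, _⟩ := sg_inj p2 hv0' hv
    exact ⟨e3, e1, μ.xq_inj h0 h1 h0' h1' he e2⟩

/-- every point of the template with `|y| < 1/2` is on one of the four ends -/
theorem cover {y v s : ℝ} (hs : s ∈ Set.Ioo D.lo D.hi) (hy : |y| < 1 / 2) (h : y ^ 2 + D.E s = μ.Q v ^ 2) :
    ∃ k : Bool × Bool, ∃ q ∈ Set.Ico (0 : ℝ) (1 / 2) ×ˢ Set.Ioo D.lo D.hi, q.2 = s ∧
      sg k.2 * μ.xq (q.1, D.E q.2) = y ∧ sg k.1 * μ.vq (q.1, D.E q.2) = v := by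
  obtain ⟨j, hj⟩ : ∃ j : Bool, sg j * |y| = y := by
    rcases le_total 0 y with h1 | h1
    · exact ⟨true, by rw [sg_true, one_mul, abs_of_nonneg h1]⟩
    · exact ⟨false, by rw [sg_false, abs_of_nonpos h1]; ring⟩
  obtain ⟨i, hi⟩ : ∃ i : Bool, sg i * |v| = v := by
    rcases le_total 0 v with h1 | h1
    · exact ⟨true, by rw [sg_true, one_mul, abs_of_nonneg h1]⟩
    · exact ⟨false, by rw [sg_false, abs_of_nonpos h1]; ring⟩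
  have h2 : |y| ^ 2 + D.E s = μ.Q |v| ^ 2 := by
    rw [sq_abs, h]
    congr 1
    rw [← hi, Moll.Q_sg, abs_mul, abs_sg, one_mul, abs_abs]
  obtain ⟨ρ, r1, r2, r3, r4⟩ := μ.q_cover (D.hE0 s hs) (abs_nonneg y) hy (abs_nonneg v) h2
  exact ⟨(i, j), (ρ, s), ⟨⟨r1, r2⟩, hs⟩, rfl, by simp only; rw [r3, hj], by simp only; rw [r4, hi]⟩

/-- the charts at the points with `ρ < 1/2` -/
theorem locChart (i₀ j₀ : Bool) {ρ₀ s₀ : ℝ} (h0 : 0 ≤ ρ₀) (h1 : ρ₀ < 1 / 2) (hs₀ : s₀ ∈ Set.Ioo D.lo D.hi) :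
    LocChart (ι := Bool × Bool) (fun k => D.endPt μ k.1 k.2) (fun k => D.endPrim μ k.1 k.2)
      (fun _ => Set.Ico (0 : ℝ) (1 / 2) ×ˢ Set.Ioo D.lo D.hi) (D.endPt μ i₀ j₀ (ρ₀, s₀)) := by
  have he := D.hE0 s₀ hs₀
  set y₀ : ℝ := sg j₀ * μ.xq (ρ₀, D.E s₀) with hy₀
  set v₀ : ℝ := sg i₀ * μ.vq (ρ₀, D.E s₀) with hv₀
  have hsurf : y₀ ^ 2 + D.E s₀ = μ.Q v₀ ^ 2 := surf i₀ j₀ h0 h1.le he
  have hp : D.endPt μ i₀ j₀ (ρ₀, s₀) = D.toSad.pt μ y₀ v₀ s₀ := rfl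
  have hsub : Set.Ico (0 : ℝ) (1 / 2) ×ˢ Set.Ioo D.lo D.hi ⊆ Set.Icc (0 : ℝ) (1 / 2) ×ˢ Set.Ioo D.lo D.hi :=
    Set.prod_mono Set.Ico_subset_Icc_self subset_rfl
  have hylt : |y₀| < 1 / 2 := by
    rw [hy₀, abs_mul, abs_sg, one_mul, abs_of_nonneg (μ.xq_nonneg h0 h1.le he)]
    exact μ.xq_lt_half h0 h1 he
  -- the parameters of a preimage
  have hpre : ∀ k : Bool × Bool, ∀ q ∈ Set.Ico (0 : ℝ) (1 / 2) ×ˢ Set.Ioo D.lo D.hi,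
      D.endPt μ k.1 k.2 q = D.endPt μ i₀ j₀ (ρ₀, s₀) →
      q.2 = s₀ ∧ sg k.2 * μ.xq (q.1, D.E q.2) = y₀ ∧ sg k.1 * μ.vq (q.1, D.E q.2) = v₀ := by
    rintro k ⟨ρ, s⟩ ⟨⟨a, b⟩, c⟩ hq
    have hss : s = s₀ := congrArg (fun z : P4 => z.2.1) hq
    subst hss
    obtain ⟨e1, e2⟩ := D.toSad.pt_inj μ (surf k.1 k.2 a b.le he) hsurf (D.hE1 s c) hq
    exact ⟨rfl, e1, e2⟩
  rw [hp]
  by_cases hy : y₀ = 0
  · -- the chart `(y, v)`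
    have hE : deriv D.E s₀ ≠ 0 := by
      rcases D.hE1 s₀ hs₀ with h2 | h2
      · exact h2
      · rw [hy, h2] at hsurf
        have := pow_pos (μ.Q_pos v₀) 2
        norm_num at hsurf
        exact absurd hsurf.symm (pow_pos (μ.Q_pos v₀) 2).ne'
    obtain ⟨U, T, δ, hU, hu₀, hδ, hT₀, hT, hTs, hTu, hc, hg, himm, hprim⟩ := D.toSad.chart2 μ hsurf hE
    have hU1 : IsOpen (U ∩ T ⁻¹' Set.Ioo D.lo D.hi) := hT.continuousOn.isOpen_inter_preimage hU isOpen_Ioo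
    have hU2 : IsOpen {p : ℝ × ℝ | |p.1| < 1 / 2} := isOpen_lt continuous_fst.abs continuous_const
    refine ⟨(U ∩ T ⁻¹' Set.Ioo D.lo D.hi) ∩ {p : ℝ × ℝ | |p.1| < 1 / 2}, (y₀, v₀),
      fun p => D.toSad.pt μ p.1 p.2 (T p), fun p => D.toSad.prim μ p.1 p.2 (T p), hU1.inter hU2,
      ⟨⟨hu₀, by rw [Set.mem_preimage, hT₀]; exact hs₀⟩, hylt⟩, hc.mono fun _ h => h.1.1, hg.mono fun _ h => h.1.1,
      by simp only [hT₀], himm, fun u hu => hprim u hu.1.1, ?_, ?_⟩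
    · rintro ⟨y, v⟩ ⟨⟨a, b⟩, c⟩
      obtain ⟨k, q, hq, e1, e2, e3⟩ := cover (D := D) (μ := μ) b c (hTs (y, v) a).1
      refine ⟨k, q, hq, ?_⟩
      unfold endPt
      simp only
      rw [e2, e3, e1]
    · rintro k q hq hqp
      obtain ⟨e1, e2, e3⟩ := hpre k q hq hqp
      have htc : ContinuousOn
          (fun q : ℝ × ℝ => ((sg k.2 * μ.xq (q.1, D.E q.2), sg k.1 * μ.vq (q.1, D.E q.2)) : ℝ × ℝ))
          (Set.Ico (0 : ℝ) (1 / 2) ×ˢ Set.Ioo D.lo D.hi) :=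
        ((continuousOn_const.mul xq_cont).prodMk (continuousOn_const.mul vq_cont)).mono hsub
      obtain ⟨O, hO, hOeq⟩ := (continuousOn_iff'.1 htc)
        ((U ∩ T ⁻¹' Set.Ioo D.lo D.hi) ∩ {p : ℝ × ℝ | |p.1| < 1 / 2}) (hU1.inter hU2)
      have hO3 : IsOpen {q' : ℝ × ℝ | |q'.2 - s₀| < δ} := isOpen_lt (continuous_snd.sub continuous_const).abs
        continuous_const
      have hqO : q ∈ O ∩ Set.Ico (0 : ℝ) (1 / 2) ×ˢ Set.Ioo D.lo D.hi := by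
        rw [← hOeq]
        refine ⟨?_, hq⟩
        simp only [Set.mem_preimage]
        rw [e2, e3]
        exact ⟨⟨hu₀, by rw [Set.mem_preimage, hT₀]; exact hs₀⟩, hylt⟩
      refine ⟨O ∩ {q' : ℝ × ℝ | |q'.2 - s₀| < δ}, _, hO.inter hO3, ⟨hqO.1, ?_⟩,
        htc.mono Set.inter_subset_right, ?_, ?_⟩
      · simp only [Set.mem_ofPred_eq]
        rw [e1, sub_self, abs_zero]
        exact hδ
      · rw [e2, e3]
      · rintro q' ⟨⟨a, b⟩, c⟩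
        have hq'O : q' ∈ O ∩ Set.Ico (0 : ℝ) (1 / 2) ×ˢ Set.Ioo D.lo D.hi := ⟨a, c⟩
        rw [← hOeq] at hq'O
        have hm := hq'O.1
        have hTq : T (sg k.2 * μ.xq (q'.1, D.E q'.2), sg k.1 * μ.vq (q'.1, D.E q'.2)) = q'.2 := by
          refine hTu _ hm.1.1 q'.2 b ?_
          exact surf k.1 k.2 c.1.1 c.1.2.le (D.hE0 _ c.2)
        refine ⟨hm, ?_, ?_⟩
        · simp only [hTq]
          rfl
        · simp only [hTq]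
          rfl
  · -- the chart `(v, s)`
    have hx0 : 0 < μ.xq (ρ₀, D.E s₀) := by
      refine lt_of_le_of_ne (μ.xq_nonneg h0 h1.le he) ?_
      intro h2
      apply hy
      rw [hy₀, ← h2, mul_zero]
    have hσ : sg j₀ = 1 ∨ sg j₀ = -1 := by
      cases j₀
      · exact Or.inr rfl
      · exact Or.inl rfl
    obtain ⟨hc, hg, himm⟩ := D.toSad.chart1 μ hσ
    have hFc : Continuous fun p : ℝ × ℝ => μ.Q p.1 ^ 2 - D.E p.2 :=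
      ((μ.Q_contDiff.continuous.comp continuous_fst).pow 2).sub (D.hE.continuous.comp continuous_snd)
    have hW1 : IsOpen {p : ℝ × ℝ | D.E p.2 < μ.Q p.1 ^ 2} :=
      isOpen_lt (D.hE.continuous.comp continuous_snd) ((μ.Q_contDiff.continuous.comp continuous_fst).pow 2)
    have hW2 : IsOpen {p : ℝ × ℝ | p.2 ∈ Set.Ioo D.lo D.hi} := isOpen_Ioo.preimage continuous_snd
    have hW3 : IsOpen {p : ℝ × ℝ | Real.sqrt (μ.Q p.1 ^ 2 - D.E p.2) < 1 / 2} :=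
      isOpen_lt hFc.sqrt continuous_const
    have hroot : ∀ k : Bool × Bool, ∀ q ∈ Set.Ico (0 : ℝ) (1 / 2) ×ˢ Set.Ioo D.lo D.hi,
        Real.sqrt (μ.Q (sg k.1 * μ.vq (q.1, D.E q.2)) ^ 2 - D.E q.2) = μ.xq (q.1, D.E q.2) := by
      rintro k ⟨ρ, s⟩ ⟨⟨a, b⟩, c⟩
      simp only at a b c ⊢
      have h2 := μ.q_surf a b.le (D.hE0 s c)
      rw [Moll.Q_sg, ← h2, add_sub_cancel_right, Real.sqrt_sq (μ.xq_nonneg a b.le (D.hE0 s c))]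
    have hq₀ : ((ρ₀, s₀) : ℝ × ℝ) ∈ Set.Ico (0 : ℝ) (1 / 2) ×ˢ Set.Ioo D.lo D.hi := ⟨⟨h0, h1⟩, hs₀⟩
    have hr₀ : Real.sqrt (μ.Q v₀ ^ 2 - D.E s₀) = μ.xq (ρ₀, D.E s₀) := hroot (i₀, j₀) _ hq₀
    have hpos₀ : D.E s₀ < μ.Q v₀ ^ 2 := by
      have : 0 < y₀ ^ 2 := by positivity
      linarith
    refine ⟨({p : ℝ × ℝ | D.E p.2 < μ.Q p.1 ^ 2} ∩ {p : ℝ × ℝ | p.2 ∈ Set.Ioo D.lo D.hi}) ∩
        {p : ℝ × ℝ | Real.sqrt (μ.Q p.1 ^ 2 - D.E p.2) < 1 / 2}, (v₀, s₀), _, _, (hW1.inter hW2).inter hW3,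
      ⟨⟨hpos₀, hs₀⟩, ?_⟩, hc.mono fun _ h => h.1.1, hg.mono fun _ h => h.1.1, ?_, (himm (v₀, s₀) hpos₀).1,
      fun u hu => (himm u hu.1.1).2, ?_, ?_⟩
    · simp only [Set.mem_ofPred_eq]
      rw [hr₀]
      exact μ.xq_lt_half h0 h1 he
    · simp only
      rw [hr₀]
    · rintro ⟨v, s⟩ ⟨⟨a, b⟩, c⟩
      simp only [Set.mem_ofPred_eq] at a b c
      have h2 : (sg j₀ * Real.sqrt (μ.Q v ^ 2 - D.E s)) ^ 2 + D.E s = μ.Q v ^ 2 := by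
        rw [mul_pow, sg_sq, one_mul, Real.sq_sqrt (by linarith)]
        ring
      have h3 : |sg j₀ * Real.sqrt (μ.Q v ^ 2 - D.E s)| < 1 / 2 := by
        rw [abs_mul, abs_sg, one_mul, abs_of_nonneg (Real.sqrt_nonneg _)]
        exact c
      obtain ⟨k, q, hq, e1, e2, e3⟩ := cover (D := D) (μ := μ) b h3 h2
      refine ⟨k, q, hq, ?_⟩
      unfold endPt
      simp only
      rw [e2, e3, e1]
    · rintro k q hq hqp
      obtain ⟨e1, e2, e3⟩ := hpre k q hq hqp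
      have hk : j₀ = k.2 := (sg_inj hx0 (μ.xq_nonneg hq.1.1 hq.1.2.le (D.hE0 _ hq.2)) e2.symm).1
      have hxc : ContinuousOn (fun q : ℝ × ℝ => μ.xq (q.1, D.E q.2)) (Set.Ico (0 : ℝ) (1 / 2) ×ˢ Set.Ioo D.lo D.hi) :=
        xq_cont.mono hsub
      have htc : ContinuousOn (fun q : ℝ × ℝ => ((sg k.1 * μ.vq (q.1, D.E q.2), q.2) : ℝ × ℝ))
          (Set.Ico (0 : ℝ) (1 / 2) ×ˢ Set.Ioo D.lo D.hi) :=
        ((continuousOn_const.mul vq_cont).prodMk continuous_snd.continuousOn).mono hsub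
      obtain ⟨O, hO, hOeq⟩ := (continuousOn_iff'.1 hxc) (Set.Ioi 0) isOpen_Ioi
      have hqx : 0 < μ.xq (q.1, D.E q.2) := by
        have h2 : sg k.2 * μ.xq (q.1, D.E q.2) = sg j₀ * μ.xq (ρ₀, D.E s₀) := e2
        rw [← hk] at h2
        rw [mul_left_cancel₀ (sg_ne j₀) h2]
        exact hx0
      have hqO : q ∈ O ∩ Set.Ico (0 : ℝ) (1 / 2) ×ˢ Set.Ioo D.lo D.hi := by
        rw [← hOeq]
        exact ⟨hqx, hq⟩
      refine ⟨O, _, hO, hqO.1, htc.mono Set.inter_subset_right, ?_, ?_⟩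
      · rw [e3, e1]
      · rintro q' ⟨a, c⟩
        have hq'O : q' ∈ O ∩ Set.Ico (0 : ℝ) (1 / 2) ×ˢ Set.Ioo D.lo D.hi := ⟨a, c⟩
        rw [← hOeq] at hq'O
        have hx' : 0 < μ.xq (q'.1, D.E q'.2) := hq'O.1
        have hr' := hroot k q' c
        have hs' := surf (D := D) (μ := μ) k.1 k.2 c.1.1 c.1.2.le (D.hE0 _ c.2)
        refine ⟨⟨⟨?_, c.2⟩, ?_⟩, ?_, ?_⟩
        · simp only [Set.mem_ofPred_eq]
          have h2 : 0 < (sg k.2 * μ.xq (q'.1, D.E q'.2)) ^ 2 := by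
            have := sg_ne k.2
            positivity
          linarith
        · simp only [Set.mem_ofPred_eq]
          rw [hr']
          exact μ.xq_lt_half c.1.1 c.1.2 (D.hE0 _ c.2)
        · simp only
          rw [hr', hk]
          rfl
        · simp only
          rw [hr', hk]
          rfl

end SadWin

end Pool.Agent.Lib_MP_59ec1f_cap
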