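import Pool.Agent.Lib_MP_59ec1f_cap.SadIface
import Pool.Agent.Lib_MP_59ec1f_cap.LowBasic

/-!
# The ends at the saddles fit to the strips
-/

set_option autoImplicit false

open Set
open scoped ContDiff Topology

namespace Pool.Agent.Lib_MP_59ec1f_cap

/-- an end with its primitive -/
noncomputable def SadWin.ep (D : SadWin) (μ : Moll) (i j : Bool) (p : ℝ × ℝ) : P4 × ℝ :=
  (D.endPt μ i j p, D.endPrim μ i j p)

namespace StripTab

variable {T : StripTab} {μ : Moll} {K : ℤ}

theorem rA_of_lt {m : ℤ} (h : m < T.mA) : T.rA m = true := by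
  unfold rA
  simp [h]

theorem rA_of_ge {m : ℤ} (h : T.mA ≤ m) : T.rA m = false := by
  unfold rA
  simp [h]

theorem rB_of_le {m : ℤ} (h : m ≤ T.mB) : T.rB m = false := by
  unfold rB
  simp [h]

theorem rB_of_gt {m : ℤ} (h : T.mB < m) : T.rB m = true := by
  unfold rB
  simp [h]

theorem fitA (h : T.Ok) (hA : T.endA.Ok T.mA true K) : T.FitA μ ((T.endA.win μ T.mA true K hA).ep μ) where
  straight i j ρ s h0 h1 hs := by
    have hl := h.len2 i j
    have h2 := h.hAB
    have h3 := h.hBM
    have hR : ∀ᶠ t in 𝓝 s, ((T.win T.mA i j).toChain μ).Rel μ 1 t :=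
      h.rel (i := i) (j := j) (n := 1) (m := T.mA) (by norm_num) (by omega) (by have := h.hA; omega) (by omega)
        ⟨fun h4 => by omega, fun h4 => by omega⟩ hs
    have h5 := endA_cell_one hA (T.rA T.mA) (T.rB T.mA) i j (by omega) h0 h1 hs hR
    exact Prod.ext h5.1 h5.2
  before i j ρ s h0 h1 hs hs' := by
    have hl := h.len2 i j
    have h5 := endA_line (μ := μ) hA false i j (by omega) h0 h1 hs hs'
    exact Prod.ext h5.1 h5.2
  after i j ρ s h0 h1 hs hs' := by
    have hl := h.len2 i j
    have h5 := endA_corner (μ := μ) hA false i j (by omega) h0 h1 hs' hs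
    exact Prod.ext h5.1 h5.2

theorem fitB (h : T.Ok) (h' : T.Ok2) (hB : T.endB.Ok T.mB false K) :
    T.FitB μ ((T.endB.win μ T.mB false K hB).ep μ) where
  straight i j ρ s h0 h1 hs := by
    have hl := h.len2 i j
    have h5 := endB_edge (μ := μ) hB (T.rA T.mB) (T.rB T.mB) i j (by omega) h0 h1 hs
    exact Prod.ext h5.1 h5.2
  before i j ρ s h0 h1 hs hs' := by
    have hl := h.len2 i j
    have hl' := h.len2 (!i) j
    have h1A := h.hA
    have h2 := h.hAB
    have h3 := h.hBM
    have hy : ∀ k, T.mB - 2 ≤ k → k ≤ T.mB → T.y (!i) j (T.len (!i) j) k = T.y i j (T.len i j) k := by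
      intro k k1 k2
      have h6 := h'.yB₁ j k (by omega) (by omega)
      cases i
      · exact h6.symm
      · exact h6
    have hok := h.ok i j (T.len i j) (T.mB - 1) (by omega) le_rfl (by omega) (by omega)
      ⟨fun h4 => by omega, fun h4 => by omega⟩
    unfold cel win at hok
    rw [rA_of_ge (by omega : T.mA ≤ T.mB - 1), rB_of_le (by omega : T.mB - 1 ≤ T.mB)] at hok
    have h5 := endB_before (μ := μ) hB false i j (by omega) (by omega) h0 h1 hs hs' hy hok
    exact Prod.ext h5.1 h5.2
  after i j ρ s h0 h1 hs hs' := by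
    have hl := h.len2 i j
    have hl' := h.len2 i (!j)
    have h1A := h.hA
    have h2 := h.hAB
    have h3 := h.hBM
    have hy : ∀ k, T.mB ≤ k → k ≤ T.mB + 2 → T.y i (!j) (T.len i (!j)) k = T.y i j (T.len i j) k := by
      intro k k1 k2
      have h6 := h'.yB₂ i k (by omega) (by omega)
      cases j
      · exact h6.symm
      · exact h6
    have hok := h.ok i j (T.len i j) (T.mB + 1) (by omega) le_rfl (by omega) (by omega)
      ⟨fun h4 => by omega, fun h4 => by omega⟩
    unfold cel win at hok
    rw [rA_of_ge (by omega : T.mA ≤ T.mB + 1), rB_of_gt (by omega : T.mB < T.mB + 1)] at hok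
    have h5 := endB_after (μ := μ) hB false i j (by omega) (by omega) h0 h1 hs' hs hy hok
    exact Prod.ext h5.1 h5.2

theorem glueA (hA : T.endA.Ok T.mA true K) :
    T.GlueA ((T.endA.win μ T.mA true K hA).ep μ) (EndTab.sw μ hA) where
  hs := lt_trans (EndTab.sw_spec (μ := μ) hA).1 (by norm_num)
  time i j p := rfl
  cont i j := SadWin.endPt_cont i j
  glue₁ i s _ hs := by
    have h5 := EndTab.glue_line (μ := μ) hA i (s := s) (by rw [sg_true]; linarith)
    exact Prod.ext h5.1 h5.2
  glue₂ j s _ hs := by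
    have h5 := EndTab.glue_corner (μ := μ) hA j (s := s) (by rw [sg_true]; linarith)
    exact Prod.ext h5.1 h5.2

theorem glueB (hB : T.endB.Ok T.mB false K) :
    T.GlueB ((T.endB.win μ T.mB false K hB).ep μ) (EndTab.sw μ hB) where
  hs := lt_trans (EndTab.sw_spec (μ := μ) hB).1 (by norm_num)
  time i j p := rfl
  cont i j := SadWin.endPt_cont i j
  glue₁ j s _ hs := by
    have h5 := EndTab.glue_corner (μ := μ) hB j (s := s) (by rw [sg_false]; linarith)
    exact Prod.ext h5.1 h5.2
  glue₂ i s _ hs := by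
    have h5 := EndTab.glue_line (μ := μ) hB i (s := s) (by rw [sg_false]; linarith)
    exact Prod.ext h5.1 h5.2

end StripTab

end Pool.Agent.Lib_MP_59ec1f_cap
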