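import Pool.Agent.Lib_MP_59ec1f_cap.SadTab

/-!
# The ends at the saddles, in the form used by the strips

* `EndTab.exists_switch`: the time `t` of the saddle (`E t = (Q 0)²`), `|t - m| < 1/4`.
* gluing and injectivity with respect to `t`.
* `endPt_hull`: the plane point is in the hull of the corner cell.
-/

set_option autoImplicit false

open scoped ContDiff
open Filter Topology

namespace Pool.Agent.Lib_MP_59ec1f_cap

theorem sg_not (b : Bool) : sg (!b) = -sg b := by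
  cases b <;> simp [sg]

namespace EndTab

variable {V : EndTab} {μ : Moll} {m : ℤ} {dec : Bool} {K : ℤ}

/-- the time of the saddle -/
theorem exists_switch (h : V.Ok m dec K) : ∃ t : ℝ, |t - m| < 1 / 4 ∧ ∀ s : ℝ,
    (0 ≤ sg dec * (s - t) → V.E μ m dec K s ≤ μ.Q 0 ^ 2) ∧
    (sg dec * (s - t) ≤ 0 → μ.Q 0 ^ 2 ≤ V.E μ m dec K s) ∧ (V.E μ m dec K s = μ.Q 0 ^ 2 → s = t) := by
  set e₀ : ℝ := K / (800 * V.kp m) with he₀
  have he : 1 / 4 ≤ e₀ := h.e_ge
  have hQ := μ.Q_pos 0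
  have hQ4 : μ.Q 0 < 1 / 4 := μ.Q_zero_le.trans_lt μ.ep_lt
  have hep := μ.ep_pos
  have hep4 := μ.ep_lt
  set c : ℝ := μ.Q 0 ^ 2 / e₀ with hc
  have hc0 : 0 < c := by positivity
  have hc1 : c < 1 / 4 := by
    rw [hc, div_lt_iff₀ (by linarith)]
    nlinarith
  have hec : e₀ * c = μ.Q 0 ^ 2 := by
    rw [hc]
    field_simp
  have hSl : μ.S (-μ.ep) = 0 := μ.left _ le_rfl
  have hSr : μ.S (1 / 4) = 1 / 4 := μ.right _ hep4.le
  obtain ⟨w, ⟨hw1, hw2⟩, hw3⟩ := intermediate_value_Icc (by linarith : -μ.ep ≤ 1 / 4) μ.smooth.continuous.continuousOn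
    (show c ∈ Set.Icc (μ.S (-μ.ep)) (μ.S (1 / 4)) by
      rw [hSl, hSr]
      exact ⟨hc0.le, hc1.le⟩)
  have hw2' : w < 1 / 4 := by
    refine lt_of_le_of_ne hw2 ?_
    rintro rfl
    rw [hSr] at hw3
    linarith
  have hsd : sg (!dec) * sg (!dec) = 1 := sg_mul_self _
  have hnd : sg (!dec) = -sg dec := sg_not dec
  have hE : ∀ s, V.E μ m dec K s = e₀ * μ.S (sg (!dec) * (s - m)) := fun s => rfl
  refine ⟨m + sg (!dec) * w, ?_, fun s => ?_⟩
  · rw [add_sub_cancel_left, abs_mul, abs_sg, one_mul, abs_lt]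
    constructor <;> linarith
  · have key : sg (!dec) * (s - m) - w = -(sg dec * (s - (m + sg (!dec) * w))) := by
      rw [hnd] at hsd ⊢
      linear_combination w * hsd
    refine ⟨fun h1 => ?_, fun h1 => ?_, fun h1 => ?_⟩
    · rw [hE, ← hec, ← hw3]
      exact mul_le_mul_of_nonneg_left (μ.mono (by linarith)) (by linarith)
    · rw [hE, ← hec, ← hw3]
      exact mul_le_mul_of_nonneg_left (μ.mono (by linarith)) (by linarith)
    · rw [hE, ← hec] at h1
      have h2 : μ.S (sg (!dec) * (s - m)) = μ.S w := by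
        rw [hw3]
        exact mul_left_cancel₀ (ne_of_gt (by linarith) : e₀ ≠ 0) h1
      have h3 : -μ.ep < sg (!dec) * (s - m) := by
        by_contra hlt
        push Not at hlt
        rw [μ.left _ hlt, hw3] at h2
        linarith
      have h4 := μ.strictMonoOn.injOn (Set.mem_Ici.2 h3.le) (Set.mem_Ici.2 hw1) h2
      have h5 : sg dec * (s - (m + sg (!dec) * w)) = 0 := by linarith
      have h6 := (mul_eq_zero.1 h5).resolve_left (sg_ne dec)
      linarith

/-- the time of the saddle -/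
noncomputable def sw (μ : Moll) (h : V.Ok m dec K) : ℝ := Classical.choose (exists_switch (μ := μ) h)

theorem sw_spec (h : V.Ok m dec K) : |sw μ h - m| < 1 / 4 ∧ ∀ s : ℝ,
    (0 ≤ sg dec * (s - sw μ h) → V.E μ m dec K s ≤ μ.Q 0 ^ 2) ∧
    (sg dec * (s - sw μ h) ≤ 0 → μ.Q 0 ^ 2 ≤ V.E μ m dec K s) ∧ (V.E μ m dec K s = μ.Q 0 ^ 2 → s = sw μ h) :=
  Classical.choose_spec (exists_switch (μ := μ) h)

/-- corners -/
theorem glue_corner (h : V.Ok m dec K) (j : Bool) {s : ℝ} (hs : 0 ≤ sg dec * (s - sw μ h)) :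
    (V.win μ m dec K h).endPt μ false j (0, s) = (V.win μ m dec K h).endPt μ true j (0, s) ∧
    (V.win μ m dec K h).endPrim μ false j (0, s) = (V.win μ m dec K h).endPrim μ true j (0, s) :=
  SadWin.glue_j j (E_nonneg h s) (((sw_spec h).2 s).1 hs)

/-- lines -/
theorem glue_line (h : V.Ok m dec K) (i : Bool) {s : ℝ} (hs : sg dec * (s - sw μ h) ≤ 0) :
    (V.win μ m dec K h).endPt μ i false (0, s) = (V.win μ m dec K h).endPt μ i true (0, s) ∧
    (V.win μ m dec K h).endPrim μ i false (0, s) = (V.win μ m dec K h).endPrim μ i true (0, s) :=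
  SadWin.glue_i i (((sw_spec h).2 s).2.1 hs)

/-- injectivity on time slices -/
theorem win_inj (h : V.Ok m dec K) {i j i' j' : Bool} {ρ ρ' s : ℝ} (hs : |s - m| < 3 / 4) (h0 : 0 ≤ ρ)
    (h1 : ρ ≤ 1 / 2) (h0' : 0 ≤ ρ') (h1' : ρ' ≤ 1 / 2)
    (he : (V.win μ m dec K h).endPt μ i j (ρ, s) = (V.win μ m dec K h).endPt μ i' j' (ρ', s)) :
    (i = i' ∧ j = j' ∧ ρ = ρ') ∨
    (ρ = 0 ∧ ρ' = 0 ∧ ((sg dec * (s - sw μ h) ≤ 0 ∧ i = i') ∨ (0 ≤ sg dec * (s - sw μ h) ∧ j = j') ∨ s = sw μ h)) := by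
  have hsw := (sw_spec (μ := μ) h).2 s
  rcases SadWin.endPt_inj (mem_win h hs) h0 h1 h0' h1' he with h2 | ⟨r1, r2, h2⟩
  · exact Or.inl h2
  · right
    refine ⟨r1, r2, ?_⟩
    rcases h2 with ⟨h3, h4⟩ | ⟨h3, h4⟩ | h3
    · right
      left
      refine ⟨?_, h4⟩
      by_contra hlt
      push Not at hlt
      exact absurd (hsw.2.1 hlt.le) (not_le.2 h3)
    · left
      refine ⟨?_, h4⟩
      by_contra hlt
      push Not at hlt
      exact absurd (hsw.1 hlt.le) (not_le.2 h3)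
    · exact Or.inr (Or.inr (hsw.2.2 h3))

/-- the coordinates of the plane point: `λ + λ' = xq`, `λ` the coefficient of the own arm -/
theorem endPt_coord (h : V.Ok m dec K) (i j : Bool) {ρ s : ℝ} (h0 : 0 ≤ ρ) (h1 : ρ ≤ 1 / 2) :
    ∃ c c' : ℝ, 0 ≤ c ∧ 0 ≤ c' ∧ c + c' = μ.xq (ρ, V.E μ m dec K s) ∧
      ((V.win μ m dec K h).endPt μ i j (ρ, s)).1 = V.x0 true true + sg j * (c * (V.av m i).1 + c' * (V.av m (!i)).1) ∧
      ((V.win μ m dec K h).endPt μ i j (ρ, s)).2.2.1 =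
        V.y0 true true m + sg j * (c * (V.av m i).2 + c' * (V.av m (!i)).2) := by
  have he := E_nonneg (μ := μ) h s
  set x := μ.xq (ρ, V.E μ m dec K s) with hx
  set v := μ.vq (ρ, V.E μ m dec K s) with hv
  have hx0 : 0 ≤ x := μ.xq_nonneg h0 h1 he
  have hr := abs_le.1 (μ.abs_r_le v)
  refine ⟨x * (1 + μ.r v) / 2, x * (1 - μ.r v) / 2, ?_, ?_, by ring, ?_, ?_⟩
  · have := mul_nonneg hx0 (by linarith : 0 ≤ 1 + μ.r v)
    linarith
  · have := mul_nonneg hx0 (by linarith : 0 ≤ 1 - μ.r v)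
    linarith
  · change (V.x0 true true : ℝ) + (V.win μ m dec K h).toSad.dx μ (sg j * x) (sg i * v) = _
    rw [Sad.dx_eq, Moll.r_sg]
    change (V.x0 true true : ℝ) + sg j * x * (((1 + sg i * μ.r v) * (V.av m true).1 +
      (1 - sg i * μ.r v) * (V.av m false).1) / 2) = _
    cases i
    · rw [sg_false, Bool.not_false]
      ring
    · rw [sg_true, Bool.not_true]
      ring
  · change (V.y0 true true m : ℝ) + (V.win μ m dec K h).toSad.dy μ (sg j * x) (sg i * v) = _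
    rw [Sad.dy_eq, Moll.r_sg]
    change (V.y0 true true m : ℝ) + sg j * x * (((1 + sg i * μ.r v) * (V.av m true).2 +
      (1 - sg i * μ.r v) * (V.av m false).2) / 2) = _
    cases i
    · rw [sg_false, Bool.not_false]
      ring
    · rw [sg_true, Bool.not_true]
      ring

/-- the `x`-coordinate stays within `1/2` of the column of the saddle, with equality only at `ρ = 1/2` -/
theorem endPt_x (h : V.Ok m dec K) (i j : Bool) {ρ s : ℝ} (h0 : 0 ≤ ρ) (h1 : ρ ≤ 1 / 2) :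
    |((V.win μ m dec K h).endPt μ i j (ρ, s)).1 - V.x0 true true| ≤ 1 / 2 ∧
      (|((V.win μ m dec K h).endPt μ i j (ρ, s)).1 - V.x0 true true| = 1 / 2 → ρ = 1 / 2) := by
  have he := E_nonneg (μ := μ) h s
  obtain ⟨c, c', hc, hc', hcc, hx, _⟩ := endPt_coord (μ := μ) (s := s) h i j h0 h1
  have ha : ∀ i, |((V.av m i).1 : ℝ)| = 1 := by
    intro i
    rcases (h.2.2 i true).2.1.2 with h2 | h2
    · rw [h2]
      simp
    · rw [h2]
      simp
  have hle : |((V.win μ m dec K h).endPt μ i j (ρ, s)).1 - V.x0 true true| ≤ μ.xq (ρ, V.E μ m dec K s) := by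
    rw [hx, add_sub_cancel_left, abs_mul, abs_sg, one_mul, ← hcc]
    calc |c * ((V.av m i).1 : ℝ) + c' * ((V.av m (!i)).1 : ℝ)|
        ≤ |c * ((V.av m i).1 : ℝ)| + |c' * ((V.av m (!i)).1 : ℝ)| := abs_add_le _ _
      _ = c + c' := by rw [abs_mul, abs_mul, ha, ha, abs_of_nonneg hc, abs_of_nonneg hc', mul_one, mul_one]
  rcases h1.eq_or_lt with h2 | h2
  · refine ⟨?_, fun _ => h2⟩
    rw [h2] at hle ⊢
    rw [μ.xq_half he] at hle
    exact hle
  · have h3 := μ.xq_lt_half h0 h2 he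
    refine ⟨by linarith, fun h4 => ?_⟩
    rw [h4] at hle
    linarith

/-- The plane point is in the hull of a cell with the neighbours of the corner. -/
theorem endPt_hull (h : V.Ok m dec K) (i j : Bool) {ρ s : ℝ} (hs : |s - m| < 3 / 4) (h0 : 0 ≤ ρ) (h1 : ρ ≤ 1 / 2)
    {C : WC} (hx0 : C.x0 = V.x1 (!i) j) (hx1 : C.x1 = V.x0 true true) (hx2 : C.x2 = V.x1 i j)
    (hy0 : C.y0 = Z3.of (V.y1 (!i) j) m) {i' j' : Bool} (hy1 : C.y1 = Z3.of (V.y0 i' j') m)
    (hy2 : C.y2 = Z3.of (V.y1 i j) m) :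
    C.InHull μ (s - m) (((V.win μ m dec K h).endPt μ i j (ρ, s)).1,
      ((V.win μ m dec K h).endPt μ i j (ρ, s)).2.2.1) := by
  have he := E_nonneg (μ := μ) h s
  obtain ⟨c, c', hc, hc', hcc, hx, hy⟩ := endPt_coord (μ := μ) (s := s) h i j h0 h1
  have hep := μ.ep_lt
  have hle : μ.xq (ρ, V.E μ m dec K s) ≤ 1 / 2 := by
    rcases h1.eq_or_lt with h2 | h2
    · rw [h2, μ.xq_half he]
    · exact (μ.xq_lt_half h0 h2 he).le
  have hs' : |s - m| ≤ 1 - μ.ep := by linarith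
  have hfr : ∀ (g : ℤ → ℤ) (d : ℤ), (∀ k ∈ [m - 1, m, m + 1], g k = d) → (Z3.of g m).val μ (s - m) = d := by
    intro g d hg
    unfold Z3.val Z3.of Moll.tri
    simp only
    rw [hg (m - 1) (by simp), hg m (by simp), hg (m + 1) (by simp)]
    ring
  have v0 := hfr _ _ fun k hk => ((h.2.2 (!i) j).2.2 k hk).2.1
  have v1 := hfr _ _ fun k hk => ((h.2.2 i' j').2.2 k hk).1
  have v2 := hfr _ _ fun k hk => ((h.2.2 i j).2.2 k hk).2.1
  refine ⟨1 - 2 * (c + c'), 2 * c, 2 * c', by linarith, by linarith, by linarith, by ring, ?_, ?_⟩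
  · rw [hx, hx0, hx1, hx2, (h.2.2 i j).2.1.1, (h.2.2 (!i) j).2.1.1, ← sgz_cast]
    push_cast
    ring
  · rw [hy, hy0, hy1, hy2, v0, v1, v2, ← sgz_cast]
    push_cast
    ring

end EndTab

namespace StripTab

variable {T : StripTab} {μ : Moll} {m : ℤ} {K : ℤ}

/-- before the saddle `B`, read in the strip itself -/
theorem endB_before (h : T.endB.Ok m false K) (a i j : Bool) (hl : 1 ≤ T.len i j) (hl' : 1 ≤ T.len (!i) j)
    {ρ s : ℝ} (h0 : 0 ≤ ρ) (h1 : ρ ≤ 1 / 2) (hs : m - 3 / 4 < s) (hE : s ≤ m - 1 / 4)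
    (hy : ∀ k, m - 2 ≤ k → k ≤ m → T.y (!i) j (T.len (!i) j) k = T.y i j (T.len i j) k)
    (hok : ((T.ext a false i j).wc (T.len i j) (m - 1)).ok = true) :
    (T.endB.win μ m false K h).endPt μ i j (ρ, s) = (((T.ext a false i j).toChain μ).cell (T.len i j)).pt μ (-ρ, s) ∧
    (T.endB.win μ m false K h).endPrim μ i j (ρ, s) =
      (((T.ext a false i j).toChain μ).cell (T.len i j)).prim μ (-ρ, s) := by
  have h2 := endB_corner (μ := μ) h a i j hl' h0 h1 hs hE
  have hep := μ.ep_lt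
  have h3 := flipB (T := T) μ a a false i j (m := m - 1) (v := ρ) (s := s)
    (by rw [abs_lt]; push_cast; constructor <;> linarith) hl (by rw [prt_false]; exact hl')
    (by rw [prt_false]; exact ((h.2.2 (!i) j).1.trans (h.2.2 i j).1.symm))
    (fun k k1 k2 => by rw [prt_false]; exact hy k (by omega) (by omega)) hok
  rw [prt_false] at h3
  exact ⟨h2.1.trans h3.1, h2.2.trans h3.2⟩

/-- after the saddle `B`, read in the strip itself -/
theorem endB_after (h : T.endB.Ok m false K) (a i j : Bool) (hl : 1 ≤ T.len i j) (hl' : 1 ≤ T.len i (!j))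
    {ρ s : ℝ} (h0 : 0 ≤ ρ) (h1 : ρ ≤ 1 / 2) (hs : s < m + 3 / 4) (hE : m + 1 / 4 ≤ s)
    (hy : ∀ k, m ≤ k → k ≤ m + 2 → T.y i (!j) (T.len i (!j)) k = T.y i j (T.len i j) k)
    (hok : ((T.ext a true i j).wc (T.len i j) (m + 1)).ok = true) :
    (T.endB.win μ m false K h).endPt μ i j (ρ, s) = (((T.ext a true i j).toChain μ).cell (T.len i j)).pt μ (-ρ, s) ∧
    (T.endB.win μ m false K h).endPrim μ i j (ρ, s) =
      (((T.ext a true i j).toChain μ).cell (T.len i j)).prim μ (-ρ, s) := by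
  have h2 := endB_line (μ := μ) h a i j hl' h0 h1 hs hE
  have hep := μ.ep_lt
  have h3 := flipB (T := T) μ a a true i j (m := m + 1) (v := ρ) (s := s)
    (by rw [abs_lt]; push_cast; constructor <;> linarith) hl (by rw [prt_true]; exact hl')
    (by rw [prt_true]; exact ((h.2.2 i (!j)).1.trans (h.2.2 i j).1.symm))
    (fun k k1 k2 => by rw [prt_true]; exact hy k (by omega) (by omega)) hok
  rw [prt_true] at h3
  exact ⟨h2.1.trans h3.1, h2.2.trans h3.2⟩

/-- the first edge at `A`, as a part of the cell `1` -/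
theorem endA_cell_one (h : T.endA.Ok m true K) (a b i j : Bool) (hl : 1 ≤ T.len i j) {θ s : ℝ} (h0 : 1 / 4 ≤ θ)
    (h1 : θ ≤ 1 / 2) (hs : |s - m| < 3 / 4) (hR : ∀ᶠ t in 𝓝 s, ((T.ext a b i j).toChain μ).Rel μ 1 t) :
    (T.endA.win μ m true K h).endPt μ i j (θ, s) = (((T.ext a b i j).toChain μ).cell 1).pt μ (θ - 1, s) ∧
    (T.endA.win μ m true K h).endPrim μ i j (θ, s) = (((T.ext a b i j).toChain μ).cell 1).prim μ (θ - 1, s) := by
  have h2 := endA_edge (μ := μ) h a b i j hl h0 h1 hs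
  have hep := μ.ep_lt
  have h3 := CellChain.overlap (μ := μ) (C := (T.ext a b i j).toChain μ) (n := 0) (v := θ) (s := s) (by linarith)
    (by linarith) (by rw [zero_add]; exact hR)
  rw [zero_add] at h3
  exact ⟨h2.1.trans h3.1, h2.2.trans h3.2⟩

/-- the plane point is in the hull of the cell of the strip -/
theorem endA_hull (h : T.endA.Ok T.mA true K) (i j : Bool) (hl : 1 ≤ T.len i j) {θ s : ℝ} (h0 : 0 ≤ θ)
    (h1 : θ ≤ 1 / 2) (hs : |s - T.mA| < 3 / 4) : (T.cel i j 0 T.mA).InHull μ (s - T.mA)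
      (((T.endA.win μ T.mA true K h).endPt μ i j (θ, s)).1, ((T.endA.win μ T.mA true K h).endPt μ i j (θ, s)).2.2.1) := by
  have hr : T.rA T.mA = false := by
    unfold rA
    simp
  refine EndTab.endPt_hull h i j hs h0 h1 (i' := i) (j' := j) ?_ ?_ ?_ ?_ ?_ ?_
  · change (T.ext (T.rA T.mA) (T.rB T.mA) i j).x (0 - 1) = _
    rw [hr, ext_x_neg (by omega), prt_false]
    rfl
  · change (T.ext (T.rA T.mA) (T.rB T.mA) i j).x 0 = _
    rw [ext_x (by omega) (by omega)]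
    exact (h.2.2 i j).1
  · change (T.ext (T.rA T.mA) (T.rB T.mA) i j).x (0 + 1) = _
    rw [ext_x (by omega) (by omega)]
    rfl
  · change Z3.of ((T.ext (T.rA T.mA) (T.rB T.mA) i j).y (0 - 1)) _ = _
    rw [hr, ext_y_neg (by omega), prt_false]
    rfl
  · change Z3.of ((T.ext (T.rA T.mA) (T.rB T.mA) i j).y 0) _ = _
    rw [ext_y (by omega) (by omega)]
    rfl
  · change Z3.of ((T.ext (T.rA T.mA) (T.rB T.mA) i j).y (0 + 1)) _ = _
    rw [ext_y (by omega) (by omega)]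
    rfl

/-- the plane point is in the hull of the cell of the strip at `B` -/
theorem endB_hull (h : T.endB.Ok T.mB false K) (i j : Bool) (hl : 1 ≤ T.len i j) {ρ s : ℝ}
    (h0 : 0 ≤ ρ) (h1 : ρ ≤ 1 / 2) (hs : |s - T.mB| < 3 / 4) : (T.cel i j (T.len i j) T.mB).InHull μ (s - T.mB)
      (((T.endB.win μ T.mB false K h).endPt μ i j (ρ, s)).1,
        ((T.endB.win μ T.mB false K h).endPt μ i j (ρ, s)).2.2.1) := by
  have hr : T.rB T.mB = false := by
    unfold rB
    simp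
  have hel : T.len (!i) j + T.len i j - (T.len i j + 1) = T.len (!i) j - 1 := by omega
  set C := T.cel i j (T.len i j) T.mB with hC
  have hx0 : C.x0 = T.endB.x1 i j := by
    change (T.ext (T.rA T.mB) (T.rB T.mB) i j).x (T.len i j - 1) = _
    rw [ext_x (by omega) (by omega)]
    rfl
  have hx1 : C.x1 = T.endB.x0 true true := by
    change (T.ext (T.rA T.mB) (T.rB T.mB) i j).x (T.len i j) = _
    rw [ext_x (by omega) (by omega)]
    exact (h.2.2 i j).1
  have hx2 : C.x2 = T.endB.x1 (!i) j := by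
    change (T.ext (T.rA T.mB) (T.rB T.mB) i j).x (T.len i j + 1) = _
    rw [hr, ext_x_gt (by omega) (by omega), prt_false, hel]
    rfl
  have hy0 : C.y0 = Z3.of (T.endB.y1 i j) T.mB := by
    change Z3.of ((T.ext (T.rA T.mB) (T.rB T.mB) i j).y (T.len i j - 1)) _ = _
    rw [ext_y (by omega) (by omega)]
    rfl
  have hy1 : C.y1 = Z3.of (T.endB.y0 i j) T.mB := by
    change Z3.of ((T.ext (T.rA T.mB) (T.rB T.mB) i j).y (T.len i j)) _ = _
    rw [ext_y (by omega) (by omega)]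
    rfl
  have hy2 : C.y2 = Z3.of (T.endB.y1 (!i) j) T.mB := by
    change Z3.of ((T.ext (T.rA T.mB) (T.rB T.mB) i j).y (T.len i j + 1)) _ = _
    rw [hr, ext_y_gt (by omega) (by omega), prt_false, hel]
    rfl
  obtain ⟨α, β, γ, a1, a2, a3, a4, a5, a6⟩ := EndTab.endPt_hull (μ := μ) h i j hs h0 h1
    (C := ⟨C.x2, C.x1, C.x0, C.y2, C.y1, C.y0, C.f1, C.f0⟩) (i' := i) (j' := j) hx2 hx1 hx0 hy2 hy1 hy0
  refine ⟨α, γ, β, a1, a3, a2, by linarith, ?_, ?_⟩
  · rw [a5]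
    simp only
    ring
  · rw [a6]
    simp only
    ring

end StripTab

end Pool.Agent.Lib_MP_59ec1f_cap
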