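import Pool.Agent.Lib_MP_59ec1f_cap.SadEnd
import Pool.Agent.Lib_MP_59ec1f_cap.CellEdge

/-!
# Overlaps of the ends at a saddle with edges and cells

`mid i j` is the primitive at the midpoint `ρ = 1/2` of the first edge of the strip `(i, j)`. The end `endPt i j` is
* the first edge for `ρ ≥ 1/4` (`own_edge`),
* the cell at `q` with the second neighbour `q + sg j * arm i` and the first neighbour `q + sg j * arm (!i)` if `E s = 0`
  (`own_corner`),
* the cell at `q` with the second neighbour `q + sg j * arm i` and the first neighbour `q - sg j * arm i` if `E s ≥ 1/16`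
  (`own_line`).
-/

set_option autoImplicit false

open scoped ContDiff
open Filter Topology

namespace Pool.Agent.Lib_MP_59ec1f_cap

namespace Moll

variable {μ : Moll}

theorem Rt_neg (v : ℝ) : μ.Rt (-v) = -μ.Rt v := by
  have h1 : ∀ x, HasDerivAt (fun x => μ.Rt x + μ.Rt (-x)) 0 x := by
    intro x
    have a := μ.hasDerivAt_Rt x
    have b : HasDerivAt (fun x => μ.Rt (-x)) ((μ.Q (-x) - -x * deriv μ.Q (-x)) * -1) x :=
      (μ.hasDerivAt_Rt (-x)).comp x (hasDerivAt_neg x)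
    have c := a.add b
    have e : μ.Q x - x * deriv μ.Q x + (μ.Q (-x) - -x * deriv μ.Q (-x)) * -1 = 0 := by
      rw [μ.Q_neg, μ.deriv_Q x, μ.deriv_Q (-x), neg_neg]
      ring
    rwa [e] at c
  have h2 := is_const_of_deriv_eq_zero (fun x => (h1 x).differentiableAt) (fun x => (h1 x).deriv) v 0
  have h3 : μ.Rt 0 = 0 := by
    unfold Rt
    exact intervalIntegral.integral_same
  simp only [neg_zero] at h2
  rw [h3] at h2
  linarith

theorem Rt_sg (b : Bool) (v : ℝ) : μ.Rt (sg b * v) = sg b * μ.Rt v := by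
  cases b
  · rw [sg_false, neg_mul, one_mul, Rt_neg]
    ring
  · rw [sg_true, one_mul, one_mul]

theorem r_sg (b : Bool) (v : ℝ) : μ.r (sg b * v) = sg b * μ.r v := by
  cases b
  · rw [sg_false, neg_mul, one_mul, μ.r_neg]
    ring
  · rw [sg_true, one_mul, one_mul]

theorem J_zero (x0 x1 x2 v : ℝ) : μ.J x0 x1 x2 0 0 0 v = 0 := by
  rw [μ.J_eq]
  ring

end Moll

private theorem int_affine (A B x y : ℝ) : ∫ t in x..y, (A + B * t) = A * (y - x) + B * (y ^ 2 - x ^ 2) / 2 := by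
  rw [intervalIntegral.integral_add (by simp) (by apply Continuous.intervalIntegrable; fun_prop),
    intervalIntegral.integral_const_mul, integral_id, intervalIntegral.integral_const, smul_eq_mul]
  ring

theorem edgePt_const {x x' : ℝ} {y y' f : ℝ → ℝ} {s Y Y' F : ℝ} (hy : y s = Y) (hy' : y' s = Y') (dy : deriv y s = 0)
    (dy' : deriv y' s = 0) (df : deriv f s = F) (v : ℝ) :
    edgePt x x' y y' f v s = (x + (x' - x) * v, s, Y + (Y' - Y) * v, F) := by
  unfold edgePt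
  rw [hy, hy', dy, dy', df]
  have h : F + (x' - x) * (0 * (v - 1 / 2) + (0 - 0) * (v ^ 2 - 1 / 4) / 2) = F := by ring
  rw [h]

theorem Cell.pt_const (μ : Moll) {C : Cell} {s F : ℝ} (d0 : deriv C.y0 s = 0) (d1 : deriv C.y1 s = 0)
    (d2 : deriv C.y2 s = 0) (df : deriv C.f s = F) (v : ℝ) :
    C.pt μ (v, s) = (μ.tri C.x0 C.x1 C.x2 v, s, μ.tri (C.y0 s) (C.y1 s) (C.y2 s) v, F) := by
  unfold Cell.pt
  simp only
  rw [d0, d1, d2, df, Moll.J_zero, sub_zero]

namespace SadWin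

variable (D : SadWin)

/-- the primitive at the midpoint of the first edge of the strip `(i, j)` -/
noncomputable def mid (i j : Bool) (s : ℝ) : ℝ :=
  D.M s + sg i * (D.kap / 4 * (D.E s - 1 / 800)) + D.q.2 * (D.arm i).1 * (sg j / 2) + (D.arm i).1 * (D.arm i).2 / 8

/-- the determinant of the arms -/
theorem sg_kap (i : Bool) : sg i * D.kap = (D.arm i).2 * (D.arm (!i)).1 - (D.arm (!i)).2 * (D.arm i).1 := by
  unfold arm Sad.kap
  cases i
  · simp only [sg_false, Bool.not_false, if_true, Bool.false_eq_true, if_false]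
    ring
  · simp only [sg_true, Bool.not_true, if_true, Bool.false_eq_true, if_false]
    ring

theorem hasDerivAt_mid (i j : Bool) (s : ℝ) :
    HasDerivAt (D.mid i j) (deriv D.M s + sg i * (D.kap / 4 * deriv D.E s)) s := by
  have hM : HasDerivAt D.M (deriv D.M s) s := (D.hM.differentiable (by simp) s).hasDerivAt
  have hE : HasDerivAt D.E (deriv D.E s) s := (D.hE.differentiable (by simp) s).hasDerivAt
  exact ((hM.add (((hE.sub_const (1 / 800)).const_mul (D.kap / 4)).const_mul (sg i))).add_const _).add_const _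

theorem mid_contDiff (i j : Bool) : ContDiff ℝ ∞ (D.mid i j) :=
  ((D.hM.add (contDiff_const.mul (contDiff_const.mul (D.hE.sub contDiff_const)))).add contDiff_const).add
    contDiff_const

variable {D}
variable {μ : Moll}

private theorem deriv_of_near {f : ℝ → ℝ} {i j : Bool} {s : ℝ} (hf : f =ᶠ[𝓝 s] D.mid i j) :
    deriv f s = deriv D.M s + sg i * (D.kap / 4 * deriv D.E s) := by
  rw [hf.deriv_eq]
  exact (D.hasDerivAt_mid i j s).deriv

/-- overlap with the first edge -/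
theorem own_edge (i j : Bool) {ρ s : ℝ} {x x' : ℝ} {y y' f : ℝ → ℝ} (h0 : 0 ≤ ρ) (h1 : ρ ≤ 1 / 2) (he : 0 ≤ D.E s)
    (h : 1 / 4 ≤ ρ ∨ 1 / 16 ≤ D.E s) (hx : x = D.q.1) (hx' : x' = D.q.1 + sg j * (D.arm i).1)
    (hy : y s = D.q.2) (hy' : y' s = D.q.2 + sg j * (D.arm i).2) (dy : deriv y s = 0)
    (dy' : deriv y' s = 0) (hf : f =ᶠ[𝓝 s] D.mid i j) :
    D.endPt μ i j (ρ, s) = edgePt x x' y y' f ρ s ∧
      D.endPrim μ i j (ρ, s) = edgePrim x x' y y' f ρ s := by
  subst hx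
  subst hx'
  obtain ⟨a, b⟩ := endPt_straight (μ := μ) i j h0 h1 he h
  rw [a, b, edgePt_const hy hy' dy dy' (deriv_of_near hf)]
  refine ⟨?_, ?_⟩
  · refine Prod.ext_iff.2 ⟨?_, Prod.ext_iff.2 ⟨rfl, Prod.ext_iff.2 ⟨?_, rfl⟩⟩⟩
    · simp only
      ring
    · simp only
      ring
  · unfold edgePrim
    rw [hy, hy', hf.self_of_nhds]
    unfold mid
    have h2 := sg_mul_self j
    linear_combination (-((D.arm i).1 * (D.arm i).2 * (ρ ^ 2 - 1 / 4) / 2)) * h2

private theorem dx_corner (i j : Bool) (v : ℝ) :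
    D.toSad.dx μ (sg j * μ.Q v) (sg i * v) = sg j * (μ.S v * (D.arm i).1 + μ.S (-v) * (D.arm (!i)).1) := by
  have hQ : μ.Q v ≠ 0 := (μ.Q_pos v).ne'
  unfold Sad.dx
  rw [Moll.Q_sg]
  have h : sg j * μ.Q v / μ.Q v = sg j := by field_simp
  rw [h]
  unfold arm
  cases i
  · simp only [sg_false, Bool.not_false, if_true, Bool.false_eq_true, if_false, neg_mul, one_mul, neg_neg]
    ring
  · simp only [sg_true, Bool.not_true, if_true, Bool.false_eq_true, if_false, one_mul]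

private theorem dy_corner (i j : Bool) (v : ℝ) :
    D.toSad.dy μ (sg j * μ.Q v) (sg i * v) = sg j * (μ.S v * (D.arm i).2 + μ.S (-v) * (D.arm (!i)).2) := by
  have hQ : μ.Q v ≠ 0 := (μ.Q_pos v).ne'
  unfold Sad.dy
  rw [Moll.Q_sg]
  have h : sg j * μ.Q v / μ.Q v = sg j := by field_simp
  rw [h]
  unfold arm
  cases i
  · simp only [sg_false, Bool.not_false, if_true, Bool.false_eq_true, if_false, neg_mul, one_mul, neg_neg]
    ring
  · simp only [sg_true, Bool.not_true, if_true, Bool.false_eq_true, if_false, one_mul]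

private theorem hasDerivAt_S_neg' (v : ℝ) : HasDerivAt (fun t => μ.S (-t)) (-deriv μ.S (-v)) v := by
  have h := (μ.hasDerivAt_S (-v)).comp v (hasDerivAt_neg v)
  rw [mul_neg_one] at h
  exact h

/-- the primitive of a corner -/
private theorem prim_corner {i j : Bool} {s : ℝ} (hE : D.E s = 0) {F : ℝ} (hF : F = D.mid i j s) (v : ℝ) :
    D.toSad.prim μ (sg j * μ.Q v) (sg i * v) s =
      F - μ.J (D.q.1 + sg j * (D.arm (!i)).1) D.q.1 (D.q.1 + sg j * (D.arm i).1)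
        (D.q.2 + sg j * (D.arm (!i)).2) D.q.2 (D.q.2 + sg j * (D.arm i).2) v := by
  set α := D.arm i with hα
  set β := D.arm (!i) with hβ
  set σ := sg j with hσ
  have hσ2 : σ * σ = 1 := sg_mul_self j
  have hκ : sg i * D.kap = α.2 * β.1 - β.2 * α.1 := D.sg_kap i
  have hprim : ∀ v, D.toSad.prim μ (σ * μ.Q v) (sg i * v) s = D.M s + D.q.2 * (σ * (μ.S v * α.1 + μ.S (-v) * β.1)) +
      (σ * (μ.S v * α.1 + μ.S (-v) * β.1)) * (σ * (μ.S v * α.2 + μ.S (-v) * β.2)) / 2 -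
      (sg i * D.kap) / 4 * μ.Rt v := by
    intro v
    unfold Sad.prim
    rw [dx_corner, dy_corner, hE, Moll.Rt_sg]
    ring
  set J := μ.J (D.q.1 + σ * β.1) D.q.1 (D.q.1 + σ * α.1) (D.q.2 + σ * β.2) D.q.2 (D.q.2 + σ * α.2) with hJ
  have h1 : ∀ x, HasDerivAt (fun v => D.toSad.prim μ (σ * μ.Q v) (sg i * v) s + J v) 0 x := by
    intro x
    have hS := μ.hasDerivAt_S x
    have hT := hasDerivAt_S_neg' (μ := μ) x
    have hX : HasDerivAt (fun v => σ * (μ.S v * α.1 + μ.S (-v) * β.1))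
        (σ * (deriv μ.S x * α.1 + -deriv μ.S (-x) * β.1)) x := ((hS.mul_const _).add (hT.mul_const _)).const_mul σ
    have hY : HasDerivAt (fun v => σ * (μ.S v * α.2 + μ.S (-v) * β.2))
        (σ * (deriv μ.S x * α.2 + -deriv μ.S (-x) * β.2)) x := ((hS.mul_const _).add (hT.mul_const _)).const_mul σ
    have hR := μ.hasDerivAt_Rt x
    have hJ' := μ.hasDerivAt_J (D.q.1 + σ * β.1) D.q.1 (D.q.1 + σ * α.1) (D.q.2 + σ * β.2) D.q.2 (D.q.2 + σ * α.2) x
    have hall := (((((hX.const_mul D.q.2).const_add (D.M s)).add ((hX.mul hY).div_const 2)).sub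
      (hR.const_mul ((sg i * D.kap) / 4))).add hJ')
    have hfun : (fun v => D.toSad.prim μ (σ * μ.Q v) (sg i * v) s + J v) = fun v => D.M s +
        D.q.2 * (σ * (μ.S v * α.1 + μ.S (-v) * β.1)) +
        (σ * (μ.S v * α.1 + μ.S (-v) * β.1)) * (σ * (μ.S v * α.2 + μ.S (-v) * β.2)) / 2 -
        (sg i * D.kap) / 4 * μ.Rt v + J v := by
      funext v
      rw [hprim v]
    rw [hfun]
    refine HasDerivAt.congr_deriv hall ?_
    rw [(μ.hasDerivAt_tri (D.q.1 + σ * β.1) D.q.1 (D.q.1 + σ * α.1) x).deriv, μ.deriv_Q, hκ]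
    have e1 : deriv μ.S (-x) = 1 - deriv μ.S x := by
      have := μ.deriv_refl x
      linarith
    have e2 : x = μ.S x - μ.S (-x) := (μ.refl x).symm
    have e3 : μ.Q x = μ.S x + μ.S (-x) := rfl
    unfold Moll.tri
    rw [e1, e3]
    generalize μ.S x = A at *
    generalize μ.S (-x) = B at *
    generalize deriv μ.S x = A' at *
    subst e2
    linear_combination (2⁻¹ * ((A * α.1 + B * β.1) * (A' * α.2 + -(1 - A') * β.2) +
      (A' * α.1 + -(1 - A') * β.1) * (A * α.2 + B * β.2)) -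
      (A * α.2 + B * β.2) * (A' * α.1 + -(1 - A') * β.1)) * hσ2
  have h2 := is_const_of_deriv_eq_zero (fun x => (h1 x).differentiableAt) (fun x => (h1 x).deriv) v (1 / 2)
  have h3 : J (1 / 2) = 0 := μ.J_half _ _ _ _ _ _
  have h4 : D.toSad.prim μ (σ * μ.Q (1 / 2)) (sg i * (1 / 2)) s = F := by
    rw [hprim]
    have hep := μ.ep_lt
    rw [μ.right (1 / 2) (by linarith), μ.left (-(1 / 2)) (by linarith), μ.Rt_right (v := 1 / 2) (by linarith), hF]
    unfold mid
    rw [hE]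
    linear_combination (α.1 * α.2 / 8) * hσ2
  rw [h3, h4, add_zero] at h2
  linarith

/-- overlap with the corner -/
theorem own_corner (i j : Bool) {ρ s : ℝ} {C : Cell} (h0 : 0 ≤ ρ) (h1 : ρ ≤ 1 / 2) (hs : s ∈ Set.Ioo D.lo D.hi)
    (hE : D.E s = 0) (hx0 : C.x0 = D.q.1 + sg j * (D.arm (!i)).1) (hx1 : C.x1 = D.q.1)
    (hx2 : C.x2 = D.q.1 + sg j * (D.arm i).1) (hy0 : C.y0 s = D.q.2 + sg j * (D.arm (!i)).2) (hy1 : C.y1 s = D.q.2)
    (hy2 : C.y2 s = D.q.2 + sg j * (D.arm i).2) (d0 : deriv C.y0 s = 0) (d1 : deriv C.y1 s = 0)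
    (d2 : deriv C.y2 s = 0) (hf : C.f =ᶠ[𝓝 s] D.mid i j) :
    D.endPt μ i j (ρ, s) = C.pt μ (ρ, s) ∧ D.endPrim μ i j (ρ, s) = C.prim μ (ρ, s) := by
  obtain ⟨a, b⟩ := endPt_corner (D := D) (μ := μ) i j h0 h1 hE
  rw [a, b, Moll.Q_sg, Cell.pt_const μ d0 d1 d2 (deriv_of_near hf)]
  have hE' := deriv_E_zero hs hE
  refine ⟨?_, ?_⟩
  · unfold Sad.pt
    rw [dx_corner, dy_corner, hE', hx0, hx1, hx2, hy0, hy1, hy2]
    unfold Moll.tri
    refine Prod.ext_iff.2 ⟨?_, Prod.ext_iff.2 ⟨rfl, Prod.ext_iff.2 ⟨?_, ?_⟩⟩⟩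
    · simp only
      ring
    · simp only
      ring
    · simp only
      ring
  · rw [prim_corner hE hf.self_of_nhds ρ]
    unfold Cell.prim
    simp only
    rw [hx0, hx1, hx2, hy0, hy1, hy2]

/-- overlap with the line -/
theorem own_line (i j : Bool) {ρ s : ℝ} {C : Cell} (h0 : 0 ≤ ρ) (h1 : ρ ≤ 1 / 2) (hE : 1 / 16 ≤ D.E s)
    (hx0 : C.x0 = D.q.1 - sg j * (D.arm i).1) (hx1 : C.x1 = D.q.1)
    (hx2 : C.x2 = D.q.1 + sg j * (D.arm i).1) (hy0 : C.y0 s = D.q.2 - sg j * (D.arm i).2) (hy1 : C.y1 s = D.q.2)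
    (hy2 : C.y2 s = D.q.2 + sg j * (D.arm i).2) (d0 : deriv C.y0 s = 0) (d1 : deriv C.y1 s = 0)
    (d2 : deriv C.y2 s = 0) (hf : C.f =ᶠ[𝓝 s] D.mid i j) :
    D.endPt μ i j (ρ, s) = C.pt μ (ρ, s) ∧ D.endPrim μ i j (ρ, s) = C.prim μ (ρ, s) := by
  have he : 0 ≤ D.E s := le_trans (by norm_num) hE
  obtain ⟨a, b⟩ := endPt_straight (D := D) (μ := μ) i j h0 h1 he (Or.inr hE)
  rw [a, b, Cell.pt_const μ d0 d1 d2 (deriv_of_near hf)]
  have hst : ∀ d v : ℝ, ∀ b : ℝ, μ.tri (b - d) b (b + d) v = b + d * v := fun d v b => μ.tri_straight b d v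
  refine ⟨?_, ?_⟩
  · rw [hx0, hx1, hx2, hy0, hy1, hy2, hst, hst]
    refine Prod.ext_iff.2 ⟨?_, Prod.ext_iff.2 ⟨rfl, Prod.ext_iff.2 ⟨?_, rfl⟩⟩⟩
    · simp only
      ring
    · simp only
      ring
  · unfold Cell.prim Moll.J
    simp only
    rw [hx0, hx1, hx2, hy0, hy1, hy2, hf.self_of_nhds]
    have hint : (∫ t in ρ..(1 / 2 : ℝ), μ.tri (D.q.2 - sg j * (D.arm i).2) D.q.2 (D.q.2 + sg j * (D.arm i).2) t *
        deriv (μ.tri (D.q.1 - sg j * (D.arm i).1) D.q.1 (D.q.1 + sg j * (D.arm i).1)) t) =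
        ∫ t in ρ..(1 / 2 : ℝ), (D.q.2 * (sg j * (D.arm i).1) + (sg j * (D.arm i).2) * (sg j * (D.arm i).1) * t) := by
      refine intervalIntegral.integral_congr fun t _ => ?_
      have hd : deriv (μ.tri (D.q.1 - sg j * (D.arm i).1) D.q.1 (D.q.1 + sg j * (D.arm i).1)) t =
          sg j * (D.arm i).1 := by
        rw [(μ.hasDerivAt_tri _ _ _ t).deriv]
        have := μ.deriv_refl t
        linear_combination (sg j * (D.arm i).1) * this
      rw [hd, hst]
      ring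
    rw [hint, int_affine]
    unfold mid
    have h2 := sg_mul_self j
    linear_combination (-((D.arm i).1 * (D.arm i).2 * (ρ ^ 2 - 1 / 4) / 2)) * h2

end SadWin

end Pool.Agent.Lib_MP_59ec1f_cap
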