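import Pool.Agent.Lib_MP_59ec1f_cap.MollFacts

/-!
# Parametrisation of the arcs of the saddle template
-/

set_option autoImplicit false

open scoped ContDiff
open Filter Topology

namespace Pool.Agent.Lib_MP_59ec1f_cap

/-- `Q` on `[0, ∞)`, extended to an increasing homeomorphism of the line -/
private noncomputable def gq (μ : Moll) (v : ℝ) : ℝ := μ.Q (max v 0) + min v 0

private theorem gq_pos (μ : Moll) {v : ℝ} (h : 0 ≤ v) : gq μ v = μ.Q v := by
  unfold gq
  rw [max_eq_left h, min_eq_right h, add_zero]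

private theorem gq_strictMono (μ : Moll) : StrictMono (gq μ) := by
  intro a b hab
  rcases le_or_gt 0 a with ha | ha
  · rw [gq_pos μ ha, gq_pos μ (ha.trans hab.le)]
    exact μ.Q_strictMonoOn ha (ha.trans hab.le) hab
  · unfold gq
    have h1 : μ.Q (max a 0) ≤ μ.Q (max b 0) :=
      μ.Q_strictMonoOn.monotoneOn (Set.mem_Ici.2 (le_max_right a 0)) (Set.mem_Ici.2 (le_max_right b 0))
        (max_le_max_right 0 hab.le)
    have h2 : min a 0 < min b 0 := by
      rw [min_eq_left ha.le]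
      exact lt_min hab ha
    linarith

private theorem gq_continuous (μ : Moll) : Continuous (gq μ) := by
  unfold gq
  exact (μ.Q_contDiff.continuous.comp (continuous_id.max continuous_const)).add (continuous_id.min continuous_const)

private theorem gq_surjective (μ : Moll) : Function.Surjective (gq μ) := by
  refine (gq_continuous μ).surjective ?_ ?_
  · refine tendsto_atTop_mono' atTop ?_ tendsto_id
    filter_upwards [eventually_ge_atTop 0] with v hv
    rw [gq_pos μ hv]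
    exact (le_abs_self v).trans (μ.abs_le_Q v)
  · refine tendsto_atBot_mono' atBot ?_ (tendsto_atBot_add_const_left atBot (μ.Q 0) tendsto_id)
    filter_upwards [eventually_le_atBot 0] with v hv
    unfold gq
    rw [max_eq_right hv, min_eq_left hv]
    rfl

/-- the inverse of `gq` -/
private noncomputable def qi (μ : Moll) : ℝ ≃o ℝ := (gq_strictMono μ).orderIsoOfSurjective _ (gq_surjective μ)

private theorem qi_apply (μ : Moll) (v : ℝ) : qi μ v = gq μ v := rfl

/-- weight -/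
private noncomputable def ew (e : ℝ) : ℝ := max 0 (min (16 * e) 1)

private theorem ew_nonneg (e : ℝ) : 0 ≤ ew e := le_max_left _ _

private theorem ew_le (e : ℝ) : ew e ≤ 1 := max_le zero_le_one (min_le_right _ _)

private theorem ew_one {e : ℝ} (h : 1 / 16 ≤ e) : ew e = 1 := by
  unfold ew
  rw [min_eq_right (by linarith), max_eq_right zero_le_one]

private theorem ew_zero : ew 0 = 0 := by
  unfold ew
  norm_num

private theorem ew_continuous : Continuous ew := by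
  unfold ew
  exact continuous_const.max ((continuous_const.mul continuous_id).min continuous_const)

/-- the start -/
private noncomputable def ys (μ : Moll) (e : ℝ) : ℝ := Real.sqrt (max 0 (μ.Q 0 ^ 2 - e))

private theorem ys_nonneg (μ : Moll) (e : ℝ) : 0 ≤ ys μ e := Real.sqrt_nonneg _

private theorem ys_sq (μ : Moll) (e : ℝ) : ys μ e ^ 2 = max 0 (μ.Q 0 ^ 2 - e) := Real.sq_sqrt (le_max_left _ _)

private theorem ys_zero (μ : Moll) {e : ℝ} (h : μ.Q 0 ^ 2 ≤ e) : ys μ e = 0 := by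
  unfold ys
  rw [max_eq_left (by linarith), Real.sqrt_zero]

private theorem ys_le (μ : Moll) {e : ℝ} (h : 0 ≤ e) : ys μ e ≤ μ.Q 0 := by
  refine abs_le_of_sq_le_sq' ?_ (μ.Q_pos 0).le |>.2
  rw [ys_sq]
  exact max_le (sq_nonneg _) (by linarith)

private theorem ys_continuous (μ : Moll) : Continuous (ys μ) := by
  unfold ys
  exact (continuous_const.max (continuous_const.sub continuous_id)).sqrt

private theorem Q_zero_lt_quarter (μ : Moll) : μ.Q 0 < 1 / 4 := μ.Q_zero_le.trans_lt μ.ep_lt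

/-- the denominator -/
private noncomputable def de (μ : Moll) (e : ℝ) : ℝ := 1 / 4 - (1 - ew e) * μ.Q 0

private theorem de_pos (μ : Moll) (e : ℝ) : 0 < de μ e := by
  unfold de
  have h1 := Q_zero_lt_quarter μ
  have h2 := μ.Q_pos 0
  have h3 := ew_nonneg e
  nlinarith

/-- the bracket -/
private noncomputable def br (μ : Moll) (m e : ℝ) : ℝ := (1 - ew e) * (μ.Q m - μ.Q 0) + ew e * m

private theorem br_zero (μ : Moll) (e : ℝ) : br μ 0 e = 0 := by
  unfold br
  ring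

private theorem br_quarter (μ : Moll) (e : ℝ) : br μ (1 / 4) e = de μ e := by
  unfold br de
  have h : μ.Q (1 / 4) = 1 / 4 := by
    have h1 : |(1 / 4 : ℝ)| = 1 / 4 := abs_of_pos (by norm_num)
    rw [μ.Q_eq_abs (by rw [h1]; exact μ.ep_lt.le), h1]
  rw [h]
  ring

private theorem br_lt (μ : Moll) {m m' : ℝ} (e : ℝ) (h0 : 0 ≤ m) (h : m < m') : br μ m e < br μ m' e := by
  unfold br
  have h1 : μ.Q m < μ.Q m' := μ.Q_strictMonoOn h0 (h0.trans h.le) h
  have h2 := ew_nonneg e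
  have h3 := ew_le e
  rcases h2.eq_or_lt with h4 | h4
  · rw [← h4]
    linarith
  · have h5 : 0 ≤ (1 - ew e) * (μ.Q m' - μ.Q m) := mul_nonneg (by linarith) (by linarith)
    have h6 : 0 < ew e * (m' - m) := mul_pos h4 (by linarith)
    linarith

/-- the first function -/
private noncomputable def xq (μ : Moll) (p : ℝ × ℝ) : ℝ :=
  ys μ p.2 + (1 / 4 - ys μ p.2) / de μ p.2 * br μ (min p.1 (1 / 4)) p.2 + (p.1 - min p.1 (1 / 4))

private theorem xq_continuous (μ : Moll) : Continuous (xq μ) := by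
  have h1 : Continuous fun p : ℝ × ℝ => ys μ p.2 := (ys_continuous μ).comp continuous_snd
  have h2 : Continuous fun p : ℝ × ℝ => ew p.2 := ew_continuous.comp continuous_snd
  have h3 : Continuous fun p : ℝ × ℝ => de μ p.2 := by
    unfold de
    exact continuous_const.sub ((continuous_const.sub h2).mul continuous_const)
  have h4 : Continuous fun p : ℝ × ℝ => min p.1 (1 / 4 : ℝ) := continuous_fst.min continuous_const
  have h5 : Continuous fun p : ℝ × ℝ => br μ (min p.1 (1 / 4)) p.2 := by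
    unfold br
    exact ((continuous_const.sub h2).mul ((μ.Q_contDiff.continuous.comp h4).sub continuous_const)).add (h2.mul h4)
  unfold xq
  exact (h1.add (((continuous_const.sub h1).div h3 fun p => (de_pos μ p.2).ne').mul h5)).add (continuous_fst.sub h4)

private theorem xq_right (μ : Moll) {ρ e : ℝ} (h : 1 / 4 ≤ ρ) : xq μ (ρ, e) = ρ := by
  unfold xq
  simp only
  rw [min_eq_right h, br_quarter]
  have h1 := (de_pos μ e).ne'
  field_simp
  ring

private theorem coef_pos (μ : Moll) {e : ℝ} (he : 0 ≤ e) : 0 < (1 / 4 - ys μ e) / de μ e := by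
  refine div_pos ?_ (de_pos μ e)
  have h1 := Q_zero_lt_quarter μ
  have h2 := ys_le μ he
  linarith

private theorem xq_big (μ : Moll) {ρ e : ℝ} (h : 1 / 16 ≤ e) : xq μ (ρ, e) = ρ := by
  have h0 : μ.Q 0 ^ 2 ≤ e := by
    have h1 := Q_zero_lt_quarter μ
    have h2 := μ.Q_pos 0
    nlinarith
  unfold xq br de
  simp only
  rw [ys_zero μ h0, ew_one h]
  ring

private theorem xq_small (μ : Moll) {ρ : ℝ} (h : 0 ≤ ρ) : xq μ (ρ, 0) = μ.Q ρ := by
  have hy : ys μ 0 = μ.Q 0 := by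
    unfold ys
    rw [sub_zero, max_eq_right (sq_nonneg _), Real.sqrt_sq (μ.Q_pos 0).le]
  rcases le_total (1 / 4) ρ with h1 | h1
  · rw [xq_right μ h1, μ.Q_eq_abs]
    · exact (abs_of_nonneg h).symm
    · rw [abs_of_nonneg h]
      exact μ.ep_lt.le.trans h1
  · unfold xq br de
    simp only
    rw [hy, ew_zero, min_eq_left h1]
    have h2 := Q_zero_lt_quarter μ
    have h3 : (1 / 4 : ℝ) - μ.Q 0 ≠ 0 := by
      have : 0 < (1 / 4 : ℝ) - μ.Q 0 := by linarith
      exact this.ne'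
    have h4 : (1 / 4 - μ.Q 0) / (1 / 4 - (1 - 0) * μ.Q 0) = 1 := by
      rw [sub_zero, one_mul]
      exact div_self h3
    rw [h4]
    ring

private theorem xq_zero (μ : Moll) (e : ℝ) : xq μ (0, e) = ys μ e := by
  unfold xq
  simp only
  rw [min_eq_left (by norm_num : (0 : ℝ) ≤ 1 / 4), br_zero]
  ring

private theorem xq_lt (μ : Moll) {ρ ρ' e : ℝ} (h0 : 0 ≤ ρ) (h : ρ < ρ') (he : 0 ≤ e) :
    xq μ (ρ, e) < xq μ (ρ', e) := by
  rcases le_or_gt (1 / 4) ρ with h1 | h1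
  · rw [xq_right μ h1, xq_right μ (h1.trans h.le)]
    exact h
  · unfold xq
    simp only
    rw [min_eq_left h1.le]
    have h2 : br μ ρ e < br μ (min ρ' (1 / 4)) e := br_lt μ e h0 (lt_min h h1)
    have h3 := mul_lt_mul_of_pos_left h2 (coef_pos μ he)
    have h4 : min ρ' (1 / 4) ≤ ρ' := min_le_left _ _
    linarith

private theorem xq_ge (μ : Moll) {ρ e : ℝ} (h0 : 0 ≤ ρ) (he : 0 ≤ e) : ys μ e ≤ xq μ (ρ, e) := by
  rcases h0.eq_or_lt with h | h
  · rw [← h, xq_zero]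
  · rw [← xq_zero μ e]
    exact (xq_lt μ le_rfl h he).le

/-- the second function -/
private noncomputable def vq (μ : Moll) (p : ℝ × ℝ) : ℝ := (qi μ).symm (Real.sqrt (xq μ p ^ 2 + p.2))

private theorem vq_continuous (μ : Moll) : Continuous (vq μ) := by
  unfold vq
  exact (qi μ).symm.continuous.comp (((xq_continuous μ).pow 2).add continuous_snd).sqrt

/-- Parametrisation of the arcs `{(y, v) : 0 ≤ y ≤ 1/2, 0 ≤ v, y² + e = (Q v)²}`, `e ≥ 0`, by `ρ ∈ [0, 1/2]`.

Proof. With `λ = min (16 e) 1`, `m = min ρ (1/4)`, `y₀ = √(max 0 (Q 0 ^ 2 - e))` (the start of the arc) put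
`y = y₀ + (1/4 - y₀) / (1/4 - (1-λ) Q 0) ((1-λ) (Q m - Q 0) + λ m) + (ρ - m)` and `v = Q⁻¹ √(y² + e)`. -/
theorem exists_param (μ : Moll) : ∃ xq vq : ℝ × ℝ → ℝ,
    ContinuousOn xq (Set.Icc 0 (1 / 2) ×ˢ Set.Ici 0) ∧ ContinuousOn vq (Set.Icc 0 (1 / 2) ×ˢ Set.Ici 0) ∧
    ∀ ρ e, 0 ≤ ρ → ρ ≤ 1 / 2 → 0 ≤ e →
      0 ≤ xq (ρ, e) ∧ 0 ≤ vq (ρ, e) ∧ xq (ρ, e) ^ 2 + e = μ.Q (vq (ρ, e)) ^ 2 ∧
      (1 / 4 ≤ ρ → xq (ρ, e) = ρ) ∧ (1 / 16 ≤ e → xq (ρ, e) = ρ) ∧ (e = 0 → vq (ρ, e) = ρ) ∧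
      (0 < ρ → 0 < xq (ρ, e) ∧ 0 < vq (ρ, e)) ∧ (ρ = 0 → μ.Q 0 ^ 2 ≤ e → xq (ρ, e) = 0) ∧
      (ρ = 0 → e ≤ μ.Q 0 ^ 2 → vq (ρ, e) = 0) ∧
      ∀ ρ', ρ < ρ' → ρ' ≤ 1 / 2 → xq (ρ, e) < xq (ρ', e) := by
  refine ⟨xq μ, vq μ, (xq_continuous μ).continuousOn, (vq_continuous μ).continuousOn, ?_⟩
  intro ρ e h0 h1 he
  have hQ := μ.Q_pos 0
  have hge := xq_ge μ h0 he
  have hy0 := ys_nonneg μ e
  have hx0 : 0 ≤ xq μ (ρ, e) := hy0.trans hge
  have hys := ys_sq μ e
  have hsum : μ.Q 0 ^ 2 ≤ xq μ (ρ, e) ^ 2 + e := by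
    have h2 : μ.Q 0 ^ 2 - e ≤ ys μ e ^ 2 := by
      rw [hys]
      exact le_max_right _ _
    have h3 : ys μ e ^ 2 ≤ xq μ (ρ, e) ^ 2 := pow_le_pow_left₀ hy0 hge 2
    linarith
  have hsq : μ.Q 0 ≤ Real.sqrt (xq μ (ρ, e) ^ 2 + e) := Real.le_sqrt_of_sq_le hsum
  have hz : (qi μ).symm (μ.Q 0) = 0 := by
    rw [OrderIso.symm_apply_eq, qi_apply, gq_pos μ le_rfl]
  have hv0 : 0 ≤ vq μ (ρ, e) := by
    rw [← hz]
    exact (qi μ).symm.monotone hsq
  have hQv : μ.Q (vq μ (ρ, e)) = Real.sqrt (xq μ (ρ, e) ^ 2 + e) := by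
    rw [← gq_pos μ hv0, ← qi_apply]
    exact (qi μ).apply_symm_apply _
  refine ⟨hx0, hv0, ?_, fun h => xq_right μ h, fun h => xq_big μ h, ?_, ?_, ?_, ?_, fun ρ' h _ => xq_lt μ h0 h he⟩
  · rw [hQv, Real.sq_sqrt (by positivity)]
  · rintro rfl
    unfold vq
    simp only
    rw [xq_small μ h0, add_zero, Real.sqrt_sq (μ.Q_pos ρ).le, OrderIso.symm_apply_eq, qi_apply, gq_pos μ h0]
  · intro hρ
    have hlt : ys μ e < xq μ (ρ, e) := by
      rw [← xq_zero μ e]
      exact xq_lt μ le_rfl hρ he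
    refine ⟨hy0.trans_lt hlt, ?_⟩
    rw [← hz]
    refine (qi μ).symm.strictMono ?_
    refine Real.lt_sqrt_of_sq_lt ?_
    have h2 : μ.Q 0 ^ 2 - e ≤ ys μ e ^ 2 := by
      rw [hys]
      exact le_max_right _ _
    have h3 : ys μ e ^ 2 < xq μ (ρ, e) ^ 2 := pow_lt_pow_left₀ hlt hy0 (by norm_num)
    simp only
    linarith
  · rintro rfl h
    rw [xq_zero, ys_zero μ h]
  · rintro rfl h
    unfold vq
    simp only
    rw [xq_zero, hys, max_eq_right (by linarith), sub_add_cancel, Real.sqrt_sq hQ.le]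
    exact hz

end Pool.Agent.Lib_MP_59ec1f_cap
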