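import Pool.Agent.Lib_MP_59ec1f_cap.SadD

/-!
# Points of the saddle template
-/

set_option autoImplicit false

open scoped ContDiff

namespace Pool.Agent.Lib_MP_59ec1f_cap

namespace Sad

variable (μ : Moll) (D : Sad)

/-- straight line in the direction `a` -/
theorem pt_right {y v s : ℝ} (h : μ.ep ≤ v) : D.pt μ y v s =
    (D.q.1 + y * D.a.1, s, D.q.2 + y * D.a.2, deriv D.M s + D.kap / 4 * deriv D.E s) := by
  have hx : D.dx μ y v = y * D.a.1 := by
    rw [D.dx_eq, μ.r_right h]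
    ring
  have hy : D.dy μ y v = y * D.a.2 := by
    rw [D.dy_eq, μ.r_right h]
    ring
  unfold pt
  rw [hx, hy, μ.r_right h, mul_one]

theorem pt_left {y v s : ℝ} (h : v ≤ -μ.ep) : D.pt μ y v s =
    (D.q.1 + y * D.b.1, s, D.q.2 + y * D.b.2, deriv D.M s - D.kap / 4 * deriv D.E s) := by
  have hx : D.dx μ y v = y * D.b.1 := by
    rw [D.dx_eq, μ.r_left h]
    ring
  have hy : D.dy μ y v = y * D.b.2 := by
    rw [D.dy_eq, μ.r_left h]
    ring
  unfold pt
  rw [hx, hy, μ.r_left h]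
  have h1 : deriv D.M s + D.kap / 4 * -1 * deriv D.E s = deriv D.M s - D.kap / 4 * deriv D.E s := by ring
  rw [h1]

theorem prim_right {y v s : ℝ} (h : μ.ep ≤ v) : D.prim μ y v s =
    D.M s + D.kap / 4 * (D.E s - 1 / 800) + D.q.2 * D.a.1 * y + D.a.1 * D.a.2 * y ^ 2 / 2 := by
  unfold prim
  rw [D.dx_eq, D.dy_eq, μ.r_right h, μ.Rt_right h]
  ring

theorem prim_left {y v s : ℝ} (h : v ≤ -μ.ep) : D.prim μ y v s =
    D.M s - D.kap / 4 * (D.E s - 1 / 800) + D.q.2 * D.b.1 * y + D.b.1 * D.b.2 * y ^ 2 / 2 := by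
  unfold prim
  rw [D.dx_eq, D.dy_eq, μ.r_left h, μ.Rt_left h]
  ring

/-- corner with the arms `a, b` (`σ = 1`) or `-a, -b` (`σ = -1`) -/
theorem pt_corner (σ : ℝ) {v s : ℝ} : D.pt μ (σ * μ.Q v) v s =
    (D.q.1 + σ * (μ.S v * D.a.1 + μ.S (-v) * D.b.1), s, D.q.2 + σ * (μ.S v * D.a.2 + μ.S (-v) * D.b.2),
      deriv D.M s + D.kap / 4 * μ.r v * deriv D.E s) := by
  have hQ : μ.Q v ≠ 0 := (μ.Q_pos v).ne'
  have h : σ * μ.Q v / μ.Q v = σ := by field_simp
  unfold pt dx dy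
  rw [h]

/-- Injectivity. From the plane coordinates and `κ ≠ 0`: `y S v / Q v` and `y S (-v) / Q v` agree, so `y = y'`
(sum) and `y r v = y r v'` (difference). If `y ≠ 0`, `r v = r v'`; if `y = 0`, `E s > 0`, and `τ` gives `r v = r v'`.
Then `Q v = Q v'` and `v = v'`. -/
theorem pt_inj {y v y' v' s : ℝ} (hy : y ^ 2 + D.E s = μ.Q v ^ 2) (hy' : y' ^ 2 + D.E s = μ.Q v' ^ 2)
    (hE : deriv D.E s ≠ 0 ∨ D.E s = 0) (h : D.pt μ y v s = D.pt μ y' v' s) : y = y' ∧ v = v' := by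
  unfold pt at h
  simp only [Prod.mk.injEq, true_and] at h
  obtain ⟨h1, h3, h4⟩ := h
  rw [D.dx_eq, D.dx_eq] at h1
  rw [D.dy_eq, D.dy_eq] at h3
  have hk : D.a.2 * D.b.1 - D.b.2 * D.a.1 ≠ 0 := D.indep
  have hκ : D.kap ≠ 0 := D.indep
  have e3 : y * (1 + μ.r v) = y' * (1 + μ.r v') := by
    have : (y * (1 + μ.r v) - y' * (1 + μ.r v')) * (D.a.2 * D.b.1 - D.b.2 * D.a.1) = 0 := by
      linear_combination 2 * D.b.1 * h3 - 2 * D.b.2 * h1
    exact sub_eq_zero.1 ((mul_eq_zero.1 this).resolve_right hk)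
  have e4 : y * (1 - μ.r v) = y' * (1 - μ.r v') := by
    have : (y * (1 - μ.r v) - y' * (1 - μ.r v')) * (D.a.2 * D.b.1 - D.b.2 * D.a.1) = 0 := by
      linear_combination 2 * D.a.2 * h1 - 2 * D.a.1 * h3
    exact sub_eq_zero.1 ((mul_eq_zero.1 this).resolve_right hk)
  have hyy : y = y' := by linear_combination (e3 + e4) / 2
  subst hyy
  have hr : μ.r v = μ.r v' := by
    rcases hE with hE | hE
    · have : D.kap * deriv D.E s * (μ.r v - μ.r v') = 0 := by linear_combination 4 * h4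
      exact sub_eq_zero.1 ((mul_eq_zero.1 this).resolve_left (mul_ne_zero hκ hE))
    · have hy0 : y ≠ 0 := by
        rintro rfl
        rw [hE] at hy
        have := pow_pos (μ.Q_pos v) 2
        linarith
      have : y * (μ.r v - μ.r v') = 0 := by linear_combination e3
      exact sub_eq_zero.1 ((mul_eq_zero.1 this).resolve_left hy0)
  have hQ2 : μ.Q v ^ 2 = μ.Q v' ^ 2 := by rw [← hy, ← hy']
  have hQ : μ.Q v = μ.Q v' := by
    have h5 := μ.Q_pos v
    have h6 := μ.Q_pos v'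
    nlinarith
  refine ⟨rfl, ?_⟩
  unfold Moll.r at hr
  rw [← hQ] at hr
  have h5 := (μ.Q_pos v).ne'
  field_simp at hr
  exact hr

end Sad

end Pool.Agent.Lib_MP_59ec1f_cap
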