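import Pool.Agent.Lib_MP_59ec1f_cap.SadDefs

/-!
# The function `Rt`
-/

set_option autoImplicit false

open scoped ContDiff

namespace Pool.Agent.Lib_MP_59ec1f_cap

namespace Moll

variable (μ : Moll)

private theorem SadRt_contDiff_deriv_Q : ContDiff ℝ ∞ (deriv μ.Q) :=
  (contDiff_infty_iff_deriv.1 μ.Q_contDiff).2

private theorem SadRt_contDiff_integrand : ContDiff ℝ ∞ (fun t : ℝ => μ.Q t - t * deriv μ.Q t) :=
  μ.Q_contDiff.sub (contDiff_id.mul μ.SadRt_contDiff_deriv_Q)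

private theorem SadRt_cont_integrand : Continuous (fun t : ℝ => μ.Q t - t * deriv μ.Q t) :=
  μ.SadRt_contDiff_integrand.continuous

theorem hasDerivAt_Rt (v : ℝ) : HasDerivAt μ.Rt (μ.Q v - v * deriv μ.Q v) v := by
  have hc := μ.SadRt_cont_integrand
  exact intervalIntegral.integral_hasDerivAt_right (hc.intervalIntegrable _ _)
    (hc.stronglyMeasurableAtFilter _ _) hc.continuousAt

theorem Rt_contDiff : ContDiff ℝ ∞ μ.Rt := by
  refine contDiff_infty_iff_deriv.2 ⟨fun v => (μ.hasDerivAt_Rt v).differentiableAt, ?_⟩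
  have h : deriv μ.Rt = fun t : ℝ => μ.Q t - t * deriv μ.Q t := funext fun v => (μ.hasDerivAt_Rt v).deriv
  rw [h]
  exact μ.SadRt_contDiff_integrand

private theorem SadRt_hasDerivAt_Q (v : ℝ) : HasDerivAt μ.Q (deriv μ.Q v) v :=
  (μ.Q_contDiff.differentiable (by simp) v).hasDerivAt

private theorem SadRt_cont_dS : Continuous (deriv μ.S) :=
  (contDiff_infty_iff_deriv.1 μ.smooth).2.continuous

/-- `∫ S` over `[-1/2, 1/2]` -/
private theorem SadRt_int_S : ∫ t in (-(1 / 2) : ℝ)..(1 / 2), μ.S t = 1 / 8 + 1 / 1600 := by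
  have hS : Continuous μ.S := μ.smooth.continuous
  have hep := μ.ep_lt
  have h1 : ∫ t in (-(1 / 2) : ℝ)..(1 / 2), μ.S t * deriv μ.S t = 1 / 8 := by
    have h := intervalIntegral.integral_eq_sub_of_hasDerivAt (a := -(1 / 2 : ℝ)) (b := 1 / 2)
      (f := fun t => μ.S t ^ 2 / 2) (f' := fun t => μ.S t * deriv μ.S t)
      (fun t _ => by
        have h := ((μ.hasDerivAt_S t).pow 2).div_const 2
        refine h.congr_deriv ?_
        push_cast
        ring)
      ((hS.mul μ.SadRt_cont_dS).intervalIntegrable _ _)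
    rw [h, μ.right (1 / 2) (by linarith), μ.left (-(1 / 2)) (by linarith)]
    norm_num
  have h2 : ∫ t in (-(1 / 2) : ℝ)..(1 / 2), μ.S t =
      (∫ t in (-(1 / 2) : ℝ)..(1 / 2), μ.S t * deriv μ.S t) + ∫ t in (-(1 / 2) : ℝ)..(1 / 2), μ.S t * deriv μ.S (-t) := by
    rw [← intervalIntegral.integral_add]
    · refine intervalIntegral.integral_congr fun t _ => ?_
      show μ.S t = μ.S t * deriv μ.S t + μ.S t * deriv μ.S (-t)
      rw [← mul_add, μ.deriv_refl, mul_one]
    · exact (hS.mul μ.SadRt_cont_dS).intervalIntegrable _ _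
    · exact (hS.mul (μ.SadRt_cont_dS.comp continuous_neg)).intervalIntegrable _ _
  rw [h2, h1, μ.area]

private theorem SadRt_int_Q : ∫ t in (0 : ℝ)..(1 / 2), μ.Q t = 1 / 8 + 1 / 1600 := by
  have hS : Continuous μ.S := μ.smooth.continuous
  have h0 : ∫ t in (0 : ℝ)..(1 / 2), μ.Q t =
      (∫ t in (0 : ℝ)..(1 / 2), μ.S t) + ∫ t in (0 : ℝ)..(1 / 2), μ.S (-t) := by
    rw [← intervalIntegral.integral_add]
    · rfl
    · exact hS.intervalIntegrable _ _
    · exact (hS.comp continuous_neg).intervalIntegrable _ _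
  have h1 : ∫ t in (0 : ℝ)..(1 / 2), μ.S (-t) = ∫ t in (-(1 / 2) : ℝ)..0, μ.S t := by
    rw [intervalIntegral.integral_comp_neg (fun t => μ.S t), neg_zero]
  rw [h0, h1, add_comm, intervalIntegral.integral_add_adjacent_intervals (hS.intervalIntegrable _ _)
    (hS.intervalIntegrable _ _), μ.SadRt_int_S]

private theorem SadRt_half : μ.Rt (1 / 2) = 1 / 800 := by
  have hQ : Continuous μ.Q := μ.Q_contDiff.continuous
  have hdQ : Continuous (deriv μ.Q) := μ.SadRt_contDiff_deriv_Q.continuous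
  have hep := μ.ep_lt
  have h1 : ∫ t in (0 : ℝ)..(1 / 2), (μ.Q t + t * deriv μ.Q t) = 1 / 4 := by
    have h := intervalIntegral.integral_eq_sub_of_hasDerivAt (a := (0 : ℝ)) (b := 1 / 2)
      (f := fun t => t * μ.Q t) (f' := fun t => μ.Q t + t * deriv μ.Q t)
      (fun t _ => by
        have h := (hasDerivAt_id t).mul (μ.SadRt_hasDerivAt_Q t)
        refine h.congr_deriv ?_
        simp)
      ((hQ.add (continuous_id.mul hdQ)).intervalIntegrable _ _)
    have h2 : μ.Q (1 / 2) = 1 / 2 := by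
      rw [μ.Q_eq_abs (by rw [abs_of_pos (by norm_num)]; linarith), abs_of_pos (by norm_num)]
    rw [h, h2]
    norm_num
  have h3 : μ.Rt (1 / 2) + ∫ t in (0 : ℝ)..(1 / 2), (μ.Q t + t * deriv μ.Q t) = 2 * ∫ t in (0 : ℝ)..(1 / 2), μ.Q t := by
    unfold Rt
    rw [← intervalIntegral.integral_add, ← intervalIntegral.integral_const_mul]
    · refine intervalIntegral.integral_congr fun t _ => ?_
      show μ.Q t - t * deriv μ.Q t + (μ.Q t + t * deriv μ.Q t) = 2 * μ.Q t
      ring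
    · exact μ.SadRt_cont_integrand.intervalIntegrable _ _
    · exact (hQ.add (continuous_id.mul hdQ)).intervalIntegrable _ _
  rw [h1, μ.SadRt_int_Q] at h3
  linarith

/-- By parts `∫ t in 0..v, (Q - t Q') = 2 ∫ t in 0..v, Q t - v Q v`, and for `v ≥ ep`, `∫ t in 0..v, Q = ∫ t in -v..v, S t`,
which is `v² / 2 + area` (see `Moll.area`; `S t S' (-t) = S t (1 - S' t)`). -/
theorem Rt_right {v : ℝ} (h : μ.ep ≤ v) : μ.Rt v = 1 / 800 := by
  have hep := μ.ep_lt
  have hc := μ.SadRt_cont_integrand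
  have h1 : μ.Rt v - μ.Rt (1 / 2) = ∫ t in (1 / 2 : ℝ)..v, (μ.Q t - t * deriv μ.Q t) := by
    unfold Rt
    exact intervalIntegral.integral_interval_sub_left (hc.intervalIntegrable _ _) (hc.intervalIntegrable _ _)
  have h2 : ∫ t in (1 / 2 : ℝ)..v, (μ.Q t - t * deriv μ.Q t) = ∫ t in (1 / 2 : ℝ)..v, (0 : ℝ) := by
    refine intervalIntegral.integral_congr fun t ht => ?_
    have ht1 : μ.ep ≤ t := by
      rcases Set.mem_uIcc.1 ht with h' | h'
      · linarith [h'.1]
      · exact h.trans h'.1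
    have hpos := μ.ep_pos
    show μ.Q t - t * deriv μ.Q t = 0
    rw [μ.Q_eq_abs (by rw [abs_of_pos (by linarith)]; exact ht1), abs_of_pos (by linarith), μ.deriv_Q,
      μ.deriv_right ht1, μ.deriv_left (by linarith)]
    ring
  rw [h2, intervalIntegral.integral_zero, μ.SadRt_half] at h1
  linarith

private theorem SadRt_neg (v : ℝ) : μ.Rt (-v) = -μ.Rt v := by
  have h1 := intervalIntegral.integral_comp_neg (a := (0 : ℝ)) (b := v) (fun t : ℝ => μ.Q t - t * deriv μ.Q t)
  have h2 : ∫ t in (0 : ℝ)..v, (μ.Q (-t) - -t * deriv μ.Q (-t)) = ∫ t in (0 : ℝ)..v, (μ.Q t - t * deriv μ.Q t) := by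
    refine intervalIntegral.integral_congr fun t _ => ?_
    show μ.Q (-t) - -t * deriv μ.Q (-t) = μ.Q t - t * deriv μ.Q t
    rw [μ.Q_neg, μ.deriv_Q, μ.deriv_Q, neg_neg]
    ring
  unfold Rt
  rw [← h2, h1, neg_zero, intervalIntegral.integral_symm]

theorem Rt_left {v : ℝ} (h : v ≤ -μ.ep) : μ.Rt v = -(1 / 800) := by
  have h1 := μ.SadRt_neg v
  rw [μ.Rt_right (by linarith)] at h1
  linarith

end Moll

end Pool.Agent.Lib_MP_59ec1f_cap
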