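import Pool.Agent.Lib_MP_59ec1f_cap.SadOver
import Pool.Agent.Lib_MP_59ec1f_cap.TabEnds

/-!
# The saddles of the table

`EndTab` is the part of the table at a saddle vertex (the vertex, its neighbours in the four strips, the first edges).
`EndTab.Ok V m dec K` is the decidable test for a saddle in the window `m`: the five vertices do not move at the nodes
`m - 1, m, m + 1`, they form the cross with the arms `a, b, -a, -b`, and the primitives fit to the template with
`E = e₀ S (-(s - m))` (`dec = true`, lines before, corners after) or `E = e₀ S (s - m)` (`dec = false`), `K = 800 κ e₀`,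
`e₀ ≥ 1/4`.
-/

set_option autoImplicit false

open scoped ContDiff
open Filter Topology

namespace Pool.Agent.Lib_MP_59ec1f_cap

/-- the table at a saddle vertex -/
structure EndTab where
  x0 : Bool → Bool → ℤ
  x1 : Bool → Bool → ℤ
  y0 : Bool → Bool → ℤ → ℤ
  y1 : Bool → Bool → ℤ → ℤ
  f : Bool → Bool → ℤ → ℤ

/-- the sign as an integer -/
def sgz (b : Bool) : ℤ := if b then 1 else -1

theorem sgz_cast (b : Bool) : ((sgz b : ℤ) : ℝ) = sg b := by
  cases b <;> simp [sgz, sg]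

namespace EndTab

variable (V : EndTab)

/-- the arms -/
def av (m : ℤ) (i : Bool) : ℤ × ℤ := (V.x1 i true - V.x0 true true, V.y1 i true m - V.y0 true true m)

/-- the determinant -/
def kp (m : ℤ) : ℤ := (V.av m true).2 * (V.av m false).1 - (V.av m false).2 * (V.av m true).1

/-- `800 κ E` at the nodes -/
def Kat (m : ℤ) (dec : Bool) (K k : ℤ) : ℤ := if k = (if dec then m - 1 else m + 1) then K else 0

/-- the test -/
def Ok (m : ℤ) (dec : Bool) (K : ℤ) : Prop :=
  V.kp m ≠ 0 ∧ 200 * V.kp m ^ 2 ≤ K * V.kp m ∧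
    ∀ i j : Bool, V.x0 i j = V.x0 true true ∧
      (V.x1 i j = V.x0 true true + sgz j * (V.av m i).1 ∧ ((V.av m i).1 = 1 ∨ (V.av m i).1 = -1)) ∧
      ∀ k ∈ [m - 1, m, m + 1], V.y0 i j k = V.y0 true true m ∧
        V.y1 i j k = V.y0 true true m + sgz j * (V.av m i).2 ∧
        V.f i j k - V.f true true k = (if i then 0 else V.kp m - Kat m dec K k) +
          800 * V.y0 true true m * (sgz j * (V.av m i).1 - (V.av m true).1) +
          200 * ((V.av m i).1 * (V.av m i).2 - (V.av m true).1 * (V.av m true).2)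

instance (m : ℤ) (dec : Bool) (K : ℤ) : Decidable (V.Ok m dec K) := by
  unfold Ok
  infer_instance

/-- the function `E` -/
noncomputable def E (μ : Moll) (m : ℤ) (dec : Bool) (K : ℤ) (s : ℝ) : ℝ :=
  K / (800 * V.kp m) * μ.S (sg (!dec) * (s - m))

variable {V}
variable {μ : Moll} {m : ℤ} {dec : Bool} {K : ℤ}

theorem E_contDiff : ContDiff ℝ ∞ (V.E μ m dec K) :=
  contDiff_const.mul (μ.smooth.comp (contDiff_const.mul (contDiff_id.sub contDiff_const)))

theorem Ok.e_ge (h : V.Ok m dec K) : (1 / 4 : ℝ) ≤ K / (800 * V.kp m) := by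
  obtain ⟨h1, h2, _⟩ := h
  have h3 : (V.kp m : ℝ) ≠ 0 := by exact_mod_cast h1
  have h4 : (200 : ℝ) * (V.kp m : ℝ) ^ 2 ≤ K * V.kp m := by exact_mod_cast h2
  have h5 : (0 : ℝ) < (V.kp m : ℝ) ^ 2 := by positivity
  have h6 : (K : ℝ) / (800 * V.kp m) = K * V.kp m / (800 * (V.kp m : ℝ) ^ 2) := by
    field_simp
  rw [h6, le_div_iff₀ (by positivity)]
  linarith

theorem E_nonneg (h : V.Ok m dec K) (s : ℝ) : 0 ≤ V.E μ m dec K s :=
  mul_nonneg (le_trans (by norm_num) h.e_ge) (μ.nonneg _)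

theorem hasDerivAt_E (s : ℝ) : HasDerivAt (V.E μ m dec K)
    (K / (800 * V.kp m) * (deriv μ.S (sg (!dec) * (s - m)) * sg (!dec))) s := by
  have h1 : HasDerivAt (fun s : ℝ => sg (!dec) * (s - m)) (sg (!dec) * 1) s :=
    ((hasDerivAt_id s).sub_const (m : ℝ)).const_mul (sg (!dec))
  rw [mul_one] at h1
  exact ((μ.hasDerivAt_S (sg (!dec) * (s - m))).comp s h1).const_mul _

theorem E_deriv (h : V.Ok m dec K) (s : ℝ) : deriv (V.E μ m dec K) s ≠ 0 ∨ V.E μ m dec K s = 0 := by
  rcases lt_or_ge (-μ.ep) (sg (!dec) * (s - m)) with h1 | h1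
  · left
    rw [(hasDerivAt_E s).deriv]
    have h2 : (K : ℝ) / (800 * V.kp m) ≠ 0 := (lt_of_lt_of_le (by norm_num) h.e_ge).ne'
    exact mul_ne_zero h2 (mul_ne_zero (μ.dpos _ h1).ne' (sg_ne _))
  · right
    unfold E
    rw [μ.left _ h1, mul_zero]

/-- corners: `s` is on the side of `m` where `E = 0` -/
theorem E_zero {s : ℝ} (h : 1 / 4 ≤ sg dec * (s - m)) : V.E μ m dec K s = 0 := by
  unfold E
  rw [μ.left, mul_zero]
  have h1 := μ.ep_lt
  have h2 : sg (!dec) = -sg dec := by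
    cases dec <;> simp [sg]
  rw [h2]
  linarith

/-- lines -/
theorem E_big (hok : V.Ok m dec K) {s : ℝ} (h : 1 / 4 ≤ sg (!dec) * (s - m)) : 1 / 16 ≤ V.E μ m dec K s := by
  unfold E
  rw [μ.right _ (μ.ep_lt.le.trans h)]
  have h1 := hok.e_ge
  nlinarith

variable (V μ m dec K)

/-- the saddle -/
noncomputable def win (h : V.Ok m dec K) : SadWin where
  q := ((V.x0 true true : ℝ), (V.y0 true true m : ℝ))
  a := (((V.av m true).1 : ℝ), ((V.av m true).2 : ℝ))
  b := (((V.av m false).1 : ℝ), ((V.av m false).2 : ℝ))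
  E := V.E μ m dec K
  M := fun s => μ.pl (fun k => (V.f true true k : ℝ)) s / 1600 - (V.kp m : ℝ) / 4 * (V.E μ m dec K s - 1 / 800) -
    (V.y0 true true m : ℝ) * (V.av m true).1 / 2 - (V.av m true).1 * (V.av m true).2 / 8
  hM := ((((μ.pl_contDiff _).div_const _).sub (contDiff_const.mul (E_contDiff.sub contDiff_const))).sub
    contDiff_const).sub contDiff_const
  hE := E_contDiff
  indep := by
    have h1 := h.1
    unfold kp at h1
    simp only
    exact_mod_cast h1
  lo := m - 3 / 4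
  hi := m + 3 / 4
  hE0 := fun s _ => E_nonneg h s
  hE1 := fun s _ => E_deriv h s

variable {V μ m dec K}
variable (h : V.Ok m dec K)

theorem win_arm (i : Bool) : (V.win μ m dec K h).arm i = (((V.av m i).1 : ℝ), ((V.av m i).2 : ℝ)) := by
  cases i <;> rfl

theorem win_kap : (V.win μ m dec K h).kap = V.kp m := by
  unfold Sad.kap kp win
  push_cast
  rfl

theorem mem_win {s : ℝ} (hs : |s - m| < 3 / 4) : s ∈ Set.Ioo (V.win μ m dec K h).lo (V.win μ m dec K h).hi := by
  have := abs_lt.1 hs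
  constructor
  · change (m : ℝ) - 3 / 4 < s
    linarith
  · change s < (m : ℝ) + 3 / 4
    linarith

private theorem S_node {s : ℝ} : V.E μ m dec K s * (800 * V.kp m) =
    μ.tri (Kat m dec K (m - 1)) (Kat m dec K m) (Kat m dec K (m + 1)) (s - m) ∨ V.kp m = 0 := by
  by_cases h0 : V.kp m = 0
  · exact Or.inr h0
  · left
    have h3 : (V.kp m : ℝ) ≠ 0 := by exact_mod_cast h0
    unfold E Kat Moll.tri
    cases dec
    · have e1 : ¬ (m - 1 = m + 1) := by omega
      have e2 : ¬ (m = m + 1) := by omega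
      simp only [Bool.false_eq_true, if_false, if_neg e1, if_neg e2, if_true, Bool.not_false, sg_true, one_mul,
        Int.cast_zero]
      field_simp
      ring
    · have e1 : ¬ (m + 1 = m - 1) := by omega
      have e2 : ¬ (m = m - 1) := by omega
      have e3 : sg (!true) * (s - m) = -(s - m) := by
        rw [Bool.not_true, sg_false]
        ring
      simp only [if_true, if_neg e1, if_neg e2, Int.cast_zero, e3]
      field_simp
      ring

/-- the midpoint primitives are the table -/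
theorem mid_eq (i j : Bool) {s : ℝ} (hs : |s - m| ≤ 1 - μ.ep) :
    (V.win μ m dec K h).mid i j s = μ.pl (fun k => (V.f i j k : ℝ)) s / 1600 := by
  unfold SadWin.mid
  rw [win_kap, win_arm]
  change μ.pl (fun k => (V.f true true k : ℝ)) s / 1600 - (V.kp m : ℝ) / 4 * (V.E μ m dec K s - 1 / 800) -
    (V.y0 true true m : ℝ) * (V.av m true).1 / 2 - (V.av m true).1 * (V.av m true).2 / 8 +
    sg i * ((V.kp m : ℝ) / 4 * (V.E μ m dec K s - 1 / 800)) + (V.y0 true true m : ℝ) * (V.av m i).1 * (sg j / 2) +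
    ((V.av m i).1 : ℝ) * (V.av m i).2 / 8 = _
  obtain ⟨h1, _, h2⟩ := h
  obtain ⟨_, _, h3⟩ := h2 i j
  have k0 := (h3 (m - 1) (by simp)).2.2
  have k1 := (h3 m (by simp)).2.2
  have k2 := (h3 (m + 1) (by simp)).2.2
  have hS := (S_node (V := V) (μ := μ) (m := m) (dec := dec) (K := K) (s := s)).resolve_right h1
  have r0 : (V.f i j (m - 1) : ℝ) - V.f true true (m - 1) = (if i then 0 else (V.kp m : ℝ) - Kat m dec K (m - 1)) +
          800 * V.y0 true true m * (sg j * (V.av m i).1 - (V.av m true).1) +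
          200 * ((V.av m i).1 * (V.av m i).2 - (V.av m true).1 * (V.av m true).2) := by
    rw [← sgz_cast]
    cases i
    · simp only [Bool.false_eq_true, if_false] at k0 ⊢
      exact_mod_cast k0
    · simp only [if_true] at k0 ⊢
      exact_mod_cast k0
  have r1 : (V.f i j m : ℝ) - V.f true true m = (if i then 0 else (V.kp m : ℝ) - Kat m dec K m) +
          800 * V.y0 true true m * (sg j * (V.av m i).1 - (V.av m true).1) +
          200 * ((V.av m i).1 * (V.av m i).2 - (V.av m true).1 * (V.av m true).2) := by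
    rw [← sgz_cast]
    cases i
    · simp only [Bool.false_eq_true, if_false] at k1 ⊢
      exact_mod_cast k1
    · simp only [if_true] at k1 ⊢
      exact_mod_cast k1
  have r2 : (V.f i j (m + 1) : ℝ) - V.f true true (m + 1) = (if i then 0 else (V.kp m : ℝ) - Kat m dec K (m + 1)) +
          800 * V.y0 true true m * (sg j * (V.av m i).1 - (V.av m true).1) +
          200 * ((V.av m i).1 * (V.av m i).2 - (V.av m true).1 * (V.av m true).2) := by
    rw [← sgz_cast]
    cases i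
    · simp only [Bool.false_eq_true, if_false] at k2 ⊢
      exact_mod_cast k2
    · simp only [if_true] at k2 ⊢
      exact_mod_cast k2
  rw [μ.pl_eq _ hs, μ.pl_eq _ hs]
  unfold Moll.tri at hS ⊢
  set u : ℝ := s - m with hu
  cases i
  · simp only [Bool.false_eq_true, if_false] at r0 r1 r2
    rw [sg_false]
    linear_combination (-(1 - μ.S u - μ.S (-u)) / 1600) * r1 - (μ.S u / 1600) * r2 - (μ.S (-u) / 1600) * r0 -
      (1 / 1600) * hS
  · simp only [if_true] at r0 r1 r2
    rw [sg_true]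
    linear_combination (-(1 - μ.S u - μ.S (-u)) / 1600) * r1 - (μ.S u / 1600) * r2 - (μ.S (-u) / 1600) * r0

theorem mid_near (i j : Bool) {s : ℝ} (hs : |s - m| < 1 - μ.ep) :
    (fun t => μ.pl (fun k => (V.f i j k : ℝ)) t / 1600) =ᶠ[𝓝 s] (V.win μ m dec K h).mid i j := by
  have h1 : Continuous fun t : ℝ => |t - m| := by fun_prop
  filter_upwards [h1.continuousAt.tendsto.eventually (gt_mem_nhds hs)] with t ht
  exact (mid_eq h i j ht.le).symm

private theorem frozen {g : ℤ → ℤ} {c : ℤ} (hg : ∀ k ∈ [m - 1, m, m + 1], g k = c) {s : ℝ} (hs : |s - m| < 1 - μ.ep) :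
    μ.pl (fun k => (g k : ℝ)) s = c ∧ deriv (μ.pl fun k => (g k : ℝ)) s = 0 := by
  have k0 := hg (m - 1) (by simp)
  have k1 := hg m (by simp)
  have k2 := hg (m + 1) (by simp)
  constructor
  · rw [μ.pl_eq _ hs.le, k0, k1, k2]
    unfold Moll.tri
    ring
  · rw [μ.deriv_pl _ hs, k0, k1, k2]
    ring

private theorem lt_of_34 {s : ℝ} (hs : |s - m| < 3 / 4) : |s - m| < 1 - μ.ep := by
  have := μ.ep_lt
  linarith

private theorem y0_frozen (h : V.Ok m dec K) (i j : Bool) {s : ℝ} (hs : |s - m| < 3 / 4) :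
    μ.pl (fun k => (V.y0 i j k : ℝ)) s = V.y0 true true m ∧ deriv (μ.pl fun k => (V.y0 i j k : ℝ)) s = 0 :=
  frozen (fun k hk => ((h.2.2 i j).2.2 k hk).1) (lt_of_34 hs)

private theorem y1_frozen (h : V.Ok m dec K) (i j : Bool) {s : ℝ} (hs : |s - m| < 3 / 4) :
    μ.pl (fun k => (V.y1 i j k : ℝ)) s = V.y0 true true m + sg j * (V.av m i).2 ∧
      deriv (μ.pl fun k => (V.y1 i j k : ℝ)) s = 0 := by
  have h1 := frozen (μ := μ) (fun k hk => ((h.2.2 i j).2.2 k hk).2.1) (lt_of_34 hs)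
  rw [← sgz_cast]
  push_cast at h1
  exact h1

private theorem x1_cast (h : V.Ok m dec K) (i j : Bool) : (V.x1 i j : ℝ) = V.x0 true true + sg j * (V.av m i).1 := by
  rw [(h.2.2 i j).2.1.1, ← sgz_cast]
  push_cast
  ring

/-- overlap with the first edge -/
theorem endPt_edge (i j : Bool) {θ s : ℝ} (h0 : 1 / 4 ≤ θ) (h1 : θ ≤ 1 / 2) (hs : |s - m| < 3 / 4) :
    (V.win μ m dec K h).endPt μ i j (θ, s) = edgePt (V.x0 i j) (V.x1 i j) (μ.pl fun k => (V.y0 i j k : ℝ))
      (μ.pl fun k => (V.y1 i j k : ℝ)) (fun t => μ.pl (fun k => (V.f i j k : ℝ)) t / 1600) θ s ∧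
    (V.win μ m dec K h).endPrim μ i j (θ, s) = edgePrim (V.x0 i j) (V.x1 i j) (μ.pl fun k => (V.y0 i j k : ℝ))
      (μ.pl fun k => (V.y1 i j k : ℝ)) (fun t => μ.pl (fun k => (V.f i j k : ℝ)) t / 1600) θ s := by
  refine SadWin.own_edge i j (le_trans (by norm_num) h0) h1 (E_nonneg h s) (Or.inl h0) ?_ ?_ ?_ ?_ ?_ ?_
    (mid_near h i j (lt_of_34 hs))
  · rw [(h.2.2 i j).1]
    rfl
  · rw [win_arm]
    exact x1_cast h i j
  · exact (y0_frozen h i j hs).1
  · rw [win_arm]
    exact (y1_frozen h i j hs).1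
  · exact (y0_frozen h i j hs).2
  · exact (y1_frozen h i j hs).2

/-- overlap with the corner -/
theorem endPt_corner (i j : Bool) {θ s : ℝ} {C : Cell} (h0 : 0 ≤ θ) (h1 : θ ≤ 1 / 2) (hs : |s - m| < 3 / 4)
    (hE : 1 / 4 ≤ sg dec * (s - m)) (hx0 : C.x0 = V.x1 (!i) j) (hx1 : C.x1 = V.x0 i j) (hx2 : C.x2 = V.x1 i j)
    (hy0 : C.y0 = μ.pl fun k => (V.y1 (!i) j k : ℝ)) {i' j' : Bool} (hy1 : C.y1 = μ.pl fun k => (V.y0 i' j' k : ℝ))
    (hy2 : C.y2 = μ.pl fun k => (V.y1 i j k : ℝ)) (hf : C.f = fun t => μ.pl (fun k => (V.f i j k : ℝ)) t / 1600) :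
    (V.win μ m dec K h).endPt μ i j (θ, s) = C.pt μ (θ, s) ∧
    (V.win μ m dec K h).endPrim μ i j (θ, s) = C.prim μ (θ, s) := by
  refine SadWin.own_corner i j h0 h1 (mem_win h hs) (E_zero hE) ?_ ?_ ?_ ?_ ?_ ?_ ?_ ?_ ?_ ?_
  · rw [hx0, win_arm]
    exact x1_cast h (!i) j
  · rw [hx1, (h.2.2 i j).1]
    rfl
  · rw [hx2, win_arm]
    exact x1_cast h i j
  · rw [hy0, win_arm]
    exact (y1_frozen h (!i) j hs).1
  · rw [hy1]
    exact (y0_frozen h i' j' hs).1
  · rw [hy2, win_arm]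
    exact (y1_frozen h i j hs).1
  · rw [hy0]
    exact (y1_frozen h (!i) j hs).2
  · rw [hy1]
    exact (y0_frozen h i' j' hs).2
  · rw [hy2]
    exact (y1_frozen h i j hs).2
  · rw [hf]
    exact mid_near h i j (lt_of_34 hs)

/-- overlap with the line -/
theorem endPt_line (i j : Bool) {θ s : ℝ} {C : Cell} (h0 : 0 ≤ θ) (h1 : θ ≤ 1 / 2) (hs : |s - m| < 3 / 4)
    (hE : 1 / 4 ≤ sg (!dec) * (s - m)) (hx0 : C.x0 = V.x1 i (!j)) (hx1 : C.x1 = V.x0 i j) (hx2 : C.x2 = V.x1 i j)
    (hy0 : C.y0 = μ.pl fun k => (V.y1 i (!j) k : ℝ)) {i' j' : Bool} (hy1 : C.y1 = μ.pl fun k => (V.y0 i' j' k : ℝ))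
    (hy2 : C.y2 = μ.pl fun k => (V.y1 i j k : ℝ)) (hf : C.f = fun t => μ.pl (fun k => (V.f i j k : ℝ)) t / 1600) :
    (V.win μ m dec K h).endPt μ i j (θ, s) = C.pt μ (θ, s) ∧
    (V.win μ m dec K h).endPrim μ i j (θ, s) = C.prim μ (θ, s) := by
  have hj : sg (!j) = -sg j := by
    cases j <;> simp [sg]
  refine SadWin.own_line i j h0 h1 (E_big h hE) ?_ ?_ ?_ ?_ ?_ ?_ ?_ ?_ ?_ ?_
  · rw [hx0, win_arm, x1_cast h i (!j), hj]
    change (V.x0 true true : ℝ) + -sg j * (V.av m i).1 = V.x0 true true - sg j * (V.av m i).1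
    ring
  · rw [hx1, (h.2.2 i j).1]
    rfl
  · rw [hx2, win_arm]
    exact x1_cast h i j
  · rw [hy0, win_arm, (y1_frozen h i (!j) hs).1, hj]
    change (V.y0 true true m : ℝ) + -sg j * (V.av m i).2 = V.y0 true true m - sg j * (V.av m i).2
    ring
  · rw [hy1]
    exact (y0_frozen h i' j' hs).1
  · rw [hy2, win_arm]
    exact (y1_frozen h i j hs).1
  · rw [hy0]
    exact (y1_frozen h i (!j) hs).2
  · rw [hy1]
    exact (y0_frozen h i' j' hs).2
  · rw [hy2]
    exact (y1_frozen h i j hs).2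
  · rw [hf]
    exact mid_near h i j (lt_of_34 hs)

end EndTab

namespace StripTab

variable (T : StripTab)

/-- the table at the saddle vertex `A` -/
def endA : EndTab where
  x0 i j := T.x i j 0
  x1 i j := T.x i j 1
  y0 i j := T.y i j 0
  y1 i j := T.y i j 1
  f i j := T.f i j 0

/-- the table at the saddle vertex `B` -/
def endB : EndTab where
  x0 i j := T.x i j (T.len i j)
  x1 i j := T.x i j (T.len i j - 1)
  y0 i j := T.y i j (T.len i j)
  y1 i j := T.y i j (T.len i j - 1)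
  f i j := T.f i j (T.len i j - 1)

variable {T}
variable {μ : Moll} {m : ℤ} {K : ℤ}

/-- after the saddle `A`: the corner cells -/
theorem endA_corner (h : T.endA.Ok m true K) (b i j : Bool) (hl : 1 ≤ T.len i j) {θ s : ℝ} (h0 : 0 ≤ θ)
    (h1 : θ ≤ 1 / 2) (hs : s < m + 3 / 4) (hE : m + 1 / 4 ≤ s) :
    (T.endA.win μ m true K h).endPt μ i j (θ, s) = (((T.ext false b i j).toChain μ).cell 0).pt μ (θ, s) ∧
    (T.endA.win μ m true K h).endPrim μ i j (θ, s) = (((T.ext false b i j).toChain μ).cell 0).prim μ (θ, s) := by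
  have hs' : |s - m| < 3 / 4 := abs_lt.2 ⟨by linarith, by linarith⟩
  refine EndTab.endPt_corner h i j h0 h1 hs' (by rw [sg_true]; linarith) ?_ ?_ ?_ ?_ (i' := i) (j' := j) ?_ ?_ ?_
  · change ((T.ext false b i j).x (0 - 1) : ℝ) = _
    rw [ext_x_neg (by omega), prt_false]
    rfl
  · change ((T.ext false b i j).x 0 : ℝ) = _
    rw [ext_x (by omega) (by omega)]
    rfl
  · change ((T.ext false b i j).x (0 + 1) : ℝ) = _
    rw [ext_x (by omega) (by omega)]
    rfl
  · change (μ.pl fun m => ((T.ext false b i j).y (0 - 1) m : ℝ)) = _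
    rw [ext_y_neg (by omega), prt_false]
    rfl
  · change (μ.pl fun m => ((T.ext false b i j).y 0 m : ℝ)) = _
    rw [ext_y (by omega) (by omega)]
    rfl
  · change (μ.pl fun m => ((T.ext false b i j).y (0 + 1) m : ℝ)) = _
    rw [ext_y (by omega) (by omega)]
    rfl
  · change (fun s => μ.pl (fun m => ((T.ext false b i j).f 0 m : ℝ)) s / 1600) = _
    rw [ext_f (by omega) (by omega)]
    rfl

/-- before the saddle `A`: the lines -/
theorem endA_line (h : T.endA.Ok m true K) (b i j : Bool) (hl : 1 ≤ T.len i j) {θ s : ℝ} (h0 : 0 ≤ θ)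
    (h1 : θ ≤ 1 / 2) (hs : m - 3 / 4 < s) (hE : s ≤ m - 1 / 4) :
    (T.endA.win μ m true K h).endPt μ i j (θ, s) = (((T.ext true b i j).toChain μ).cell 0).pt μ (θ, s) ∧
    (T.endA.win μ m true K h).endPrim μ i j (θ, s) = (((T.ext true b i j).toChain μ).cell 0).prim μ (θ, s) := by
  have hs' : |s - m| < 3 / 4 := abs_lt.2 ⟨by linarith, by linarith⟩
  refine EndTab.endPt_line h i j h0 h1 hs' (by rw [Bool.not_true, sg_false]; linarith) ?_ ?_ ?_ ?_
    (i' := i) (j' := j) ?_ ?_ ?_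
  · change ((T.ext true b i j).x (0 - 1) : ℝ) = _
    rw [ext_x_neg (by omega), prt_true]
    rfl
  · change ((T.ext true b i j).x 0 : ℝ) = _
    rw [ext_x (by omega) (by omega)]
    rfl
  · change ((T.ext true b i j).x (0 + 1) : ℝ) = _
    rw [ext_x (by omega) (by omega)]
    rfl
  · change (μ.pl fun m => ((T.ext true b i j).y (0 - 1) m : ℝ)) = _
    rw [ext_y_neg (by omega), prt_true]
    rfl
  · change (μ.pl fun m => ((T.ext true b i j).y 0 m : ℝ)) = _
    rw [ext_y (by omega) (by omega)]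
    rfl
  · change (μ.pl fun m => ((T.ext true b i j).y (0 + 1) m : ℝ)) = _
    rw [ext_y (by omega) (by omega)]
    rfl
  · change (fun s => μ.pl (fun m => ((T.ext true b i j).f 0 m : ℝ)) s / 1600) = _
    rw [ext_f (by omega) (by omega)]
    rfl

/-- in the window of the saddle `A` the first edge -/
theorem endA_edge (h : T.endA.Ok m true K) (a b i j : Bool) (hl : 1 ≤ T.len i j) {θ s : ℝ} (h0 : 1 / 4 ≤ θ)
    (h1 : θ ≤ 1 / 2) (hs : |s - m| < 3 / 4) :
    (T.endA.win μ m true K h).endPt μ i j (θ, s) = (((T.ext a b i j).toChain μ).cell 0).pt μ (θ, s) ∧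
    (T.endA.win μ m true K h).endPrim μ i j (θ, s) = (((T.ext a b i j).toChain μ).cell 0).prim μ (θ, s) := by
  have h2 := EndTab.endPt_edge (μ := μ) h i j h0 h1 hs
  have h3 := (((T.ext a b i j).toChain μ).cell 0).pt_right μ (s := s) (μ.ep_lt.le.trans h0)
  rw [h2.1, h2.2, h3.1, h3.2]
  have e1 : ((((T.ext a b i j).toChain μ).cell 0).x1) = T.endA.x0 i j := by
    change ((T.ext a b i j).x 0 : ℝ) = _
    rw [ext_x (by omega) (by omega)]
    rfl
  have e2 : ((((T.ext a b i j).toChain μ).cell 0).x2) = T.endA.x1 i j := by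
    change ((T.ext a b i j).x (0 + 1) : ℝ) = _
    rw [ext_x (by omega) (by omega)]
    rfl
  have e3 : ((((T.ext a b i j).toChain μ).cell 0).y1) = μ.pl fun k => (T.endA.y0 i j k : ℝ) := by
    change (μ.pl fun m => ((T.ext a b i j).y 0 m : ℝ)) = _
    rw [ext_y (by omega) (by omega)]
    rfl
  have e4 : ((((T.ext a b i j).toChain μ).cell 0).y2) = μ.pl fun k => (T.endA.y1 i j k : ℝ) := by
    change (μ.pl fun m => ((T.ext a b i j).y (0 + 1) m : ℝ)) = _
    rw [ext_y (by omega) (by omega)]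
    rfl
  have e5 : ((((T.ext a b i j).toChain μ).cell 0).f) = fun t => μ.pl (fun k => (T.endA.f i j k : ℝ)) t / 1600 := by
    change (fun s => μ.pl (fun m => ((T.ext a b i j).f 0 m : ℝ)) s / 1600) = _
    rw [ext_f (by omega) (by omega)]
    rfl
  rw [e1, e2, e3, e4, e5]
  exact ⟨rfl, rfl⟩

/-- before the saddle `B`: the corner cells (the cell of the partner, read towards the strip `(i, j)`; see `flipB`) -/
theorem endB_corner (h : T.endB.Ok m false K) (a i j : Bool) (hl' : 1 ≤ T.len (!i) j)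
    {ρ s : ℝ} (h0 : 0 ≤ ρ) (h1 : ρ ≤ 1 / 2) (hs : m - 3 / 4 < s) (hE : s ≤ m - 1 / 4) :
    (T.endB.win μ m false K h).endPt μ i j (ρ, s) =
      (((T.ext a false (!i) j).toChain μ).cell (T.len (!i) j)).pt μ (ρ, s) ∧
    (T.endB.win μ m false K h).endPrim μ i j (ρ, s) =
      (((T.ext a false (!i) j).toChain μ).cell (T.len (!i) j)).prim μ (ρ, s) := by
  have hs' : |s - m| < 3 / 4 := abs_lt.2 ⟨by linarith, by linarith⟩
  have ep : prt false (!i) j = (i, j) := by rw [prt_false, Bool.not_not]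
  refine EndTab.endPt_corner h i j h0 h1 hs' (by rw [sg_false]; linarith) ?_ ?_ ?_ ?_ (i' := !i) (j' := j) ?_ ?_ ?_
  · change ((T.ext a false (!i) j).x (T.len (!i) j - 1) : ℝ) = _
    rw [ext_x (by omega) (by omega)]
    rfl
  · change ((T.ext a false (!i) j).x (T.len (!i) j) : ℝ) = _
    rw [ext_x (by omega) (by omega), (h.2.2 i j).1, ← (h.2.2 (!i) j).1]
    rfl
  · change ((T.ext a false (!i) j).x (T.len (!i) j + 1) : ℝ) = _
    rw [ext_x_gt (by omega) (by omega), ep]
    have e : T.len i j + T.len (!i) j - (T.len (!i) j + 1) = T.len i j - 1 := by omega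
    simp only [e]
    rfl
  · change (μ.pl fun m => ((T.ext a false (!i) j).y (T.len (!i) j - 1) m : ℝ)) = _
    rw [ext_y (by omega) (by omega)]
    rfl
  · change (μ.pl fun m => ((T.ext a false (!i) j).y (T.len (!i) j) m : ℝ)) = _
    rw [ext_y (by omega) (by omega)]
    rfl
  · change (μ.pl fun m => ((T.ext a false (!i) j).y (T.len (!i) j + 1) m : ℝ)) = _
    rw [ext_y_gt (by omega) (by omega), ep]
    have e : T.len i j + T.len (!i) j - (T.len (!i) j + 1) = T.len i j - 1 := by omega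
    simp only [e]
    rfl
  · change (fun s => μ.pl (fun m => ((T.ext a false (!i) j).f (T.len (!i) j) m : ℝ)) s / 1600) = _
    rw [ext_f_ge (by omega) (by omega), ep]
    have e : T.len i j + T.len (!i) j - T.len (!i) j - 1 = T.len i j - 1 := by omega
    simp only [e]
    rfl

/-- after the saddle `B`: the lines -/
theorem endB_line (h : T.endB.Ok m false K) (a i j : Bool) (hl' : 1 ≤ T.len i (!j))
    {ρ s : ℝ} (h0 : 0 ≤ ρ) (h1 : ρ ≤ 1 / 2) (hs : s < m + 3 / 4) (hE : m + 1 / 4 ≤ s) :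
    (T.endB.win μ m false K h).endPt μ i j (ρ, s) =
      (((T.ext a true i (!j)).toChain μ).cell (T.len i (!j))).pt μ (ρ, s) ∧
    (T.endB.win μ m false K h).endPrim μ i j (ρ, s) =
      (((T.ext a true i (!j)).toChain μ).cell (T.len i (!j))).prim μ (ρ, s) := by
  have hs' : |s - m| < 3 / 4 := abs_lt.2 ⟨by linarith, by linarith⟩
  have ep : prt true i (!j) = (i, j) := by rw [prt_true, Bool.not_not]
  refine EndTab.endPt_line h i j h0 h1 hs' (by rw [Bool.not_false, sg_true]; linarith) ?_ ?_ ?_ ?_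
    (i' := i) (j' := !j) ?_ ?_ ?_
  · change ((T.ext a true i (!j)).x (T.len i (!j) - 1) : ℝ) = _
    rw [ext_x (by omega) (by omega)]
    rfl
  · change ((T.ext a true i (!j)).x (T.len i (!j)) : ℝ) = _
    rw [ext_x (by omega) (by omega), (h.2.2 i j).1, ← (h.2.2 i (!j)).1]
    rfl
  · change ((T.ext a true i (!j)).x (T.len i (!j) + 1) : ℝ) = _
    rw [ext_x_gt (by omega) (by omega), ep]
    have e : T.len i j + T.len i (!j) - (T.len i (!j) + 1) = T.len i j - 1 := by omega
    simp only [e]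
    rfl
  · change (μ.pl fun m => ((T.ext a true i (!j)).y (T.len i (!j) - 1) m : ℝ)) = _
    rw [ext_y (by omega) (by omega)]
    rfl
  · change (μ.pl fun m => ((T.ext a true i (!j)).y (T.len i (!j)) m : ℝ)) = _
    rw [ext_y (by omega) (by omega)]
    rfl
  · change (μ.pl fun m => ((T.ext a true i (!j)).y (T.len i (!j) + 1) m : ℝ)) = _
    rw [ext_y_gt (by omega) (by omega), ep]
    have e : T.len i j + T.len i (!j) - (T.len i (!j) + 1) = T.len i j - 1 := by omega
    simp only [e]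
    rfl
  · change (fun s => μ.pl (fun m => ((T.ext a true i (!j)).f (T.len i (!j)) m : ℝ)) s / 1600) = _
    rw [ext_f_ge (by omega) (by omega), ep]
    have e : T.len i j + T.len i (!j) - T.len i (!j) - 1 = T.len i j - 1 := by omega
    simp only [e]
    rfl

/-- in the window of the saddle `B` the last edge -/
theorem endB_edge (h : T.endB.Ok m false K) (a b i j : Bool) (hl : 1 ≤ T.len i j) {ρ s : ℝ} (h0 : 1 / 4 ≤ ρ)
    (h1 : ρ ≤ 1 / 2) (hs : |s - m| < 3 / 4) :
    (T.endB.win μ m false K h).endPt μ i j (ρ, s) =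
      (((T.ext a b i j).toChain μ).cell (T.len i j - 1)).pt μ (1 - ρ, s) ∧
    (T.endB.win μ m false K h).endPrim μ i j (ρ, s) =
      (((T.ext a b i j).toChain μ).cell (T.len i j - 1)).prim μ (1 - ρ, s) := by
  have h2 := EndTab.endPt_edge (μ := μ) h i j h0 h1 hs
  have hep := μ.ep_lt
  have h3 := (((T.ext a b i j).toChain μ).cell (T.len i j - 1)).pt_right μ (v := 1 - ρ) (s := s) (by linarith)
  have h4 := edgePt_symm ((((T.ext a b i j).toChain μ).cell (T.len i j - 1)).x1)
    ((((T.ext a b i j).toChain μ).cell (T.len i j - 1)).x2) ((((T.ext a b i j).toChain μ).cell (T.len i j - 1)).y1)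
    ((((T.ext a b i j).toChain μ).cell (T.len i j - 1)).y2) ((((T.ext a b i j).toChain μ).cell (T.len i j - 1)).f)
    (1 - ρ) s
  have e0 : 1 - (1 - ρ) = ρ := by ring
  rw [e0] at h4
  have el : T.len i j - 1 + 1 = T.len i j := by omega
  rw [h2.1, h2.2, h3.1, h3.2, h4.1, h4.2]
  have e1 : ((((T.ext a b i j).toChain μ).cell (T.len i j - 1)).x2) = T.endB.x0 i j := by
    change ((T.ext a b i j).x (T.len i j - 1 + 1) : ℝ) = _
    rw [el, ext_x (by omega) (by omega)]
    rfl
  have e2 : ((((T.ext a b i j).toChain μ).cell (T.len i j - 1)).x1) = T.endB.x1 i j := by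
    change ((T.ext a b i j).x (T.len i j - 1) : ℝ) = _
    rw [ext_x (by omega) (by omega)]
    rfl
  have e3 : ((((T.ext a b i j).toChain μ).cell (T.len i j - 1)).y2) = μ.pl fun k => (T.endB.y0 i j k : ℝ) := by
    change (μ.pl fun m => ((T.ext a b i j).y (T.len i j - 1 + 1) m : ℝ)) = _
    rw [el, ext_y (by omega) (by omega)]
    rfl
  have e4 : ((((T.ext a b i j).toChain μ).cell (T.len i j - 1)).y1) = μ.pl fun k => (T.endB.y1 i j k : ℝ) := by
    change (μ.pl fun m => ((T.ext a b i j).y (T.len i j - 1) m : ℝ)) = _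
    rw [ext_y (by omega) (by omega)]
    rfl
  have e5 : ((((T.ext a b i j).toChain μ).cell (T.len i j - 1)).f) =
      fun t => μ.pl (fun k => (T.endB.f i j k : ℝ)) t / 1600 := by
    change (fun s => μ.pl (fun m => ((T.ext a b i j).f (T.len i j - 1) m : ℝ)) s / 1600) = _
    rw [ext_f (by omega) (by omega)]
    rfl
  rw [e1, e2, e3, e4, e5]
  exact ⟨rfl, rfl⟩

end StripTab

end Pool.Agent.Lib_MP_59ec1f_cap
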