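import Pool.Agent.Lib_MP_59ec1f_cap.SadPt
import Pool.Agent.Lib_MP_59ec1f_cap.SadC1
import Pool.Agent.Lib_MP_59ec1f_cap.SadC2
import Pool.Agent.Lib_MP_59ec1f_cap.SadParam

/-!
# The saddle template (collects the files)

Definitions: `SadDefs`; `SadRt`, `SadPt`, `SadC1` (`Sad.chart1`), `SadC2` (`Sad.chart2`), `SadParam` (`exists_param`).
-/
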