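import Pool.Agent.Lib_MP_59ec1f_cap.TableChain
import Pool.Agent.Lib_MP_59ec1f_cap.Strips

/-!
# The table of the four strips

Strip `(i, j)`: vertices `0, ..., len i j` (vertex `0` on the line `A`, vertex `len` on the line `B`). `x i j n` is the
column of the vertex `n`, `y i j n m` its height at the node (time) `m`, `f i j n m` is `1600` times the primitive at the
midpoint of the edge from `n` to `n + 1` at the node `m`.

At an end with the gluing rule `g` the strip `(i, j)` continues into the strip `prt g i j`: `(i, !j)` for `g = true` and
`(!i, j)` for `g = false`. `ext a b i j` is the strip extended by its continuations at `A` (rule `a`) and `B` (rule `b`).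
The rule at `A` is `true` before and `false` after the saddle `A` (window `mA`), the rule at `B` is `false` before and
`true` after the saddle `B` (window `mB`).
-/

set_option autoImplicit false

open scoped ContDiff Topology

namespace Pool.Agent.Lib_MP_59ec1f_cap

/-- the table of the four strips -/
structure StripTab where
  len : Bool → Bool → ℤ
  x : Bool → Bool → ℤ → ℤ
  y : Bool → Bool → ℤ → ℤ → ℤ
  f : Bool → Bool → ℤ → ℤ → ℤ
  /-- the window of the saddle `A` -/
  mA : ℤ
  /-- the window of the saddle `B` -/
  mB : ℤ
  /-- the last window: the table is used for the times `s < M + 3/4` -/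
  M : ℤ

/-- the partner of the strip `(i, j)` at an end with the gluing rule `g` -/
def prt (g i j : Bool) : Bool × Bool := (xor (!g) i, xor g j)

theorem prt_true (i j : Bool) : prt true i j = (i, !j) := by
  cases i <;> cases j <;> rfl

theorem prt_false (i j : Bool) : prt false i j = (!i, j) := by
  cases i <;> cases j <;> rfl

theorem prt_prt (g i j : Bool) : prt g (prt g i j).1 (prt g i j).2 = (i, j) := by
  cases g <;> cases i <;> cases j <;> rfl

namespace StripTab

variable (T : StripTab)

/-- The strip `(i, j)` extended by its continuations: the rule `a` at `A`, `b` at `B`. -/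
def ext (a b i j : Bool) : ZChain where
  x n := if n < 0 then T.x (prt a i j).1 (prt a i j).2 (-n) else
    if T.len i j < n then T.x (prt b i j).1 (prt b i j).2 (T.len (prt b i j).1 (prt b i j).2 + T.len i j - n)
    else T.x i j n
  y n := if n < 0 then T.y (prt a i j).1 (prt a i j).2 (-n) else
    if T.len i j < n then T.y (prt b i j).1 (prt b i j).2 (T.len (prt b i j).1 (prt b i j).2 + T.len i j - n)
    else T.y i j n
  f n := if n < 0 then T.f (prt a i j).1 (prt a i j).2 (-n - 1) else
    if T.len i j ≤ n then T.f (prt b i j).1 (prt b i j).2 (T.len (prt b i j).1 (prt b i j).2 + T.len i j - n - 1)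
    else T.f i j n

/-- the gluing rule at `A` in the window `m` -/
def rA (m : ℤ) : Bool := decide (m < T.mA)

/-- the gluing rule at `B` in the window `m` -/
def rB (m : ℤ) : Bool := decide (T.mB < m)

/-- the chain of the strip `(i, j)` in the window `m` -/
def win (m : ℤ) (i j : Bool) : ZChain := T.ext (T.rA m) (T.rB m) i j

/-- the data of the cell `n` of the strip `(i, j)` in the window `m` -/
def cel (i j : Bool) (n m : ℤ) : WC := (T.win m i j).wc n m

variable {T}

section inner

variable {a b i j : Bool} {n : ℤ}

theorem ext_x (h0 : 0 ≤ n) (h1 : n ≤ T.len i j) : (T.ext a b i j).x n = T.x i j n := by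
  unfold ext
  simp only
  rw [if_neg (by omega), if_neg (by omega)]

theorem ext_y (h0 : 0 ≤ n) (h1 : n ≤ T.len i j) : (T.ext a b i j).y n = T.y i j n := by
  unfold ext
  simp only
  rw [if_neg (by omega), if_neg (by omega)]

theorem ext_f (h0 : 0 ≤ n) (h1 : n < T.len i j) : (T.ext a b i j).f n = T.f i j n := by
  unfold ext
  simp only
  rw [if_neg (by omega), if_neg (by omega)]

theorem ext_x_neg (h0 : n < 0) : (T.ext a b i j).x n = T.x (prt a i j).1 (prt a i j).2 (-n) := by
  unfold ext
  simp only
  rw [if_pos (by omega)]

theorem ext_y_neg (h0 : n < 0) : (T.ext a b i j).y n = T.y (prt a i j).1 (prt a i j).2 (-n) := by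
  unfold ext
  simp only
  rw [if_pos (by omega)]

theorem ext_f_neg (h0 : n < 0) : (T.ext a b i j).f n = T.f (prt a i j).1 (prt a i j).2 (-n - 1) := by
  unfold ext
  simp only
  rw [if_pos (by omega)]

theorem ext_x_gt (h0 : 0 ≤ n) (h1 : T.len i j < n) : (T.ext a b i j).x n =
    T.x (prt b i j).1 (prt b i j).2 (T.len (prt b i j).1 (prt b i j).2 + T.len i j - n) := by
  unfold ext
  simp only
  rw [if_neg (by omega), if_pos (by omega)]

theorem ext_y_gt (h0 : 0 ≤ n) (h1 : T.len i j < n) : (T.ext a b i j).y n =
    T.y (prt b i j).1 (prt b i j).2 (T.len (prt b i j).1 (prt b i j).2 + T.len i j - n) := by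
  unfold ext
  simp only
  rw [if_neg (by omega), if_pos (by omega)]

theorem ext_f_ge (h0 : 0 ≤ n) (h1 : T.len i j ≤ n) : (T.ext a b i j).f n =
    T.f (prt b i j).1 (prt b i j).2 (T.len (prt b i j).1 (prt b i j).2 + T.len i j - n - 1) := by
  unfold ext
  simp only
  rw [if_neg (by omega), if_pos (by omega)]

/-- the inner cells do not depend on the rules -/
theorem cell_inner (μ : Moll) (a b a' b' : Bool) (h0 : 0 < n) (h1 : n < T.len i j) :
    ((T.ext a b i j).toChain μ).cell n = ((T.ext a' b' i j).toChain μ).cell n := by
  unfold CellChain.cell ZChain.toChain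
  simp only [ext_x (T := T) (a := a) (b := b) (i := i) (j := j) (n := n - 1) (by omega) (by omega),
    ext_x (T := T) (a := a') (b := b') (i := i) (j := j) (n := n - 1) (by omega) (by omega),
    ext_y (T := T) (a := a) (b := b) (i := i) (j := j) (n := n - 1) (by omega) (by omega),
    ext_y (T := T) (a := a') (b := b') (i := i) (j := j) (n := n - 1) (by omega) (by omega),
    ext_x (T := T) (a := a) (b := b) (i := i) (j := j) (n := n) (by omega) (by omega),
    ext_x (T := T) (a := a') (b := b') (i := i) (j := j) (n := n) (by omega) (by omega),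
    ext_y (T := T) (a := a) (b := b) (i := i) (j := j) (n := n) (by omega) (by omega),
    ext_y (T := T) (a := a') (b := b') (i := i) (j := j) (n := n) (by omega) (by omega),
    ext_x (T := T) (a := a) (b := b) (i := i) (j := j) (n := n + 1) (by omega) (by omega),
    ext_x (T := T) (a := a') (b := b') (i := i) (j := j) (n := n + 1) (by omega) (by omega),
    ext_y (T := T) (a := a) (b := b) (i := i) (j := j) (n := n + 1) (by omega) (by omega),
    ext_y (T := T) (a := a') (b := b') (i := i) (j := j) (n := n + 1) (by omega) (by omega),
    ext_f (T := T) (a := a) (b := b) (i := i) (j := j) (n := n) (by omega) (by omega),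
    ext_f (T := T) (a := a') (b := b') (i := i) (j := j) (n := n) (by omega) (by omega)]

end inner

end StripTab

end Pool.Agent.Lib_MP_59ec1f_cap
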