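import Pool.Agent.Lib_MP_59ec1f_cap.TabRows

/-!
# Tests of the windows 18 to 18
-/

set_option autoImplicit false

namespace Pool.Agent.Lib_MP_59ec1f_cap

theorem capW6 : capTab.winsTest capPairs 18 1 = true := by decide +kernel

end Pool.Agent.Lib_MP_59ec1f_cap
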