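import Pool.Agent.Lib_MP_59ec1f_cap.TabW0
import Pool.Agent.Lib_MP_59ec1f_cap.TabW1
import Pool.Agent.Lib_MP_59ec1f_cap.TabW2
import Pool.Agent.Lib_MP_59ec1f_cap.TabW3
import Pool.Agent.Lib_MP_59ec1f_cap.TabW4
import Pool.Agent.Lib_MP_59ec1f_cap.TabW5
import Pool.Agent.Lib_MP_59ec1f_cap.TabW6

/-!
# All tests of the table
-/

set_option autoImplicit false

namespace Pool.Agent.Lib_MP_59ec1f_cap

theorem capLen : capTab.lenTest = true := by decide +kernel

theorem capRow : capTab.rowTest = true := by decide +kernel

theorem capCone : capTab.coneTest = true := by decide +kernel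

theorem capComplete : capTab.completeTest capPairs = true := by decide +kernel

theorem capHullA : capTab.hullTestA = true := by decide +kernel

theorem capHullB : capTab.hullTestB = true := by decide +kernel

theorem capEndA : capTab.endA.Ok capTab.mA true (1055575142) := by decide +kernel

theorem capEndB : capTab.endB.Ok capTab.mB false (-963763738) := by decide +kernel

theorem capM : capTab.M = 18 := rfl

theorem capWins (m : ℤ) (h0 : 0 ≤ m) (h1 : m ≤ capTab.M) : capTab.winTest capPairs m = true := by
  rw [capM] at h1
  rcases lt_or_ge m 3 with h | h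
  · exact StripTab.winsTest_spec capW0 (by omega) (by push_cast; omega)
  rcases lt_or_ge m 6 with h | h
  · exact StripTab.winsTest_spec capW1 (by omega) (by push_cast; omega)
  rcases lt_or_ge m 9 with h | h
  · exact StripTab.winsTest_spec capW2 (by omega) (by push_cast; omega)
  rcases lt_or_ge m 12 with h | h
  · exact StripTab.winsTest_spec capW3 (by omega) (by push_cast; omega)
  rcases lt_or_ge m 15 with h | h
  · exact StripTab.winsTest_spec capW4 (by omega) (by push_cast; omega)
  rcases lt_or_ge m 18 with h | h
  · exact StripTab.winsTest_spec capW5 (by omega) (by push_cast; omega)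
  exact StripTab.winsTest_spec capW6 (by omega) (by push_cast; omega)

theorem capOk : capTab.Ok := StripTab.ok_of_tests capLen capWins

theorem capOk2 : capTab.Ok2 := StripTab.ok2_of_tests capRow capCone

theorem capOk3 : capTab.Ok3 := StripTab.ok3_of_tests capLen capComplete capHullA capHullB capWins

end Pool.Agent.Lib_MP_59ec1f_cap
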