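import Pool.Agent.Lib_MP_59ec1f_cap.TabTest

/-!
# Tables given by numbers

A row (the values at one node) is one natural number with 40 bits for each entry, shifted by `2^39`.
-/

set_option autoImplicit false

namespace Pool.Agent.Lib_MP_59ec1f_cap

/-- the entry `l` of the row `r` -/
def ent (r l : ℕ) : ℤ := (((r >>> (40 * l)) % 1099511627776 : ℕ) : ℤ) - 549755813888

/-- the entry `o + n` of the row of the node `m`; odd around the node `0` -/
def lookN (L : List ℕ) (o : ℕ) (n m : ℤ) : ℤ :=
  match m with
  | Int.ofNat k => ent (L.getD k 0) (o + n.toNat)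
  | Int.negSucc k => -ent (L.getD (k + 1) 0) (o + n.toNat)

end Pool.Agent.Lib_MP_59ec1f_cap
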