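import Pool.Agent.Lib_MP_59ec1f_cap.LowEnds

/-!
# Boolean tests for the table

`T.baseTest P` (lengths, end vertices, cone, completeness of the list `P` of the pairs of vertices in the same column) and
`T.winTest P m` for the windows `0 ≤ m ≤ M` give `T.Ok`, `T.Ok2`, `T.Ok3`.
-/

set_option autoImplicit false

open Set
open scoped ContDiff Topology

namespace Pool.Agent.Lib_MP_59ec1f_cap

/-- all integers from `a` to `a + k - 1` -/
def allZ (a : ℤ) (k : ℕ) (p : ℤ → Bool) : Bool :=
  match k with
  | 0 => true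
  | k + 1 => p a && allZ (a + 1) k p

theorem allZ_spec {a : ℤ} {k : ℕ} {p : ℤ → Bool} (h : allZ a k p = true) {n : ℤ} (h0 : a ≤ n) (h1 : n < a + k) :
    p n = true := by
  induction k generalizing a with
  | zero =>
    simp at h1
    omega
  | succ k ih =>
    unfold allZ at h
    rw [Bool.and_eq_true] at h
    rcases h0.eq_or_lt with h2 | h2
    · rw [← h2]
      exact h.1
    · exact ih h.2 (by omega) (by push_cast at h1; omega)

/-- both Booleans -/
def allB (p : Bool → Bool) : Bool := p false && p true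

theorem allB_spec {p : Bool → Bool} (h : allB p = true) (b : Bool) : p b = true := by
  unfold allB at h
  rw [Bool.and_eq_true] at h
  cases b
  · exact h.1
  · exact h.2

namespace WC

/-- the pair test is symmetric -/
theorem pairTest_symm (C D : WC) : C.pairTest D = D.pairTest C := by
  have e1 : C.opposite D = D.opposite C := by
    unfold opposite
    rcases Bool.eq_false_or_eq_true (C.x0 == C.x2) with h1 | h1 <;>
    rcases Bool.eq_false_or_eq_true (D.x0 == D.x2) with h2 | h2 <;>
    rw [h1, h2] <;> simp only [Bool.true_and, Bool.false_and, Bool.and_true, Bool.and_false]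
    rcases Bool.eq_false_or_eq_true (C.x1 - C.x0 == 1) with h3 | h3 <;>
    rcases Bool.eq_false_or_eq_true (C.x1 - C.x0 == -1) with h4 | h4 <;>
    rcases Bool.eq_false_or_eq_true (D.x1 - D.x0 == 1) with h5 | h5 <;>
    rcases Bool.eq_false_or_eq_true (D.x1 - D.x0 == -1) with h6 | h6 <;>
    rw [h3, h4, h5, h6] <;> rfl
  unfold pairTest
  rw [e1, Bool.and_comm C.straight]
  have hsw : ∀ a b c d : Bool, (((a || b) || c) || d) = (((b || a) || d) || c) := by decide
  have hsv : ∀ a b c d e f : Bool, (((((a || b) || c) || d) || e) || f) = (((((b || a) || d) || c) || f) || e) := by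
    decide
  split_ifs
  · rfl
  · exact hsw _ _ _ _
  · exact hsv _ _ _ _ _ _

end WC

namespace StripTab

variable (T : StripTab)

/-- the vertices -/
def idxs : List (Bool × Bool × ℤ) :=
  [false, true].flatMap fun i => [false, true].flatMap fun j =>
    (List.range ((T.len i j).toNat + 1)).map fun k : ℕ => (i, j, (k : ℤ))

theorem mem_idxs {i j : Bool} {n : ℤ} (h0 : 0 ≤ n) (h1 : n ≤ T.len i j) : (i, j, n) ∈ T.idxs := by
  unfold idxs
  rw [List.mem_flatMap]
  refine ⟨i, by cases i <;> simp, ?_⟩
  rw [List.mem_flatMap]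
  refine ⟨j, by cases j <;> simp, ?_⟩
  rw [List.mem_map]
  refine ⟨n.toNat, ?_, ?_⟩
  · rw [List.mem_range]
    omega
  · rw [Int.toNat_of_nonneg h0]

/-- the cell of a vertex -/
def cell' (a : Bool × Bool × ℤ) (m : ℤ) : WC := T.cel a.1 a.2.1 a.2.2 m

/-- `good` as a Boolean -/
def goodB (a : Bool × Bool × ℤ) (m : ℤ) : Bool :=
  !(m == T.mA && a.2.2 == 0) && !(m == T.mB && a.2.2 == T.len a.1 a.2.1)

theorem goodB_iff {i j : Bool} {n m : ℤ} : T.goodB (i, j, n) m = true ↔ T.good i j n m := by
  unfold goodB good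
  simp only [Bool.and_eq_true, Bool.not_eq_true', Bool.and_eq_false_iff, beq_eq_false_iff_ne, ne_eq]
  tauto

/-- the test of the primitives in the window `m` -/
def okTest (m : ℤ) : Bool :=
  T.idxs.all fun a => !T.goodB a m || (T.cell' a m).ok

/-- the test of the shape of the cells in the window `m` -/
def shapeTest (m : ℤ) : Bool :=
  T.idxs.all fun a => !T.goodB a m || ((T.cell' a m).straight || (T.cell' a m).fold)

/-- the same vertex, as a Boolean -/
def sameB (m : ℤ) (a b : Bool × Bool × ℤ) : Bool :=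
  (a.2.2 == 0 && b.2.2 == 0 && ((b.1, b.2.1) == prt (T.rA m) a.1 a.2.1)) ||
    (a.2.2 == T.len a.1 a.2.1 && b.2.2 == T.len b.1 b.2.1 && ((b.1, b.2.1) == prt (T.rB m) a.1 a.2.1))

/-- the test of the pairs in the window `m` -/
def pairsTest (P : List ((Bool × Bool × ℤ) × (Bool × Bool × ℤ))) (m : ℤ) : Bool :=
  P.all fun p => !T.goodB p.1 m || !T.goodB p.2 m || T.sameB m p.1 p.2 || (T.cell' p.1 m).pairTest (T.cell' p.2 m)

/-- completeness of the list of pairs -/
def completeTest (P : List ((Bool × Bool × ℤ) × (Bool × Bool × ℤ))) : Bool :=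
  T.idxs.all fun a => T.idxs.all fun b =>
    !(T.x a.1 a.2.1 a.2.2 == T.x b.1 b.2.1 b.2.2) || a == b || P.contains (a, b) || P.contains (b, a)

/-- the hull tests of the saddle `A` -/
def hullTestA : Bool :=
  allB fun i => allB fun j => T.idxs.all fun b => !T.goodB b T.mA || !(T.x b.1 b.2.1 b.2.2 == T.x i j 0) ||
    (T.cel i j 0 T.mA).hullTest (T.cell' b T.mA)

/-- the hull tests of the saddle `B` -/
def hullTestB : Bool :=
  allB fun i => allB fun j => T.idxs.all fun b => !T.goodB b T.mB || !(T.x b.1 b.2.1 b.2.2 == T.x i j (T.len i j)) ||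
    (T.cel i j (T.len i j) T.mB).hullTest (T.cell' b T.mB)

/-- the tests of the window `m` -/
def winTest (P : List ((Bool × Bool × ℤ) × (Bool × Bool × ℤ))) (m : ℤ) : Bool :=
  T.okTest m && (m == 0 || (T.shapeTest m && T.pairsTest P m))

/-- the tests of the windows `a, ..., a + k - 1` -/
def winsTest (P : List ((Bool × Bool × ℤ) × (Bool × Bool × ℤ))) (a : ℤ) (k : ℕ) : Bool :=
  allZ a k fun m => T.winTest P m

/-- the lengths and the windows -/
def lenTest : Bool :=
  (allB fun i => allB fun j => decide (2 ≤ T.len i j)) && decide (2 ≤ T.mA) && decide (T.mA < T.mB) &&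
    decide (T.mB < T.M)

/-- the end vertices and the cone -/
def rowTest : Bool :=
  (allB fun i => allB fun j => (T.x i j 0 == T.x false false 0) &&
    (T.x i j (T.len i j) == T.x false false (T.len false false))) &&
  (allB fun i => allZ (-1) (T.mA + 3).toNat fun k => T.y i false 0 k == T.y i true 0 k) &&
  (allB fun j => allZ (T.mA - 1) (T.M - T.mA + 3).toNat fun k => T.y false j 0 k == T.y true j 0 k) &&
  (allB fun j => allZ (-1) (T.mB + 3).toNat fun k =>
    T.y false j (T.len false j) k == T.y true j (T.len true j) k) &&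
  (allB fun i => allZ (T.mB - 1) (T.M - T.mB + 3).toNat fun k =>
    T.y i false (T.len i false) k == T.y i true (T.len i true) k)

/-- the rows near the node `0` -/
def coneTest : Bool :=
  (allB fun i => allB fun j => allZ 0 (T.len i j + 1).toNat fun n => T.y i j n 0 == 0 && T.y i j n (-1) == -T.y i j n 1) &&
  (allB fun i => allB fun j => allZ 0 (T.len i j).toNat fun n => T.f i j n 0 == 0 && T.f i j n (-1) == -T.f i j n 1)

variable {T}
variable {P : List ((Bool × Bool × ℤ) × (Bool × Bool × ℤ))}

theorem winsTest_spec {a : ℤ} {k : ℕ} (h : T.winsTest P a k = true) {m : ℤ} (h0 : a ≤ m) (h1 : m < a + k) :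
    T.winTest P m = true := allZ_spec (p := fun m => T.winTest P m) h h0 h1

theorem ok_of_tests (h : T.lenTest = true) (hw : ∀ m, 0 ≤ m → m ≤ T.M → T.winTest P m = true) : T.Ok := by
  unfold lenTest at h
  simp only [Bool.and_eq_true, decide_eq_true_eq] at h
  obtain ⟨⟨⟨h1, h2⟩, h3⟩, h4⟩ := h
  refine ⟨fun i j => ?_, by omega, h3, h4, ?_⟩
  · exact of_decide_eq_true (allB_spec (allB_spec h1 i) j)
  · intro i j n m n0 n1 m0 m1 hg
    have h5 := hw m m0 m1
    unfold winTest okTest at h5
    rw [Bool.and_eq_true, List.all_eq_true] at h5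
    have h6 := h5.1 _ (T.mem_idxs n0 n1)
    rw [(T.goodB_iff).2 hg] at h6
    simp only [Bool.not_true, Bool.false_or] at h6
    exact h6

theorem ok2_of_tests (h : T.rowTest = true) (h' : T.coneTest = true) : T.Ok2 := by
  unfold rowTest at h
  unfold coneTest at h'
  simp only [Bool.and_eq_true] at h h'
  obtain ⟨⟨⟨⟨h1, h2⟩, h3⟩, h4⟩, h5⟩ := h
  refine ⟨fun i j => ?_, fun i j => ?_, fun i k k0 k1 => ?_, fun j k k0 k1 => ?_, fun j k k0 k1 => ?_,
    fun i k k0 k1 => ?_, fun i j n n0 n1 => ?_, fun i j n n0 n1 => ?_⟩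
  · have h6 := allB_spec (allB_spec h1 i) j
    rw [Bool.and_eq_true, beq_iff_eq, beq_iff_eq] at h6
    exact h6.1
  · have h6 := allB_spec (allB_spec h1 i) j
    rw [Bool.and_eq_true, beq_iff_eq, beq_iff_eq] at h6
    exact h6.2
  · exact beq_iff_eq.1 (allZ_spec (allB_spec h2 i) k0 (by omega))
  · exact beq_iff_eq.1 (allZ_spec (allB_spec h3 j) k0 (by omega))
  · exact beq_iff_eq.1 (allZ_spec (allB_spec h4 j) k0 (by omega))
  · exact beq_iff_eq.1 (allZ_spec (allB_spec h5 i) k0 (by omega))
  · have h6 := allZ_spec (allB_spec (allB_spec h'.1 i) j) n0 (by omega)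
    rw [Bool.and_eq_true, beq_iff_eq, beq_iff_eq] at h6
    exact h6
  · have h6 := allZ_spec (allB_spec (allB_spec h'.2 i) j) n0 (by omega)
    rw [Bool.and_eq_true, beq_iff_eq, beq_iff_eq] at h6
    exact h6

theorem same_of_sameB {m : ℤ} {i j : Bool} {n : ℤ} {i' j' : Bool} {n' : ℤ}
    (h : T.sameB m (i, j, n) (i', j', n') = true) : T.same m i j n i' j' n' := by
  unfold sameB at h
  simp only [Bool.or_eq_true, Bool.and_eq_true, beq_iff_eq] at h
  rcases h with h | h
  · exact Or.inr (Or.inl ⟨h.1.1, h.1.2, h.2⟩)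
  · exact Or.inr (Or.inr ⟨h.1.1, h.1.2, h.2⟩)

theorem same_symm {m : ℤ} {i j : Bool} {n : ℤ} {i' j' : Bool} {n' : ℤ}
    (h : T.same m i j n i' j' n') : T.same m i' j' n' i j n := by
  rcases h with ⟨h1, h2, h3⟩ | ⟨h1, h2, h3⟩ | ⟨h1, h2, h3⟩
  · exact Or.inl ⟨h1.symm, h2.symm, h3.symm⟩
  · refine Or.inr (Or.inl ⟨h2, h1, ?_⟩)
    have h4 := prt_prt (T.rA m) i j
    rw [← h3] at h4
    exact h4.symm
  · refine Or.inr (Or.inr ⟨h2, h1, ?_⟩)
    have h4 := prt_prt (T.rB m) i j
    rw [← h3] at h4
    exact h4.symm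

theorem ok3_of_tests (hl : T.lenTest = true) (hc : T.completeTest P = true) (hA : T.hullTestA = true)
    (hB : T.hullTestB = true) (hw : ∀ m, 0 ≤ m → m ≤ T.M → T.winTest P m = true) : T.Ok3 := by
  have hw' : ∀ m, 1 ≤ m → m ≤ T.M → T.shapeTest m = true ∧ T.pairsTest P m = true := by
    intro m m0 m1
    have h5 := hw m (by omega) m1
    unfold winTest at h5
    simp only [Bool.and_eq_true, Bool.or_eq_true, beq_iff_eq] at h5
    rcases h5.2 with h6 | h6
    · omega
    · exact h6
  refine ⟨?_, ?_, ?_, ?_, ?_⟩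
  · unfold lenTest at hl
    simp only [Bool.and_eq_true, decide_eq_true_eq] at hl
    exact hl.1.1.2
  · intro i j n m n0 n1 m0 m1 hg
    have h5 := (hw' m m0 m1).1
    unfold shapeTest at h5
    rw [List.all_eq_true] at h5
    have h6 := h5 _ (T.mem_idxs n0 n1)
    rw [(T.goodB_iff).2 hg] at h6
    simp only [Bool.not_true, Bool.false_or, Bool.or_eq_true] at h6
    exact h6
  · intro i j n i' j' n' m n0 n1 n0' n1' m0 m1 hg hg' hx
    have h5 := (hw' m m0 m1).2
    unfold pairsTest at h5
    rw [List.all_eq_true] at h5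
    unfold completeTest at hc
    rw [List.all_eq_true] at hc
    have h6 := hc _ (T.mem_idxs n0 n1)
    rw [List.all_eq_true] at h6
    have h7 := h6 _ (T.mem_idxs n0' n1')
    simp only [Bool.or_eq_true, Bool.not_eq_true', beq_eq_false_iff_ne, ne_eq, hx, not_true_eq_false, false_or,
      beq_iff_eq, List.contains_iff_mem] at h7
    rcases h7 with (h7 | h7) | h7
    · simp only [Prod.mk.injEq] at h7
      exact Or.inl (Or.inl ⟨h7.1, h7.2.1, h7.2.2⟩)
    · have h8 := h5 _ h7
      simp only at h8
      rw [(T.goodB_iff).2 hg, (T.goodB_iff).2 hg'] at h8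
      simp only [Bool.not_true, Bool.false_or, Bool.or_eq_true] at h8
      rcases h8 with h8 | h8
      · exact Or.inl (same_of_sameB h8)
      · exact Or.inr h8
    · have h8 := h5 _ h7
      simp only at h8
      rw [(T.goodB_iff).2 hg, (T.goodB_iff).2 hg'] at h8
      simp only [Bool.not_true, Bool.false_or, Bool.or_eq_true] at h8
      rcases h8 with h8 | h8
      · exact Or.inl (same_symm (same_of_sameB h8))
      · right
        rw [WC.pairTest_symm]
        exact h8
  · intro i j i' j' n' n0 n1 hg hx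
    have h1 := allB_spec (allB_spec hA i) j
    rw [List.all_eq_true] at h1
    have h2 := h1 _ (T.mem_idxs n0 n1)
    simp only at h2
    rw [(T.goodB_iff).2 hg] at h2
    simp only [Bool.not_true, Bool.false_or, Bool.or_eq_true, Bool.not_eq_true', beq_eq_false_iff_ne, ne_eq, hx,
      not_true_eq_false, false_or] at h2
    exact h2
  · intro i j i' j' n' n0 n1 hg hx
    have h1 := allB_spec (allB_spec hB i) j
    rw [List.all_eq_true] at h1
    have h2 := h1 _ (T.mem_idxs n0 n1)
    simp only at h2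
    rw [(T.goodB_iff).2 hg] at h2
    simp only [Bool.not_true, Bool.false_or, Bool.or_eq_true, Bool.not_eq_true', beq_eq_false_iff_ne, ne_eq, hx,
      not_true_eq_false, false_or] at h2
    exact h2

end StripTab

end Pool.Agent.Lib_MP_59ec1f_cap
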