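import Pool.Agent.Lib_MP_59ec1f_cap.Whole
import Pool.Agent.Lib_MP_59ec1f_cap.TabRows

/-!
# The closed chain of the last rows and the top
-/

set_option autoImplicit false

namespace Pool.Agent.Lib_MP_59ec1f_cap

/-- the entry `n` modulo `N` of a list -/
def lgetZ (l : List ℤ) (N : ℤ) (n : ℤ) : ℤ := l.getD (n % N).toNat 0

theorem lgetZ_per (l : List ℤ) (N n : ℤ) : lgetZ l N (n + N) = lgetZ l N n := by
  unfold lgetZ
  rw [Int.add_emod_right]

/-- the closed chain of the last rows: minimum at `0`, maximum at `m` -/
def capTop : TopTab where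
  N := 64
  m := 27
  x := lgetZ [6, 7, 8, 9, 10, 11, 12, 13, 14, 15, 16, 15, 14, 13, 12, 11, 10, 9, 8, 7, 6, 5, 4, 3, 2, 1, 0, 1, 2, 3, 4, 5, 4, 3, 2, 1, 2, 3, 4, 5, 6, 7, 8, 9, 10, 11, 12, 13, 14, 15, 16, 17, 16, 15, 14, 13, 12, 11, 10, 9, 8, 7, 6, 5] 64
  a := lgetZ [-39968, -39110, -7958, -5025, -4159, -3284, -2389, -1465, -521, 500, 7649, 15119, 16164, 17111, 18027, 18921, 19790, 20661, 21507, 22382, 23221, 24052, 24890, 25753, 26669, 29934, 39110, 39968, 39110, 38306, 37492, 36710, 35913, 35091, 34293, 33266, 28355, 27465, 26606, 25768, 24938, 24104, 23266, 22421, 21548, 20671, 19767, 18840, 17898, 16822, 10727, 7575, 4558, -1203, -2257, -3199, -4116, -5000, -5859, -6706, -7516, -8322, -9143, -39110] 64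
  f := lgetZ [372698070, 316211164, 297806345, 289350878, 282698287, 277447907, 273631336, 271291356, 270473233, 272504961, 269595780, 246696805, 220854103, 193482734, 164643956, 134375381, 102710979, 69658404, 35241375, -562589, -37714581, -76199188, -116028213, -157243666, -200386215, -249468726, -247471960, -183868076, -121281222, -59993632, 0, 314221, -57141554, -113291978, -168114749, -169296411, -123120190, -79169959, -36596138, 4634270, 44534266, 83099862, 120324055, 156192027, 190668023, 223736196, 255358773, 285499758, 314109624, 340016005, 357770748, 358998379, 352257123, 353235816, 356824504, 361937879, 368516846, 376511821, 385883809, 396605972, 408630768, 421948983, 442436129, 436301954] 64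

theorem capTop_s : capTop.testS = true := by decide +kernel

theorem capTop_p : capTop.testP = true := by decide +kernel

theorem capTop_good : capTop.Good where
  per _ := ⟨lgetZ_per _ _ _, lgetZ_per _ _ _, lgetZ_per _ _ _⟩
  s := capTop_s
  p := capTop_p

/-- the last rows of the table -/
def capLink : TopLink capTab capTop where
  c₀ := 31
  dir := -1
  k := 9
  hdir := by decide
  hk := by decide
  len_pos := by decide +kernel
  total := by decide +kernel
  good := capTop_good

theorem capLink_test : capLink.test = true := by decide +kernel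

end Pool.Agent.Lib_MP_59ec1f_cap
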