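import Pool.Agent.Lib_MP_59ec1f_cap.PatchCells
import Pool.Agent.Lib_MP_59ec1f_cap.CellTestDefs

/-!
# Chains of cells from integer tables
-/

set_option autoImplicit false

open scoped ContDiff Topology

namespace Pool.Agent.Lib_MP_59ec1f_cap

/-- The table of a chain: `x n` is the column of the vertex `n`, `y n m` its height at the time `m`, `f n m` is `1600` times
the primitive at the midpoint between the vertices `n` and `n + 1` at the time `m`. -/
structure ZChain where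
  x : ℤ → ℤ
  y : ℤ → ℤ → ℤ
  f : ℤ → ℤ → ℤ

/-- the values at the nodes `m - 1, m, m + 1` -/
def Z3.of (g : ℤ → ℤ) (m : ℤ) : Z3 := ⟨g (m - 1), g m, g (m + 1)⟩

theorem Z3.val_of (μ : Moll) (g : ℤ → ℤ) {m : ℤ} {s : ℝ} (h : |s - m| ≤ 1 - μ.ep) :
    μ.pl (fun m => (g m : ℝ)) s = (Z3.of g m).val μ (s - m) := μ.pl_eq _ h

theorem Z3.der_of (μ : Moll) (g : ℤ → ℤ) {m : ℤ} {s : ℝ} (h : |s - m| < 1 - μ.ep) :
    deriv (μ.pl fun m => (g m : ℝ)) s = (Z3.of g m).der μ (s - m) := by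
  rw [μ.deriv_pl _ h]
  unfold Z3.der Z3.of
  have e : -(s - (m : ℝ)) = m - s := by ring
  rw [e]

namespace ZChain

variable (μ : Moll) (C : ZChain)

/-- the chain of the table -/
noncomputable def toChain : CellChain where
  x n := C.x n
  y n := μ.pl fun m => (C.y n m : ℝ)
  f n := fun s => μ.pl (fun m => (C.f n m : ℝ)) s / 1600
  hy _ := μ.pl_contDiff _
  hf _ := (μ.pl_contDiff _).div_const _

/-- the data of the cell at the vertex `n` in the window `m` -/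
def wc (n m : ℤ) : WC :=
  ⟨C.x (n - 1), C.x n, C.x (n + 1), Z3.of (C.y (n - 1)) m, Z3.of (C.y n) m, Z3.of (C.y (n + 1)) m,
    Z3.of (C.f (n - 1)) m, Z3.of (C.f n) m⟩

/-- the relation at one node as an equation of real numbers -/
theorem okAt_real {x0 x1 x2 y0 y1 y2 f0 f1 : ℤ} (h : WC.okAt x0 x1 x2 y0 y1 y2 f0 f1 = true) :
    (f1 : ℝ) / 1600 - f0 / 1600 = μ.J x0 x1 x2 y0 y1 y2 (-(1 / 2)) := by
  unfold WC.okAt at h
  rw [beq_iff_eq] at h
  have h1 : (f1 : ℝ) - f0 = 800 * y1 * (x2 - x0) + 200 * ((y2 - y1) * (x2 - x1) - (y1 - y0) * (x1 - x0)) +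
      ((y2 - y1) * (x1 - x0) - (y1 - y0) * (x2 - x1)) := by
    exact_mod_cast h
  rw [μ.J_total]
  linarith

variable {μ C}

/-- the relation between the primitives during a window -/
theorem rel_of_ok {n m : ℤ} {s : ℝ} (h : (C.wc n m).ok = true) (hs : |s - m| ≤ 1 - μ.ep) :
    (C.toChain μ).Rel μ n s := by
  unfold WC.ok at h
  rw [Bool.and_eq_true, Bool.and_eq_true] at h
  obtain ⟨⟨h0, h1⟩, h2⟩ := h
  have k0 := okAt_real μ h0
  have k1 := okAt_real μ h1
  have k2 := okAt_real μ h2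
  unfold CellChain.Rel
  change μ.pl (fun m => (C.f n m : ℝ)) s / 1600 - μ.pl (fun m => (C.f (n - 1) m : ℝ)) s / 1600 =
    μ.J (C.x (n - 1)) (C.x n) (C.x (n + 1)) (μ.pl (fun m => (C.y (n - 1) m : ℝ)) s)
      (μ.pl (fun m => (C.y n m : ℝ)) s) (μ.pl (fun m => (C.y (n + 1) m : ℝ)) s) (-(1 / 2))
  rw [μ.pl_eq _ hs, μ.pl_eq _ hs, μ.pl_eq _ hs, μ.pl_eq _ hs, μ.pl_eq _ hs]
  set u : ℝ := s - m with hu
  rw [μ.J_total] at k0 k1 k2 ⊢
  unfold Moll.tri
  simp only [wc, Z3.of] at k0 k1 k2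
  linear_combination (1 - μ.S u - μ.S (-u)) * k1 + μ.S u * k2 + μ.S (-u) * k0

theorem rel_of_ok_near {n m : ℤ} {s : ℝ} (h : (C.wc n m).ok = true) (hs : |s - m| < 1 - μ.ep) :
    ∀ᶠ t in 𝓝 s, (C.toChain μ).Rel μ n t := by
  have h1 : Continuous fun t : ℝ => |t - m| := by fun_prop
  filter_upwards [h1.continuousAt.tendsto.eventually (gt_mem_nhds hs)] with t ht
  exact rel_of_ok h ht.le

/-- the cells of the chain in the window `m` -/
theorem cell_pt {n m : ℤ} {v s : ℝ} (hs : |s - m| < 1 - μ.ep) : ((C.toChain μ).cell n).pt μ (v, s) =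
    (((C.wc n m).pt μ v (s - m)).1, s, ((C.wc n m).pt μ v (s - m)).2.1, ((C.wc n m).pt μ v (s - m)).2.2) := by
  have hv : ∀ k, (C.toChain μ).y k s = (Z3.of (C.y k) m).val μ (s - m) := fun k => Z3.val_of μ _ hs.le
  have hd : ∀ k, deriv ((C.toChain μ).y k) s = (Z3.of (C.y k) m).der μ (s - m) := fun k => Z3.der_of μ _ hs
  have hf : deriv ((C.toChain μ).f n) s = (Z3.of (C.f n) m).der μ (s - m) / 1600 := by
    rw [← Z3.der_of μ _ hs]
    exact deriv_div_const _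
  unfold Cell.pt WC.pt
  refine Prod.ext rfl (Prod.ext rfl (Prod.ext ?_ ?_))
  · change μ.tri ((C.toChain μ).y (n - 1) s) ((C.toChain μ).y n s) ((C.toChain μ).y (n + 1) s) v = _
    rw [hv, hv, hv]
    rfl
  · change deriv ((C.toChain μ).f n) s - μ.J (C.x (n - 1)) (C.x n) (C.x (n + 1)) (deriv ((C.toChain μ).y (n - 1)) s)
      (deriv ((C.toChain μ).y n) s) (deriv ((C.toChain μ).y (n + 1)) s) v = _
    rw [hf, hd, hd, hd]
    rfl

end ZChain

end Pool.Agent.Lib_MP_59ec1f_cap
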