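import Pool.Agent.Lib_MP_59ec1f_cap.MollFacts

/-!
# Mollified piecewise linear functions and patching

`glue c θ = c n (θ - n)` with the nearest integer `n`; if consecutive pieces agree on the overlap `[ep, 1 - ep]`, this is
`c n (θ - n)` for all `|θ - n| ≤ 1 - ep`. `μ.pl f` is the mollified piecewise linear interpolation of the table `f`.
-/

set_option autoImplicit false

open scoped ContDiff

namespace Pool.Agent.Lib_MP_59ec1f_cap

/-- patching of pieces `c n`, `n` an integer, centred at the integers -/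
noncomputable def glue {E : Type*} (c : ℤ → ℝ → E) (θ : ℝ) : E := c (round θ) (θ - round θ)

theorem abs_sub_round_le (θ : ℝ) : |θ - round θ| ≤ 1 / 2 := by
  have := abs_sub_round θ
  simpa using this

/-- the pieces may be used on larger intervals -/
theorem glue_eq {E : Type*} {c : ℤ → ℝ → E} {e : ℝ} (he : 0 < e) {θ : ℝ} {n : ℤ} (h : |θ - n| ≤ 1 - e)
    (h₁ : n + e ≤ θ → c n (θ - n) = c (n + 1) (θ - n - 1)) (h₂ : θ ≤ n - e → c (n - 1) (θ - n + 1) = c n (θ - n)) :
    glue c θ = c n (θ - n) := by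
  have h0 := abs_sub_round_le θ
  rw [abs_le] at h h0
  have hr1 : round θ < n + 2 := by
    have : (round θ : ℝ) < ((n + 2 : ℤ) : ℝ) := by
      push_cast
      linarith [h.2, h0.1]
    exact_mod_cast this
  have hr2 : n - 2 < round θ := by
    have : ((n - 2 : ℤ) : ℝ) < (round θ : ℝ) := by
      push_cast
      linarith [h.1, h0.2]
    exact_mod_cast this
  have hr : round θ = n ∨ round θ = n + 1 ∨ round θ = n - 1 := by omega
  unfold glue
  rcases hr with hr | hr | hr
  · rw [hr]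
  · rw [hr]
    rw [hr] at h0
    push_cast at h0
    have h3 : n + e ≤ θ := by
      have : e ≤ 1 := by linarith [h.1, h.2]
      by_contra h4
      push Not at h4
      linarith [h0.1, h0.2, h.2]
    rw [h₁ h3]
    congr 1
    push_cast
    ring
  · rw [hr]
    rw [hr] at h0
    push_cast at h0
    have h3 : θ ≤ n - e := by
      by_contra h4
      push Not at h4
      linarith [h0.1, h0.2, h.2]
    rw [← h₂ h3]
    congr 1
    push_cast
    ring

namespace Moll

variable (μ : Moll)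

/-- mollified piecewise linear interpolation of the table `f` -/
noncomputable def pl (f : ℤ → ℝ) (s : ℝ) : ℝ := glue (fun n v => μ.tri (f (n - 1)) (f n) (f (n + 1)) v) s

theorem pl_eq (f : ℤ → ℝ) {n : ℤ} {s : ℝ} (h : |s - n| ≤ 1 - μ.ep) :
    μ.pl f s = μ.tri (f (n - 1)) (f n) (f (n + 1)) (s - n) := by
  unfold pl
  apply glue_eq μ.ep_pos h
  · intro h1
    rw [abs_le] at h
    rw [μ.tri_right _ _ _ (by linarith), μ.tri_left _ _ _ (by linarith [h.2])]
    have e : n + 1 - 1 = n := by ring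
    rw [e]
    ring
  · intro h1
    rw [abs_le] at h
    rw [μ.tri_right _ _ _ (by linarith [h.1]), μ.tri_left _ _ _ (by linarith)]
    have e : n - 1 + 1 = n := by ring
    rw [e]
    ring

theorem pl_near (f : ℤ → ℝ) {n : ℤ} {s : ℝ} (h : |s - n| < 1 - μ.ep) :
    μ.pl f =ᶠ[nhds s] fun t => μ.tri (f (n - 1)) (f n) (f (n + 1)) (t - n) := by
  have h1 : Continuous fun t : ℝ => |t - n| := by fun_prop
  filter_upwards [h1.continuousAt.tendsto.eventually (gt_mem_nhds h)] with t ht
  exact μ.pl_eq f ht.le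

theorem round_near (s : ℝ) : |s - round s| < 1 - μ.ep := by
  have h1 := abs_sub_round_le s
  have h2 := μ.ep_lt
  linarith

theorem pl_contDiff (f : ℤ → ℝ) : ContDiff ℝ ∞ (μ.pl f) := by
  rw [contDiff_iff_contDiffAt]
  intro s
  have h1 := μ.pl_near f (μ.round_near s)
  have h2 : ContDiff ℝ ∞ fun t : ℝ => μ.tri (f (round s - 1)) (f (round s)) (f (round s + 1)) (t - round s) :=
    (μ.tri_contDiff _ _ _).comp (contDiff_id.sub contDiff_const)
  exact h2.contDiffAt.congr_of_eventuallyEq h1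

theorem hasDerivAt_pl (f : ℤ → ℝ) {n : ℤ} {s : ℝ} (h : |s - n| < 1 - μ.ep) :
    HasDerivAt (μ.pl f) ((f (n + 1) - f n) * deriv μ.S (s - n) + (f n - f (n - 1)) * deriv μ.S (n - s)) s := by
  have h1 := μ.pl_near f h
  have h2 := (μ.hasDerivAt_tri (f (n - 1)) (f n) (f (n + 1)) (s - n)).comp s ((hasDerivAt_id s).sub_const (n : ℝ))
  have h3 : HasDerivAt (fun t => μ.tri (f (n - 1)) (f n) (f (n + 1)) (t - n))
      ((f (n + 1) - f n) * deriv μ.S (s - n) + (f n - f (n - 1)) * deriv μ.S (n - s)) s := by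
    have e : (n : ℝ) - s = -(s - n) := by ring
    rw [e]
    rw [mul_one] at h2
    exact h2
  exact h3.congr_of_eventuallyEq h1

theorem deriv_pl (f : ℤ → ℝ) {n : ℤ} {s : ℝ} (h : |s - n| < 1 - μ.ep) :
    deriv (μ.pl f) s = (f (n + 1) - f n) * deriv μ.S (s - n) + (f n - f (n - 1)) * deriv μ.S (n - s) :=
  (μ.hasDerivAt_pl f h).deriv

/-- the derivative is a convex combination of the two slopes -/
theorem deriv_pl' (f : ℤ → ℝ) {n : ℤ} {s : ℝ} (h : |s - n| < 1 - μ.ep) :
    deriv (μ.pl f) s = (f (n + 1) - f n) * deriv μ.S (s - n) + (f n - f (n - 1)) * (1 - deriv μ.S (s - n)) := by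
  rw [μ.deriv_pl f h]
  have h1 := μ.deriv_refl (s - n)
  have e : (n : ℝ) - s = -(s - n) := by ring
  rw [e]
  have h2 : deriv μ.S (-(s - n)) = 1 - deriv μ.S (s - n) := by linarith
  rw [h2]

theorem pl_linear (f g : ℤ → ℝ) (x y s : ℝ) : μ.pl (fun n => x * f n + y * g n) s = x * μ.pl f s + y * μ.pl g s := by
  unfold pl glue
  exact μ.tri_linear _ _ _ _ _ _ _ _ _

theorem pl_add (f g : ℤ → ℝ) (s : ℝ) : μ.pl (fun n => f n + g n) s = μ.pl f s + μ.pl g s := by
  have := μ.pl_linear f g 1 1 s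
  simpa using this

theorem pl_sub (f g : ℤ → ℝ) (s : ℝ) : μ.pl (fun n => f n - g n) s = μ.pl f s - μ.pl g s := by
  have := μ.pl_linear f g 1 (-1) s
  simpa [sub_eq_add_neg] using this

theorem pl_mul (f : ℤ → ℝ) (x s : ℝ) : μ.pl (fun n => x * f n) s = x * μ.pl f s := by
  have := μ.pl_linear f f x 0 s
  simpa using this

theorem pl_const (a s : ℝ) : μ.pl (fun _ => a) s = a := by
  unfold pl glue
  have := μ.tri_straight a 0 (s - round s)
  simpa using this

/-- where the table is affine -/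
theorem pl_affine {f : ℤ → ℝ} {a b : ℝ} {n : ℤ} {s : ℝ} (h : |s - n| ≤ 1 - μ.ep) (h0 : f (n - 1) = a + b * (n - 1))
    (h1 : f n = a + b * n) (h2 : f (n + 1) = a + b * (n + 1)) : μ.pl f s = a + b * s := by
  rw [μ.pl_eq f h]
  have := μ.tri_straight (a + b * n) b (s - n)
  have e0 : f (n - 1) = a + b * n - b := by rw [h0]; ring
  have e2 : f (n + 1) = a + b * n + b := by rw [h2]; ring
  rw [e0, h1, e2, this]
  ring

/-- straight between the nodes -/
theorem pl_right (f : ℤ → ℝ) {n : ℤ} {s : ℝ} (h1 : n + μ.ep ≤ s) (h2 : s ≤ n + 1 - μ.ep) :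
    μ.pl f s = f n + (f (n + 1) - f n) * (s - n) := by
  have h3 : |s - n| ≤ 1 - μ.ep := by
    rw [abs_le]
    have := μ.ep_pos
    have := μ.ep_lt
    constructor <;> linarith
  rw [μ.pl_eq f h3, μ.tri_right _ _ _ (by linarith)]

theorem pl_left (f : ℤ → ℝ) {n : ℤ} {s : ℝ} (h1 : n - 1 + μ.ep ≤ s) (h2 : s ≤ n - μ.ep) :
    μ.pl f s = f n + (f n - f (n - 1)) * (s - n) := by
  have h3 : |s - n| ≤ 1 - μ.ep := by
    rw [abs_le]
    have := μ.ep_pos
    have := μ.ep_lt
    constructor <;> linarith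
  rw [μ.pl_eq f h3, μ.tri_left _ _ _ (by linarith)]

/-- the value at a node -/
theorem pl_int (f : ℤ → ℝ) (n : ℤ) : μ.pl f n = f n + (f (n + 1) - 2 * f n + f (n - 1)) * μ.S 0 := by
  have h3 : |(n : ℝ) - n| ≤ 1 - μ.ep := by
    rw [sub_self, abs_zero]
    linarith [μ.ep_lt]
  rw [μ.pl_eq f h3, sub_self]
  unfold tri
  rw [neg_zero]
  ring

theorem pl_half (f : ℤ → ℝ) (n : ℤ) : μ.pl f (n + 1 / 2) = (f n + f (n + 1)) / 2 := by
  have := μ.ep_lt
  rw [μ.pl_right f (n := n) (by linarith) (by linarith)]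
  ring

theorem pl_nonneg {f : ℤ → ℝ} {s : ℝ} (h0 : 0 ≤ f (round s)) (h1 : 0 ≤ f (round s) + f (round s + 1))
    (h2 : 0 ≤ f (round s - 1) + f (round s)) : 0 ≤ μ.pl f s := by
  unfold pl glue
  exact μ.tri_nonneg (abs_sub_round_le s) h0 h1 h2

theorem pl_pos {f : ℤ → ℝ} {s : ℝ} (h0 : 0 < f (round s)) (h1 : 0 < f (round s) + f (round s + 1))
    (h2 : 0 < f (round s - 1) + f (round s)) : 0 < μ.pl f s := by
  unfold pl glue
  exact μ.tri_pos (abs_sub_round_le s) h0 h1 h2

/-- the slope is positive if it is on both sides of the nearest node -/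
theorem deriv_pl_pos {f : ℤ → ℝ} {s : ℝ} (h1 : f (round s) < f (round s + 1)) (h2 : f (round s - 1) < f (round s)) :
    0 < deriv (μ.pl f) s := by
  rw [μ.deriv_pl' f (μ.round_near s)]
  have h3 := μ.deriv_nonneg (s - round s)
  have h4 := μ.deriv_le_one (s - round s)
  rcases h3.eq_or_lt with h5 | h5
  · rw [← h5]
    linarith
  · have h6 : 0 < (f (round s + 1) - f (round s)) * deriv μ.S (s - round s) := mul_pos (by linarith) h5
    have h7 : 0 ≤ (f (round s) - f (round s - 1)) * (1 - deriv μ.S (s - round s)) :=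
      mul_nonneg (by linarith) (by linarith)
    linarith

end Moll

end Pool.Agent.Lib_MP_59ec1f_cap
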