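import Pool.Agent.Lib_MP_59ec1f_cap.MollFacts
import Pool.Agent.Lib_MP_59ec1f_cap.Strips

/-!
# The top of the surface

The last curve of the movie is a closed curve `θ ↦ (x θ, Y θ)` which consists of two arcs on which `Y` is strictly
monotone; the sign of the difference of the primitives is the same at all crossings. It is shrunk to a point.
-/

set_option autoImplicit false

open scoped ContDiff

namespace Pool.Agent.Lib_MP_59ec1f_cap

/-- The input: smooth functions `x, y, f` of period `N` with `f' = y x'`; `y` increases on `[0, m]` and decreases on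
`[m, N]`; near the minimum `0` and the maximum `m` it is `∓ (R - h Q)`; where the increasing arc crosses the decreasing arc,
`f` is smaller on the increasing arc. At the times near `s₀` the curve is `(x, (Λ - (s - s₀)) y)`. -/
structure TopIn (μ : Moll) where
  N : ℝ
  m : ℝ
  R : ℝ
  h : ℝ
  Λ : ℝ
  s₀ : ℝ
  x : ℝ → ℝ
  y : ℝ → ℝ
  f : ℝ → ℝ
  m_pos : 1 < m
  m_lt : m + 1 < N
  h_pos : 0 < h
  Λ_pos : 1 ≤ Λ
  hR : 0 < R - h * μ.Q 0
  x_smooth : ContDiff ℝ ∞ x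
  y_smooth : ContDiff ℝ ∞ y
  f_smooth : ContDiff ℝ ∞ f
  x_per : ∀ θ, x (θ + N) = x θ
  y_per : ∀ θ, y (θ + N) = y θ
  f_per : ∀ θ, f (θ + N) = f θ
  f_deriv : ∀ θ, deriv f θ = y θ * deriv x θ
  y_min : ∀ v, |v| ≤ 1 / 2 → y v = -R + h * μ.Q v
  y_max : ∀ v, |v| ≤ 1 / 2 → y (m + v) = R - h * μ.Q v
  y_incr : ∀ θ, 0 < θ → θ < m → 0 < deriv y θ
  y_decr : ∀ θ, m < θ → θ < N → deriv y θ < 0
  x_min : 0 < deriv x 0
  x_max : 0 < deriv x m
  cross : ∀ θ θ', 0 < θ → θ < m → m < θ' → θ' < N → y θ = y θ' → x θ = x θ' → f θ < f θ'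

/-- The output: `Γ (θ, s)` for `s₀ - 1/4 < s < sT` and the chart `C` at the top point. -/
structure TopOut (μ : Moll) (I : TopIn μ) where
  sT : ℝ
  Γ : ℝ × ℝ → P4
  P : ℝ × ℝ → ℝ
  hT : I.s₀ + 1 / 2 < sT
  start : ∀ θ s, I.s₀ - 1 / 4 < s → s < I.s₀ + 1 / 4 →
    Γ (θ, s) = (I.x θ, s, (I.Λ - (s - I.s₀)) * I.y θ, -I.f θ) ∧ P (θ, s) = (I.Λ - (s - I.s₀)) * I.f θ
  time : ∀ θ s, I.s₀ - 1 / 4 < s → s ≤ sT → (Γ (θ, s)).2.1 = s
  smooth : ContDiffOn ℝ ∞ Γ {p | I.s₀ - 1 / 4 < p.2 ∧ p.2 < sT}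
  smoothP : ContDiffOn ℝ ∞ P {p | I.s₀ - 1 / 4 < p.2 ∧ p.2 < sT}
  imm : ∀ p : ℝ × ℝ, I.s₀ - 1 / 4 < p.2 → p.2 < sT → Function.Injective (fderiv ℝ Γ p) ∧
    ∀ v, fderiv ℝ P p v = (Γ p).2.2.1 * (fderiv ℝ Γ p v).1 + (Γ p).2.2.2 * (fderiv ℝ Γ p v).2.1
  per : ∀ θ s, Γ (θ + I.N, s) = Γ (θ, s) ∧ P (θ + I.N, s) = P (θ, s)
  inj : ∀ θ θ' s, I.s₀ - 1 / 4 < s → s < sT → Γ (θ, s) = Γ (θ', s) → ∃ n : ℤ, θ' = θ + n * I.N
  cont : ContinuousOn Γ {p | I.s₀ - 1 / 4 < p.2 ∧ p.2 ≤ sT}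
  /-- the chart at the top -/
  C : ℝ × ℝ → P4
  g : ℝ × ℝ → ℝ
  t : ℝ × ℝ → ℝ × ℝ
  η : ℝ
  η_pos : 0 < η
  η_lt : I.s₀ < sT - η
  C_smooth : ContDiff ℝ ∞ C
  g_smooth : ContDiff ℝ ∞ g
  C_imm : Function.Injective (fderiv ℝ C 0)
  g_deriv : ∀ u v, fderiv ℝ g u v = (C u).2.2.1 * (fderiv ℝ C u v).1 + (C u).2.2.2 * (fderiv ℝ C u v).2.1
  t_cont : ContinuousOn t {p | sT - η < p.2 ∧ p.2 ≤ sT}
  t_eq : ∀ θ s, sT - η < s → s ≤ sT → C (t (θ, s)) = Γ (θ, s) ∧ g (t (θ, s)) = P (θ, s) ∧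
    (t (θ, s)).1 ^ 2 + (t (θ, s)).2 ^ 2 = sT - s
  t_surj : ∀ u : ℝ × ℝ, u.1 ^ 2 + u.2 ^ 2 < η → ∃ θ s, sT - η < s ∧ s ≤ sT ∧ t (θ, s) = u

namespace TopIn

variable {μ : Moll} (I : TopIn μ)

/-- the maximum of `|y|` -/
noncomputable def Rm : ℝ := I.R - I.h * μ.Q 0

theorem Rm_pos : 0 < I.Rm := I.hR

theorem y_zero : I.y 0 = -I.Rm := by
  have h := I.y_min 0 (by norm_num)
  rw [h]; unfold Rm; ring

theorem y_m : I.y I.m = I.Rm := by
  have h := I.y_max 0 (by norm_num)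
  rw [add_zero] at h
  rw [h]; rfl

theorem y_N : I.y I.N = -I.Rm := by
  have h := I.y_per 0
  rw [zero_add] at h
  rw [h, I.y_zero]

theorem N_pos : 0 < I.N := by linarith [I.m_pos, I.m_lt]

theorem y_mono : StrictMonoOn I.y (Set.Icc 0 I.m) :=
  strictMonoOn_of_deriv_pos (convex_Icc _ _) I.y_smooth.continuous.continuousOn (by
    intro θ hθ
    rw [interior_Icc] at hθ
    exact I.y_incr θ hθ.1 hθ.2)

theorem y_anti : StrictAntiOn I.y (Set.Icc I.m I.N) :=
  strictAntiOn_of_deriv_neg (convex_Icc _ _) I.y_smooth.continuous.continuousOn (by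
    intro θ hθ
    rw [interior_Icc] at hθ
    exact I.y_decr θ hθ.1 hθ.2)

theorem dy_per : Function.Periodic (deriv I.y) I.N := by
  intro θ
  have h : (fun t => I.y (t + I.N)) = I.y := funext I.y_per
  rw [← deriv_comp_add_const, h]

theorem dx_per : Function.Periodic (deriv I.x) I.N := by
  intro θ
  have h : (fun t => I.x (t + I.N)) = I.x := funext I.x_per
  rw [← deriv_comp_add_const, h]

/-- reduction to one period -/
theorem per_ind (p : ℝ → Prop) (hp : ∀ θ (n : ℤ), p (θ + n * I.N) → p θ) (h0 : p 0)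
    (h1 : ∀ θ, 0 < θ → θ < I.m → p θ) (hm : p I.m) (h2 : ∀ θ, I.m < θ → θ < I.N → p θ) : ∀ θ, p θ := by
  intro θ
  obtain ⟨n, hn, -⟩ := existsUnique_add_zsmul_mem_Ico I.N_pos θ 0
  simp only [zsmul_eq_mul, zero_add] at hn
  apply hp θ n
  rcases eq_or_lt_of_le hn.1 with h | h
  · rw [← h]; exact h0
  rcases lt_trichotomy (θ + n * I.N) I.m with h' | h' | h'
  · exact h1 _ h h'
  · rw [h']; exact hm
  · exact h2 _ h' hn.2

theorem y_lt1 {θ : ℝ} (h : 0 < θ) (h' : θ < I.m) : -I.Rm < I.y θ ∧ I.y θ < I.Rm := by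
  have hm := I.m_pos
  constructor
  · rw [← I.y_zero]
    exact I.y_mono ⟨le_rfl, by linarith⟩ ⟨h.le, h'.le⟩ h
  · rw [← I.y_m]
    exact I.y_mono ⟨h.le, h'.le⟩ ⟨by linarith, le_rfl⟩ h'

theorem y_lt2 {θ : ℝ} (h : I.m < θ) (h' : θ < I.N) : -I.Rm < I.y θ ∧ I.y θ < I.Rm := by
  have hm := I.m_pos
  constructor
  · rw [← I.y_N]
    exact I.y_anti ⟨h.le, h'.le⟩ ⟨by linarith, le_rfl⟩ h'
  · rw [← I.y_m]
    exact I.y_anti ⟨le_rfl, by linarith⟩ ⟨h.le, h'.le⟩ h

/-- the second coordinate of the circle -/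
noncomputable def w (θ : ℝ) : ℝ := (SignType.sign (deriv I.y θ) : ℝ) * Real.sqrt (I.Rm ^ 2 - I.y θ ^ 2)

theorem w_per : Function.Periodic I.w I.N := by
  intro θ
  simp only [w]
  rw [I.dy_per, I.y_per]

theorem w_one {θ : ℝ} (h : 0 < θ) (h' : θ < I.m) : I.w θ = Real.sqrt (I.Rm ^ 2 - I.y θ ^ 2) := by
  have := I.y_incr θ h h'
  simp only [w]
  rw [sign_pos this]; simp

theorem w_two {θ : ℝ} (h : I.m < θ) (h' : θ < I.N) : I.w θ = -Real.sqrt (I.Rm ^ 2 - I.y θ ^ 2) := by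
  have := I.y_decr θ h h'
  simp only [w]
  rw [sign_neg this]; simp

theorem w_zero : I.w 0 = 0 := by
  simp only [w]
  rw [I.y_zero]; simp

theorem w_m : I.w I.m = 0 := by
  simp only [w]
  rw [I.y_m]; simp

theorem w_pos {θ : ℝ} (h : 0 < θ) (h' : θ < I.m) : 0 < I.w θ := by
  rw [I.w_one h h']
  have := I.y_lt1 h h'
  apply Real.sqrt_pos.2
  nlinarith [this.1, this.2]

theorem w_neg {θ : ℝ} (h : I.m < θ) (h' : θ < I.N) : I.w θ < 0 := by
  rw [I.w_two h h']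
  have := I.y_lt2 h h'
  have h3 : 0 < Real.sqrt (I.Rm ^ 2 - I.y θ ^ 2) := by
    apply Real.sqrt_pos.2
    nlinarith [this.1, this.2]
  linarith

theorem w_sq (θ : ℝ) : I.w θ ^ 2 = I.Rm ^ 2 - I.y θ ^ 2 := by
  revert θ
  apply I.per_ind (fun θ => I.w θ ^ 2 = I.Rm ^ 2 - I.y θ ^ 2)
  · intro θ n h
    have h1 : I.w (θ + n * I.N) = I.w θ := I.w_per.int_mul n θ
    have h2 : I.y (θ + n * I.N) = I.y θ := Function.Periodic.int_mul (f := I.y) I.y_per n θ
    rw [h1, h2] at h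
    exact h
  · rw [I.w_zero, I.y_zero]; ring
  · intro θ h h'
    have := I.y_lt1 h h'
    rw [I.w_one h h', Real.sq_sqrt]
    nlinarith [this.1, this.2]
  · rw [I.w_m, I.y_m]; ring
  · intro θ h h'
    have := I.y_lt2 h h'
    rw [I.w_two h h', neg_sq, Real.sq_sqrt]
    nlinarith [this.1, this.2]

theorem abs_y_le (θ : ℝ) : |I.y θ| ≤ I.Rm := by
  have h := I.w_sq θ
  have h2 : I.y θ ^ 2 ≤ I.Rm ^ 2 := by nlinarith [sq_nonneg (I.w θ)]
  exact abs_le_of_sq_le_sq h2 I.Rm_pos.le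

/-- near the minimum -/
theorem near_zero : ∃ b > 0, ∃ r > 0, ∀ v, |v| < r →
    I.w v = v * Real.sqrt (2 * I.h * b * (I.Rm - I.y v)) := by
  obtain ⟨b, hb, r, hr, hq⟩ := μ.quad
  have hm := I.m_pos
  have hmN := I.m_lt
  refine ⟨b, hb, min r (1 / 2), lt_min hr (by norm_num), ?_⟩
  intro v hv
  have hv1 : |v| < r := lt_of_lt_of_le hv (min_le_left _ _)
  have hv2 : |v| < 1 / 2 := lt_of_lt_of_le hv (min_le_right _ _)
  have hy : I.y v = -I.Rm + 2 * I.h * b * v ^ 2 := by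
    rw [I.y_min v hv2.le]
    have h1 := hq v hv1
    have h2 := hq (-v) (by rwa [abs_neg])
    simp only [Rm, Moll.Q, neg_zero]
    rw [h1, h2]; ring
  have hs : Real.sqrt (I.Rm ^ 2 - I.y v ^ 2) = |v| * Real.sqrt (2 * I.h * b * (I.Rm - I.y v)) := by
    have : I.Rm ^ 2 - I.y v ^ 2 = v ^ 2 * (2 * I.h * b * (I.Rm - I.y v)) := by
      have h3 : I.Rm + I.y v = 2 * I.h * b * v ^ 2 := by rw [hy]; ring
      calc I.Rm ^ 2 - I.y v ^ 2 = (I.Rm + I.y v) * (I.Rm - I.y v) := by ring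
        _ = _ := by rw [h3]; ring
    rw [this, Real.sqrt_mul (sq_nonneg v), Real.sqrt_sq_eq_abs]
  rcases lt_trichotomy v 0 with h | h | h
  · have h4 : I.w v = I.w (v + I.N) := (I.w_per v).symm
    rw [h4, I.w_two, I.y_per, hs, abs_of_neg h]
    · ring
    · rw [abs_of_neg h] at hv2; linarith
    · linarith
  · rw [h, I.w_zero]; ring
  · rw [I.w_one h, hs, abs_of_pos h]
    rw [abs_of_pos h] at hv2; linarith

/-- near the maximum -/
theorem near_m : ∃ b > 0, ∃ r > 0, ∀ v, |v| < r →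
    I.w (I.m + v) = -(v * Real.sqrt (2 * I.h * b * (I.Rm + I.y (I.m + v)))) := by
  obtain ⟨b, hb, r, hr, hq⟩ := μ.quad
  have hm := I.m_pos
  have hmN := I.m_lt
  refine ⟨b, hb, min r (1 / 2), lt_min hr (by norm_num), ?_⟩
  intro v hv
  have hv1 : |v| < r := lt_of_lt_of_le hv (min_le_left _ _)
  have hv2 : |v| < 1 / 2 := lt_of_lt_of_le hv (min_le_right _ _)
  have hy : I.y (I.m + v) = I.Rm - 2 * I.h * b * v ^ 2 := by
    rw [I.y_max v hv2.le]
    have h1 := hq v hv1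
    have h2 := hq (-v) (by rwa [abs_neg])
    simp only [Rm, Moll.Q, neg_zero]
    rw [h1, h2]; ring
  have hs : Real.sqrt (I.Rm ^ 2 - I.y (I.m + v) ^ 2) =
      |v| * Real.sqrt (2 * I.h * b * (I.Rm + I.y (I.m + v))) := by
    have : I.Rm ^ 2 - I.y (I.m + v) ^ 2 = v ^ 2 * (2 * I.h * b * (I.Rm + I.y (I.m + v))) := by
      have h3 : I.Rm - I.y (I.m + v) = 2 * I.h * b * v ^ 2 := by rw [hy]; ring
      calc I.Rm ^ 2 - I.y (I.m + v) ^ 2 = (I.Rm - I.y (I.m + v)) * (I.Rm + I.y (I.m + v)) := by ring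
        _ = _ := by rw [h3]; ring
    rw [this, Real.sqrt_mul (sq_nonneg v), Real.sqrt_sq_eq_abs]
  rcases lt_trichotomy v 0 with h | h | h
  · rw [I.w_one, hs, abs_of_neg h]
    · ring
    · rw [abs_of_neg h] at hv2; linarith
    · linarith
  · rw [h, add_zero, I.w_m]; ring
  · rw [I.w_two, hs, abs_of_pos h]
    · linarith
    · rw [abs_of_pos h] at hv2; linarith

theorem w_smooth : ContDiff ℝ ∞ I.w := by
  rw [contDiff_iff_contDiffAt]
  have hR := I.Rm_pos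
  have hh := I.h_pos
  apply I.per_ind (fun θ => ContDiffAt ℝ ∞ I.w θ)
  · intro θ n h
    have h1 : I.w = fun t => I.w (t + n * I.N) := funext fun t => (I.w_per.int_mul n t).symm
    rw [h1]
    exact ContDiffAt.comp θ h (contDiffAt_id.add contDiffAt_const)
  · obtain ⟨b, hb, r, hr, h⟩ := I.near_zero
    have h1 : ContDiffAt ℝ ∞ (fun v => v * Real.sqrt (2 * I.h * b * (I.Rm - I.y v))) 0 := by
      refine contDiffAt_id.mul (ContDiffAt.sqrt (contDiffAt_const.mul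
        (contDiffAt_const.sub I.y_smooth.contDiffAt)) ?_)
      rw [I.y_zero]
      have : 0 < 2 * I.h * b * (I.Rm - -I.Rm) := by
        have : 0 < I.Rm - -I.Rm := by linarith
        positivity
      exact this.ne'
    refine h1.congr_of_eventuallyEq ?_
    filter_upwards [Metric.ball_mem_nhds (0 : ℝ) hr] with v hv
    rw [Metric.mem_ball, Real.dist_eq, sub_zero] at hv
    exact h v hv
  · intro θ h h'
    have hy := I.y_lt1 h h'
    have h1 : ContDiffAt ℝ ∞ (fun v => Real.sqrt (I.Rm ^ 2 - I.y v ^ 2)) θ := by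
      refine ContDiffAt.sqrt (contDiffAt_const.sub (I.y_smooth.contDiffAt.pow 2)) ?_
      have : 0 < I.Rm ^ 2 - I.y θ ^ 2 := by nlinarith [hy.1, hy.2]
      exact this.ne'
    refine h1.congr_of_eventuallyEq ?_
    filter_upwards [Ioo_mem_nhds h h'] with v hv
    exact I.w_one hv.1 hv.2
  · obtain ⟨b, hb, r, hr, h⟩ := I.near_m
    have h1 : ContDiffAt ℝ ∞ (fun v => -((v - I.m) * Real.sqrt (2 * I.h * b * (I.Rm + I.y v)))) I.m := by
      refine ((contDiffAt_id.sub contDiffAt_const).mul (ContDiffAt.sqrt (contDiffAt_const.mul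
        (contDiffAt_const.add I.y_smooth.contDiffAt)) ?_)).neg
      rw [I.y_m]
      have : 0 < 2 * I.h * b * (I.Rm + I.Rm) := by
        have : 0 < I.Rm + I.Rm := by linarith
        positivity
      exact this.ne'
    refine h1.congr_of_eventuallyEq ?_
    filter_upwards [Metric.ball_mem_nhds I.m hr] with v hv
    rw [Metric.mem_ball, Real.dist_eq] at hv
    have := h (v - I.m) hv
    rw [add_sub_cancel] at this
    exact this
  · intro θ h h'
    have hy := I.y_lt2 h h'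
    have h1 : ContDiffAt ℝ ∞ (fun v => -Real.sqrt (I.Rm ^ 2 - I.y v ^ 2)) θ := by
      refine (ContDiffAt.sqrt (contDiffAt_const.sub (I.y_smooth.contDiffAt.pow 2)) ?_).neg
      have : 0 < I.Rm ^ 2 - I.y θ ^ 2 := by nlinarith [hy.1, hy.2]
      exact this.ne'
    refine h1.congr_of_eventuallyEq ?_
    filter_upwards [Ioo_mem_nhds h h'] with v hv
    exact I.w_two hv.1 hv.2

theorem hasDerivAt_y (θ : ℝ) : HasDerivAt I.y (deriv I.y θ) θ :=
  (I.y_smooth.differentiable (by simp) θ).hasDerivAt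

theorem hasDerivAt_x (θ : ℝ) : HasDerivAt I.x (deriv I.x θ) θ :=
  (I.x_smooth.differentiable (by simp) θ).hasDerivAt

theorem hasDerivAt_f (θ : ℝ) : HasDerivAt I.f (I.y θ * deriv I.x θ) θ := by
  rw [← I.f_deriv]
  exact (I.f_smooth.differentiable (by simp) θ).hasDerivAt

theorem hasDerivAt_w (θ : ℝ) : HasDerivAt I.w (deriv I.w θ) θ :=
  (I.w_smooth.differentiable (by simp) θ).hasDerivAt

theorem w_deriv (θ : ℝ) : I.w θ * deriv I.w θ = -(I.y θ * deriv I.y θ) := by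
  have h1 := (I.hasDerivAt_w θ).pow 2
  have h2 := ((I.hasDerivAt_y θ).pow 2).const_sub (I.Rm ^ 2)
  have h3 : (I.w ^ 2) = fun t => I.Rm ^ 2 - (I.y ^ 2) t := funext fun t => by
    simp only [Pi.pow_apply]; exact I.w_sq t
  rw [h3] at h1
  have h4 := h1.unique h2
  norm_num at h4
  linarith

theorem dw_zero : 0 < deriv I.w 0 := by
  obtain ⟨b, hb, r, hr, h⟩ := I.near_zero
  have hR := I.Rm_pos
  have hh := I.h_pos
  have hp : 0 < 2 * I.h * b * (I.Rm - I.y 0) := by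
    rw [I.y_zero]
    have : 0 < I.Rm - -I.Rm := by linarith
    positivity
  have h1 : HasDerivAt (fun v => Real.sqrt (2 * I.h * b * (I.Rm - I.y v)))
      (deriv (fun v => Real.sqrt (2 * I.h * b * (I.Rm - I.y v))) 0) 0 := by
    apply DifferentiableAt.hasDerivAt
    exact DifferentiableAt.sqrt ((differentiableAt_const _).mul
      ((differentiableAt_const _).sub (I.hasDerivAt_y 0).differentiableAt)) hp.ne'
  have h2 := (hasDerivAt_id (0 : ℝ)).mul h1
  have h3 : I.w =ᶠ[nhds 0] (id * fun v => Real.sqrt (2 * I.h * b * (I.Rm - I.y v))) := by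
    filter_upwards [Metric.ball_mem_nhds (0 : ℝ) hr] with v hv
    rw [Metric.mem_ball, Real.dist_eq, sub_zero] at hv
    exact h v hv
  have h4 := (h2.congr_of_eventuallyEq h3).deriv
  rw [h4]
  simp only [id_eq, one_mul, zero_mul, add_zero]
  exact Real.sqrt_pos.2 hp

theorem dw_m : deriv I.w I.m < 0 := by
  obtain ⟨b, hb, r, hr, h⟩ := I.near_m
  have hR := I.Rm_pos
  have hh := I.h_pos
  have hp : 0 < 2 * I.h * b * (I.Rm + I.y I.m) := by
    rw [I.y_m]
    have : 0 < I.Rm + I.Rm := by linarith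
    positivity
  have h1 : HasDerivAt (fun v => Real.sqrt (2 * I.h * b * (I.Rm + I.y v)))
      (deriv (fun v => Real.sqrt (2 * I.h * b * (I.Rm + I.y v))) I.m) I.m := by
    apply DifferentiableAt.hasDerivAt
    exact DifferentiableAt.sqrt ((differentiableAt_const _).mul
      ((differentiableAt_const _).add (I.hasDerivAt_y I.m).differentiableAt)) hp.ne'
  have h2 := (((hasDerivAt_id I.m).sub_const I.m).mul h1).neg
  have h3 : I.w =ᶠ[nhds I.m] -((fun v => id v - I.m) * fun v => Real.sqrt (2 * I.h * b * (I.Rm + I.y v))) := by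
    filter_upwards [Metric.ball_mem_nhds I.m hr] with v hv
    rw [Metric.mem_ball, Real.dist_eq] at hv
    have := h (v - I.m) hv
    rw [add_sub_cancel] at this
    simp only [Pi.neg_apply, Pi.mul_apply, id_eq]
    exact this
  have h4 := (h2.congr_of_eventuallyEq h3).deriv
  rw [h4]
  simp only [id_eq, one_mul, sub_self, zero_mul, add_zero]
  have := Real.sqrt_pos.2 hp
  linarith

end TopIn

/-- inverse of a strictly increasing function -/
theorem exists_inverse {y : ℝ → ℝ} {p q : ℝ} (hpq : p ≤ q) (hy : Continuous y) (hm : StrictMonoOn y (Set.Icc p q)) :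
    ∃ A : ℝ → ℝ, ContinuousOn A (Set.Icc (y p) (y q)) ∧
      ∀ t ∈ Set.Icc (y p) (y q), A t ∈ Set.Icc p q ∧ y (A t) = t := by
  have hsurj : ∀ t ∈ Set.Icc (y p) (y q), ∃ a ∈ Set.Icc p q, y a = t := by
    intro t ht
    exact intermediate_value_Icc hpq hy.continuousOn ht
  choose! A hA hA' using hsurj
  refine ⟨A, ?_, fun t ht => ⟨hA t ht, hA' t ht⟩⟩
  have hp : p ∈ Set.Icc p q := ⟨le_rfl, hpq⟩
  have hq : q ∈ Set.Icc p q := ⟨hpq, le_rfl⟩
  have hmono : StrictMonoOn A (Set.Icc (y p) (y q)) := by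
    intro s hs t ht hst
    by_contra h
    have h1 := hm.monotoneOn (hA t ht) (hA s hs) (not_lt.1 h)
    rw [hA' s hs, hA' t ht] at h1
    linarith
  have himage : A '' Set.Icc (y p) (y q) = Set.Icc p q := by
    apply Set.Subset.antisymm
    · rintro _ ⟨t, ht, rfl⟩
      exact hA t ht
    · intro a ha
      have h1 : y a ∈ Set.Icc (y p) (y q) :=
        ⟨hm.monotoneOn hp ha ha.1, hm.monotoneOn ha hq ha.2⟩
      exact ⟨y a, h1, hm.injOn (hA _ h1) ha (hA' _ h1)⟩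
  intro t ht
  rcases eq_or_lt_of_le hpq with h | h
  · have : Set.Subsingleton (Set.Icc (y p) (y q)) := by
      rw [h]; simp
    exact (this.continuousOn A) t ht
  have hylt : y p < y q := hm hp hq h
  -- use `StrictMonoOn.continuousWithinAt...`
  have hr : ∀ t ∈ Set.Icc (y p) (y q), ContinuousWithinAt A (Set.Icc (y p) (y q)) t := by
    intro t ht
    rw [Metric.continuousWithinAt_iff]
    intro ε hε
    -- left and right bounds
    have hl : ∃ δ > 0, ∀ s ∈ Set.Icc (y p) (y q), t - δ < s → A t - ε < A s := by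
      by_cases hc : p ≤ A t - ε / 2
      · have h1 : A t - ε / 2 ∈ Set.Icc p q := ⟨hc, by linarith [(hA t ht).2]⟩
        have h2 : y (A t - ε / 2) < t := by
          have := hm h1 (hA t ht) (by linarith)
          rwa [hA' t ht] at this
        refine ⟨t - y (A t - ε / 2), by linarith, ?_⟩
        intro s hs hst
        by_contra h3
        have h4 := hm.monotoneOn (hA s hs) h1 (by linarith)
        rw [hA' s hs] at h4
        linarith
      · refine ⟨1, one_pos, ?_⟩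
        intro s hs _
        linarith [(hA s hs).1]
    have hr : ∃ δ > 0, ∀ s ∈ Set.Icc (y p) (y q), s < t + δ → A s < A t + ε := by
      by_cases hc : A t + ε / 2 ≤ q
      · have h1 : A t + ε / 2 ∈ Set.Icc p q := ⟨by linarith [(hA t ht).1], hc⟩
        have h2 : t < y (A t + ε / 2) := by
          have := hm (hA t ht) h1 (by linarith)
          rwa [hA' t ht] at this
        refine ⟨y (A t + ε / 2) - t, by linarith, ?_⟩
        intro s hs hst
        by_contra h3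
        have h4 := hm.monotoneOn h1 (hA s hs) (by linarith)
        rw [hA' s hs] at h4
        linarith
      · refine ⟨1, one_pos, ?_⟩
        intro s hs _
        linarith [(hA s hs).2]
    obtain ⟨δ, hδ, h1⟩ := hl
    obtain ⟨δ', hδ', h2⟩ := hr
    refine ⟨min δ δ', lt_min hδ hδ', ?_⟩
    intro s hs hst
    rw [Real.dist_eq, abs_lt] at hst
    rw [Real.dist_eq, abs_lt]
    have h3 := min_le_left δ δ'
    have h4 := min_le_right δ δ'
    constructor
    · linarith [h1 s hs (by linarith)]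
    · linarith [h2 s hs (by linarith)]
  exact hr t ht

namespace TopIn

variable {μ : Moll} (I : TopIn μ)

/-- the second curve -/
noncomputable def x₁ (θ : ℝ) : ℝ := -(I.w θ * I.y θ)

/-- primitive of `x dy` -/
noncomputable def g₀ (θ : ℝ) : ℝ := I.x θ * I.y θ - I.f θ

/-- primitive of `x₁ dy` -/
noncomputable def g₁ (θ : ℝ) : ℝ := I.w θ ^ 3 / 3

theorem x₁_smooth : ContDiff ℝ ∞ I.x₁ := (I.w_smooth.mul I.y_smooth).neg

theorem g₀_smooth : ContDiff ℝ ∞ I.g₀ := (I.x_smooth.mul I.y_smooth).sub I.f_smooth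

theorem g₁_smooth : ContDiff ℝ ∞ I.g₁ := (I.w_smooth.pow 3).div_const 3

theorem hasDerivAt_x₁ (θ : ℝ) :
    HasDerivAt I.x₁ (-(deriv I.w θ * I.y θ + I.w θ * deriv I.y θ)) θ :=
  ((I.hasDerivAt_w θ).mul (I.hasDerivAt_y θ)).neg

theorem hasDerivAt_g₀ (θ : ℝ) : HasDerivAt I.g₀ (I.x θ * deriv I.y θ) θ := by
  have h := ((I.hasDerivAt_x θ).mul (I.hasDerivAt_y θ)).sub (I.hasDerivAt_f θ)
  have e : deriv I.x θ * I.y θ + I.x θ * deriv I.y θ - I.y θ * deriv I.x θ = I.x θ * deriv I.y θ := by ring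
  rw [e] at h
  exact h

theorem hasDerivAt_g₁ (θ : ℝ) : HasDerivAt I.g₁ (I.x₁ θ * deriv I.y θ) θ := by
  have h := ((I.hasDerivAt_w θ).pow 3).div_const 3
  have e : (↑(3 : ℕ) : ℝ) * I.w θ ^ (3 - 1) * deriv I.w θ / 3 = I.x₁ θ * deriv I.y θ := by
    have h1 := I.w_deriv θ
    have h2 : (3 : ℕ) - 1 = 2 := rfl
    rw [h2]
    simp only [x₁]
    push_cast
    calc 3 * I.w θ ^ 2 * deriv I.w θ / 3 = I.w θ * (I.w θ * deriv I.w θ) := by ring
      _ = _ := by rw [h1]; ring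
  rw [e] at h
  exact h

theorem x₁_per : Function.Periodic I.x₁ I.N := by
  intro θ
  simp only [x₁]
  rw [I.w_per, I.y_per]

theorem g₀_per : Function.Periodic I.g₀ I.N := by
  intro θ
  simp only [g₀]
  rw [I.x_per, I.y_per, I.f_per]

theorem g₁_per : Function.Periodic I.g₁ I.N := by
  intro θ
  simp only [g₁]
  rw [I.w_per]

/-- where `y` is stationary, `x` and `x₁` increase -/
theorem dy_or (θ : ℝ) : deriv I.y θ ≠ 0 ∨ (0 < deriv I.x θ ∧ 0 < deriv I.x₁ θ) := by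
  revert θ
  have hR := I.Rm_pos
  apply I.per_ind (fun θ => deriv I.y θ ≠ 0 ∨ (0 < deriv I.x θ ∧ 0 < deriv I.x₁ θ))
  · intro θ n h
    have h3 : I.x₁ = fun t => I.x₁ (t + n * I.N) := funext fun t => (I.x₁_per.int_mul n t).symm
    have h1 : deriv I.y (θ + n * I.N) = deriv I.y θ := I.dy_per.int_mul n θ
    have h2 : deriv I.x (θ + n * I.N) = deriv I.x θ := I.dx_per.int_mul n θ
    have h4 : deriv I.x₁ (θ + n * I.N) = deriv I.x₁ θ := by
      rw [← deriv_comp_add_const, ← h3]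
    rw [h1, h2, h4] at h
    exact h
  · right
    refine ⟨I.x_min, ?_⟩
    rw [(I.hasDerivAt_x₁ 0).deriv, I.w_zero, I.y_zero]
    have := I.dw_zero
    nlinarith
  · intro θ h h'
    left
    exact (I.y_incr θ h h').ne'
  · right
    refine ⟨I.x_max, ?_⟩
    rw [(I.hasDerivAt_x₁ I.m).deriv, I.w_m, I.y_m]
    have := I.dw_m
    nlinarith
  · intro θ h h'
    left
    exact (I.y_decr θ h h').ne

/-- a function with `φ 0 = 0` and positive derivative at `0` is positive on the right of `0` -/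
theorem pos_right {φ : ℝ → ℝ} {d : ℝ} (h : HasDerivAt φ d 0) (h0 : φ 0 = 0) (hd : 0 < d) :
    ∃ δ > 0, δ ≤ 1 / 2 ∧ ∀ a, 0 < a → a ≤ δ → 0 < φ a := by
  have h1 := h.tendsto_slope
  have h2 : ∀ᶠ a in nhdsWithin (0 : ℝ) {0}ᶜ, 0 < slope φ 0 a := h1.eventually (lt_mem_nhds hd)
  rw [eventually_nhdsWithin_iff, Metric.eventually_nhds_iff] at h2
  obtain ⟨ε, hε, h3⟩ := h2
  refine ⟨min (ε / 2) (1 / 2), lt_min (by linarith) (by norm_num), min_le_right _ _, ?_⟩
  intro a ha ha'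
  have h4 : a ≤ ε / 2 := ha'.trans (min_le_left _ _)
  have h5 := h3 (y := a) (by rw [Real.dist_eq, sub_zero, abs_of_pos ha]; linarith) ha.ne'
  rw [slope_def_field, h0, sub_zero, sub_zero] at h5
  have := mul_pos h5 ha
  rwa [div_mul_cancel₀ _ ha.ne'] at this

/-- the areas of the lens -/
theorem D_pos : ∃ m₀ > 0, ∀ θ θ', 0 < θ → θ < I.m → I.m < θ' → θ' < I.N → I.y θ = I.y θ' →
    0 < I.g₀ θ - I.g₀ θ' ∧ m₀ * (I.g₁ θ - I.g₁ θ') ≤ I.g₀ θ - I.g₀ θ' := by
  have hR := I.Rm_pos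
  have hm := I.m_pos
  have hmN := I.m_lt
  obtain ⟨A, hA, hA'⟩ := exists_inverse (by linarith : (0 : ℝ) ≤ I.m) I.y_smooth.continuous I.y_mono
  have hanti : StrictMonoOn (fun u => I.y (-u)) (Set.Icc (-I.N) (-I.m)) := by
    intro u hu v hv huv
    exact I.y_anti ⟨by linarith [hv.2], by linarith [hv.1]⟩ ⟨by linarith [hu.2], by linarith [hu.1]⟩
      (by linarith)
  obtain ⟨B, hB, hB'⟩ := exists_inverse (by linarith : -I.N ≤ -I.m)
    (I.y_smooth.continuous.comp continuous_neg) hanti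
  simp only [Function.comp_apply, neg_neg] at hB hB'
  rw [I.y_zero, I.y_m] at hA hA'
  rw [I.y_N, I.y_m] at hB hB'
  -- uniqueness
  have hAu : ∀ θ, 0 ≤ θ → θ ≤ I.m → ∀ t ∈ Set.Icc (-I.Rm) I.Rm, I.y θ = t → A t = θ := by
    intro θ h1 h2 t ht h3
    exact I.y_mono.injOn (hA' t ht).1 ⟨h1, h2⟩ (by rw [(hA' t ht).2, h3])
  have hBu : ∀ θ, I.m ≤ θ → θ ≤ I.N → ∀ t ∈ Set.Icc (-I.Rm) I.Rm, I.y θ = t → -B t = θ := by
    intro θ h1 h2 t ht h3
    have h4 := (hB' t ht).1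
    exact I.y_anti.injOn ⟨by linarith [h4.2], by linarith [h4.1]⟩ ⟨h1, h2⟩ (by rw [(hB' t ht).2, h3])
  -- positions
  have hAi : ∀ t, -I.Rm < t → t < I.Rm → 0 < A t ∧ A t < I.m := by
    intro t h1 h2
    obtain ⟨h3, h4⟩ := hA' t ⟨h1.le, h2.le⟩
    constructor
    · rcases eq_or_lt_of_le h3.1 with h | h
      · rw [← h, I.y_zero] at h4; linarith
      · exact h
    · rcases eq_or_lt_of_le h3.2 with h | h
      · rw [h, I.y_m] at h4; linarith
      · exact h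
  have hBi : ∀ t, -I.Rm < t → t < I.Rm → I.m < -B t ∧ -B t < I.N := by
    intro t h1 h2
    obtain ⟨h3, h4⟩ := hB' t ⟨h1.le, h2.le⟩
    constructor
    · rcases eq_or_lt_of_le h3.2 with h | h
      · rw [h, neg_neg, I.y_m] at h4; linarith
      · linarith
    · rcases eq_or_lt_of_le h3.1 with h | h
      · rw [← h, neg_neg, I.y_N] at h4; linarith
      · linarith
  -- derivatives along the two arcs
  have hder : ∀ (G X : ℝ → ℝ), (∀ θ, HasDerivAt G (X θ * deriv I.y θ) θ) → ∀ t, -I.Rm < t → t < I.Rm →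
      HasDerivAt (fun t => G (A t) - G (-B t)) (X (A t) - X (-B t)) t := by
    intro G X hG t h1 h2
    have hn : Set.Icc (-I.Rm) I.Rm ∈ nhds t := Icc_mem_nhds h1 h2
    obtain ⟨h3, h4⟩ := hAi t h1 h2
    obtain ⟨h5, h6⟩ := hBi t h1 h2
    have hAd : HasDerivAt A (deriv I.y (A t))⁻¹ t := by
      refine HasDerivAt.of_local_left_inverse (hA.continuousAt hn) (I.hasDerivAt_y _)
        (I.y_incr _ h3 h4).ne' ?_
      filter_upwards [hn] with s hs
      exact (hA' s hs).2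
    have hBd : HasDerivAt (fun s => -B s) (deriv I.y (-B t))⁻¹ t := by
      refine HasDerivAt.of_local_left_inverse (hB.neg.continuousAt hn) (I.hasDerivAt_y _)
        (I.y_decr _ h5 h6).ne ?_
      filter_upwards [hn] with s hs
      exact (hB' s hs).2
    have h7 := ((hG (A t)).comp t hAd).sub ((hG (-B t)).comp t hBd)
    have e1 : X (A t) * deriv I.y (A t) * (deriv I.y (A t))⁻¹ = X (A t) := by
      have := (I.y_incr _ h3 h4).ne'
      field_simp
    have e2 : X (-B t) * deriv I.y (-B t) * (deriv I.y (-B t))⁻¹ = X (-B t) := by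
      have := (I.y_decr _ h5 h6).ne
      field_simp
    rw [e1, e2] at h7
    exact h7
  set D : ℝ → ℝ := fun t => I.g₀ (A t) - I.g₀ (-B t) with hD
  set E : ℝ → ℝ := fun t => I.g₁ (A t) - I.g₁ (-B t) with hE
  have hDc : ContinuousOn D (Set.Icc (-I.Rm) I.Rm) :=
    (I.g₀_smooth.continuous.comp_continuousOn hA).sub (I.g₀_smooth.continuous.comp_continuousOn hB.neg)
  have hEc : ContinuousOn E (Set.Icc (-I.Rm) I.Rm) :=
    (I.g₁_smooth.continuous.comp_continuousOn hA).sub (I.g₁_smooth.continuous.comp_continuousOn hB.neg)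
  have hDd : ∀ t, -I.Rm < t → t < I.Rm → HasDerivAt D (I.x (A t) - I.x (-B t)) t := hder I.g₀ I.x I.hasDerivAt_g₀
  have hEd : ∀ t, -I.Rm < t → t < I.Rm → HasDerivAt E (I.x₁ (A t) - I.x₁ (-B t)) t :=
    hder I.g₁ I.x₁ I.hasDerivAt_g₁
  have hww : ∀ t, -I.Rm < t → t < I.Rm → I.w (-B t) = -I.w (A t) := by
    intro t h1 h2
    obtain ⟨h3, h4⟩ := hAi t h1 h2
    obtain ⟨h5, h6⟩ := hBi t h1 h2
    rw [I.w_one h3 h4, I.w_two h5 h6, (hA' t ⟨h1.le, h2.le⟩).2, (hB' t ⟨h1.le, h2.le⟩).2]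
  have hEd' : ∀ t, -I.Rm < t → t < I.Rm → HasDerivAt E (-(2 * I.w (A t) * t)) t := by
    intro t h1 h2
    have h3 := hEd t h1 h2
    have e : I.x₁ (A t) - I.x₁ (-B t) = -(2 * I.w (A t) * t) := by
      simp only [x₁]
      rw [hww t h1 h2, (hA' t ⟨h1.le, h2.le⟩).2, (hB' t ⟨h1.le, h2.le⟩).2]
      ring
    rwa [e] at h3
  have eA0 : A (-I.Rm) = 0 := hAu 0 le_rfl (by linarith) _ ⟨le_rfl, by linarith⟩ I.y_zero
  have eB0 : -B (-I.Rm) = I.N := hBu I.N (by linarith) le_rfl _ ⟨le_rfl, by linarith⟩ I.y_N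
  have eA1 : A I.Rm = I.m := hAu I.m (by linarith) le_rfl _ ⟨by linarith, le_rfl⟩ I.y_m
  have eB1 : -B I.Rm = I.m := hBu I.m le_rfl (by linarith) _ ⟨by linarith, le_rfl⟩ I.y_m
  have hD0 : D (-I.Rm) = 0 := by
    simp only [hD]
    rw [eA0, eB0]
    have := I.g₀_per 0
    rw [zero_add] at this
    rw [this]; ring
  have hE0 : E (-I.Rm) = 0 := by
    simp only [hE]
    rw [eA0, eB0]
    have := I.g₁_per 0
    rw [zero_add] at this
    rw [this]; ring
  have hD1 : D I.Rm = 0 := by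
    simp only [hD]
    rw [eA1, eB1]; ring
  have hE1 : E I.Rm = 0 := by
    simp only [hE]
    rw [eA1, eB1]; ring
  -- positivity: at a minimum which is `≤ 0` the arcs cross
  have hcrit : ∀ t, -I.Rm < t → t < I.Rm → (∀ s ∈ Set.Icc (-I.Rm) I.Rm, D t ≤ D s) → 0 < D t := by
    intro t h1 h2 h3
    have hn : Set.Icc (-I.Rm) I.Rm ∈ nhds t := Icc_mem_nhds h1 h2
    have hloc : IsLocalMin D t := by
      filter_upwards [hn] with s hs
      exact h3 s hs
    have h4 := hloc.hasDerivAt_eq_zero (hDd t h1 h2)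
    obtain ⟨h5, h6⟩ := hAi t h1 h2
    obtain ⟨h7, h8⟩ := hBi t h1 h2
    have e1 := (hA' t ⟨h1.le, h2.le⟩).2
    have e2 := (hB' t ⟨h1.le, h2.le⟩).2
    have h9 := I.cross _ _ h5 h6 h7 h8 (by rw [e1, e2]) (by linarith)
    simp only [hD, g₀]
    rw [e1, e2]
    have e3 : I.x (A t) = I.x (-B t) := by linarith
    rw [e3]
    linarith
  have hpos : ∀ t, -I.Rm < t → t < I.Rm → 0 < D t := by
    intro t h1 h2
    obtain ⟨tm, htm, hmin⟩ := isCompact_Icc.exists_isMinOn (s := Set.Icc (-I.Rm) I.Rm)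
      ⟨0, by constructor <;> linarith⟩ hDc
    have hmin' : ∀ s ∈ Set.Icc (-I.Rm) I.Rm, D tm ≤ D s := fun s hs => hmin hs
    by_contra hcon
    rw [not_lt] at hcon
    rcases eq_or_lt_of_le htm.1 with h3 | h3
    · have h4 : D tm = 0 := by rw [← h3, hD0]
      have := hcrit t h1 h2 (fun s hs => by have := hmin' s hs; linarith)
      linarith
    rcases eq_or_lt_of_le htm.2 with h4 | h4
    · have h5 : D tm = 0 := by rw [h4, hD1]
      have := hcrit t h1 h2 (fun s hs => by have := hmin' s hs; linarith)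
      linarith
    · have h5 := hcrit tm h3 h4 hmin'
      have h6 := hmin' t ⟨h1.le, h2.le⟩
      linarith
  have hEle : ∀ t, -I.Rm < t → t < I.Rm → 0 ≤ E t ∧ E t ≤ 2 * I.Rm ^ 3 / 3 := by
    intro t h1 h2
    obtain ⟨h5, h6⟩ := hAi t h1 h2
    have hw := I.w_pos h5 h6
    have hwR : I.w (A t) ≤ I.Rm := by
      have := I.w_sq (A t)
      exact le_of_sq_le_sq (by nlinarith [sq_nonneg (I.y (A t))]) hR.le
    have e : E t = 2 * I.w (A t) ^ 3 / 3 := by
      simp only [hE, g₁]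
      rw [hww t h1 h2]; ring
    rw [e]
    have := pow_le_pow_left₀ hw.le hwR 3
    constructor
    · positivity
    · linarith
  -- the lower end
  obtain ⟨c₁, hc₁, t₁, ht₁, ht₁', hlow⟩ : ∃ c > 0, ∃ t₁, -I.Rm < t₁ ∧ t₁ < I.Rm ∧
      ∀ t, -I.Rm ≤ t → t ≤ t₁ → c * E t ≤ D t := by
    have hw0 := I.dw_zero
    have hx0 := I.x_min
    set c := deriv I.x 0 / (2 * (deriv I.w 0 * I.Rm)) with hc
    have hcp : 0 < c := by positivity
    have h1 : HasDerivAt (fun a => I.x a - I.x (-a) - c * (2 * I.w a * I.Rm)) (deriv I.x 0) 0 := by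
      have k1 := I.hasDerivAt_x 0
      have k2 : HasDerivAt (fun a : ℝ => I.x (-a)) (-deriv I.x 0) 0 := by
        have k3 : HasDerivAt I.x (deriv I.x 0) (-(0 : ℝ)) := by rw [neg_zero]; exact k1
        have k4 := k3.comp (0 : ℝ) (hasDerivAt_neg (0 : ℝ))
        rw [mul_neg_one] at k4
        exact k4
      have k5 := (k1.sub k2).sub ((((I.hasDerivAt_w 0).const_mul 2).mul_const I.Rm).const_mul c)
      have e : deriv I.x 0 - -deriv I.x 0 - c * (2 * deriv I.w 0 * I.Rm) = deriv I.x 0 := by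
        rw [hc]
        field_simp
        ring
      rw [e] at k5
      exact k5
    obtain ⟨δ, hδ, hδ', h2⟩ := pos_right h1 (by rw [neg_zero, I.w_zero]; ring) hx0
    refine ⟨c, hcp, I.y δ, (I.y_lt1 hδ (by linarith)).1, (I.y_lt1 hδ (by linarith)).2, ?_⟩
    have hyδ := I.y_lt1 hδ (show δ < I.m by linarith)
    have hmono : MonotoneOn (fun t => D t - c * E t) (Set.Icc (-I.Rm) (I.y δ)) := by
      have hcont : ContinuousOn (fun t => D t - c * E t) (Set.Icc (-I.Rm) (I.y δ)) :=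
        (hDc.sub (continuousOn_const.mul hEc)).mono (Set.Icc_subset_Icc_right hyδ.2.le)
      apply monotoneOn_of_deriv_nonneg (convex_Icc _ _) hcont
      · intro t ht
        rw [interior_Icc] at ht
        exact (((hDd t ht.1 (lt_trans ht.2 hyδ.2)).sub
          ((hEd' t ht.1 (lt_trans ht.2 hyδ.2)).const_mul c)).differentiableAt).differentiableWithinAt
      · intro t ht
        rw [interior_Icc] at ht
        have h3 : t < I.Rm := lt_trans ht.2 hyδ.2
        have h4 := ((hDd t ht.1 h3).sub ((hEd' t ht.1 h3).const_mul c)).deriv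
        have h4' : deriv (fun t => D t - c * E t) t = I.x (A t) - I.x (-B t) - c * -(2 * I.w (A t) * t) := h4
        rw [h4']
        obtain ⟨h5, h6⟩ := hAi t ht.1 h3
        have h7 : A t ≤ δ := by
          by_contra hcon
          rw [not_le] at hcon
          have := I.y_mono ⟨hδ.le, by linarith⟩ ⟨h5.le, h6.le⟩ hcon
          rw [(hA' t ⟨ht.1.le, h3.le⟩).2] at this
          linarith [ht.2]
        have h8 : -B t = I.N - A t := by
          apply hBu _ (by linarith) (by linarith) t ⟨ht.1.le, h3.le⟩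
          have e1 : I.N - A t = -A t + I.N := by ring
          rw [e1, I.y_per, I.y_min (-A t) (by rw [abs_neg, abs_of_pos h5]; linarith), μ.Q_neg,
            ← I.y_min (A t) (by rw [abs_of_pos h5]; linarith)]
          exact (hA' t ⟨ht.1.le, h3.le⟩).2
        have h9 : I.x (-B t) = I.x (-A t) := by
          have e1 : I.N - A t = -A t + I.N := by ring
          rw [h8, e1, I.x_per]
        have h10 := h2 (A t) h5 h7
        have h11 := I.w_pos h5 h6
        have h12 : 0 ≤ c * (2 * I.w (A t) * (I.Rm + t)) := by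
          have : 0 < I.Rm + t := by linarith [ht.1]
          positivity
        rw [h9]
        linarith
    intro t h3 h4
    have := hmono ⟨le_rfl, hyδ.1.le⟩ ⟨h3, h4⟩ h3
    simp only [hD0, hE0, mul_zero, sub_zero] at this
    linarith
  -- the upper end
  obtain ⟨c₂, hc₂, t₂, ht₂, ht₂', hupp⟩ : ∃ c > 0, ∃ t₂, -I.Rm < t₂ ∧ t₂ < I.Rm ∧
      ∀ t, t₂ ≤ t → t ≤ I.Rm → c * E t ≤ D t := by
    have hw0 := I.dw_m
    have hx0 := I.x_max
    set c := deriv I.x I.m / (2 * (-deriv I.w I.m * I.Rm)) with hc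
    have hcp : 0 < c := by
      have : 0 < -deriv I.w I.m := by linarith
      positivity
    have h1 : HasDerivAt (fun a => I.x (I.m + a) - I.x (I.m - a) - c * (2 * I.w (I.m - a) * I.Rm)) (deriv I.x I.m) 0 := by
      have ke1 : HasDerivAt (fun a : ℝ => I.m + a) 1 0 := by simpa using (hasDerivAt_id (0 : ℝ)).const_add I.m
      have ke2 : HasDerivAt (fun a : ℝ => I.m - a) (-1) 0 := by simpa using (hasDerivAt_id (0 : ℝ)).const_sub I.m
      have k1 : HasDerivAt (fun a : ℝ => I.x (I.m + a)) (deriv I.x I.m) 0 := by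
        have k3 : HasDerivAt I.x (deriv I.x I.m) (I.m + 0) := by rw [add_zero]; exact I.hasDerivAt_x I.m
        have k4 := k3.comp (0 : ℝ) ke1
        rw [mul_one] at k4
        exact k4
      have k2 : HasDerivAt (fun a : ℝ => I.x (I.m - a)) (-deriv I.x I.m) 0 := by
        have k3 : HasDerivAt I.x (deriv I.x I.m) (I.m - 0) := by rw [sub_zero]; exact I.hasDerivAt_x I.m
        have k4 := k3.comp (0 : ℝ) ke2
        rw [mul_neg_one] at k4
        exact k4
      have k3 : HasDerivAt (fun a : ℝ => I.w (I.m - a)) (-deriv I.w I.m) 0 := by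
        have k3 : HasDerivAt I.w (deriv I.w I.m) (I.m - 0) := by rw [sub_zero]; exact I.hasDerivAt_w I.m
        have k4 := k3.comp (0 : ℝ) ke2
        rw [mul_neg_one] at k4
        exact k4
      have k5 := (k1.sub k2).sub (((k3.const_mul 2).mul_const I.Rm).const_mul c)
      have e' : c * (2 * -deriv I.w I.m * I.Rm) = deriv I.x I.m := by
        have h3 : 0 < -deriv I.w I.m := by linarith
        rw [hc, div_mul_eq_mul_div, div_eq_iff (by positivity)]
        ring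
      have e : deriv I.x I.m - -deriv I.x I.m - c * (2 * -deriv I.w I.m * I.Rm) = deriv I.x I.m := by
        rw [e']
        ring
      rw [e] at k5
      exact k5
    obtain ⟨δ, hδ, hδ', h2⟩ := pos_right h1 (by rw [add_zero, sub_zero, I.w_m]; ring) hx0
    have hyδ := I.y_lt1 (show 0 < I.m - δ by linarith) (show I.m - δ < I.m by linarith)
    refine ⟨c, hcp, I.y (I.m - δ), hyδ.1, hyδ.2, ?_⟩
    have hmono : AntitoneOn (fun t => D t - c * E t) (Set.Icc (I.y (I.m - δ)) I.Rm) := by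
      have hcont : ContinuousOn (fun t => D t - c * E t) (Set.Icc (I.y (I.m - δ)) I.Rm) :=
        (hDc.sub (continuousOn_const.mul hEc)).mono (Set.Icc_subset_Icc_left hyδ.1.le)
      apply antitoneOn_of_deriv_nonpos (convex_Icc _ _) hcont
      · intro t ht
        rw [interior_Icc] at ht
        exact (((hDd t (lt_trans hyδ.1 ht.1) ht.2).sub
          ((hEd' t (lt_trans hyδ.1 ht.1) ht.2).const_mul c)).differentiableAt).differentiableWithinAt
      · intro t ht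
        rw [interior_Icc] at ht
        have h3 : -I.Rm < t := lt_trans hyδ.1 ht.1
        have h4 := ((hDd t h3 ht.2).sub ((hEd' t h3 ht.2).const_mul c)).deriv
        have h4' : deriv (fun t => D t - c * E t) t = I.x (A t) - I.x (-B t) - c * -(2 * I.w (A t) * t) := h4
        rw [h4']
        obtain ⟨h5, h6⟩ := hAi t h3 ht.2
        have h7 : I.m - δ ≤ A t := by
          by_contra hcon
          rw [not_le] at hcon
          have := I.y_mono ⟨h5.le, h6.le⟩ ⟨by linarith, by linarith⟩ hcon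
          rw [(hA' t ⟨h3.le, ht.2.le⟩).2] at this
          linarith [ht.1]
        set a := I.m - A t with ha
        have ha0 : 0 < a := by linarith
        have haδ : a ≤ δ := by linarith
        have eAt : A t = I.m - a := by rw [ha]; ring
        have h8 : -B t = I.m + a := by
          apply hBu _ (by linarith) (by linarith) t ⟨h3.le, ht.2.le⟩
          rw [I.y_max a (by rw [abs_of_pos ha0]; linarith), ← μ.Q_neg, ← I.y_max (-a)
            (by rw [abs_neg, abs_of_pos ha0]; linarith), ← sub_eq_add_neg, ← eAt]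
          exact (hA' t ⟨h3.le, ht.2.le⟩).2
        have h10 := h2 a ha0 haδ
        have h11 := I.w_pos h5 h6
        have h12 : 0 ≤ c * (2 * I.w (A t) * (I.Rm - t)) := by
          have : 0 < I.Rm - t := by linarith [ht.2]
          positivity
        rw [← h8, ← eAt] at h10
        linarith
    intro t h3 h4
    have := hmono ⟨h3, h4⟩ ⟨hyδ.2.le, le_rfl⟩ h4
    simp only [hD1, hE1, mul_zero, sub_zero] at this
    linarith
  -- the middle
  obtain ⟨d, hd, hmid⟩ : ∃ d > 0, ∀ t, t₁ ≤ t → t ≤ t₂ → d ≤ D t := by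
    rcases le_or_gt t₁ t₂ with h1 | h1
    · have hsub : Set.Icc t₁ t₂ ⊆ Set.Icc (-I.Rm) I.Rm := Set.Icc_subset_Icc ht₁.le ht₂'.le
      obtain ⟨tm, htm, hmin⟩ := isCompact_Icc.exists_isMinOn (s := Set.Icc t₁ t₂) ⟨t₁, le_rfl, h1⟩ (hDc.mono hsub)
      exact ⟨D tm, hpos tm (lt_of_lt_of_le ht₁ htm.1) (lt_of_le_of_lt htm.2 ht₂'), fun t h2 h3 => hmin ⟨h2, h3⟩⟩
    · exact ⟨1, one_pos, fun t h2 h3 => by linarith⟩
  have hR3 : 0 < 2 * I.Rm ^ 3 / 3 := by positivity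
  refine ⟨min (min c₁ c₂) (d / (2 * I.Rm ^ 3 / 3)), lt_min (lt_min hc₁ hc₂) (by positivity), ?_⟩
  intro θ θ' h1 h2 h3 h4 h5
  obtain ⟨h6, h7⟩ := I.y_lt1 h1 h2
  have e1 : A (I.y θ) = θ := hAu θ h1.le h2.le _ ⟨h6.le, h7.le⟩ rfl
  have e2 : -B (I.y θ) = θ' := hBu θ' h3.le h4.le _ ⟨h6.le, h7.le⟩ h5.symm
  have e3 : I.g₀ θ - I.g₀ θ' = D (I.y θ) := by
    simp only [hD]
    rw [e1, e2]
  have e4 : I.g₁ θ - I.g₁ θ' = E (I.y θ) := by
    simp only [hE]
    rw [e1, e2]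
  rw [e3, e4]
  refine ⟨hpos _ h6 h7, ?_⟩
  obtain ⟨hE0', hE1'⟩ := hEle _ h6 h7
  rcases le_or_gt (I.y θ) t₁ with h8 | h8
  · refine le_trans ?_ (hlow _ h6.le h8)
    exact mul_le_mul_of_nonneg_right ((min_le_left _ _).trans (min_le_left _ _)) hE0'
  rcases le_or_gt t₂ (I.y θ) with h9 | h9
  · refine le_trans ?_ (hupp _ h9 h7.le)
    exact mul_le_mul_of_nonneg_right ((min_le_left _ _).trans (min_le_right _ _)) hE0'
  · refine le_trans ?_ (hmid _ h8.le h9.le)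
    calc min (min c₁ c₂) (d / (2 * I.Rm ^ 3 / 3)) * E (I.y θ)
        ≤ d / (2 * I.Rm ^ 3 / 3) * (2 * I.Rm ^ 3 / 3) :=
          mul_le_mul (min_le_right _ _) hE1' hE0' (by positivity)
      _ = d := by
        field_simp

end TopIn

section frame

variable (a b l x x₁ y g g₁ : ℝ → ℝ)

/-- first coordinate -/
noncomputable def frX (p : ℝ × ℝ) : ℝ := (a p.2 * x p.1 + b p.2 * x₁ p.1) * (l p.2)⁻¹

/-- last coordinate -/
noncomputable def frT (p : ℝ × ℝ) : ℝ :=
  -(deriv a p.2 * g p.1 + deriv b p.2 * g₁ p.1) + frX a b l x x₁ p * (deriv l p.2 * y p.1)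

/-- the map -/
noncomputable def frC (p : ℝ × ℝ) : P4 := (frX a b l x x₁ p, p.2, l p.2 * y p.1, frT a b l x x₁ y g g₁ p)

/-- the primitive -/
noncomputable def frP (p : ℝ × ℝ) : ℝ :=
  -(a p.2 * g p.1 + b p.2 * g₁ p.1) + frX a b l x x₁ p * (l p.2 * y p.1)

variable {a b l x x₁ y g g₁}

theorem hasFDerivAt_prod_mul {u c : ℝ → ℝ} {u' c' : ℝ} {p : ℝ × ℝ} (hu : HasDerivAt u u' p.1)
    (hc : HasDerivAt c c' p.2) :
    HasFDerivAt (fun q : ℝ × ℝ => c q.2 * u q.1)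
      ((c p.2 * u') • ContinuousLinearMap.fst ℝ ℝ ℝ + (c' * u p.1) • ContinuousLinearMap.snd ℝ ℝ ℝ) p := by
  have h1 : HasFDerivAt (fun q : ℝ × ℝ => u q.1) (u' • ContinuousLinearMap.fst ℝ ℝ ℝ) p :=
    hu.comp_hasFDerivAt p hasFDerivAt_fst
  have h2 : HasFDerivAt (fun q : ℝ × ℝ => c q.2) (c' • ContinuousLinearMap.snd ℝ ℝ ℝ) p :=
    hc.comp_hasFDerivAt p hasFDerivAt_snd
  have h3 := h2.mul h1
  refine h3.congr_fderiv ?_
  ext <;> simp [mul_comm]

theorem frC_smooth {J : Set ℝ} (hJ : IsOpen J) (ha : ContDiffOn ℝ ∞ a J) (hb : ContDiffOn ℝ ∞ b J)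
    (hl : ContDiffOn ℝ ∞ l J) (hl0 : ∀ s ∈ J, l s ≠ 0) (hx : ContDiff ℝ ∞ x) (hx₁ : ContDiff ℝ ∞ x₁)
    (hy : ContDiff ℝ ∞ y) (hg : ContDiff ℝ ∞ g) (hg₁ : ContDiff ℝ ∞ g₁) :
    ContDiffOn ℝ ∞ (frX a b l x x₁) {p : ℝ × ℝ | p.2 ∈ J} ∧
    ContDiffOn ℝ ∞ (frT a b l x x₁ y g g₁) {p : ℝ × ℝ | p.2 ∈ J} ∧
    ContDiffOn ℝ ∞ (frC a b l x x₁ y g g₁) {p : ℝ × ℝ | p.2 ∈ J} ∧
    ContDiffOn ℝ ∞ (frP a b l x x₁ y g g₁) {p : ℝ × ℝ | p.2 ∈ J} := by
  have hs : ∀ {f : ℝ → ℝ}, ContDiffOn ℝ ∞ f J → ContDiffOn ℝ ∞ (fun p : ℝ × ℝ => f p.2) {p : ℝ × ℝ | p.2 ∈ J} := by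
    intro f hf
    exact hf.comp contDiff_snd.contDiffOn (fun p hp => hp)
  have ht : ∀ {f : ℝ → ℝ}, ContDiff ℝ ∞ f → ContDiffOn ℝ ∞ (fun p : ℝ × ℝ => f p.1) {p : ℝ × ℝ | p.2 ∈ J} := by
    intro f hf
    exact (hf.comp contDiff_fst).contDiffOn
  have hd : ∀ {f : ℝ → ℝ}, ContDiffOn ℝ ∞ f J → ContDiffOn ℝ ∞ (deriv f) J := by
    intro f hf
    exact hf.deriv_of_isOpen hJ (by simp)
  have h1 : ContDiffOn ℝ ∞ (frX a b l x x₁) {p : ℝ × ℝ | p.2 ∈ J} := by
    unfold frX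
    exact (((hs ha).mul (ht hx)).add ((hs hb).mul (ht hx₁))).mul ((hs hl).inv (fun p hp => hl0 _ hp))
  have h2 : ContDiffOn ℝ ∞ (frT a b l x x₁ y g g₁) {p : ℝ × ℝ | p.2 ∈ J} := by
    unfold frT
    exact (((hs (hd ha)).mul (ht hg)).add ((hs (hd hb)).mul (ht hg₁))).neg.add
      (h1.mul ((hs (hd hl)).mul (ht hy)))
  refine ⟨h1, h2, ?_, ?_⟩
  · unfold frC
    exact h1.prodMk (contDiff_snd.contDiffOn.prodMk (((hs hl).mul (ht hy)).prodMk h2))
  · unfold frP
    exact (((hs ha).mul (ht hg)).add ((hs hb).mul (ht hg₁))).neg.add (h1.mul ((hs hl).mul (ht hy)))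

theorem frC_deriv {J : Set ℝ} (hJ : IsOpen J) (ha : ContDiffOn ℝ ∞ a J) (hb : ContDiffOn ℝ ∞ b J)
    (hl : ContDiffOn ℝ ∞ l J) (hl0 : ∀ s ∈ J, l s ≠ 0) (hx : ContDiff ℝ ∞ x) (hx₁ : ContDiff ℝ ∞ x₁)
    (hy : ContDiff ℝ ∞ y) (hg : ContDiff ℝ ∞ g) (hg₁ : ContDiff ℝ ∞ g₁)
    (hgd : ∀ θ, HasDerivAt g (x θ * deriv y θ) θ) (hgd₁ : ∀ θ, HasDerivAt g₁ (x₁ θ * deriv y θ) θ)
    {p : ℝ × ℝ} (hp : p.2 ∈ J)
    (hi : deriv y p.1 ≠ 0 ∨ a p.2 * deriv x p.1 + b p.2 * deriv x₁ p.1 ≠ 0) :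
    Function.Injective (fderiv ℝ (frC a b l x x₁ y g g₁) p) ∧
    ∀ v, fderiv ℝ (frP a b l x x₁ y g g₁) p v =
      (frC a b l x x₁ y g g₁ p).2.2.1 * (fderiv ℝ (frC a b l x x₁ y g g₁) p v).1 +
      (frC a b l x x₁ y g g₁ p).2.2.2 * (fderiv ℝ (frC a b l x x₁ y g g₁) p v).2.1 := by
  obtain ⟨h1, h2, -, -⟩ := frC_smooth hJ ha hb hl hl0 hx hx₁ hy hg hg₁
  have hO : {p : ℝ × ℝ | p.2 ∈ J} ∈ nhds p := (hJ.preimage continuous_snd).mem_nhds hp
  have hJn : J ∈ nhds p.2 := hJ.mem_nhds hp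
  have da : HasDerivAt a (deriv a p.2) p.2 :=
    ((ha.differentiableOn (by simp)).differentiableAt hJn).hasDerivAt
  have db : HasDerivAt b (deriv b p.2) p.2 :=
    ((hb.differentiableOn (by simp)).differentiableAt hJn).hasDerivAt
  have dl : HasDerivAt l (deriv l p.2) p.2 :=
    ((hl.differentiableOn (by simp)).differentiableAt hJn).hasDerivAt
  have dx : HasDerivAt x (deriv x p.1) p.1 := (hx.differentiable (by simp) _).hasDerivAt
  have dx₁ : HasDerivAt x₁ (deriv x₁ p.1) p.1 := (hx₁.differentiable (by simp) _).hasDerivAt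
  have dy : HasDerivAt y (deriv y p.1) p.1 := (hy.differentiable (by simp) _).hasDerivAt
  have hl1 : l p.2 ≠ 0 := hl0 _ hp
  have e1 : HasFDerivAt (fun q : ℝ × ℝ => (l q.2)⁻¹)
      ((-deriv l p.2 / l p.2 ^ 2) • ContinuousLinearMap.snd ℝ ℝ ℝ) p :=
    (dl.inv hl1).comp_hasFDerivAt p hasFDerivAt_snd
  have eX := ((hasFDerivAt_prod_mul dx da).add (hasFDerivAt_prod_mul dx₁ db)).mul e1
  have eX' : HasFDerivAt (frX a b l x x₁) (fderiv ℝ (frX a b l x x₁) p) p :=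
    ((h1.differentiableOn (by simp)).differentiableAt hO).hasFDerivAt
  have eT' : HasFDerivAt (frT a b l x x₁ y g g₁) (fderiv ℝ (frT a b l x x₁ y g g₁) p) p :=
    ((h2.differentiableOn (by simp)).differentiableAt hO).hasFDerivAt
  have eXX := eX'.unique eX
  have eY := hasFDerivAt_prod_mul dy dl
  have eG := ((hasFDerivAt_prod_mul (hgd p.1) da).add (hasFDerivAt_prod_mul (hgd₁ p.1) db)).neg
  have eP : HasFDerivAt (frP a b l x x₁ y g g₁) _ p := eG.add (eX'.mul eY)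
  have eC : HasFDerivAt (frC a b l x x₁ y g g₁) _ p := eX'.prodMk (hasFDerivAt_snd.prodMk (eY.prodMk eT'))
  rw [eC.fderiv, eP.fderiv]
  constructor
  · rw [injective_iff_map_eq_zero]
    rintro ⟨v₁, v₂⟩ hv
    rw [ContinuousLinearMap.prod_apply, ContinuousLinearMap.prod_apply, ContinuousLinearMap.prod_apply,
      Prod.mk_eq_zero, Prod.mk_eq_zero, Prod.mk_eq_zero] at hv
    obtain ⟨hv1, hv2, hv3, -⟩ := hv
    simp only [ContinuousLinearMap.coe_snd'] at hv2
    subst hv2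
    simp only [add_apply, smul_apply, ContinuousLinearMap.coe_fst',
      ContinuousLinearMap.coe_snd', smul_eq_mul, mul_zero, add_zero] at hv3
    rw [eXX] at hv1
    simp only [add_apply, smul_apply, ContinuousLinearMap.coe_fst',
      ContinuousLinearMap.coe_snd', smul_eq_mul, mul_zero, add_zero, zero_add] at hv1
    rw [Prod.mk_eq_zero]
    refine ⟨?_, rfl⟩
    rcases hi with hi | hi
    · rcases mul_eq_zero.1 hv3 with h | h
      · rcases mul_eq_zero.1 h with h | h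
        · exact absurd h hl1
        · exact absurd h hi
      · exact h
    · have h3 : (l p.2)⁻¹ * ((a p.2 * deriv x p.1 + b p.2 * deriv x₁ p.1) * v₁) = 0 := by
        rw [← hv1]; ring
      rcases mul_eq_zero.1 h3 with h | h
      · exact absurd h (inv_ne_zero hl1)
      rcases mul_eq_zero.1 h with h | h
      · exact absurd h hi
      · exact h
  · rintro ⟨v₁, v₂⟩
    simp only [ContinuousLinearMap.prod_apply, frC, add_apply, smul_apply,
      ContinuousLinearMap.coe_fst', ContinuousLinearMap.coe_snd', smul_eq_mul, neg_apply, frT]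
    have h4 : frX a b l x x₁ p * l p.2 = a p.2 * x p.1 + b p.2 * x₁ p.1 := by
      unfold frX
      field_simp
    have h5 : frX a b l x x₁ p * (l p.2 * deriv y p.1 * v₁) =
        (a p.2 * x p.1 + b p.2 * x₁ p.1) * (deriv y p.1 * v₁) := by rw [← h4]; ring
    linear_combination h5

end frame

namespace TopIn

/-! ### the functions of the time -/

section time

variable (s₀ Λ K R : ℝ)

/-- cutoff -/
noncomputable def ps (s : ℝ) : ℝ := 1 - Real.smoothTransition (4 * (s - s₀) - 1)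

/-- `√(sT - s)` -/
noncomputable def rs (s : ℝ) : ℝ := Real.sqrt (s₀ + 1 - s)

/-- weight of the curve `x` -/
noncomputable def ta (s : ℝ) : ℝ := ps s₀ s * (Λ - (s - s₀))

/-- weight of the curve `x₁` -/
noncomputable def tb (s : ℝ) : ℝ := K * rs s₀ s ^ 3 * (1 - ps s₀ s)

/-- the height factor -/
noncomputable def tl (s : ℝ) : ℝ := ps s₀ s * (Λ - (s - s₀)) + (1 - ps s₀ s) * (rs s₀ s / R)

variable {s₀ Λ K R}

theorem ps_smooth : ContDiff ℝ ∞ (ps s₀) := by
  unfold ps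
  exact contDiff_const.sub (Real.smoothTransition.contDiff.comp
    ((contDiff_const.mul (contDiff_id.sub contDiff_const)).sub contDiff_const))

theorem ps_left {s : ℝ} (h : s ≤ s₀ + 1 / 4) : ps s₀ s = 1 := by
  unfold ps
  rw [Real.smoothTransition.zero_of_nonpos (by linarith), sub_zero]

theorem ps_right {s : ℝ} (h : s₀ + 1 / 2 ≤ s) : ps s₀ s = 0 := by
  unfold ps
  rw [Real.smoothTransition.one_of_one_le (by linarith), sub_self]

theorem ps_nonneg (s : ℝ) : 0 ≤ ps s₀ s := by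
  unfold ps
  linarith [Real.smoothTransition.le_one (4 * (s - s₀) - 1)]

theorem ps_le_one (s : ℝ) : ps s₀ s ≤ 1 := by
  unfold ps
  linarith [Real.smoothTransition.nonneg (4 * (s - s₀) - 1)]

theorem ps_antitone : Antitone (ps s₀) := by
  intro s t hst
  unfold ps
  have := Real.smoothTransition.monotone (show 4 * (s - s₀) - 1 ≤ 4 * (t - s₀) - 1 by linarith)
  linarith

theorem hasDerivAt_ps (s : ℝ) : HasDerivAt (ps s₀) (deriv (ps s₀) s) s :=
  (ps_smooth.differentiable (by simp) s).hasDerivAt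

theorem dps_nonpos (s : ℝ) : deriv (ps s₀) s ≤ 0 := ps_antitone.deriv_nonpos

theorem dps_left {s : ℝ} (h : s < s₀ + 1 / 4) : deriv (ps s₀) s = 0 := by
  have h1 : ps s₀ =ᶠ[nhds s] fun _ => 1 := by
    filter_upwards [Iio_mem_nhds h] with t ht
    exact ps_left ht.le
  rw [h1.deriv_eq, deriv_const]

theorem dps_right {s : ℝ} (h : s₀ + 1 / 2 < s) : deriv (ps s₀) s = 0 := by
  have h1 : ps s₀ =ᶠ[nhds s] fun _ => 0 := by
    filter_upwards [Ioi_mem_nhds h] with t ht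
    exact ps_right (Set.mem_Ioi.1 ht).le
  rw [h1.deriv_eq, deriv_const]

theorem rs_pos {s : ℝ} (h : s < s₀ + 1) : 0 < rs s₀ s := Real.sqrt_pos.2 (by linarith)

theorem rs_sq {s : ℝ} (h : s ≤ s₀ + 1) : rs s₀ s ^ 2 = s₀ + 1 - s := Real.sq_sqrt (by linarith)

theorem rs_smooth : ContDiffOn ℝ ∞ (rs s₀) (Set.Iio (s₀ + 1)) := by
  unfold rs
  exact (contDiff_const.sub contDiff_id).contDiffOn.sqrt (fun s hs => by
    have : s < s₀ + 1 := hs
    simp only [id_eq]
    intro h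
    linarith)

theorem rs_cont : Continuous (rs s₀) := by
  unfold rs
  exact (continuous_const.sub continuous_id).sqrt

theorem hasDerivAt_rs {s : ℝ} (h : s < s₀ + 1) : HasDerivAt (rs s₀) (-1 / (2 * rs s₀ s)) s := by
  have h1 : HasDerivAt (fun t : ℝ => s₀ + 1 - t) (-1) s := by
    simpa using (hasDerivAt_id s).const_sub (s₀ + 1)
  exact h1.sqrt (by intro h2; linarith)

theorem ta_smooth : ContDiff ℝ ∞ (ta s₀ Λ) :=
  ps_smooth.mul (contDiff_const.sub (contDiff_id.sub contDiff_const))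

theorem tb_smooth : ContDiffOn ℝ ∞ (tb s₀ K) (Set.Iio (s₀ + 1)) :=
  (contDiffOn_const.mul (rs_smooth.pow 3)).mul (contDiffOn_const.sub ps_smooth.contDiffOn)

theorem tl_smooth : ContDiffOn ℝ ∞ (tl s₀ Λ R) (Set.Iio (s₀ + 1)) :=
  ta_smooth.contDiffOn.add ((contDiffOn_const.sub ps_smooth.contDiffOn).mul (rs_smooth.div_const R))

theorem hasDerivAt_ta (s : ℝ) :
    HasDerivAt (ta s₀ Λ) (deriv (ps s₀) s * (Λ - (s - s₀)) - ps s₀ s) s := by
  have h1 : HasDerivAt (fun t : ℝ => Λ - (t - s₀)) (-1) s := by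
    simpa using ((hasDerivAt_id s).sub_const s₀).const_sub Λ
  have h2 := (hasDerivAt_ps (s₀ := s₀) s).mul h1
  have e : deriv (ps s₀) s * (Λ - (s - s₀)) + ps s₀ s * -1 =
      deriv (ps s₀) s * (Λ - (s - s₀)) - ps s₀ s := by ring
  rw [e] at h2
  exact h2

theorem hasDerivAt_tb {s : ℝ} (h : s < s₀ + 1) : HasDerivAt (tb s₀ K)
    (-(3 / 2 * K * rs s₀ s * (1 - ps s₀ s)) - K * rs s₀ s ^ 3 * deriv (ps s₀) s) s := by
  have hr := rs_pos h
  have h1 := (((hasDerivAt_rs h).pow 3).const_mul K).mul ((hasDerivAt_ps (s₀ := s₀) s).const_sub 1)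
  have e : K * (↑(3 : ℕ) * rs s₀ s ^ (3 - 1) * (-1 / (2 * rs s₀ s))) * (1 - ps s₀ s) +
      K * rs s₀ s ^ 3 * -deriv (ps s₀) s =
      -(3 / 2 * K * rs s₀ s * (1 - ps s₀ s)) - K * rs s₀ s ^ 3 * deriv (ps s₀) s := by
    have h2 : (3 : ℕ) - 1 = 2 := rfl
    rw [h2]
    push_cast
    field_simp
    ring
  simp only [Pi.pow_apply] at h1
  rw [e] at h1
  exact h1

theorem tl_pos (hΛ : 1 ≤ Λ) (hR : 0 < R) {s : ℝ} (h : s < s₀ + 1) : 0 < tl s₀ Λ R s := by
  have h1 := rs_pos h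
  have h2 : 0 < rs s₀ s / R := div_pos h1 hR
  have h3 := ps_nonneg (s₀ := s₀) s
  have h4 := ps_le_one (s₀ := s₀) s
  unfold tl
  rcases lt_or_ge s (s₀ + 1 / 2) with h5 | h5
  · have h6 : 1 / 2 < Λ - (s - s₀) := by linarith
    rcases lt_or_ge 0 (ps s₀ s) with h7 | h7
    · have := mul_pos h7 (by linarith : 0 < Λ - (s - s₀))
      have := mul_nonneg (by linarith : 0 ≤ 1 - ps s₀ s) h2.le
      linarith
    · have h8 : ps s₀ s = 0 := le_antisymm h7 h3
      rw [h8]; linarith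
  · rw [ps_right h5]; linarith

end time

variable {μ : Moll} (I : TopIn μ)

/-- two points of the curve at the same height do not stay together -/
theorem no_double {m₀ K : ℝ} (hK : 0 < K) (hK1 : K ≤ m₀ / 2)
    (hD : ∀ θ θ', 0 < θ → θ < I.m → I.m < θ' → θ' < I.N → I.y θ = I.y θ' →
    0 < I.g₀ θ - I.g₀ θ' ∧ m₀ * (I.g₁ θ - I.g₁ θ') ≤ I.g₀ θ - I.g₀ θ')
    {θ θ' s : ℝ} (h1 : 0 < θ) (h2 : θ < I.m) (h3 : I.m < θ') (h4 : θ' < I.N) (hy : I.y θ = I.y θ')
    (hs : s < I.s₀ + 1)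
    (hX : frX (ta I.s₀ I.Λ) (tb I.s₀ K) (tl I.s₀ I.Λ I.Rm) I.x I.x₁ (θ, s) =
      frX (ta I.s₀ I.Λ) (tb I.s₀ K) (tl I.s₀ I.Λ I.Rm) I.x I.x₁ (θ', s))
    (hT : frT (ta I.s₀ I.Λ) (tb I.s₀ K) (tl I.s₀ I.Λ I.Rm) I.x I.x₁ I.y I.g₀ I.g₁ (θ, s) =
      frT (ta I.s₀ I.Λ) (tb I.s₀ K) (tl I.s₀ I.Λ I.Rm) I.x I.x₁ I.y I.g₀ I.g₁ (θ', s)) : False := by
  have hR := I.Rm_pos
  have hΛ := I.Λ_pos
  obtain ⟨hD1, hD2⟩ := hD θ θ' h1 h2 h3 h4 hy
  set D₀ := I.g₀ θ - I.g₀ θ' with hD₀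
  have hw : 0 < I.w θ := I.w_pos h1 h2
  have hw' : I.w θ' = -I.w θ := by rw [I.w_one h1 h2, I.w_two h3 h4, hy]
  have hr := rs_pos hs
  have hp0 := ps_nonneg (s₀ := I.s₀) s
  have hp1 := ps_le_one (s₀ := I.s₀) s
  have hdp := dps_nonpos (s₀ := I.s₀) s
  set D₁ := I.g₁ θ - I.g₁ θ' with hD₁
  have hD₁v : D₁ = 2 * I.w θ ^ 3 / 3 := by
    rw [hD₁]
    simp only [g₁]
    rw [hw']; ring
  have hD₁p : 0 < D₁ := by rw [hD₁v]; positivity
  have hKD2 : K * D₁ ≤ D₀ / 2 := by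
    have := mul_le_mul_of_nonneg_right hK1 hD₁p.le
    linarith
  -- the equation of the last coordinate
  have hT' : deriv (ta I.s₀ I.Λ) s * D₀ + deriv (tb I.s₀ K) s * D₁ = 0 := by
    simp only [frT] at hT
    rw [hX, ← hy] at hT
    rw [hD₀, hD₁]
    linear_combination -hT
  rw [(hasDerivAt_ta s).deriv, (hasDerivAt_tb hs).deriv] at hT'
  have hT2 : deriv (ps I.s₀) s * ((I.Λ - (s - I.s₀)) * D₀ - rs I.s₀ s ^ 3 * (K * D₁)) - ps I.s₀ s * D₀ -
      (1 - ps I.s₀ s) * (3 / 2 * rs I.s₀ s * (K * D₁)) = 0 := by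
    linear_combination hT'
  have hKD : 0 < K * D₁ := mul_pos hK hD₁p
  -- negativity of the last two terms
  have hneg : 0 < ps I.s₀ s * D₀ + (1 - ps I.s₀ s) * (3 / 2 * rs I.s₀ s * (K * D₁)) := by
    have h5 : 0 < 3 / 2 * rs I.s₀ s * (K * D₁) := by positivity
    rcases lt_or_ge 0 (ps I.s₀ s) with h6 | h6
    · have := mul_pos h6 hD1
      have := mul_nonneg (by linarith : 0 ≤ 1 - ps I.s₀ s) h5.le
      linarith
    · have h8 : ps I.s₀ s = 0 := le_antisymm h6 hp0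
      rw [h8]; linarith
  have hbr : deriv (ps I.s₀) s * ((I.Λ - (s - I.s₀)) * D₀ - rs I.s₀ s ^ 3 * (K * D₁)) ≤ 0 := by
    rcases lt_or_ge s (I.s₀ + 1 / 4) with h5 | h5
    · rw [dps_left h5]; simp
    rcases lt_or_ge (I.s₀ + 1 / 2) s with h6 | h6
    · rw [dps_right h6]; simp
    apply mul_nonpos_of_nonpos_of_nonneg hdp
    have hr1 : rs I.s₀ s ≤ 1 := by
      unfold rs
      exact Real.sqrt_le_iff.2 ⟨by norm_num, by linarith⟩
    have hr3 : rs I.s₀ s ^ 3 ≤ 1 := pow_le_one₀ hr.le hr1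
    have h8 : rs I.s₀ s ^ 3 * (K * D₁) ≤ 1 * (K * D₁) := mul_le_mul_of_nonneg_right hr3 hKD.le
    have h9 : 1 / 2 * D₀ ≤ (I.Λ - (s - I.s₀)) * D₀ :=
      mul_le_mul_of_nonneg_right (by linarith) hD1.le
    linarith
  linarith

end TopIn

/-! ### the chart at the top -/

section chart

variable (k sT : ℝ)

/-- the chart at the top point -/
noncomputable def topC (u : ℝ × ℝ) : P4 := (-k * (u.1 * u.2), sT - (u.1 ^ 2 + u.2 ^ 2), u.1, k / 2 * u.2)

/-- its primitive -/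
noncomputable def topG (u : ℝ × ℝ) : ℝ := -(k / 3) * u.2 ^ 3 - k * (u.1 ^ 2 * u.2)

theorem topC_smooth : ContDiff ℝ ∞ (topC k sT) := by
  unfold topC
  exact (contDiff_const.mul (contDiff_fst.mul contDiff_snd)).prodMk
    ((contDiff_const.sub ((contDiff_fst.pow 2).add (contDiff_snd.pow 2))).prodMk
      (contDiff_fst.prodMk (contDiff_const.mul contDiff_snd)))

theorem topG_smooth : ContDiff ℝ ∞ (topG k) := by
  unfold topG
  exact (contDiff_const.mul (contDiff_snd.pow 3)).sub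
    (contDiff_const.mul ((contDiff_fst.pow 2).mul contDiff_snd))

theorem topC_fderiv (u v : ℝ × ℝ) : fderiv ℝ (topC k sT) u v =
    (-k * (u.1 * v.2 + u.2 * v.1), -(2 * u.1 * v.1 + 2 * u.2 * v.2), v.1, k / 2 * v.2) := by
  have h1 : HasFDerivAt (fun u : ℝ × ℝ => u.1) (ContinuousLinearMap.fst ℝ ℝ ℝ) u := hasFDerivAt_fst
  have h2 : HasFDerivAt (fun u : ℝ × ℝ => u.2) (ContinuousLinearMap.snd ℝ ℝ ℝ) u := hasFDerivAt_snd
  have h3 := ((h1.mul h2).const_mul (-k)).prodMk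
    ((((h1.pow 2).add (h2.pow 2)).const_sub sT).prodMk (h1.prodMk (h2.const_mul (k / 2))))
  have h4 : HasFDerivAt (topC k sT) _ u := h3
  rw [h4.fderiv]
  simp
  ring

theorem topG_fderiv (u v : ℝ × ℝ) : fderiv ℝ (topG k) u v =
    -(k * u.2 ^ 2 * v.2) - k * (2 * u.1 * u.2 * v.1 + u.1 ^ 2 * v.2) := by
  have h1 : HasFDerivAt (fun u : ℝ × ℝ => u.1) (ContinuousLinearMap.fst ℝ ℝ ℝ) u := hasFDerivAt_fst
  have h2 : HasFDerivAt (fun u : ℝ × ℝ => u.2) (ContinuousLinearMap.snd ℝ ℝ ℝ) u := hasFDerivAt_snd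
  have h3 := ((h2.pow 3).const_mul (-(k / 3))).sub (((h1.pow 2).mul h2).const_mul k)
  have h4 : HasFDerivAt (topG k) _ u := h3
  rw [h4.fderiv]
  simp
  ring

end chart

/-- Existence of the top.

Construction. `R̂ = R - h Q 0` is the maximum of `|y|`, `w² = R̂² - y²` with the sign of `y'` (smooth), `x₁ = - w y`,
`g₀ = x y - f` (`g₀' = x y'`), `g₁ = w³ / 3` (`g₁' = x₁ y'`). With a cutoff `ψ` and `r = √(sT - s)`, `sT = s₀ + 1`:
`μ₀ = ψ (Λ - (s - s₀))`, `μ₁ = K r³ (1 - ψ)`, `λ = ψ (Λ - (s - s₀)) + (1 - ψ) r / R̂`, `Y = λ y`, `x_s = (μ₀ x + μ₁ x₁) / λ`,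
`G = - (μ₀ g₀ + μ₁ g₁)`, `P = G + x_s Y`, `τ = ∂G/∂s + x_s ∂Y/∂s`, so `dP = Y dx + τ ds`.
Injective: two points of a slice at the same height are on the two arcs, `D₀ = g₀ θ - g₀ θ'` and `D₁ = 2 w³ / 3` satisfy
`D₀ > 0` (the critical points of `D₀` as a function of the height are the crossings, and `D₀ = f θ' - f θ > 0` there) and
`D₀ ≥ m₀ D₁` (`D_pos`), and the difference of the `τ` is `-(μ₀' D₀ + μ₁' D₁) > 0` for small `K`.
The chart at the top: for `s ≥ s₀ + 1/2`, `(Y, W) = (r / R̂) (y, w)` satisfies `Y² + W² = r² = sT - s`. -/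
theorem exists_top (μ : Moll) (I : TopIn μ) : Nonempty (TopOut μ I) := by
  have hR := I.Rm_pos
  have hΛ := I.Λ_pos
  have hm := I.m_pos
  have hmN := I.m_lt
  obtain ⟨m₀, hm₀, hD⟩ := I.D_pos
  -- the constant
  obtain ⟨K, hK, hK1⟩ : ∃ K > 0, K ≤ m₀ / 2 := ⟨m₀ / 2, by positivity, le_rfl⟩
  set J : Set ℝ := Set.Iio (I.s₀ + 1) with hJ
  have hJo : IsOpen J := isOpen_Iio
  set a := TopIn.ta I.s₀ I.Λ with ha
  set b := TopIn.tb I.s₀ K with hb
  set l := TopIn.tl I.s₀ I.Λ I.Rm with hl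
  have has : ContDiffOn ℝ ∞ a J := TopIn.ta_smooth.contDiffOn
  have hbs : ContDiffOn ℝ ∞ b J := TopIn.tb_smooth
  have hls : ContDiffOn ℝ ∞ l J := TopIn.tl_smooth
  have hlp : ∀ s ∈ J, 0 < l s := fun s hs => TopIn.tl_pos hΛ hR hs
  have hl0 : ∀ s ∈ J, l s ≠ 0 := fun s hs => (hlp s hs).ne'
  obtain ⟨-, -, hCs, hPs⟩ := frC_smooth hJo has hbs hls hl0 I.x_smooth I.x₁_smooth I.y_smooth I.g₀_smooth
    I.g₁_smooth
  set Γ₀ := frC a b l I.x I.x₁ I.y I.g₀ I.g₁ with hΓ₀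
  set P₀ := frP a b l I.x I.x₁ I.y I.g₀ I.g₁ with hP₀
  set k := K * I.Rm ^ 3 with hk
  have hkp : 0 < k := by positivity
  set Γ : ℝ × ℝ → P4 := fun p => if p.2 < I.s₀ + 1 then Γ₀ p else topC k (I.s₀ + 1) 0 with hΓ
  set P : ℝ × ℝ → ℝ := fun p => if p.2 < I.s₀ + 1 then P₀ p else topG k 0 with hP
  set t : ℝ × ℝ → ℝ × ℝ := fun p => (TopIn.rs I.s₀ p.2 / I.Rm * I.y p.1, TopIn.rs I.s₀ p.2 / I.Rm * I.w p.1)
    with ht
  have htc : Continuous t := by
    have h1 : Continuous fun p : ℝ × ℝ => TopIn.rs I.s₀ p.2 / I.Rm :=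
      (TopIn.rs_cont.comp continuous_snd).div_const _
    exact (h1.mul (I.y_smooth.continuous.comp continuous_fst)).prodMk
      (h1.mul (I.w_smooth.continuous.comp continuous_fst))
  have hΓe : ∀ p : ℝ × ℝ, p.2 < I.s₀ + 1 → Γ p = Γ₀ p := fun p hp => by simp only [hΓ, if_pos hp]
  have hPe : ∀ p : ℝ × ℝ, p.2 < I.s₀ + 1 → P p = P₀ p := fun p hp => by simp only [hP, if_pos hp]
  -- the circle
  have hcirc : ∀ θ s, s ≤ I.s₀ + 1 → (t (θ, s)).1 ^ 2 + (t (θ, s)).2 ^ 2 = I.s₀ + 1 - s := by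
    intro θ s hs
    have h1 := TopIn.rs_sq hs
    have h2 := I.w_sq θ
    simp only [ht]
    calc (TopIn.rs I.s₀ s / I.Rm * I.y θ) ^ 2 + (TopIn.rs I.s₀ s / I.Rm * I.w θ) ^ 2
        = TopIn.rs I.s₀ s ^ 2 / I.Rm ^ 2 * (I.y θ ^ 2 + I.w θ ^ 2) := by ring
      _ = I.s₀ + 1 - s := by
        rw [h1, h2]
        field_simp
        ring
  -- the end
  have hend : ∀ θ s, I.s₀ + 1 / 2 < s → s ≤ I.s₀ + 1 →
      topC k (I.s₀ + 1) (t (θ, s)) = Γ (θ, s) ∧ topG k (t (θ, s)) = P (θ, s) := by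
    intro θ s h1 h2
    rcases eq_or_lt_of_le h2 with h3 | h3
    · have h4 : t (θ, s) = 0 := by
        simp only [ht, TopIn.rs, h3]
        simp
      have h5 : ¬ s < I.s₀ + 1 := by rw [h3]; exact lt_irrefl _
      rw [h4]
      simp only [hΓ, hP, if_neg h5]
      exact ⟨trivial, trivial⟩
    · rw [hΓe (θ, s) h3, hPe (θ, s) h3]
      have hr := TopIn.rs_pos h3
      have hps : TopIn.ps I.s₀ s = 0 := TopIn.ps_right h1.le
      have hdps : deriv (TopIn.ps I.s₀) s = 0 := TopIn.dps_right h1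
      have ea : a s = 0 := by simp only [ha, TopIn.ta, hps, zero_mul]
      have eb : b s = K * TopIn.rs I.s₀ s ^ 3 := by simp only [hb, TopIn.tb, hps, sub_zero, mul_one]
      have el : l s = TopIn.rs I.s₀ s / I.Rm := by simp only [hl, TopIn.tl, hps]; ring
      have eda : deriv a s = 0 := by
        rw [ha, (TopIn.hasDerivAt_ta s).deriv, hps, hdps]; ring
      have edb : deriv b s = -(3 / 2 * K * TopIn.rs I.s₀ s) := by
        rw [hb, (TopIn.hasDerivAt_tb h3).deriv, hps, hdps]; ring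
      have edl : deriv l s = -1 / (2 * TopIn.rs I.s₀ s) / I.Rm := by
        have h4 : l =ᶠ[nhds s] fun t => TopIn.rs I.s₀ t / I.Rm := by
          filter_upwards [Ioi_mem_nhds h1] with u hu
          simp only [hl, TopIn.tl, TopIn.ps_right (Set.mem_Ioi.1 hu).le]; ring
        rw [h4.deriv_eq]
        exact ((TopIn.hasDerivAt_rs h3).div_const I.Rm).deriv
      have hc := hcirc θ s h2
      have hw := I.w_sq θ
      constructor
      · simp only [hΓ₀, frC, frT, frX, topC, ea, eb, el, eda, edb, edl, TopIn.x₁, TopIn.g₁]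
        rw [hc]
        simp only [ht, hk]
        refine Prod.ext ?_ (Prod.ext ?_ (Prod.ext rfl ?_))
        · field_simp
          ring
        · ring
        · simp only
          field_simp
          linear_combination (-(K * TopIn.rs I.s₀ s ^ 3 * I.w θ)) * hw
      · simp only [hP₀, frP, frX, topG, ea, eb, el, TopIn.x₁, TopIn.g₁]
        simp only [ht, hk]
        field_simp
        ring
  -- periodicity
  have hper0 : ∀ θ s, Γ₀ (θ + I.N, s) = Γ₀ (θ, s) ∧ P₀ (θ + I.N, s) = P₀ (θ, s) := by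
    intro θ s
    simp only [hΓ₀, hP₀, frC, frP, frT, frX]
    rw [I.x_per, I.x₁_per, I.y_per, I.g₀_per, I.g₁_per]
    exact ⟨rfl, rfl⟩
  have hper : ∀ θ s, Γ (θ + I.N, s) = Γ (θ, s) ∧ P (θ + I.N, s) = P (θ, s) := by
    intro θ s
    simp only [hΓ, hP]
    by_cases h : s < I.s₀ + 1
    · rw [if_pos h, if_pos h, if_pos h, if_pos h]; exact hper0 θ s
    · rw [if_neg h, if_neg h, if_neg h, if_neg h]; exact ⟨rfl, rfl⟩
  have hpern : ∀ (n : ℤ) θ s, Γ (θ + n * I.N, s) = Γ (θ, s) := by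
    intro n θ s
    have h1 : Function.Periodic (fun θ => Γ (θ, s)) I.N := fun θ => (hper θ s).1
    exact h1.int_mul n θ
  -- smoothness
  have hsub : {p : ℝ × ℝ | I.s₀ - 1 / 4 < p.2 ∧ p.2 < I.s₀ + 1} ⊆ {p : ℝ × ℝ | p.2 ∈ J} := fun p hp => hp.2
  have hΓs : ContDiffOn ℝ ∞ Γ {p : ℝ × ℝ | p.2 ∈ J} := hCs.congr fun p hp => hΓe p hp
  have hPs' : ContDiffOn ℝ ∞ P {p : ℝ × ℝ | p.2 ∈ J} := hPs.congr fun p hp => hPe p hp
  have hOp : IsOpen {p : ℝ × ℝ | p.2 ∈ J} := hJo.preimage continuous_snd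
  have hΓn : ∀ p : ℝ × ℝ, p.2 < I.s₀ + 1 → Γ =ᶠ[nhds p] Γ₀ := by
    intro p hp
    filter_upwards [hOp.mem_nhds hp] with q hq
    exact hΓe q hq
  have hPn : ∀ p : ℝ × ℝ, p.2 < I.s₀ + 1 → P =ᶠ[nhds p] P₀ := by
    intro p hp
    filter_upwards [hOp.mem_nhds hp] with q hq
    exact hPe q hq
  -- immersion
  have himm : ∀ p : ℝ × ℝ, p.2 < I.s₀ + 1 → Function.Injective (fderiv ℝ Γ p) ∧
      ∀ v, fderiv ℝ P p v = (Γ p).2.2.1 * (fderiv ℝ Γ p v).1 + (Γ p).2.2.2 * (fderiv ℝ Γ p v).2.1 := by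
    intro p hp
    rw [(hΓn p hp).fderiv_eq, (hPn p hp).fderiv_eq, hΓe p hp]
    refine frC_deriv hJo has hbs hls hl0 I.x_smooth I.x₁_smooth I.y_smooth I.g₀_smooth I.g₁_smooth
      I.hasDerivAt_g₀ I.hasDerivAt_g₁ hp ?_
    rcases I.dy_or p.1 with h | ⟨h1, h2⟩
    · exact Or.inl h
    · right
      have h3 := TopIn.rs_pos hp
      have h4 := TopIn.ps_nonneg (s₀ := I.s₀) p.2
      have h5 := TopIn.ps_le_one (s₀ := I.s₀) p.2
      have hb0 : 0 ≤ b p.2 := by
        simp only [hb, TopIn.tb]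
        have : 0 ≤ 1 - TopIn.ps I.s₀ p.2 := by linarith
        positivity
      rcases lt_or_ge 0 (TopIn.ps I.s₀ p.2) with h6 | h6
      · have h7 : p.2 < I.s₀ + 1 / 2 := by
          by_contra h8
          rw [TopIn.ps_right (not_lt.1 h8)] at h6
          exact lt_irrefl _ h6
        have h8 : 0 < a p.2 := mul_pos h6 (by linarith)
        have := mul_pos h8 h1
        have := mul_nonneg hb0 h2.le
        linarith
      · have h7 : TopIn.ps I.s₀ p.2 = 0 := le_antisymm h6 h4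
        have ea : a p.2 = 0 := by simp only [ha, TopIn.ta, h7, zero_mul]
        have eb : 0 < b p.2 := by
          simp only [hb, TopIn.tb, h7, sub_zero, mul_one]
          positivity
        rw [ea]
        have := mul_pos eb h2
        linarith
  -- injectivity on one period
  have hinj0 : ∀ θ θ' s, θ ∈ Set.Ico 0 I.N → θ' ∈ Set.Ico 0 I.N → θ ≤ θ' → s < I.s₀ + 1 →
      Γ₀ (θ, s) = Γ₀ (θ', s) → θ = θ' := by
    intro θ θ' s hθ hθ' hle hs he
    have hX : frX a b l I.x I.x₁ (θ, s) = frX a b l I.x I.x₁ (θ', s) := congrArg Prod.fst he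
    have hY : l s * I.y θ = l s * I.y θ' := congrArg (fun q : P4 => q.2.2.1) he
    have hT : frT a b l I.x I.x₁ I.y I.g₀ I.g₁ (θ, s) = frT a b l I.x I.x₁ I.y I.g₀ I.g₁ (θ', s) :=
      congrArg (fun q : P4 => q.2.2.2) he
    have hy : I.y θ = I.y θ' := mul_left_cancel₀ (hl0 s hs) hY
    by_cases h1 : θ' ≤ I.m
    · exact I.y_mono.injOn ⟨hθ.1, hle.trans h1⟩ ⟨hθ'.1, h1⟩ hy
    by_cases h2 : I.m ≤ θ
    · exact I.y_anti.injOn ⟨h2, hθ.2.le⟩ ⟨h2.trans hle, hθ'.2.le⟩ hy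
    rw [not_le] at h1 h2
    exfalso
    have h3 := I.y_lt2 h1 hθ'.2
    rcases eq_or_lt_of_le hθ.1 with h4 | h4
    · rw [← h4, I.y_zero] at hy
      linarith
    exact I.no_double hK hK1 hD h4 h2 h1 hθ'.2 hy hs hX hT
  have hinj : ∀ θ θ' s, I.s₀ - 1 / 4 < s → s < I.s₀ + 1 → Γ (θ, s) = Γ (θ', s) →
      ∃ n : ℤ, θ' = θ + n * I.N := by
    intro θ θ' s _ hs he
    obtain ⟨n, hn, -⟩ := existsUnique_add_zsmul_mem_Ico I.N_pos θ 0
    obtain ⟨n', hn', -⟩ := existsUnique_add_zsmul_mem_Ico I.N_pos θ' 0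
    simp only [zsmul_eq_mul, zero_add] at hn hn'
    have he' : Γ₀ (θ + n * I.N, s) = Γ₀ (θ' + n' * I.N, s) := by
      rw [← hΓe (_, s) hs, ← hΓe (_, s) hs, hpern, hpern]
      exact he
    have h1 : θ + n * I.N = θ' + n' * I.N := by
      rcases le_total (θ + n * I.N) (θ' + n' * I.N) with h | h
      · exact hinj0 _ _ s hn hn' h hs he'
      · exact (hinj0 _ _ s hn' hn h hs he'.symm).symm
    refine ⟨n - n', ?_⟩
    push_cast
    linarith
  -- continuity at the top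
  have hcont : ContinuousOn Γ {p | I.s₀ - 1 / 4 < p.2 ∧ p.2 ≤ I.s₀ + 1} := by
    rintro ⟨θ, s⟩ ⟨h1, h2⟩
    simp only at h1 h2
    rcases eq_or_lt_of_le h2 with h3 | h3
    · have h4 : ContinuousWithinAt (fun p => topC k (I.s₀ + 1) (t p))
          {p | I.s₀ - 1 / 4 < p.2 ∧ p.2 ≤ I.s₀ + 1} (θ, s) :=
        ((topC_smooth k (I.s₀ + 1)).continuous.comp htc).continuousWithinAt
      refine h4.congr_of_eventuallyEq ?_ ?_
      · have h5 : {p : ℝ × ℝ | I.s₀ + 1 / 2 < p.2} ∈ nhds ((θ, s) : ℝ × ℝ) := by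
          refine (isOpen_lt continuous_const continuous_snd).mem_nhds ?_
          simp only [Set.mem_setOf_eq]
          linarith
        filter_upwards [mem_nhdsWithin_of_mem_nhds h5, self_mem_nhdsWithin] with q hq hq'
        exact ((hend q.1 q.2 hq hq'.2).1).symm
      · exact ((hend θ s (by linarith) h2).1).symm
    · exact ((hΓs.contDiffAt (hOp.mem_nhds h3)).continuousAt).continuousWithinAt
  refine ⟨{
    sT := I.s₀ + 1
    Γ := Γ
    P := P
    hT := by linarith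
    start := ?_
    time := ?_
    smooth := hΓs.mono hsub
    smoothP := hPs'.mono hsub
    imm := fun p _ hp => himm p hp
    per := hper
    inj := hinj
    cont := hcont
    C := topC k (I.s₀ + 1)
    g := topG k
    t := t
    η := 1 / 4
    η_pos := by norm_num
    η_lt := by linarith
    C_smooth := topC_smooth _ _
    g_smooth := topG_smooth _
    C_imm := ?_
    g_deriv := ?_
    t_cont := htc.continuousOn
    t_eq := ?_
    t_surj := ?_ }⟩
  · -- start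
    intro θ s h1 h2
    have h3 : s < I.s₀ + 1 := by linarith
    rw [hΓe (θ, s) h3, hPe (θ, s) h3]
    have hps : TopIn.ps I.s₀ s = 1 := TopIn.ps_left h2.le
    have hdps : deriv (TopIn.ps I.s₀) s = 0 := TopIn.dps_left h2
    have ea : a s = I.Λ - (s - I.s₀) := by simp only [ha, TopIn.ta, hps, one_mul]
    have eb : b s = 0 := by simp only [hb, TopIn.tb, hps, sub_self, mul_zero]
    have el : l s = I.Λ - (s - I.s₀) := by simp only [hl, TopIn.tl, hps]; ring
    have eda : deriv a s = -1 := by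
      rw [ha, (TopIn.hasDerivAt_ta s).deriv, hps, hdps]; ring
    have edb : deriv b s = 0 := by
      rw [hb, (TopIn.hasDerivAt_tb h3).deriv, hps, hdps]; ring
    have edl : deriv l s = -1 := by
      have h4 : l =ᶠ[nhds s] a := by
        filter_upwards [Iio_mem_nhds h2] with u hu
        simp only [hl, ha, TopIn.tl, TopIn.ta, TopIn.ps_left (Set.mem_Iio.1 hu).le]; ring
      rw [h4.deriv_eq, eda]
    have h5 : I.Λ - (s - I.s₀) ≠ 0 := by
      have : 0 < I.Λ - (s - I.s₀) := by linarith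
      exact this.ne'
    constructor
    · simp only [hΓ₀, frC, frT, frX, ea, eb, el, eda, edb, edl, TopIn.g₀]
      refine Prod.ext ?_ (Prod.ext rfl (Prod.ext rfl ?_))
      · simp only
        field_simp
        ring
      · simp only
        field_simp
        ring
    · simp only [hP₀, frP, frX, ea, eb, el, TopIn.g₀]
      field_simp
      ring
  · -- time
    intro θ s _ h2
    rcases eq_or_lt_of_le h2 with h3 | h3
    · have h4 := (hend θ s (by linarith) h2).1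
      rw [← h4]
      simp only [topC]
      rw [hcirc θ s h2]
      ring
    · rw [hΓe (θ, s) h3]
      rfl
  · -- immersion of the chart
    rw [injective_iff_map_eq_zero]
    intro v hv
    rw [topC_fderiv, Prod.mk_eq_zero, Prod.mk_eq_zero, Prod.mk_eq_zero] at hv
    obtain ⟨-, -, h1, h2⟩ := hv
    have h3 : v.2 = 0 := by
      rcases mul_eq_zero.1 h2 with h | h
      · linarith
      · exact h
    exact Prod.ext h1 h3
  · intro u v
    rw [topC_fderiv, topG_fderiv]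
    simp only [topC]
    ring
  · intro θ s h1 h2
    obtain ⟨h3, h4⟩ := hend θ s (by linarith) h2
    exact ⟨h3, h4, hcirc θ s h2⟩
  · rintro ⟨u₁, u₂⟩ hu
    simp only at hu
    have hs2 : I.s₀ + 1 - (u₁ ^ 2 + u₂ ^ 2) ≤ I.s₀ + 1 := by nlinarith [sq_nonneg u₁, sq_nonneg u₂]
    rcases eq_or_lt_of_le (show (0 : ℝ) ≤ u₁ ^ 2 + u₂ ^ 2 by positivity) with h0 | h0
    · have hu1 : u₁ = 0 := by nlinarith [sq_nonneg u₁, sq_nonneg u₂]
      have hu2 : u₂ = 0 := by nlinarith [sq_nonneg u₁, sq_nonneg u₂]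
      refine ⟨0, I.s₀ + 1, by linarith, le_rfl, ?_⟩
      simp only [ht, TopIn.rs, hu1, hu2]
      simp
    set s := I.s₀ + 1 - (u₁ ^ 2 + u₂ ^ 2) with hs
    have hs3 : s < I.s₀ + 1 := by linarith
    have hr := TopIn.rs_pos hs3
    have hr2 : TopIn.rs I.s₀ s ^ 2 = u₁ ^ 2 + u₂ ^ 2 := by rw [TopIn.rs_sq hs2, hs]; ring
    set r := TopIn.rs I.s₀ s with hrdef
    -- the height
    set c := I.Rm * (u₁ / r) with hc
    have hc2 : c ^ 2 ≤ I.Rm ^ 2 := by
      have : (u₁ / r) ^ 2 ≤ 1 := by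
        rw [div_pow, div_le_one (by positivity)]
        nlinarith [sq_nonneg u₂]
      rw [hc, mul_pow]
      nlinarith [sq_nonneg I.Rm]
    have hc3 := abs_le.1 (abs_le_of_sq_le_sq hc2 hR.le)
    have hkey : ∀ θ, I.y θ = c → 0 ≤ I.w θ * u₂ → (t (θ, s)).1 = u₁ ∧ (t (θ, s)).2 = u₂ := by
      intro θ hy hw
      have h1 : (t (θ, s)).1 = u₁ := by
        simp only [ht]
        rw [hy, hc, ← hrdef]
        field_simp
      refine ⟨h1, ?_⟩
      have h2 := hcirc θ s hs2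
      rw [h1] at h2
      have h3 : (t (θ, s)).2 ^ 2 = u₂ ^ 2 := by linarith
      have h4 : 0 ≤ (t (θ, s)).2 * u₂ := by
        simp only [ht]
        rw [← hrdef]
        have : 0 ≤ r / I.Rm := by positivity
        calc (0 : ℝ) ≤ r / I.Rm * (I.w θ * u₂) := mul_nonneg this hw
          _ = _ := by ring
      rcases sq_eq_sq_iff_eq_or_eq_neg.1 h3 with h5 | h5
      · exact h5
      · rw [h5] at h4 ⊢
        have : u₂ = 0 := by nlinarith [sq_nonneg u₂]
        rw [this]; simp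
    have hs1 : I.s₀ + 1 - 1 / 4 < s := by rw [hs]; linarith
    rcases le_total 0 u₂ with h | h
    · have h1 : c ∈ Set.Icc (I.y 0) (I.y I.m) := by rw [I.y_zero, I.y_m]; exact hc3
      obtain ⟨θ, hθ, hy⟩ := intermediate_value_Icc (by linarith : (0 : ℝ) ≤ I.m)
        I.y_smooth.continuous.continuousOn h1
      have hw : 0 ≤ I.w θ := by
        rcases eq_or_lt_of_le hθ.1 with h2 | h2
        · rw [← h2, I.w_zero]
        rcases eq_or_lt_of_le hθ.2 with h3 | h3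
        · rw [h3, I.w_m]
        exact (I.w_pos h2 h3).le
      obtain ⟨h4, h5⟩ := hkey θ hy (mul_nonneg hw h)
      exact ⟨θ, s, hs1, hs2, Prod.ext h4 h5⟩
    · have h1 : c ∈ Set.Icc (I.y I.N) (I.y I.m) := by rw [I.y_N, I.y_m]; exact hc3
      obtain ⟨θ, hθ, hy⟩ := intermediate_value_Icc' (by linarith : I.m ≤ I.N)
        I.y_smooth.continuous.continuousOn h1
      have hw : I.w θ ≤ 0 := by
        rcases eq_or_lt_of_le hθ.1 with h2 | h2
        · rw [← h2, I.w_m]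
        rcases eq_or_lt_of_le hθ.2 with h3 | h3
        · rw [h3]
          have := I.w_per 0
          rw [zero_add] at this
          rw [this, I.w_zero]
        exact (I.w_neg h2 h3).le
      obtain ⟨h4, h5⟩ := hkey θ hy (mul_nonneg_of_nonpos_of_nonpos hw h)
      exact ⟨θ, s, hs1, hs2, Prod.ext h4 h5⟩

end Pool.Agent.Lib_MP_59ec1f_cap
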