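import Pool.Agent.Lib_MP_59ec1f_cap.Top

/-!
# The top window of the four strips

After both saddles the four strips form one closed curve: `(false, false)` from the line `A` to the line `B`,
`(false, true)` backwards, `(true, true)` forwards, `(true, false)` backwards. `TopArcs.σ` is the corresponding
position on the closed curve of `TopIn` (in one of the two directions).
-/

set_option autoImplicit false

open scoped ContDiff

namespace Pool.Agent.Lib_MP_59ec1f_cap

/-- Four arcs of the closed curve of the top: the strips start at the position `c₀` and go in the direction `dir`. -/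
structure TopArcs {μ : Moll} (I : TopIn μ) where
  len : Bool → Bool → ℝ
  len_pos : ∀ i j, 0 < len i j
  c₀ : ℝ
  dir : ℝ
  hdir : dir = 1 ∨ dir = -1
  total : len false false + len false true + len true true + len true false = I.N

namespace TopArcs

variable {μ : Moll} {I : TopIn μ} (A : TopArcs I)

/-- the position in the circle of the length `N` -/
def arc : Bool → Bool → ℝ → ℝ
  | false, false, θ => θ
  | false, true, θ => A.len false false + A.len false true - θ
  | true, true, θ => A.len false false + A.len false true + θ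
  | true, false, θ => I.N - θ

/-- the position on the closed curve -/
def σ (i j : Bool) (θ : ℝ) : ℝ := A.c₀ + A.dir * A.arc i j θ

theorem arc_cont (i j : Bool) : Continuous (A.arc i j) := by
  cases i <;> cases j
  · exact continuous_id
  · exact continuous_const.sub continuous_id
  · exact continuous_const.sub continuous_id
  · exact continuous_const.add continuous_id

theorem σ_cont (i j : Bool) : Continuous (A.σ i j) := by
  unfold σ
  exact continuous_const.add (continuous_const.mul (A.arc_cont i j))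

theorem arc_mem (i j : Bool) {θ : ℝ} (h0 : 0 ≤ θ) (h1 : θ ≤ A.len i j) :
    0 ≤ A.arc i j θ ∧ A.arc i j θ ≤ I.N := by
  have h2 := A.len_pos false false
  have h3 := A.len_pos false true
  have h4 := A.len_pos true false
  have h5 := A.len_pos true true
  have h6 := A.total
  cases i <;> cases j <;> simp only [arc] <;> constructor <;> linarith

theorem arc_inj {i j i' j' : Bool} {θ θ' : ℝ} (h0 : 0 ≤ θ) (h1 : θ ≤ A.len i j) (h0' : 0 ≤ θ')
    (h1' : θ' ≤ A.len i' j') (h : A.arc i j θ = A.arc i' j' θ') :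
    (i = i' ∧ j = j' ∧ θ = θ') ∨ (θ = 0 ∧ θ' = 0 ∧ j = j') ∨
      (θ = A.len i j ∧ θ' = A.len i' j' ∧ i = i') := by
  have h2 := A.len_pos false false
  have h3 := A.len_pos false true
  have h4 := A.len_pos true false
  have h5 := A.len_pos true true
  have h6 := A.total
  cases i <;> cases j <;> cases i' <;> cases j' <;> simp only [arc] at h <;>
    first
    | exact Or.inl ⟨rfl, rfl, by linarith⟩
    | exact Or.inr (Or.inl ⟨by linarith, by linarith, rfl⟩)
    | exact Or.inr (Or.inr ⟨by linarith, by linarith, rfl⟩)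
    | (exfalso; linarith)

theorem arc_wrap {i j i' j' : Bool} {θ θ' : ℝ} (h0 : 0 ≤ θ) (h1 : θ ≤ A.len i j) (h0' : 0 ≤ θ')
    (h1' : θ' ≤ A.len i' j') (h : A.arc i j θ = A.arc i' j' θ' + I.N) : θ = 0 ∧ θ' = 0 ∧ j = j' := by
  have h2 := A.len_pos false false
  have h3 := A.len_pos false true
  have h4 := A.len_pos true false
  have h5 := A.len_pos true true
  have h6 := A.total
  cases i <;> cases j <;> cases i' <;> cases j' <;> simp only [arc] at h <;>
    first
    | exact ⟨by linarith, by linarith, rfl⟩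
    | (exfalso; linarith)

theorem arc_surj {u : ℝ} (h0 : 0 ≤ u) (h1 : u ≤ I.N) :
    ∃ i j θ, 0 ≤ θ ∧ θ ≤ A.len i j ∧ A.arc i j θ = u := by
  have h6 := A.total
  rcases le_total u (A.len false false) with h | h
  · exact ⟨false, false, u, h0, h, rfl⟩
  rcases le_total u (A.len false false + A.len false true) with h' | h'
  · exact ⟨false, true, A.len false false + A.len false true - u, by linarith, by linarith,
      by simp only [arc]; ring⟩
  rcases le_total u (A.len false false + A.len false true + A.len true true) with h'' | h''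
  · exact ⟨true, true, u - (A.len false false + A.len false true), by linarith, by linarith,
      by simp only [arc]; ring⟩
  · exact ⟨true, false, I.N - u, by linarith, by linarith, by simp only [arc]; ring⟩

theorem σ_surj (θ : ℝ) : ∃ i j θ', 0 ≤ θ' ∧ θ' ≤ A.len i j ∧ ∃ n : ℤ, A.σ i j θ' = θ + n * I.N := by
  obtain ⟨n, hn, -⟩ := existsUnique_add_zsmul_mem_Ico I.N_pos (A.dir * (θ - A.c₀)) 0
  simp only [zsmul_eq_mul, zero_add] at hn
  obtain ⟨i, j, θ', h1, h2, h3⟩ := A.arc_surj hn.1 hn.2.le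
  have hd : A.dir * A.dir = 1 := by
    rcases A.hdir with h | h <;> rw [h] <;> norm_num
  have h4 : A.σ i j θ' = θ + A.dir * n * I.N := by
    simp only [σ, h3]
    linear_combination (θ - A.c₀) * hd
  rcases A.hdir with h | h
  · exact ⟨i, j, θ', h1, h2, n, by rw [h4, h]; ring⟩
  · exact ⟨i, j, θ', h1, h2, -n, by rw [h4, h]; push_cast; ring⟩

theorem σ_inj {i j i' j' : Bool} {θ θ' : ℝ} (h0 : 0 ≤ θ) (h1 : θ ≤ A.len i j) (h0' : 0 ≤ θ')
    (h1' : θ' ≤ A.len i' j') {n : ℤ} (h : A.σ i' j' θ' = A.σ i j θ + n * I.N) :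
    (i = i' ∧ j = j' ∧ θ = θ') ∨ (θ = 0 ∧ θ' = 0 ∧ j = j') ∨
      (θ = A.len i j ∧ θ' = A.len i' j' ∧ i = i') := by
  have hd : A.dir * A.dir = 1 := by
    rcases A.hdir with h | h <;> rw [h] <;> norm_num
  obtain ⟨m, hm⟩ : ∃ m : ℤ, A.arc i' j' θ' = A.arc i j θ + m * I.N := by
    simp only [σ] at h
    have h2 : A.arc i' j' θ' = A.arc i j θ + A.dir * n * I.N := by
      linear_combination A.dir * h - (A.arc i' j' θ' - A.arc i j θ) * hd
    rcases A.hdir with h3 | h3
    · exact ⟨n, by rw [h2, h3]; ring⟩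
    · exact ⟨-n, by rw [h2, h3]; push_cast; ring⟩
  have h2 := A.arc_mem i j h0 h1
  have h3 := A.arc_mem i' j' h0' h1'
  have hN := I.N_pos
  have hm1 : (m : ℝ) ≤ 1 := by
    by_contra hc
    rw [not_le] at hc
    have := mul_lt_mul_of_pos_right hc hN
    linarith
  have hm2 : (-1 : ℝ) ≤ m := by
    by_contra hc
    rw [not_le] at hc
    have := mul_lt_mul_of_pos_right hc hN
    linarith
  have hm1' : m ≤ 1 := by exact_mod_cast hm1
  have hm2' : -1 ≤ m := by exact_mod_cast hm2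
  obtain rfl | rfl | rfl : m = -1 ∨ m = 0 ∨ m = 1 := by omega
  · have := A.arc_wrap h0 h1 h0' h1' (by rw [hm]; push_cast; ring)
    exact Or.inr (Or.inl this)
  · exact A.arc_inj h0 h1 h0' h1' (by rw [hm]; push_cast; ring)
  · have := A.arc_wrap h0' h1' h0 h1 (by rw [hm]; push_cast; ring)
    exact Or.inr (Or.inl ⟨this.2.1, this.1, this.2.2.symm⟩)

theorem σ_A (j : Bool) : ∃ n : ℤ, A.σ true j 0 = A.σ false j 0 + n * I.N := by
  cases j
  · rcases A.hdir with h | h
    · exact ⟨1, by simp only [σ, arc, h]; push_cast; ring⟩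
    · exact ⟨-1, by simp only [σ, arc, h]; push_cast; ring⟩
  · exact ⟨0, by simp only [σ, arc]; push_cast; ring⟩

theorem σ_B (i : Bool) : A.σ i true (A.len i true) = A.σ i false (A.len i false) := by
  have h6 := A.total
  cases i
  · simp only [σ, arc]; ring
  · simp only [σ, arc, ← h6]; ring

variable (O : TopOut μ I)

theorem Γ_int (n : ℤ) (θ s : ℝ) : O.Γ (θ + n * I.N, s) = O.Γ (θ, s) ∧ O.P (θ + n * I.N, s) = O.P (θ, s) := by
  have h1 : Function.Periodic (fun θ => O.Γ (θ, s)) I.N := fun θ => (O.per θ s).1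
  have h2 : Function.Periodic (fun θ => O.P (θ, s)) I.N := fun θ => (O.per θ s).2
  exact ⟨h1.int_mul n θ, h2.int_mul n θ⟩

theorem Γ_top (θ : ℝ) : O.Γ (θ, O.sT) = O.C 0 := by
  obtain ⟨h1, -, h3⟩ := O.t_eq θ O.sT (by linarith [O.η_pos]) le_rfl
  have h4 : O.t (θ, O.sT) = 0 := by
    rw [sub_self] at h3
    have h5 := sq_nonneg (O.t (θ, O.sT)).1
    have h6 := sq_nonneg (O.t (θ, O.sT)).2
    exact Prod.ext (pow_eq_zero_iff (two_ne_zero) |>.1 (by linarith)) (pow_eq_zero_iff (two_ne_zero) |>.1 (by linarith))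
  rw [← h1, h4]

/-- the strip maps of the top window -/
noncomputable def Φ (i j : Bool) (p : ℝ × ℝ) : P4 := O.Γ (A.σ i j p.1, p.2)

/-- the primitive -/
noncomputable def G (i j : Bool) (p : ℝ × ℝ) : ℝ := O.P (A.σ i j p.1, p.2)

theorem Φ_cont (i j : Bool) : ContinuousOn (A.Φ O i j) {p | I.s₀ - 1 / 4 < p.2 ∧ p.2 ≤ O.sT} := by
  unfold Φ
  exact O.cont.comp (((A.σ_cont i j).comp continuous_fst).prodMk continuous_snd).continuousOn (fun p hp => hp)

theorem Φ_time (i j : Bool) {θ s : ℝ} (h0 : I.s₀ - 1 / 4 < s) (h1 : s ≤ O.sT) : (A.Φ O i j (θ, s)).2.1 = s :=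
  O.time _ _ h0 h1

theorem Φ_top (i j : Bool) (θ : ℝ) : A.Φ O i j (θ, O.sT) = O.C 0 := Γ_top O _

theorem Φ_A (j : Bool) (s : ℝ) : A.Φ O false j (0, s) = A.Φ O true j (0, s) ∧
    A.G O false j (0, s) = A.G O true j (0, s) := by
  obtain ⟨n, hn⟩ := A.σ_A j
  simp only [Φ, G, hn]
  obtain ⟨h1, h2⟩ := Γ_int O n (A.σ false j 0) s
  exact ⟨h1.symm, h2.symm⟩

theorem Φ_B (i : Bool) (s : ℝ) : A.Φ O i false (A.len i false, s) = A.Φ O i true (A.len i true, s) ∧
    A.G O i false (A.len i false, s) = A.G O i true (A.len i true, s) := by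
  simp only [Φ, G, A.σ_B i]
  exact ⟨trivial, trivial⟩

theorem Φ_inj {i j i' j' : Bool} {θ θ' s : ℝ} (h0 : 0 ≤ θ) (h1 : θ ≤ A.len i j) (h0' : 0 ≤ θ')
    (h1' : θ' ≤ A.len i' j') (hs : I.s₀ - 1 / 4 < s) (hs' : s < O.sT)
    (h : A.Φ O i j (θ, s) = A.Φ O i' j' (θ', s)) :
    (i = i' ∧ j = j' ∧ θ = θ') ∨ (θ = 0 ∧ θ' = 0 ∧ j = j') ∨
      (θ = A.len i j ∧ θ' = A.len i' j' ∧ i = i') := by
  obtain ⟨n, hn⟩ := O.inj _ _ s hs hs' h
  exact A.σ_inj h0 h1 h0' h1' hn

/-- the start of the top window, in terms of the input -/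
theorem Φ_start (i j : Bool) {θ s : ℝ} (h0 : I.s₀ - 1 / 4 < s) (h1 : s < I.s₀ + 1 / 4) :
    A.Φ O i j (θ, s) = (I.x (A.σ i j θ), s, (I.Λ - (s - I.s₀)) * I.y (A.σ i j θ), -I.f (A.σ i j θ)) ∧
    A.G O i j (θ, s) = (I.Λ - (s - I.s₀)) * I.f (A.σ i j θ) :=
  O.start _ _ h0 h1

/-- charts of the top window, including the top point -/
theorem hasChart (D : QStrips) (hs : 0 < I.s₀ - 1 / 4) (hlen : ∀ i j, D.len i j = A.len i j) (hT : D.sT = O.sT)
    (hΦ : ∀ i j θ s, 0 ≤ θ → θ ≤ A.len i j → I.s₀ - 1 / 4 < s → s ≤ O.sT →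
      D.Φ i j (θ, s) = A.Φ O i j (θ, s) ∧ D.G i j (θ, s) = A.G O i j (θ, s))
    {p : P4} (hp : p ∈ D.carrier) (hps : I.s₀ - 1 / 4 < p.2.1) : D.HasChart p := by
  have hdom : ∀ i j (q : ℝ × ℝ), q ∈ D.dom i j ↔ (0 ≤ q.1 ∧ q.1 ≤ A.len i j) ∧ 0 < q.2 ∧ q.2 ≤ O.sT := by
    intro i j q
    simp only [QStrips.dom, Set.mem_prod, Set.mem_Icc, Set.mem_Ioc, hlen, hT]
  have hTpos : I.s₀ + 1 / 2 < O.sT := O.hT
  -- every point of the closed curve is in the carrier
  have hcar : ∀ θ s, I.s₀ - 1 / 4 < s → s ≤ O.sT → O.Γ (θ, s) ∈ D.carrier := by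
    intro θ s h1 h2
    obtain ⟨i, j, θ', h3, h4, n, h5⟩ := A.σ_surj θ
    simp only [QStrips.carrier, Set.mem_iUnion]
    refine ⟨i, j, (θ', s), ?_, ?_⟩
    · rw [hdom]; exact ⟨⟨h3, h4⟩, by linarith, h2⟩
    · rw [(hΦ i j θ' s h3 h4 h1 h2).1]
      simp only [Φ]
      rw [h5]
      exact (Γ_int O n θ s).1
  have htime : ∀ i j, ∀ q ∈ D.dom i j, (D.Φ i j q).2.1 = q.2 := by
    intro i j q hq
    obtain ⟨⟨h1, h2⟩, h3, h4⟩ := (hdom i j q).1 hq
    exact D.time i j q.1 q.2 h1 (by rw [hlen]; exact h2) h3 (by rw [hT]; exact h4)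
  obtain ⟨i₀, j₀, q₀, hq₀, hpq₀⟩ : ∃ i j, ∃ q ∈ D.dom i j, D.Φ i j q = p := by
    simpa only [QStrips.carrier, Set.mem_iUnion, Set.mem_image] using hp
  have hp2 : p.2.1 = q₀.2 := by rw [← hpq₀]; exact htime _ _ _ hq₀
  obtain ⟨⟨h1, h2⟩, h3, h4⟩ := (hdom i₀ j₀ q₀).1 hq₀
  rw [hp2] at hps
  rcases eq_or_lt_of_le h4 with h5 | h5
  · -- the top
    have hptop : p = O.C 0 := by
      rw [← hpq₀]
      have h6 := (hΦ i₀ j₀ q₀.1 q₀.2 h1 h2 hps h4).1
      rw [Prod.mk.eta] at h6
      rw [h6]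
      have h7 : q₀ = (q₀.1, O.sT) := by rw [← h5]
      rw [h7, A.Φ_top O]
    refine ⟨{u | u.1 ^ 2 + u.2 ^ 2 < O.η}, 0, O.C, O.g, ?_, ?_, O.C_smooth.contDiffOn, O.g_smooth.contDiffOn,
      hptop.symm, O.C_imm, fun u _ v => O.g_deriv u v, ?_, ?_⟩
    · exact isOpen_lt ((continuous_fst.pow 2).add (continuous_snd.pow 2)) continuous_const
    · simp only [Set.mem_setOf_eq, Prod.fst_zero, Prod.snd_zero]
      have := O.η_pos
      norm_num
      exact this
    · intro u hu
      obtain ⟨θ, s, h6, h7, h8⟩ := O.t_surj u hu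
      have h9 := (O.t_eq θ s h6 h7).1
      rw [h8] at h9
      rw [h9]
      exact hcar θ s (by linarith [O.η_lt]) h7
    · intro i j q hq hqp
      obtain ⟨⟨h6, h7⟩, h8, h9⟩ := (hdom i j q).1 hq
      have hq2 : q.2 = O.sT := by
        have := htime i j q hq
        rw [hqp, hp2, h5] at this
        exact this.symm
      refine ⟨{q | O.sT - O.η < q.2}, fun q => O.t (A.σ i j q.1, q.2), isOpen_lt continuous_const continuous_snd,
        ?_, ?_, ?_, ?_⟩
      · simp only [Set.mem_setOf_eq]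
        rw [hq2]
        linarith [O.η_pos]
      · refine O.t_cont.comp (((A.σ_cont i j).comp continuous_fst).prodMk continuous_snd).continuousOn ?_
        rintro q' ⟨h10, h11⟩
        exact ⟨h10, ((hdom i j q').1 h11).2.2⟩
      · obtain ⟨-, -, h12⟩ := O.t_eq (A.σ i j q.1) O.sT (by linarith [O.η_pos]) le_rfl
        rw [sub_self] at h12
        have h13 := sq_nonneg (O.t (A.σ i j q.1, O.sT)).1
        have h14 := sq_nonneg (O.t (A.σ i j q.1, O.sT)).2
        simp only [hq2]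
        exact Prod.ext (pow_eq_zero_iff (two_ne_zero) |>.1 (by linarith))
          (pow_eq_zero_iff (two_ne_zero) |>.1 (by linarith))
      · rintro q' ⟨h10, h11⟩
        obtain ⟨⟨h12, h13⟩, h14, h15⟩ := (hdom i j q').1 h11
        simp only [Set.mem_setOf_eq] at h10
        obtain ⟨h16, h17, h18⟩ := O.t_eq (A.σ i j q'.1) q'.2 h10 h15
        obtain ⟨h19, h20⟩ := hΦ i j q'.1 q'.2 h12 h13 (by linarith [O.η_lt]) h15
        refine ⟨?_, ?_, ?_⟩
        · simp only [Set.mem_setOf_eq]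
          rw [h18]; linarith
        · rw [h16]
          exact h19.symm
        · rw [h17]
          exact h20.symm
  · -- an ordinary point
    set u₀ : ℝ × ℝ := (A.σ i₀ j₀ q₀.1, q₀.2) with hu₀
    have hpu : O.Γ u₀ = p := by
      rw [← hpq₀]
      exact ((hΦ i₀ j₀ q₀.1 q₀.2 h1 h2 hps h4).1).symm
    set U : Set (ℝ × ℝ) := {p | I.s₀ - 1 / 4 < p.2 ∧ p.2 < O.sT} with hU
    have hUo : IsOpen U :=
      (isOpen_lt continuous_const continuous_snd).inter (isOpen_lt continuous_snd continuous_const)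
    refine ⟨U, u₀, O.Γ, O.P, hUo, ⟨hps, h5⟩, O.smooth, O.smoothP, hpu, (O.imm u₀ hps h5).1,
      fun u hu v => (O.imm u hu.1 hu.2).2 v, fun u hu => hcar u.1 u.2 hu.1 hu.2.le, ?_⟩
    intro i j q hq hqp
    obtain ⟨⟨h6, h7⟩, h8, h9⟩ := (hdom i j q).1 hq
    have hq2 : q.2 = q₀.2 := by
      have := htime i j q hq
      rw [hqp, hp2] at this
      exact this.symm
    have h10 : O.Γ (A.σ i₀ j₀ q₀.1, q₀.2) = O.Γ (A.σ i j q.1, q₀.2) := by
      have h11 := (hΦ i j q.1 q.2 h6 h7 (by rw [hq2]; exact hps) h9).1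
      have h12 : D.Φ i j (q.1, q.2) = O.Γ u₀ := by rw [hpu]; exact hqp
      rw [h12, hq2] at h11
      exact h11
    obtain ⟨n, hn⟩ := O.inj _ _ _ hps h5 h10
    refine ⟨U, fun q' => (A.σ i j q'.1 - n * I.N, q'.2), hUo, ?_, ?_, ?_, ?_⟩
    · exact ⟨by rw [hq2]; exact hps, by rw [hq2]; exact h5⟩
    · exact ((((A.σ_cont i j).comp continuous_fst).sub continuous_const).prodMk continuous_snd).continuousOn
    · refine Prod.ext ?_ hq2
      simp only [hu₀]
      linarith
    · rintro q' ⟨h11, h12⟩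
      obtain ⟨⟨h13, h14⟩, h15, h16⟩ := (hdom i j q').1 h12
      obtain ⟨h17, h18⟩ := hΦ i j q'.1 q'.2 h13 h14 h11.1 h16
      obtain ⟨h19, h20⟩ := Γ_int O n (A.σ i j q'.1 - n * I.N) q'.2
      rw [sub_add_cancel] at h19 h20
      refine ⟨h11, ?_, ?_⟩
      · rw [← h19]
        exact h17.symm
      · rw [← h20]
        exact h18.symm

end TopArcs

end Pool.Agent.Lib_MP_59ec1f_cap
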