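import Pool.Agent.Lib_MP_59ec1f_cap.TopStrips
import Pool.Agent.Lib_MP_59ec1f_cap.TableChain
import Pool.Agent.Lib_MP_59ec1f_cap.CellOrder
import Pool.Agent.Lib_MP_59ec1f_cap.LowInj

/-!
# The input of the top from an integer table

A closed chain of `N` vertices with columns `x n`, heights `a n` and `1600` times the primitive at the edge midpoints
`f n`. The vertex `0` is the minimum, the vertex `m` the maximum of the height. The condition `cross` of `TopIn` is proved by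
the order test for pairs of cells in the same column.
-/

set_option autoImplicit false

open scoped ContDiff Topology

namespace Pool.Agent.Lib_MP_59ec1f_cap

/-- the table of a closed chain -/
structure TopTab where
  N : ℤ
  m : ℤ
  x : ℤ → ℤ
  a : ℤ → ℤ
  f : ℤ → ℤ

namespace TopTab

variable (T : TopTab)

/-- the value `v` with the factors `11, 10, 9` at three nodes -/
def z (v : ℤ) : Z3 := ⟨11 * v, 10 * v, 9 * v⟩

/-- the data of the cell `n` for the tests -/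
def wc (n : ℤ) : WC := ⟨T.x (n - 1), T.x n, T.x (n + 1), z (T.a (n - 1)), z (T.a n), z (T.a (n + 1)), z (T.f (n - 1)), z (T.f n)⟩

/-- the integers `a, a + 1, ..., b - 1` -/
def range (a b : ℤ) : List ℤ := (List.range (b - a).toNat).map fun k : ℕ => a + (k : ℤ)

theorem mem_range {a b n : ℤ} (h1 : a ≤ n) (h2 : n < b) : n ∈ range a b := by
  unfold range
  rw [List.mem_map]
  refine ⟨(n - a).toNat, ?_, ?_⟩
  · rw [List.mem_range]
    omega
  · omega

/-- the tests which do not concern pairs -/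
def testS : Bool :=
  decide (1 < T.m) && decide (T.m + 1 < T.N) &&
  ((range 0 T.N).all fun n => WC.okAt (T.x (n - 1)) (T.x n) (T.x (n + 1)) (T.a (n - 1)) (T.a n) (T.a (n + 1))
    (T.f (n - 1)) (T.f n)) &&
  ((range 0 T.m).all fun n => decide (T.a n < T.a (n + 1))) &&
  ((range T.m T.N).all fun n => decide (T.a (n + 1) < T.a n)) &&
  decide (T.a (-1) = T.a 1) && decide (T.a (T.m - 1) = T.a (T.m + 1)) &&
  decide (T.a 1 - T.a 0 = T.a T.m - T.a (T.m - 1)) && decide (T.a T.m = -T.a 0) &&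
  decide (T.x 1 - T.x 0 = T.x 0 - T.x (-1)) && decide (0 < T.x 1 - T.x 0) &&
  decide (T.x (T.m + 1) - T.x T.m = T.x T.m - T.x (T.m - 1)) && decide (0 < T.x (T.m + 1) - T.x T.m) &&
  decide (0 < T.a T.m) && decide (T.a 1 - T.a 0 ≤ 4 * T.a T.m)

/-- the tests for pairs: the cells of the two arcs are straight or folds, and at the meeting points of a cell of the increasing
arc with a cell of the decreasing arc `f` is smaller on the increasing arc -/
def testP : Bool :=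
  ((range 1 T.m).all fun n => (T.wc n).straight || (T.wc n).fold) &&
  ((range (T.m + 1) T.N).all fun n => (T.wc n).straight || (T.wc n).fold) &&
  ((range 1 T.m).all fun n => (range (T.m + 1) T.N).all fun n' =>
    decide (T.x n ≠ T.x n') || (T.wc n).orderTest (T.wc n'))

/-- the conditions -/
structure Good : Prop where
  per : ∀ n, T.x (n + T.N) = T.x n ∧ T.a (n + T.N) = T.a n ∧ T.f (n + T.N) = T.f n
  s : T.testS = true
  p : T.testP = true

variable {T} (μ : Moll)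

/-- the closed chain -/
def Z (T : TopTab) : ZChain := ⟨T.x, fun n _ => T.a n, fun n _ => T.f n⟩

theorem ok (h : T.Good) : 1 < T.m ∧ T.m + 1 < T.N ∧
    (∀ n, 0 ≤ n → n < T.N → WC.okAt (T.x (n - 1)) (T.x n) (T.x (n + 1)) (T.a (n - 1)) (T.a n) (T.a (n + 1))
      (T.f (n - 1)) (T.f n) = true) ∧
    (∀ n, 0 ≤ n → n < T.m → T.a n < T.a (n + 1)) ∧ (∀ n, T.m ≤ n → n < T.N → T.a (n + 1) < T.a n) ∧
    T.a (-1) = T.a 1 ∧ T.a (T.m - 1) = T.a (T.m + 1) ∧ T.a 1 - T.a 0 = T.a T.m - T.a (T.m - 1) ∧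
    T.a T.m = -T.a 0 ∧ T.x 1 - T.x 0 = T.x 0 - T.x (-1) ∧ 0 < T.x 1 - T.x 0 ∧
    T.x (T.m + 1) - T.x T.m = T.x T.m - T.x (T.m - 1) ∧ 0 < T.x (T.m + 1) - T.x T.m ∧
    0 < T.a T.m ∧ T.a 1 - T.a 0 ≤ 4 * T.a T.m := by
  have h1 := h.s
  unfold testS at h1
  simp only [Bool.and_eq_true, decide_eq_true_eq, List.all_eq_true] at h1
  obtain ⟨⟨⟨⟨⟨⟨⟨⟨⟨⟨⟨⟨⟨⟨a1, a2⟩, a4⟩, a5⟩, a6⟩, a7⟩, a8⟩, a9⟩, a10⟩, a11⟩, a12⟩, a13⟩, a14⟩, a15⟩, a16⟩ := h1
  exact ⟨a1, a2, fun n k1 k2 => a4 n (mem_range k1 k2), fun n k1 k2 => a5 n (mem_range k1 k2),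
    fun n k1 k2 => a6 n (mem_range k1 k2), a7, a8, a9, a10, a11, a12, a13, a14, a15, a16⟩

theorem per_int (h : T.Good) (k n : ℤ) : T.x (n + k * T.N) = T.x n ∧ T.a (n + k * T.N) = T.a n ∧
    T.f (n + k * T.N) = T.f n := by
  have e : ∀ g : ℤ → ℤ, (∀ n, g (n + T.N) = g n) → ∀ k n : ℤ, g (n + k * T.N) = g n := by
    intro g hg k
    induction k using Int.induction_on with
    | zero => intro n; rw [zero_mul, add_zero]
    | succ k ih =>
      intro n
      have := ih (n + T.N)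
      rw [hg n] at this
      rw [← this]
      congr 1
      ring
    | pred k ih =>
      intro n
      have h1 := hg (n + (-(k : ℤ) - 1) * T.N)
      rw [← h1, ← ih n]
      congr 1
      ring
  exact ⟨e T.x (fun n => (h.per n).1) k n, e T.a (fun n => (h.per n).2.1) k n, e T.f (fun n => (h.per n).2.2) k n⟩

theorem ok_all (h : T.Good) (n : ℤ) : WC.okAt (T.x (n - 1)) (T.x n) (T.x (n + 1)) (T.a (n - 1)) (T.a n) (T.a (n + 1))
      (T.f (n - 1)) (T.f n) = true := by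
  obtain ⟨h1, h2, h4, -⟩ := ok h
  have hN : 0 < T.N := by omega
  have h5 := h4 (n % T.N) (Int.emod_nonneg _ hN.ne') (Int.emod_lt_of_pos _ hN)
  have e : ∀ k : ℤ, n + k = n % T.N + k + (n / T.N) * T.N := by
    intro k
    have := Int.emod_add_mul_ediv n T.N
    linarith
  have e0 := per_int h (n / T.N) (n % T.N + 0)
  have e1 := per_int h (n / T.N) (n % T.N + 1)
  have e2 := per_int h (n / T.N) (n % T.N + (-1))
  rw [← e 0, add_zero, add_zero] at e0
  rw [← e 1] at e1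
  rw [← e (-1)] at e2
  rw [Int.sub_eq_add_neg, e0.1, e1.1, e2.1, e0.2.1, e1.2.1, e2.2.1, e0.2.2, e2.2.2, ← Int.sub_eq_add_neg]
  exact h5

theorem rel (h : T.Good) (n : ℤ) (s : ℝ) : (T.Z.toChain μ).Rel μ n s := by
  have h1 : ((T.Z).wc n (round s)).ok = true := by
    unfold WC.ok ZChain.wc Z3.of Z
    simp only [ok_all h n, Bool.and_self]
  apply ZChain.rel_of_ok h1
  exact (μ.round_near s).le

/-- the primitive -/
noncomputable def prim (T : TopTab) (θ : ℝ) : ℝ := (T.Z.toChain μ).prim μ (θ, 0)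

theorem perC (h : T.Good) : (T.Z.toChain μ).Per T.N := by
  intro n
  obtain ⟨h1, h2, h3⟩ := h.per n
  refine ⟨?_, ?_, ?_⟩
  · change (T.x (n + T.N) : ℝ) = T.x n
    rw [h1]
  · change (μ.pl fun _ => (T.a (n + T.N) : ℝ)) = μ.pl fun _ => (T.a n : ℝ)
    rw [h2]
  · change (fun s => μ.pl (fun _ => (T.f (n + T.N) : ℝ)) s / 1600) = fun s => μ.pl (fun _ => (T.f n : ℝ)) s / 1600
    rw [h3]

theorem pt_fst (θ s : ℝ) : ((T.Z.toChain μ).pt μ (θ, s)).1 = μ.pl (fun n => (T.x n : ℝ)) θ := rfl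

theorem pt_snd (θ s : ℝ) : ((T.Z.toChain μ).pt μ (θ, s)).2.2.1 = μ.pl (fun n => (T.a n : ℝ)) θ := by
  change μ.tri ((μ.pl fun _ => (T.a (round θ - 1) : ℝ)) s) ((μ.pl fun _ => (T.a (round θ) : ℝ)) s)
    ((μ.pl fun _ => (T.a (round θ + 1) : ℝ)) s) (θ - round θ) = _
  rw [μ.pl_const, μ.pl_const, μ.pl_const]
  rfl

theorem near (h : T.Good) (θ s : ℝ) : ContDiffAt ℝ ∞ ((T.Z.toChain μ).pt μ) (θ, s) ∧
    ContDiffAt ℝ ∞ ((T.Z.toChain μ).prim μ) (θ, s) :=
  CellChain.contDiffAt (n := round θ) (μ.round_near θ) (fun _ => Filter.Eventually.of_forall fun t => rel μ h _ t)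
    (fun _ => Filter.Eventually.of_forall fun t => rel μ h _ t)

theorem prim_smooth (h : T.Good) : ContDiff ℝ ∞ (T.prim μ) := by
  rw [contDiff_iff_contDiffAt]
  intro θ
  exact ContDiffAt.comp θ (near μ h θ 0).2 (contDiffAt_id.prodMk contDiffAt_const)

theorem prim_deriv (h : T.Good) (θ : ℝ) : deriv (T.prim μ) θ =
    μ.pl (fun n => (T.a n : ℝ)) θ * deriv (μ.pl fun n => (T.x n : ℝ)) θ := by
  have h1 : HasDerivAt (fun t : ℝ => ((t, 0) : ℝ × ℝ)) (1, 0) θ := (hasDerivAt_id θ).prodMk (hasDerivAt_const θ 0)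
  obtain ⟨h2, h3⟩ := near μ h θ 0
  have h4 : HasDerivAt (T.prim μ) (fderiv ℝ ((T.Z.toChain μ).prim μ) (θ, 0) (1, 0)) θ :=
    (h3.differentiableAt (by simp)).hasFDerivAt.comp_hasDerivAt θ h1
  have h5 : HasDerivAt (fun t => (T.Z.toChain μ).pt μ (t, 0)) (fderiv ℝ ((T.Z.toChain μ).pt μ) (θ, 0) (1, 0)) θ :=
    HasFDerivAt.comp_hasDerivAt (f := fun t : ℝ => ((t, 0) : ℝ × ℝ)) θ (h2.differentiableAt (by simp)).hasFDerivAt h1
  have h6 : HasDerivAt (μ.pl fun n => (T.x n : ℝ)) (fderiv ℝ ((T.Z.toChain μ).pt μ) (θ, 0) (1, 0)).1 θ := by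
    have := h5.fst
    exact this
  have h7 : HasDerivAt (fun _ : ℝ => (0 : ℝ)) (fderiv ℝ ((T.Z.toChain μ).pt μ) (θ, 0) (1, 0)).2.1 θ := by
    have := h5.snd.fst
    exact this
  rw [h4.deriv, h6.deriv, CellChain.prim_fderiv (n := round θ) (μ.round_near θ)
    (fun _ => Filter.Eventually.of_forall fun t => rel μ h _ t)
    (fun _ => Filter.Eventually.of_forall fun t => rel μ h _ t) (1, 0), pt_snd]
  have h8 : (fderiv ℝ ((T.Z.toChain μ).pt μ) (θ, 0) (1, 0)).2.1 = 0 := h7.unique (hasDerivAt_const θ 0)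
  rw [h8, mul_zero, add_zero]

/-- the derivative of the height on the increasing arc -/
theorem dy_pos (h : T.Good) {θ : ℝ} (h0 : 0 < θ) (h1 : θ < T.m) : 0 < deriv (μ.pl fun n => (T.a n : ℝ)) θ := by
  obtain ⟨a1, a2, -, a5, a6, a7, a8, -⟩ := ok h
  have hr := abs_le.1 (abs_sub_round_le θ)
  have hr0 : 0 ≤ round θ := by
    have : ((-1 : ℤ) : ℝ) < (round θ : ℝ) := by push_cast; linarith [hr.2]
    have : (-1 : ℤ) < round θ := by exact_mod_cast this
    omega
  have hrm : round θ ≤ T.m := by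
    have : (round θ : ℝ) < ((T.m + 1 : ℤ) : ℝ) := by push_cast; linarith [hr.1]
    have : round θ < T.m + 1 := by exact_mod_cast this
    omega
  rcases eq_or_lt_of_le hr0 with e0 | e0
  · -- the minimum
    rw [μ.deriv_pl' _ (μ.round_near θ), ← e0]
    have e1 : (T.a (0 - 1) : ℝ) = T.a (0 + 1) := by
      have : T.a (0 - 1) = T.a (0 + 1) := a7
      rw [this]
    have h3 : (0 : ℝ) < T.a (0 + 1) - T.a 0 := by
      have := a5 0 le_rfl (by omega)
      have h4 : (T.a 0 : ℝ) < T.a (0 + 1) := by exact_mod_cast this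
      linarith
    have h4 := μ.deriv_Q_pos h0
    rw [μ.deriv_Q] at h4
    have h5 := μ.deriv_refl θ
    simp only [Int.cast_zero, sub_zero]
    rw [e1]
    have h6 : 0 < (T.a (0 + 1) - T.a 0 : ℝ) * (deriv μ.S θ - deriv μ.S (-θ)) := mul_pos h3 h4
    have h7 : deriv μ.S (-θ) = 1 - deriv μ.S θ := by linarith
    rw [h7] at h6
    linarith
  rcases eq_or_lt_of_le hrm with e1 | e1
  · -- the maximum
    rw [μ.deriv_pl' _ (μ.round_near θ), e1]
    have e2 : (T.a (T.m - 1) : ℝ) = T.a (T.m + 1) := by rw [a8]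
    have h3 : (0 : ℝ) < T.a T.m - T.a (T.m + 1) := by
      have := a6 T.m le_rfl (by omega)
      have h4 : (T.a (T.m + 1) : ℝ) < T.a T.m := by exact_mod_cast this
      linarith
    have h4 : 0 < deriv μ.Q (T.m - θ) := μ.deriv_Q_pos (by linarith)
    rw [μ.deriv_Q] at h4
    have h5 := μ.deriv_refl (T.m - θ)
    rw [e2]
    have e3 : -((T.m : ℝ) - θ) = θ - T.m := by ring
    rw [e3] at h4 h5
    have h6 : 0 < (T.a T.m - T.a (T.m + 1) : ℝ) * (deriv μ.S (T.m - θ) - deriv μ.S (θ - T.m)) := mul_pos h3 h4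
    have h7 : deriv μ.S (T.m - θ) = 1 - deriv μ.S (θ - T.m) := by linarith
    rw [h7] at h6
    linarith
  · apply μ.deriv_pl_pos
    · have := a5 (round θ) hr0 e1
      exact_mod_cast this
    · have := a5 (round θ - 1) (by omega) (by omega)
      rw [sub_add_cancel] at this
      exact_mod_cast this

/-- the derivative of the height on the decreasing arc -/
theorem dy_neg (h : T.Good) {θ : ℝ} (h0 : T.m < θ) (h1 : θ < T.N) : deriv (μ.pl fun n => (T.a n : ℝ)) θ < 0 := by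
  obtain ⟨a1, a2, -, a5, a6, a7, a8, -⟩ := ok h
  have hr := abs_le.1 (abs_sub_round_le θ)
  have hr0 : T.m ≤ round θ := by
    have : ((T.m - 1 : ℤ) : ℝ) < (round θ : ℝ) := by push_cast; linarith [hr.2]
    have : (T.m - 1 : ℤ) < round θ := by exact_mod_cast this
    omega
  have hrm : round θ ≤ T.N := by
    have : (round θ : ℝ) < ((T.N + 1 : ℤ) : ℝ) := by push_cast; linarith [hr.1]
    have : round θ < T.N + 1 := by exact_mod_cast this
    omega
  rcases eq_or_lt_of_le hr0 with e0 | e0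
  · -- the maximum
    rw [μ.deriv_pl' _ (μ.round_near θ), ← e0]
    have e2 : (T.a (T.m - 1) : ℝ) = T.a (T.m + 1) := by rw [a8]
    have h3 : (0 : ℝ) < T.a T.m - T.a (T.m + 1) := by
      have := a6 T.m le_rfl (by omega)
      have h4 : (T.a (T.m + 1) : ℝ) < T.a T.m := by exact_mod_cast this
      linarith
    have h4 : 0 < deriv μ.Q (θ - T.m) := μ.deriv_Q_pos (by linarith)
    rw [μ.deriv_Q] at h4
    have h5 := μ.deriv_refl (θ - T.m)
    rw [e2]
    have h6 : 0 < (T.a T.m - T.a (T.m + 1) : ℝ) * (deriv μ.S (θ - T.m) - deriv μ.S (-(θ - T.m))) := mul_pos h3 h4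
    have h7 : deriv μ.S (-(θ - T.m)) = 1 - deriv μ.S (θ - T.m) := by linarith
    rw [h7] at h6
    linarith
  rcases eq_or_lt_of_le hrm with e1 | e1
  · -- the minimum
    rw [μ.deriv_pl' _ (μ.round_near θ), e1]
    have p0 := (h.per 0).2.1
    have p1 := (h.per 1).2.1
    have p2 := (h.per (-1)).2.1
    have q0 : T.a T.N = T.a 0 := by rw [← p0]; congr 1; ring
    have q1 : T.a (T.N + 1) = T.a 1 := by rw [← p1]; congr 1; ring
    have q2 : T.a (T.N - 1) = T.a 1 := by rw [← a7, ← p2]; congr 1; ring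
    rw [q0, q1, q2]
    have h3 : (0 : ℝ) < T.a 1 - T.a 0 := by
      have := a5 0 le_rfl (by omega)
      have h4 : (T.a 0 : ℝ) < T.a (0 + 1) := by exact_mod_cast this
      rw [zero_add] at h4
      linarith
    have h4 : 0 < deriv μ.Q (T.N - θ) := μ.deriv_Q_pos (by linarith)
    rw [μ.deriv_Q] at h4
    have h5 := μ.deriv_refl (T.N - θ)
    have e3 : -((T.N : ℝ) - θ) = θ - T.N := by ring
    rw [e3] at h4 h5
    have h6 : 0 < (T.a 1 - T.a 0 : ℝ) * (deriv μ.S (T.N - θ) - deriv μ.S (θ - T.N)) := mul_pos h3 h4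
    have h7 : deriv μ.S (T.N - θ) = 1 - deriv μ.S (θ - T.N) := by linarith
    rw [h7] at h6
    linarith
  · rw [μ.deriv_pl' _ (μ.round_near θ)]
    have h2 := a6 (round θ) hr0 e1
    have h3 := a6 (round θ - 1) (by omega) (by omega)
    rw [sub_add_cancel] at h3
    have h2' : (T.a (round θ + 1) : ℝ) < T.a (round θ) := by exact_mod_cast h2
    have h3' : (T.a (round θ) : ℝ) < T.a (round θ - 1) := by exact_mod_cast h3
    have h4 := μ.deriv_nonneg (θ - round θ)
    have h5 := μ.deriv_le_one (θ - round θ)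
    rcases h4.eq_or_lt with h6 | h6
    · rw [← h6]
      linarith
    · have h7 : 0 < (T.a (round θ) - T.a (round θ + 1) : ℝ) * deriv μ.S (θ - round θ) := mul_pos (by linarith) h6
      have h8 : 0 ≤ (T.a (round θ - 1) - T.a (round θ) : ℝ) * (1 - deriv μ.S (θ - round θ)) :=
        mul_nonneg (by linarith) (by linarith)
      linarith

theorem y_mono (h : T.Good) : StrictMonoOn (μ.pl fun n => (T.a n : ℝ)) (Set.Icc 0 T.m) :=
  strictMonoOn_of_deriv_pos (convex_Icc _ _) (μ.pl_contDiff _).continuous.continuousOn (by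
    intro θ hθ
    rw [interior_Icc] at hθ
    exact dy_pos μ h hθ.1 hθ.2)

theorem y_anti (h : T.Good) : StrictAntiOn (μ.pl fun n => (T.a n : ℝ)) (Set.Icc (T.m : ℝ) T.N) :=
  strictAntiOn_of_deriv_neg (convex_Icc _ _) (μ.pl_contDiff _).continuous.continuousOn (by
    intro θ hθ
    rw [interior_Icc] at hθ
    exact dy_neg μ h hθ.1 hθ.2)

theorem pl_per {g : ℤ → ℤ} {N : ℤ} (hg : ∀ n, g (n + N) = g n) (θ : ℝ) :
    μ.pl (fun n => (g n : ℝ)) (θ + N) = μ.pl (fun n => (g n : ℝ)) θ := by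
  apply glue_per (c := fun n v => μ.tri (g (n - 1) : ℝ) (g n) (g (n + 1)) v)
  intro n
  have e1 : n + N - 1 = n - 1 + N := by ring
  have e2 : n + N + 1 = n + 1 + N := by ring
  simp only [e1, e2, hg]

/-- a straight cell -/
theorem pl_straight (g : ℤ → ℤ) {n : ℤ} (hg : g (n + 1) - g n = g n - g (n - 1)) {θ : ℝ} (hθ : |θ - n| ≤ 1 / 2) :
    μ.pl (fun n => (g n : ℝ)) θ = g n + (g (n + 1) - g n : ℤ) * (θ - n) := by
  have h1 : |θ - n| ≤ 1 - μ.ep := by linarith [μ.ep_lt]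
  rw [μ.pl_eq _ h1]
  have h2 := μ.tri_straight (g n : ℝ) ((g (n + 1) - g n : ℤ) : ℝ) (θ - n)
  have e1 : (g n : ℝ) - ((g (n + 1) - g n : ℤ) : ℝ) = g (n - 1) := by
    rw [hg]; push_cast; ring
  have e2 : (g n : ℝ) + ((g (n + 1) - g n : ℤ) : ℝ) = g (n + 1) := by
    push_cast; ring
  rw [e1, e2] at h2
  exact h2

theorem y_half (n : ℤ) : μ.pl (fun n => (T.a n : ℝ)) (n + 1 / 2) = (T.a n + T.a (n + 1)) / 2 := μ.pl_half _ n

/-- the two arcs near the minimum and the maximum -/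
theorem near_ends (h : T.Good) {θ θ' : ℝ} (h0 : 0 < θ) (h1 : θ < T.m) (h0' : T.m < θ') (h1' : θ' < T.N)
    (hy : μ.pl (fun n => (T.a n : ℝ)) θ = μ.pl (fun n => (T.a n : ℝ)) θ') :
    μ.pl (fun n => (T.x n : ℝ)) θ ≠ μ.pl (fun n => (T.x n : ℝ)) θ' ∨
    (1 / 2 < θ ∧ θ < T.m - 1 / 2 ∧ T.m + 1 / 2 < θ' ∧ θ' < T.N - 1 / 2) := by
  obtain ⟨a1, a2, -, a5, a6, a7, a8, -, -, a11, a12, a13, a14, -, -⟩ := ok h
  have hm1 : (1 : ℝ) < T.m := by exact_mod_cast a1
  have hmN : (T.m : ℝ) + 1 < T.N := by exact_mod_cast a2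
  have p0 : T.a T.N = T.a 0 := by rw [← (h.per 0).2.1]; congr 1; ring
  have p2 : T.a (T.N - 1) = T.a 1 := by rw [← a7, ← (h.per (-1)).2.1]; congr 1; ring
  have x0 : T.x T.N = T.x 0 := by rw [← (h.per 0).1]; congr 1; ring
  have x1 : T.x (T.N + 1) = T.x 1 := by rw [← (h.per 1).1]; congr 1; ring
  have x2 : T.x (T.N - 1) = T.x (-1) := by rw [← (h.per (-1)).1]; congr 1; ring
  -- the heights at the midpoints next to the ends
  have y1 : μ.pl (fun n => (T.a n : ℝ)) (1 / 2) = (T.a 0 + T.a 1) / 2 := by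
    have := y_half (T := T) μ 0
    rw [zero_add] at this
    rw [← this]
    congr 1
    push_cast; ring
  have y2 : μ.pl (fun n => (T.a n : ℝ)) (T.N - 1 / 2) = (T.a 0 + T.a 1) / 2 := by
    have := y_half (T := T) μ (T.N - 1)
    rw [sub_add_cancel, p0, p2] at this
    have e : ((T.N - 1 : ℤ) : ℝ) + 1 / 2 = T.N - 1 / 2 := by push_cast; ring
    rw [e] at this
    rw [this]; ring
  have y3 : μ.pl (fun n => (T.a n : ℝ)) (T.m - 1 / 2) = (T.a (T.m - 1) + T.a T.m) / 2 := by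
    have := y_half (T := T) μ (T.m - 1)
    rw [sub_add_cancel] at this
    have e : ((T.m - 1 : ℤ) : ℝ) + 1 / 2 = T.m - 1 / 2 := by push_cast; ring
    rw [e] at this
    exact this
  have y4 : μ.pl (fun n => (T.a n : ℝ)) (T.m + 1 / 2) = (T.a (T.m - 1) + T.a T.m) / 2 := by
    have := y_half (T := T) μ T.m
    rw [this, ← a8]; ring
  rcases le_or_gt θ (1 / 2) with h2 | h2
  · left
    have h3 : μ.pl (fun n => (T.a n : ℝ)) θ ≤ (T.a 0 + T.a 1) / 2 := by
      rw [← y1]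
      exact (y_mono μ h).monotoneOn ⟨h0.le, h1.le⟩ ⟨by norm_num, by linarith⟩ h2
    have h4 : T.N - 1 / 2 ≤ θ' := by
      by_contra hcon
      rw [not_le] at hcon
      have := (y_anti μ h) ⟨h0'.le, h1'.le⟩ ⟨by linarith, by linarith⟩ hcon
      rw [y2] at this
      linarith
    have h5 := pl_straight μ T.x (n := 0) (θ := θ) (by rw [zero_add]; exact a11) (by
      rw [Int.cast_zero, sub_zero, abs_of_pos h0]; exact h2)
    have h6 := pl_straight μ T.x (n := T.N) (θ := θ') (by rw [x0, x1, x2]; exact a11) (by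
      rw [abs_le]; constructor <;> linarith)
    rw [h5, h6, x0, x1, zero_add, Int.cast_zero, sub_zero]
    have h7 : (0 : ℝ) < ((T.x 1 - T.x 0 : ℤ) : ℝ) := by exact_mod_cast a12
    have := mul_pos h7 h0
    have := mul_pos h7 (by linarith : 0 < T.N - θ')
    intro h8
    linarith
  rcases le_or_gt (T.m - 1 / 2 : ℝ) θ with h3 | h3
  · left
    have h4 : (T.a (T.m - 1) + T.a T.m) / 2 ≤ μ.pl (fun n => (T.a n : ℝ)) θ := by
      rw [← y3]
      exact (y_mono μ h).monotoneOn ⟨by linarith, by linarith⟩ ⟨h0.le, h1.le⟩ h3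
    have h5 : θ' ≤ T.m + 1 / 2 := by
      by_contra hcon
      rw [not_le] at hcon
      have := (y_anti μ h) ⟨by linarith, by linarith⟩ ⟨h0'.le, h1'.le⟩ hcon
      rw [y4] at this
      linarith
    have h6 := pl_straight μ T.x (n := T.m) (θ := θ) a13 (by
      rw [abs_le]; constructor <;> linarith)
    have h7 := pl_straight μ T.x (n := T.m) (θ := θ') a13 (by
      rw [abs_le]; constructor <;> linarith)
    rw [h6, h7]
    have h8 : (0 : ℝ) < ((T.x (T.m + 1) - T.x T.m : ℤ) : ℝ) := by exact_mod_cast a14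
    have := mul_pos h8 (by linarith : 0 < θ' - θ)
    intro h9
    linarith
  · right
    have h4 : (T.a 0 + T.a 1) / 2 < μ.pl (fun n => (T.a n : ℝ)) θ := by
      rw [← y1]
      exact (y_mono μ h) ⟨by norm_num, by linarith⟩ ⟨h0.le, h1.le⟩ h2
    have h5 : θ' < T.N - 1 / 2 := by
      by_contra hcon
      rw [not_lt] at hcon
      have := (y_anti μ h).antitoneOn ⟨by linarith, by linarith⟩ ⟨h0'.le, h1'.le⟩ hcon
      rw [y2] at this
      linarith
    have h6 : μ.pl (fun n => (T.a n : ℝ)) θ < (T.a (T.m - 1) + T.a T.m) / 2 := by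
      rw [← y3]
      exact (y_mono μ h) ⟨h0.le, h1.le⟩ ⟨by linarith, by linarith⟩ h3
    have h7 : T.m + 1 / 2 < θ' := by
      by_contra hcon
      rw [not_lt] at hcon
      have := (y_anti μ h).antitoneOn ⟨h0'.le, h1'.le⟩ ⟨by linarith, by linarith⟩ hcon
      rw [y4] at this
      linarith
    exact ⟨h2, h3, h7, h5⟩

theorem shape (h : T.Good) {n : ℤ} (h1 : (1 ≤ n ∧ n < T.m) ∨ (T.m + 1 ≤ n ∧ n < T.N)) :
    (T.wc n).straight = true ∨ (T.wc n).fold = true := by
  have h5 := h.p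
  unfold testP at h5
  rw [Bool.and_eq_true, Bool.and_eq_true, List.all_eq_true, List.all_eq_true] at h5
  rcases h1 with h1 | h1
  · have := h5.1.1 n (mem_range h1.1 h1.2)
    rw [Bool.or_eq_true] at this
    exact this
  · have := h5.1.2 n (mem_range h1.1 h1.2)
    rw [Bool.or_eq_true] at this
    exact this

theorem pair (h : T.Good) {n n' : ℤ} (h1 : 1 ≤ n) (h2 : n < T.m) (h3 : T.m + 1 ≤ n') (h4 : n' < T.N)
    (hx : T.x n = T.x n') : (T.wc n).orderTest (T.wc n') = true := by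
  have h5 := h.p
  unfold testP at h5
  rw [Bool.and_eq_true, List.all_eq_true] at h5
  have h6 := h5.2 n (mem_range h1 h2)
  rw [List.all_eq_true] at h6
  have h7 := h6 n' (mem_range h3 h4)
  rw [Bool.or_eq_true, decide_eq_true_eq] at h7
  exact h7.resolve_left (fun h8 => h8 hx)

theorem wc_ok (h : T.Good) (n : ℤ) : (T.wc n).ok = true := by
  have h1 := ok_all h n
  unfold WC.okAt at h1
  rw [beq_iff_eq] at h1
  unfold WC.ok wc z WC.okAt
  simp only [Bool.and_eq_true, beq_iff_eq]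
  refine ⟨⟨?_, ?_⟩, ?_⟩
  · linear_combination 11 * h1
  · linear_combination 10 * h1
  · linear_combination 9 * h1

/-- the cell for the tests at the middle time is the curve, the height multiplied by `10` -/
theorem wc_pt (h : T.Good) {n : ℤ} {θ : ℝ} (hθ : |θ - n| ≤ 1 / 2) : (T.wc n).pt μ (θ - n) 0 =
    (μ.pl (fun n => (T.x n : ℝ)) θ, 10 * μ.pl (fun n => (T.a n : ℝ)) θ, -T.prim μ θ) := by
  have hz : ∀ v : ℤ, (z v).val μ 0 = 10 * v := by
    intro v
    have := μ.tri_straight (10 * v : ℝ) (-v) 0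
    unfold z Z3.val
    push_cast
    have e1 : (10 * v : ℝ) - -v = 11 * v := by ring
    have e2 : (10 * v : ℝ) + -v = 9 * v := by ring
    rw [e1, e2] at this
    rw [this]
    ring
  have hd : ∀ v : ℤ, (z v).der μ 0 = -v := by
    intro v
    unfold z Z3.der
    have := μ.deriv_refl 0
    rw [neg_zero] at this ⊢
    push_cast
    linear_combination (-(v : ℝ)) * this
  have hep : |θ - n| ≤ 1 - μ.ep := by linarith [μ.ep_lt]
  unfold WC.pt
  simp only [wc, hz, hd]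
  refine Prod.ext ?_ (Prod.ext ?_ ?_)
  · simp only
    rw [μ.pl_eq _ hep]
  · simp only
    rw [μ.pl_eq _ hep]
    unfold Moll.tri
    ring
  · simp only
    have h1 : T.prim μ θ = (T.Z.toChain μ).prim μ (θ, 0) := rfl
    have h2 := (CellChain.pt_eq (C := T.Z.toChain μ) (μ := μ) (s := 0) hep
      (fun _ => Filter.Eventually.of_forall fun t => rel μ h _ t)
      (fun _ => Filter.Eventually.of_forall fun t => rel μ h _ t)).2
    rw [h1, h2]
    change _ = -(μ.pl (fun _ => (T.f n : ℝ)) 0 / 1600 - μ.J (T.x (n - 1)) (T.x n) (T.x (n + 1))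
      (μ.pl (fun _ => (T.a (n - 1) : ℝ)) 0) (μ.pl (fun _ => (T.a n : ℝ)) 0)
      (μ.pl (fun _ => (T.a (n + 1) : ℝ)) 0) (θ - n))
    rw [μ.pl_const, μ.pl_const, μ.pl_const, μ.pl_const]
    have h3 := μ.J_linear (T.x (n - 1)) (T.x n) (T.x (n + 1)) (T.a (n - 1)) (T.a n) (T.a (n + 1)) 0 0 0 (-1) 0 (θ - n)
    simp only [zero_mul, add_zero, neg_one_mul] at h3
    rw [h3]
    ring

/-- a point and the column of its cell -/
theorem col (h : T.Good) {n : ℤ} {θ : ℝ} (hs : (T.wc n).straight = true ∨ (T.wc n).fold = true) (hθ : |θ - n| ≤ 1 / 2) :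
    |μ.pl (fun n => (T.x n : ℝ)) θ - T.x n| ≤ 1 / 2 ∧ (|μ.pl (fun n => (T.x n : ℝ)) θ - T.x n| = 1 / 2 →
      (θ = n + 1 / 2 ∧ (T.x (n + 1) : ℝ) = 2 * μ.pl (fun n => (T.x n : ℝ)) θ - T.x n) ∨
      (θ = n - 1 / 2 ∧ (T.x (n - 1) : ℝ) = 2 * μ.pl (fun n => (T.x n : ℝ)) θ - T.x n)) := by
  obtain ⟨h1, h2⟩ := WC.x_le (μ := μ) (u := 0) hs hθ
  rw [wc_pt μ h hθ] at h1 h2
  refine ⟨h1, fun h3 => ?_⟩
  rcases h2 h3 with ⟨h4, h5⟩ | ⟨h4, h5⟩
  · exact Or.inl ⟨by linarith, h5⟩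
  · exact Or.inr ⟨by linarith, h5⟩

/-- names of a point in the column `k` -/
theorem name (h : T.Good) {p q : ℤ} (hpq : ∀ n, p + 1 ≤ n → n < q → (T.wc n).straight = true ∨ (T.wc n).fold = true)
    {θ : ℝ} (h1 : p + 1 / 2 < θ) (h2 : θ < q - 1 / 2) {k : ℤ} (hk : |μ.pl (fun n => (T.x n : ℝ)) θ - k| ≤ 1 / 2) :
    (∃ n, p + 1 ≤ n ∧ n < q ∧ |θ - n| ≤ 1 / 2 ∧ T.x n = k) ∨
    (|μ.pl (fun n => (T.x n : ℝ)) θ - T.x (round θ)| < 1 / 2 ∧ k ≠ T.x (round θ)) := by
  have hr := abs_sub_round_le θ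
  have hr' := abs_le.1 hr
  have n0 : p + 1 ≤ round θ := by
    have : (p : ℝ) < (round θ : ℝ) := by linarith [hr'.2]
    have : p < round θ := by exact_mod_cast this
    omega
  have n1 : round θ < q := by
    have : (round θ : ℝ) < (q : ℝ) := by linarith [hr'.1]
    exact_mod_cast this
  by_cases hx : T.x (round θ) = k
  · exact Or.inl ⟨round θ, n0, n1, hr, hx⟩
  obtain ⟨c1, c2⟩ := col μ h (hpq _ n0 n1) hr
  rcases c1.lt_or_eq with c3 | c3
  · exact Or.inr ⟨c3, fun h3 => hx h3.symm⟩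
  left
  have hk' := abs_le.1 hk
  -- the next column is `k`
  have key : ∀ y : ℤ, (y : ℝ) = 2 * μ.pl (fun n => (T.x n : ℝ)) θ - T.x (round θ) → y = k := by
    intro y hy
    rcases (abs_eq (by norm_num)).1 c3 with c4 | c4
    · have e1 : (y : ℝ) = T.x (round θ) + 1 := by linarith
      have e2 : y = T.x (round θ) + 1 := by exact_mod_cast e1
      have h3 : (k : ℝ) ≤ T.x (round θ) + 1 := by linarith [hk'.1]
      have h4 : (T.x (round θ) : ℝ) ≤ k := by linarith [hk'.2]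
      have h5 : k ≤ T.x (round θ) + 1 := by exact_mod_cast h3
      have h6 : T.x (round θ) ≤ k := by exact_mod_cast h4
      omega
    · have e1 : (y : ℝ) = T.x (round θ) - 1 := by linarith
      have e2 : y = T.x (round θ) - 1 := by exact_mod_cast e1
      have h3 : (T.x (round θ) : ℝ) - 1 ≤ k := by linarith [hk'.2]
      have h4 : (k : ℝ) ≤ T.x (round θ) := by linarith [hk'.1]
      have h5 : T.x (round θ) - 1 ≤ k := by exact_mod_cast h3
      have h6 : k ≤ T.x (round θ) := by exact_mod_cast h4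
      omega
  rcases c2 c3 with ⟨c4, c5⟩ | ⟨c4, c5⟩
  · refine ⟨round θ + 1, by omega, ?_, ?_, key _ c5⟩
    · have : ((round θ : ℤ) : ℝ) + 1 < q := by linarith
      exact_mod_cast this
    · rw [c4]
      push_cast
      have e : (round (round θ + 1 / 2 : ℝ) : ℝ) + 1 / 2 - (round (round θ + 1 / 2 : ℝ) + 1) = -(1 / 2) := by ring
      rw [← c4] at e ⊢
      rw [abs_le]
      constructor <;> linarith
  · refine ⟨round θ - 1, ?_, by omega, ?_, key _ c5⟩
    · have : (p : ℝ) + 1 < ((round θ : ℤ) : ℝ) := by linarith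
      have : p + 1 < round θ := by exact_mod_cast this
      omega
    · rw [abs_le]
      push_cast
      constructor <;> linarith

theorem cross (h : T.Good) {θ θ' : ℝ} (h0 : 0 < θ) (h1 : θ < T.m) (h0' : T.m < θ') (h1' : θ' < T.N)
    (hy : μ.pl (fun n => (T.a n : ℝ)) θ = μ.pl (fun n => (T.a n : ℝ)) θ')
    (hx : μ.pl (fun n => (T.x n : ℝ)) θ = μ.pl (fun n => (T.x n : ℝ)) θ') : T.prim μ θ < T.prim μ θ' := by
  rcases near_ends μ h h0 h1 h0' h1' hy with h2 | ⟨h2, h3, h4, h5⟩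
  · exact absurd hx h2
  -- names in the same column
  have hs1 : ∀ n, (0 : ℤ) + 1 ≤ n → n < T.m → (T.wc n).straight = true ∨ (T.wc n).fold = true := fun n k1 k2 =>
    shape h (Or.inl ⟨by omega, k2⟩)
  have hs2 : ∀ n, T.m + 1 ≤ n → n < T.N → (T.wc n).straight = true ∨ (T.wc n).fold = true := fun n k1 k2 =>
    shape h (Or.inr ⟨k1, k2⟩)
  obtain ⟨n, n', a1, a2, a3, b1, b2, b3, hc⟩ : ∃ n n' : ℤ, (0 : ℤ) + 1 ≤ n ∧ n < T.m ∧ |θ - n| ≤ 1 / 2 ∧
      T.m + 1 ≤ n' ∧ n' < T.N ∧ |θ' - n'| ≤ 1 / 2 ∧ T.x n = T.x n' := by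
    have hr := abs_sub_round_le θ
    have hr' := abs_le.1 hr
    have hq := abs_sub_round_le θ'
    have hq' := abs_le.1 hq
    have n0 : (0 : ℤ) + 1 ≤ round θ := by
      have : ((0 : ℤ) : ℝ) < (round θ : ℝ) := by push_cast; linarith [hr'.2]
      have : 0 < round θ := by exact_mod_cast this
      omega
    have n1 : round θ < T.m := by
      have : (round θ : ℝ) < (T.m : ℝ) := by linarith [hr'.1]
      exact_mod_cast this
    have m0 : T.m + 1 ≤ round θ' := by
      have : (T.m : ℝ) < (round θ' : ℝ) := by linarith [hq'.2]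
      have : T.m < round θ' := by exact_mod_cast this
      omega
    have m1 : round θ' < T.N := by
      have : (round θ' : ℝ) < (T.N : ℝ) := by linarith [hq'.1]
      exact_mod_cast this
    obtain ⟨c1, -⟩ := col μ h (hs1 _ n0 n1) hr
    obtain ⟨d1, -⟩ := col μ h (hs2 _ m0 m1) hq
    rcases name μ h hs1 (θ := θ) (by push_cast; linarith) (by linarith) (k := T.x (round θ')) (by rw [hx]; exact d1) with
      ⟨n, e1, e2, e3, e4⟩ | ⟨e1, e2⟩
    · exact ⟨n, round θ', e1, e2, e3, m0, m1, hq, e4⟩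
    rcases name μ h hs2 (θ := θ') (by linarith) (by linarith) (k := T.x (round θ)) (by rw [← hx]; exact c1) with
      ⟨n', f1, f2, f3, f4⟩ | ⟨f1, f2⟩
    · exact ⟨round θ, n', n0, n1, hr, f1, f2, f3, f4.symm⟩
    · exfalso
      rw [hx] at e1
      have e1' := abs_lt.1 e1
      have f1' := abs_lt.1 f1
      have g1 : (T.x (round θ) : ℝ) < T.x (round θ') + 1 := by linarith [e1'.1, e1'.2, f1'.1, f1'.2]
      have g2 : (T.x (round θ') : ℝ) < T.x (round θ) + 1 := by linarith [e1'.1, e1'.2, f1'.1, f1'.2]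
      have g3 : T.x (round θ) < T.x (round θ') + 1 := by exact_mod_cast g1
      have g4 : T.x (round θ') < T.x (round θ) + 1 := by exact_mod_cast g2
      omega
  have hord := pair h (by omega) a2 b1 b2 hc
  have e1 := wc_pt μ h a3
  have e2 := wc_pt μ h b3
  have hfin := WC.orderTest_sound μ (T.wc n) (T.wc n') (hs1 n a1 a2) (hs2 n' b1 b2) (wc_ok h n) (wc_ok h n') hc hord
    (u := 0) a3 b3 (by norm_num) (by rw [e1, e2]; exact hx) (by rw [e1, e2]; simp only; rw [hy])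
  rw [e1, e2] at hfin
  simp only at hfin
  linarith

/-- the input of the top -/
noncomputable def topIn (h : T.Good) (Λ s₀ : ℝ) (hΛ : 1 ≤ Λ) : TopIn μ where
  N := T.N
  m := T.m
  R := T.a T.m
  h := (T.a 1 - T.a 0 : ℤ)
  Λ := Λ
  s₀ := s₀
  x := μ.pl fun n => (T.x n : ℝ)
  y := μ.pl fun n => (T.a n : ℝ)
  f := T.prim μ
  m_pos := by exact_mod_cast (ok h).1
  m_lt := by exact_mod_cast (ok h).2.1
  h_pos := by
    have := (ok h).2.2.2.1 0 le_rfl (by have := (ok h).1; omega)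
    rw [zero_add] at this
    exact_mod_cast (by omega : 0 < T.a 1 - T.a 0)
  Λ_pos := hΛ
  hR := by
    obtain ⟨a1, -, -, a5, -, -, -, -, -, -, -, -, -, a15, a16⟩ := ok h
    have k0 := a5 0 le_rfl (by omega)
    rw [zero_add] at k0
    have k1 : (0 : ℝ) < ((T.a 1 - T.a 0 : ℤ) : ℝ) := by exact_mod_cast (by omega : 0 < T.a 1 - T.a 0)
    have k2 : ((T.a 1 - T.a 0 : ℤ) : ℝ) ≤ 4 * T.a T.m := by exact_mod_cast a16
    have k3 := mul_lt_mul_of_pos_left (lt_of_le_of_lt μ.Q_zero_le μ.ep_lt) k1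
    linarith
  x_smooth := μ.pl_contDiff _
  y_smooth := μ.pl_contDiff _
  f_smooth := prim_smooth μ h
  x_per := pl_per μ fun n => (h.per n).1
  y_per := pl_per μ fun n => (h.per n).2.1
  f_per := fun θ => ((perC μ h).pt θ 0).2
  f_deriv := prim_deriv μ h
  y_min := by
    intro v hv
    obtain ⟨-, -, -, -, -, a7, -, -, a10, -⟩ := ok h
    have h1 : |v - ((0 : ℤ) : ℝ)| ≤ 1 - μ.ep := by
      rw [Int.cast_zero, sub_zero]; linarith [μ.ep_lt]
    rw [μ.pl_eq _ h1, zero_add, Int.cast_zero, sub_zero]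
    have h2 := μ.tri_fold (T.a 0 : ℝ) ((T.a 1 - T.a 0 : ℤ) : ℝ) v
    have e1 : (T.a 0 : ℝ) + ((T.a 1 - T.a 0 : ℤ) : ℝ) = T.a 1 := by push_cast; ring
    have e2 : (T.a (0 - 1) : ℝ) = T.a 1 := by
      have : T.a (0 - 1) = T.a 1 := a7
      rw [this]
    rw [e1] at h2
    rw [e2, h2, a10]
    push_cast
    ring
  y_max := by
    intro v hv
    obtain ⟨-, -, -, -, -, -, a8, a9, a10, -⟩ := ok h
    have h1 : |(T.m : ℝ) + v - (T.m : ℝ)| ≤ 1 - μ.ep := by
      rw [add_sub_cancel_left]; linarith [μ.ep_lt]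
    rw [μ.pl_eq _ h1, add_sub_cancel_left]
    have h2 := μ.tri_fold (T.a T.m : ℝ) (-((T.a 1 - T.a 0 : ℤ) : ℝ)) v
    have e1 : (T.a T.m : ℝ) + -((T.a 1 - T.a 0 : ℤ) : ℝ) = T.a (T.m - 1) := by rw [a9]; push_cast; ring
    rw [e1] at h2
    rw [← a8, h2]
    ring
  y_incr := fun θ h0 h1 => dy_pos μ h h0 h1
  y_decr := fun θ h0 h1 => dy_neg μ h h0 h1
  x_min := by
    obtain ⟨-, -, -, -, -, -, -, -, -, a11, a12, -⟩ := ok h
    apply μ.deriv_pl_pos
    · rw [round_zero, zero_add]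
      exact_mod_cast (by omega : T.x 0 < T.x 1)
    · rw [round_zero]
      have : T.x (0 - 1) < T.x 0 := by
        have e : T.x (0 - 1) = T.x (-1) := rfl
        omega
      exact_mod_cast this
  x_max := by
    obtain ⟨-, -, -, -, -, -, -, -, -, -, -, a13, a14, -⟩ := ok h
    apply μ.deriv_pl_pos
    · rw [round_intCast]
      exact_mod_cast (by omega : T.x T.m < T.x (T.m + 1))
    · rw [round_intCast]
      exact_mod_cast (by omega : T.x (T.m - 1) < T.x T.m)
  cross := fun θ θ' h0 h1 h0' h1' hy hx => cross μ h h0 h1 h0' h1' hy hx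

end TopTab

end Pool.Agent.Lib_MP_59ec1f_cap
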