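import Pool.Agent.Lib_MP_59ec1f_cap.Defs

/-!
# Four families of arcs and the torus without a point

`ArcSys A`: at the level `s` the four arcs `A k · s` (`k = 0, 1, 2, 3`) have the ends glued as follows:
for `s ≤ 1` the start of `1` is the end of `0` and the start of `3` the end of `2`; for `s ≥ 1` the start of `1` is the end of `2` and the start
of `3` the end of `0`; for `s ≤ 2` the start of `0` is the end of `3` and the start of `2` the end of `1`; for `s ≥ 2` the start of `0` is the end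
of `1` and the start of `2` the end of `3`; at `s = 3` everything is one point.
-/

set_option autoImplicit false

open Set Topology Filter

namespace Pool.Agent.Lib_MP_59ec1f_cap

/-- systems of arcs, the levels of the events are `1`, `2`, `3` -/
structure ArcSys {Z : Type} (A : Fin 4 → ℝ → ℝ → Z) : Prop where
  b0 : ∀ s ∈ Ioc (0 : ℝ) 3, s ≤ 2 → A 0 0 s = A 3 1 s
  b2 : ∀ s ∈ Ioc (0 : ℝ) 3, s ≤ 2 → A 2 0 s = A 1 1 s
  b0' : ∀ s ∈ Ioc (0 : ℝ) 3, 2 ≤ s → A 0 0 s = A 1 1 s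
  b2' : ∀ s ∈ Ioc (0 : ℝ) 3, 2 ≤ s → A 2 0 s = A 3 1 s
  b1 : ∀ s ∈ Ioc (0 : ℝ) 3, s ≤ 1 → A 1 0 s = A 0 1 s
  b3 : ∀ s ∈ Ioc (0 : ℝ) 3, s ≤ 1 → A 3 0 s = A 2 1 s
  b1' : ∀ s ∈ Ioc (0 : ℝ) 3, 1 ≤ s → A 1 0 s = A 2 1 s
  b3' : ∀ s ∈ Ioc (0 : ℝ) 3, 1 ≤ s → A 3 0 s = A 0 1 s
  top : ∀ k, ∀ u ∈ Icc (0 : ℝ) 1, A k u 3 = A 0 0 3
  inj : ∀ s ∈ Ioo (0 : ℝ) 3, ∀ k l, ∀ u ∈ Ioc (0 : ℝ) 1, ∀ v ∈ Ioc (0 : ℝ) 1, A k u s = A l v s →
    (k = l ∧ u = v) ∨ (s = 1 ∧ u = 1 ∧ v = 1 ∧ (k = 0 ∧ l = 2 ∨ k = 2 ∧ l = 0)) ∨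
      (s = 2 ∧ u = 1 ∧ v = 1 ∧ (k = 1 ∧ l = 3 ∨ k = 3 ∧ l = 1))
  lev : ∃ f : Z → ℝ, ∀ s ∈ Ioc (0 : ℝ) 3, ∀ k, ∀ u ∈ Icc (0 : ℝ) 1, f (A k u s) = s

namespace ArcSys

variable {Z Z' : Type} {A : Fin 4 → ℝ → ℝ → Z} {B : Fin 4 → ℝ → ℝ → Z'}

/-- the starts are ends: simultaneously for two systems -/
theorem start_eq (hA : ArcSys A) (hB : ArcSys B) {s : ℝ} (hs : s ∈ Ioc (0 : ℝ) 3) (k : Fin 4) :
    ∃ l : Fin 4, A k 0 s = A l 1 s ∧ B k 0 s = B l 1 s := by
  fin_cases k
  · rcases le_total s 2 with h | h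
    · exact ⟨3, hA.b0 s hs h, hB.b0 s hs h⟩
    · exact ⟨1, hA.b0' s hs h, hB.b0' s hs h⟩
  · rcases le_total s 1 with h | h
    · exact ⟨0, hA.b1 s hs h, hB.b1 s hs h⟩
    · exact ⟨2, hA.b1' s hs h, hB.b1' s hs h⟩
  · rcases le_total s 2 with h | h
    · exact ⟨1, hA.b2 s hs h, hB.b2 s hs h⟩
    · exact ⟨3, hA.b2' s hs h, hB.b2' s hs h⟩
  · rcases le_total s 1 with h | h
    · exact ⟨2, hA.b3 s hs h, hB.b3 s hs h⟩
    · exact ⟨0, hA.b3' s hs h, hB.b3' s hs h⟩

/-- positive parameters suffice -/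
theorem norm_eq (hA : ArcSys A) (hB : ArcSys B) {s : ℝ} (hs : s ∈ Ioc (0 : ℝ) 3) (k : Fin 4) {u : ℝ}
    (hu : u ∈ Icc (0 : ℝ) 1) : ∃ l : Fin 4, ∃ v ∈ Ioc (0 : ℝ) 1, A k u s = A l v s ∧ B k u s = B l v s := by
  rcases hu.1.eq_or_lt with h | h
  · obtain ⟨l, h1, h2⟩ := hA.start_eq hB hs k
    refine ⟨l, 1, ⟨one_pos, le_refl _⟩, ?_, ?_⟩
    · rw [← h]; exact h1
    · rw [← h]; exact h2
  · exact ⟨k, u, ⟨h, hu.2⟩, rfl, rfl⟩

/-- two systems have the same identifications -/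
theorem ker (hA : ArcSys A) (hB : ArcSys B) {s s' : ℝ} (hs : s ∈ Ioc (0 : ℝ) 3) (hs' : s' ∈ Ioc (0 : ℝ) 3)
    {k l : Fin 4} {u v : ℝ} (hu : u ∈ Icc (0 : ℝ) 1) (hv : v ∈ Icc (0 : ℝ) 1) (h : A k u s = A l v s') :
    B k u s = B l v s' := by
  obtain ⟨f, hf⟩ := hA.lev
  have e : s = s' := by
    have h1 := hf s hs k u hu
    have h2 := hf s' hs' l v hv
    rw [← h1, h, h2]
  subst e
  rcases hs.2.eq_or_lt with h3 | h3
  · rw [h3, hB.top k u hu, hB.top l v hv]
  · obtain ⟨k', u', hu', ek, ek'⟩ := hA.norm_eq hB hs k hu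
    obtain ⟨l', v', hv', el, el'⟩ := hA.norm_eq hB hs l hv
    rw [ek', el']
    rw [ek, el] at h
    have hs1 : (1 : ℝ) ∈ Ioc (0 : ℝ) 3 := ⟨by norm_num, by norm_num⟩
    have hs2 : (2 : ℝ) ∈ Ioc (0 : ℝ) 3 := ⟨by norm_num, by norm_num⟩
    have e1 : B 0 1 1 = B 2 1 1 := by
      rw [← hB.b1 1 hs1 (le_refl _), hB.b1' 1 hs1 (le_refl _)]
    have e2 : B 1 1 2 = B 3 1 2 := by
      rw [← hB.b2 2 hs2 (le_refl _), hB.b2' 2 hs2 (le_refl _)]
    rcases hA.inj s ⟨hs.1, h3⟩ k' l' u' hu' v' hv' h with ⟨h4, h5⟩ | ⟨h4, h5, h6, h7⟩ | ⟨h4, h5, h6, h7⟩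
    · rw [h4, h5]
    · rw [h4, h5, h6]
      rcases h7 with ⟨h8, h9⟩ | ⟨h8, h9⟩
      · rw [h8, h9, e1]
      · rw [h8, h9, e1]
    · rw [h4, h5, h6]
      rcases h7 with ⟨h8, h9⟩ | ⟨h8, h9⟩
      · rw [h8, h9, e2]
      · rw [h8, h9, e2]

end ArcSys

/-! ## The system of arcs of the torus -/

/-- the point of the torus with the coordinates `x` (mod 4), `y` (mod 2) -/
noncomputable def ee (x y : ℝ) : Circle × Circle := (Circle.exp (Real.pi / 2 * x), Circle.exp (Real.pi * y))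

/-- larger and smaller end of the level `s` in the quadrant -/
noncomputable def xmax (s : ℝ) : ℝ := min s 2

/-- smaller end -/
noncomputable def xmin (s : ℝ) : ℝ := max (s - 1) 0

/-- coordinates of the arcs in the plane -/
noncomputable def arcX : Fin 4 → ℝ → ℝ → ℝ
  | 0, u, s => (1 - u) * xmax s + u * xmin s
  | 1, u, s => -(u * xmax s + (1 - u) * xmin s)
  | 2, u, s => -((1 - u) * xmax s + u * xmin s)
  | 3, u, s => u * xmax s + (1 - u) * xmin s

/-- coordinates of the arcs in the plane -/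
noncomputable def arcY : Fin 4 → ℝ → ℝ → ℝ
  | 0, u, s => s - ((1 - u) * xmax s + u * xmin s)
  | 1, u, s => s - (u * xmax s + (1 - u) * xmin s)
  | 2, u, s => -(s - ((1 - u) * xmax s + u * xmin s))
  | 3, u, s => -(s - (u * xmax s + (1 - u) * xmin s))

/-- the arcs in the torus -/
noncomputable def arcP (k : Fin 4) (u s : ℝ) : Circle × Circle := ee (arcX k u s) (arcY k u s)

theorem exp_eq_iff4 {x x' : ℝ} (h : Circle.exp (Real.pi / 2 * x) = Circle.exp (Real.pi / 2 * x')) :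
    ∃ m : ℤ, x = x' + 4 * m := by
  rw [Circle.exp_eq_exp] at h
  obtain ⟨m, hm⟩ := h
  refine ⟨m, ?_⟩
  have hp := Real.pi_pos.ne'
  field_simp at hm
  have h2 : Real.pi * x = Real.pi * (x' + 4 * m) := by
    linear_combination Real.pi * hm
  exact mul_left_cancel₀ hp h2

theorem exp_eq_iff2 {y y' : ℝ} (h : Circle.exp (Real.pi * y) = Circle.exp (Real.pi * y')) :
    ∃ m : ℤ, y = y' + 2 * m := by
  rw [Circle.exp_eq_exp] at h
  obtain ⟨m, hm⟩ := h
  refine ⟨m, ?_⟩
  have hp := Real.pi_pos.ne'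
  have h2 : Real.pi * y = Real.pi * (y' + 2 * m) := by
    rw [hm]
    ring
  exact mul_left_cancel₀ hp h2

theorem exp_add4 (x : ℝ) (m : ℤ) : Circle.exp (Real.pi / 2 * (x + 4 * m)) = Circle.exp (Real.pi / 2 * x) := by
  rw [Circle.exp_eq_exp]
  exact ⟨m, by ring⟩

theorem exp_add2 (y : ℝ) (m : ℤ) : Circle.exp (Real.pi * (y + 2 * m)) = Circle.exp (Real.pi * y) := by
  rw [Circle.exp_eq_exp]
  exact ⟨m, by ring⟩

theorem xbounds {s : ℝ} (hs : s ∈ Ioc (0 : ℝ) 3) : 0 ≤ xmin s ∧ xmin s ≤ xmax s ∧ xmax s ≤ 2 ∧ s - xmin s ≤ 1 ∧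
    0 ≤ s - xmax s ∧ (s < 3 → xmin s < xmax s) := by
  unfold xmin xmax
  obtain ⟨h1, h2⟩ := hs
  refine ⟨le_max_right _ _, ?_, min_le_right _ _, ?_, ?_, ?_⟩
  · rcases le_total s 2 with h | h <;> rcases le_total s 1 with h' | h' <;>
      simp only [min_eq_left, min_eq_right, max_eq_left, max_eq_right, h, sub_nonneg, h', sub_nonpos] <;> linarith
  · have := le_max_left (s - 1) 0
    linarith
  · have := min_le_left s 2
    linarith
  · intro h3
    rw [max_lt_iff, lt_min_iff, lt_min_iff]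
    refine ⟨⟨by linarith, by linarith⟩, ⟨h1, by norm_num⟩⟩

theorem ee_congr {x y x' y' : ℝ} (m n : ℤ) (hx : x = x' + 4 * m) (hy : y = y' + 2 * n) : ee x y = ee x' y' := by
  unfold ee
  rw [hx, hy, exp_add4, exp_add2]

/-- the level of a point of the torus -/
noncomputable def levT (p : Circle × Circle) : ℝ :=
  2 / Real.pi * Real.arccos (p.1 : ℂ).re + 1 / Real.pi * Real.arccos (p.2 : ℂ).re

theorem levT_continuous : Continuous levT := by
  unfold levT
  apply Continuous.add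
  · exact continuous_const.mul (Real.continuous_arccos.comp
      (Complex.continuous_re.comp (continuous_subtype_val.comp continuous_fst)))
  · exact continuous_const.mul (Real.continuous_arccos.comp
      (Complex.continuous_re.comp (continuous_subtype_val.comp continuous_snd)))

theorem re_exp (t : ℝ) : (Circle.exp t : ℂ).re = Real.cos t := by
  rw [Circle.coe_exp, Complex.exp_ofReal_mul_I_re]

theorem arccos_exp {t : ℝ} (h : |t| ≤ Real.pi) : Real.arccos (Circle.exp t : ℂ).re = |t| := by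
  rw [re_exp, ← Real.cos_abs]
  exact Real.arccos_cos (abs_nonneg _) h

theorem levT_ee {x y : ℝ} (hx : |x| ≤ 2) (hy : |y| ≤ 1) : levT (ee x y) = |x| + |y| := by
  have hp := Real.pi_pos
  unfold levT ee
  rw [arccos_exp, arccos_exp, abs_mul, abs_mul, abs_of_pos hp, abs_of_pos (by positivity : (0 : ℝ) < Real.pi / 2)]
  · field_simp
  · rw [abs_mul, abs_of_pos hp]
    nlinarith
  · rw [abs_mul, abs_of_pos (by positivity : (0 : ℝ) < Real.pi / 2)]
    nlinarith

/-- the `x`-coordinate of the level `s` in the positive quadrant -/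
theorem conv_bounds {a b u : ℝ} (hab : a ≤ b) (hu : u ∈ Icc (0 : ℝ) 1) : a ≤ (1 - u) * b + u * a ∧
    (1 - u) * b + u * a ≤ b ∧ a ≤ u * b + (1 - u) * a ∧ u * b + (1 - u) * a ≤ b := by
  obtain ⟨h1, h2⟩ := hu
  refine ⟨?_, ?_, ?_, ?_⟩ <;> nlinarith

/-- signs and sizes of the coordinates of the arcs -/
theorem arc_coord {s : ℝ} (hs : s ∈ Ioc (0 : ℝ) 3) (k : Fin 4) {u : ℝ} (hu : u ∈ Icc (0 : ℝ) 1) :
    ∃ c, xmin s ≤ c ∧ c ≤ xmax s ∧ 0 ≤ c ∧ c ≤ 2 ∧ 0 ≤ s - c ∧ s - c ≤ 1 ∧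
      ((arcX k u s = c ∨ arcX k u s = -c) ∧ (arcY k u s = s - c ∨ arcY k u s = -(s - c))) := by
  obtain ⟨h1, h2, h3, h4, h5, h6⟩ := xbounds hs
  obtain ⟨c1, c2, c3, c4⟩ := conv_bounds h2 hu
  fin_cases k
  · exact ⟨(1 - u) * xmax s + u * xmin s, c1, c2, by linarith, by linarith, by linarith, by linarith,
      Or.inl rfl, Or.inl rfl⟩
  · exact ⟨u * xmax s + (1 - u) * xmin s, c3, c4, by linarith, by linarith, by linarith, by linarith,
      Or.inr rfl, Or.inl rfl⟩
  · exact ⟨(1 - u) * xmax s + u * xmin s, c1, c2, by linarith, by linarith, by linarith, by linarith,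
      Or.inr rfl, Or.inr rfl⟩
  · exact ⟨u * xmax s + (1 - u) * xmin s, c3, c4, by linarith, by linarith, by linarith, by linarith,
      Or.inl rfl, Or.inr rfl⟩

theorem levT_arcP {s : ℝ} (hs : s ∈ Ioc (0 : ℝ) 3) (k : Fin 4) {u : ℝ} (hu : u ∈ Icc (0 : ℝ) 1) :
    levT (arcP k u s) = s := by
  obtain ⟨c, -, -, h1, h2, h3, h4, h5, h6⟩ := arc_coord hs k hu
  have ex : |arcX k u s| = c := by
    rcases h5 with h | h
    · rw [h, abs_of_nonneg h1]
    · rw [h, abs_neg, abs_of_nonneg h1]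
  have ey : |arcY k u s| = s - c := by
    rcases h6 with h | h
    · rw [h, abs_of_nonneg h3]
    · rw [h, abs_neg, abs_of_nonneg h3]
  unfold arcP
  rw [levT_ee (by rw [ex]; exact h2) (by rw [ey]; exact h4), ex, ey]
  ring

private theorem im0 {m : ℤ} {t c : ℝ} (hc : 0 < c) (h : t = c * m) (h1 : -c < t) (h2 : t < c) : t = 0 := by
  have h3 : (m : ℝ) < 1 := by
    by_contra h4
    push Not at h4
    nlinarith
  have h5 : (-1 : ℝ) < m := by
    by_contra h4
    push Not at h4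
    nlinarith
  have h6 : m < 1 := by exact_mod_cast h3
  have h7 : -1 < m := by exact_mod_cast h5
  have h8 : m = 0 := by omega
  rw [h, h8]
  simp

private theorem im1 {m : ℤ} {t c : ℝ} (hc : 0 < c) (h : t = c * m) (h1 : 0 < t) (h2 : t ≤ c) : t = c := by
  have h3 : (m : ℝ) < 2 := by
    by_contra h4
    push Not at h4
    nlinarith
  have h5 : (0 : ℝ) < m := by
    by_contra h4
    push Not at h4
    nlinarith
  have h6 : m < 2 := by exact_mod_cast h3
  have h7 : 0 < m := by exact_mod_cast h5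
  have h8 : m = 1 := by omega
  rw [h, h8]
  simp

theorem arcP_inj {s : ℝ} (hs : s ∈ Ioo (0 : ℝ) 3) (k l : Fin 4) {u v : ℝ} (hu : u ∈ Ioc (0 : ℝ) 1)
    (hv : v ∈ Ioc (0 : ℝ) 1) (h : arcP k u s = arcP l v s) :
    (k = l ∧ u = v) ∨ (s = 1 ∧ u = 1 ∧ v = 1 ∧ (k = 0 ∧ l = 2 ∨ k = 2 ∧ l = 0)) ∨
      (s = 2 ∧ u = 1 ∧ v = 1 ∧ (k = 1 ∧ l = 3 ∨ k = 3 ∧ l = 1)) := by
  obtain ⟨m, hm⟩ := exp_eq_iff4 (congrArg Prod.fst h)
  obtain ⟨n, hn⟩ := exp_eq_iff2 (congrArg Prod.snd h)
  obtain ⟨b1, b2, b3, b4, b5, b6⟩ := xbounds ⟨hs.1, hs.2.le⟩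
  have b7 := b6 hs.2
  have key : ∀ w : ℝ, w ∈ Ioc (0 : ℝ) 1 →
      (0 ≤ (1 - w) * xmax s + w * xmin s ∧ (1 - w) * xmax s + w * xmin s < 2 ∧
        0 < s - ((1 - w) * xmax s + w * xmin s) ∧ s - ((1 - w) * xmax s + w * xmin s) ≤ 1) ∧
      (0 < w * xmax s + (1 - w) * xmin s ∧ w * xmax s + (1 - w) * xmin s ≤ 2 ∧
        0 ≤ s - (w * xmax s + (1 - w) * xmin s) ∧ s - (w * xmax s + (1 - w) * xmin s) < 1) := by
    intro w hw
    have h1 : 0 < w * (xmax s - xmin s) := mul_pos hw.1 (by linarith)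
    have h2 : 0 ≤ (1 - w) * (xmax s - xmin s) := mul_nonneg (by linarith [hw.2]) (by linarith)
    have e1 : (1 - w) * xmax s + w * xmin s = xmax s - w * (xmax s - xmin s) := by ring
    have e2 : (1 - w) * xmax s + w * xmin s = xmin s + (1 - w) * (xmax s - xmin s) := by ring
    have e3 : w * xmax s + (1 - w) * xmin s = xmin s + w * (xmax s - xmin s) := by ring
    have e4 : w * xmax s + (1 - w) * xmin s = xmax s - (1 - w) * (xmax s - xmin s) := by ring
    refine ⟨⟨?_, ?_, ?_, ?_⟩, ?_, ?_, ?_, ?_⟩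
    · rw [e2]; linarith
    · rw [e1]; linarith
    · rw [e1]; linarith
    · rw [e2]; linarith
    · rw [e3]; linarith
    · rw [e4]; linarith
    · rw [e4]; linarith
    · rw [e3]; linarith
  obtain ⟨⟨u1, u2, u3, u4⟩, u5, u6, u7, u8⟩ := key u hu
  obtain ⟨⟨v1, v2, v3, v4⟩, v5, v6, v7, v8⟩ := key v hv
  -- equal parameters
  have eqE : (1 - u) * xmax s + u * xmin s = (1 - v) * xmax s + v * xmin s → u = v := by
    intro h1
    have h2 : (u - v) * (xmax s - xmin s) = 0 := by linear_combination -h1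
    rcases mul_eq_zero.1 h2 with h3 | h3
    · linarith
    · exact absurd h3 (by linarith)
  have eqO : u * xmax s + (1 - u) * xmin s = v * xmax s + (1 - v) * xmin s → u = v := by
    intro h1
    have h2 : (u - v) * (xmax s - xmin s) = 0 := by linear_combination h1
    rcases mul_eq_zero.1 h2 with h3 | h3
    · linarith
    · exact absurd h3 (by linarith)
  -- the exceptional cases
  have exE : ∀ w : ℝ, w ∈ Ioc (0 : ℝ) 1 → s = 1 → (1 - w) * xmax s + w * xmin s = 0 → w = 1 := by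
    intro w _ h1 h2
    have e1 : xmax s = 1 := by rw [h1]; exact min_eq_left (by norm_num)
    have e2 : xmin s = 0 := by rw [h1]; unfold xmin; norm_num
    rw [e1, e2] at h2
    linarith
  have exO : ∀ w : ℝ, w ∈ Ioc (0 : ℝ) 1 → s = 2 → w * xmax s + (1 - w) * xmin s = 2 → w = 1 := by
    intro w _ h1 h2
    have e1 : xmax s = 2 := by rw [h1]; exact min_eq_left (by norm_num)
    have e2 : xmin s = 1 := by rw [h1]; unfold xmin; norm_num
    rw [e1, e2] at h2
    linarith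
  have c4 : (0 : ℝ) < 4 := by norm_num
  have c2 : (0 : ℝ) < 2 := by norm_num
  set Eu : ℝ := (1 - u) * xmax s + u * xmin s with hEu
  set Ev : ℝ := (1 - v) * xmax s + v * xmin s with hEv
  set Ou : ℝ := u * xmax s + (1 - u) * xmin s with hOu
  set Ov : ℝ := v * xmax s + (1 - v) * xmin s with hOv
  fin_cases k <;> fin_cases l
  · -- 0 0
    have h1 : Eu = Ev + 4 * m := hm
    have h2 := im0 (m := m) (t := Eu - Ev) c4 (by linarith) (by linarith) (by linarith)
    exact Or.inl ⟨rfl, eqE (by linarith)⟩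
  · -- 0 1
    exfalso
    have h1 : Eu = -Ov + 4 * m := hm
    have h2 := im1 (m := m) (t := Eu + Ov) c4 (by linarith) (by linarith) (by linarith)
    linarith
  · -- 0 2
    have h1 : Eu = -Ev + 4 * m := hm
    have h2 := im0 (m := m) (t := Eu + Ev) c4 (by linarith) (by linarith) (by linarith)
    have h3 : s - Eu = -(s - Ev) + 2 * n := hn
    have h4 := im1 (m := n) (t := (s - Eu) + (s - Ev)) c2 (by linarith) (by linarith) (by linarith)
    have h5 : Eu = 0 := by linarith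
    have h6 : Ev = 0 := by linarith
    have h7 : s = 1 := by linarith
    exact Or.inr (Or.inl ⟨h7, exE u hu h7 h5, exE v hv h7 h6, Or.inl ⟨rfl, rfl⟩⟩)
  · -- 0 3
    exfalso
    have h3 : s - Eu = -(s - Ov) + 2 * n := hn
    have h4 := im1 (m := n) (t := (s - Eu) + (s - Ov)) c2 (by linarith) (by linarith) (by linarith)
    linarith
  · -- 1 0
    exfalso
    have h1 : -Ou = Ev + 4 * m := hm
    have h2 := im1 (m := -m) (t := Ou + Ev) c4 (by push_cast; linarith) (by linarith) (by linarith)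
    linarith
  · -- 1 1
    have h1 : -Ou = -Ov + 4 * m := hm
    have h2 := im0 (m := -m) (t := Ou - Ov) c4 (by push_cast; linarith) (by linarith) (by linarith)
    exact Or.inl ⟨rfl, eqO (by linarith)⟩
  · -- 1 2
    exfalso
    have h3 : s - Ou = -(s - Ev) + 2 * n := hn
    have h4 := im1 (m := n) (t := (s - Ou) + (s - Ev)) c2 (by linarith) (by linarith) (by linarith)
    linarith
  · -- 1 3
    have h1 : -Ou = Ov + 4 * m := hm
    have h2 := im1 (m := -m) (t := Ou + Ov) c4 (by push_cast; linarith) (by linarith) (by linarith)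
    have h5 : Ou = 2 := by linarith
    have h6 : Ov = 2 := by linarith
    have h3 : s - Ou = -(s - Ov) + 2 * n := hn
    have h4 := im0 (m := n) (t := (s - Ou) + (s - Ov)) c2 (by linarith) (by linarith) (by linarith)
    have h7 : s = 2 := by linarith
    exact Or.inr (Or.inr ⟨h7, exO u hu h7 h5, exO v hv h7 h6, Or.inl ⟨rfl, rfl⟩⟩)
  · -- 2 0
    have h1 : -Eu = Ev + 4 * m := hm
    have h2 := im0 (m := -m) (t := Eu + Ev) c4 (by push_cast; linarith) (by linarith) (by linarith)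
    have h3 : -(s - Eu) = (s - Ev) + 2 * n := hn
    have h4 := im1 (m := -n) (t := (s - Eu) + (s - Ev)) c2 (by push_cast; linarith) (by linarith) (by linarith)
    have h5 : Eu = 0 := by linarith
    have h6 : Ev = 0 := by linarith
    have h7 : s = 1 := by linarith
    exact Or.inr (Or.inl ⟨h7, exE u hu h7 h5, exE v hv h7 h6, Or.inr ⟨rfl, rfl⟩⟩)
  · -- 2 1
    exfalso
    have h3 : -(s - Eu) = (s - Ov) + 2 * n := hn
    have h4 := im1 (m := -n) (t := (s - Eu) + (s - Ov)) c2 (by push_cast; linarith) (by linarith) (by linarith)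
    linarith
  · -- 2 2
    have h1 : -Eu = -Ev + 4 * m := hm
    have h2 := im0 (m := -m) (t := Eu - Ev) c4 (by push_cast; linarith) (by linarith) (by linarith)
    exact Or.inl ⟨rfl, eqE (by linarith)⟩
  · -- 2 3
    exfalso
    have h1 : -Eu = Ov + 4 * m := hm
    have h2 := im1 (m := -m) (t := Eu + Ov) c4 (by push_cast; linarith) (by linarith) (by linarith)
    linarith
  · -- 3 0
    exfalso
    have h3 : -(s - Ou) = (s - Ev) + 2 * n := hn
    have h4 := im1 (m := -n) (t := (s - Ou) + (s - Ev)) c2 (by push_cast; linarith) (by linarith) (by linarith)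
    linarith
  · -- 3 1
    have h1 : Ou = -Ov + 4 * m := hm
    have h2 := im1 (m := m) (t := Ou + Ov) c4 (by linarith) (by linarith) (by linarith)
    have h5 : Ou = 2 := by linarith
    have h6 : Ov = 2 := by linarith
    have h3 : -(s - Ou) = (s - Ov) + 2 * n := hn
    have h4 := im0 (m := -n) (t := (s - Ou) + (s - Ov)) c2 (by push_cast; linarith) (by linarith) (by linarith)
    have h7 : s = 2 := by linarith
    exact Or.inr (Or.inr ⟨h7, exO u hu h7 h5, exO v hv h7 h6, Or.inr ⟨rfl, rfl⟩⟩)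
  · -- 3 2
    exfalso
    have h1 : Ou = -Ev + 4 * m := hm
    have h2 := im1 (m := m) (t := Ou + Ev) c4 (by linarith) (by linarith) (by linarith)
    linarith
  · -- 3 3
    have h1 : Ou = Ov + 4 * m := hm
    have h2 := im0 (m := m) (t := Ou - Ov) c4 (by linarith) (by linarith) (by linarith)
    exact Or.inl ⟨rfl, eqO (by linarith)⟩

theorem arcP_sys : ArcSys arcP where
  b0 := by
    intro s hs h
    have e : xmax s = s := min_eq_left h
    apply ee_congr 0 0
    · simp [arcX]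
    · simp [arcY, e]
  b2 := by
    intro s hs h
    have e : xmax s = s := min_eq_left h
    apply ee_congr 0 0
    · simp [arcX]
    · simp [arcY, e]
  b0' := by
    intro s hs h
    have e : xmax s = 2 := min_eq_right h
    apply ee_congr 1 0
    · simp [arcX, e]; norm_num
    · simp [arcY, e]
  b2' := by
    intro s hs h
    have e : xmax s = 2 := min_eq_right h
    apply ee_congr (-1) 0
    · simp [arcX, e]; norm_num
    · simp [arcY, e]
  b1 := by
    intro s hs h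
    have e : xmin s = 0 := max_eq_right (by linarith)
    apply ee_congr 0 0
    · simp [arcX, e]
    · simp [arcY, e]
  b3 := by
    intro s hs h
    have e : xmin s = 0 := max_eq_right (by linarith)
    apply ee_congr 0 0
    · simp [arcX, e]
    · simp [arcY, e]
  b1' := by
    intro s hs h
    have e : xmin s = s - 1 := max_eq_left (by linarith)
    apply ee_congr 0 1
    · simp [arcX, e]
    · simp [arcY, e]; norm_num
  b3' := by
    intro s hs h
    have e : xmin s = s - 1 := max_eq_left (by linarith)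
    apply ee_congr 0 (-1)
    · simp [arcX, e]
    · simp [arcY, e]; norm_num
  top := by
    intro k u hu
    have e1 : xmax 3 = 2 := min_eq_right (by norm_num)
    have e2 : xmin 3 = 2 := by unfold xmin; norm_num
    fin_cases k
    · apply ee_congr 0 0
      · simp [arcX, e1, e2]; ring
      · simp [arcY, e1, e2]; ring
    · apply ee_congr (-1) 0
      · simp [arcX, e1, e2]; ring
      · simp [arcY, e1, e2]; ring
    · apply ee_congr (-1) (-1)
      · simp [arcX, e1, e2]; ring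
      · simp [arcY, e1, e2]; ring
    · apply ee_congr 0 (-1)
      · simp [arcX, e1, e2]; ring
      · simp [arcY, e1, e2]; ring
  inj := fun s hs k l u hu v hv h => arcP_inj hs k l hu hv h
  lev := ⟨levT, fun s hs k u hu => levT_arcP hs k hu⟩

end Pool.Agent.Lib_MP_59ec1f_cap
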