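import Pool.Agent.Lib_MP_59ec1f_cap.Torus

/-!
# The union of a system of arcs is homeomorphic to the torus without a point
-/

set_option autoImplicit false

open Set Topology Filter

namespace Pool.Agent.Lib_MP_59ec1f_cap

/-- index, parameter, level -/
abbrev X3 := Fin 4 × (Icc (0 : ℝ) 1 × Ioc (0 : ℝ) 3)

theorem xmax_continuous : Continuous xmax := continuous_id.min continuous_const

theorem xmin_continuous : Continuous xmin := (continuous_id.sub continuous_const).max continuous_const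

theorem ee_continuous : Continuous fun p : ℝ × ℝ => ee p.1 p.2 := by
  unfold ee
  exact (Circle.exp.continuous.comp (continuous_const.mul continuous_fst)).prodMk
    (Circle.exp.continuous.comp (continuous_const.mul continuous_snd))

theorem arcP_continuous (k : Fin 4) : Continuous fun p : ℝ × ℝ => arcP k p.1 p.2 := by
  have hM : Continuous fun p : ℝ × ℝ => xmax p.2 := xmax_continuous.comp continuous_snd
  have hm : Continuous fun p : ℝ × ℝ => xmin p.2 := xmin_continuous.comp continuous_snd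
  have h1 : Continuous fun p : ℝ × ℝ => p.1 := continuous_fst
  have h2 : Continuous fun p : ℝ × ℝ => p.2 := continuous_snd
  have hE : Continuous fun p : ℝ × ℝ => (1 - p.1) * xmax p.2 + p.1 * xmin p.2 :=
    ((continuous_const.sub h1).mul hM).add (h1.mul hm)
  have hO : Continuous fun p : ℝ × ℝ => p.1 * xmax p.2 + (1 - p.1) * xmin p.2 :=
    (h1.mul hM).add ((continuous_const.sub h1).mul hm)
  unfold arcP
  fin_cases k
  · exact ee_continuous.comp (hE.prodMk (h2.sub hE))
  · exact ee_continuous.comp (hO.neg.prodMk (h2.sub hO))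
  · exact ee_continuous.comp (hE.neg.prodMk (h2.sub hE).neg)
  · exact ee_continuous.comp (hO.prodMk (h2.sub hO).neg)

theorem levT_one : levT 1 = 0 := by
  have h : (1 : Circle × Circle) = ee 0 0 := by
    unfold ee
    simp
    rfl
  rw [h, levT_ee (by simp) (by simp)]
  simp

theorem arcP_ne_one {s : ℝ} (hs : s ∈ Ioc (0 : ℝ) 3) (k : Fin 4) {u : ℝ} (hu : u ∈ Icc (0 : ℝ) 1) :
    arcP k u s ≠ 1 := by
  intro h
  have h1 := levT_arcP hs k hu
  rw [h, levT_one] at h1
  exact hs.1.ne h1

/-- the map to the torus without a point -/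
noncomputable def PT (p : X3) : PuncturedTorus :=
  ⟨arcP p.1 p.2.1 p.2.2, arcP_ne_one p.2.2.2 p.1 p.2.1.2⟩

theorem PT_continuous : Continuous PT := by
  apply Continuous.subtype_mk
  rw [continuous_prod_of_discrete_left]
  intro k
  exact (arcP_continuous k).comp ((continuous_subtype_val.comp continuous_fst).prodMk
    (continuous_subtype_val.comp continuous_snd))

private theorem conv_exists {a b c : ℝ} (h1 : a ≤ c) (h2 : c ≤ b) : ∃ u ∈ Icc (0 : ℝ) 1, (1 - u) * b + u * a = c := by
  rcases eq_or_lt_of_le (h1.trans h2) with h | h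
  · refine ⟨0, ⟨le_refl _, zero_le_one⟩, ?_⟩
    have : c = b := le_antisymm h2 (h ▸ h1)
    rw [this]
    ring
  · have h3 : 0 < b - a := by linarith
    refine ⟨(b - c) / (b - a), ⟨div_nonneg (by linarith) h3.le, (div_le_one h3).2 (by linarith)⟩, ?_⟩
    field_simp
    ring

theorem PT_surjective : Function.Surjective PT := by
  rintro ⟨⟨z, w⟩, hzw⟩
  have hp := Real.pi_pos
  set x : ℝ := 2 / Real.pi * Complex.arg z with hx
  set y : ℝ := 1 / Real.pi * Complex.arg w with hy
  have ez : Circle.exp (Real.pi / 2 * x) = z := by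
    have : Real.pi / 2 * x = Complex.arg z := by
      rw [hx]
      field_simp
    rw [this]
    exact Circle.exp_arg z
  have ew : Circle.exp (Real.pi * y) = w := by
    have : Real.pi * y = Complex.arg w := by
      rw [hy]
      field_simp
    rw [this]
    exact Circle.exp_arg w
  have hx2 : |x| ≤ 2 := by
    rw [hx, abs_mul, abs_of_pos (by positivity : (0 : ℝ) < 2 / Real.pi)]
    have := Complex.abs_arg_le_pi z
    calc 2 / Real.pi * |Complex.arg z| ≤ 2 / Real.pi * Real.pi := by gcongr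
      _ = 2 := by field_simp
  have hy1 : |y| ≤ 1 := by
    rw [hy, abs_mul, abs_of_pos (by positivity : (0 : ℝ) < 1 / Real.pi)]
    have := Complex.abs_arg_le_pi w
    calc 1 / Real.pi * |Complex.arg w| ≤ 1 / Real.pi * Real.pi := by gcongr
      _ = 1 := by field_simp
  have hne : x ≠ 0 ∨ y ≠ 0 := by
    by_contra h
    push Not at h
    apply hzw
    rw [← ez, ← ew, h.1, h.2]
    simp
  set s : ℝ := |x| + |y| with hs
  have hs0 : 0 < s := by
    rcases hne with h | h
    · have := abs_pos.2 h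
      have := abs_nonneg y
      linarith
    · have := abs_pos.2 h
      have := abs_nonneg x
      linarith
  have hs3 : s ≤ 3 := by linarith
  have c1 : xmin s ≤ |x| := max_le (by linarith) (abs_nonneg x)
  have c2 : |x| ≤ xmax s := le_min (by have := abs_nonneg y; linarith) hx2
  obtain ⟨u, hu, hux⟩ := conv_exists c1 c2
  have hu' : 1 - u ∈ Icc (0 : ℝ) 1 := ⟨by linarith [hu.2], by linarith [hu.1]⟩
  have hux' : (1 - u) * xmax s + (1 - (1 - u)) * xmin s = |x| := by rw [← hux]; ring
  have hfin : ∀ (k : Fin 4) (v : ℝ) (hv : v ∈ Icc (0 : ℝ) 1), arcX k v s = x → arcY k v s = y →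
      ∃ p : X3, PT p = ⟨(z, w), hzw⟩ := by
    intro k v hv h1 h2
    refine ⟨(k, ⟨v, hv⟩, ⟨s, hs0, hs3⟩), Subtype.ext ?_⟩
    change ee (arcX k v s) (arcY k v s) = (z, w)
    rw [h1, h2]
    exact Prod.ext ez ew
  rcases le_total 0 x with h0 | h0
  · have ax : |x| = x := abs_of_nonneg h0
    rcases le_total 0 y with h1 | h1
    · have ay : |y| = y := abs_of_nonneg h1
      apply hfin 0 u hu
      · change (1 - u) * xmax s + u * xmin s = x
        rw [hux, ax]
      · change s - ((1 - u) * xmax s + u * xmin s) = y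
        rw [hux, hs, ay]
        ring
    · have ay : |y| = -y := abs_of_nonpos h1
      apply hfin 3 (1 - u) hu'
      · change (1 - u) * xmax s + (1 - (1 - u)) * xmin s = x
        rw [hux', ax]
      · change -(s - ((1 - u) * xmax s + (1 - (1 - u)) * xmin s)) = y
        rw [hux', hs, ay]
        ring
  · have ax : |x| = -x := abs_of_nonpos h0
    rcases le_total 0 y with h1 | h1
    · have ay : |y| = y := abs_of_nonneg h1
      apply hfin 1 (1 - u) hu'
      · change -((1 - u) * xmax s + (1 - (1 - u)) * xmin s) = x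
        rw [hux', ax]
        ring
      · change s - ((1 - u) * xmax s + (1 - (1 - u)) * xmin s) = y
        rw [hux', hs, ay]
        ring
    · have ay : |y| = -y := abs_of_nonpos h1
      apply hfin 2 u hu
      · change -((1 - u) * xmax s + u * xmin s) = x
        rw [hux, ax]
        ring
      · change -(s - ((1 - u) * xmax s + u * xmin s)) = y
        rw [hux, hs, ay]
        ring

/-- the levels above `ε` are compact -/
theorem X3_compact {ε : ℝ} (hε : 0 < ε) : IsCompact {p : X3 | ε ≤ (p.2.2 : ℝ)} := by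
  have h1 : IsCompact {s : Ioc (0 : ℝ) 3 | ε ≤ (s : ℝ)} := by
    rw [Subtype.isCompact_iff]
    have : Subtype.val '' {s : Ioc (0 : ℝ) 3 | ε ≤ (s : ℝ)} = Icc ε 3 := by
      ext t
      constructor
      · rintro ⟨s, hs, rfl⟩
        exact ⟨hs, s.2.2⟩
      · rintro ⟨h1, h2⟩
        exact ⟨⟨t, lt_of_lt_of_le hε h1, h2⟩, h1, rfl⟩
    rw [this]
    exact isCompact_Icc
  have h2 : {p : X3 | ε ≤ (p.2.2 : ℝ)} = univ ×ˢ (univ ×ˢ {s : Ioc (0 : ℝ) 3 | ε ≤ (s : ℝ)}) := by
    ext p
    simp
  rw [h2]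
  exact isCompact_univ.prod (isCompact_univ.prod h1)

theorem punctured_locallyCompact : LocallyCompactSpace PuncturedTorus := isOpen_compl_singleton.locallyCompactSpace

theorem PT_proper : IsProperMap PT := by
  have := punctured_locallyCompact
  rw [isProperMap_iff_isCompact_preimage]
  refine ⟨PT_continuous, fun K hK => ?_⟩
  rcases K.eq_empty_or_nonempty with h | h
  · rw [h]
    simp
  · have hf : Continuous fun p : PuncturedTorus => levT p.1 := levT_continuous.comp continuous_subtype_val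
    obtain ⟨p₀, hp₀, hmin⟩ := hK.exists_isMinOn h hf.continuousOn
    obtain ⟨q₀, hq₀⟩ := PT_surjective p₀
    have hlev : ∀ q : X3, levT (PT q).1 = q.2.2 := fun q => levT_arcP q.2.2.2 q.1 q.2.1.2
    have hε : 0 < levT p₀.1 := by
      rw [← hq₀, hlev]
      exact q₀.2.2.2.1
    apply (X3_compact hε).of_isClosed_subset (hK.isClosed.preimage PT_continuous)
    intro q hq
    change levT p₀.1 ≤ (q.2.2 : ℝ)
    rw [← hlev]
    exact hmin hq

theorem PT_quotient : IsQuotientMap PT := PT_proper.isClosedMap.isQuotientMap PT_continuous PT_surjective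

/-- the union of a system of arcs -/
def arcUnion (A : Fin 4 → ℝ → ℝ → E4) : Set E4 := {m | ∃ k, ∃ u ∈ Icc (0 : ℝ) 1, ∃ s ∈ Ioc (0 : ℝ) 3, A k u s = m}

theorem torus_of_arcs {A : Fin 4 → ℝ → ℝ → E4} (hA : ArcSys A)
    (hc : ∀ k, ContinuousOn (fun p : ℝ × ℝ => A k p.1 p.2) (Icc 0 1 ×ˢ Ioc 0 3)) {g : ℝ → ℝ}
    (hg : ∀ s ∈ Ioc (0 : ℝ) 3, 0 < g s) (hlev : ∀ s ∈ Ioc (0 : ℝ) 3, ∀ k, ∀ u ∈ Icc (0 : ℝ) 1, A k u s 0 = g s)
    (hlim : ∀ ε > 0, ∃ δ > 0, ∀ s ∈ Ioc (0 : ℝ) 3, ε ≤ g s → δ ≤ s) :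
    Nonempty (arcUnion A ≃ₜ PuncturedTorus) ∧ ∃ C : Set E4, IsClosed C ∧ arcUnion A = C ∩ {m | 0 < m 0} := by
  have hopen : IsOpen {m : E4 | 0 < m 0} :=
    isOpen_lt continuous_const (EuclideanSpace.proj (𝕜 := ℝ) (0 : Fin 4)).continuous
  have hlc : LocallyCompactSpace {m : E4 // 0 < m 0} := hopen.locallyCompactSpace
  have hpos : ∀ p : X3, 0 < A p.1 p.2.1 p.2.2 0 := by
    intro p
    rw [hlev _ p.2.2.2 _ _ p.2.1.2]
    exact hg _ p.2.2.2
  set A' : X3 → {m : E4 // 0 < m 0} := fun p => ⟨A p.1 p.2.1 p.2.2, hpos p⟩ with hA'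
  have hA'c : Continuous A' := by
    apply Continuous.subtype_mk
    rw [continuous_prod_of_discrete_left]
    intro k
    exact (hc k).comp_continuous ((continuous_subtype_val.comp continuous_fst).prodMk
      (continuous_subtype_val.comp continuous_snd)) fun p => ⟨p.1.2, p.2.2⟩
  have hfac : Function.FactorsThrough A' PT := by
    intro p q hpq
    apply Subtype.ext
    exact arcP_sys.ker hA p.2.2.2 q.2.2.2 p.2.1.2 q.2.1.2 (congrArg Subtype.val hpq)
  set f : C(X3, PuncturedTorus) := ⟨PT, PT_continuous⟩ with hf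
  have hq : IsQuotientMap f := PT_quotient
  set Φ : C(PuncturedTorus, {m : E4 // 0 < m 0}) := hq.lift ⟨A', hA'c⟩ hfac with hΦ
  have hΦf : ∀ p : X3, Φ (PT p) = A' p := by
    intro p
    have h1 := hq.lift_comp ⟨A', hA'c⟩ hfac
    exact congrArg (fun F : C(X3, {m : E4 // 0 < m 0}) => F p) h1
  have hinj : Function.Injective Φ := by
    intro a b hab
    obtain ⟨p, rfl⟩ := PT_surjective a
    obtain ⟨q, rfl⟩ := PT_surjective b
    rw [hΦf, hΦf] at hab
    apply Subtype.ext
    exact hA.ker arcP_sys p.2.2.2 q.2.2.2 p.2.1.2 q.2.1.2 (congrArg Subtype.val hab)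
  have hproper : IsProperMap Φ := by
    rw [isProperMap_iff_isCompact_preimage]
    refine ⟨Φ.continuous, fun K hK => ?_⟩
    rcases K.eq_empty_or_nonempty with h | h
    · rw [h]
      simp
    · have hcoord : Continuous fun m : {m : E4 // 0 < m 0} => (m : E4) 0 :=
        (EuclideanSpace.proj (𝕜 := ℝ) (0 : Fin 4)).continuous.comp continuous_subtype_val
      obtain ⟨m₀, hm₀, hmin⟩ := hK.exists_isMinOn h hcoord.continuousOn
      obtain ⟨δ, hδ, hδ'⟩ := hlim ((m₀ : E4) 0) m₀.2
      apply ((X3_compact hδ).image PT_continuous).of_isClosed_subset (hK.isClosed.preimage Φ.continuous)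
      intro a ha
      obtain ⟨p, rfl⟩ := PT_surjective a
      refine ⟨p, ?_, rfl⟩
      apply hδ' _ p.2.2.2
      have h1 : (m₀ : E4) 0 ≤ ((Φ (PT p) : {m : E4 // 0 < m 0}) : E4) 0 := hmin ha
      rw [hΦf] at h1
      have h2 : ((A' p : {m : E4 // 0 < m 0}) : E4) 0 = g p.2.2 := hlev _ p.2.2.2 _ _ p.2.1.2
      rw [h2] at h1
      exact h1
  have hce : IsClosedEmbedding Φ :=
    IsClosedEmbedding.of_continuous_injective_isClosedMap Φ.continuous hinj hproper.isClosedMap
  have hrange : range Φ = range A' := by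
    ext m
    constructor
    · rintro ⟨a, rfl⟩
      obtain ⟨p, rfl⟩ := PT_surjective a
      exact ⟨p, (hΦf p).symm⟩
    · rintro ⟨p, rfl⟩
      exact ⟨PT p, hΦf p⟩
  have hM : arcUnion A = Subtype.val '' range Φ := by
    rw [hrange]
    ext m
    constructor
    · rintro ⟨k, u, hu, s, hs, rfl⟩
      exact ⟨A' (k, ⟨u, hu⟩, ⟨s, hs⟩), ⟨_, rfl⟩, rfl⟩
    · rintro ⟨_, ⟨p, rfl⟩, rfl⟩
      exact ⟨p.1, p.2.1, p.2.1.2, p.2.2, p.2.2.2, rfl⟩
  constructor
  · have hemb : IsEmbedding (fun a => (Φ a : E4)) := IsEmbedding.subtypeVal.comp hce.isEmbedding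
    have e1 := hemb.toHomeomorph
    have e2 : range (fun a => (Φ a : E4)) = arcUnion A := by
      rw [hM, ← range_comp]
      rfl
    exact ⟨(e1.trans (Homeomorph.setCongr e2)).symm⟩
  · obtain ⟨C, hC, hC'⟩ := isClosed_induced_iff.1 hce.isClosed_range
    refine ⟨C, hC, ?_⟩
    rw [hM, ← hC']
    ext m
    constructor
    · rintro ⟨m', hm', rfl⟩
      exact ⟨hm', m'.2⟩
    · rintro ⟨h1, h2⟩
      exact ⟨⟨m, h2⟩, h1, rfl⟩

end Pool.Agent.Lib_MP_59ec1f_cap
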