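import Pool.Agent.Lib_MP_59ec1f_cap.FinalLink
import Pool.Agent.Lib_MP_59ec1f_cap.LowChart
import Pool.Agent.Lib_MP_59ec1f_cap.LowEnds

/-!
# The statement from the tests of the tables
-/

set_option autoImplicit false

open scoped ContDiff Topology

namespace Pool.Agent.Lib_MP_59ec1f_cap

/-- The table `T` of the four strips and the table `W` of the last closed curve pass all tests: the statement follows. -/
theorem StripTab.statement_of_tests {T : StripTab} {W : TopTab} (K : TopLink T W) (h : T.Ok) (h2 : T.Ok2) (h3 : T.Ok3)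
    {KA KB : ℤ} (hA : T.endA.Ok T.mA true KA) (hB : T.endB.Ok T.mB false KB) (ht : K.test = true) : Statement := by
  obtain ⟨μ⟩ := exists_moll
  refine statement_of_tab (μ := μ) h h2 h3 (fitA h hA) (fitB h h2 hB) (glueA hA) (glueB hB) (injA h hA) (injB h hB) K ht ?_
  intro D hlen hsA hsB hsT hΦ p hp hps
  exact hasChart_low h h2 h3 (fitA h hA) (fitB h h2 hB) (glueA hA) (glueB hB)
    (fun i j ρ s h0 h1 hs => locA hA i j h0 h1 hs) (fun i j ρ s h0 h1 hs => locB hB i j h0 h1 hs) D hlen hsA hsB hsT hΦ
    p hp hps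

end Pool.Agent.Lib_MP_59ec1f_cap
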